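import Pool.Agent.VMF.H31_HLW

/-!
Goldie dimension in modular lattices (helper80): if there is no infinite coindependent sequence, then
the finite coindependent sequences have bounded length.
-/

set_option autoImplicit false
set_option linter.unusedVariables false

namespace Pool.Agent.VMF.H31

private theorem GLD_meet {L : Type} [Lattice L] [IsModularLattice L] [OrderBot L] (u : ℕ → L)
    (Y : L) : ∀ k : ℕ,
    (∀ i < k, ∀ a b : L, a ≤ u i → b ≤ u i → a ⊓ b = ⊥ → a = ⊥ ∨ b = ⊥) →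
      (∀ i < k, u i ⊓ (Finset.range i).sup u = ⊥) → (∀ i < k, Y ⊓ u i ≠ ⊥) →
      ∀ z : L, z ≤ (Finset.range k).sup u → z ≠ ⊥ → Y ⊓ z ≠ ⊥ := by
  intro k
  induction k with
  | zero =>
    intro _ _ _ z hz hz0
    exact absurd (le_bot_iff.mp (by simpa using hz)) hz0
  | succ k ih =>
    intro hun hdis hY z hz hz0 hcon
    have ih' := ih (fun i hi => hun i (by omega)) (fun i hi => hdis i (by omega))
      (fun i hi => hY i (by omega))
    obtain ⟨A, hA⟩ : ∃ A, A = (Finset.range k).sup u := ⟨_, rfl⟩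
    have hsup : (Finset.range (k + 1)).sup u = u k ⊔ A := by
      rw [Finset.range_add_one, Finset.sup_insert, hA]
    rw [hsup] at hz
    have hAk : u k ⊓ A = ⊥ := by rw [hA]; exact hdis k (by omega)
    rw [← hA] at ih'
    -- `z` does not meet `A`
    have hzA : z ⊓ A = ⊥ := by
      by_contra h
      refine ih' (z ⊓ A) inf_le_right h ?_
      rw [← inf_assoc, hcon, bot_inf_eq]
    obtain ⟨z', hz'⟩ : ∃ z', z' = (z ⊔ A) ⊓ u k := ⟨_, rfl⟩
    have hzz' : z ⊔ A = A ⊔ z' := by
      have h2 := sup_inf_assoc_of_le (u k) (show A ≤ z ⊔ A from le_sup_right)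
      rw [hz', inf_comm (z ⊔ A) (u k), ← h2, eq_comm, inf_eq_right, sup_comm A]
      exact sup_le hz le_sup_right
    have hz'0 : z' ≠ ⊥ := by
      intro h
      rw [h, sup_bot_eq] at hzz'
      have hle : z ≤ A := by rw [← hzz']; exact le_sup_left
      rw [inf_eq_left.mpr hle] at hzA
      exact hz0 hzA
    obtain ⟨w, hw⟩ : ∃ w, w = z' ⊓ (Y ⊓ u k) := ⟨_, rfl⟩
    have hw0 : w ≠ ⊥ := by
      intro h
      rcases hun k (by omega) z' (Y ⊓ u k) (by rw [hz']; exact inf_le_right) inf_le_right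
        (by rw [← hw]; exact h) with h | h
      · exact hz'0 h
      · exact hY k (by omega) h
    have hwY : w ≤ Y := by rw [hw]; exact inf_le_right.trans inf_le_left
    have hwk : w ≤ u k := by rw [hw]; exact inf_le_right.trans inf_le_right
    have hwz : w ≤ z ⊔ A := by rw [hw, hz']; exact inf_le_left.trans inf_le_left
    have hwA : ¬ w ≤ A := by
      intro h
      apply hw0
      rw [← le_bot_iff, ← hAk]
      exact le_inf hwk h
    obtain ⟨z₁, hz₁⟩ : ∃ z₁, z₁ = (A ⊔ w) ⊓ z := ⟨_, rfl⟩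
    have hz₁0 : z₁ ≠ ⊥ := by
      intro h
      apply hwA
      have h1 : A ⊔ w ⊓ (A ⊔ z) = A ⊔ (z ⊓ (A ⊔ w)) := by
        have h2 := sup_inf_assoc_of_le z (show A ≤ A ⊔ w from le_sup_left)
        rw [← h2]
        have h3 := sup_inf_assoc_of_le w (show A ≤ A ⊔ z from le_sup_left)
        rw [← h3, inf_comm]
      have h4 : w ⊓ (A ⊔ z) = w := by rw [inf_eq_left, sup_comm]; exact hwz
      rw [h4, inf_comm z, ← hz₁, h, sup_bot_eq] at h1
      rw [← h1]
      exact le_sup_right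
    have hz₁z : z₁ ≤ z := by rw [hz₁]; exact inf_le_right
    have hz₁A : z₁ ≤ A ⊔ w := by rw [hz₁]; exact inf_le_left
    obtain ⟨a₁, ha₁⟩ : ∃ a₁, a₁ = (z₁ ⊔ w) ⊓ A := ⟨_, rfl⟩
    have hz₁w : z₁ ⊔ w = w ⊔ a₁ := by
      have h2 := sup_inf_assoc_of_le A (show w ≤ z₁ ⊔ w from le_sup_right)
      rw [ha₁, inf_comm (z₁ ⊔ w) A, ← h2, eq_comm, inf_eq_right]
      refine sup_le ?_ le_sup_left
      rw [sup_comm]
      exact hz₁A
    by_cases ha₁0 : a₁ = ⊥
    · rw [ha₁0, sup_bot_eq] at hz₁w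
      have h1 : z₁ ≤ Y := le_trans (by rw [← hz₁w]; exact le_sup_left) hwY
      apply hz₁0
      rw [← le_bot_iff, ← hcon]
      exact le_inf h1 hz₁z
    · obtain ⟨a₂, ha₂⟩ : ∃ a₂, a₂ = Y ⊓ a₁ := ⟨_, rfl⟩
      have ha₂0 : a₂ ≠ ⊥ := by
        rw [ha₂]
        exact ih' a₁ (by rw [ha₁]; exact inf_le_right) ha₁0
      obtain ⟨z₂, hz₂⟩ : ∃ z₂, z₂ = (a₂ ⊔ w) ⊓ z₁ := ⟨_, rfl⟩
      have hz₂0 : z₂ ≠ ⊥ := by
        intro h
        have h1 : a₂ ⊔ w = w ⊔ z₂ := by
          have h2 := sup_inf_assoc_of_le z₁ (show w ≤ a₂ ⊔ w from le_sup_right)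
          rw [hz₂, inf_comm (a₂ ⊔ w) z₁, ← h2]
          rw [eq_comm, inf_eq_right]
          refine sup_le ?_ le_sup_left
          rw [sup_comm w z₁, hz₁w, ha₂]
          exact inf_le_right.trans le_sup_right
        rw [h, sup_bot_eq] at h1
        have h3 : a₂ ≤ w := by rw [← h1]; exact le_sup_left
        apply ha₂0
        rw [← le_bot_iff, ← hAk]
        refine le_inf (h3.trans hwk) ?_
        rw [ha₂]
        refine inf_le_right.trans ?_
        rw [ha₁]
        exact inf_le_right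
      apply hz₂0
      rw [← le_bot_iff, ← hcon]
      refine le_inf ?_ ?_
      · rw [hz₂]
        refine inf_le_left.trans (sup_le ?_ hwY)
        rw [ha₂]
        exact inf_le_left
      · rw [hz₂]
        exact inf_le_right.trans hz₁z

private theorem GLD_bot (L : Type) [Lattice L] [IsModularLattice L] [OrderBot L]
    (hinf : ¬ ∃ W : ℕ → L, (∀ j, W j ≠ ⊥) ∧ ∀ j, W j ⊓ (Finset.range j).sup W = ⊥)
    (huni : ∀ c : L, c ≠ ⊥ → ∃ h : L, h ≤ c ∧ h ≠ ⊥ ∧
      ∀ a b : L, a ≤ h → b ≤ h → a ⊓ b = ⊥ → a = ⊥ ∨ b = ⊥) :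
    ∃ n : ℕ, ∀ (m : ℕ) (W : ℕ → L), (∀ j < m, W j ≠ ⊥) →
      (∀ j < m, W j ⊓ (Finset.range j).sup W = ⊥) → m ≤ n := by
  classical
  -- the greedy choice
  have hg : ∀ E : L, ∃ g : L, (∃ c : L, c ≠ ⊥ ∧ c ⊓ E = ⊥) →
      g ≠ ⊥ ∧ g ⊓ E = ⊥ ∧ ∀ a b : L, a ≤ g → b ≤ g → a ⊓ b = ⊥ → a = ⊥ ∨ b = ⊥ := by
    intro E
    by_cases h : ∃ c : L, c ≠ ⊥ ∧ c ⊓ E = ⊥
    · obtain ⟨c, hc, hcE⟩ := h
      obtain ⟨h, hh, hh0, hhu⟩ := huni c hc
      refine ⟨h, fun _ => ⟨hh0, ?_, hhu⟩⟩
      rw [← le_bot_iff, ← hcE]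
      exact inf_le_inf_right E hh
    · exact ⟨⊥, fun h' => absurd h' h⟩
  choose g hg using hg
  let E : ℕ → L := fun n => Nat.rec ⊥ (fun _ e => g e ⊔ e) n
  have hE0 : E 0 = ⊥ := rfl
  have hE1 : ∀ n, E (n + 1) = g (E n) ⊔ E n := fun n => rfl
  let u : ℕ → L := fun n => g (E n)
  have hEu : ∀ n, (Finset.range n).sup u = E n := by
    intro n
    induction n with
    | zero => rw [Finset.range_zero, Finset.sup_empty, hE0]
    | succ n ih => rw [Finset.range_add_one, Finset.sup_insert, ih, hE1]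
  have hex : ∃ n, ¬ ∃ c : L, c ≠ ⊥ ∧ c ⊓ E n = ⊥ := by
    by_contra h
    push Not at h
    refine hinf ⟨u, fun j => (hg (E j) (h j)).1, fun j => ?_⟩
    rw [hEu]
    exact (hg (E j) (h j)).2.1
  obtain ⟨n, hn, hmin⟩ : ∃ n, (¬ ∃ c : L, c ≠ ⊥ ∧ c ⊓ E n = ⊥) ∧
      ∀ i < n, ∃ c : L, c ≠ ⊥ ∧ c ⊓ E i = ⊥ :=
    ⟨Nat.find hex, Nat.find_spec hex, fun i hi => not_not.mp (Nat.find_min hex hi)⟩
  have hu1 : ∀ i < n, u i ≠ ⊥ := fun i hi => (hg (E i) (hmin i hi)).1
  have hu2 : ∀ i < n, u i ⊓ (Finset.range i).sup u = ⊥ := by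
    intro i hi
    rw [hEu]
    exact (hg (E i) (hmin i hi)).2.1
  have hu3 : ∀ i < n, ∀ a b : L, a ≤ u i → b ≤ u i → a ⊓ b = ⊥ → a = ⊥ ∨ b = ⊥ :=
    fun i hi => (hg (E i) (hmin i hi)).2.2
  refine ⟨n, fun m x hx1 hx2 => ?_⟩
  let f : ℕ ⊕ ℕ → L := Sum.elim u x
  -- exchange
  have hexch : ∀ (k : ℕ) (s : Finset (ℕ ⊕ ℕ)), (s.filter fun i => i.isRight = true).card = k →
      s.SupIndep f → (∀ i ∈ s, f i ≠ ⊥) → (∀ i, Sum.inl i ∈ s → i < n) → s.card ≤ n := by
    intro k
    induction k with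
    | zero =>
      intro s hs _ _ hn'
      have hsub : s ⊆ (Finset.range n).map ⟨Sum.inl, Sum.inl_injective⟩ := by
        intro i hi
        rw [Finset.card_eq_zero] at hs
        rcases i with i | i
        · rw [Finset.mem_map]
          exact ⟨i, Finset.mem_range.mpr (hn' i hi), rfl⟩
        · exfalso
          have : Sum.inr i ∈ s.filter fun i => i.isRight = true := by
            rw [Finset.mem_filter]
            exact ⟨hi, rfl⟩
          rw [hs] at this
          simp at this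
      have := Finset.card_le_card hsub
      rwa [Finset.card_map, Finset.card_range] at this
    | succ k ih =>
      intro s hs hind hne hn'
      obtain ⟨i0, hi0⟩ : (s.filter fun i => i.isRight = true).Nonempty := by
        rw [← Finset.card_pos]
        omega
      rw [Finset.mem_filter] at hi0
      obtain ⟨hi0s, hi0r⟩ := hi0
      obtain ⟨Y, hYdef⟩ : ∃ Y, Y = (s.erase i0).sup f := ⟨_, rfl⟩
      have hYx : Disjoint (f i0) Y := by
        rw [hYdef]
        exact hind (Finset.erase_subset _ _) hi0s (Finset.notMem_erase _ _)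
      have hex' : ∃ i < n, Y ⊓ u i = ⊥ := by
        by_contra h
        push Not at h
        have hz0 : f i0 ⊓ E n ≠ ⊥ := by
          intro h0
          exact hn ⟨f i0, hne i0 hi0s, h0⟩
        refine GLD_meet u Y n hu3 hu2 h (f i0 ⊓ E n) (by rw [hEu]; exact inf_le_right) hz0 ?_
        rw [← le_bot_iff]
        calc Y ⊓ (f i0 ⊓ E n) ≤ f i0 ⊓ Y := by
              rw [← inf_assoc]
              exact inf_le_left.trans (by rw [inf_comm])
          _ ≤ ⊥ := by rw [hYx.eq_bot]
      obtain ⟨i, hin, hYi⟩ := hex'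
      have hnot : Sum.inl i ∉ s.erase i0 := by
        intro h
        apply hu1 i hin
        rw [← le_bot_iff, ← hYi]
        refine le_inf ?_ le_rfl
        rw [hYdef]
        exact Finset.le_sup (f := f) h
      have hind' : (insert (Sum.inl i) (s.erase i0)).SupIndep f := by
        refine Finset.SupIndep.insert (hind.subset (Finset.erase_subset _ _)) ?_
        rw [← hYdef, disjoint_iff, inf_comm]
        exact hYi
      have hcard : (insert (Sum.inl i) (s.erase i0)).card = s.card := by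
        rw [Finset.card_insert_of_notMem hnot, Finset.card_erase_of_mem hi0s]
        have : 0 < s.card := Finset.card_pos.mpr ⟨i0, hi0s⟩
        omega
      rw [← hcard]
      refine ih _ ?_ hind' ?_ ?_
      · rw [Finset.filter_insert]
        rw [if_neg (by simp)]
        rw [Finset.filter_erase, Finset.card_erase_of_mem, hs]
        · rfl
        · rw [Finset.mem_filter]
          exact ⟨hi0s, hi0r⟩
      · intro j hj
        rw [Finset.mem_insert] at hj
        rcases hj with rfl | hj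
        · exact hu1 i hin
        · exact hne j (Finset.mem_of_mem_erase hj)
      · intro j hj
        rw [Finset.mem_insert] at hj
        rcases hj with hj | hj
        · rw [Sum.inl.inj hj]
          exact hin
        · exact hn' j (Finset.mem_of_mem_erase hj)
  -- the sequence `x` is independent
  have hseq : ∀ k ≤ m, ((Finset.range k).map ⟨Sum.inr, Sum.inr_injective⟩ :
      Finset (ℕ ⊕ ℕ)).SupIndep f := by
    intro k
    induction k with
    | zero =>
      intro _
      rw [Finset.range_zero, Finset.map_empty]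
      exact Finset.supIndep_empty f
    | succ k ih =>
      intro hk
      rw [Finset.range_add_one, Finset.map_insert]
      refine Finset.SupIndep.insert (ih (by omega)) ?_
      rw [Finset.sup_map, disjoint_iff]
      exact hx2 k (by omega)
  have := hexch _ _ rfl (hseq m le_rfl) ?_ ?_
  · rwa [Finset.card_map, Finset.card_range] at this
  · intro i hi
    rw [Finset.mem_map] at hi
    obtain ⟨j, hj, rfl⟩ := hi
    exact hx1 j (Finset.mem_range.mp hj)
  · intro i hi
    rw [Finset.mem_map] at hi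
    obtain ⟨j, hj, hji⟩ := hi
    cases hji

theorem thm_GLD : StGLD := by
  intro L _ _ _ hW
  have huni := thm_HLW L hW
  have h := GLD_bot Lᵒᵈ hW ?_
  · exact h
  · intro c hc
    obtain ⟨h, h1, h2, h3⟩ := huni c hc
    exact ⟨h, h1, h2, fun a b ha hb hab => h3 a b ha hb hab⟩

end Pool.Agent.VMF.H31
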