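import Pool.Agent.VMF.BRI

/-!
# VMF: saturation for finite tuples (helper23)
-/

set_option autoImplicit false
set_option linter.unusedSectionVars false
set_option linter.unusedVariables false

namespace Pool.Agent.VMF

open Set Pool.Agent.MVC FirstOrder
open Pool.Agent.WOM (Mon)

private theorem elim_ren {U : Type} {m n : ℕ} (a : Fin m → U) (x : U) (c : Fin n → U) :
    Sum.elim (Fin.snoc a x : Fin (m + 1) → U) c ∘ (Sum.elim (fun i => Sum.inl (Fin.castSucc i))
      (fun j => Fin.cases (Sum.inl (Fin.last m)) Sum.inr j) :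
        Fin m ⊕ Fin (n + 1) → Fin (m + 1) ⊕ Fin n) =
      Sum.elim a (Fin.cons x c : Fin (n + 1) → U) := by
  funext i
  rcases i with i | j
  · simp
  · refine Fin.cases ?_ (fun j => ?_) j <;> simp

/-- saturation: finitely satisfiable sets of formulas over a finite tuple in finitely many variables are
realised -/
theorem sat_fin (L : FirstOrder.Language.{0, 0}) (U : Type) [L.Structure U] (hM : Mon L U) :
    ∀ (n m : ℕ) (a : Fin m → U) (Γ : Set (L.Formula (Fin m ⊕ Fin n))),
      (∀ G ⊆ Γ, G.Finite → ∃ c : Fin n → U, ∀ φ ∈ G, φ.Realize (Sum.elim a c)) →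
      ∃ c : Fin n → U, ∀ φ ∈ Γ, φ.Realize (Sum.elim a c) := by
  intro n
  induction n with
  | zero =>
    intro m a Γ h
    refine ⟨Fin.elim0, fun φ hφ => ?_⟩
    obtain ⟨c, hc⟩ := h {φ} (singleton_subset_iff.2 hφ) (finite_singleton φ)
    have h1 : c = Fin.elim0 := Subsingleton.elim _ _
    rw [← h1]
    exact hc φ rfl
  | succ n ih =>
    intro m a Γ h
    have hDEFF := Pool.Agent.WOM.thm_DEFF
    -- the first variable
    let D : Set (L.Formula (Fin m ⊕ Fin (n + 1))) → Set U := fun G =>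
      {x | ∃ c : Fin n → U, ∀ φ ∈ G, φ.Realize (Sum.elim a (Fin.cons x c : Fin (n + 1) → U))}
    have hD : ∀ G : Set (L.Formula (Fin m ⊕ Fin (n + 1))), G.Finite →
        (range a).Definable₁ L (D G) := by
      intro G hG
      let E : Set (Fin (n + 1) → U) := {v | ∀ φ ∈ G, φ.Realize (Sum.elim a v)}
      have hE : (range a).Definable L E := by
        have h1 : E = ⋂ φ ∈ hG.toFinset, {v : Fin (n + 1) → U | φ.Realize (Sum.elim a v)} := by
          ext v
          simp [E]
        rw [h1]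
        exact definable_biInter_finset (fun φ => (hDEFF L U m a (Fin (n + 1)) _).2 ⟨φ, rfl⟩)
          hG.toFinset
      have h2 := hE.image_comp (fun _ : Fin 1 => (0 : Fin (n + 1)))
      unfold Set.Definable₁
      have h3 : {x : Fin 1 → U | x 0 ∈ D G} =
          (fun g : Fin (n + 1) → U => g ∘ fun _ : Fin 1 => (0 : Fin (n + 1))) '' E := by
        ext v
        constructor
        · rintro ⟨c, hc⟩
          refine ⟨Fin.cons (v 0) c, hc, ?_⟩
          funext i
          have hi : i = 0 := Subsingleton.elim _ _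
          rw [hi]
          rfl
        · rintro ⟨w, hw, rfl⟩
          refine ⟨Fin.tail w, fun φ hφ => ?_⟩
          have h4 : (Fin.cons ((w ∘ fun _ : Fin 1 => (0 : Fin (n + 1))) 0) (Fin.tail w) :
              Fin (n + 1) → U) = w := Fin.cons_self_tail w
          rw [h4]
          exact hw φ hφ
      rw [h3]
      exact h2
    obtain ⟨x, hx⟩ := hM.sat (range a) (finite_range a) {s | ∃ G ⊆ Γ, G.Finite ∧ s = D G}
      (by
        rintro s ⟨G, -, hG, rfl⟩
        exact hD G hG)
      (by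
        intro F hF hFf
        choose G hG using fun s : F => hF s.2
        have hfin : (⋃ s : F, G s).Finite := by
          have : Finite F := hFf
          exact finite_iUnion fun s => (hG s).2.1
        obtain ⟨c, hc⟩ := h (⋃ s : F, G s) (iUnion_subset fun s => (hG s).1) hfin
        refine ⟨c 0, fun s hs => ?_⟩
        have h1 := (hG ⟨s, hs⟩).2.2
        have h1 : s = D (G ⟨s, hs⟩) := h1
        rw [h1]
        refine ⟨Fin.tail c, fun φ hφ => ?_⟩
        rw [Fin.cons_self_tail]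
        exact hc φ (mem_iUnion.2 ⟨⟨s, hs⟩, hφ⟩))
    -- the other variables
    obtain ⟨c, hc⟩ := ih (m + 1) (Fin.snoc a x : Fin (m + 1) → U)
      ((fun φ => φ.relabel (Sum.elim (fun i => Sum.inl (Fin.castSucc i))
        (fun j => Fin.cases (Sum.inl (Fin.last m)) Sum.inr j))) '' Γ) (by
        intro G' hG' hGf
        obtain ⟨G, hG, hGf', h1⟩ := exists_subset_image_finite_and.1
          ⟨G', hG', hGf, (rfl : G' = G')⟩
        obtain ⟨c, hc⟩ := hx (D G) ⟨G, hG, hGf', rfl⟩
        refine ⟨c, ?_⟩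
        rw [h1]
        rintro _ ⟨φ, hφ, rfl⟩
        rw [FirstOrder.Language.Formula.realize_relabel, elim_ren]
        exact hc φ hφ)
    refine ⟨Fin.cons x c, fun φ hφ => ?_⟩
    have h1 := hc _ ⟨φ, hφ, rfl⟩
    rw [FirstOrder.Language.Formula.realize_relabel, elim_ren] at h1
    exact h1

section

variable {R : Type} [Ring R]

/-- saturation for positive primitive formulas and their negations -/
theorem sat_pp {U : Md R} (hU : MonM R U) {ι κ : Type} [Finite ι] [Finite κ] (a : ι → U)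
    (P N : Set (PP R (ι ⊕ κ)))
    (h : ∀ (s t : Finset (PP R (ι ⊕ κ))), ↑s ⊆ P → ↑t ⊆ N → ∃ c : κ → U,
      (∀ φ ∈ s, Sat φ U (Sum.elim a c)) ∧ ∀ φ ∈ t, ¬ Sat φ U (Sum.elim a c)) :
    ∃ c : κ → U, (∀ φ ∈ P, Sat φ U (Sum.elim a c)) ∧ ∀ φ ∈ N, ¬ Sat φ U (Sum.elim a c) := by
  classical
  obtain ⟨m, ⟨e⟩⟩ := Finite.exists_equiv_fin ι
  obtain ⟨n, ⟨e'⟩⟩ := Finite.exists_equiv_fin κ
  let iU : (LMod R).Structure U := modStr R U
  -- translation
  have h1 : ∀ φ : PP R (ι ⊕ κ), ∃ ψ : (LMod R).Formula (Fin m ⊕ Fin n), ∀ x : Fin n → U,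
      ψ.Realize (Sum.elim (a ∘ e.symm) x) ↔ Sat φ U (Sum.elim a (x ∘ e')) := by
    intro φ
    obtain ⟨ψ, hψ⟩ := thm_FOR R (m + n) (ren (finSumFinEquiv ∘ Sum.map e e') φ)
    refine ⟨ψ.relabel finSumFinEquiv.symm, fun x => ?_⟩
    rw [FirstOrder.Language.Formula.realize_relabel]
    refine (hψ U _).trans ?_
    rw [sat_ren]
    have h2 : (Sum.elim (a ∘ e.symm) x ∘ finSumFinEquiv.symm) ∘ finSumFinEquiv ∘ Sum.map e e' =
        Sum.elim a (x ∘ e') := by
      funext i
      rcases i with i | i <;> simp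
    rw [h2]
  choose F hF using h1
  obtain ⟨c, hc⟩ := sat_fin (LMod R) U hU n m (a ∘ e.symm)
    (F '' P ∪ (fun φ => FirstOrder.Language.Formula.not (F φ)) '' N) (by
      intro G hG hGf
      have hs : ∃ s : Finset (PP R (ι ⊕ κ)), ↑s ⊆ P ∧ G ∩ F '' P ⊆ F '' s := by
        obtain ⟨s, hs, hsf, h2⟩ := exists_subset_image_finite_and.1
          ⟨G ∩ F '' P, inter_subset_right, hGf.subset inter_subset_left,
            (rfl : G ∩ F '' P = G ∩ F '' P)⟩
        refine ⟨hsf.toFinset, ?_, ?_⟩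
        · rw [hsf.coe_toFinset]
          exact hs
        · rw [hsf.coe_toFinset, ← h2]
      have ht : ∃ t : Finset (PP R (ι ⊕ κ)), ↑t ⊆ N ∧
          G ∩ (fun φ => FirstOrder.Language.Formula.not (F φ)) '' N ⊆
            (fun φ => FirstOrder.Language.Formula.not (F φ)) '' t := by
        obtain ⟨s, hs, hsf, h2⟩ := exists_subset_image_finite_and.1
          ⟨G ∩ (fun φ => FirstOrder.Language.Formula.not (F φ)) '' N, inter_subset_right,
            hGf.subset inter_subset_left, (rfl : G ∩ (fun φ =>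
              FirstOrder.Language.Formula.not (F φ)) '' N = G ∩ (fun φ =>
              FirstOrder.Language.Formula.not (F φ)) '' N)⟩
        refine ⟨hsf.toFinset, ?_, ?_⟩
        · rw [hsf.coe_toFinset]
          exact hs
        · rw [hsf.coe_toFinset, ← h2]
      obtain ⟨s, hs, hs'⟩ := hs
      obtain ⟨t, ht, ht'⟩ := ht
      obtain ⟨c, hc1, hc2⟩ := h s t hs ht
      have h3 : (c ∘ e'.symm) ∘ e' = c := by
        funext i
        simp
      refine ⟨c ∘ e'.symm, fun ψ hψ => ?_⟩
      rcases hG hψ with h4 | h4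
      · obtain ⟨φ, hφ, rfl⟩ := hs' ⟨hψ, h4⟩
        rw [hF, h3]
        exact hc1 φ hφ
      · obtain ⟨φ, hφ, rfl⟩ := ht' ⟨hψ, h4⟩
        rw [FirstOrder.Language.Formula.realize_not, hF, h3]
        exact hc2 φ hφ)
  refine ⟨c ∘ e', fun φ hφ => ?_, fun φ hφ => ?_⟩
  · exact (hF φ c).1 (hc _ (Or.inl ⟨φ, hφ, rfl⟩))
  · have h2 := hc _ (Or.inr ⟨φ, hφ, rfl⟩)
    rw [FirstOrder.Language.Formula.realize_not, hF] at h2
    exact h2

end

end Pool.Agent.VMF
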