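import Pool.Agent.VMF.BRI
import Pool.Agent.VMA.Api

/-!
# VMF: the saturated module as a saturated abelian structure (helper73)

`absU`: the instance of `VMA.Abs`. Dictionary between the sets of positive primitive formulas of
`VMF/Defs.lean` and the types of `VMA`.
-/

set_option autoImplicit false
set_option linter.unusedSectionVars false
set_option linter.unusedVariables false

namespace Pool.Agent.VMF

open Set Pool.Agent.MVC Pool.Agent.MVC.Ax

section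

variable {R : Type} [Ring R] {ι κ : Type}

/-- homogeneity for positive primitive types -/
def HomU (U : Md R) : Prop := ∀ (ι : Type) [Finite ι] (a b : ι → U),
  pp (R := R) U a = pp (R := R) U b → ∃ γ : U ≃ₗ[R] U, ∀ i, γ (a i) = b i

/-- saturation for countably many positive primitive conditions and negations over a finite tuple -/
def SatU (U : Md R) : Prop := ∀ (ι κ : Type) [Finite ι] [Finite κ] (a : ι → U)
  (φ : ℕ → PP R (ι ⊕ κ)) (b : ℕ → Prop),
  (∀ n, ∃ x : κ → U, ∀ j < n, (Sat (φ j) U (Sum.elim a x) ↔ b j)) →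
  ∃ x : κ → U, ∀ j, (Sat (φ j) U (Sum.elim a x) ↔ b j)

theorem isPP_comap_isZ {U : Md R} [Finite ι] [Finite κ] {h : (ι → U) →+ (κ → U)}
    (hz : VMA.IsZ h) (φ : PP R κ) : ∃ ψ : PP R ι, (satGroup φ U).comap h = satGroup ψ U := by
  obtain ⟨A, hA⟩ := VMA.isZ_iff.1 hz
  obtain ⟨ψ, hψ⟩ := (isPP_sat φ).subst (fun k => (A k).mapRange (fun n : ℤ => (n : R)) (by simp))
  refine ⟨ψ, ?_⟩
  ext x
  rw [AddSubgroup.mem_comap, mem_satGroup, mem_satGroup, ← hψ U x]
  have h1 : h x = fun k => Finsupp.linearCombination R x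
      ((A k).mapRange (fun n : ℤ => (n : R)) (by simp)) := by
    funext k
    rw [hA, VMA.ev_apply, Finsupp.linearCombination_apply, Finsupp.sum_mapRange_index (by simp)]
    exact Finsupp.sum_congr fun i _ => (Int.cast_smul_eq_zsmul R _ _).symm
  rw [h1]

theorem isPP_map_isZ {U : Md R} [Finite ι] [Finite κ] {h : (ι → U) →+ (κ → U)}
    (hz : VMA.IsZ h) (φ : PP R ι) : ∃ ψ : PP R κ, (satGroup φ U).map h = satGroup ψ U := by
  -- {(y, x) | x in φ, h x - y = 0}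
  classical
  have hk : VMA.IsZ (h.comp (VMA.pR : (κ ⊕ ι → U) →+ (ι → U)) - VMA.pL) :=
    (hz.comp VMA.isZ_pR).sub VMA.isZ_pL
  have hzero : ∃ ζ : PP R κ, satGroup ζ U = (⊥ : AddSubgroup (κ → U)) := by
    have := Fintype.ofFinite κ
    obtain ⟨ζ, hζ⟩ := isPP_list (R := R) (ι := κ)
      ((Finset.univ : Finset κ).toList.map fun k => ([Finsupp.single (Sum.inl k) 1] : PP R κ))
    refine ⟨ζ, ?_⟩
    ext x
    rw [mem_satGroup, ← hζ U x, AddSubgroup.mem_bot]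
    constructor
    · intro hx
      funext k
      obtain ⟨y, hy⟩ := hx _ (List.mem_map.2 ⟨k, Finset.mem_toList.2 (Finset.mem_univ k), rfl⟩)
      have := hy _ (List.mem_singleton.2 rfl)
      simpa using this
    · rintro rfl φ hφ
      exact Sat.zero φ
  obtain ⟨ζ, hζ⟩ := hzero
  obtain ⟨η, hη⟩ := isPP_comap_isZ hk ζ
  obtain ⟨χ, hχ⟩ := (((isPP_sat φ).comap (Sum.inr : ι → κ ⊕ ι)).and (isPP_sat η)).ex
  refine ⟨χ, ?_⟩
  ext y
  rw [mem_satGroup, ← hχ U y]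
  constructor
  · rintro ⟨x, hx, rfl⟩
    refine ⟨x, hx, ?_⟩
    rw [← mem_satGroup, ← hη, hζ]
    show h x - h x ∈ (⊥ : AddSubgroup (κ → U))
    rw [sub_self]
    exact AddSubgroup.zero_mem _
  · rintro ⟨x, hx, hxy⟩
    rw [← mem_satGroup, ← hη, hζ] at hxy
    have h1 : h x - y ∈ (⊥ : AddSubgroup (κ → U)) := hxy
    rw [AddSubgroup.mem_bot, sub_eq_zero] at h1
    exact ⟨x, hx, h1⟩

theorem isPP_bot {U : Md R} [Finite ι] : ∃ ζ : PP R ι, satGroup ζ U = (⊥ : AddSubgroup (ι → U)) := by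
  classical
  have := Fintype.ofFinite ι
  obtain ⟨ζ, hζ⟩ := isPP_list (R := R) (ι := ι)
    ((Finset.univ : Finset ι).toList.map fun k => ([Finsupp.single (Sum.inl k) 1] : PP R ι))
  refine ⟨ζ, ?_⟩
  ext x
  rw [mem_satGroup, ← hζ U x, AddSubgroup.mem_bot]
  constructor
  · intro hx
    funext k
    obtain ⟨y, hy⟩ := hx _ (List.mem_map.2 ⟨k, Finset.mem_toList.2 (Finset.mem_univ k), rfl⟩)
    have := hy _ (List.mem_singleton.2 rfl)
    simpa using this
  · rintro rfl φ hφ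
    exact Sat.zero φ

/-- THE INSTANCE -/
def absU (U : Md R) (hR : Countable R) (hc : Countable U) (hh : HomU U) (hs : SatU U) :
    VMA.Abs U where
  PP ι := {H | ∃ φ : PP R ι, H = satGroup φ U}
  Gam := {γ | ∃ g : U ≃ₗ[R] U, γ = g.toAddEquiv}
  g_refl := ⟨LinearEquiv.refl R U, rfl⟩
  g_symm := by
    rintro _ ⟨g, rfl⟩
    exact ⟨g.symm, rfl⟩
  g_trans := by
    rintro _ ⟨g, rfl⟩ _ ⟨g', rfl⟩
    exact ⟨g.trans g', rfl⟩
  ctbl := hc
  cnt ι _ := by
    have h1 : Countable (PP R ι) := inferInstanceAs (Countable (List ((ι ⊕ ℕ) →₀ R)))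
    have h2 : {H : AddSubgroup (ι → U) | ∃ φ : PP R ι, H = satGroup φ U} =
        Set.range (fun φ : PP R ι => satGroup φ (U : Type)) := by
      ext H
      constructor
      · rintro ⟨φ, rfl⟩
        exact ⟨φ, rfl⟩
      · rintro ⟨φ, rfl⟩
        exact ⟨φ, rfl⟩
    rw [h2]
    exact Set.countable_range _
  top_mem ι _ := by
    obtain ⟨φ, hφ⟩ := isPP_true (R := R) (ι := ι)
    refine ⟨φ, ?_⟩
    ext x
    rw [mem_satGroup, ← hφ U x]
    simp
  bot_mem ι _ := by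
    obtain ⟨ζ, hζ⟩ := isPP_bot (U := U) (ι := ι)
    exact ⟨ζ, hζ.symm⟩
  inf_mem ι _ := by
    rintro _ ⟨φ, rfl⟩ _ ⟨ψ, rfl⟩
    obtain ⟨χ, hχ⟩ := (isPP_sat φ).and (isPP_sat ψ)
    refine ⟨χ, ?_⟩
    ext x
    rw [mem_satGroup, ← hχ U x]
    exact Iff.rfl
  comap_mem ι κ _ _ h hz := by
    rintro _ ⟨φ, rfl⟩
    obtain ⟨ψ, hψ⟩ := isPP_comap_isZ hz φ
    exact ⟨ψ, hψ⟩
  map_mem ι κ _ _ h hz := by
    rintro _ ⟨φ, rfl⟩
    obtain ⟨ψ, hψ⟩ := isPP_map_isZ hz φ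
    exact ⟨ψ, hψ⟩
  inv ι _ := by
    rintro _ ⟨φ, rfl⟩ _ ⟨g, rfl⟩ x hx
    exact Sat.map hx (g : U →ₗ[R] U)
  sat ι κ _ _ a φ b hφ h := by
    choose ψ hψ using hφ
    obtain ⟨x, hx⟩ := hs ι κ a ψ b (fun n => by
      obtain ⟨x, hx⟩ := h n
      refine ⟨x, fun j hj => ?_⟩
      rw [← hx j hj, hψ j]
      exact Iff.rfl)
    refine ⟨x, fun j => ?_⟩
    rw [← hx j, hψ j]
    exact Iff.rfl
  hom ι _ a b h := by
    obtain ⟨g, hg⟩ := hh ι a b (by
      ext φ
      exact h _ ⟨φ, rfl⟩)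
    exact ⟨g.toAddEquiv, ⟨g, rfl⟩, hg⟩

variable {U : Md R} {hR : Countable R} {hc : Countable U} {hh : HomU U} {hs : SatU U}

theorem absU_mem_PP {H : AddSubgroup (ι → U)} :
    H ∈ (absU U hR hc hh hs).PP ι ↔ ∃ φ : PP R ι, H = satGroup φ U := Iff.rfl

/-- types are the groups of sets of formulas -/
theorem absU_isT {q : AddSubgroup (ι → U)} :
    (absU U hR hc hh hs).IsT q ↔ ∃ S : Set (PP R ι), q = grp U S := by
  constructor
  · rintro ⟨P, hP, rfl⟩
    refine ⟨{φ | satGroup φ U ∈ P}, ?_⟩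
    ext x
    rw [AddSubgroup.mem_sInf, mem_grp]
    constructor
    · intro h φ hφ
      exact h _ hφ
    · intro h s hs'
      obtain ⟨φ, rfl⟩ := hP hs'
      exact h φ hs'
  · rintro ⟨S, rfl⟩
    refine ⟨{H | ∃ φ ∈ S, H = satGroup φ U}, ?_, ?_⟩
    · rintro _ ⟨φ, -, rfl⟩
      exact ⟨φ, rfl⟩
    · ext x
      rw [AddSubgroup.mem_sInf, mem_grp]
      constructor
      · rintro h _ ⟨φ, hφ, rfl⟩
        exact h φ hφ
      · intro h φ hφ
        exact h _ ⟨φ, hφ, rfl⟩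

theorem absU_pp (a : ι → U) : (absU U hR hc hh hs).pp a = grp U (pp (R := R) U a) := by
  ext x
  unfold VMA.Abs.pp
  rw [AddSubgroup.mem_sInf, mem_grp]
  constructor
  · intro h φ hφ
    exact h _ ⟨⟨φ, rfl⟩, hφ⟩
  · rintro h _ ⟨⟨φ, rfl⟩, hφ⟩
    exact h φ hφ

/-- the type determines the group and conversely -/
theorem absU_pp_eq {a b : ι → U} (h : (absU U hR hc hh hs).pp a = (absU U hR hc hh hs).pp b) :
    pp (R := R) U a = pp (R := R) U b := by
  rw [absU_pp, absU_pp] at h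
  have key : ∀ a b : ι → U, grp U (pp (R := R) U a) = grp U (pp (R := R) U b) →
      pp (R := R) U b ⊆ pp (R := R) U a := by
    intro a b h φ hφ
    have h1 : a ∈ grp U (pp (R := R) U a) := fun ψ hψ => hψ
    rw [h] at h1
    exact h1 φ hφ
  exact Subset.antisymm (key b a h.symm) (key a b h)

theorem absU_FI {S : Set (PP R ι)} {p : AddSubgroup (ι → U)} :
    (absU U hR hc hh hs).FI p (grp U S) ↔
      ∃ S' : Set (PP R ι), p = grp U S' ∧ grp U S' ≤ grp U S ∧ FIn U S S' := by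
  constructor
  · rintro ⟨h1, h2, h3⟩
    obtain ⟨S', rfl⟩ := absU_isT.1 h1
    exact ⟨S', rfl, h2, h3⟩
  · rintro ⟨S', rfl, h2, h3⟩
    exact ⟨absU_isT.2 ⟨S', rfl⟩, h2, h3⟩

/-- `q^1` of the two texts is the same (inside `q`) -/
theorem absU_q1 (S : Set (PP R ι)) :
    (absU U hR hc hh hs).q1 (grp U S) = grp U S ⊓ grp U (one U S) := by
  apply le_antisymm
  · refine le_inf (sInf_le ⟨⟨absU_isT.2 ⟨S, rfl⟩, le_rfl, ?_⟩, fun χ _ h => h⟩) ?_
    · rw [AddSubgroup.relIndex_self]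
      exact one_ne_zero
    · intro x hx ψ hψ
      unfold VMA.Abs.q1 at hx
      rw [AddSubgroup.mem_sInf] at hx
      have h1 := hx (grp U S ⊓ grp U {ψ}) ⟨⟨absU_isT.2 ⟨S ∪ {ψ}, by
        ext y
        rw [AddSubgroup.mem_inf, mem_grp, mem_grp, mem_grp]
        constructor
        · rintro ⟨h1, h2⟩ φ (hφ | hφ)
          · exact h1 φ hφ
          · exact h2 φ hφ
        · intro h
          exact ⟨fun φ hφ => h φ (Or.inl hφ), fun φ hφ => h φ (Or.inr hφ)⟩⟩, inf_le_left, by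
          rw [AddSubgroup.inf_relIndex_left]
          exact hψ.1⟩, by
        rintro _ ⟨χ, rfl⟩ hχ
        refine le_inf hχ fun y hy => ?_
        exact hψ.2 χ (fun z hz => hχ hz) y hy⟩
      exact h1.2 ψ rfl
  · refine le_sInf ?_
    rintro p ⟨⟨hp, hpS, hpi⟩, hχ⟩
    obtain ⟨S', rfl⟩ := absU_isT.1 hp
    rintro x ⟨hxS, hx1⟩ φ hφ
    refine hx1 φ ⟨?_, ?_⟩
    · intro h0
      refine hpi (AddSubgroup.relIndex_eq_zero_of_le_left ?_ h0)
      intro y hy ψ hψ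
      rw [Set.mem_singleton_iff] at hψ
      subst hψ
      exact hy ψ hφ
    · intro χ hχS y hy ψ hψ
      rw [Set.mem_singleton_iff] at hψ
      subst hψ
      exact hχ (satGroup χ U) ⟨χ, rfl⟩ (fun z hz => hχS z hz) hy ψ hφ

end

end Pool.Agent.VMF
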