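import Pool.Agent.VMF.StK

/-!
# VMF: few types, few ages (helper23)
-/

set_option autoImplicit false
set_option linter.unusedSectionVars false
set_option linter.unusedVariables false

namespace Pool.Agent.VMF

open Set Pool.Agent.MVC FirstOrder

section

variable {R : Type} [Ring R] [Countable R] {T : (LMod R).Theory} {n : ℕ}

/-- satisfaction of one positive primitive formula -/
theorem Msr.sat (hT : ∀ S : (LMod R).Structure ℕ,
      @FirstOrder.Language.Theory.Model (LMod R) ℕ S T → IsMod S) (φ : PP R (Fin n)) :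
    Msr T (fun (M : Type) [AddCommGroup M] [Module R M] (x : Fin n → M) => Sat φ M x) := by
  refine (Msr.sat1 hT (ofRe {φ})).congr fun M _ _ x => ?_
  rw [sat1_ofRe]
  exact ⟨fun h => h φ rfl, fun h ψ hψ => by
    rw [mem_singleton_iff.mp hψ]
    exact h⟩

/-- the type of a tuple is a given one -/
theorem Msr.pp_eq (hT : ∀ S : (LMod R).Structure ℕ,
      @FirstOrder.Language.Theory.Model (LMod R) ℕ S T → IsMod S) (p : Set (PP R (Fin n))) :
    Msr T (fun (M : Type) [AddCommGroup M] [Module R M] (x : Fin n → M) => pp M x = p) := by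
  have h1 : ∀ φ : PP R (Fin n), Msr T (fun (M : Type) [AddCommGroup M] [Module R M]
      (x : Fin n → M) => Sat φ M x ↔ φ ∈ p) := by
    intro φ
    by_cases hφ : φ ∈ p
    · exact (Msr.sat hT φ).congr fun M _ _ x => by simp [hφ]
    · exact ((Msr.sat hT φ).not hT).congr fun M _ _ x => by simp [hφ]
  refine (Msr.iInter hT h1).congr fun M _ _ x => ?_
  constructor
  · intro h
    ext φ
    exact h φ
  · intro h φ
    have h2 : φ ∈ pp M x ↔ φ ∈ p := by rw [h]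
    exact h2

theorem few0_fin (hT : ∀ S : (LMod R).Structure ℕ,
      @FirstOrder.Language.Theory.Model (LMod R) ℕ S T → IsMod S) (hnp : ¬ PerfMod T) (n : ℕ) :
    {p : Set (PP R (Fin n)) | ∃ M : Md R, Countable M ∧ Infinite M ∧
      Mods T M ∧ ∃ x : Fin n → M, pp M x = p}.Countable := by
  have h := few_values hT hnp (J := PP R (Fin n)) (n := n)
    (fun φ M _ _ x => Sat φ M x) (fun φ => Msr.sat hT φ)
  refine (h.image fun Z => {φ | Z φ}).mono ?_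
  rintro p ⟨M, hc, hi, hM, x, rfl⟩
  exact ⟨_, ⟨M, hc, hi, hM, x, rfl⟩, rfl⟩

private theorem append_eq {M : Type} {k : ℕ} (x : Fin n → M) (c : Fin k → M) :
    Fin.append x c ∘ finSumFinEquiv = Sum.elim x c := by
  funext i
  rcases i with i | i <;> simp

/-- a given type is realised by an extension of the tuple -/
theorem Msr.ext (hT : ∀ S : (LMod R).Structure ℕ,
      @FirstOrder.Language.Theory.Model (LMod R) ℕ S T → IsMod S) {k : ℕ}
    (p : Set (PP R (Fin n ⊕ Fin k))) :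
    Msr T (fun (M : Type) [AddCommGroup M] [Module R M] (x : Fin n → M) =>
      ∃ c : Fin k → M, pp M (Sum.elim x c) = p) := by
  have h1 : ∀ φ : PP R (Fin n ⊕ Fin k), Msr T (n := n + k) (fun (M : Type) [AddCommGroup M]
      [Module R M] (z : Fin (n + k) → M) => Sat (ren finSumFinEquiv φ) M z ↔ φ ∈ p) := by
    intro φ
    by_cases hφ : φ ∈ p
    · exact (Msr.sat hT (ren finSumFinEquiv φ)).congr fun M _ _ x => by simp [hφ]
    · exact ((Msr.sat hT (ren finSumFinEquiv φ)).not hT).congr fun M _ _ x => by simp [hφ]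
  refine ((Msr.iInter hT h1).ex hT).congr fun M _ _ x => exists_congr fun c => ?_
  have h2 : ∀ φ : PP R (Fin n ⊕ Fin k), Sat (ren finSumFinEquiv φ) M (Fin.append x c) ↔
      φ ∈ pp M (Sum.elim x c) := by
    intro φ
    rw [sat_ren, append_eq]
    exact Iff.rfl
  constructor
  · intro h
    ext φ
    exact (h2 φ).symm.trans (h φ)
  · intro h φ
    rw [h2 φ, h]

/-- the types of the countable models, as an index set -/
private def J0 (T : (LMod R).Theory) (n : ℕ) : Set ((k : ℕ) × Set (PP R (Fin n ⊕ Fin k))) :=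
  {σ | ∃ M : Md R, Countable M ∧ Infinite M ∧ Mods T M ∧ ∃ (x : Fin n → M) (c : Fin σ.1 → M),
    pp M (Sum.elim x c) = σ.2}

private theorem J0_ctbl (hT : ∀ S : (LMod R).Structure ℕ,
      @FirstOrder.Language.Theory.Model (LMod R) ℕ S T → IsMod S) (hnp : ¬ PerfMod T) (n : ℕ) :
    (J0 T n).Countable := by
  refine (countable_iUnion fun k : ℕ => (few0_fin hT hnp (n + k)).image fun p =>
    (⟨k, {φ | ren finSumFinEquiv φ ∈ p}⟩ : (k : ℕ) × Set (PP R (Fin n ⊕ Fin k)))).mono ?_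
  rintro ⟨k, p⟩ ⟨M, hc, hi, hM, x, c, h⟩
  refine mem_iUnion.2 ⟨k, _, ⟨M, hc, hi, hM, Fin.append x c, rfl⟩, ?_⟩
  have h1 : {φ : PP R (Fin n ⊕ Fin k) | ren finSumFinEquiv φ ∈ pp M (Fin.append x c)} = p := by
    have h : pp M (Sum.elim x c) = p := h
    rw [← h]
    ext φ
    show Sat (ren finSumFinEquiv φ) M (Fin.append x c) ↔ Sat φ M (Sum.elim x c)
    rw [sat_ren, append_eq]
  show (⟨k, _⟩ : (k : ℕ) × Set (PP R (Fin n ⊕ Fin k))) = ⟨k, p⟩
  rw [h1]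

private theorem age_sub {M : Md R} (hc : Countable M) (hi : Infinite M) (hM : Mods T M)
    (x : Fin n → M) : age (R := R) M x ⊆ J0 T n := by
  rintro ⟨k, p⟩ ⟨c, h⟩
  exact ⟨M, hc, hi, hM, x, c, h⟩

theorem few3_fin (hT : ∀ S : (LMod R).Structure ℕ,
      @FirstOrder.Language.Theory.Model (LMod R) ℕ S T → IsMod S) (hnp : ¬ PerfMod T) (n : ℕ) :
    {A : Set ((k : ℕ) × Set (PP R (Fin n ⊕ Fin k))) | ∃ M : Md R, Countable M ∧ Infinite M ∧
      Mods T M ∧ ∃ x : Fin n → M, age M x = A}.Countable := by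
  have _ : Countable (J0 T n) := (J0_ctbl hT hnp n).to_subtype
  have h := few_values hT hnp (J := J0 T n) (n := n)
    (fun σ M _ _ x => ∃ c : Fin σ.1.1 → M, pp M (Sum.elim x c) = σ.1.2)
    (fun σ => Msr.ext hT σ.1.2)
  refine (h.image fun Z => {σ | ∃ hσ : σ ∈ J0 T n, Z ⟨σ, hσ⟩}).mono ?_
  rintro A ⟨M, hc, hi, hM, x, rfl⟩
  refine ⟨_, ⟨M, hc, hi, hM, x, rfl⟩, ?_⟩
  ext σ
  constructor
  · rintro ⟨_, c, h⟩
    exact ⟨c, h⟩
  · rintro ⟨c, h⟩
    exact ⟨age_sub hc hi hM x ⟨c, h⟩, c, h⟩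

/-- the age of a tuple is a given one -/
theorem Msr.age_eq (hT : ∀ S : (LMod R).Structure ℕ,
      @FirstOrder.Language.Theory.Model (LMod R) ℕ S T → IsMod S) (hnp : ¬ PerfMod T)
    (A : Set ((k : ℕ) × Set (PP R (Fin n ⊕ Fin k)))) :
    Msr T (fun (M : Type) [AddCommGroup M] [Module R M] (x : Fin n → M) =>
      ∀ σ : J0 T n, (∃ c : Fin σ.1.1 → M, pp M (Sum.elim x c) = σ.1.2) ↔ σ.1 ∈ A) := by
  have _ : Countable (J0 T n) := (J0_ctbl hT hnp n).to_subtype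
  refine Msr.iInter hT fun σ => ?_
  by_cases hσ : σ.1 ∈ A
  · exact (Msr.ext hT σ.1.2).congr fun M _ _ x => by simp [hσ]
  · exact ((Msr.ext hT σ.1.2).not hT).congr fun M _ _ x => by simp [hσ]

private theorem age_iff {M : Md R} (hc : Countable M) (hi : Infinite M) (hM : Mods T M)
    (x : Fin n → M) {A : Set ((k : ℕ) × Set (PP R (Fin n ⊕ Fin k)))} (hA : A ⊆ J0 T n) :
    (∀ σ : J0 T n, (∃ c : Fin σ.1.1 → M, pp M (Sum.elim x c) = σ.1.2) ↔ σ.1 ∈ A) ↔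
      age M x = A := by
  constructor
  · intro h
    ext σ
    constructor
    · intro hσ
      exact (h ⟨σ, age_sub hc hi hM x hσ⟩).1 hσ
    · intro hσ
      exact (h ⟨σ, hA hσ⟩).2 hσ
  · rintro rfl σ
    exact Iff.rfl

/-- the ages of the countable models, as an index set -/
private def J1 (T : (LMod R).Theory) :
    Set ((n : ℕ) × Set ((k : ℕ) × Set (PP R (Fin n ⊕ Fin k)))) :=
  {σ | ∃ M : Md R, Countable M ∧ Infinite M ∧ Mods T M ∧ ∃ x : Fin σ.1 → M, age M x = σ.2}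

private theorem J1_ctbl (hT : ∀ S : (LMod R).Structure ℕ,
      @FirstOrder.Language.Theory.Model (LMod R) ℕ S T → IsMod S) (hnp : ¬ PerfMod T) :
    (J1 T).Countable := by
  refine (countable_iUnion fun n : ℕ => (few3_fin hT hnp n).image fun A =>
    (⟨n, A⟩ : (n : ℕ) × Set ((k : ℕ) × Set (PP R (Fin n ⊕ Fin k))))).mono ?_
  rintro ⟨n, A⟩ h
  exact mem_iUnion.2 ⟨n, A, h, rfl⟩

private theorem J1_sub {σ : (n : ℕ) × Set ((k : ℕ) × Set (PP R (Fin n ⊕ Fin k)))}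
    (h : σ ∈ J1 T) : σ.2 ⊆ J0 T σ.1 := by
  obtain ⟨M, hc, hi, hM, x, hx⟩ := h
  rw [← hx]
  exact age_sub hc hi hM x

theorem few4_inf (hT : ∀ S : (LMod R).Structure ℕ,
      @FirstOrder.Language.Theory.Model (LMod R) ℕ S T → IsMod S) (hnp : ¬ PerfMod T) :
    {Θ : Set ((n : ℕ) × Set ((k : ℕ) × Set (PP R (Fin n ⊕ Fin k)))) |
      ∃ M : Md R, Countable M ∧ Infinite M ∧ Mods T M ∧ ages R M = Θ}.Countable := by
  have _ : Countable (J1 T) := (J1_ctbl hT hnp).to_subtype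
  have hm : ∀ σ : J1 T, Msr T (n := 0) (fun (M : Type) [AddCommGroup M] [Module R M]
      (_ : Fin 0 → M) => ∃ x : Fin σ.1.1 → M, ∀ τ : J0 T σ.1.1,
        (∃ c : Fin τ.1.1 → M, pp M (Sum.elim x c) = τ.1.2) ↔ τ.1 ∈ σ.1.2) := by
    intro σ
    refine (Msr.ex (n := 0) (k := σ.1.1) hT ((Msr.age_eq hT hnp σ.1.2).comap hT
      (fun i => Fin.natAdd 0 i))).congr fun M _ _ x => exists_congr fun y => ?_
    have h1 : Fin.append x y ∘ (fun i => Fin.natAdd 0 i) = y := by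
      funext i
      exact Fin.append_right x y i
    rw [h1]
  have h := few_values hT hnp (J := J1 T) (n := 0) _ hm
  refine (h.image fun Z => {σ | ∃ hσ : σ ∈ J1 T, Z ⟨σ, hσ⟩}).mono ?_
  rintro Θ ⟨M, hc, hi, hM, rfl⟩
  refine ⟨_, ⟨M, hc, hi, hM, fun i => i.elim0, rfl⟩, ?_⟩
  ext σ
  constructor
  · rintro ⟨hσ, x, h⟩
    exact ⟨x, (age_iff hc hi hM x (J1_sub hσ)).1 h⟩
  · rintro ⟨x, h⟩
    have hσ : σ ∈ J1 T := ⟨M, hc, hi, hM, x, h⟩
    exact ⟨hσ, x, (age_iff hc hi hM x (J1_sub hσ)).2 h⟩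

end

section

variable {R : Type} [Ring R] {ι κ : Type}

/-- renaming of the variables of a tuple in its age -/
noncomputable def renA (e : ι → κ) (A : Set ((k : ℕ) × Set (PP R (κ ⊕ Fin k)))) :
    Set ((k : ℕ) × Set (PP R (ι ⊕ Fin k))) :=
  (fun σ => ⟨σ.1, {φ | ren (Sum.map e id) φ ∈ σ.2}⟩) '' A

theorem age_comp {M : Type} [AddCommGroup M] [Module R M] (e : ι → κ) (a : κ → M) :
    age (R := R) M (a ∘ e) = renA e (age M a) := by
  have h1 : ∀ (k : ℕ) (c : Fin k → M), {φ : PP R (ι ⊕ Fin k) | ren (Sum.map e id) φ ∈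
      pp M (Sum.elim a c)} = pp M (Sum.elim (a ∘ e) c) := by
    intro k c
    ext φ
    show Sat (ren (Sum.map e id) φ) M (Sum.elim a c) ↔ Sat φ M (Sum.elim (a ∘ e) c)
    rw [sat_ren, Sum.elim_comp_map, Function.comp_id]
  ext ⟨k, p⟩
  constructor
  · rintro ⟨c, h⟩
    refine ⟨⟨k, pp M (Sum.elim a c)⟩, ⟨c, rfl⟩, ?_⟩
    have h : pp M (Sum.elim (a ∘ e) c) = p := h
    show (⟨k, _⟩ : (k : ℕ) × Set (PP R (ι ⊕ Fin k))) = ⟨k, p⟩
    rw [h1, h]
  · rintro ⟨⟨k', q⟩, ⟨c, h⟩, h2⟩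
    have h : q = pp M (Sum.elim a c) := (id h : pp M (Sum.elim a c) = q).symm
    have h2 : (⟨k', {φ | ren (Sum.map e id) φ ∈ q}⟩ :
      (k : ℕ) × Set (PP R (ι ⊕ Fin k))) = ⟨k, p⟩ := h2
    rw [h, h1] at h2
    rw [← h2]
    exact ⟨c, rfl⟩

end

theorem thm_FEW : St_FEW := by
  intro R _ _ U _ _ hU hMT hnp
  have hT : ∀ S : (LMod R).Structure ℕ,
      @FirstOrder.Language.Theory.Model (LMod R) ℕ S (Th R U) → IsMod S := fun S h => hMT ℕ S h
  have hinf : ∀ M : Md R, Mods (Th R U) M → Infinite M := fun M h => inf_of_mods hU h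
  have f3 : ∀ (ι : Type) [Finite ι], {A : Set ((k : ℕ) × Set (PP R (ι ⊕ Fin k))) |
      ∃ M : Md R, Countable M ∧ Mods (Th R U) M ∧ ∃ a : ι → M, age M a = A}.Countable := by
    intro ι _
    obtain ⟨n, ⟨e⟩⟩ := Finite.exists_equiv_fin ι
    refine ((few3_fin hT hnp n).image (renA e)).mono ?_
    rintro A ⟨M, hc, hM, a, rfl⟩
    refine ⟨_, ⟨M, hc, hinf M hM, hM, a ∘ e.symm, rfl⟩, ?_⟩
    rw [← age_comp]
    have h1 : (a ∘ e.symm) ∘ e = a := by
      funext i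
      simp
    rw [h1]
  have f4 : {Θ : Set ((n : ℕ) × Set ((k : ℕ) × Set (PP R (Fin n ⊕ Fin k)))) |
      ∃ M : Md R, Countable M ∧ Mods (Th R U) M ∧ ages R M = Θ}.Countable := by
    refine (few4_inf hT hnp).mono ?_
    rintro Θ ⟨M, hc, hM, rfl⟩
    exact ⟨M, hc, hinf M hM, hM, rfl⟩
  refine ⟨?_, ?_, ?_, f3, f4⟩
  · intro ι _
    obtain ⟨n, ⟨e⟩⟩ := Finite.exists_equiv_fin ι
    refine ((few0_fin hT hnp n).image fun p => {φ | ren e φ ∈ p}).mono ?_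
    rintro p ⟨M, hc, hM, x, rfl⟩
    refine ⟨_, ⟨M, hc, hinf M hM, hM, x ∘ e.symm, rfl⟩, ?_⟩
    ext φ
    show Sat (ren e φ) M (x ∘ e.symm) ↔ Sat φ M x
    have h1 : (x ∘ e.symm) ∘ e = x := by
      funext i
      simp
    rw [sat_ren, h1]
  · intro ι _
    have h : ∀ A : Set ((k : ℕ) × Set (PP R (ι ⊕ Fin k))), ∃ τ : Set (L1 R ι),
        ∀ (M : Md R) (x : ι → M), age M x = A → tp1 M x = τ := by
      intro A
      by_cases hA : ∃ (M : Md R) (x : ι → M), age M x = A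
      · obtain ⟨M, x, rfl⟩ := hA
        exact ⟨tp1 M x, fun N y h => tp1_of_age h⟩
      · exact ⟨∅, fun M x h => absurd ⟨M, x, h⟩ hA⟩
    choose F hF using h
    refine ((f3 ι).image F).mono ?_
    rintro τ ⟨M, hc, hM, x, rfl⟩
    exact ⟨age M x, ⟨M, hc, hM, x, rfl⟩, (hF _ M x rfl).symm⟩
  · have h : ∀ A : Set ((n : ℕ) × Set ((k : ℕ) × Set (PP R (Fin n ⊕ Fin k)))),
        ∃ Θ : Set ((n : ℕ) × Set (L1 R (Fin n))), ∀ M : Md R, ages R M = A → real1 M = Θ := by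
      intro A
      by_cases hA : ∃ M : Md R, ages R M = A
      · obtain ⟨M, rfl⟩ := hA
        exact ⟨real1 M, fun N h => real1_of_ages h⟩
      · exact ⟨∅, fun M h => absurd ⟨M, h⟩ hA⟩
    choose F hF using h
    refine (f4.image F).mono ?_
    rintro Θ ⟨M, hc, hM, rfl⟩
    exact ⟨ages R M, ⟨M, hc, hM, rfl⟩, (hF _ M rfl).symm⟩

theorem ex_of_real1 {R : Type} [Ring R] {X : Kl R} {M N : Type} [AddCommGroup M] [Module R M]
    [AddCommGroup N] [Module R N] (h : real1 (R := R) M = real1 (R := R) N) {n : ℕ}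
    {D : L1 R (Fin n)} (hx : ∃ x : Fin n → M, X.Exact D M x) : ∃ y : Fin n → N, X.Exact D N y := by
  obtain ⟨x, hx⟩ := hx
  have h1 : (⟨n, tp1 M x⟩ : (n : ℕ) × Set (L1 R (Fin n))) ∈ real1 (R := R) M := ⟨x, rfl⟩
  rw [h] at h1
  obtain ⟨y, hy⟩ := h1
  exact ⟨y, exact_of_tp1 hy.symm hx⟩

/-- the final count -/
theorem thm_CT : St_CT := by
  intro R _ _ U _ _ hU hMT hF hiso
  obtain ⟨ρ, hρ⟩ : ∃ ρ : ℕ → (LMod R).Structure ℕ, ∀ (g : AddCommGroup ℕ)
      (m : @Module R ℕ _ g.toAddCommMonoid), @Mods R _ (Th R U) ℕ g m →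
      ∃ (i : ℕ) (g' : AddCommGroup ℕ) (m' : @Module R ℕ _ g'.toAddCommMonoid),
        ρ i = @modStr R _ ℕ g' m' ∧ @Mods R _ (Th R U) ℕ g' m' ∧
        @real1 R _ ℕ g' m' = @real1 R _ ℕ g m := by
    let S : Set (Set ((n : ℕ) × Set (L1 R (Fin n)))) := {Θ | ∃ (g : AddCommGroup ℕ)
      (m : @Module R ℕ _ g.toAddCommMonoid), @Mods R _ (Th R U) ℕ g m ∧ @real1 R _ ℕ g m = Θ}
    have hS : S.Countable := hF.few2.mono (by
      rintro Θ ⟨g, m, hM, rfl⟩
      exact ⟨@Md.mk R _ ℕ g m, inferInstanceAs (Countable ℕ), hM, rfl⟩)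
    obtain ⟨f, hf⟩ := (countable_iff_exists_subset_range).1 hS
    have h1 : ∀ i : ℕ, ∃ A : (LMod R).Structure ℕ, f i ∈ S → ∃ (g : AddCommGroup ℕ)
        (m : @Module R ℕ _ g.toAddCommMonoid), A = @modStr R _ ℕ g m ∧
        @Mods R _ (Th R U) ℕ g m ∧ @real1 R _ ℕ g m = f i := by
      intro i
      by_cases hi : f i ∈ S
      · obtain ⟨g, m, hM, hr⟩ := hi
        exact ⟨_, fun _ => ⟨g, m, rfl, hM, hr⟩⟩
      · exact ⟨⟨fun _ _ => 0, fun {n} r => nomatch r⟩, fun h => absurd h hi⟩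
    choose ρ hρ using h1
    refine ⟨ρ, fun g m hM => ?_⟩
    have hg : @real1 R _ ℕ g m ∈ S := ⟨g, m, hM, rfl⟩
    obtain ⟨i, hi⟩ := hf hg
    rw [← hi] at hg
    obtain ⟨g', m', h2, h3, h4⟩ := hρ i hg
    exact ⟨i, g', m', h2, h3, h4.trans hi⟩
  refine ⟨ρ, fun S hS => ?_⟩
  obtain ⟨g, m, rfl⟩ := hMT ℕ S hS
  obtain ⟨i, g', m', hi, hM', hr⟩ := hρ g m hS
  refine ⟨i, ?_⟩
  rw [hi]
  have h1 : ∀ (n : ℕ) (D : L1 R (Fin n)), (∃ x : Fin n → ℕ, @Kl.Exact R _ _ (KU R U) D ℕ g m x) ↔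
      ∃ x : Fin n → ℕ, @Kl.Exact R _ _ (KU R U) D ℕ g' m' x := fun n D =>
    ⟨@ex_of_real1 R _ (KU R U) ℕ ℕ g m g' m' hr.symm n D,
      @ex_of_real1 R _ (KU R U) ℕ ℕ g' m' g m hr n D⟩
  obtain ⟨e⟩ := @hiso ℕ ℕ g m g' m' (inferInstanceAs (Countable ℕ)) (inferInstanceAs (Countable ℕ))
    hS hM' h1
  exact @lequiv R _ _ ℕ ℕ g m g' m' e

end Pool.Agent.VMF
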