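import Pool.Agent.VMF.Defs
import Pool.Agent.VMF.FEW
import Pool.Agent.MVC.FOR

/-!
# VMF: elementary submodules of `U` and models of the theory of `U` (helper23)
-/

set_option autoImplicit false
set_option linter.unusedSectionVars false
set_option linter.unusedVariables false

namespace Pool.Agent.VMF

open Set Pool.Agent.MVC FirstOrder

section

variable {R : Type} [Ring R]

/-- elementary submodules satisfy the same formulas -/
theorem el_realize {U : Md R} {M : Submodule R U} (h : El U M) {α : Type}
    (φ : (LMod R).Formula α) (x : α → M) :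
    @FirstOrder.Language.Formula.Realize (LMod R) M (modStr R M) α φ x ↔
      @FirstOrder.Language.Formula.Realize (LMod R) U (modStr R U) α φ (fun i => (x i : U)) := by
  let iU : (LMod R).Structure U := modStr R U
  let iM : (LMod R).Structure M := modStr R M
  have hA : (LMod R).MeetsDefinable (M : Set U) := fun D hD hD' => h D hD' hD
  have h1 := hA.isElementary_closure
  have h2 := hA.closure_eq_self
  let S : (LMod R).ElementarySubstructure U :=
    ⟨FirstOrder.Language.Substructure.closure (LMod R) (M : Set U), h1⟩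
  have hS : ∀ z : U, z ∈ S ↔ z ∈ M := fun z => by
    show z ∈ (FirstOrder.Language.Substructure.closure (LMod R) (M : Set U) : Set U) ↔ _
    rw [h2]
    exact Iff.rfl
  let e : M ≃ S :=
    { toFun := fun z => ⟨z.1, (hS z.1).2 z.2⟩
      invFun := fun z => ⟨z.1, (hS z.1).1 z.2⟩
      left_inv := fun z => rfl
      right_inv := fun z => rfl }
  let E : @FirstOrder.Language.Equiv (LMod R) M S iM inferInstance :=
    @FirstOrder.Language.Equiv.mk (LMod R) M S iM _ e (by
      intro n f x
      apply Subtype.ext
      cases f with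
      | zero => rfl
      | smul r => rfl
      | add => rfl) (by
      intro n r x
      exact nomatch r)
  have h3 : @FirstOrder.Language.Formula.Realize (LMod R) S _ α φ (E ∘ x) ↔
      @FirstOrder.Language.Formula.Realize (LMod R) M iM _ φ x :=
    FirstOrder.Language.StrongHomClass.realize_formula E φ
  have h4 : @FirstOrder.Language.Formula.Realize (LMod R) U iU α φ (S.subtype ∘ (E ∘ x)) ↔
      @FirstOrder.Language.Formula.Realize (LMod R) S _ α φ (E ∘ x) :=
    S.subtype.map_formula φ (E ∘ x)
  exact h3.symm.trans h4.symm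

theorem el_mods {U : Md R} {M : Submodule R U} (h : El U M) : Mods (Th R U) M := by
  refine @FirstOrder.Language.Theory.Model.mk (LMod R) M (modStr R M) _ fun φ hφ => ?_
  have h1 : @FirstOrder.Language.Sentence.Realize (LMod R) U (modStr R U) φ := hφ
  have key : ∀ (d : Empty → M) (d' : Empty → U),
      @FirstOrder.Language.Formula.Realize (LMod R) M (modStr R M) _ φ d ↔
        @FirstOrder.Language.Formula.Realize (LMod R) U (modStr R U) _ φ d' := by
    intro d d'
    have h3 : d' = fun i => ((d i : M) : U) := Subsingleton.elim _ _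
    rw [h3]
    exact el_realize h φ d
  exact (key _ _).2 h1

/-- a formula has finitely many variables -/
theorem fin_vars {ι : Type} (φ : PP R ι) : ∃ (F : Finset ι) (φ' : PP R F),
    φ = ren Subtype.val φ' := by
  classical
  let F : Finset ι := φ.toFinset.biUnion fun e => e.support.preimage Sum.inl
    (Sum.inl_injective.injOn)
  have hinj : Function.Injective (Sum.map (Subtype.val : F → ι) (id : ℕ → ℕ)) :=
    Function.Injective.sumMap Subtype.val_injective Function.injective_id
  refine ⟨F, φ.map fun e => e.comapDomain (Sum.map (Subtype.val : F → ι) (id : ℕ → ℕ))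
    hinj.injOn, ?_⟩
  unfold ren
  rw [List.map_map]
  have h1 : ∀ e ∈ φ, (Finsupp.mapDomain (Sum.map (Subtype.val : F → ι) (id : ℕ → ℕ)) ∘
      fun e : (ι ⊕ ℕ) →₀ R => e.comapDomain (Sum.map (Subtype.val : F → ι) (id : ℕ → ℕ))
        hinj.injOn) e = e := by
    intro e he
    refine Finsupp.mapDomain_comapDomain _ hinj e ?_
    intro z hz
    rcases z with i | j
    · have hi : i ∈ F := by
        refine Finset.mem_biUnion.2 ⟨e, List.mem_toFinset.2 he, ?_⟩
        rw [Finset.mem_preimage]
        exact hz
      exact ⟨Sum.inl ⟨i, hi⟩, rfl⟩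
    · exact ⟨Sum.inr j, rfl⟩
  rw [List.map_congr_left h1, List.map_id']

/-- elementary submodules are pure -/
theorem el_sat {U : Md R} {M : Submodule R U} (h : El U M) {ι : Type} (φ : PP R ι) (x : ι → M) :
    Sat φ M x ↔ Sat φ U (fun i => (x i : U)) := by
  obtain ⟨F, φ', rfl⟩ := fin_vars φ
  rw [sat_ren, sat_ren]
  obtain ⟨n, ⟨e⟩⟩ := Finite.exists_equiv_fin F
  obtain ⟨ψ, hψ⟩ := thm_FOR R n (ren e φ')
  have h1 : ∀ (N : Type) [AddCommGroup N] [Module R N] (z : F → N), Sat φ' N z ↔
      @FirstOrder.Language.Formula.Realize (LMod R) N (modStr R N) (Fin n) ψ (z ∘ e.symm) := by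
    intro N _ _ z
    rw [hψ N, sat_ren]
    have h2 : (z ∘ e.symm) ∘ e = z := by
      funext i
      simp
    rw [h2]
  rw [h1 M, h1 U]
  exact el_realize h ψ _

theorem el_pp {U : Md R} {M : Submodule R U} (h : El U M) {ι : Type} (x : ι → M) :
    pp (R := R) M x = pp U (fun i => (x i : U)) := by
  ext φ
  exact el_sat h φ x

theorem el_re {U : Md R} {M : Submodule R U} (h : El U M) {ι : Type} (S : Set (PP R ι))
    (x : ι → M) : Re S M x ↔ Re S U (fun i => (x i : U)) :=
  forall₂_congr fun φ _ => el_sat h φ x

theorem mods_iso (T : (LMod R).Theory) {M N : Type}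
    [AddCommGroup M] [Module R M] [AddCommGroup N] [Module R N] (e : M ≃ₗ[R] N)
    (h : Mods T M) : Mods T N := by
  let i1 : (LMod R).Structure M := modStr R M
  let i2 : (LMod R).Structure N := modStr R N
  let E : @FirstOrder.Language.Equiv (LMod R) M N i1 i2 :=
    @FirstOrder.Language.Equiv.mk (LMod R) M N i1 i2 e.toEquiv (by
      intro n f x
      cases f with
      | zero => exact map_zero e
      | smul r => exact map_smul e r (x 0)
      | add => exact map_add e (x 0) (x 1)) (by
      intro n r x
      exact nomatch r)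
  have h1 := FirstOrder.Language.StrongHomClass.elementarilyEquivalent (L := LMod R) E
  have h2 : M ⊨ T := h
  exact h1.theory_model

/-- the members of the class are models -/
theorem inK_mods {U : Md R} {M : Type} [AddCommGroup M] [Module R M] (h : InK U M) :
    Mods (Th R U) M := by
  obtain ⟨N, hN, ⟨e⟩⟩ := h
  exact mods_iso _ e.symm (el_mods hN)

theorem mon_ctbl {U : Md R} (hU : MonM R U) : Countable U :=
  @Pool.Agent.WOM.Mon.ctb (LMod R) U (modStr R U) hU

theorem mon_inf {U : Md R} (hU : MonM R U) : Infinite U :=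
  @Pool.Agent.WOM.Mon.inf (LMod R) U (modStr R U) hU

theorem inK_ctbl {U : Md R} (hU : MonM R U) {M : Type} [AddCommGroup M] [Module R M]
    (h : InK U M) : Countable M := by
  obtain ⟨N, hN, ⟨e⟩⟩ := h
  have _ := mon_ctbl hU
  exact e.injective.countable

/-- countable models are elementary submodules of `U`, up to isomorphism -/
theorem mods_emb [Countable R] {U : Md R} (hU : MonM R U) (M : Type) [AddCommGroup M] [Module R M]
    (hc : Countable M) (h : Mods (Th R U) M) : ∃ e : M →ₗ[R] U, Emb U e := by
  obtain ⟨f, h1, h2, -⟩ := exists_el U hU M hc h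
  refine ⟨f, h1, ?_⟩
  unfold El
  rw [LinearMap.coe_range]
  exact h2

theorem emb_inK {U : Md R} {M : Type} [AddCommGroup M] [Module R M] {e : M →ₗ[R] U}
    (h : Emb U e) : InK U M :=
  ⟨LinearMap.range e, h.2, ⟨LinearEquiv.ofInjective e h.1⟩⟩

/-- an elementary embedding preserves and reflects formulas -/
theorem Emb.sat {U : Md R} {M : Type} [AddCommGroup M] [Module R M] {e : M →ₗ[R] U}
    (h : Emb U e) {ι : Type} (φ : PP R ι) (x : ι → M) : Sat φ M x ↔ Sat φ U (e ∘ x) := by
  constructor
  · intro h1
    exact h1.map e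
  · intro h1
    have h2 : Sat φ (LinearMap.range e) (fun i => LinearEquiv.ofInjective e h.1 (x i)) :=
      (el_sat h.2 φ _).2 h1
    have h3 := h2.map ((LinearEquiv.ofInjective e h.1).symm : LinearMap.range e →ₗ[R] M)
    have h4 : (⇑((LinearEquiv.ofInjective e h.1).symm : LinearMap.range e →ₗ[R] M)) ∘
        (fun i => LinearEquiv.ofInjective e h.1 (x i)) = x := by
      funext i
      exact (LinearEquiv.ofInjective e h.1).symm_apply_apply (x i)
    rwa [h4] at h3

theorem Emb.pp {U : Md R} {M : Type} [AddCommGroup M] [Module R M] {e : M →ₗ[R] U}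
    (h : Emb U e) {ι : Type} (x : ι → M) :
    Pool.Agent.MVC.pp (R := R) M x = Pool.Agent.MVC.pp U (e ∘ x) := by
  ext φ
  exact h.sat φ x

/-- the class `K`: countable models of the theory of `U` -/
theorem inK_iff [Countable R] {U : Md R} (hU : MonM R U) (M : Type) [AddCommGroup M]
    [Module R M] : InK U M ↔ Countable M ∧ Mods (Th R U) M := by
  constructor
  · intro h
    exact ⟨inK_ctbl hU h, inK_mods h⟩
  · rintro ⟨hc, h⟩
    obtain ⟨e, he⟩ := mods_emb hU M hc h
    exact emb_inK he

theorem ku_iff [Countable R] {U : Md R} (hU : MonM R U) (M : Type) [AddCommGroup M]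
    [Module R M] (hc : Countable M) : (KU R U).In M ↔ InK U M :=
  ⟨fun h => (inK_iff hU M).2 ⟨hc, h⟩, fun h => ((inK_iff hU M).1 h).2⟩

/-- elementary embeddings into modules of the class compose -/
theorem in_own_of_inK {U : Md R} {M : Type} [AddCommGroup M] [Module R M] (h : InK U M) :
    (Own R U).In M := by
  obtain ⟨N, hN, ⟨e⟩⟩ := h
  refine Ax.In.of_equiv e.symm ?_
  intro a ha x hx
  have h1 : Sat a.2.1 U (fun i => (x i : U)) := (el_sat hN _ x).1 hx
  exact (el_sat hN _ x).2 (ha _ h1)

end

end Pool.Agent.VMF
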