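import Pool.Agent.VMF.SATN
import Pool.Agent.VMF.COV

/-!
# VMF: elimination, homogeneity for positive primitive types, the Tarski-Vaught test (helper23)
-/

set_option autoImplicit false
set_option linter.unusedSectionVars false
set_option linter.unusedVariables false

namespace Pool.Agent.VMF

open Set Pool.Agent.MVC FirstOrder
open Pool.Agent.WOM (Mon)

section

variable {R : Type} [Ring R]

/-- terms are linear -/
theorem term_lin {α : Type} (t : (LMod R).Term α) : ∃ e : α →₀ R,
    ∀ (M : Type) [AddCommGroup M] [Module R M] (v : α → M),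
      @FirstOrder.Language.Term.realize (LMod R) M (modStr R M) α v t =
        Finsupp.linearCombination R v e := by
  induction t with
  | var i =>
    refine ⟨Finsupp.single i 1, fun M _ _ v => ?_⟩
    rw [Finsupp.linearCombination_single, one_smul]
    rfl
  | func f ts ih =>
    choose e he using ih
    cases f with
    | zero =>
      refine ⟨0, fun M _ _ v => ?_⟩
      rw [map_zero]
      rfl
    | smul r =>
      refine ⟨r • e 0, fun M _ _ v => ?_⟩
      rw [map_smul, ← he 0 M v]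
      rfl
    | add =>
      refine ⟨e 0 + e 1, fun M _ _ v => ?_⟩
      rw [map_add, ← he 0 M v, ← he 1 M v]
      rfl

theorem pp_comp {M N : Type} [AddCommGroup M] [Module R M] [AddCommGroup N] [Module R N]
    {ι κ : Type} (f : κ → ι) {x : ι → M} {y : ι → N} (h : pp (R := R) M x = pp N y) :
    pp (R := R) M (x ∘ f) = pp N (y ∘ f) := by
  ext φ
  have h1 : ren f φ ∈ pp M x ↔ ren f φ ∈ pp N y := by rw [h]
  have h2 : Sat (ren f φ) M x ↔ Sat (ren f φ) N y := h1
  rw [sat_ren, sat_ren] at h2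
  exact h2

/-- the step of the back and forth -/
theorem step_pp {U : Md R} (hU : MonM R U) {ι κ : Type} [Finite ι] [Finite κ] {a b : ι → U}
    (hab : pp (R := R) U a = pp U b) (c : κ → U) :
    ∃ d : κ → U, pp (R := R) U (Sum.elim a c) = pp U (Sum.elim b d) := by
  have _ : Countable κ := Finite.to_countable
  obtain ⟨d, h1, h2⟩ := sat_pp hU b (pp U (Sum.elim a c)) {φ | φ ∉ pp U (Sum.elim a c)} (by
    intro s t hs ht
    obtain ⟨φ, hφ⟩ := isPP_finset s
    obtain ⟨y, hy1, hy2⟩ := cov hab φ t ⟨c, (hφ U _).1 fun ψ hψ => hs hψ, fun ψ hψ => ht hψ⟩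
    exact ⟨y, (hφ U _).2 hy1, hy2⟩)
  refine ⟨d, ?_⟩
  ext φ
  constructor
  · intro h
    exact h1 φ h
  · intro h
    by_contra hn
    exact h2 φ hn h

/-- positive primitive types determine types -/
theorem realize_iff_of_pp {U : Md R} (hU : MonM R U) {α : Type} [Finite α] {n : ℕ}
    (φ : (LMod R).BoundedFormula α n) : ∀ (v v' : α → U) (xs xs' : Fin n → U),
      pp (R := R) U (Sum.elim v xs) = pp U (Sum.elim v' xs') →
      (@FirstOrder.Language.BoundedFormula.Realize (LMod R) U (modStr R U) α n φ v xs ↔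
        @FirstOrder.Language.BoundedFormula.Realize (LMod R) U (modStr R U) α n φ v' xs') := by
  let iU : (LMod R).Structure U := modStr R U
  induction φ with
  | falsum => exact fun v v' xs xs' h => Iff.rfl
  | equal t₁ t₂ =>
    intro v v' xs xs' h
    obtain ⟨e₁, h1⟩ := term_lin t₁
    obtain ⟨e₂, h2⟩ := term_lin t₂
    obtain ⟨χ, hχ⟩ := isPP_lin (e₁ - e₂)
    have key : ∀ (v : α → U) (xs : Fin _ → U), (t₁.bdEqual t₂).Realize v xs ↔
        Sat χ U (Sum.elim v xs) := by
      intro v xs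
      rw [← hχ U, FirstOrder.Language.BoundedFormula.realize_bdEqual, h1 U, h2 U]
      show _ ↔ Finsupp.linearCombination R (Sum.elim v xs) (e₁ - e₂) = 0
      rw [map_sub, sub_eq_zero]
    refine (key v xs).trans (Iff.trans ?_ (key v' xs').symm)
    have h3 : χ ∈ pp U (Sum.elim v xs) ↔ χ ∈ pp U (Sum.elim v' xs') := by rw [h]
    exact h3
  | rel r ts => exact nomatch r
  | imp f g ihf ihg =>
    intro v v' xs xs' h
    rw [FirstOrder.Language.BoundedFormula.realize_imp,
      FirstOrder.Language.BoundedFormula.realize_imp, ihf v v' xs xs' h, ihg v v' xs xs' h]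
  | @all k f ih =>
    have key : ∀ (v v' : α → U) (xs xs' : Fin k → U),
        pp (R := R) U (Sum.elim v xs) = pp U (Sum.elim v' xs') → f.all.Realize v xs →
        f.all.Realize v' xs' := by
      intro v v' xs xs' h h1
      rw [FirstOrder.Language.BoundedFormula.realize_all] at h1 ⊢
      intro x
      obtain ⟨d, hd⟩ := step_pp hU h.symm (fun _ : Fin 1 => x)
      refine (ih v v' (Fin.snoc xs (d 0)) (Fin.snoc xs' x) ?_).1 (h1 (d 0))
      have h2 := pp_comp (Sum.elim (fun i => Sum.inl (Sum.inl i))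
        (fun j => Fin.lastCases (Sum.inr 0) (fun j => Sum.inl (Sum.inr j)) j) :
          α ⊕ Fin (k + 1) → (α ⊕ Fin k) ⊕ Fin 1) hd.symm
      have h3 : ∀ (v : α → U) (xs : Fin k → U) (d : Fin 1 → U),
          Sum.elim (Sum.elim v xs) d ∘ (Sum.elim (fun i => Sum.inl (Sum.inl i))
            (fun j => Fin.lastCases (Sum.inr 0) (fun j => Sum.inl (Sum.inr j)) j) :
            α ⊕ Fin (k + 1) → (α ⊕ Fin k) ⊕ Fin 1) = Sum.elim v (Fin.snoc xs (d 0)) := by
        intro v xs d
        funext i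
        rcases i with i | j
        · rfl
        · refine Fin.lastCases ?_ (fun j => ?_) j <;> simp
      rw [h3, h3] at h2
      exact h2
    intro v v' xs xs' h
    exact ⟨key v v' xs xs' h, key v' v xs' xs h.symm⟩

theorem formula_iff_of_pp {U : Md R} (hU : MonM R U) {α : Type} [Finite α]
    (φ : (LMod R).Formula α) {v v' : α → U} (h : pp (R := R) U v = pp U v') :
    @FirstOrder.Language.Formula.Realize (LMod R) U (modStr R U) α φ v ↔
      @FirstOrder.Language.Formula.Realize (LMod R) U (modStr R U) α φ v' := by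
  refine realize_iff_of_pp hU φ v v' default default ?_
  have h1 := pp_comp (Sum.elim id (fun j : Fin 0 => j.elim0)) h
  have h2 : ∀ v : α → U, v ∘ (Sum.elim id (fun j : Fin 0 => j.elim0)) =
      Sum.elim v (default : Fin 0 → U) := by
    intro v
    funext i
    rcases i with i | j
    · rfl
    · exact j.elim0
  rw [h2, h2] at h1
  exact h1

/-- **Homogeneity.**  Tuples with the same positive primitive type are conjugate. -/
theorem thm_HPP {U : Md R} (hU : MonM R U) {ι : Type} [Finite ι] {a b : ι → U}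
    (h : pp (R := R) U a = pp U b) : ∃ g : U ≃ₗ[R] U, ∀ i, g (a i) = b i := by
  obtain ⟨n, ⟨e⟩⟩ := Finite.exists_equiv_fin ι
  let iU : (LMod R).Structure U := modStr R U
  have h1 : Pool.Agent.WOM.tp (L := LMod R) (a ∘ e.symm) =
      Pool.Agent.WOM.tp (b ∘ e.symm) := by
    ext φ
    exact formula_iff_of_pp hU φ (pp_comp e.symm h)
  obtain ⟨g, hg⟩ := @Mon.hom (LMod R) U iU hU n (a ∘ e.symm) (b ∘ e.symm) h1
  refine ⟨{ toEquiv := g.toEquiv
            map_add' := fun x y => ?_
            map_smul' := fun r x => ?_ }, fun i => ?_⟩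
  · have h2 := g.map_fun (ModFn.add : ModFn R 2) ![x, y]
    exact h2
  · have h2 := g.map_fun (ModFn.smul r : ModFn R 1) ![x]
    exact h2
  · have h2 := hg (e i)
    have h3 : (a ∘ e.symm) (e i) = a i := by simp
    have h4 : (b ∘ e.symm) (e i) = b i := by simp
    rw [h3, h4] at h2
    exact h2

/-- **The Tarski-Vaught test** for sets defined by positive primitive formulas and negations -/
theorem el_of_tv {U : Md R} (hU : MonM R U) (M : Submodule R U)
    (h : ∀ (n : ℕ) (a : Fin n → M) (φ : PP R (Fin n ⊕ Fin 1))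
      (t : Finset (PP R (Fin n ⊕ Fin 1))) (y : U),
      Sat φ U (Sum.elim (fun i => (a i : U)) (fun _ => y)) →
      (∀ ψ ∈ t, ¬ Sat ψ U (Sum.elim (fun i => (a i : U)) (fun _ => y))) →
      ∃ z ∈ M, Sat φ U (Sum.elim (fun i => (a i : U)) (fun _ => z)) ∧
        ∀ ψ ∈ t, ¬ Sat ψ U (Sum.elim (fun i => (a i : U)) (fun _ => z))) : El U M := by
  classical
  let iU : (LMod R).Structure U := modStr R U
  intro s hs hne
  obtain ⟨y₀, hy₀⟩ := hne
  unfold Set.Definable₁ at hs
  obtain ⟨A₀, hA, hs⟩ := definable_iff_finitely_definable.1 hs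
  obtain ⟨n, ⟨e⟩⟩ := Finite.exists_equiv_fin (A₀ : Set U)
  let a : Fin n → M := fun i => ⟨(e.symm i).1, hA (e.symm i).2⟩
  let a' : Fin n → U := fun i => (a i : U)
  have hr : range a' = (A₀ : Set U) := by
    ext x
    constructor
    · rintro ⟨i, rfl⟩
      exact (e.symm i).2
    · intro hx
      refine ⟨e ⟨x, hx⟩, ?_⟩
      show (e.symm (e ⟨x, hx⟩)).1 = x
      rw [e.symm_apply_apply]
  rw [← hr] at hs
  obtain ⟨χ, hχ⟩ := (Pool.Agent.WOM.thm_DEFF (LMod R) U n a' (Fin 1) _).1 hs
  have hχ' : ∀ v : Fin 1 → U, v 0 ∈ s ↔ χ.Realize (Sum.elim a' v) := by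
    intro v
    have h1 : v ∈ {x : Fin 1 → U | x 0 ∈ s} ↔ v ∈ {v | χ.Realize (Sum.elim a' v)} := by rw [hχ]
    exact h1
  -- translation of the formulas
  have h1 : ∀ φ : PP R (Fin n ⊕ Fin 1), ∃ ψ : (LMod R).Formula (Fin n ⊕ Fin 1),
      ∀ x : Fin n ⊕ Fin 1 → U, ψ.Realize x ↔ Sat φ U x := by
    intro φ
    obtain ⟨ψ, hψ⟩ := thm_FOR R (n + 1) (ren finSumFinEquiv φ)
    refine ⟨ψ.relabel finSumFinEquiv.symm, fun x => ?_⟩
    rw [FirstOrder.Language.Formula.realize_relabel]
    refine (hψ U _).trans ?_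
    rw [sat_ren]
    have h2 : (x ∘ finSumFinEquiv.symm) ∘ finSumFinEquiv = x := by
      funext i
      simp
    rw [h2]
  choose F hF using h1
  by_contra hcon
  let p₀ : Set (PP R (Fin n ⊕ Fin 1)) := pp U (Sum.elim a' (fun _ => y₀))
  obtain ⟨c, hc⟩ := sat_fin (LMod R) U hU 1 n a'
    (F '' p₀ ∪ (fun φ => FirstOrder.Language.Formula.not (F φ)) '' p₀ᶜ ∪
      {FirstOrder.Language.Formula.not χ}) (by
      intro G hG hGf
      obtain ⟨s', hs', hsf, h2⟩ := exists_subset_image_finite_and.1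
        ⟨G ∩ F '' p₀, inter_subset_right, hGf.subset inter_subset_left,
          (rfl : G ∩ F '' p₀ = G ∩ F '' p₀)⟩
      obtain ⟨t', ht', htf, h3⟩ := exists_subset_image_finite_and.1
        ⟨G ∩ (fun φ => FirstOrder.Language.Formula.not (F φ)) '' p₀ᶜ, inter_subset_right,
          hGf.subset inter_subset_left, (rfl : G ∩ (fun φ =>
            FirstOrder.Language.Formula.not (F φ)) '' p₀ᶜ = G ∩ (fun φ =>
            FirstOrder.Language.Formula.not (F φ)) '' p₀ᶜ)⟩
      obtain ⟨φ, hφ⟩ := isPP_finset hsf.toFinset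
      obtain ⟨z, hzM, hz1, hz2⟩ := h n a φ htf.toFinset y₀
        ((hφ U _).1 fun ψ hψ => hs' (hsf.mem_toFinset.1 hψ))
        (fun ψ hψ => ht' (htf.mem_toFinset.1 hψ))
      refine ⟨fun _ => z, fun ψ hψ => ?_⟩
      rcases hG hψ with (h4 | h4) | h4
      · have h5 : ψ ∈ F '' s' := by
          rw [← h2]
          exact ⟨hψ, h4⟩
        obtain ⟨φ', hφ', rfl⟩ := h5
        rw [hF]
        exact (hφ U _).2 hz1 φ' (hsf.mem_toFinset.2 hφ')
      · have h5 : ψ ∈ (fun φ => FirstOrder.Language.Formula.not (F φ)) '' t' := by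
          rw [← h3]
          exact ⟨hψ, h4⟩
        obtain ⟨φ', hφ', rfl⟩ := h5
        rw [FirstOrder.Language.Formula.realize_not, hF]
        exact hz2 φ' (htf.mem_toFinset.2 hφ')
      · rw [mem_singleton_iff.1 h4, FirstOrder.Language.Formula.realize_not]
        intro h5
        exact hcon ⟨z, (hχ' (fun _ => z)).2 h5, hzM⟩)
  have h2 : pp (R := R) U (Sum.elim a' c) = p₀ := by
    ext φ
    constructor
    · intro h3
      by_contra hn
      have h4 := hc _ (Or.inl (Or.inr ⟨φ, hn, rfl⟩))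
      rw [FirstOrder.Language.Formula.realize_not, hF] at h4
      exact h4 h3
    · intro h3
      exact (hF φ _).1 (hc _ (Or.inl (Or.inl ⟨φ, h3, rfl⟩)))
  have h3 := hc _ (Or.inr rfl)
  rw [FirstOrder.Language.Formula.realize_not] at h3
  refine h3 ((formula_iff_of_pp hU χ h2).2 ?_)
  exact (hχ' (fun _ => y₀)).1 hy₀

/-- pure submodules which satisfy the theory of `U` are elementary -/
theorem el_of_pure [Countable R] {U : Md R} (hU : MonM R U) (M : Submodule R U)
    (hM : Mods (Th R U) M)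
    (hp : ∀ (n : ℕ) (φ : PP R (Fin n)) (x : Fin n → M), Sat φ U (fun i => (x i : U)) →
      Sat φ M x) : El U M := by
  have hc : Countable M := by
    have _ := mon_ctbl hU
    infer_instance
  let iU : (LMod R).Structure U := modStr R U
  let iM : (LMod R).Structure M := modStr R M
  obtain ⟨f, hf1, hf2, hf3⟩ := exists_el U hU M hc hM
  -- formulas in `M` and in `U`
  have key : ∀ (n : ℕ) (φ : (LMod R).Formula (Fin n)) (x : Fin n → M),
      φ.Realize x ↔ φ.Realize (fun i => (x i : U)) := by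
    intro n φ x
    rw [hf3 n φ x]
    refine formula_iff_of_pp hU φ ?_
    ext χ
    have h1 : Sat χ U (f ∘ x) ↔ Sat χ M x := by
      obtain ⟨ψ, hψ⟩ := thm_FOR R n χ
      rw [← hψ U, ← hψ M]
      exact (hf3 n ψ x).symm
    refine h1.trans ⟨fun h => ?_, fun h => hp n χ x h⟩
    exact h.map M.subtype
  intro s hs hne
  obtain ⟨y₀, hy₀⟩ := hne
  unfold Set.Definable₁ at hs
  obtain ⟨A₀, hA, hs⟩ := definable_iff_finitely_definable.1 hs
  obtain ⟨n, ⟨e⟩⟩ := Finite.exists_equiv_fin (A₀ : Set U)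
  let a : Fin n → M := fun i => ⟨(e.symm i).1, hA (e.symm i).2⟩
  let a' : Fin n → U := fun i => (a i : U)
  have hr : range a' = (A₀ : Set U) := by
    ext x
    constructor
    · rintro ⟨i, rfl⟩
      exact (e.symm i).2
    · intro hx
      refine ⟨e ⟨x, hx⟩, ?_⟩
      show (e.symm (e ⟨x, hx⟩)).1 = x
      rw [e.symm_apply_apply]
  rw [← hr] at hs
  obtain ⟨χ, hχ⟩ := ((Pool.Agent.WOM.thm_DEF1 Pool.Agent.WOM.thm_DEFF) (LMod R) U n a').1 s |>.1 hs
  have h1 : (Pool.Agent.WOM.EMB_ex χ).Realize a' := by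
    rw [Pool.Agent.WOM.EMB_ex_realize]
    refine ⟨y₀, ?_⟩
    rw [hχ] at hy₀
    exact hy₀
  have h2 := (key n _ a).2 h1
  rw [Pool.Agent.WOM.EMB_ex_realize] at h2
  obtain ⟨z, hz⟩ := h2
  have h3 := (key (n + 1) _ _).1 hz
  refine ⟨z, ?_, z.2⟩
  rw [hχ]
  show χ.Realize (Fin.snoc a' (z : U) : Fin (n + 1) → U)
  have h4 : (fun i => (((Fin.snoc a z : Fin (n + 1) → M) i : M) : U)) =
      (Fin.snoc a' (z : U) : Fin (n + 1) → U) := by
    funext i
    refine Fin.lastCases ?_ (fun i => ?_) i <;> simp [a']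
  rw [h4] at h3
  exact h3

/-- pure maps from members of the class are elementary -/
theorem emb_of_pure [Countable R] {U : Md R} (hU : MonM R U) {M : Type} [AddCommGroup M]
    [Module R M] (hM : InK U M) (e : M →ₗ[R] U)
    (hp : ∀ (n : ℕ) (φ : PP R (Fin n)) (x : Fin n → M), Sat φ U (e ∘ x) → Sat φ M x) :
    Emb U e := by
  have hinj : Function.Injective e := by
    rw [injective_iff_map_eq_zero]
    intro x hx
    obtain ⟨χ, hχ⟩ := isPP_zero (R := R) (ι := Fin 1)
    have h1 := hp 1 χ (fun _ => x) ((hχ U _).1 (by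
      funext i
      exact hx))
    exact congrFun ((hχ M _).2 h1) 0
  refine ⟨hinj, ?_⟩
  let E : M ≃ₗ[R] LinearMap.range e := LinearEquiv.ofInjective e hinj
  refine el_of_pure hU (LinearMap.range e) (mods_iso _ E (inK_mods hM)) ?_
  intro n φ x hx
  have h1 : e ∘ (fun i => E.symm (x i)) = fun i => (x i : U) := by
    funext i
    exact congrArg Subtype.val (E.apply_symm_apply (x i))
  have h2 := hp n φ (fun i => E.symm (x i)) (by rw [h1]; exact hx)
  have h3 := h2.map (E : M →ₗ[R] LinearMap.range e)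
  have h4 : (⇑(E : M →ₗ[R] LinearMap.range e)) ∘ (fun i => E.symm (x i)) = x := by
    funext i
    exact E.apply_symm_apply (x i)
  rwa [h4] at h3

end

end Pool.Agent.VMF
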