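import Pool.Agent.VMF.StD

/-!
# VMF, block Q: full types (statements, helper68)

Paper: GC_VMF_helper8.md, 0.1 - 0.4, and GC_VMF_helper68.md. `X := Own R U`. The other statements on
full types are in `StD.lean`: `St_QIS`, `St_KIL`, `St_FUI`, `St_FUP`, `St_FU2`, `St_FUT`, `St_HCG`,
`St_COS` (TF5), `St_ENU`, `St_FIC`.
-/

set_option autoImplicit false
set_option linter.unusedSectionVars false
set_option linter.unusedVariables false

namespace Pool.Agent.VMF

open Set Pool.Agent.MVC Pool.Agent.MVC.Ax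

/-- (SAT) saturation for sets of positive primitive formulas over a finite tuple (block T) -/
def St_SAP : Prop := ∀ (R : Type) [Ring R] [Countable R] (U : Md R), MonM R U →
  ∀ (ι κ : Type) [Finite ι] [Finite κ] (a : ι → U) (V : Set (PP R (ι ⊕ κ))),
  (∀ s : Finset (PP R (ι ⊕ κ)), ↑s ⊆ V → ∃ t : κ → U, ∀ φ ∈ s, Sat φ U (Sum.elim a t)) →
  ∃ t : κ → U, Re V U (Sum.elim a t)

/-- [FIF] A subtype of finite index is given by finitely many of its formulas. (Choose a finite
`s ⊆ S'` with the largest index `[grp S : grp S ∩ grp s]`, which is at most `[grp S : grp S ∩ grp S']`.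
No saturation is needed.) -/
def St_FIF : Prop := ∀ (R : Type) [Ring R] (U : Md R) (κ : Type) (S S' : Set (PP R κ)), FIn U S S' →
  ∃ s : Finset (PP R κ), ↑s ⊆ S' ∧ ∀ x : κ → U, Re S U x → (∀ φ ∈ s, Sat φ U x) → Re S' U x

/-- [FUQ] `S` full, `S'` of finite index: `S = χ + (S ∧ S')` for one formula `χ ≤ S`.
Proof. The groups `χ(U) + grp (S ∪ S')`, `χ ≤ S` a formula, are between `grp (S ∪ S')` and `grp S`, a directed
family (`χ + χ' ≤ S` is a formula), so there is a largest one, `H`. By [FIF] let `s ⊆ S'` be finite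
with `S ∧ s ≤ S'`. For finite `s₀ ⊆ S` the formula `ρ(x) := ∃ c, χ(c) ∧ (s₀ ∧ s)(x - c)` contains `H`, so it has
finite index in `S` and contains all formulas `χ' ≤ S` (`χ'(U) ≤ H`): `ρ ∈ one U S`. `S` is full: every
`x` in `S` satisfies all `ρ`; `St_SAP` gives `c` with `χ(c)`, `(S ∧ s)(x - c)`. -/
def St_FUQ : Prop := ∀ (R : Type) [Ring R] [Countable R] (U : Md R), MonM R U →
  ∀ (κ : Type) [Finite κ] (S S' : Set (PP R κ)), Full U S → FIn U S S' →
  ∃ χ : PP R κ, (∀ x : κ → U, Sat χ U x → Re S U x) ∧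
    ∀ x : κ → U, Re S U x → ∃ c w : κ → U, x = c + w ∧ Sat χ U c ∧ Re S U w ∧ Re S' U w

/-- [FUR] criterion for fullness (converse of [FUQ]); formulas are full. -/
theorem full_of {R : Type} [Ring R] {U : Md R} {κ : Type} {S : Set (PP R κ)}
    (h : ∀ ψ : PP R κ, FIn U S {ψ} → ∃ χ : PP R κ, (∀ x : κ → U, Sat χ U x → Re S U x) ∧
      ∀ x : κ → U, Re S U x → ∃ c w : κ → U, x = c + w ∧ Sat χ U c ∧ Sat ψ U w) : Full U S := by
  rintro x hx ψ ⟨h1, h2⟩
  obtain ⟨χ, h3, h4⟩ := h ψ h1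
  obtain ⟨c, w, rfl, hc, hw⟩ := h4 x hx
  exact (h2 χ h3 c hc ψ rfl).add hw

/-- formulas are full -/
theorem full_formula {R : Type} [Ring R] {U : Md R} {κ : Type} {S : Set (PP R κ)} (χ : PP R κ)
    (h : ∀ x : κ → U, Sat χ U x ↔ Re S U x) : Full U S := by
  rintro x hx ψ ⟨-, h2⟩
  exact h2 χ (fun y hy => (h y).1 hy) x ((h x).2 hx) ψ rfl

/-- fullness depends only on the group -/
theorem full_congr {R : Type} [Ring R] {U : Md R} {κ : Type} {S S' : Set (PP R κ)}
    (h : ∀ x : κ → U, Re S U x ↔ Re S' U x) (hS : Full U S) : Full U S' := by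
  have hg : grp U S = grp U S' := AddSubgroup.ext h
  rintro x hx ψ ⟨h1, h2⟩
  refine hS x ((h x).2 hx) ψ ⟨?_, fun χ hχ y hy => h2 χ (fun z hz => (h z).1 (hχ z hz)) y hy⟩
  unfold FIn at h1 ⊢
  rw [hg]
  exact h1

/-- [FUS] images of full types, enlarged by a formula. With `χ := []` false (`x = 0` is the list of
`x_i`) it is the image. Proof. Let `ψ ∈ one U T`. By `St_KIL` (`W := T`): `Re S u`, `θ(u, y)` imply `ψ(y)`.
For `y` in `T`: `y = c + (y - c)`, `ψ(c)` (`PIn`, `χ ≤ T`), `ψ(y - c)`. -/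
def St_FUS : Prop := ∀ (R : Type) [Ring R] [Countable R] (U : Md R), MonM R U →
  ∀ (κ l : Type) [Finite κ] [Finite l] (S : Set (PP R κ)) (T : Set (PP R l)) (θ : PP R (κ ⊕ l))
  (χ : PP R l), Full U S →
  (∀ u : κ → U, Re S U u → ∃ y : l → U, Sat θ U (Sum.elim u y)) →
  (∀ (u : κ → U) (y : l → U), Re S U u → Sat θ U (Sum.elim u y) → Re T U y) →
  (∀ y : l → U, Sat χ U y → Re T U y) →
  (∀ y : l → U, Re T U y → ∃ (u : κ → U) (c : l → U), Re S U u ∧ Sat χ U c ∧
    Sat θ U (Sum.elim u (y - c))) →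
  Full U T

/-- [RFF] Retracts of full types are full (so all summands of `Q(X)` of full types are full).
Proof. `α : N' → N`, `β : N → N'`, `u := βα - 1` null: `u(g')` satisfies a formula `χ` which implies all of
`pp N' g'`, so `χ ≤ S'`. `θ` with `Gen S N g (α g') θ` (`Honest.gen`, re-indexed from `Fin k`). [FUS]:
`Re S u`, `θ(u, y)` imply `S'(y)`: in `U ∈ X`, as `S'(α g')` holds in `N`; a `y` in `S'(U)` is `f(g')` with
`f : N' → U` (`St_EX0`), `y = f(β α g') - f(u g')`, `θ(f β g, f β α g')`, `χ(f (u g'))`. -/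
def St_RFF : Prop := ∀ (R : Type) [Ring R] [Countable R] (U : Md R), MonM R U →
  ∀ (κ l : Type) [Finite κ] [Finite l] (S : Set (PP R κ)) (S' : Set (PP R l)) (N N' : Md R)
  (g : κ → N) (g' : l → N'), Full U S → (Own R U).Honest S N g → (Own R U).Honest S' N' g' →
  (Own R U).Retr N' N → Full U S'

/-- (TF6) `S` full, `S'` of finite index in `S`: every coset of `S ∧ S'` in `S` has a point in each
model. Proof. [FUQ], [FIF] (`S'` in `S` is given by a finite `s`, one formula `ψ`); `x = c + w`, `St_COS` for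
`φ := χ` (in the variables of `κ`), `ψ`, `c`. -/
def St_TF6 : Prop := ∀ (R : Type) [Ring R] [Countable R] (U : Md R), MonM R U →
  ∀ (ι κ : Type) [Finite ι] [Finite κ] (a : ι → U) (p : AM U a) (S S' : Set (PP R κ))
  (x : κ → U), Full U S → FIn U S S' → Re S U x →
  ∃ y : κ → p.1.1, Re S U (fun i => p.1.2 (y i)) ∧ Re S' U ((fun i => p.1.2 (y i)) - x)

end Pool.Agent.VMF
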