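import Pool.Agent.VMF.Defs

/-!
# VMF, block T: isolated tuples, honest models, coherent sequences (statements, helper21)

`X := Own R U`, `U` the countable saturated module.
-/

set_option autoImplicit false
set_option linter.unusedSectionVars false
set_option linter.unusedVariables false

namespace Pool.Agent.VMF

open Set Pool.Agent.MVC Pool.Agent.MVC.Ax

/-- (SAT) saturation for positive primitive formulas and their negations over a finite tuple -/
def St_SATP : Prop := ∀ (R : Type) [Ring R] [Countable R] (U : Md R), MonM R U →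
  ∀ (κ ι : Type) [Finite κ] [Finite ι] (b : κ → U) (P N : Set (PP R (κ ⊕ ι))),
  (∀ s t : Finset (PP R (κ ⊕ ι)), ↑s ⊆ P → ↑t ⊆ N → ∃ c : ι → U,
    (∀ φ ∈ s, Sat φ U (Sum.elim b c)) ∧ ∀ ψ ∈ t, ¬ Sat ψ U (Sum.elim b c)) →
  ∃ c : ι → U, (∀ φ ∈ P, Sat φ U (Sum.elim b c)) ∧ ∀ ψ ∈ N, ¬ Sat ψ U (Sum.elim b c)

/-- (HOM) tuples with the same positive primitive type are conjugate -/
def St_HOMP : Prop := ∀ (R : Type) [Ring R] [Countable R] (U : Md R), MonM R U →
  ∀ (ι : Type) [Finite ι] (a b : ι → U), pp (R := R) U a = pp (R := R) U b →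
  ∃ γ : U ≃ₗ[R] U, ∀ i, γ (a i) = b i

/-- (TV) Tarski-Vaught test: `M` is elementary if each set `{y : φ(a, y), ¬ ψ(a, y) for ψ in s}` in one
variable, with parameters `a` in `M`, which is not empty contains an element of `M`. -/
def St_TVP : Prop := ∀ (R : Type) [Ring R] [Countable R] (U : Md R), MonM R U →
  ∀ M : Submodule R U, (∀ (n : ℕ) (a : Fin n → U) (φ : PP R (Fin n ⊕ Fin 1))
    (s : Finset (PP R (Fin n ⊕ Fin 1))), (∀ i, a i ∈ M) →
    (∃ y : Fin 1 → U, Sat φ U (Sum.elim a y) ∧ ∀ ψ ∈ s, ¬ Sat ψ U (Sum.elim a y)) →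
    ∃ y : Fin 1 → U, y 0 ∈ M ∧ Sat φ U (Sum.elim a y) ∧ ∀ ψ ∈ s, ¬ Sat ψ U (Sum.elim a y)) →
  El U M

/-- (DIC) implications which hold in `U` hold in all modules of the class `Own R U` -/
def St_DIC : Prop := ∀ (R : Type) [Ring R] (U : Md R) (ι : Type) [Finite ι],
  (∀ φ ψ : PP R ι, (∀ x : ι → U, Sat φ U x → Sat ψ U x) → (Own R U).Le φ ψ) ∧
  (∀ (s : Finset (PP R ι)) (ψ : PP R ι), (∀ x : ι → U, (∀ φ ∈ s, Sat φ U x) → Sat ψ U x) →
    ∀ (M : Type) [AddCommGroup M] [Module R M], (Own R U).In M → ∀ x : ι → M,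
      (∀ φ ∈ s, Sat φ M x) → Sat ψ M x)

/-- (ISD) Isolated tuples are dense. Let `B` be the set given by `θ, s` over `b`; suppose that no
element of `B` is isolated. Enumerate all tuples of `U` (countable): `v 0, v 1, ..`. Choose sets
`B = B 0 ⊇ B 1 ⊇ ..` of the same form (add one positive or one negative formula), not empty, with
`v n ∉ B (n+1)`: if `v n ∈ B n` then, as `v n` is not isolated, `B n` contains some `v'` with a type over
`b` different from that of `v n`; a formula `χ` distinguishes them, add `χ` or its negation. By `St_SATP`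
the intersection is not empty, contradiction. (Carry a finite set of positive formulas; their
conjunction is a formula by `isPP_finset`.) -/
def St_ISD : Prop := ∀ (R : Type) [Ring R] [Countable R] (U : Md R), MonM R U →
  ∀ (κ ι : Type) [Finite κ] [Finite ι] (b : κ → U) (θ : PP R (κ ⊕ ι)) (s : Finset (PP R (κ ⊕ ι))),
  (∃ c : ι → U, Sat θ U (Sum.elim b c) ∧ ∀ ψ ∈ s, ¬ Sat ψ U (Sum.elim b c)) →
  ∃ c : ι → U, (Sat θ U (Sum.elim b c) ∧ ∀ ψ ∈ s, ¬ Sat ψ U (Sum.elim b c)) ∧
    Isol (R := R) U b c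

/-- (ISG) The type of an isolated tuple `c` over `b` is generated by one formula. Let `θ, s` be as in
`Isol`. Let `G` be the group of all `x` with `θ(0, x)` and `Δ` the intersection of `G` with the groups
`ψ(0, .)`, `ψ ∈ s`, which have finite index in it: `Δ` has finite index in `G`. Let `ψ ∈ pp(b, c)`. If
`x ∈ Δ` then `c + x` satisfies `θ(b, .)` and no `ψ'(b, .)` with `ψ' ∈ s` of finite index; so if it satisfies
no `ψ'(b, .)`, `ψ' ∈ s`, of infinite index, then `ψ(b, c + x)`, that is `ψ(0, x)`. So `Δ` is covered by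
`Δ ∩ ψ(0, .)` and finitely many cosets of subgroups of infinite index, and Neumann's lemma gives
`Δ ≤ ψ(0, .)` (otherwise `Δ` is covered by a proper subgroup of it, or by cosets of infinite index).
So the groups `G ∩ ψ(0, .)`, `ψ ∈ pp(b, c)`, lie between `Δ` and `G`; choose `ψ₀` such that the index of `Δ` in
`G ∩ ψ₀(0, .)` is minimal (`Nat.find`), `θ' := θ ∧ ψ₀`; then `θ'(0, .) ≤ ψ(0, .)` for all `ψ ∈ pp(b, c)`. Let
`ρ(x) := ∃ y (θ'(x, y) ∧ ψ(x, y))`; `ρ ∈ pp(b)` and `ρ(x) ∧ θ'(x, y)` implies `ψ(x, y)` in `U` (two solutions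
of `θ'(x, .)` differ by an element of `θ'(0, .)`), hence in `X` (`St_DIC`). -/
def St_ISG : Prop := ∀ (R : Type) [Ring R] [Countable R] (U : Md R), MonM R U →
  ∀ (κ ι : Type) [Finite κ] [Finite ι] (b : κ → U) (c : ι → U), Isol (R := R) U b c →
  ∃ θ' : PP R (κ ⊕ ι), (Own R U).Gen (pp (R := R) U b) U b c θ'

/-- (TLI) Coherent families of types are realised in models all whose tuples are generated over finite
parts (the form of helper58). `ι` is countable, `P A` the type of a tuple of `U` for each finite `A ⊆ ι`,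
coherent. Everything is done inside `U`: choose `x : ι → U` and `y : ℕ → U` step by step (finite parts
`A k`, `n k`) such that `pp (x|A k) = P (A k)` and `y|n k` is isolated over `x|A k`:
* enlarge `A k` to `A'`: let `z` realise `P A'`, by (HOM) `z|A k = x`. The isolating set `B` of `y` over `x` is
  also defined over `z`; `St_ISD` gives `v ∈ B` isolated over `z`; `pp(x, v) = pp(x, y)`; by (HOM) some
  automorphism fixes `x` and maps `v` to `y`; replace `z` by its image.
* add an element in a given nonempty set `{w : φ(x, y, w), ¬ ψ(x, y, w), ψ ∈ s}`: by `St_ISD` over `x` there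
  are `(y', w')` isolated over `x` with `y' ∈ B` and `w'` in the set over `(x, y')`; an automorphism fixes `x`
  and maps `y'` to `y`.
All tasks (elements of `ι`, sets over `(x|A, y|n)`) are treated infinitely often. `N := range y` is a
submodule (`v = r x + r' y` is a formula) and elementary by (TV). For `b` in `N` choose `k` with `A₀ ⊆ A k`
and `b` a part of `y|n k`: `St_ISG` for `y|n k`, then `∃` over the other variables. -/
def St_TLI : Prop := ∀ (R : Type) [Ring R] [Countable R] (U : Md R), MonM R U →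
  ∀ (ι : Type) [Countable ι] (P : ∀ A : Finset ι, Set (PP R A)),
  (∀ A : Finset ι, ∃ c : A → U, pp (R := R) U c = P A) →
  (∀ (A B : Finset ι) (h : A ⊆ B) (φ : PP R A), φ ∈ P A ↔
    ren (fun i : A => (⟨i.1, h i.2⟩ : B)) φ ∈ P B) →
  ∃ (N : Submodule R U) (c : ι → N), El U N ∧ (∀ A : Finset ι,
    pp (R := R) N (fun i : A => c i) = P A) ∧
    ∀ (l : Type) [Finite l] (b : l → N) (A₀ : Finset ι), ∃ A : Finset ι, A₀ ⊆ A ∧
      ∃ θ : PP R (A ⊕ l), (Own R U).Gen (P A) N (fun i : A => c i) b θ

/-- (PRM) Honest models `Pr(b)`: from `St_TLI` for `ι` finite, moved by an automorphism. -/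
def St_PRM : Prop := ∀ (R : Type) [Ring R] [Countable R] (U : Md R), MonM R U →
  ∀ (κ : Type) [Finite κ] (b : κ → U), ∃ (N : Submodule R U) (c : κ → N), El U N ∧
    (∀ i, (c i : U) = b i) ∧ (Own R U).Honest (pp (R := R) U b) N c

end Pool.Agent.VMF
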