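import Pool.Agent.VMF.StD

/-!
# VMF, block D: the age of a model over `a` determines the orbits of the realised values (helper41)

`AGF_rep`: each value which is realised in the model `p` is the value of a fact `(V, ψ, t)` with `t` in
`p`. `AGF_van`: such values vanish at `p`.
-/

set_option autoImplicit false
set_option linter.unusedSectionVars false
set_option linter.unusedVariables false

namespace Pool.Agent.VMF

open Set Pool.Agent.MVC Pool.Agent.MVC.Ax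

/-- a tuple of `p` which lies in the coset of the fact `(V, ψ, t)` differs from `t` by a realisation of
`zer '' V ∪ {ψ}` -/
theorem AGF_cos {R : Type} [Ring R] {U : Md R} {ι κ : Type} {a : ι → U} {V : Set (PP R (ι ⊕ κ))}
    {ψ : PP R κ} {t t' : κ → U} (h : Re V U (Sum.elim a t)) (h' : Re V U (Sum.elim a t'))
    (h'' : Sat ψ U (t' - t)) : Re (zer '' V ∪ {ψ}) U (t' - t) := by
  rintro χ (⟨φ, hφ, rfl⟩ | hχ)
  · rw [sat_zer]
    have h1 := (h' φ hφ).sub (h φ hφ)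
    have h2 : Sum.elim a t' - Sum.elim a t = Sum.elim (0 : ι → U) (t' - t) := by
      funext i
      rcases i with i | i
      · show a i - a i = 0
        exact sub_self _
      · rfl
    rw [h2] at h1
    exact h1
  · rw [mem_singleton_iff.mp hχ]
    exact h''

/-- a value of a fact which is realised in the model `p` vanishes at `p` -/
theorem AGF_van (h2 : St_DLX) {R : Type} [Ring R] [Countable R] {U : Md R} (hU : MonM R U)
    {ι κ : Type} [Finite ι] [Finite κ] {a : ι → U} {V : Set (PP R (ι ⊕ κ))} {ψ : PP R κ}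
    {t : κ → U} {N Y : Md R} {g : κ → N} {v : Y →ₗ[R] N} {d : EF U a Y}
    (hF : Fact U a V ψ t) (hH : (Own R U).Honest (zer '' V ∪ {ψ}) N g)
    (hd : IsVal U a V ψ t N g v d) (p : AM U a) (y : κ → p.1.1)
    (hy : ∀ i, p.1.2 (y i) = t i) : d p = 0 := by
  obtain ⟨⟨e, he⟩, -, hz⟩ := h2 R U hU ι κ a V ψ t N g p hF.re hF.fi hH
  have h3 : e = 0 := by
    rw [hz e he]
    refine ⟨y, ?_, ?_⟩
    · have h4 : (fun i => p.1.2 (y i)) = t := funext hy
      rw [h4]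
      exact hF.re
    · have h4 : (fun i => p.1.2 (y i)) = t := funext hy
      rw [h4, sub_self]
      exact Sat.zero ψ
  rw [hd p e he, h3, map_zero]

/-- each value which is realised in `p` is the value, along an isomorphism, of a fact whose tuple lies
in `p` -/
theorem AGF_rep (h1 : St_TTS) (h2 : St_RPF) (h3 : St_DLX) (h4 : St_CSF) {R : Type} [Ring R]
    [Countable R] {U : Md R} (hU : MonM R U) {ι l : Type} [Finite ι] [Finite l] (a : ι → U)
    (Z : Set (PP R l)) (Y : Md R) (y : l → Y) (hZ : Full U Z) (hY : (Own R U).Honest Z Y y)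
    (p : AM U a) (d : EF U a Y) (hd : d ∈ TR U a Y p) :
    ∃ (κ : Type) (_ : Finite κ) (V : Set (PP R (ι ⊕ κ))) (ψ : PP R κ) (b : κ → p.1.1) (N : Md R)
      (g : κ → N) (i : Y →ₗ[R] N) (j : N →ₗ[R] Y), Fact U a V ψ (fun q => p.1.2 (b q)) ∧
      (Own R U).Honest (zer '' V ∪ {ψ}) N g ∧ (Own R U).Eqv (j ∘ₗ i) LinearMap.id ∧
      (Own R U).Eqv (i ∘ₗ j) LinearMap.id ∧
      IsVal U a V ψ (fun q => p.1.2 (b q)) N g i d := by
  obtain ⟨hdT, hdp⟩ := hd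
  obtain ⟨κ₀, hκ₀, V₀, ψ₀, t₀, N₀, g₀, v, hF₀, hH₀, hV₀⟩ := h1 R U hU ι a Y d hdT
  obtain ⟨κ, hκ, V, ψ, t, N, g, i, j, hF, hH, hji, hij, hval⟩ :=
    h2 R U hU ι κ₀ l a V₀ ψ₀ t₀ N₀ g₀ Z Y y v hF₀ hH₀ hZ hY
  have hV : IsVal U a V ψ t N g i d := by
    intro q e he
    obtain ⟨⟨e₀, he₀⟩, -, -⟩ := h3 R U hU ι κ₀ a V₀ ψ₀ t₀ N₀ g₀ q hF₀.re hF₀.fi hH₀
    rw [hV₀ q e₀ he₀]
    exact hval q e₀ e he₀ he
  obtain ⟨⟨e, he⟩, -, hz⟩ := h3 R U hU ι κ a V ψ t N g p hF.re hF.fi hH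
  have h5 : (Own R U).exMap i p.1.1 e = 0 := by
    rw [← hV p e he]
    exact hdp
  have h6 : e = 0 := by
    have h7 := exMap_eqv (Own R U) hij p.1.1
    have h8 : (Own R U).exMap (i ∘ₗ j) p.1.1 e = (Own R U).exMap (LinearMap.id : N →ₗ[R] N) p.1.1 e :=
      congrArg (fun f => f e) h7
    rw [exMap_id, ← exMap_comp, h5, map_zero] at h8
    exact h8.symm
  obtain ⟨b, hb, hb'⟩ := (hz e he).mp h6
  have h9 := h4 R U ι κ a V ψ t (fun q => p.1.2 (b q)) N Y g i d (AGF_cos hF.re hb hb')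
  exact ⟨κ, hκ, V, ψ, b, N, g, i, j, h9.1 hF, hH, hji, hij, h9.2 hV⟩

/-- homogeneity of `U` for all finite index types -/
def AGF_Hom : Prop := ∀ (R : Type) [Ring R] [Countable R] (U : Md R), MonM R U →
  ∀ (κ : Type) [Finite κ] (a b : κ → U), pp (R := R) U a = pp (R := R) U b →
    ∃ γ : U ≃ₗ[R] U, ∀ i, γ (a i) = b i

theorem thm_AGF (h1 : St_TTS) (h2 : St_RPF) (h3 : St_DLX) (h4 : St_CSF) (h5 : St_ACF)
    (h6 : AGF_Hom) : St_AGF := by
  intro R _ _ U hU n l _ a Z Y y hZ hY p p' hpp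
  rintro ⟨h, d⟩ ⟨γ, hγ⟩
  have hrep := fun i : Fin h => AGF_rep h1 h2 h3 h4 hU a Z Y y hZ hY p
    (actE U a Y γ (d i)) (hγ i)
  choose κ hκ V ψ b N g i j hF hH hji hij hV using hrep
  have hfin : Finite ((s : Fin h) × κ s) := inferInstance
  obtain ⟨k, ⟨ε⟩⟩ := Finite.exists_equiv_fin ((s : Fin h) × κ s)
  let c : ((s : Fin h) × κ s) → p.1.1 := fun x => b x.1 x.2
  obtain ⟨b', hb'⟩ := hpp k (fun m => c (ε.symm m))
  obtain ⟨δ, hδ⟩ := h6 R U hU (Fin n ⊕ Fin k)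
    (Sum.elim a (fun m => p.1.2 (c (ε.symm m))))
    (Sum.elim a (fun m => p'.1.2 (b' m))) hb'.symm
  have hδa : ∀ m, δ (a m) = a m := fun m => hδ (Sum.inl m)
  let γ' : Gm U a := ⟨δ, hδa⟩
  refine ⟨γ' * γ, fun s => ?_⟩
  show actE U a Y (γ' * γ) (d s) ∈ TR U a Y p'
  rw [actE_mul]
  have hA := h5 R U (Fin n) (κ s) a (V s) (ψ s) (fun q => p.1.2 (b s q)) (N s) Y (g s) (i s)
    (actE U a Y γ (d s)) γ'
  refine ⟨hA.2.2 _ (hγ s).1, ?_⟩
  refine AGF_van h3 hU (hA.1 (hF s)) (hH s) (hA.2.1 (hV s)) p' (fun q => b' (ε ⟨s, q⟩)) ?_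
  intro q
  have h7 : δ (p.1.2 (c (ε.symm (ε ⟨s, q⟩)))) = p'.1.2 (b' (ε ⟨s, q⟩)) :=
    hδ (Sum.inr (ε ⟨s, q⟩))
  rw [Equiv.symm_apply_apply] at h7
  exact h7.symm

end Pool.Agent.VMF
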