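import Pool.Agent.VMF.ALGR

/-!
# VMF: the algebra lemma of UML_T

`L` a ring with the descending chain condition for principal left ideals, `T` a right `L`-module
with a group `Γ` of automorphisms, all orbits finite. A family `D i` of submodules with countably many
invariants `F i`, such that every sequence generates, up to local conjugation, one of the `D i`.
Then `T` is Noetherian.
-/

set_option autoImplicit false

namespace Pool.Agent.VMF

open MulOpposite Pool.Agent.MVC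

universe u v w

section

variable {A : Type} [Ring A] {W : Type u} [AddCommGroup W] [Module A W]

/-- a strictly increasing sequence of finitely generated submodules which are stable under a set `G`
of linear maps, with elements generating simple submodules -/
theorem ALG_chain (hs : IsSemisimpleModule A W) (hW : ¬ Module.Finite A W)
    (G : Set (W →ₗ[A] W)) (h1 : LinearMap.id ∈ G) (hm : ∀ g ∈ G, ∀ h ∈ G, g ∘ₗ h ∈ G)
    (hfin : ∀ x : W, {y | ∃ g ∈ G, y = g x}.Finite) :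
    ∃ (U : ℕ → Submodule A W) (x : ℕ → W), (∀ n, (U n).FG) ∧ Monotone U ∧
      (∀ n, ∀ g ∈ G, (U n).map g ≤ U n) ∧ (∀ n, x n ≠ 0) ∧ (∀ n, x n ∈ U (n + 1)) ∧
      (∀ n, Disjoint (U n) (Submodule.span A {x n})) := by
  classical
  have hstep : ∀ V : Submodule A W, V.FG → (∀ g ∈ G, V.map g ≤ V) →
      ∃ (V' : Submodule A W) (x : W), V'.FG ∧ V ≤ V' ∧ (∀ g ∈ G, V'.map g ≤ V') ∧ x ≠ 0 ∧
        x ∈ V' ∧ Disjoint V (Submodule.span A {x}) := by
    intro V hV hVG
    have hne : V ≠ ⊤ := fun h => hW ⟨h ▸ hV⟩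
    obtain ⟨C, hC⟩ := exists_isCompl V
    have hC0 : C ≠ ⊥ := by
      intro h
      have h2 := hC.sup_eq_top
      rw [h, sup_bot_eq] at h2
      exact hne h2
    obtain ⟨x, hx, hx0⟩ := Submodule.exists_mem_ne_zero_of_ne_bot hC0
    refine ⟨V ⊔ Submodule.span A {y | ∃ g ∈ G, y = g x}, x, hV.sup ?_, le_sup_left, ?_, hx0, ?_,
      hC.disjoint.mono_right ((Submodule.span_singleton_le_iff_mem _ _).2 hx)⟩
    · exact Submodule.fg_def.2 ⟨_, hfin x, rfl⟩
    · intro g hg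
      rw [Submodule.map_sup, Submodule.map_span]
      refine sup_le_sup (hVG g hg) (Submodule.span_mono ?_)
      rintro _ ⟨_, ⟨h, hh, rfl⟩, rfl⟩
      exact ⟨g ∘ₗ h, hm g hg h hh, rfl⟩
    · exact Submodule.mem_sup_right (Submodule.subset_span ⟨LinearMap.id, h1, rfl⟩)
  choose! nx px hFG hle hst hx0 hxm hdis using hstep
  let U : ℕ → Submodule A W := fun n => Nat.rec ⊥ (fun _ V => nx V) n
  have hU : ∀ n, U (n + 1) = nx (U n) := fun n => rfl
  have hP : ∀ n, (U n).FG ∧ ∀ g ∈ G, (U n).map g ≤ U n := by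
    intro n
    induction n with
    | zero =>
      refine ⟨Submodule.fg_bot, fun g _ => ?_⟩
      show (⊥ : Submodule A W).map g ≤ _
      rw [Submodule.map_bot]
      exact bot_le
    | succ n ih =>
      rw [hU]
      exact ⟨hFG _ ih.1 ih.2, hst _ ih.1 ih.2⟩
  refine ⟨U, fun n => px (U n), fun n => (hP n).1, monotone_nat_of_le_succ fun n => ?_,
    fun n => (hP n).2, fun n => hx0 _ (hP n).1 (hP n).2, fun n => ?_,
    fun n => hdis _ (hP n).1 (hP n).2⟩
  · rw [hU]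
    exact hle _ (hP n).1 (hP n).2
  · show px (U n) ∈ U (n + 1)
    rw [hU]
    exact hxm _ (hP n).1 (hP n).2

/-- the intersection of a span with a member of the chain -/
theorem ALG_tri (U : ℕ → Submodule A W) (x : ℕ → W) (hU : Monotone U)
    (hx : ∀ n, x n ∈ U (n + 1)) (hd : ∀ n, Disjoint (U n) (Submodule.span A {x n}))
    (S : Set ℕ) (n : ℕ) (v : W) (hv : v ∈ Submodule.span A (x '' S)) (hvn : v ∈ U n) :
    v ∈ Submodule.span A (x '' {j | j ∈ S ∧ j < n}) := by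
  have h1 : ∀ k, v ∈ Submodule.span A (x '' {j | j ∈ S ∧ j < n + k}) →
      v ∈ Submodule.span A (x '' {j | j ∈ S ∧ j < n}) := by
    intro k
    induction k with
    | zero => exact fun h => h
    | succ k ih =>
      intro h
      apply ih
      by_cases hk : n + k ∈ S
      · have h2 : {j | j ∈ S ∧ j < n + (k + 1)} = {j | j ∈ S ∧ j < n + k} ∪ {n + k} := by
          ext j
          simp only [Set.mem_ofPred_eq, Set.mem_union, Set.mem_singleton_iff]
          constructor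
          · rintro ⟨h3, h4⟩
            by_cases h5 : j = n + k
            · exact Or.inr h5
            · exact Or.inl ⟨h3, by omega⟩
          · rintro (⟨h3, h4⟩ | h3)
            · exact ⟨h3, by omega⟩
            · subst h3
              exact ⟨hk, by omega⟩
        rw [h2, Set.image_union, Submodule.span_union, Set.image_singleton] at h
        obtain ⟨a, ha, b, hb, hab⟩ := Submodule.mem_sup.1 h
        have h3 : a ∈ U (n + k) := by
          have h4 : Submodule.span A (x '' {j | j ∈ S ∧ j < n + k}) ≤ U (n + k) := by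
            rw [Submodule.span_le]
            rintro _ ⟨j, ⟨-, hj⟩, rfl⟩
            exact hU (show j + 1 ≤ n + k by omega) (hx j)
          exact h4 ha
        have h4 : b ∈ U (n + k) := by
          have h5 : b = v - a := by rw [← hab, add_sub_cancel_left]
          rw [h5]
          exact Submodule.sub_mem _ (hU (Nat.le_add_right n k) hvn) h3
        have h5 : b = 0 := Submodule.disjoint_def.1 (hd (n + k)) b h4 hb
        rw [h5, add_zero] at hab
        rwa [hab] at ha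
      · have h2 : {j | j ∈ S ∧ j < n + (k + 1)} = {j | j ∈ S ∧ j < n + k} := by
          ext j
          simp only [Set.mem_ofPred_eq]
          constructor
          · rintro ⟨h3, h4⟩
            refine ⟨h3, ?_⟩
            rcases Nat.lt_succ_iff_lt_or_eq.1 (show j < (n + k) + 1 by omega) with h5 | h5
            · exact h5
            · exact absurd (h5 ▸ h3) hk
          · rintro ⟨h3, h4⟩
            exact ⟨h3, by omega⟩
        rwa [h2] at h
  have h2 : x '' S = ⋃ k, x '' {j | j ∈ S ∧ j < n + k} := by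
    ext y
    simp only [Set.mem_image, Set.mem_ofPred_eq, Set.mem_iUnion]
    constructor
    · rintro ⟨j, hj, rfl⟩
      exact ⟨j + 1, j, ⟨hj, by omega⟩, rfl⟩
    · rintro ⟨k, j, ⟨hj, -⟩, rfl⟩
      exact ⟨j, hj, rfl⟩
  rw [h2, Submodule.span_iUnion] at hv
  have hdir : Directed (· ≤ ·) fun k => Submodule.span A (x '' {j | j ∈ S ∧ j < n + k}) :=
    Monotone.directed_le fun a b hab => Submodule.span_mono (Set.image_mono
      fun j hj => ⟨hj.1, lt_of_lt_of_le hj.2 (by omega)⟩)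
  obtain ⟨k, hk⟩ := (Submodule.mem_iSup_of_directed _ hdir).1 hv
  exact h1 k hk

/-- finitely many members of a spanning set suffice -/
theorem ALG_finspan (m : ℕ → W) {n : ℕ} (e : Fin n → W)
    (he : ∀ i, e i ∈ Submodule.span A (Set.range m)) :
    ∃ k, ∀ i, e i ∈ Submodule.span A (m '' {j | j < k}) := by
  have h2 : Set.range m = ⋃ k, m '' {j | j < k} := by
    apply Set.Subset.antisymm
    · rintro _ ⟨j, rfl⟩
      exact Set.mem_iUnion.2 ⟨j + 1, j, Nat.lt_succ_self j, rfl⟩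
    · intro y hy
      obtain ⟨k, j, -, hj⟩ := Set.mem_iUnion.1 hy
      exact ⟨j, hj⟩
  have hmono : ∀ a b : ℕ, a ≤ b → Submodule.span A (m '' {j | j < a}) ≤
      Submodule.span A (m '' {j | j < b}) := by
    intro a b hab
    apply Submodule.span_mono
    apply Set.image_mono
    intro j hj
    have h3 : j < a := hj
    show j < b
    omega
  have hdir : Directed (· ≤ ·) fun k : ℕ => Submodule.span A (m '' {j | j < k}) :=
    Monotone.directed_le hmono
  have h3 : ∀ i, ∃ k, e i ∈ Submodule.span A (m '' {j | j < k}) := by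
    intro i
    have h4 := he i
    rw [h2, Submodule.span_iUnion] at h4
    exact (Submodule.mem_iSup_of_directed _ hdir).1 h4
  choose k hk using h3
  refine ⟨Finset.univ.sup k, fun i => ?_⟩
  have h5 : k i ≤ Finset.univ.sup k := Finset.le_sup (f := k) (Finset.mem_univ i)
  exact hmono _ _ h5 (hk i)

end

/-- a family of sets of natural numbers with countably many invariants has two different members with
the same invariant -/
theorem ALG_two {α : Type w} (F : Set ℕ → α) (hF : (Set.range F).Countable) :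
    ∃ S S' : Set ℕ, S ≠ S' ∧ F S = F S' := by
  by_contra hcon
  push Not at hcon
  have hinj : Function.Injective F := fun S S' h => by
    by_contra hne
    exact hcon S S' hne h
  have h1 : Countable (Set ℕ) := by
    have h2 : Countable (Set.range F) := hF.to_subtype
    exact (Function.Injective.countable (f := Set.rangeFactorization F)
      (fun S S' h => hinj (congrArg Subtype.val h)))
  obtain ⟨f, hf⟩ := exists_surjective_nat (Set ℕ)
  exact Function.cantor_surjective f hf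

section

variable {L : Type} [Ring L] {T : Type u} [AddCommGroup T] [Module Lᵐᵒᵖ T] {Γ : Type} [Group Γ]

/-- the comparison of two members of the family with the same invariant -/
theorem ALG_key (ρ : Γ →* (T ≃ₗ[Lᵐᵒᵖ] T)) {I : Type v} {α : Type w}
    (D : I → Submodule Lᵐᵒᵖ T) (F : I → α)
    (hFD : ∀ i j, F i = F j → ∀ (n : ℕ) (d : Fin n → T), (∀ k, d k ∈ D i) →
      ∃ γ : Γ, ∀ k, ρ γ (d k) ∈ D j)
    (hex : ∀ m : ℕ → T, ∃ (i : I) (m' : ℕ → T), (∀ k, ∃ γ : Γ, ∀ j < k, ρ γ (m j) = m' j) ∧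
      D i = Submodule.span Lᵐᵒᵖ (Set.range m')) (m : ℕ → T) :
    ∃ i : Set ℕ → I, ∀ S S' : Set ℕ, F (i S) = F (i S') → ∀ n, ∃ γ : Γ, ∀ j ∈ S, j < n →
      ρ γ (m j) ∈ Submodule.span Lᵐᵒᵖ (m '' S') := by
  classical
  choose i m' hm' hi using fun S : Set ℕ => hex (fun j => if j ∈ S then m j else 0)
  refine ⟨i, fun S S' h n => ?_⟩
  obtain ⟨γ₁, h1⟩ := hFD _ _ h n (fun k => m' S k) (fun k => by
    rw [hi]
    exact Submodule.subset_span ⟨k, rfl⟩)
  obtain ⟨k₀, hk₀⟩ := ALG_finspan (A := Lᵐᵒᵖ) (m' S') (fun k : Fin n => ρ γ₁ (m' S k)) (fun k => by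
    have h2 := h1 k
    rwa [hi] at h2)
  obtain ⟨γ₂, h2⟩ := hm' S' k₀
  obtain ⟨γ₃, h3⟩ := hm' S n
  refine ⟨γ₂⁻¹ * γ₁ * γ₃, fun j hj hjn => ?_⟩
  have h4 : ρ γ₃ (m j) = m' S j := by
    have h5 := h3 j hjn
    simp only [if_pos hj] at h5
    exact h5
  have h5 : ρ (γ₂⁻¹ * γ₁ * γ₃) (m j) = (ρ γ₂⁻¹) (ρ γ₁ (m' S j)) := by
    rw [map_mul, map_mul, LinearEquiv.mul_apply, LinearEquiv.mul_apply, h4]
  rw [h5]
  have h60 : ρ γ₁ (m' S j) ∈ Submodule.span Lᵐᵒᵖ (m' S' '' {j | j < k₀}) := hk₀ ⟨j, hjn⟩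
  have h6 := Submodule.mem_map_of_mem (f := ((ρ γ₂⁻¹ : T ≃ₗ[Lᵐᵒᵖ] T) : T →ₗ[Lᵐᵒᵖ] T)) h60
  rw [Submodule.map_span, Set.image_image] at h6
  refine (Submodule.span_le (p := Submodule.span Lᵐᵒᵖ (m '' S'))).2 ?_ h6
  rintro _ ⟨l, hl, rfl⟩
  have h7 : ρ γ₂ (if l ∈ S' then m l else 0) = m' S' l := h2 l hl
  have h8 : ((ρ γ₂⁻¹ : T ≃ₗ[Lᵐᵒᵖ] T) : T →ₗ[Lᵐᵒᵖ] T) (m' S' l) = if l ∈ S' then m l else 0 := by
    rw [← h7, map_inv]
    exact (ρ γ₂).symm_apply_apply _
  show ((ρ γ₂⁻¹ : T ≃ₗ[Lᵐᵒᵖ] T) : T →ₗ[Lᵐᵒᵖ] T) (m' S' l) ∈ Submodule.span Lᵐᵒᵖ (m '' S')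
  rw [h8]
  by_cases hl' : l ∈ S'
  · rw [if_pos hl']
    exact Submodule.subset_span ⟨l, hl', rfl⟩
  · rw [if_neg hl']
    exact Submodule.zero_mem _

theorem ALG_stable (e : T ≃ₗ[Lᵐᵒᵖ] T) : TJ L T ≤ (TJ L T).comap (e : T →ₗ[Lᵐᵒᵖ] T) := by
  rw [TJ, Submodule.span_le]
  rintro _ ⟨x, a, ha, rfl⟩
  have h1 : (e : T →ₗ[Lᵐᵒᵖ] T) (op a • x) = op a • e x := map_smul _ _ _
  rw [SetLike.mem_coe, Submodule.mem_comap, h1]
  exact Submodule.subset_span ⟨_, a, ha, rfl⟩

/-- the induced map on `T / T J` -/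
def ALG_g (e : T ≃ₗ[Lᵐᵒᵖ] T) : (T ⧸ TJ L T) →ₗ[Lᵐᵒᵖ] (T ⧸ TJ L T) :=
  (TJ L T).mapQ (TJ L T) (e : T →ₗ[Lᵐᵒᵖ] T) (ALG_stable e)

theorem ALG_g_mk (e : T ≃ₗ[Lᵐᵒᵖ] T) (x : T) :
    ALG_g e ((TJ L T).mkQ x) = (TJ L T).mkQ (e x) := rfl

theorem ALG_g_inj (e : T ≃ₗ[Lᵐᵒᵖ] T) : Function.Injective (ALG_g e) := by
  have h : Function.LeftInverse (ALG_g e.symm) (ALG_g e) := by
    intro x
    obtain ⟨x, rfl⟩ := (TJ L T).mkQ_surjective x
    rw [ALG_g_mk, ALG_g_mk, LinearEquiv.symm_apply_apply]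
  exact h.injective

/-- Case I: `T` is finitely generated. -/
theorem ALG_fin (hL : DCCR L) (ρ : Γ →* (T ≃ₗ[Lᵐᵒᵖ] T))
    (hfin : ∀ t : T, (Set.range fun γ : Γ => ρ γ t).Finite) {I : Type v} {α : Type w}
    (D : I → Submodule Lᵐᵒᵖ T) (F : I → α) (hF : (Set.range F).Countable)
    (hFD : ∀ i j, F i = F j → ∀ (n : ℕ) (d : Fin n → T), (∀ k, d k ∈ D i) →
      ∃ γ : Γ, ∀ k, ρ γ (d k) ∈ D j)
    (hex : ∀ m : ℕ → T, ∃ (i : I) (m' : ℕ → T), (∀ k, ∃ γ : Γ, ∀ j < k, ρ γ (m j) = m' j) ∧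
      D i = Submodule.span Lᵐᵒᵖ (Set.range m')) : Module.Finite Lᵐᵒᵖ T := by
  classical
  by_contra hT
  have hW : ¬ Module.Finite Lᵐᵒᵖ (T ⧸ TJ L T) := fun h => hT (TJ_nak hL T h)
  have hs := TJ_ss hL T
  obtain ⟨U, x, -, hU, hst, hx0, hxU, hdis⟩ := ALG_chain hs hW
    (Set.range fun γ : Γ => ALG_g (ρ γ)) ⟨1, by
      ext y
      simp only [map_one]
      rfl⟩ (by
      rintro _ ⟨γ, rfl⟩ _ ⟨δ, rfl⟩
      refine ⟨γ * δ, ?_⟩
      ext y
      simp only [map_mul]
      rfl) (by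
      intro y
      obtain ⟨t, rfl⟩ := (TJ L T).mkQ_surjective y
      refine ((hfin t).image (TJ L T).mkQ).subset ?_
      rintro _ ⟨_, ⟨γ, rfl⟩, rfl⟩
      exact ⟨ρ γ t, ⟨γ, rfl⟩, rfl⟩)
  choose m hm using fun n => (TJ L T).mkQ_surjective (x n)
  obtain ⟨i, hi⟩ := ALG_key ρ D F hFD hex m
  obtain ⟨S, S', hne, hSS⟩ := ALG_two (fun S => F (i S)) (hF.mono (by
    rintro _ ⟨S, rfl⟩
    exact ⟨i S, rfl⟩))
  -- the first difference
  have main : ∀ S S' : Set ℕ, F (i S) = F (i S') → ∀ n, n ∈ S → n ∉ S' →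
      (∀ j < n, j ∈ S ↔ j ∈ S') → False := by
    intro S S' hSS n hn hn' hlt
    obtain ⟨γ, hγ⟩ := hi S S' hSS (n + 1)
    set g := ALG_g (ρ γ) with hg
    set Q := Submodule.span Lᵐᵒᵖ (x '' {j | j ∈ S ∧ j < n}) with hQ
    set P := Submodule.span Lᵐᵒᵖ (x '' {j | j ∈ S ∧ j < n + 1}) with hP
    have hQP : Q ≤ P := Submodule.span_mono (Set.image_mono fun j hj =>
      ⟨hj.1, Nat.lt_succ_of_lt hj.2⟩)
    have h1 : ∀ j ∈ S, j < n + 1 → g (x j) ∈ Q := by
      intro j hj hjn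
      have h2 : g (x j) ∈ Submodule.span Lᵐᵒᵖ (x '' S') := by
        rw [← hm j, hg, ALG_g_mk]
        have h3 := Submodule.mem_map_of_mem (f := (TJ L T).mkQ) (hγ j hj hjn)
        rw [Submodule.map_span, Set.image_image] at h3
        have h4 : (fun l => (TJ L T).mkQ (m l)) = x := funext hm
        rwa [h4] at h3
      have h3 : g (x j) ∈ U (n + 1) := by
        apply hst (n + 1) g ⟨γ, rfl⟩
        exact Submodule.mem_map_of_mem (hU (show j + 1 ≤ n + 1 by omega) (hxU j))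
      have h4 := ALG_tri U x hU hxU hdis S' (n + 1) _ h2 h3
      refine Submodule.span_mono (Set.image_mono ?_) h4
      rintro l ⟨hl, hln⟩
      have hln' : l ≠ n := fun h => hn' (h ▸ hl)
      have hln2 : l < n := by omega
      exact ⟨(hlt l hln2).2 hl, hln2⟩
    have h2 : P.map g ≤ Q := by
      rw [hP, Submodule.map_span, Submodule.span_le]
      rintro _ ⟨_, ⟨j, ⟨hj, hjn⟩, rfl⟩, rfl⟩
      exact h1 j hj hjn
    have h3 : ∀ y ∈ P, g y ∈ P := fun y hy => hQP (h2 (Submodule.mem_map_of_mem hy))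
    have hPfg : P.FG := Submodule.fg_def.2 ⟨_, ((Set.finite_lt_nat (n + 1)).subset
      (fun j hj => hj.2)).image x, rfl⟩
    have hPf : Module.Finite Lᵐᵒᵖ P := Module.Finite.iff_fg.2 hPfg
    have hPs : IsSemisimpleModule Lᵐᵒᵖ P := inferInstance
    have hPa : IsArtinian Lᵐᵒᵖ P :=
      ((IsSemisimpleModule.finite_tfae (R := Lᵐᵒᵖ) (M := P)).out 0 2).1 hPf
    have hinj : Function.Injective (g.restrict h3) := by
      intro y z hyz
      apply Subtype.ext
      apply ALG_g_inj (ρ γ)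
      exact congrArg Subtype.val hyz
    have hsur : Function.Surjective (g.restrict h3) :=
      IsArtinian.surjective_of_injective_endomorphism _ hinj
    have hxn : x n ∈ P := Submodule.subset_span ⟨n, ⟨hn, Nat.lt_succ_self n⟩, rfl⟩
    obtain ⟨y, hy⟩ := hsur ⟨x n, hxn⟩
    have h4 : x n ∈ Q := by
      have h5 : g y.1 = x n := congrArg Subtype.val hy
      rw [← h5]
      exact h2 (Submodule.mem_map_of_mem y.2)
    have h5 : Q ≤ U n := by
      rw [hQ, Submodule.span_le]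
      rintro _ ⟨j, ⟨-, hj⟩, rfl⟩
      exact hU (show j + 1 ≤ n by omega) (hxU j)
    exact hx0 n (Submodule.disjoint_def.1 (hdis n) _ (h5 h4)
      (Submodule.mem_span_singleton_self _))
  have hdiff : ∃ n, ¬ (n ∈ S ↔ n ∈ S') := by
    by_contra hcon
    push Not at hcon
    exact hne (Set.ext hcon)
  obtain ⟨n, hsp, hmin⟩ : ∃ n, ¬ (n ∈ S ↔ n ∈ S') ∧ ∀ j < n, j ∈ S ↔ j ∈ S' :=
    ⟨Nat.find hdiff, Nat.find_spec hdiff, fun j hj => not_not.1 (Nat.find_min hdiff hj)⟩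
  have hlt := hmin
  by_cases hn : n ∈ S
  · have hn' : n ∉ S' := fun h => hsp ⟨fun _ => h, fun _ => hn⟩
    exact main S S' hSS n hn hn' hlt
  · have hn' : n ∈ S' := by
      by_contra h
      exact hsp ⟨fun h' => absurd h' hn, fun h' => absurd h' h⟩
    exact main S' S hSS.symm n hn' hn fun j hj => (hlt j hj).symm

/-- **ALG.** `T` is Noetherian. -/
theorem ALG (hL : DCCR L) (ρ : Γ →* (T ≃ₗ[Lᵐᵒᵖ] T))
    (hfin : ∀ t : T, (Set.range fun γ : Γ => ρ γ t).Finite) {I : Type v} {α : Type w}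
    (D : I → Submodule Lᵐᵒᵖ T) (F : I → α) (hF : (Set.range F).Countable)
    (hFD : ∀ i j, F i = F j → ∀ (n : ℕ) (d : Fin n → T), (∀ k, d k ∈ D i) →
      ∃ γ : Γ, ∀ k, ρ γ (d k) ∈ D j)
    (hex : ∀ m : ℕ → T, ∃ (i : I) (m' : ℕ → T), (∀ k, ∃ γ : Γ, ∀ j < k, ρ γ (m j) = m' j) ∧
      D i = Submodule.span Lᵐᵒᵖ (Set.range m')) (V : Submodule Lᵐᵒᵖ T) : V.FG := by
  classical
  have hT := ALG_fin hL ρ hfin D F hF hFD hex
  by_contra hV
  have hV' : ¬ Module.Finite Lᵐᵒᵖ V := fun h => hV (Module.Finite.iff_fg.1 h)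
  obtain ⟨mV, hmV⟩ := lemR hL V hV'
  let m : ℕ → T := fun k => (mV k : T)
  have hm : ∀ k, m k ∉ Submodule.span Lᵐᵒᵖ (m '' {j | j ≠ k}) := by
    intro k hk
    apply hmV k
    have h1 : Submodule.span Lᵐᵒᵖ (m '' {j | j ≠ k}) =
        (Submodule.span Lᵐᵒᵖ (mV '' {j | j ≠ k})).map V.subtype := by
      rw [Submodule.map_span, Set.image_image]
      rfl
    rw [h1] at hk
    obtain ⟨y, hy, hyk⟩ := hk
    have h2 : y = mV k := Subtype.ext hyk
    rwa [h2] at hy
  obtain ⟨i, hi⟩ := ALG_key ρ D F hFD hex m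
  -- the automorphisms are finitely many
  obtain ⟨s, hs⟩ := hT.fg_top
  have hfinite : (Set.range fun γ : Γ => fun t : s => ρ γ (t : T)).Finite := by
    refine (Set.Finite.pi' fun t : s => hfin (t : T)).subset ?_
    rintro _ ⟨γ, rfl⟩ t
    exact ⟨γ, rfl⟩
  have hdet : ∀ γ δ : Γ, (fun t : s => ρ γ (t : T)) = (fun t : s => ρ δ (t : T)) → ρ γ = ρ δ := by
    intro γ δ h
    apply LinearEquiv.toLinearMap_injective
    apply LinearMap.ext_on hs
    intro t ht
    exact congrFun h ⟨t, ht⟩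
  have hrf : (Set.range ρ).Finite := by
    have h1 : Function.Injective (fun e : Set.range ρ => fun t : s => e.1 (t : T)) := by
      rintro ⟨_, γ, rfl⟩ ⟨_, δ, rfl⟩ h
      exact Subtype.ext (hdet γ δ h)
    have h2 : Set.range (fun e : Set.range ρ => fun t : s => e.1 (t : T)) ⊆
        Set.range fun γ : Γ => fun t : s => ρ γ (t : T) := by
      rintro _ ⟨⟨_, γ, rfl⟩, rfl⟩
      exact ⟨γ, rfl⟩
    have h3 : (Set.range (fun e : Set.range ρ => fun t : s => e.1 (t : T))).Finite :=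
      hfinite.subset h2
    have h4 : Finite (Set.range ρ) := by
      have : Finite (Set.range (fun e : Set.range ρ => fun t : s => e.1 (t : T))) := h3
      exact Finite.of_injective (Set.rangeFactorization
        (fun e : Set.range ρ => fun t : s => e.1 (t : T)))
        (fun a b hab => h1 (congrArg Subtype.val hab))
    exact h4
  let E : Set ℕ → Submodule Lᵐᵒᵖ T := fun S => Submodule.span Lᵐᵒᵖ (m '' S)
  have hE : Function.Injective E := by
    have h1 : ∀ S S', E S = E S' → S ⊆ S' := by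
      intro S S' h k hk
      by_contra hk'
      apply hm k
      have h2 : m k ∈ E S := Submodule.subset_span ⟨k, hk, rfl⟩
      rw [h] at h2
      refine Submodule.span_mono (Set.image_mono ?_) h2
      intro j hj hjk
      exact hk' (hjk ▸ hj)
    intro S S' h
    exact Set.Subset.antisymm (h1 S S' h) (h1 S' S h.symm)
  -- one automorphism for all elements
  have hone : ∀ S S' : Set ℕ, F (i S) = F (i S') → ∃ γ : Γ, ∀ j ∈ S, ρ γ (m j) ∈ E S' := by
    intro S S' h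
    by_contra hcon
    push Not at hcon
    choose j hjS hj using hcon
    obtain ⟨n, hn⟩ : ∃ n, ∀ γ : Γ, ∃ l ∈ S, l < n ∧ ρ γ (m l) ∉ E S' := by
      choose δ hδ using fun e : Set.range ρ => e.2
      have : Finite (Set.range ρ) := hrf
      have : Fintype (Set.range ρ) := Fintype.ofFinite _
      refine ⟨Finset.univ.sup (fun e : Set.range ρ => j (δ e)) + 1, fun γ => ?_⟩
      obtain ⟨δ', hδ', h2⟩ : ∃ δ', j δ' ≤ Finset.univ.sup (fun e : Set.range ρ => j (δ e)) ∧
          ρ δ' = ρ γ := ⟨δ ⟨ρ γ, γ, rfl⟩, Finset.le_sup (f := fun e : Set.range ρ => j (δ e))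
          (Finset.mem_univ _), hδ ⟨ρ γ, γ, rfl⟩⟩
      refine ⟨j δ', hjS _, Nat.lt_succ_of_le hδ', ?_⟩
      rw [← h2]
      exact hj _
    obtain ⟨γ, hγ⟩ := hi S S' h n
    obtain ⟨l, hl, hln, hlE⟩ := hn γ
    exact hlE (hγ l hl hln)
  -- the fibres are finite
  have hfib : ∀ S : Set ℕ, {S' | F (i S) = F (i S')}.Finite := by
    intro S
    have h1 : (Set.range fun e : Set.range ρ =>
        (E S).comap (e.1 : T →ₗ[Lᵐᵒᵖ] T)).Finite := by
      have : Finite (Set.range ρ) := hrf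
      exact Set.finite_range _
    refine Set.Finite.of_finite_image (f := E) (h1.subset ?_) hE.injOn
    rintro _ ⟨S', hS', rfl⟩
    have hS1 : F (i S) = F (i S') := hS'
    obtain ⟨γ₁, h2⟩ := hone S S' hS1
    obtain ⟨γ₂, h3⟩ := hone S' S hS1.symm
    refine ⟨⟨ρ γ₂, γ₂, rfl⟩, ?_⟩
    show (E S).comap (ρ γ₂ : T →ₗ[Lᵐᵒᵖ] T) = E S'
    have h4 : (E S).map (ρ γ₁ : T →ₗ[Lᵐᵒᵖ] T) ≤ E S' := by
      show (Submodule.span Lᵐᵒᵖ (m '' S)).map _ ≤ _
      rw [Submodule.map_span, Submodule.span_le]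
      rintro _ ⟨_, ⟨j, hj, rfl⟩, rfl⟩
      exact h2 j hj
    have h5 : (E S').map (ρ γ₂ : T →ₗ[Lᵐᵒᵖ] T) ≤ E S := by
      show (Submodule.span Lᵐᵒᵖ (m '' S')).map _ ≤ _
      rw [Submodule.map_span, Submodule.span_le]
      rintro _ ⟨_, ⟨j, hj, rfl⟩, rfl⟩
      exact h3 j hj
    have h6 : ∀ v ∈ E S, ρ (γ₂ * γ₁) v ∈ E S := by
      intro v hv
      rw [map_mul]
      exact h5 (Submodule.mem_map_of_mem (h4 (Submodule.mem_map_of_mem hv)))
    have h7 : ∀ (n : ℕ), ∀ v ∈ E S, ρ ((γ₂ * γ₁) ^ n) v ∈ E S := by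
      intro n
      induction n with
      | zero =>
        intro v hv
        rw [pow_zero, map_one]
        exact hv
      | succ n ih =>
        intro v hv
        rw [pow_succ', map_mul]
        exact h6 _ (ih v hv)
    obtain ⟨n, hn⟩ : ∃ n, ρ ((γ₂ * γ₁) ^ (n + 1)) = 1 := by
      have : Finite (Set.range ρ) := hrf
      obtain ⟨a, b, hab, h8⟩ := Finite.exists_ne_map_eq_of_infinite
        (fun n : ℕ => (⟨ρ ((γ₂ * γ₁) ^ n), (γ₂ * γ₁) ^ n, rfl⟩ : Set.range ρ))
      have h9 : ρ ((γ₂ * γ₁) ^ a) = ρ ((γ₂ * γ₁) ^ b) := congrArg Subtype.val h8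
      have key : ∀ a b : ℕ, a < b → ρ ((γ₂ * γ₁) ^ a) = ρ ((γ₂ * γ₁) ^ b) →
          ∃ n, ρ ((γ₂ * γ₁) ^ (n + 1)) = 1 := by
        intro a b hab h
        refine ⟨b - a - 1, ?_⟩
        have h10 : a + (b - a - 1 + 1) = b := by omega
        rw [← h10, pow_add, map_mul] at h
        exact (mul_eq_left.1 h.symm)
      rcases lt_or_gt_of_ne hab with h10 | h10
      · exact key a b h10 h9
      · exact key b a h10 h9.symm
    apply le_antisymm
    · intro v hv
      have hv' : ρ γ₂ v ∈ E S := hv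
      have h8 : ρ γ₂ v = ρ (γ₂ * γ₁) (ρ ((γ₂ * γ₁) ^ n) (ρ γ₂ v)) := by
        have h9 : ρ ((γ₂ * γ₁) ^ (n + 1)) (ρ γ₂ v) = ρ γ₂ v := by
          rw [hn]
          rfl
        rw [pow_succ', map_mul] at h9
        exact h9.symm
      rw [map_mul] at h8
      have h9 : v = ρ γ₁ (ρ ((γ₂ * γ₁) ^ n) (ρ γ₂ v)) := (ρ γ₂).injective h8
      rw [h9]
      exact h4 (Submodule.mem_map_of_mem (h7 n _ hv'))
    · intro v hv
      exact h5 (Submodule.mem_map_of_mem hv)
  -- the end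
  have hcount : (Set.univ : Set (Set ℕ)).Countable := by
    have h1 : (Set.univ : Set (Set ℕ)) ⊆
        ⋃ a ∈ Set.range (fun S => F (i S)), {S' | F (i S') = a} := by
      intro S _
      exact Set.mem_iUnion₂.2 ⟨F (i S), ⟨S, rfl⟩, rfl⟩
    refine Set.Countable.mono h1 (Set.Countable.biUnion (hF.mono ?_) ?_)
    · rintro _ ⟨S, rfl⟩
      exact ⟨i S, rfl⟩
    · rintro _ ⟨S, rfl⟩
      refine ((hfib S).subset ?_).countable
      intro S' hS'
      exact Eq.symm hS'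
  have h1 : Countable (Set ℕ) := Set.countable_univ_iff.1 hcount
  obtain ⟨f, hf⟩ := exists_surjective_nat (Set ℕ)
  exact Function.cantor_surjective f hf

end

end Pool.Agent.VMF
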