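import Pool.Agent.VMF.ALG

/-!
# VMF: the algebra lemma of UML_T for a submodule of a module with an action
-/

set_option autoImplicit false

namespace Pool.Agent.VMF

open MulOpposite Pool.Agent.MVC

universe u

/-- ALG for a submodule `TT` of `E` which is stable under an action. -/
theorem ALGB (L : Type) [Ring L] (hL : DCCR L) (E : Type u) [AddCommGroup E] [Module Lᵐᵒᵖ E]
    (G : Type) [Group G] (act : G → E →ₗ[Lᵐᵒᵖ] E) (h1 : ∀ x, act 1 x = x)
    (hm : ∀ g h x, act (g * h) x = act g (act h x)) (TT : Submodule Lᵐᵒᵖ E)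
    (hTT : ∀ g, ∀ x ∈ TT, act g x ∈ TT) (hfin : ∀ x ∈ TT, {y | ∃ g, y = act g x}.Finite)
    (C : Set (Submodule Lᵐᵒᵖ E)) (hC : ∀ D ∈ C, D ≤ TT)
    (hCt : {O : Set ((h : ℕ) × (Fin h → E)) | ∃ D ∈ C,
      O = {p | ∃ g, ∀ i, act g (p.2 i) ∈ D}}.Countable)
    (hex : ∀ m : ℕ → E, (∀ j, m j ∈ TT) → ∃ m' : ℕ → E,
      (∀ k, ∃ g, ∀ i < k, act g (m i) = m' i) ∧ Submodule.span Lᵐᵒᵖ (Set.range m') ∈ C) :
    ∀ D ≤ TT, D.FG := by
  classical
  have hinv : ∀ g x, act g⁻¹ (act g x) = x := fun g x => by rw [← hm, inv_mul_cancel, h1]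
  have hinv' : ∀ g x, act g (act g⁻¹ x) = x := fun g x => by rw [← hm, mul_inv_cancel, h1]
  let r : G → (TT →ₗ[Lᵐᵒᵖ] TT) := fun g => (act g).restrict (hTT g)
  have hr : ∀ g (x : TT), ((r g x : TT) : E) = act g x := fun g x => rfl
  let ρ : G →* (TT ≃ₗ[Lᵐᵒᵖ] TT) :=
    { toFun := fun g => LinearEquiv.ofLinearMap (r g) (r g⁻¹)
        (by ext x; exact hinv' g x) (by ext x; exact hinv g x)
      map_one' := by
        ext x
        exact h1 x
      map_mul' := by
        intro g h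
        ext x
        exact hm g h x }
  have hρ : ∀ g (x : TT), ((ρ g x : TT) : E) = act g x := fun g x => rfl
  have main := ALG (L := L) (T := TT) (Γ := G) hL ρ (by
      rintro ⟨x, hx⟩
      have h2 := hfin x hx
      refine Set.Finite.of_finite_image (f := Subtype.val) (h2.subset ?_)
        Subtype.val_injective.injOn
      rintro _ ⟨_, ⟨g, rfl⟩, rfl⟩
      exact ⟨g, rfl⟩)
    (I := C) (fun D => D.1.comap TT.subtype)
    (fun D => ({p | ∃ g, ∀ i, act g (p.2 i) ∈ D.1} : Set ((h : ℕ) × (Fin h → E))))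
    (hCt.mono (by
      rintro _ ⟨D, rfl⟩
      exact ⟨D.1, D.2, rfl⟩)) (by
      intro D D' hDD' n d hd
      have h2 : (⟨n, fun k => (d k : E)⟩ : (h : ℕ) × (Fin h → E)) ∈
          ({p | ∃ g, ∀ i, act g (p.2 i) ∈ D.1} : Set ((h : ℕ) × (Fin h → E))) :=
        ⟨1, fun k => by
          show act 1 (d k : E) ∈ D.1
          rw [h1]
          exact hd k⟩
      have h3 : ({p | ∃ g, ∀ i, act g (p.2 i) ∈ D.1} : Set ((h : ℕ) × (Fin h → E))) =
          {p | ∃ g, ∀ i, act g (p.2 i) ∈ D'.1} := hDD'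
      rw [h3] at h2
      obtain ⟨g, hg⟩ := h2
      exact ⟨g, fun k => hg k⟩) (by
      intro m
      obtain ⟨m', hm', hC'⟩ := hex (fun j => (m j : E)) (fun j => (m j).2)
      have hmem : ∀ j, m' j ∈ TT := fun j => hC _ hC' (Submodule.subset_span ⟨j, rfl⟩)
      refine ⟨⟨_, hC'⟩, fun j => ⟨m' j, hmem j⟩, fun k => ?_, ?_⟩
      · obtain ⟨g, hg⟩ := hm' k
        exact ⟨g, fun j hj => Subtype.ext (hg j hj)⟩
      · show (Submodule.span Lᵐᵒᵖ (Set.range m')).comap TT.subtype = _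
        apply Submodule.map_injective_of_injective TT.injective_subtype
        rw [Submodule.map_comap_subtype, Submodule.map_span, ← Set.range_comp]
        show TT ⊓ Submodule.span Lᵐᵒᵖ (Set.range m') = Submodule.span Lᵐᵒᵖ (Set.range m')
        exact inf_eq_right.2 (hC _ hC'))
  intro D hD
  have h2 := main (D.comap TT.subtype)
  have h3 : (D.comap TT.subtype).map TT.subtype = D := by
    rw [Submodule.map_comap_subtype, inf_eq_right.2 hD]
  rw [← h3]
  exact h2.map _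

end Pool.Agent.VMF
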