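import Pool.Agent.MVC.St
import Pool.Agent.MVC.Api1

/-!
# Vaught's conjecture for all theories of modules: the descending chain condition (4.4), with the
countability hypothesis only for the level-one facts of one choice of the coding modules

The text follows `Pool/Agent/MVC/PIG.lean` and `Pool/Agent/MVC/DCC.lean`.
-/

set_option autoImplicit false
set_option linter.unusedSectionVars false
set_option linter.unusedVariables false

namespace Pool.Agent.VMF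

open Set Pool.Agent.MVC Pool.Agent.MVC.Ax

private theorem DCF_basic (U : Set (ℕ → ℕ)) (hU : IsOpen U) (s : ℕ → ℕ) (hs : s ∈ U) :
    ∃ m : ℕ, cyl s m ⊆ U := by
  obtain ⟨V, hV, hsV, hVU⟩ :=
    (PiNat.isTopologicalBasis_cylinders (fun _ : ℕ => ℕ)).exists_subset_of_mem_open hs hU
  obtain ⟨x, n, rfl⟩ := hV
  refine ⟨n, fun y hy => hVU ?_⟩
  rw [PiNat.mem_cylinder_iff] at hsV ⊢
  intro i hi
  have h1 : y i = s i := hy i hi
  exact h1.trans (hsV i hi)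

private theorem DCF_open (s : ℕ → ℕ) (m : ℕ) : IsOpen (cyl s m) :=
  PiNat.isOpen_cylinder (fun _ : ℕ => ℕ) s m

/-- a set which is not meagre is not meagre in each open subset of some cylinder -/
private theorem DCF_loc (E : Set (ℕ → ℕ)) (hE : ¬ IsMeagre E) : ∃ (s : ℕ → ℕ) (m : ℕ),
    ∀ U : Set (ℕ → ℕ), IsOpen U → U.Nonempty → U ⊆ cyl s m → ¬ IsMeagre (E ∩ U) := by
  classical
  let 𝒰 : Set (Set (ℕ → ℕ)) := {U | IsOpen U ∧ IsMeagre (E ∩ U)}
  obtain ⟨T, hTc, hTs, hTu⟩ := TopologicalSpace.isOpen_sUnion_countable 𝒰 fun U hU => hU.1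
  have hmE : IsMeagre (E ∩ ⋃₀ T) := by
    rw [sUnion_eq_biUnion, inter_iUnion₂]
    exact isMeagre_biUnion hTc fun U hU => (hTs hU).2
  have hG : IsOpen (⋃₀ 𝒰) := isOpen_sUnion fun U hU => hU.1
  have hnd : ¬ Dense (⋃₀ 𝒰) := by
    intro hd
    apply hE
    have h1 : IsMeagre (⋃₀ 𝒰)ᶜ := by
      have h2 : (⋃₀ 𝒰) ∈ residual (ℕ → ℕ) := residual_of_dense_open hG hd
      rw [IsMeagre, compl_compl]
      exact h2
    refine (hmE.union h1).mono fun x hx => ?_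
    by_cases h : x ∈ ⋃₀ 𝒰
    · exact Or.inl ⟨hx, by rw [hTu]; exact h⟩
    · exact Or.inr h
  rw [dense_iff_inter_open] at hnd
  push Not at hnd
  obtain ⟨V, hV, ⟨s, hs⟩, hVe⟩ := hnd
  obtain ⟨m, hm⟩ := DCF_basic V hV s hs
  refine ⟨s, m, fun U hU hUn hUs hUm => ?_⟩
  obtain ⟨x, hx⟩ := hUn
  have h1 : x ∈ V ∩ ⋃₀ 𝒰 := ⟨hm (hUs hx), mem_sUnion.mpr ⟨U, ⟨hU, hUm⟩, hx⟩⟩
  rw [hVe] at h1
  exact h1

/-- The pigeonhole principle: a function with countably many values is constant on a set which is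
not meagre in each nonempty open subset of some cylinder. -/
theorem pigeon {α : Type} (F : (ℕ → ℕ) → α) (hF : (range F).Countable) :
    ∃ (E : Set (ℕ → ℕ)) (s : ℕ → ℕ) (m : ℕ), (∀ σ ∈ E, ∀ σ' ∈ E, F σ = F σ') ∧
      ∀ U : Set (ℕ → ℕ), IsOpen U → U.Nonempty → U ⊆ cyl s m → ¬ IsMeagre (E ∩ U) := by
  have hex : ∃ τ, ¬ IsMeagre (F ⁻¹' {τ}) := by
    by_contra hcon
    push Not at hcon
    have h1 : IsMeagre (univ : Set (ℕ → ℕ)) := by
      refine (isMeagre_biUnion hF fun τ _ => hcon τ).mono fun σ _ => ?_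
      exact mem_iUnion₂.mpr ⟨F σ, mem_range_self σ, rfl⟩
    exact not_isMeagre_of_isOpen isOpen_univ ⟨fun _ => 0, trivial⟩ h1
  obtain ⟨τ, hτ⟩ := hex
  obtain ⟨s, m, hsm⟩ := DCF_loc _ hτ
  refine ⟨F ⁻¹' {τ}, s, m, fun σ hσ σ' hσ' => ?_, hsm⟩
  have e1 : F σ = τ := hσ
  have e2 : F σ' = τ := hσ'
  exact e1.trans e2.symm

/-- level-one formulas with given bound variables -/
theorem expl {R : Type} [Ring R] {ι κ : Type} [Finite κ]
    (𝒮 : Set (∀ (M : Type) [AddCommGroup M] [Module R M], (ι ⊕ κ → M) → Prop))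
    (h : ∀ F ∈ 𝒮, IsPP F) :
    ∃ (k : ℕ) (e : κ ≃ Fin k) (V : Set (PP R (ι ⊕ Fin k))),
      ∀ (M : Type) [AddCommGroup M] [Module R M] (x : ι → M) (t : κ → M),
        (∀ F ∈ 𝒮, F M (Sum.elim x t)) ↔ Re V M (Sum.elim x (t ∘ e.symm)) := by
  obtain ⟨n, ⟨e⟩⟩ := Finite.exists_equiv_fin κ
  refine ⟨n, e, {φ | ∃ F ∈ 𝒮, ∀ (M : Type) [AddCommGroup M] [Module R M] (x : ι ⊕ Fin n → M),
    F M (x ∘ Sum.map id e) ↔ Sat φ M x}, fun M _ _ x t => ?_⟩
  have h1 : Sum.elim x (t ∘ e.symm) ∘ Sum.map id e = Sum.elim x t := by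
    funext i
    cases i <;> simp
  constructor
  · rintro ht φ ⟨F, hF, hφ⟩
    rw [← hφ, h1]
    exact ht F hF
  · intro ht F hF
    obtain ⟨φ, hφ⟩ := (h F hF).comap (Sum.map (id : ι → ι) e)
    have h2 := ht φ ⟨F, hF, fun M _ _ x => hφ M x⟩
    have h3 : F M (Sum.elim x (t ∘ e.symm) ∘ Sum.map id e) := (hφ M _).mpr h2
    rwa [h1] at h3

/-- 4.4 (DCC) with the countability hypothesis for one choice of the coding modules and of sets of
level-one facts -/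
def St_DCF : Prop := ∀ (R : Type) [Ring R] [Countable R] (X : Ax R)
  (n : ℕ → ℕ) (S : ∀ k, Set (PP R (Fin (n k)))) (N : ℕ → Md R) (g : ∀ k, Fin (n k) → N k)
  (a : ∀ k, N k →ₗ[R] N (k + 1)) (m : ℕ) (T : Set (PP R (Fin m))) (Q : Md R) (q : Fin m → Q),
  (∀ k, X.Honest (S k) (N k) (g k)) → X.Honest T Q q →
  (∀ (c : ∀ k, ℕ → (N k →ₗ[R] Q)) (c0 : ∀ k, c k 0 = 0),
    ∃ (Λ : (⟨Q, N, a, c, c0⟩ : Sys R).Lim) (F : (ℕ → ℕ) → Set (L1 R (Fin m ⊕ Fin (n 0)))),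
      (range F).Countable ∧
      (∀ σ, F σ ⊆ tp1 (R := R) (Λ.L σ)
        (Sum.elim (fun i => Λ.inM σ (q i)) (fun i => Λ.inY σ 0 (g 0 i)))) ∧
      ∀ (σ : ℕ → ℕ) (k : ℕ) (V : Set (PP R ((Fin m ⊕ Fin (n 0)) ⊕ Fin k))) (t : Fin k → Λ.L σ),
        (∀ i, (∃ u : Q, t i = Λ.inM σ u) ∨ ∃ (j : ℕ) (i' : Fin (n j)), t i = Λ.inY σ j (g j i')) →
        Re V (Λ.L σ) (Sum.elim (Sum.elim (fun i => Λ.inM σ (q i))
          (fun i => Λ.inY σ 0 (g 0 i))) t) →
        (⟨k, V⟩ : L1 R (Fin m ⊕ Fin (n 0))) ∈ F σ) →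
  ∃ j₀, ∀ j ≥ j₀, ∀ c : N j →ₗ[R] Q, ∃ c' : N (j + 1) →ₗ[R] Q,
    X.Eqv (c ∘ₗ cmp a j) (c' ∘ₗ cmp a (j + 1))

section

variable {R : Type} [Ring R]

private theorem DCF_enum {N Q : Md R} [Countable Q] {k : ℕ} (y : Fin k → N) :
    ∃ c : ℕ → (N →ₗ[R] Q), c 0 = 0 ∧ ∀ f : N →ₗ[R] Q, ∃ e, ∀ i, c e (y i) = f (y i) := by
  classical
  obtain ⟨v, hv⟩ := exists_surjective_nat (Fin k → Q)
  refine ⟨fun e => Nat.casesOn e 0 fun e => if h : ∃ f : N →ₗ[R] Q, ∀ i, f (y i) = v e i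
    then h.choose else 0, rfl, fun f => ?_⟩
  obtain ⟨e, he⟩ := hv fun i => f (y i)
  have h : ∃ f : N →ₗ[R] Q, ∀ i, f (y i) = v e i := ⟨f, fun i => by rw [he]⟩
  refine ⟨e + 1, fun i => ?_⟩
  show (if h : ∃ f : N →ₗ[R] Q, ∀ i, f (y i) = v e i then h.choose else 0) (y i) = f (y i)
  rw [dif_pos h, h.choose_spec i, he]

end

/-- DCC, restated. -/
theorem thm_DCF (h2 : St_MSG) (h3 : St_BPL) (h6 : St_NUP) (h7 : St_EXT) : St_DCF := by
  classical
  intro R _ _ X n S N g a m T Q q hN hQ hyp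
  have hQc : Countable Q := hQ.ctbl
  have hNc : ∀ k, Countable (N k) := fun k => (hN k).ctbl
  choose c c0 hc using fun k => DCF_enum (R := R) (N := N k) (Q := Q)
    (fun i : Fin (n 0) => cmp a k (g 0 i))
  obtain ⟨Λ, F, hF1, hF2, hF3⟩ := hyp c c0
  let D : Sys R := ⟨Q, N, a, c, c0⟩
  obtain ⟨E, s, m', hE1, hE2⟩ := pigeon F hF1
  obtain ⟨hM1, hM2, hM3, hM4⟩ := h2 R D Λ
  refine ⟨m', fun j hj f => ?_⟩
  obtain ⟨e, he⟩ := hc j f
  -- the three cylinders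
  let sq : ℕ → ℕ → ℕ := fun l i => if i < m' then s i else if i = j then l else 0
  have hsq1 : ∀ l, cyl (sq l) (j + 1) ⊆ cyl s m' := by
    intro l σ hσ i hi
    rw [hσ i (by omega)]
    show (if i < m' then s i else if i = j then l else 0) = s i
    rw [if_pos hi]
  have hsq2 : ∀ l, ¬ IsMeagre (E ∩ cyl (sq l) (j + 1)) := fun l =>
    hE2 _ (DCF_open _ _) ⟨sq l, fun i _ => rfl⟩ (hsq1 l)
  have hsq3 : ∀ l, sq l j = l := by
    intro l
    show (if j < m' then s j else if j = j then l else 0) = l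
    rw [if_neg (by omega), if_pos rfl]
  -- the value of z_j
  let h : N 0 →ₗ[R] Q := D.z (sq 0) j
  have hz : ∀ l, ∀ σ ∈ cyl (sq l) (j + 1), D.z σ j = h := by
    intro l σ hσ
    refine hM2 σ (sq 0) j fun i hi => ?_
    rw [hσ i (by omega)]
    show (if i < m' then s i else if i = j then l else 0) =
      (if i < m' then s i else if i = j then 0 else 0)
    rw [if_neg (show ¬ i = j by omega), if_neg (show ¬ i = j by omega)]
  have hzs : ∀ l, ∀ σ ∈ cyl (sq l) (j + 1), ∀ i, Λ.inY σ 0 (g 0 i) =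
      Λ.inM σ (h (g 0 i)) + Λ.inM σ (c j l (cmp a j (g 0 i))) +
        Λ.inY σ (j + 1) (cmp a (j + 1) (g 0 i)) := by
    intro l σ hσ i
    rw [hM1 σ (j + 1) (g 0 i)]
    have h8 : D.z σ (j + 1) = D.z σ j + D.c j (σ j) ∘ₗ cmp D.a j := rfl
    have h9 : σ j = l := by rw [hσ j (by omega), hsq3]
    rw [h8, hz l σ hσ, h9, LinearMap.add_apply, map_add]
    rfl
  -- the formula θ
  obtain ⟨θ, hθ1, hθ2⟩ := hQ.gen (n 0) (fun i => h (g 0 i))
  have hθ0 : ∀ ψ ∈ S 0, X.Le (zer θ) ψ := by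
    intro ψ hψ M _ _ hM y hy
    rw [sat_zer] at hy
    have h8 : Sat ψ Q (h ∘ g 0) := ((hN 0).sat ψ hψ).map h
    have h9 : Sat (ren Sum.inr ψ) Q (Sum.elim q fun i => h (g 0 i)) := by
      rw [sat_ren]
      exact h8
    obtain ⟨t, ht, h10⟩ := hθ2 _ h9
    have h11 := h10 M hM 0 y (fun φ _ => Sat.zero φ) hy
    rw [sat_ren] at h11
    exact h11
  -- the level-one group D
  obtain ⟨θ', hθ'1, hθ'2⟩ := (hN (j + 1)).gen (n 0) (fun i => cmp a (j + 1) (g 0 i))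
  have hD0 : IsL0 (R := R) (ι := Fin (n 0)) (fun M _ _ x => ∃ t : Fin (n (j + 1)) → M,
      Re (S (j + 1)) M t ∧ Sat θ' M (Sum.elim t x)) := by
    have h8 : IsL0 (R := R) (ι := Fin (n 0) ⊕ Fin (n (j + 1)))
        (fun M _ _ z => Re (S (j + 1)) M (z ∘ Sum.inr)) := (isL0_re (S (j + 1))).comap Sum.inr
    have h9 : IsL0 (R := R) (ι := Fin (n 0) ⊕ Fin (n (j + 1)))
        (fun M _ _ z => Sat θ' M (z ∘ Sum.elim Sum.inr Sum.inl)) :=
      ((isPP_sat θ').comap (Sum.elim Sum.inr Sum.inl)).isL0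
    refine (h8.and h9).ex.congr fun M _ _ x => exists_congr fun t => ?_
    refine and_congr Iff.rfl (iff_of_eq ?_)
    congr 1
    funext i
    cases i <;> rfl
  obtain ⟨V, hV⟩ := hD0
  obtain ⟨kA, eA, VA, hVA⟩ := expl (R := R) (ι := Fin m ⊕ Fin (n 0))
    (κ := Fin (n 0) ⊕ Fin (n (j + 1)))
    (({fun (M : Type) [AddCommGroup M] [Module R M] z =>
        Sat θ M (z ∘ Sum.elim (fun i => Sum.inl (Sum.inl i)) (fun i => Sum.inr (Sum.inl i))),
      fun (M : Type) [AddCommGroup M] [Module R M] z => Sat θ' M (Sum.elim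
        (fun i => z (Sum.inr (Sum.inr i)))
        (fun i => z (Sum.inl (Sum.inr i)) - z (Sum.inr (Sum.inl i))))} :
        Set (∀ (M : Type) [AddCommGroup M] [Module R M],
          ((Fin m ⊕ Fin (n 0)) ⊕ (Fin (n 0) ⊕ Fin (n (j + 1))) → M) → Prop)) ∪
      {F | ∃ ψ ∈ S (j + 1), F = fun (M : Type) [AddCommGroup M] [Module R M] z =>
        Sat ψ M (fun i => z (Sum.inr (Sum.inr i)))}) (by
      rintro F ((rfl | rfl) | ⟨ψ, -, rfl⟩)
      · exact (isPP_sat θ).comap _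
      · refine ((isPP_sat θ').subst (ι := (Fin m ⊕ Fin (n 0)) ⊕ (Fin (n 0) ⊕ Fin (n (j + 1))))
          (Sum.elim (fun i => Finsupp.single (Sum.inr (Sum.inr i)) (1 : R))
            (fun i => Finsupp.single (Sum.inl (Sum.inr i)) (1 : R) -
              Finsupp.single (Sum.inr (Sum.inl i)) 1))).congr (fun M _ _ x => ?_)
        refine iff_of_eq ?_
        congr 1
        funext i
        cases i <;> simp [map_sub]
      · exact (isPP_sat ψ).comap (fun i => Sum.inr (Sum.inr i)))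
  let A : L1 R (Fin m ⊕ Fin (n 0)) := ⟨kA, VA⟩
  have hA1 : ∀ (M : Type) [AddCommGroup M] [Module R M] (x : Fin m ⊕ Fin (n 0) → M)
      (w : Fin (n 0) → M) (t : Fin (n (j + 1)) → M),
      (Sat θ M (Sum.elim (x ∘ Sum.inl) w) ∧ Re (S (j + 1)) M t ∧
        Sat θ' M (Sum.elim t (fun i => x (Sum.inr i) - w i))) ↔
      Re VA M (Sum.elim x (Sum.elim w t ∘ eA.symm)) := by
    intro M _ _ x w t
    rw [← hVA]
    have e1 : Sum.elim x (Sum.elim w t) ∘ Sum.elim (fun i => Sum.inl (Sum.inl i))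
        (fun i => Sum.inr (Sum.inl i)) = Sum.elim (x ∘ Sum.inl) w := by
      funext i
      cases i <;> rfl
    constructor
    · rintro ⟨h8, h9, h10⟩ F ((rfl | rfl) | ⟨ψ, hψ, rfl⟩)
      · show Sat θ M (Sum.elim x (Sum.elim w t) ∘ _)
        rw [e1]
        exact h8
      · exact h10
      · exact h9 ψ hψ
    · intro h8
      refine ⟨?_, fun ψ hψ => ?_, ?_⟩
      · have h9 := h8 _ (Or.inl (Or.inl rfl))
        rw [← e1]
        exact h9
      · exact h8 _ (Or.inr ⟨ψ, hψ, rfl⟩)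
      · exact h8 _ (Or.inl (Or.inr rfl))
  have hA : ∀ (M : Type) [AddCommGroup M] [Module R M] (x : Fin m ⊕ Fin (n 0) → M),
      (∃ w : Fin (n 0) → M, Sat θ M (Sum.elim (x ∘ Sum.inl) w) ∧
        Sat1 V M (fun i => x (Sum.inr i) - w i)) ↔ Sat1 A M x := by
    intro M _ _ x
    constructor
    · rintro ⟨w, hw1, hw2⟩
      rw [← hV] at hw2
      obtain ⟨t, ht1, ht2⟩ := hw2
      exact ⟨_, (hA1 M x w t).1 ⟨hw1, ht1, ht2⟩⟩
    · rintro ⟨t, ht⟩
      have e2 : t = Sum.elim (t ∘ eA ∘ Sum.inl) (t ∘ eA ∘ Sum.inr) ∘ eA.symm := by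
        funext i
        obtain ⟨i', rfl⟩ := eA.surjective i
        simp only [Function.comp_apply, Equiv.symm_apply_apply]
        cases i' <;> rfl
      change Re VA M (Sum.elim x t) at ht
      rw [e2] at ht
      obtain ⟨h8, h9, h10⟩ := (hA1 M x _ _).2 ht
      exact ⟨_, h8, by rw [← hV]; exact ⟨_, h9, h10⟩⟩
  have hG0 : IsL0 (R := R) (ι := Fin (n 0)) (fun M _ _ x => ∃ w : Fin (n 0) → M,
      Sat θ M (Sum.elim 0 w) ∧ Sat1 V M (x - w)) := by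
    have h8 : IsL0 (R := R) (ι := Fin (n 0)) (fun M _ _ w => Sat θ M (Sum.elim 0 w)) :=
      (isPP_sat (zer θ)).isL0.congr fun M _ _ w => sat_zer θ w
    exact h8.sum (isL0_sat1 V)
  obtain ⟨G, hG⟩ := hG0
  -- the group D contains the images of y_{j+1}
  have hVY : ∀ σ, Sat1 V (Λ.L σ) (fun i => Λ.inY σ (j + 1) (cmp a (j + 1) (g 0 i))) := by
    intro σ
    rw [← hV]
    refine ⟨Λ.inY σ (j + 1) ∘ g (j + 1), ((hN (j + 1)).sat).map (Λ.inY σ (j + 1)), ?_⟩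
    have h8 := hθ'1.map (Λ.inY σ (j + 1))
    rw [Sum.comp_elim] at h8
    exact h8
  -- the formula A holds on E
  have hE3 : ∀ σ ∈ E, Sat1 A (Λ.L σ)
      (Sum.elim (fun i => Λ.inM σ (q i)) (fun i => Λ.inY σ 0 (g 0 i))) := by
    obtain ⟨σ₀, hσ₀E, hσ₀⟩ : (E ∩ cyl (sq 0) (j + 1)).Nonempty := by
      rw [Set.nonempty_iff_ne_empty]
      intro h0
      exact hsq2 0 (by rw [h0]; exact IsMeagre.empty)
    have h8 : A ∈ F σ₀ := by
      refine hF3 σ₀ kA VA (Sum.elim (fun i => Λ.inM σ₀ (h (g 0 i)))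
        (fun i => Λ.inY σ₀ (j + 1) (g (j + 1) i)) ∘ eA.symm) ?_ ((hA1 _ _ _ _).1 ⟨?_, ?_, ?_⟩)
      · intro i
        rcases hi : eA.symm i with i' | i'
        · left
          refine ⟨h (g 0 i'), ?_⟩
          simp only [Function.comp_apply, hi, Sum.elim_inl]
        · right
          refine ⟨j + 1, i', ?_⟩
          simp only [Function.comp_apply, hi, Sum.elim_inr]
      · have h9 := hθ1.map (Λ.inM σ₀)
        rw [Sum.comp_elim] at h9
        exact h9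
      · exact ((hN (j + 1)).sat).map (Λ.inY σ₀ (j + 1))
      · have h9 : (fun i => (Sum.elim (fun i => Λ.inM σ₀ (q i))
            (fun i => Λ.inY σ₀ 0 (g 0 i)) : Fin m ⊕ Fin (n 0) → Λ.L σ₀) (Sum.inr i) -
              Λ.inM σ₀ (h (g 0 i))) =
            fun i => Λ.inY σ₀ (j + 1) (cmp a (j + 1) (g 0 i)) := by
          funext i
          rw [Sum.elim_inr, hzs 0 σ₀ hσ₀ i, c0, LinearMap.zero_apply, map_zero, add_zero,
            add_sub_cancel_left]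
        rw [h9]
        have h10 := hθ'1.map (Λ.inY σ₀ (j + 1))
        rw [Sum.comp_elim] at h10
        exact h10
    intro σ hσ
    rw [hE1 σ₀ hσ₀E σ hσ] at h8
    exact hF2 σ h8
  -- the formula G holds on E for the sequences with the value e at j
  have hE4 : ∀ σ ∈ E ∩ cyl (sq e) (j + 1), Sat1 G (Λ.L σ)
      (fun i => Λ.inM σ (c j e (cmp a j (g 0 i)))) := by
    rintro σ ⟨hσE, hσ⟩
    have h8 := hE3 σ hσE
    rw [← hA] at h8
    obtain ⟨w, hw1, hw2⟩ := h8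
    rw [← hG]
    refine ⟨w - fun i => Λ.inM σ (h (g 0 i)), ?_, ?_⟩
    · have h9 := hθ1.map (Λ.inM σ)
      rw [Sum.comp_elim] at h9
      have h10 := hw1.sub h9
      rw [← elim_sub] at h10
      have h11 : ((Sum.elim (fun i => Λ.inM σ (q i)) (fun i => Λ.inY σ 0 (g 0 i)) :
          Fin m ⊕ Fin (n 0) → Λ.L σ) ∘ Sum.inl) - (Λ.inM σ ∘ q) = 0 := by
        funext i
        show Λ.inM σ (q i) - Λ.inM σ (q i) = 0
        exact sub_self _
      rw [h11] at h10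
      exact h10
    · have h9 := hw2.sub (hVY σ)
      have h10 : ((fun i => Λ.inM σ (c j e (cmp a j (g 0 i)))) -
          (w - fun i => Λ.inM σ (h (g 0 i)))) =
          ((fun i => (Sum.elim (fun i => Λ.inM σ (q i)) (fun i => Λ.inY σ 0 (g 0 i)) :
          Fin m ⊕ Fin (n 0) → Λ.L σ) (Sum.inr i) - w i) -
            fun i => Λ.inY σ (j + 1) (cmp a (j + 1) (g 0 i))) := by
        funext i
        simp only [Pi.sub_apply, Sum.elim_inr]
        rw [hzs e σ hσ i]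
        abel
      rw [h10]
      exact h9
  -- transfer to Q
  have hQG : Sat1 G Q (fun i => c j e (cmp a j (g 0 i))) := by
    refine h3 R D Λ hQc hNc (Fin (n 0)) G (fun i => c j e (cmp a j (g 0 i))) fun h0 => ?_
    exact hsq2 e (IsMeagre.mono hE4 h0)
  rw [← hG] at hQG
  obtain ⟨u, hu1, hu2⟩ := hQG
  rw [← hV] at hu2
  obtain ⟨t, ht1, ht2⟩ := hu2
  obtain ⟨f', hf'1, hf'2⟩ := h7 R X (Fin (n (j + 1))) (S (j + 1)) (N (j + 1)) Q (g (j + 1)) t
    (n 0) (fun i => cmp a (j + 1) (g 0 i)) _ θ' (hN (j + 1)) ⟨hθ'1, hθ'2⟩ hQ.mem ht1 ht2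
  refine ⟨f', ?_⟩
  refine h6 R X (Fin (n 0)) (S 0) (N 0) Q (g 0) _ (hN 0) ⟨zer θ, hθ0, ?_⟩
  rw [sat_zer]
  have h8 : ((f ∘ₗ cmp a j - f' ∘ₗ cmp a (j + 1)) ∘ g 0 : Fin (n 0) → Q) = u := by
    funext i
    have h9 := hf'2 i
    show f (cmp a j (g 0 i)) - f' (cmp a (j + 1) (g 0 i)) = u i
    rw [h9, ← he i]
    show _ - (_ - u i) = u i
    exact sub_sub_cancel _ _
  rw [h8]
  exact hu1

end Pool.Agent.VMF
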