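import Pool.Agent.VMF.H31_St

/-!
# Vaught's conjecture for modules: ADJ, adjoining an independent element to an independent family
-/

set_option autoImplicit false
set_option linter.unusedVariables false
set_option linter.unusedSectionVars false

namespace Pool.Agent.VMF.H31

open Set Pool.Agent.MVC Kl

section

variable {R : Type} [Ring R] {X : Kl R}

/-- finite conjunctions of level-one relations -/
private theorem ADJ_all {ι : Type} : ∀ (m : ℕ)
    (F : Fin m → ∀ (M : Type) [AddCommGroup M] [Module R M], (ι → M) → Prop),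
    (∀ i, IsL0 (F i)) → IsL0 (R := R) (fun M _ _ (x : ι → M) => ∀ i, F i M x)
  | 0, F, h => isL0_true.congr fun M _ _ x => ⟨fun _ i => i.elim0, fun _ => trivial⟩
  | m + 1, F, h => ((h 0).and (ADJ_all m (fun i => F i.succ) fun i => h i.succ)).congr
      fun M _ _ x => ⟨fun h' i => Fin.cases h'.1 h'.2 i, fun h' => ⟨h' 0, fun i => h' i.succ⟩⟩

/-- differences of variables -/
private theorem ADJ_sub {τ κ : Type} (V : L1 R κ) (f g : κ → τ) :
    IsL0 (R := R) (fun M _ _ (x : τ → M) => Sat1 V M (fun k => x (f k) - x (g k))) := by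
  refine ((isL0_sat1 V).subst (fun k => Finsupp.single (f k) (1 : R) -
      Finsupp.single (g k) 1)).congr (fun M _ _ x => ?_)
  simp [map_sub]

/-- the relation `{(u, w) : u ∈ H ∧ ∃ ū, (ū, u) ∈ K + ∏ ψ' i × ψ ∧ ∀ i, (ū i, w) ∈ σ i}` -/
private theorem ADJ_L {ι κ : Type} [Finite ι] (m : ℕ) (H ψ : L1 R ι) (ψ' : Fin m → L1 R ι)
    (σ : Fin m → L1 R (ι ⊕ κ)) (K : L1 R (Fin (m + 1) × ι)) :
    IsL0 (R := R) (fun N _ _ (z : ι ⊕ κ → N) => ∃ g : (Fin m × ι) ⊕ (Fin (m + 1) × ι) → N,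
      Sat1 H N (fun j => z (Sum.inl j)) ∧ Sat1 K N (fun a => g (Sum.inr a)) ∧
      Sat1 ψ N (fun j => z (Sum.inl j) - g (Sum.inr (Fin.last m, j))) ∧
      (∀ i : Fin m, Sat1 (ψ' i) N (fun j => g (Sum.inl (i, j)) - g (Sum.inr (i.castSucc, j)))) ∧
      ∀ i : Fin m, Sat1 (σ i) N
        (Sum.elim (fun j => g (Sum.inl (i, j))) (fun k => z (Sum.inr k)))) := by
  have h1 : IsL0 (R := R) (fun N _ _ (v : (ι ⊕ κ) ⊕ ((Fin m × ι) ⊕ (Fin (m + 1) × ι)) → N) =>
      Sat1 H N (fun j => v (Sum.inl (Sum.inl j)))) :=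
    (isL0_sat1 H).comap fun j => Sum.inl (Sum.inl j)
  have h2 : IsL0 (R := R) (fun N _ _ (v : (ι ⊕ κ) ⊕ ((Fin m × ι) ⊕ (Fin (m + 1) × ι)) → N) =>
      Sat1 K N (fun a => v (Sum.inr (Sum.inr a)))) :=
    (isL0_sat1 K).comap fun a => Sum.inr (Sum.inr a)
  have h3 : IsL0 (R := R) (fun N _ _ (v : (ι ⊕ κ) ⊕ ((Fin m × ι) ⊕ (Fin (m + 1) × ι)) → N) =>
      Sat1 ψ N (fun j => v (Sum.inl (Sum.inl j)) - v (Sum.inr (Sum.inr (Fin.last m, j))))) :=
    ADJ_sub ψ _ _
  have h4 : IsL0 (R := R) (fun N _ _ (v : (ι ⊕ κ) ⊕ ((Fin m × ι) ⊕ (Fin (m + 1) × ι)) → N) =>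
      ∀ i : Fin m, Sat1 (ψ' i) N
        (fun j => v (Sum.inr (Sum.inl (i, j))) - v (Sum.inr (Sum.inr (i.castSucc, j))))) :=
    ADJ_all m _ fun i => ADJ_sub (ψ' i) _ _
  have h5 : IsL0 (R := R) (fun N _ _ (v : (ι ⊕ κ) ⊕ ((Fin m × ι) ⊕ (Fin (m + 1) × ι)) → N) =>
      ∀ i : Fin m, Sat1 (σ i) N
        (Sum.elim (fun j => v (Sum.inr (Sum.inl (i, j)))) (fun k => v (Sum.inl (Sum.inr k))))) := by
    refine ADJ_all m _ fun i => ?_
    refine ((isL0_sat1 (σ i)).comap (Sum.elim (fun j => Sum.inr (Sum.inl (i, j)))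
      (fun k => Sum.inl (Sum.inr k)))).congr fun N _ _ v => ?_
    refine iff_of_eq ?_
    congr 1
    funext a
    cases a <;> rfl
  exact (h1.and (h2.and (h3.and (h4.and h5)))).ex.congr fun N _ _ z => Iff.rfl

/-- the relation `{u : (u, 0) ∈ σ}` -/
private theorem ADJ_zero {ι κ : Type} [Finite ι] [Finite κ] (σ : L1 R (ι ⊕ κ)) :
    IsL0 (R := R) (fun N _ _ (u : ι → N) => Sat1 σ N (Sum.elim u 0)) := by
  refine ((isL0_sat1 σ).subst (Sum.elim (fun j => Finsupp.single j (1 : R))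
    (fun _ => 0))).congr fun N _ _ u => ?_
  refine iff_of_eq ?_
  congr 1
  funext a
  cases a <;> simp

/-- the relation `{ū : ∃ w ∈ Hc, ∀ i, (ū i, w) ∈ σ i}` -/
private theorem ADJ_Im {ι κ : Type} [Finite κ] (m : ℕ) (Hc : L1 R κ)
    (σ : Fin m → L1 R (ι ⊕ κ)) :
    IsL0 (R := R) (fun N _ _ (z : Fin m × ι → N) => ∃ w : κ → N,
      Sat1 Hc N w ∧ ∀ i : Fin m, Sat1 (σ i) N (Sum.elim (fun j => z (i, j)) w)) := by
  have h1 : IsL0 (R := R) (fun N _ _ (v : (Fin m × ι) ⊕ κ → N) =>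
      Sat1 Hc N (fun k => v (Sum.inr k))) := (isL0_sat1 Hc).comap fun k => Sum.inr k
  have h2 : IsL0 (R := R) (fun N _ _ (v : (Fin m × ι) ⊕ κ → N) =>
      ∀ i : Fin m, Sat1 (σ i) N
        (Sum.elim (fun j => v (Sum.inl (i, j))) (fun k => v (Sum.inr k)))) := by
    refine ADJ_all m _ fun i => ?_
    refine ((isL0_sat1 (σ i)).comap (Sum.elim (fun j => Sum.inl (i, j))
      (fun k => Sum.inr k))).congr fun N _ _ v => ?_
    refine iff_of_eq ?_
    congr 1
    funext a
    cases a <;> rfl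
  exact (h1.and h2).ex.congr fun N _ _ z => Iff.rfl

end

/-- ADJ. -/
theorem thm_ADJ {R : Type} [Ring R] (X : Kl R) : StADJ X := by
  intro hDEP hSUP ι κ _ _ H ψ Hc θ hD M _ _ hMc hM c hc m x hx hxd y hy hyI
  have hex : ∀ i : Fin m, ∃ σ : L1 R (ι ⊕ κ),
      (∀ (N : Type) [AddCommGroup N] [Module R N], Countable N → X.In N →
        ∀ (u : ι → N) (w : κ → N), (Sat1 σ N (Sum.elim u w) → Sat1 H N u ∧ Sat1 Hc N w) ∧
          (Sat1 ψ N u → Sat1 θ N w → Sat1 σ N (Sum.elim u w)) ∧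
          (Sat1 Hc N w → ∃ u' : ι → N, Sat1 σ N (Sum.elim u' w))) ∧
      Sat1 σ M (Sum.elim (x i) c) ∧
      ¬ ∀ (N : Type) [AddCommGroup N] [Module R N], Countable N → X.In N →
        ∀ u : ι → N, Sat1 H N u → Sat1 σ N (Sum.elim u 0) := fun i =>
    hDEP ι κ H ψ Hc θ hD M hMc hM (x i) c hc (hx.1 i) (hxd i)
  choose σ hσ1 hσ2 hσ3 using hex
  -- the formulas `ψ' i`
  obtain ⟨ψ', hψ'⟩ : ∃ ψ' : Fin m → L1 R ι, ∀ (i : Fin m) (N : Type) [AddCommGroup N]
      [Module R N] (u : ι → N), Sat1 (ψ' i) N u ↔ Sat1 (σ i) N (Sum.elim u 0) :=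
    ⟨fun i => (ADJ_zero (σ i)).fm, fun i N _ _ u => (ADJ_zero (σ i)).fm_iff⟩
  -- every member of `H ^ m` is in the image
  have hIm : ∀ (N : Type) [AddCommGroup N] [Module R N], Countable N → X.In N →
      ∀ u : Fin m → ι → N, (∀ i, Sat1 H N (u i)) →
        ∃ w : κ → N, Sat1 Hc N w ∧ ∀ i, Sat1 (σ i) N (Sum.elim (u i) w) := by
    intro N _ _ hNc hN u hu
    obtain ⟨p, hp, hup⟩ := hx.2 (ADJ_Im m Hc σ).fm
      ((ADJ_Im m Hc σ).fm_iff.mpr ⟨c, hc.1, fun i => hσ2 i⟩) N hNc hN u hu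
    obtain ⟨w, hw, hw'⟩ := (ADJ_Im m Hc σ).fm_iff.mp hup
    refine ⟨w, hw, fun i => ?_⟩
    have h1 := (hσ1 i N hNc hN (p i) 0).2.1 (hp i) (Sat1.zero θ)
    have h2 := (hw' i).add h1
    rw [← elim_add, add_zero] at h2
    have h3 : (fun j => u i j - p i j) + p i = u i := by
      funext j
      simp
    rw [h3] at h2
    exact h2
  refine ⟨fun i => ?_, fun K hK => ?_⟩
  · refine Fin.lastCases ?_ (fun j => ?_) i
    · rw [Fin.snoc_last]
      exact hy
    · rw [Fin.snoc_castSucc]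
      exact hx.1 j
  · -- the family `ψ' 0, .., ψ' (m-1), ψ`
    refine hSUP ι ψ H hD.le hD.hol (m + 1) (Fin.snoc (α := fun _ => L1 R ι) ψ' ψ)
      (fun i => ?_) (fun i => ?_) (fun i => ?_) K ?_
    · refine Fin.lastCases ?_ (fun j => ?_) i
      · rw [Fin.snoc_last]
        exact Kl.Le1.refl ψ
      · rw [Fin.snoc_castSucc]
        intro N _ _ hNc hN u hu
        exact (hψ' j N u).mpr ((hσ1 j N hNc hN u 0).2.1 hu (Sat1.zero θ))
    · refine Fin.lastCases ?_ (fun j => ?_) i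
      · rw [Fin.snoc_last]
        exact hD.le
      · rw [Fin.snoc_castSucc]
        intro N _ _ hNc hN u hu
        exact ((hσ1 j N hNc hN u 0).1 ((hψ' j N u).mp hu)).1
    · refine Fin.lastCases ?_ (fun j => ?_) i
      · rw [Fin.snoc_last]
        exact hD.lt
      · rw [Fin.snoc_castSucc]
        intro h
        refine hσ3 j ?_
        intro N _ _ hNc hN u hu
        exact (hψ' j N u).mp (h N hNc hN u hu)
    · intro N _ _ hNc hN u hu
      -- the level-one relation `L'`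
      have hL := ADJ_L m H ψ ψ' σ K
      have hmem : Sat1 hL.fm M (Sum.elim y c) := by
        refine hL.fm_iff.mpr ⟨Sum.elim (fun a => x a.1 a.2)
          (fun a => Fin.snoc (α := fun _ => ι → M) x y a.1 a.2), hy, hK, ?_, fun i => ?_,
          fun i => hσ2 i⟩
        · have h1 : (fun j => (Sum.elim y c : ι ⊕ κ → M) (Sum.inl j) -
              (Sum.elim (fun a : Fin m × ι => x a.1 a.2)
                (fun a : Fin (m + 1) × ι => Fin.snoc (α := fun _ => ι → M) x y a.1 a.2))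
                (Sum.inr (Fin.last m, j))) = 0 := by
            funext j
            simp
          rw [h1]
          exact Sat1.zero ψ
        · have h1 : (fun j => (Sum.elim (fun a : Fin m × ι => x a.1 a.2)
                (fun a : Fin (m + 1) × ι => Fin.snoc (α := fun _ => ι → M) x y a.1 a.2))
                (Sum.inl (i, j)) - (Sum.elim (fun a : Fin m × ι => x a.1 a.2)
                (fun a : Fin (m + 1) × ι => Fin.snoc (α := fun _ => ι → M) x y a.1 a.2))
                (Sum.inr (i.castSucc, j))) = 0 := by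
            funext j
            simp
          rw [h1]
          exact Sat1.zero (ψ' i)
      obtain ⟨w, hw, hw'⟩ := hIm N hNc hN (fun i => u i.castSucc) (fun i => hu i.castSucc)
      obtain ⟨p, t, hp, ht, hpt⟩ := hyI hL.fm hmem N hNc hN (u (Fin.last m)) w
        (hu (Fin.last m)) hw
      -- `(p, t) ∈ L'`
      have hpt' : Sat1 hL.fm N (Sum.elim p t) := by
        refine hL.fm_iff.mpr ⟨0, hD.le N hNc hN p hp, Sat1.zero K, ?_, fun i => ?_, fun i => ?_⟩
        · have h1 : (fun j => (Sum.elim p t : ι ⊕ κ → N) (Sum.inl j) -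
              (0 : (Fin m × ι) ⊕ (Fin (m + 1) × ι) → N) (Sum.inr (Fin.last m, j))) = p := by
            funext j
            simp
          rw [h1]
          exact hp
        · have h1 : (fun j => (0 : (Fin m × ι) ⊕ (Fin (m + 1) × ι) → N) (Sum.inl (i, j)) -
              (0 : (Fin m × ι) ⊕ (Fin (m + 1) × ι) → N) (Sum.inr (i.castSucc, j))) = 0 := by
            funext j
            simp
          rw [h1]
          exact Sat1.zero (ψ' i)
        · exact (hσ1 i N hNc hN 0 t).2.1 (Sat1.zero ψ) ht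
      have hfull := hpt.add hpt'
      rw [← elim_add, sub_add_cancel, sub_add_cancel] at hfull
      obtain ⟨g, -, hgK, hgψ, hgψ', hgσ⟩ := hL.fm_iff.mp hfull
      refine ⟨fun i j => u i j - g (Sum.inr (i, j)), fun i => ?_, ?_⟩
      · refine Fin.lastCases ?_ (fun i => ?_) i
        · rw [Fin.snoc_last]
          exact hgψ
        · rw [Fin.snoc_castSucc]
          -- `u i - ū i ∈ ψ' i`
          have h1 : Sat1 (ψ' i) N (fun j => u i.castSucc j - g (Sum.inl (i, j))) := by
            rw [hψ']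
            have h2 := (hw' i).sub (hgσ i)
            rw [← elim_sub] at h2
            have h3 : w - (fun k => (Sum.elim (u (Fin.last m)) w : ι ⊕ κ → N) (Sum.inr k)) = 0 := by
              funext k
              simp
            rw [h3] at h2
            exact h2
          have h4 := h1.add (hgψ' i)
          have h5 : (fun j => u i.castSucc j - g (Sum.inl (i, j))) +
              (fun j => g (Sum.inl (i, j)) - g (Sum.inr (i.castSucc, j))) =
              fun j => u i.castSucc j - g (Sum.inr (i.castSucc, j)) := by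
            funext j
            simp
          rw [h5] at h4
          exact h4
      · have h1 : (fun a : Fin (m + 1) × ι => u a.1 a.2 - (u a.1 a.2 - g (Sum.inr (a.1, a.2)))) =
            fun a => g (Sum.inr a) := by
          funext a
          simp
        show Sat1 K N (fun a : Fin (m + 1) × ι =>
          u a.1 a.2 - (u a.1 a.2 - g (Sum.inr (a.1, a.2))))
        rw [h1]
        exact hgK

end Pool.Agent.VMF.H31
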