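import Pool.Agent.VMF.H31_St

/-!
# MVC: module CNT (helper87)
-/

set_option autoImplicit false

namespace Pool.Agent.VMF.H31

open Set Pool.Agent.MVC Kl

variable {R : Type} [Ring R] {X : Kl R}

theorem thm_CNT : StCNT X := by
  intro hT hGLD hGDM hDEP hSUP hBND hADJ hTRF ι κ _ _ H ψ Hc θ hD M _ _ hMc hM c c' hc hc' hx
  obtain ⟨x₀, hx₀, hx₀c⟩ := hx
  by_contra hcon
  have hno : ∀ x : ι → M, Sat1 H M x → ¬ IOv X H ψ Hc θ M x c' :=
    fun x h1 h2 => hcon ⟨x, h1, h2⟩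
  obtain ⟨n, hn⟩ := hBND hDEP ι κ H ψ Hc θ hD (hGDM hT hGLD κ Hc) M hMc hM c hc
  have key : ∀ m : ℕ, ∃ x : Fin m → ι → M, IFam X H ψ m M x ∧
      ∀ i, ¬ IOv X H ψ Hc θ M (x i) c := by
    intro m
    induction m with
    | zero =>
      refine ⟨fun i => i.elim0, ⟨fun i => i.elim0, ?_⟩, fun i => i.elim0⟩
      intro K _ N _ _ _ _ u _
      refine ⟨fun i => i.elim0, fun i => i.elim0, ?_⟩
      have e : (fun a : Fin 0 × ι => u a.1 a.2 - (fun i : Fin 0 => (i.elim0 : ι → N)) a.1 a.2) =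
          0 := by
        funext a
        exact a.1.elim0
      rw [e]
      exact Sat1.zero K
    | succ m ih =>
      obtain ⟨x, hxF, hxc⟩ := ih
      have h1 := hADJ hDEP hSUP ι κ H ψ Hc θ hD M hMc hM c hc m x hxF hxc x₀ hx₀ hx₀c
      exact hTRF hDEP hSUP ι κ H ψ Hc θ hD M hMc hM c c' hc hc' (m + 1) _ h1
        (fun i => hno _ (h1.1 i))
  obtain ⟨x, hx1, hx2⟩ := key (n + 1)
  exact absurd (hn (n + 1) x hx1 hx2) (by omega)

end Pool.Agent.VMF.H31
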