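import Pool.Agent.VMF.H31_St

/-!
# Back and forth: countable modules with the same exact level-one formulas are isomorphic
-/

set_option autoImplicit false
set_option linter.unusedVariables false

namespace Pool.Agent.VMF.H31

open Set Pool.Agent.MVC Kl

variable {R : Type} [Ring R] {X : Kl R}

private theorem exact_ren1 {ι κ : Type} (e : κ ≃ ι) (V : L1 R κ) {M : Type} [AddCommGroup M]
    [Module R M] (x : ι → M) : X.Exact (ren1 e V) M x ↔ X.Exact V M (x ∘ e) := by
  constructor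
  · rintro ⟨h1, h2⟩
    refine ⟨(sat1_ren1 e V x).mp h1, fun W hW N _ _ hc hN y hy => ?_⟩
    have h3 := h2 (ren1 e W) ((sat1_ren1 e W x).mpr hW) N hc hN (y ∘ e.symm)
    rw [sat1_ren1, sat1_ren1] at h3
    have h4 : (y ∘ e.symm) ∘ e = y := by
      funext i
      simp
    rw [h4] at h3
    exact h3 hy
  · rintro ⟨h1, h2⟩
    refine ⟨(sat1_ren1 e V x).mpr h1, fun W hW N _ _ hc hN y hy => ?_⟩
    have h5 : (x ∘ e) ∘ e.symm = x := by
      funext i
      simp
    have h3 := h2 (ren1 e.symm W) (by rw [sat1_ren1, h5]; exact hW) N hc hN (y ∘ e)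
      ((sat1_ren1 e V y).mp hy)
    rw [sat1_ren1] at h3
    have h4 : (y ∘ e) ∘ e.symm = y := by
      funext i
      simp
    rwa [h4] at h3

/-- exact tuples for the same formula -/
private def PI (X : Kl R) {ι M N : Type} [AddCommGroup M] [Module R M] [AddCommGroup N]
    [Module R N] (a : ι → M) (b : ι → N) : Prop :=
  ∃ D : L1 R ι, X.Exact D M a ∧ X.Exact D N b

private theorem PI.symm {ι M N : Type} [AddCommGroup M] [Module R M] [AddCommGroup N]
    [Module R N] {a : ι → M} {b : ι → N} (h : PI X a b) : PI X b a := by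
  obtain ⟨D, h1, h2⟩ := h
  exact ⟨D, h2, h1⟩

private theorem PI.l0 {ι M N : Type} [AddCommGroup M] [Module R M] [AddCommGroup N]
    [Module R N] {a : ι → M} {b : ι → N} (h : PI X a b) (hc : Countable N) (hN : X.In N)
    {F : ∀ (K : Type) [AddCommGroup K] [Module R K], (ι → K) → Prop} (hF : IsL0 F)
    (ha : F M a) : F N b := by
  obtain ⟨D, h1, h2⟩ := h
  exact hF.fm_iff.mp (h1.2 hF.fm (hF.fm_iff.mpr ha) N hc hN b h2.1)

private theorem forth (hU : UML X) (hH : HP X) {M N : Type} [AddCommGroup M] [Module R M]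
    [AddCommGroup N] [Module R N] (hMc : Countable M) (hM : X.In M) (hNc : Countable N)
    (hN : X.In N)
    (hex : ∀ (ι : Type) [Finite ι] (D : L1 R ι), (∃ x : ι → M, X.Exact D M x) →
      ∃ x : ι → N, X.Exact D N x)
    {ι : Type} [Finite ι] {a : ι → M} {b : ι → N} (h : PI X a b) (d : M) :
    ∃ e : N, PI X (Sum.elim a fun _ : Fin 1 => d) (Sum.elim b fun _ : Fin 1 => e) := by
  obtain ⟨D, h1, h2⟩ := h
  obtain ⟨E, hE⟩ := hU M hMc hM (ι ⊕ Fin 1) (Sum.elim a fun _ => d)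
  have hG : IsL0 (R := R) (fun K _ _ (x : ι → K) => ∃ y : Fin 1 → K, Sat1 E K (Sum.elim x y)) :=
    (isL0_sat1 E).ex
  have hG' : IsL0 (R := R) (fun K _ _ (x : ι ⊕ Fin 1 → K) => Sat1 D K (x ∘ Sum.inl)) :=
    (isL0_sat1 D).comap Sum.inl
  have hDE : ∀ (K : Type) [AddCommGroup K] [Module R K], Countable K → X.In K → ∀ x : ι → K,
      Sat1 D K x ↔ ∃ y : Fin 1 → K, Sat1 E K (Sum.elim x y) := by
    intro K _ _ hKc hK x
    constructor
    · intro hx
      exact hG.fm_iff.mp (h1.2 hG.fm (hG.fm_iff.mpr ⟨fun _ => d, hE.1⟩) K hKc hK x hx)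
    · rintro ⟨y, hy⟩
      have h3 := hG'.fm_iff.mp (hE.2 hG'.fm (hG'.fm_iff.mpr (by
        have : (Sum.elim a fun _ : Fin 1 => d) ∘ Sum.inl = a := rfl
        rw [this]
        exact h1.1)) K hKc hK (Sum.elim x y) hy)
      exact h3
  obtain ⟨z, hz⟩ := hex (ι ⊕ Fin 1) E ⟨_, hE⟩
  rw [← Sum.elim_comp_inl_inr z] at hz
  obtain ⟨e, he⟩ := hH N hNc hN ι (Fin 1) D E hDE b h2 _ _ hz
  refine ⟨e 0, E, hE, ?_⟩
  have : (fun _ : Fin 1 => e 0) = e := by
    funext i
    rw [Subsingleton.elim i 0]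
  rw [this]
  exact he

/-- the finite partial maps -/
private def Stt (X : Kl R) (M N : Type) [AddCommGroup M] [Module R M] [AddCommGroup N]
    [Module R N] (S : Set (M × N)) : Prop :=
  ∃ (ι : Type) (_ : Finite ι) (c : ι → M × N), range c = S ∧
    PI X (fun i => (c i).1) (fun i => (c i).2)

private theorem chain {A : Type} (le : A → A → Prop) (D : ℕ → A → Prop)
    (hD : ∀ n a, ∃ b, le a b ∧ D n b) (a₀ : A) :
    ∃ f : ℕ → A, (∀ n, le (f n) (f (n + 1))) ∧ ∀ n, D n (f (n + 1)) := by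
  choose g hg1 hg2 using hD
  exact ⟨fun n => Nat.rec a₀ (fun k a => g k a) n, fun n => hg1 _ _, fun n => hg2 _ _⟩

/-- Countable modules of the class with the same exact level-one formulas are isomorphic. -/
theorem thm_END : StEND X := by
  intro hU hH M _ _ hMc hM N _ _ hNc hN hex
  have hex1 : ∀ (ι : Type) [Finite ι] (D : L1 R ι), (∃ x : ι → M, X.Exact D M x) ↔
      ∃ x : ι → N, X.Exact D N x := by
    intro ι _ D
    obtain ⟨n, ⟨e⟩⟩ := Finite.exists_equiv_fin ι
    have h1 : ∀ (K : Type) [AddCommGroup K] [Module R K],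
        (∃ x : ι → K, X.Exact D K x) ↔ ∃ x : Fin n → K, X.Exact (ren1 e D) K x := by
      intro K _ _
      constructor
      · rintro ⟨x, hx⟩
        refine ⟨x ∘ e.symm, (exact_ren1 e D _).mpr ?_⟩
        have : (x ∘ e.symm) ∘ e = x := by
          funext i
          simp
        rw [this]
        exact hx
      · rintro ⟨x, hx⟩
        exact ⟨x ∘ e, (exact_ren1 e D _).mp hx⟩
    rw [h1, h1]
    exact hex n _
  -- the steps
  have stepM : ∀ (S : Set (M × N)), Stt X M N S → ∀ d : M, ∃ T, Stt X M N T ∧ S ⊆ T ∧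
      ∃ e, (d, e) ∈ T := by
    rintro S ⟨ι, hι, c, rfl, hc⟩ d
    obtain ⟨e, he⟩ := forth hU hH hMc hM hNc hN (fun κ _ D => (hex1 κ D).mp) hc d
    refine ⟨range (Sum.elim c fun _ : Fin 1 => (d, e)), ⟨ι ⊕ Fin 1, inferInstance, _, rfl, ?_⟩,
      ?_, e, ⟨Sum.inr 0, rfl⟩⟩
    · have h1 : (fun i => ((Sum.elim c (fun _ : Fin 1 => (d, e)) i) : M × N).1) =
          Sum.elim (fun i => (c i).1) fun _ => d := by
        funext i
        cases i <;> rfl
      have h2 : (fun i => ((Sum.elim c (fun _ : Fin 1 => (d, e)) i) : M × N).2) =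
          Sum.elim (fun i => (c i).2) fun _ => e := by
        funext i
        cases i <;> rfl
      rw [h1, h2]
      exact he
    · rintro _ ⟨i, rfl⟩
      exact ⟨Sum.inl i, rfl⟩
  have stepN : ∀ (S : Set (M × N)), Stt X M N S → ∀ e : N, ∃ T, Stt X M N T ∧ S ⊆ T ∧
      ∃ d, (d, e) ∈ T := by
    rintro S ⟨ι, hι, c, rfl, hc⟩ e
    obtain ⟨d, hd⟩ := forth hU hH hNc hN hMc hM (fun κ _ D => (hex1 κ D).mpr) hc.symm e
    refine ⟨range (Sum.elim c fun _ : Fin 1 => (d, e)), ⟨ι ⊕ Fin 1, inferInstance, _, rfl, ?_⟩,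
      ?_, d, ⟨Sum.inr 0, rfl⟩⟩
    · have h1 : (fun i => ((Sum.elim c (fun _ : Fin 1 => (d, e)) i) : M × N).1) =
          Sum.elim (fun i => (c i).1) fun _ => d := by
        funext i
        cases i <;> rfl
      have h2 : (fun i => ((Sum.elim c (fun _ : Fin 1 => (d, e)) i) : M × N).2) =
          Sum.elim (fun i => (c i).2) fun _ => e := by
        funext i
        cases i <;> rfl
      rw [h1, h2]
      exact hd.symm
    · rintro _ ⟨i, rfl⟩
      exact ⟨Sum.inl i, rfl⟩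
  obtain ⟨uM, huM⟩ := exists_surjective_nat M
  obtain ⟨uN, huN⟩ := exists_surjective_nat N
  have start : Stt X M N ∅ := by
    obtain ⟨D, hD⟩ := hU M hMc hM (Fin 0) Fin.elim0
    obtain ⟨x, hx⟩ := (hex1 (Fin 0) D).mp ⟨_, hD⟩
    refine ⟨Fin 0, inferInstance, Fin.elim0, by simp, D, ?_, ?_⟩
    · have h0 : (fun i : Fin 0 => ((Fin.elim0 i : M × N)).1) = Fin.elim0 :=
        Subsingleton.elim _ _
      rw [h0]
      exact hD
    · have h0 : (fun i : Fin 0 => ((Fin.elim0 i : M × N)).2) = x := Subsingleton.elim _ _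
      rw [h0]
      exact hx
  obtain ⟨f, hf1, hf2⟩ := chain (A := {S : Set (M × N) // Stt X M N S})
    (fun S T => S.1 ⊆ T.1)
    (fun n S => (∃ e, (uM n, e) ∈ S.1) ∧ ∃ d, (d, uN n) ∈ S.1) (by
      intro n S
      obtain ⟨T, hT, hST, e, he⟩ := stepM S.1 S.2 (uM n)
      obtain ⟨T', hT', hTT', d, hd⟩ := stepN T hT (uN n)
      exact ⟨⟨T', hT'⟩, hST.trans hTT', ⟨e, hTT' he⟩, ⟨d, hd⟩⟩) ⟨∅, start⟩
  have hmono : ∀ i j, i ≤ j → (f i).1 ⊆ (f j).1 := by
    intro i j hij
    induction hij with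
    | refl => exact subset_rfl
    | step _ ih => exact ih.trans (hf1 _)
  have totM : ∀ m : M, ∃ n k, (m, n) ∈ (f k).1 := by
    intro m
    obtain ⟨i, rfl⟩ := huM m
    obtain ⟨⟨e, he⟩, -⟩ := hf2 i
    exact ⟨e, i + 1, he⟩
  have totN : ∀ n : N, ∃ m k, (m, n) ∈ (f k).1 := by
    intro n
    obtain ⟨i, rfl⟩ := huN n
    obtain ⟨-, ⟨d, hd⟩⟩ := hf2 i
    exact ⟨d, i + 1, hd⟩
  have key : ∀ (p q r : M × N) (i j k : ℕ), p ∈ (f i).1 → q ∈ (f j).1 → r ∈ (f k).1 →
      ∀ s t : R, (s • p.1 + t • q.1 = r.1 ↔ s • p.2 + t • q.2 = r.2) := by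
    intro p q r i j k hp hq hr s t
    obtain ⟨l, hl1, hl2, hl3⟩ : ∃ l, i ≤ l ∧ j ≤ l ∧ k ≤ l :=
      ⟨i + j + k, by omega, by omega, by omega⟩
    have hp' := hmono i l hl1 hp
    have hq' := hmono j l hl2 hq
    have hr' := hmono k l hl3 hr
    obtain ⟨ι, hι, c, hc, hPI⟩ := (f l).2
    rw [← hc] at hp' hq' hr'
    obtain ⟨a, rfl⟩ := hp'
    obtain ⟨b, rfl⟩ := hq'
    obtain ⟨d, rfl⟩ := hr'
    have hF : IsL0 (R := R) (fun K _ _ (x : ι → K) =>
        Finsupp.linearCombination R x (Finsupp.single a s + Finsupp.single b t -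
          Finsupp.single d 1) = 0) := (isPP_lin _).isL0
    have h3 : ∀ (K : Type) [AddCommGroup K] [Module R K] (x : ι → K),
        Finsupp.linearCombination R x (Finsupp.single a s + Finsupp.single b t -
          Finsupp.single d 1) = 0 ↔ s • x a + t • x b = x d := by
      intro K _ _ x
      rw [map_sub, map_add]
      simp only [Finsupp.linearCombination_single, one_smul]
      rw [sub_eq_zero]
    constructor
    · intro h
      exact (h3 N _).mp (hPI.l0 hNc hN hF ((h3 M _).mpr h))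
    · intro h
      exact (h3 M _).mp (hPI.symm.l0 hMc hM hF ((h3 N _).mpr h))
  choose g kg hg using totM
  have hgu : ∀ (m : M) (n : N) (k : ℕ), (m, n) ∈ (f k).1 → g m = n := by
    intro m n k h
    have := (key _ _ _ _ _ _ (hg m) (hg m) h 1 0).mp (by simp)
    simpa using this
  have hadd : ∀ x y : M, g (x + y) = g x + g y := by
    intro x y
    have := (key _ _ _ _ _ _ (hg x) (hg y) (hg (x + y)) 1 1).mp (by simp)
    simpa using this.symm
  have hsmul : ∀ (s : R) (x : M), g (s • x) = s • g x := by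
    intro s x
    have := (key _ _ _ _ _ _ (hg x) (hg x) (hg (s • x)) s 0).mp (by simp)
    simpa using this.symm
  let G : M →ₗ[R] N := { toFun := g, map_add' := hadd, map_smul' := hsmul }
  refine ⟨LinearEquiv.ofBijective G ⟨?_, ?_⟩⟩
  · intro x y hxy
    change g x = g y at hxy
    have := (key _ _ _ _ _ _ (hg x) (hg x) (hg y) 1 0).mpr (by simpa using hxy)
    simpa using this
  · intro n
    obtain ⟨m, k, h⟩ := totN n
    exact ⟨m, hgu m n k h⟩

end Pool.Agent.VMF.H31
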