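import Pool.Agent.VMF.H31_St

/-!
# MVC (homogeneity block): generic elements lift to exact elements (helper69)
-/

set_option autoImplicit false
set_option linter.unusedVariables false

namespace Pool.Agent.VMF.H31

open Set Pool.Agent.MVC Kl

variable {R : Type} [Ring R] {X : Kl R}

/-- `{(u, w) : ∃ v ∈ K, u - v ∈ ψ, w - v ∈ θ}` is level one -/
private theorem EX_rel {ι : Type} [Finite ι] (K ψ θ : L1 R ι) :
    IsL0 (R := R) (fun M _ _ (z : ι ⊕ ι → M) => ∃ v : ι → M, Sat1 K M v ∧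
      Sat1 ψ M (z ∘ Sum.inl - v) ∧ Sat1 θ M (z ∘ Sum.inr - v)) := by
  have h1 : IsL0 (R := R) (ι := (ι ⊕ ι) ⊕ ι) (fun M _ _ z => Sat1 K M (z ∘ Sum.inr)) :=
    (isL0_sat1 K).comap Sum.inr
  have h2 : IsL0 (R := R) (ι := (ι ⊕ ι) ⊕ ι)
      (fun M _ _ z => Sat1 ψ M (fun i => z (Sum.inl (Sum.inl i)) - z (Sum.inr i))) := by
    refine ((isL0_sat1 ψ).subst (fun i : ι => Finsupp.single (Sum.inl (Sum.inl i)) (1 : R) -
      Finsupp.single (Sum.inr i) 1)).congr (fun M _ _ x => ?_)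
    simp [map_sub]
  have h3 : IsL0 (R := R) (ι := (ι ⊕ ι) ⊕ ι)
      (fun M _ _ z => Sat1 θ M (fun i => z (Sum.inl (Sum.inr i)) - z (Sum.inr i))) := by
    refine ((isL0_sat1 θ).subst (fun i : ι => Finsupp.single (Sum.inl (Sum.inr i)) (1 : R) -
      Finsupp.single (Sum.inr i) 1)).congr (fun M _ _ x => ?_)
    simp [map_sub]
  exact (h1.and (h2.and h3)).ex.congr (fun M _ _ x => Iff.rfl)

/-- `{v : (v, v) ∈ K}` is level one -/
private theorem EX_dia {ι : Type} (K : L1 R (ι ⊕ ι)) :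
    IsL0 (R := R) (fun M _ _ (v : ι → M) => Sat1 K M (Sum.elim v v)) := by
  refine ((isL0_sat1 K).comap (Sum.elim id id : ι ⊕ ι → ι)).congr (fun M _ _ x => ?_)
  refine iff_of_eq ?_
  congr 1
  funext i
  cases i <;> rfl

/-- one step of the construction -/
private theorem EX_step (hHol : HolP X) (hCnt : CntP X) (M : Type) [AddCommGroup M] [Module R M]
    (hMc : Countable M) (hM : X.In M) {ι : Type} [Finite ι] {H θ : L1 R ι} (hθ : X.Le1 θ H)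
    {c c₁ : ι → M} (hc : X.Exact H M c) (hc₁ : Gen X H θ M c₁) (hne : ¬ X.Exact H M c₁) :
    ∃ (θ' : L1 R ι) (c₂ : ι → M) (ψ : L1 R ι), X.Le1 θ' θ ∧ X.Le1 θ' ψ ∧ X.Le1 ψ H ∧
      ¬ X.Le1 H ψ ∧ LeSum X H ψ θ ∧ Sat1 θ M (c₂ - c₁) ∧ Gen X H θ' M c₂ := by
  obtain ⟨W, hW, hHW⟩ : ∃ W : L1 R ι, Sat1 W M c₁ ∧ ¬ X.Le1 H W := by
    by_contra hcon
    push Not at hcon
    exact hne ⟨hc₁.1, hcon⟩
  have hα := (isL0_sat1 W).and (isL0_sat1 H)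
  have hα1 : Sat1 hα.fm M c₁ := hα.fm_iff.mpr ⟨hW, hc₁.1⟩
  have hα2 : X.Le1 hα.fm H := fun N _ _ _ _ x hx => (hα.fm_iff.mp hx).2
  have hα3 : ¬ X.Le1 H hα.fm := fun h => hHW fun N _ _ hNc hN x hx =>
    (hα.fm_iff.mp (h N hNc hN x hx)).1
  have hα4 := hc₁.2 hα.fm hα1
  obtain ⟨ψ, hψ1, hψ2, hψ3, hψ4⟩ := hHol ι hα.fm H hα2 hα3
  have hsum : LeSum X H ψ θ := by
    intro N _ _ hNc hN x hx
    obtain ⟨y, hy1, hy2⟩ := hα4 N hNc hN x hx
    exact ⟨y, hψ1 N hNc hN y hy1, hy2⟩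
  -- `c` is independent over `c`
  have hI : IOv X H ψ H θ M c c := by
    intro K hK N _ _ hNc hN u w hu hw
    have hK' := EX_dia K
    have h1 : X.Le1 H hK'.fm := hc.2 hK'.fm (hK'.fm_iff.mpr hK)
    obtain ⟨y, hy1, hy2⟩ := hsum N hNc hN (u - w) (hu.sub hw)
    refine ⟨y, -(u - w - y), hy1, hy2.neg, ?_⟩
    have h2 := hK'.fm_iff.mp (h1 N hNc hN (u - y) (hu.sub (hψ2 N hNc hN y hy1)))
    have h3 : w - -(u - w - y) = u - y := by abel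
    rw [h3]
    exact h2
  have hcg : Gen X H θ M c := by
    refine ⟨hc.1, fun K hK N _ _ hNc hN x hx => ⟨x, hc.2 K hK N hNc hN x hx, ?_⟩⟩
    rw [sub_self]
    exact Sat1.zero θ
  obtain ⟨x', hx', hI'⟩ := hCnt ι ι H ψ H θ ⟨hψ2, hψ3, hψ4, hθ⟩ M hMc hM c c₁ hcg hc₁ ⟨c, hc.1, hI⟩
  obtain ⟨y, hy1, hy2⟩ := hsum M hMc hM (x' - c₁) (hx'.sub hc₁.1)
  have hθ' := (isL0_sat1 θ).and (isL0_sat1 ψ)
  refine ⟨hθ'.fm, x' - y, ψ, fun N _ _ _ _ x hx => (hθ'.fm_iff.mp hx).1,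
    fun N _ _ _ _ x hx => (hθ'.fm_iff.mp hx).2, hψ2, hψ3, hsum, ?_, ?_, ?_⟩
  · have h3 : x' - y - c₁ = x' - c₁ - y := by abel
    rw [h3]
    exact hy2
  · exact hx'.sub (hψ2 M hMc hM y hy1)
  · intro K hK N _ _ hNc hN h hh
    have hL := EX_rel K ψ θ
    have h1 : Sat1 hL.fm M (Sum.elim x' c₁) := by
      rw [hL.fm_iff]
      refine ⟨x' - y, hK, ?_, ?_⟩
      · rw [Sum.elim_comp_inl, sub_sub_cancel]
        exact hy1
      · rw [Sum.elim_comp_inr]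
        have h3 : c₁ - (x' - y) = -(x' - c₁ - y) := by abel
        rw [h3]
        exact hy2.neg
    obtain ⟨p, t, hp, ht, hpt⟩ := hI' hL.fm h1 N hNc hN h h hh hh
    rw [hL.fm_iff] at hpt
    obtain ⟨v, hv1, hv2, hv3⟩ := hpt
    rw [Sum.elim_comp_inl] at hv2
    rw [Sum.elim_comp_inr] at hv3
    refine ⟨v, hv1, hθ'.fm_iff.mpr ⟨?_, ?_⟩⟩
    · have h4 := hv3.add ht
      have h5 : h - t - v + t = h - v := by abel
      rwa [h5] at h4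
    · have h4 := hv2.add hp
      have h5 : h - p - v + p = h - v := by abel
      rwa [h5] at h4

/-- generic elements lift to exact elements -/
theorem thm_EX : StEX X := by
  intro hT hHol hCnt M _ _ hMc hM ι _ H θ hθ c c' hc hc'
  by_contra hcon
  push Not at hcon
  let S := {s : L1 R ι × (ι → M) // X.Le1 s.1 θ ∧ Sat1 θ M (s.2 - c') ∧ Gen X H s.1 M s.2}
  have hstep : ∀ s : S, ∃ (s' : S) (ψ : L1 R ι), X.Le1 ψ H ∧ ¬ X.Le1 H ψ ∧
      LeSum X H ψ s.1.1 ∧ X.Le1 s'.1.1 s.1.1 ∧ X.Le1 s'.1.1 ψ := by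
    rintro ⟨⟨θ₁, c₁⟩, h1, h2, h3⟩
    have hne : ¬ X.Exact H M c₁ := by
      have h4 := hcon (c₁ - c') h2
      rwa [add_sub_cancel] at h4
    obtain ⟨θ', c₂, ψ, g1, g2, g3, g4, g5, g6, g7⟩ :=
      EX_step hHol hCnt M hMc hM (h1.trans hθ) hc h3 hne
    refine ⟨⟨⟨θ', c₂⟩, g1.trans h1, ?_, g7⟩, ψ, g3, g4, g5, g1, g2⟩
    have h5 := h2.add (h1 M hMc hM _ g6)
    have h6 : c₁ - c' + (c₂ - c₁) = c₂ - c' := by abel
    rwa [h6] at h5
  choose f ψ hψ1 hψ2 hψ3 hψ4 hψ5 using hstep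
  let s₀ : S := ⟨⟨θ, c'⟩, Kl.Le1.refl θ, by rw [sub_self]; exact Sat1.zero θ, hc'⟩
  let s : ℕ → S := fun n => Nat.rec s₀ (fun _ s => f s) n
  have hs : ∀ n, s (n + 1) = f (s n) := fun n => rfl
  have hmono : ∀ i j, i ≤ j → X.Le1 (s j).1.1 (s i).1.1 := by
    intro i j hij
    induction hij with
    | refl => exact Kl.Le1.refl _
    | step hj ih =>
      refine Kl.Le1.trans ?_ ih
      rw [Nat.succ_eq_add_one, hs]
      exact hψ4 _
  have hle : ∀ i j, i < j → X.Le1 (s j).1.1 (ψ (s i)) := by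
    intro i j hij
    refine (hmono (i + 1) j hij).trans ?_
    rw [hs]
    exact hψ5 _
  refine hT ι H (fun j => ψ (s j)) (fun j => hψ1 _) (fun j => hψ2 _) ?_
  intro j N _ _ hNc hN x hx
  obtain ⟨y, hy1, hy2⟩ := hψ3 (s j) N hNc hN x hx
  refine ⟨x - y, ?_, ?_, ?_⟩
  · rw [sub_sub_cancel]
    exact hy1
  · exact ((s j).2.1.trans hθ) N hNc hN _ hy2
  · intro i hi
    exact hle i j hi N hNc hN _ hy2

end Pool.Agent.VMF.H31
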