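import Pool.Agent.VMF.H31_St

/-!
# MVC: module H (helper87)
-/

set_option autoImplicit false

namespace Pool.Agent.VMF.H31

open Set Pool.Agent.MVC Kl

variable {R : Type} [Ring R] {X : Kl R}

private theorem isL0_inl_zero (ι κ : Type) :
    IsL0 (R := R) (ι := ι ⊕ κ) (fun M _ _ z => ∀ i : ι, z (Sum.inl i) = 0) := by
  choose φ hφ using fun i : ι =>
    isPP_lin (R := R) (ι := ι ⊕ κ) (Finsupp.single (Sum.inl i) 1)
  refine (isL0_re (Set.range φ)).congr fun M _ _ z => ?_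
  constructor
  · intro h i
    have h1 := (hφ i M z).mpr (h (φ i) ⟨i, rfl⟩)
    simpa using h1
  · rintro h _ ⟨i, rfl⟩
    refine (hφ i M z).mp ?_
    simpa using h i

theorem thm_H : StH X := by
  intro hEx M _ _ hMc hM ι κ _ _ D E hDE a ha a₁ b₁ hab
  obtain ⟨b₀, hb₀⟩ := (hDE M hMc hM a).mp ha.1
  have hθ : IsL0 (R := R) (ι := ι ⊕ κ)
      (fun M _ _ z => (∀ i : ι, z (Sum.inl i) = 0) ∧ Sat1 E M z) :=
    (isL0_inl_zero ι κ).and (isL0_sat1 E)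
  have hle : X.Le1 hθ.fm E := by
    intro N _ _ _ _ z hz
    exact ((hθ.fm_iff).mp hz).2
  have hgen : Gen X E hθ.fm M (Sum.elim a b₀) := by
    refine ⟨hb₀, fun K hK N _ _ hNc hN z hz => ?_⟩
    have hK2 : IsL0 (R := R) (fun M _ _ (u : ι → M) => ∃ w : κ → M,
        Sat1 K M (Sum.elim u w) ∧ Sat1 E M (Sum.elim u w)) :=
      ((isL0_sat1 K).and (isL0_sat1 E)).ex
    have h1 : Sat1 hK2.fm M a := (hK2.fm_iff).mpr ⟨b₀, hK, hb₀⟩
    have hz' : Sum.elim (z ∘ Sum.inl) (z ∘ Sum.inr) = z := Sum.elim_comp_inl_inr z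
    have h2 : Sat1 D N (z ∘ Sum.inl) := (hDE N hNc hN _).mpr ⟨z ∘ Sum.inr, by rw [hz']; exact hz⟩
    obtain ⟨w', hw1, hw2⟩ := (hK2.fm_iff).mp (ha.2 hK2.fm h1 N hNc hN _ h2)
    refine ⟨Sum.elim (z ∘ Sum.inl) w', hw1, (hθ.fm_iff).mpr ⟨fun i => ?_, hz.sub hw2⟩⟩
    simp
  obtain ⟨t, ht, hex⟩ := hEx M hMc hM (ι ⊕ κ) E hθ.fm hle (Sum.elim a₁ b₁) (Sum.elim a b₀) hab hgen
  have ht0 := ((hθ.fm_iff).mp ht).1
  refine ⟨b₀ + t ∘ Sum.inr, ?_⟩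
  have e : Sum.elim a (b₀ + t ∘ Sum.inr) = Sum.elim a b₀ + t := by
    funext i
    cases i with
    | inl i => simp [ht0 i]
    | inr k => simp
  rw [e]
  exact hex

end Pool.Agent.VMF.H31
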