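import Pool.Agent.VMF.H31_St

/-!
# The lattice of the level-one formulas below `H`; `thm_HOL`, `thm_GDM` (helper29)
-/

set_option autoImplicit false
set_option linter.unusedVariables false

namespace Pool.Agent.VMF.H31

open Set Pool.Agent.MVC Kl

namespace LAT

variable {R : Type} [Ring R] {ι : Type}

/-- the level-one formulas below `H` -/
def Pre (X : Kl R) (H : L1 R ι) : Type := {V : L1 R ι // X.Le1 V H}

instance (X : Kl R) (H : L1 R ι) : Preorder (Pre X H) where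
  le V W := X.Le1 V.1 W.1
  le_refl V := Kl.Le1.refl _
  le_trans U V W h h' := h.trans h'

/-- the level-one formulas below `H`, modulo equivalence -/
def Lat (X : Kl R) (H : L1 R ι) : Type := Antisymmetrization (Pre X H) (· ≤ ·)

noncomputable instance (X : Kl R) (H : L1 R ι) : PartialOrder (Lat X H) :=
  inferInstanceAs (PartialOrder (Antisymmetrization (Pre X H) (· ≤ ·)))

variable {X : Kl R} {H : L1 R ι}

/-- a formula which represents an element of the lattice -/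
noncomputable def fo (a : Lat X H) : L1 R ι := (ofAntisymmetrization (α := Pre X H) (· ≤ ·) a).1

theorem fo_le (a : Lat X H) : X.Le1 (fo a) H := (ofAntisymmetrization (α := Pre X H) (· ≤ ·) a).2

theorem le_iff {a b : Lat X H} : a ≤ b ↔ X.Le1 (fo a) (fo b) :=
  (ofAntisymmetrization_le_ofAntisymmetrization_iff (α := Pre X H) (a := a) (b := b)).symm

/-- the element given by a formula -/
def mk (V : L1 R ι) (h : X.Le1 V H) : Lat X H := toAntisymmetrization (α := Pre X H) (· ≤ ·) ⟨V, h⟩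

theorem fo_mk_le (V : L1 R ι) (h : X.Le1 V H) : X.Le1 (fo (mk V h)) V := by
  have h1 : toAntisymmetrization (α := Pre X H) (· ≤ ·)
      (ofAntisymmetrization (α := Pre X H) (· ≤ ·) (mk V h)) ≤
        toAntisymmetrization (α := Pre X H) (· ≤ ·) ⟨V, h⟩ :=
    (toAntisymmetrization_ofAntisymmetrization (α := Pre X H) (· ≤ ·) (mk V h)).le
  exact toAntisymmetrization_le_toAntisymmetrization_iff.mp h1

theorem le_fo_mk (V : L1 R ι) (h : X.Le1 V H) : X.Le1 V (fo (mk V h)) := by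
  have h1 : toAntisymmetrization (α := Pre X H) (· ≤ ·) ⟨V, h⟩ ≤
      toAntisymmetrization (α := Pre X H) (· ≤ ·)
      (ofAntisymmetrization (α := Pre X H) (· ≤ ·) (mk V h)) :=
    (toAntisymmetrization_ofAntisymmetrization (α := Pre X H) (· ≤ ·) (mk V h)).ge
  exact toAntisymmetrization_le_toAntisymmetrization_iff.mp h1

/-- the sum of two formulas -/
noncomputable def plus [Finite ι] (V W : L1 R ι) : L1 R ι := ((isL0_sat1 V).sum (isL0_sat1 W)).fm

theorem sat1_plus [Finite ι] {V W : L1 R ι} {M : Type} [AddCommGroup M] [Module R M]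
    {x : ι → M} : Sat1 (plus V W) M x ↔ ∃ y : ι → M, Sat1 V M y ∧ Sat1 W M (x - y) :=
  ((isL0_sat1 V).sum (isL0_sat1 W)).fm_iff

/-- the conjunction of two formulas -/
noncomputable def con (V W : L1 R ι) : L1 R ι := ((isL0_sat1 V).and (isL0_sat1 W)).fm

theorem sat1_con {V W : L1 R ι} {M : Type} [AddCommGroup M] [Module R M]
    {x : ι → M} : Sat1 (con V W) M x ↔ Sat1 V M x ∧ Sat1 W M x :=
  ((isL0_sat1 V).and (isL0_sat1 W)).fm_iff

theorem plus_le [Finite ι] {V W U : L1 R ι} (hV : X.Le1 V U) (hW : X.Le1 W U) :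
    X.Le1 (plus V W) U := by
  intro M _ _ hc hM x hx
  obtain ⟨y, h1, h2⟩ := sat1_plus.mp hx
  have := (hV M hc hM _ h1).add (hW M hc hM _ h2)
  rwa [add_sub_cancel] at this

theorem le_plus_left [Finite ι] (V W : L1 R ι) : X.Le1 V (plus V W) := by
  intro M _ _ hc hM x hx
  refine sat1_plus.mpr ⟨x, hx, ?_⟩
  rw [sub_self]
  exact Sat1.zero W

theorem le_plus_right [Finite ι] (V W : L1 R ι) : X.Le1 W (plus V W) := by
  intro M _ _ hc hM x hx
  refine sat1_plus.mpr ⟨0, Sat1.zero V, ?_⟩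
  rwa [sub_zero]

noncomputable instance [Finite ι] (X : Kl R) (H : L1 R ι) : Lattice (Lat X H) where
  sup a b := mk (plus (fo a) (fo b)) (plus_le (fo_le a) (fo_le b))
  le_sup_left a b := le_iff.mpr ((le_plus_left _ _).trans (le_fo_mk _ _))
  le_sup_right a b := le_iff.mpr ((le_plus_right _ _).trans (le_fo_mk _ _))
  sup_le a b c h1 h2 := le_iff.mpr ((fo_mk_le _ _).trans (plus_le (le_iff.mp h1) (le_iff.mp h2)))
  inf a b := mk (con (fo a) (fo b)) (fun M _ _ hc hM x hx => fo_le a M hc hM x (sat1_con.mp hx).1)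
  inf_le_left a b := le_iff.mpr ((fo_mk_le _ _).trans fun M _ _ hc hM x hx => (sat1_con.mp hx).1)
  inf_le_right a b := le_iff.mpr ((fo_mk_le _ _).trans fun M _ _ hc hM x hx => (sat1_con.mp hx).2)
  le_inf a b c h1 h2 := le_iff.mpr (Kl.Le1.trans (fun M _ _ hc hM x hx =>
    sat1_con.mpr ⟨le_iff.mp h1 M hc hM x hx, le_iff.mp h2 M hc hM x hx⟩) (le_fo_mk _ _))

noncomputable instance (X : Kl R) (H : L1 R ι) : OrderTop (Lat X H) where
  top := mk H (Kl.Le1.refl H)
  le_top a := le_iff.mpr ((fo_le a).trans (le_fo_mk _ _))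

variable {M : Type} [AddCommGroup M] [Module R M]

theorem sat1_sup [Finite ι] {a b : Lat X H} (hc : Countable M) (hM : X.In M) {x : ι → M} :
    Sat1 (fo (a ⊔ b)) M x ↔ ∃ y : ι → M, Sat1 (fo a) M y ∧ Sat1 (fo b) M (x - y) :=
  ⟨fun h => sat1_plus.mp (fo_mk_le _ _ M hc hM x h),
    fun h => le_fo_mk _ _ M hc hM x (sat1_plus.mpr h)⟩

theorem sat1_inf [Finite ι] {a b : Lat X H} (hc : Countable M) (hM : X.In M) {x : ι → M} :
    Sat1 (fo (a ⊓ b)) M x ↔ Sat1 (fo a) M x ∧ Sat1 (fo b) M x :=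
  ⟨fun h => sat1_con.mp (fo_mk_le _ _ M hc hM x h),
    fun h => le_fo_mk _ _ M hc hM x (sat1_con.mpr h)⟩

theorem sat1_top {x : ι → M} (hc : Countable M) (hM : X.In M) :
    Sat1 (fo (⊤ : Lat X H)) M x ↔ Sat1 H M x :=
  ⟨fo_le _ M hc hM x, le_fo_mk _ _ M hc hM x⟩

theorem sat1_mk {V : L1 R ι} {h : X.Le1 V H} {x : ι → M} (hc : Countable M) (hM : X.In M) :
    Sat1 (fo (mk V h)) M x ↔ Sat1 V M x :=
  ⟨fo_mk_le _ _ M hc hM x, le_fo_mk _ _ M hc hM x⟩

instance [Finite ι] (X : Kl R) (H : L1 R ι) : IsModularLattice (Lat X H) where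
  sup_inf_le_assoc_of_le {a} b {c} h := by
    refine le_iff.mpr fun M _ _ hc hM x hx => ?_
    obtain ⟨h1, h2⟩ := (sat1_inf hc hM).mp hx
    obtain ⟨y, h3, h4⟩ := (sat1_sup hc hM).mp h1
    exact (sat1_sup hc hM).mpr ⟨y, h3, (sat1_inf hc hM).mpr
      ⟨h4, h2.sub (le_iff.mp h M hc hM y h3)⟩⟩

theorem eq_top_iff' {a : Lat X H} : a = ⊤ ↔ X.Le1 H (fo a) := by
  constructor
  · rintro rfl
    exact le_fo_mk _ _
  · intro h
    exact top_le_iff.mp (le_iff.mpr ((fo_mk_le _ _).trans h))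

theorem sat1_finset_inf [Finite ι] (W : ℕ → Lat X H) (j : ℕ) (hc : Countable M) (hM : X.In M)
    (x : ι → M) : Sat1 (fo ((Finset.range j).inf W)) M x ↔
      Sat1 H M x ∧ ∀ i < j, Sat1 (fo (W i)) M x := by
  induction j with
  | zero =>
    rw [Finset.range_zero, Finset.inf_empty, sat1_top hc hM]
    exact ⟨fun h => ⟨h, fun i hi => absurd hi (Nat.not_lt_zero i)⟩, fun h => h.1⟩
  | succ j ih =>
    rw [Finset.range_add_one, Finset.inf_insert, sat1_inf hc hM, ih]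
    constructor
    · rintro ⟨h1, h2, h3⟩
      refine ⟨h2, fun i hi => ?_⟩
      rcases Nat.lt_succ_iff_lt_or_eq.mp hi with h | rfl
      · exact h3 i h
      · exact h1
    · rintro ⟨h1, h2⟩
      exact ⟨h2 j (Nat.lt_succ_self j), h1, fun i hi => h2 i (Nat.lt_succ_of_lt hi)⟩

/-- coindependence in the lattice -/
theorem coind_iff [Finite ι] (W : ℕ → Lat X H) (j : ℕ) :
    W j ⊔ (Finset.range j).inf W = ⊤ ↔
      ∀ (M : Type) [AddCommGroup M] [Module R M], Countable M → X.In M →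
      ∀ x : ι → M, Sat1 H M x →
        ∃ y : ι → M, Sat1 (fo (W j)) M (x - y) ∧ Sat1 H M y ∧ ∀ i < j, Sat1 (fo (W i)) M y := by
  rw [eq_top_iff']
  constructor
  · intro h M _ _ hc hM x hx
    obtain ⟨y, h1, h2⟩ := (sat1_sup hc hM).mp (h M hc hM x hx)
    refine ⟨x - y, ?_, (sat1_finset_inf W j hc hM _).mp h2⟩
    rwa [sub_sub_cancel]
  · intro h M _ _ hc hM x hx
    obtain ⟨y, h1, h2⟩ := h M hc hM x hx
    refine (sat1_sup hc hM).mpr ⟨x - y, h1, ?_⟩
    rw [sub_sub_cancel]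
    exact (sat1_finset_inf W j hc hM _).mpr h2

theorem no_coind [Finite ι] (hT : T1' X) (H : L1 R ι) :
    ¬ ∃ W : ℕ → Lat X H, (∀ j, W j ≠ ⊤) ∧ ∀ j, W j ⊔ (Finset.range j).inf W = ⊤ := by
  rintro ⟨W, h1, h2⟩
  refine hT ι H (fun j => fo (W j)) (fun j => fo_le _) (fun j h => h1 j (eq_top_iff'.mpr h)) ?_
  intro j
  exact (coind_iff W j).mp (h2 j)

end LAT

open LAT

theorem thm_HOL {R : Type} [Ring R] {X : Kl R} : StHOL X := by
  intro hT hL ι _ ψ H h1 h2
  obtain ⟨h, h3, h4, h5⟩ := hL (Lat X H) (no_coind hT H) (mk ψ h1)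
    (fun h => h2 ((eq_top_iff'.mp h).trans (fo_mk_le _ _)))
  refine ⟨fo h, (le_fo_mk ψ h1).trans (le_iff.mp h3), fo_le h, fun h => h4 (eq_top_iff'.mpr h), ?_⟩
  intro α β hα hα' hβ hβ' hs
  have h6 : mk α hα' ⊔ mk β hβ' = (⊤ : Lat X H) := by
    rw [eq_top_iff']
    intro M _ _ hc hM x hx
    obtain ⟨y, hy, hy'⟩ := hs M hc hM x hx
    exact (sat1_sup hc hM).mpr ⟨y, (sat1_mk hc hM).mpr hy, (sat1_mk hc hM).mpr hy'⟩
  rcases h5 (mk α hα') (mk β hβ') (le_iff.mpr (hα.trans (le_fo_mk _ _)))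
    (le_iff.mpr (hβ.trans (le_fo_mk _ _))) h6 with h7 | h7
  · exact Or.inl ((eq_top_iff'.mp h7).trans (fo_mk_le _ _))
  · exact Or.inr ((eq_top_iff'.mp h7).trans (fo_mk_le _ _))

theorem thm_GDM {R : Type} [Ring R] {X : Kl R} : StGDM X := by
  classical
  intro hT hG ι _ H
  obtain ⟨n, hn⟩ := hG (Lat X H) (no_coind hT H)
  refine ⟨n, fun m W h1 h2 h3 => ?_⟩
  let W' : ℕ → Lat X H := fun j => if hj : j < m then mk (W j) (h1 j hj) else ⊤
  have hW : ∀ j, (hj : j < m) → W' j = mk (W j) (h1 j hj) := fun j hj => dif_pos hj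
  refine hn m W' (fun j hj h => ?_) (fun j hj => ?_)
  · rw [hW j hj] at h
    exact h2 j hj ((eq_top_iff'.mp h).trans (fo_mk_le _ _))
  · rw [coind_iff]
    intro M _ _ hc hM x hx
    obtain ⟨y, h4, h5, h6⟩ := h3 j hj M hc hM x hx
    refine ⟨y, ?_, h5, fun i hi => ?_⟩
    · rw [hW j hj]
      exact (sat1_mk hc hM).mpr h4
    · rw [hW i (hi.trans hj)]
      exact (sat1_mk hc hM).mpr (h6 i hi)

end Pool.Agent.VMF.H31
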