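import Pool.Agent.VMF.H31_St

/-!
# Vaught's conjecture for modules: [SUP] a product of superfluous formulas is superfluous (helper65)
-/

set_option autoImplicit false
set_option linter.unusedVariables false

namespace Pool.Agent.VMF.H31

open Set Pool.Agent.MVC Kl

section

variable {R : Type} [Ring R]

/-- conjunctions over `Fin n` -/
private theorem SUP_forall {ι : Type} (n : ℕ) : ∀ (F : Fin n → ∀ (M : Type) [AddCommGroup M]
    [Module R M], (ι → M) → Prop), (∀ j, IsL0 (F j)) →
    IsL0 (R := R) (fun M _ _ (x : ι → M) => ∀ j, F j M x) := by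
  induction n with
  | zero =>
    intro F hF
    exact isL0_true.congr fun M _ _ x => by simp
  | succ n ih =>
    intro F hF
    refine ((hF 0).and (ih (fun j => F j.succ) fun j => hF j.succ)).congr fun M _ _ x => ?_
    constructor
    · rintro ⟨h1, h2⟩ j
      refine Fin.cases h1 (fun j => h2 j) j
    · intro h
      exact ⟨h 0, fun j => h j.succ⟩

variable (X : Kl R)

/-- the family which is `v` at `i` and zero elsewhere -/
private def sg {ι M : Type} [AddCommGroup M] {m : ℕ} (i : Fin m) (v : ι → M) : Fin m → ι → M :=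
  fun j => if j = i then v else 0

/-- the formulas after the replacement of the first `k` indices -/
private def chi {ι : Type} {m : ℕ} (ψ : L1 R ι) (ψ' : Fin m → L1 R ι) (k : ℕ) (j : Fin m) :
    L1 R ι :=
  if j.val < k then ψ else ψ' j

private theorem SUP_isL0 {ι : Type} [Finite ι] {m : ℕ} (H : L1 R ι) (χ : Fin m → L1 R ι)
    (L : L1 R (Fin m × ι)) (i : Fin m) :
    IsL0 (R := R) (fun M _ _ (x : ι → M) => Sat1 H M x ∧ ∃ p : Fin m → ι → M,
      (∀ j, Sat1 (χ j) M (p j)) ∧ Sat1 L M (fun a => sg i x a.1 a.2 - p a.1 a.2)) := by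
  refine (isL0_sat1 H).and ?_
  have h1 : IsL0 (R := R) (fun M _ _ (p : Fin m × ι → M) => ∀ j, Sat1 (χ j) M (fun a => p (j, a))) :=
    SUP_forall m (fun j M _ _ p => Sat1 (χ j) M (fun a => p (j, a)))
      fun j => (isL0_sat1 (χ j)).comap (fun a => (j, a))
  have h2 := h1.sum (isL0_sat1 L)
  refine (h2.subst (ι := ι) (fun b => if b.1 = i then Finsupp.single b.2 (1 : R) else 0)).congr ?_
  intro M _ _ x
  have h3 : (fun b : Fin m × ι => Finsupp.linearCombination R x
      (if b.1 = i then Finsupp.single b.2 (1 : R) else 0)) = fun b => sg i x b.1 b.2 := by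
    funext b
    by_cases hb : b.1 = i
    · simp [sg, hb]
    · simp [sg, hb]
  rw [h3]
  constructor
  · rintro ⟨p, hp, hL⟩
    exact ⟨fun j a => p (j, a), hp, hL⟩
  · rintro ⟨p, hp, hL⟩
    exact ⟨fun a => p a.1 a.2, hp, hL⟩

/-- a product of superfluous level-one formulas is superfluous -/
theorem thm_SUP : StSUP X := by
  intro ι _ ψ H hψH hol m ψ' h1 h2 h3 L hL
  have key : ∀ k : ℕ, k ≤ m → ∀ (M : Type) [AddCommGroup M] [Module R M], Countable M → X.In M →
      ∀ u : Fin m → ι → M, (∀ i, Sat1 H M (u i)) → ∃ p : Fin m → ι → M,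
        (∀ i, Sat1 (chi ψ ψ' k i) M (p i)) ∧ Sat1 L M (fun a => u a.1 a.2 - p a.1 a.2) := by
    intro k
    induction k with
    | zero =>
      intro _ M _ _ hc hM u hu
      obtain ⟨p, hp, hp'⟩ := hL M hc hM u hu
      refine ⟨p, fun i => ?_, hp'⟩
      have : chi ψ ψ' 0 i = ψ' i := if_neg (Nat.not_lt_zero _)
      rw [this]
      exact hp i
    | succ k ih =>
      intro hk
      have hk' : k < m := hk
      have ih' := ih (le_of_lt hk')
      have hα := SUP_isL0 (R := R) H (chi ψ ψ' (k + 1)) L (⟨k, hk'⟩ : Fin m)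
      have hchi_i : chi ψ ψ' (k + 1) (⟨k, hk'⟩ : Fin m) = ψ := if_pos (Nat.lt_succ_self k)
      have hchi_i' : chi ψ ψ' k (⟨k, hk'⟩ : Fin m) = ψ' ⟨k, hk'⟩ := if_neg (lt_irrefl k)
      have hchi_ne : ∀ j : Fin m, j ≠ ⟨k, hk'⟩ → chi ψ ψ' (k + 1) j = chi ψ ψ' k j := by
        intro j hj
        have hj' : j.val ≠ k := fun h => hj (Fin.ext h)
        by_cases hjk : j.val < k
        · rw [chi, chi, if_pos hjk, if_pos (Nat.lt_succ_of_lt hjk)]
        · rw [chi, chi, if_neg hjk, if_neg]
          intro h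
          exact hjk (lt_of_le_of_ne (Nat.lt_succ_iff.1 h) hj')
      have hb1 : X.Le1 ψ hα.fm := by
        intro M _ _ hc hM x hx
        rw [hα.fm_iff]
        refine ⟨hψH M hc hM x hx, sg ⟨k, hk'⟩ x, fun j => ?_, ?_⟩
        · by_cases hj : j = ⟨k, hk'⟩
          · subst hj
            rw [hchi_i, sg, if_pos rfl]
            exact hx
          · rw [sg, if_neg hj]
            exact Sat1.zero _
        · have : (fun a : Fin m × ι => sg ⟨k, hk'⟩ x a.1 a.2 - sg ⟨k, hk'⟩ x a.1 a.2) = 0 := by
            funext a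
            exact sub_self _
          rw [this]
          exact Sat1.zero _
      have hb2 : X.Le1 hα.fm H := by
        intro M _ _ hc hM x hx
        rw [hα.fm_iff] at hx
        exact hx.1
      have hb3 : LeSum X H hα.fm (ψ' ⟨k, hk'⟩) := by
        intro M _ _ hc hM u hu
        obtain ⟨p, hp, hp'⟩ := ih' M hc hM (sg ⟨k, hk'⟩ u) (fun j => by
          by_cases hj : j = ⟨k, hk'⟩
          · rw [sg, if_pos hj]
            exact hu
          · rw [sg, if_neg hj]
            exact Sat1.zero _)
        have hv := hp ⟨k, hk'⟩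
        rw [hchi_i'] at hv
        refine ⟨u - p ⟨k, hk'⟩, ?_, ?_⟩
        · rw [hα.fm_iff]
          refine ⟨?_, fun j => if j = ⟨k, hk'⟩ then 0 else p j, fun j => ?_, ?_⟩
          · rw [sub_eq_add_neg]
            exact hu.add ((h2 _ M hc hM _ hv).neg)
          · change Sat1 (chi ψ ψ' (k + 1) j) M (if j = ⟨k, hk'⟩ then 0 else p j)
            by_cases hj : j = ⟨k, hk'⟩
            · rw [if_pos hj]
              exact Sat1.zero _
            · rw [if_neg hj, hchi_ne j hj]
              exact hp j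
          · have h4 : (fun a : Fin m × ι => sg ⟨k, hk'⟩ (u - p ⟨k, hk'⟩) a.1 a.2 -
                (if a.1 = ⟨k, hk'⟩ then 0 else p a.1 : ι → M) a.2) =
                fun a => sg ⟨k, hk'⟩ u a.1 a.2 - p a.1 a.2 := by
              funext a
              by_cases ha : a.1 = ⟨k, hk'⟩
              · rw [sg, sg, if_pos ha, if_pos ha, if_pos ha, ha]
                simp
              · rw [sg, sg, if_neg ha, if_neg ha, if_neg ha]
            rw [h4]
            exact hp'
        · rw [sub_sub_cancel]
          exact hv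
      have hle : X.Le1 H hα.fm := by
        rcases hol hα.fm (ψ' ⟨k, hk'⟩) hb1 hb2 (h1 _) (h2 _) hb3 with h | h
        · exact h
        · exact absurd h (h3 _)
      intro M _ _ hc hM u hu
      obtain ⟨p, hp, hp'⟩ := ih' M hc hM u hu
      have hv := hp ⟨k, hk'⟩
      rw [hchi_i'] at hv
      have h5 := hle M hc hM _ (h2 _ M hc hM _ hv)
      rw [hα.fm_iff] at h5
      obtain ⟨-, p1, hp1, hp1'⟩ := h5
      refine ⟨fun j => (if j = ⟨k, hk'⟩ then 0 else p j) + p1 j, fun j => ?_, ?_⟩
      · change Sat1 (chi ψ ψ' (k + 1) j) M ((if j = ⟨k, hk'⟩ then 0 else p j) + p1 j)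
        by_cases hj : j = ⟨k, hk'⟩
        · rw [if_pos hj, zero_add]
          exact hp1 j
        · rw [if_neg hj]
          refine Sat1.add ?_ (hp1 j)
          rw [hchi_ne j hj]
          exact hp j
      · have h6 : (fun a : Fin m × ι => u a.1 a.2 -
            ((if a.1 = ⟨k, hk'⟩ then 0 else p a.1 : ι → M) + p1 a.1) a.2) =
            (fun a => u a.1 a.2 - p a.1 a.2) +
              fun a => sg ⟨k, hk'⟩ (p ⟨k, hk'⟩) a.1 a.2 - p1 a.1 a.2 := by
          funext a
          rw [Pi.add_apply, Pi.add_apply]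
          by_cases ha : a.1 = ⟨k, hk'⟩
          · rw [sg, if_pos ha, if_pos ha, ha]
            simp
          · rw [sg, if_neg ha, if_neg ha]
            simp only [Pi.zero_apply]
            abel
        rw [h6]
        exact Sat1.add hp' hp1'
  intro M _ _ hc hM u hu
  obtain ⟨p, hp, hp'⟩ := key m le_rfl M hc hM u hu
  refine ⟨p, fun i => ?_, hp'⟩
  have h7 : chi ψ ψ' m i = ψ := if_pos i.isLt
  have h8 := hp i
  rw [h7] at h8
  exact h8

end

end Pool.Agent.VMF.H31
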