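import Pool.Agent.VMF.H31_St

/-!
# MVC (homogeneity block): transfer of an independent family of dependent elements from `c'` to `c`
-/

set_option autoImplicit false
set_option linter.unusedVariables false

namespace Pool.Agent.VMF.H31

open Set Pool.Agent.MVC Kl

variable {R : Type} [Ring R] {X : Kl R}

/-- a linear combination of tuples in a level-one group: `s + d ∈ V` written with `Sum.elim` -/
private theorem TRF_add {ι κ M : Type} [AddCommGroup M] [Module R M] {V : L1 R (ι ⊕ κ)}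
    {a b c : ι → M} {u v w : κ → M} (h1 : Sat1 V M (Sum.elim a u)) (h2 : Sat1 V M (Sum.elim b v))
    (hc : a + b = c) (hw : u + v = w) : Sat1 V M (Sum.elim c w) := by
  have := h1.add h2
  rw [← elim_add, hc, hw] at this
  exact this

private theorem TRF_sub {ι κ M : Type} [AddCommGroup M] [Module R M] {V : L1 R (ι ⊕ κ)}
    {a b c : ι → M} {u v w : κ → M} (h1 : Sat1 V M (Sum.elim a u)) (h2 : Sat1 V M (Sum.elim b v))
    (hc : a - b = c) (hw : u - v = w) : Sat1 V M (Sum.elim c w) := by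
  have h3 := h2.neg
  rw [← elim_neg] at h3
  exact TRF_add h1 h3 (by rw [← hc, sub_eq_add_neg]) (by rw [← hw, sub_eq_add_neg])

private theorem TRF_zero {ι κ M : Type} [AddCommGroup M] [Module R M] (V : L1 R (ι ⊕ κ)) :
    Sat1 V M (Sum.elim (0 : ι → M) (0 : κ → M)) := by
  have := Sat1.zero (M := M) V
  have h1 : (Sum.elim (0 : ι → M) (0 : κ → M)) = 0 := by
    funext i
    cases i <;> rfl
  rw [h1]
  exact this

/-- `{u : (u, 0) ∈ V}` is a level-one group -/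
private theorem TRF_zer {ι κ : Type} (V : L1 R (ι ⊕ κ)) :
    (∅ : Ax R).IsL1 (fun M _ _ (u : ι → M) => Sat1 V M (Sum.elim u 0)) := by
  refine ((isL1_sat1 V).subst (ι := ι)
    (Sum.elim (fun i => Finsupp.single i (1 : R)) (fun _ => 0))).congr
    (fun M _ _ _ _ x => iff_of_eq ?_)
  congr 1
  funext i
  cases i <;> simp

/-- `{z : ∀ i, (z i, 0) ∈ V i}` is a level-one group -/
private theorem TRF_zers {ι κ : Type} {m : ℕ} (V : Fin m → L1 R (ι ⊕ κ)) :
    (∅ : Ax R).IsL1 (fun M _ _ (z : Fin m × ι → M) => ∀ i, Sat1 (V i) M (Sum.elim (fun j => z (i, j)) 0)) :=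
  isL1_forall (fun i => ((TRF_zer (V i)).comap (fun j => (i, j))).congr
    (fun M _ _ _ _ x => Iff.rfl))

/-- `{(w, z) : ∀ i, (z i, w) ∈ V i}` is a level-one group -/
private theorem TRF_rel {ι κ : Type} {m : ℕ} (V : Fin m → L1 R (ι ⊕ κ)) :
    (∅ : Ax R).IsL1 (fun M _ _ (z : κ ⊕ (Fin m × ι) → M) =>
      ∀ i, Sat1 (V i) M (Sum.elim (fun j => z (Sum.inr (i, j))) (fun k => z (Sum.inl k)))) := by
  refine isL1_forall (fun i => ((isL1_sat1 (V i)).comap
    (Sum.elim (fun j => Sum.inr (i, j)) Sum.inl)).congr (fun M _ _ _ _ x => iff_of_eq ?_))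
  congr 1
  funext i
  cases i <;> rfl

/-- `{w : ∃ z ∈ K, ∀ i, (z i, w) ∈ V i}` is a level-one group -/
private theorem TRF_img {ι κ : Type} [Finite ι] {m : ℕ} (V : Fin m → L1 R (ι ⊕ κ))
    (K : L1 R (Fin m × ι)) :
    (∅ : Ax R).IsL1 (fun M _ _ (w : κ → M) => ∃ z : Fin m × ι → M, Sat1 K M z ∧
      ∀ i, Sat1 (V i) M (Sum.elim (fun j => z (i, j)) w)) := by
  refine (((isL1_sat1 K).comap (ι := κ ⊕ (Fin m × ι)) Sum.inr).and (TRF_rel V)).ex.congr
    (fun M _ _ _ _ x => exists_congr fun y => ?_)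
  exact Iff.rfl

/-- 6.5 -/
theorem thm_TRF : StTRF X := by
  intro hDEP hSUP ι κ _ _ H ψ Hc θ hD M _ _ hMc hM c c' hc hc' m x hx hdep
  have hD' := fun i => hDEP ι κ H ψ Hc θ hD M hMc hM (x i) c' hc' (hx.1 i) (hdep i)
  choose σ hσ1 hσ2 hσ3 using hD'
  -- every `w ∈ Hc` is in the projection of the relation
  have hall : ∀ (K : L1 R (Fin m × ι)), ∀ d : κ → M, Gen X Hc θ M d →
      (∃ z : Fin m × ι → M, Sat1 K M z ∧ ∀ i, Sat1 (σ i) M (Sum.elim (fun j => z (i, j)) d)) →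
      ∀ (N : Type) [AddCommGroup N] [Module R N], Countable N → X.In N → ∀ w : κ → N,
        Sat1 Hc N w → ∃ z : Fin m × ι → N, Sat1 K N z ∧
          ∀ i, Sat1 (σ i) N (Sum.elim (fun j => z (i, j)) w) := by
    intro K d hd hKd N _ _ hNc hN w hw
    obtain ⟨V, hV⟩ := kl_isL1 (X := X) (TRF_img σ K)
    obtain ⟨y, hy1, hy2⟩ := hd.2 V ((hV M hMc hM d).1 hKd) N hNc hN w hw
    obtain ⟨z, hz1, hz2⟩ := (hV N hNc hN y).2 hy1
    refine ⟨z, hz1, fun i => ?_⟩
    have h1 : Sat1 (σ i) N (Sum.elim (0 : ι → N) (w - y)) :=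
      (hσ1 i N hNc hN 0 (w - y)).2.1 (Sat1.zero ψ) hy2
    exact TRF_add (hz2 i) h1 (add_zero _) (by abel)
  obtain ⟨KT, hKT⟩ : ∃ K : L1 R (Fin m × ι), ∀ (N : Type) [AddCommGroup N] [Module R N],
      ∀ z : Fin m × ι → N, Sat1 K N z := by
    obtain ⟨V, hV⟩ := isL0_true (R := R) (ι := Fin m × ι)
    exact ⟨V, fun N _ _ z => (hV N z).1 trivial⟩
  obtain ⟨z', -, hz'⟩ := hall KT c' hc' ⟨fun a : Fin m × ι => x a.1 a.2, hKT M _, hσ2⟩ M hMc hM c hc.1
  refine ⟨fun i j => z' (i, j), ⟨fun i => ((hσ1 i M hMc hM _ _).1 (hz' i)).1, ?_⟩, ?_⟩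
  · -- the new family is independent
    intro K hK N _ _ hNc hN u hu
    choose ψ' hψ' using fun i => kl_isL1 (X := X) (TRF_zer (σ i))
    -- `L = K + ∏ ψ'`
    obtain ⟨L, hL⟩ := kl_isL1 (X := X) ((isL1_sat1 K).sum (TRF_zers σ))
    have h1 : Sat1 L M (fun a : Fin m × ι => z' (a.1, a.2)) := by
      refine (hL M hMc hM _).1 ⟨fun a : Fin m × ι => z' (a.1, a.2), hK, fun i => ?_⟩
      have h2 : (fun j => ((fun a : Fin m × ι => z' (a.1, a.2)) - fun a : Fin m × ι => z' (a.1, a.2)) (i, j)) =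
          (0 : ι → M) := by
        funext j
        simp
      rw [h2]
      exact TRF_zero _
    obtain ⟨z, hz1, hz2⟩ := hall L c hc ⟨_, h1, hz'⟩ M hMc hM c' hc'.1
    -- `x ∈ L`
    have h3 : Sat1 L M (fun a : Fin m × ι => x a.1 a.2) := by
      obtain ⟨y, hy1, hy2⟩ := (hL M hMc hM z).2 hz1
      refine (hL M hMc hM _).1 ⟨y, hy1, fun i => ?_⟩
      have h4 : Sat1 (σ i) M (Sum.elim ((fun j => z (i, j)) - x i) 0) :=
        TRF_sub (hz2 i) (hσ2 i) rfl (sub_self _)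
      refine TRF_sub (hy2 i) h4 ?_ (sub_self _)
      funext j
      simp
    -- `H ^ m ≤ K + ∏ ψ'`
    have h5 : ∀ (N : Type) [AddCommGroup N] [Module R N], Countable N → X.In N →
        ∀ u : Fin m → ι → N, (∀ i, Sat1 H N (u i)) → ∃ p : Fin m → ι → N,
          (∀ i, Sat1 (ψ' i) N (p i)) ∧ Sat1 K N (fun a => u a.1 a.2 - p a.1 a.2) := by
      intro N _ _ hNc hN u hu
      obtain ⟨p, hp1, hp2⟩ := hx.2 L h3 N hNc hN u hu
      obtain ⟨y, hy1, hy2⟩ := (hL N hNc hN _).2 hp2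
      refine ⟨fun i j => u i j - y (i, j), fun i => ?_, ?_⟩
      · refine (hψ' i N hNc hN _).1 ?_
        have h6 : Sat1 (σ i) N (Sum.elim (p i) 0) :=
          (hσ1 i N hNc hN (p i) 0).2.1 (hp1 i) (Sat1.zero θ)
        refine TRF_add (hy2 i) h6 ?_ (add_zero _)
        funext j
        simp only [Pi.add_apply, Pi.sub_apply]
        abel
      · have h7 : (fun a : Fin m × ι => u a.1 a.2 - (u a.1 a.2 - y (a.1, a.2))) = y := by
          funext a
          simp
        rw [h7]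
        exact hy1
    refine hSUP ι ψ H hD.le hD.hol m ψ' ?_ ?_ ?_ K h5 N hNc hN u hu
    · intro i N _ _ hNc hN p hp
      exact (hψ' i N hNc hN p).1 ((hσ1 i N hNc hN p 0).2.1 hp (Sat1.zero θ))
    · intro i N _ _ hNc hN p hp
      exact ((hσ1 i N hNc hN p 0).1 ((hψ' i N hNc hN p).2 hp)).1
    · intro i hle
      refine hσ3 i ?_
      intro N _ _ hNc hN p hp
      exact (hψ' i N hNc hN p).2 (hle N hNc hN p hp)
  · -- its members are dependent over `c`
    intro i hI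
    refine hσ3 i ?_
    intro N _ _ hNc hN p hp
    obtain ⟨q, t, hq, ht, h8⟩ := hI (σ i) (hz' i) N hNc hN p 0 hp (Sat1.zero Hc)
    have h9 : Sat1 (σ i) N (Sum.elim q t) := (hσ1 i N hNc hN q t).2.1 hq ht
    exact TRF_add h8 h9 (by abel) (by abel)

end Pool.Agent.VMF.H31
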