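import Pool.Agent.VMF.H31_GLD
import Pool.Agent.VMF.H31_LAT
import Pool.Agent.VMF.H31_SUP
import Pool.Agent.VMF.H31_DEP
import Pool.Agent.VMF.H31_BND
import Pool.Agent.VMF.H31_ADJ
import Pool.Agent.VMF.H31_TRF
import Pool.Agent.VMF.H31_CNT
import Pool.Agent.VMF.H31_EX
import Pool.Agent.VMF.H31_H
import Pool.Agent.VMF.H31_END

/-!
# VMF: the homogeneity theorem for an arbitrary class of modules

`T1F K` (no infinite coindependent sequence) and `UMLF K` (each tuple of a countable member of `K` is exact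
for a level-one formula) imply that countable members of `K` with the same exact level-one formulas are
isomorphic.
-/

set_option autoImplicit false
set_option linter.unusedSectionVars false
set_option linter.unusedVariables false

namespace Pool.Agent.VMF

open Set Pool.Agent.MVC Kl

section

variable {R : Type} [Ring R] (K : Kl R)

/-- (T1') for `K`: there is no infinite sequence `W i < D` with `W i + (W 0 ∧ ... ∧ W (i-1)) = D` (in the
form of `MVC.St_TOP`) -/
def T1F : Prop :=
  ∀ (n : ℕ) (D : L1 R (Fin n)) (W : ℕ → L1 R (Fin n)), (∀ i, K.Le1 (W i) D) →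
    (∀ i, ¬ K.Le1 D (W i)) →
    (∀ i, ∀ (M : Type) [AddCommGroup M] [Module R M], Countable M → K.In M → ∀ x : Fin n → M,
      Sat1 D M x → ∃ w : Fin n → M, Sat1 (W i) M w ∧ ∀ l < i, Sat1 (W l) M (x - w)) → False

/-- (UML) for `K`: every tuple is exact for a level-one formula -/
def UMLF : Prop :=
  ∀ (M : Type) [AddCommGroup M] [Module R M], Countable M → K.In M →
    ∀ (n : ℕ) (a : Fin n → M), ∃ V : L1 R (Fin n), K.Exact V M a

/-- the conclusion: countable members with the same exact formulas are isomorphic -/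
def ISOF : Prop :=
  ∀ (M N : Type) [AddCommGroup M] [Module R M] [AddCommGroup N] [Module R N],
    Countable M → Countable N → K.In M → K.In N →
    (∀ (n : ℕ) (D : L1 R (Fin n)), (∃ x : Fin n → M, K.Exact D M x) ↔
      ∃ x : Fin n → N, K.Exact D N x) → Nonempty (M ≃ₗ[R] N)

variable {K}

theorem T1F.t1 (h : T1F K) : H31.T1' K := by
  intro ι _ D W hle hnle hco
  obtain ⟨n, ⟨e⟩⟩ := Finite.exists_equiv_fin ι
  refine h n (ren1 e D) (fun i => ren1 e (W i)) ?_ ?_ ?_
  · intro i M _ _ hc hM x hx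
    rw [sat1_ren1] at hx ⊢
    exact hle i M hc hM _ hx
  · intro i hi
    refine hnle i fun M _ _ hc hM x hx => ?_
    have h1 := hi M hc hM (x ∘ e.symm)
    rw [sat1_ren1, sat1_ren1] at h1
    have h2 : (x ∘ e.symm) ∘ e = x := by
      funext i
      simp
    rw [h2] at h1
    exact h1 hx
  · intro i M _ _ hc hM x hx
    rw [sat1_ren1] at hx
    obtain ⟨y, hy, hyD, hyW⟩ := hco i M hc hM _ hx
    refine ⟨x - y ∘ e.symm, ?_, fun l hl => ?_⟩
    · rw [sat1_ren1]
      have h2 : (x - y ∘ e.symm) ∘ e = x ∘ e - y := by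
        funext i
        simp
      rw [h2]
      exact hy
    · rw [sat1_ren1]
      have h2 : (x - (x - y ∘ e.symm)) ∘ e = y := by
        funext i
        simp
      rw [h2]
      exact hyW l hl

theorem exact_ren1 {ι κ : Type} (e : κ ≃ ι) (V : L1 R κ) {M : Type} [AddCommGroup M]
    [Module R M] (x : ι → M) : K.Exact (ren1 e V) M x ↔ K.Exact V M (x ∘ e) := by
  constructor
  · rintro ⟨h1, h2⟩
    refine ⟨(sat1_ren1 e V x).mp h1, fun W hW N _ _ hc hN y hy => ?_⟩
    have h3 := h2 (ren1 e W) ((sat1_ren1 e W x).mpr hW) N hc hN (y ∘ e.symm)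
    rw [sat1_ren1, sat1_ren1] at h3
    have h4 : (y ∘ e.symm) ∘ e = y := by
      funext i
      simp
    rw [h4] at h3
    exact h3 hy
  · rintro ⟨h1, h2⟩
    refine ⟨(sat1_ren1 e V x).mpr h1, fun W hW N _ _ hc hN y hy => ?_⟩
    rw [sat1_ren1] at hy
    have h3 := h2 (ren1 e.symm W) (by
      rw [sat1_ren1]
      have h4 : (x ∘ e) ∘ e.symm = x := by
        funext i
        simp
      rw [h4]
      exact hW) N hc hN (y ∘ e) hy
    rw [sat1_ren1] at h3
    have h4 : (y ∘ e) ∘ e.symm = y := by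
      funext i
      simp
    rw [h4] at h3
    exact h3

theorem UMLF.uml (h : UMLF K) : H31.UML K := by
  intro M _ _ hc hM ι _ a
  obtain ⟨n, ⟨e⟩⟩ := Finite.exists_equiv_fin ι
  obtain ⟨V, hV⟩ := h M hc hM n (a ∘ e.symm)
  refine ⟨ren1 e.symm V, ?_⟩
  rw [exact_ren1]
  exact hV

theorem thm_ISO (h1 : T1F K) (h2 : UMLF K) : ISOF K := by
  intro M N _ _ _ _ hMc hNc hM hN hex
  have hT1 : H31.T1' K := h1.t1
  have hU : H31.UML K := h2.uml
  have hHol : H31.HolP K := H31.thm_HOL hT1 H31.thm_HLW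
  have hGDM : H31.StGDM K := H31.thm_GDM
  have hCnt : H31.CntP K := H31.thm_CNT hT1 H31.thm_GLD hGDM H31.thm_DEP (H31.thm_SUP K)
    (H31.thm_BND K) (H31.thm_ADJ K) H31.thm_TRF
  have hEx : H31.ExP K := H31.thm_EX hT1 hHol hCnt
  exact H31.thm_END hU (H31.thm_H hEx) M hMc hM N hNc hN hex

end

end Pool.Agent.VMF
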