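import Pool.Agent.VMF.Tool
import Pool.Agent.VMF.ISO

/-!
# VMF: few types, few ages, the final count (helper23)

`FewT R U`: over all countable models of the theory of `U` there are countably many positive primitive types
of tuples, level-one types of tuples, ages of tuples, sets of realised ages.  `thm_FEW` proves it from
`¬ PerfMod`; `thm_CT`: together with the homogeneity theorem there are countably many models.
-/

set_option autoImplicit false
set_option linter.unusedSectionVars false
set_option linter.unusedVariables false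

namespace Pool.Agent.VMF

open Set Pool.Agent.MVC FirstOrder

section

variable {R : Type} [Ring R] {ι κ : Type}

/-- the age of a tuple: the positive primitive types of its finite extensions -/
def age (M : Type) [AddCommGroup M] [Module R M] (a : ι → M) :
    Set ((k : ℕ) × Set (PP R (ι ⊕ Fin k))) :=
  {σ | ∃ c : Fin σ.1 → M, pp M (Sum.elim a c) = σ.2}

/-- the ages realised in a module -/
def ages (R : Type) [Ring R] (M : Type) [AddCommGroup M] [Module R M] :
    Set ((n : ℕ) × Set ((k : ℕ) × Set (PP R (Fin n ⊕ Fin k)))) :=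
  {σ | ∃ a : Fin σ.1 → M, age M a = σ.2}

end

/-- few types over the countable models of the theory of `U` -/
structure FewT (R : Type) [Ring R] (U : Type) [AddCommGroup U] [Module R U] : Prop where
  few0 : ∀ (ι : Type) [Finite ι], {p : Set (PP R ι) | ∃ M : Md R, Countable M ∧
    Mods (Th R U) M ∧ ∃ x : ι → M, pp M x = p}.Countable
  few1 : ∀ (ι : Type) [Finite ι], {τ : Set (L1 R ι) | ∃ M : Md R, Countable M ∧
    Mods (Th R U) M ∧ ∃ x : ι → M, tp1 M x = τ}.Countable
  few2 : {Θ : Set ((n : ℕ) × Set (L1 R (Fin n))) | ∃ M : Md R, Countable M ∧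
    Mods (Th R U) M ∧ real1 M = Θ}.Countable
  few3 : ∀ (ι : Type) [Finite ι], {A : Set ((k : ℕ) × Set (PP R (ι ⊕ Fin k))) |
    ∃ M : Md R, Countable M ∧ Mods (Th R U) M ∧ ∃ a : ι → M, age M a = A}.Countable
  few4 : {Θ : Set ((n : ℕ) × Set ((k : ℕ) × Set (PP R (Fin n ⊕ Fin k)))) |
    ∃ M : Md R, Countable M ∧ Mods (Th R U) M ∧ ages R M = Θ}.Countable

/-- few types -/
def St_FEW : Prop := ∀ (R : Type) [Ring R] [Countable R] (U : Type) [AddCommGroup U] [Module R U],
  Infinite U → ModTh (Th R U) → ¬ PerfMod (Th R U) → FewT R U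

/-- the final count -/
def St_CT : Prop := ∀ (R : Type) [Ring R] [Countable R] (U : Type) [AddCommGroup U] [Module R U],
  Infinite U → ModTh (Th R U) → FewT R U → ISOF (KU R U) → CtblMod (Th R U)

section

variable {R : Type} [Ring R] {ι κ : Type}

/-- the age determines the level-one type -/
theorem tp1_of_age {M N : Type} [AddCommGroup M] [Module R M] [AddCommGroup N] [Module R N]
    {x : ι → M} {y : ι → N} (h : age (R := R) M x = age (R := R) N y) :
    tp1 (R := R) M x = tp1 (R := R) N y := by
  have key : ∀ {M N : Type} [AddCommGroup M] [Module R M] [AddCommGroup N] [Module R N]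
      {x : ι → M} {y : ι → N}, age (R := R) M x = age (R := R) N y →
      ∀ V : L1 R ι, Sat1 V M x → Sat1 V N y := by
    intro M N _ _ _ _ x y h V hV
    obtain ⟨t, ht⟩ := hV
    have h1 : (⟨V.1, pp M (Sum.elim x t)⟩ : (k : ℕ) × Set (PP R (ι ⊕ Fin k))) ∈
        age (R := R) M x := ⟨t, rfl⟩
    rw [h] at h1
    obtain ⟨t', ht'⟩ := h1
    refine ⟨t', fun φ hφ => ?_⟩
    have h2 : φ ∈ pp M (Sum.elim x t) := ht φ hφ
    have h3 : φ ∈ pp N (Sum.elim y t') := by
      rw [ht']
      exact h2
    exact h3
  ext V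
  exact ⟨key h V, key h.symm V⟩

/-- the realised ages determine the realised level-one types -/
theorem real1_of_ages {M N : Type} [AddCommGroup M] [Module R M] [AddCommGroup N] [Module R N]
    (h : ages R M = ages R N) : real1 (R := R) M = real1 (R := R) N := by
  have key : ∀ {M N : Type} [AddCommGroup M] [Module R M] [AddCommGroup N] [Module R N],
      ages R M = ages R N → real1 (R := R) M ⊆ real1 (R := R) N := by
    rintro M N _ _ _ _ h ⟨n, τ⟩ ⟨x, hx⟩
    have h1 : (⟨n, age M x⟩ : (n : ℕ) × Set ((k : ℕ) × Set (PP R (Fin n ⊕ Fin k)))) ∈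
        ages R M := ⟨x, rfl⟩
    rw [h] at h1
    obtain ⟨y, hy⟩ := h1
    exact ⟨y, (tp1_of_age hy).trans hx⟩
  exact (key h).antisymm (key h.symm)

/-- the level-one type decides exactness -/
theorem exact_of_tp1 {X : Kl R} {D : L1 R ι} {M N : Type} [AddCommGroup M] [Module R M]
    [AddCommGroup N] [Module R N] {x : ι → M} {y : ι → N}
    (h : tp1 (R := R) M x = tp1 (R := R) N y) (hx : X.Exact D M x) : X.Exact D N y := by
  have h1 : ∀ V : L1 R ι, Sat1 V M x ↔ Sat1 V N y := fun V => by
    have h2 : V ∈ tp1 M x ↔ V ∈ tp1 N y := by rw [h]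
    exact h2
  exact ⟨(h1 D).1 hx.1, fun W hW => hx.2 W ((h1 W).2 hW)⟩

end

end Pool.Agent.VMF
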