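import Pool.Agent.VMF.Defs
import Pool.Agent.VMF.StK
import Pool.Agent.VMF.DCF
import Pool.Agent.VMF.SHR
import Pool.Agent.MVC.H31_St2

/-!
# VMF, block C: the descending chain condition, finite type, one generator (statements, helper58)

Paper: GC_VMF_helper8.md, sections 1 to 4. `X := Own R U`, `U` the countable saturated module.

All statements use the facts about `U` from the blocks T and Q only through the structures `TB U` and
`QB U`.
-/

set_option autoImplicit false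
set_option linter.unusedSectionVars false
set_option linter.unusedVariables false

namespace Pool.Agent.VMF

open Set Pool.Agent.MVC Pool.Agent.MVC.Ax

/-- the facts about the saturated module `U` which are used in this block (block T) -/
structure TB {R : Type} [Ring R] (U : Md R) : Prop where
  /-- `U` is countable -/
  ctbl : Countable U
  /-- countable saturation for positive primitive formulas and their negations over a finite tuple -/
  sat : ∀ (κ ι : Type) [Finite κ] [Finite ι] (a : κ → U) (A B : Set (PP R (κ ⊕ ι))),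
    (∀ s t : Finset (PP R (κ ⊕ ι)), ↑s ⊆ A → ↑t ⊆ B → ∃ x : ι → U,
      (∀ φ ∈ s, Sat φ U (Sum.elim a x)) ∧ ∀ ψ ∈ t, ¬ Sat ψ U (Sum.elim a x)) →
    ∃ x : ι → U, (∀ φ ∈ A, Sat φ U (Sum.elim a x)) ∧ ∀ ψ ∈ B, ¬ Sat ψ U (Sum.elim a x)
  /-- homogeneity (TF1) -/
  hom : ∀ (κ : Type) [Finite κ] (a b : κ → U), pp (R := R) U a = pp U b →
    ∃ γ : U ≃ₗ[R] U, ∀ i, γ (a i) = b i
  /-- inclusions of types are entailments -/
  ent : ∀ (ι : Type) [Finite ι] (S : Set (PP R ι)) (ψ : PP R ι),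
    (∀ x : ι → U, Re S U x → Sat ψ U x) → (Own R U).Ent S ψ
  /-- elementary submodules are models -/
  mods : ∀ M : Submodule R U, El U M → Mods (Th R U) M
  /-- models are members of the class -/
  mem : ∀ (M : Type) [AddCommGroup M] [Module R M], Mods (Th R U) M → (Own R U).In M
  /-- elementary submodules are pure -/
  pur : ∀ M : Submodule R U, El U M → ∀ (ι : Type) [Finite ι] (φ : PP R ι) (x : ι → M),
    Sat φ M x ↔ Sat φ U (fun i => (x i : U))
  /-- (TF3) honest elementary submodules over finite tuples -/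
  prb : ∀ (κ : Type) [Finite κ] (b : κ → U), ∃ (M : Submodule R U) (b' : κ → M), El U M ∧
    (∀ i, (b' i : U) = b i) ∧ (Own R U).Honest (pp U b) M b'
  /-- (TF4) generic elements of cosets of types -/
  gen4 : ∀ (κ ι : Type) [Finite κ] [Finite ι] (c : κ → U) (z : ι → U) (S : Set (PP R ι)),
    ∃ z' : ι → U, Re S U (z' - z) ∧ FIn U S (fib (R := R) U c z')
  /-- (TF6) elementary submodules have points in each class of a full type modulo a subtype of finite
  index -/
  tf6 : ∀ (M : Submodule R U), El U M → ∀ (ι : Type) [Finite ι] (S S' : Set (PP R ι)), Full U S →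
    FIn U S S' → (∀ x : ι → U, Re S' U x → Re S U x) → ∀ y : ι → U, Re S U y →
    ∃ v : ι → M, Re S M v ∧ Re S' U (fun i => (v i : U) - y i)
  /-- (TLI) models generated by a countable family: `e` is a countable family of elements of any module,
  all of whose finite parts have types which are realised in `U` -/
  tl : ∀ (ι : Type) [Countable ι] (L : Type) [AddCommGroup L] [Module R L] (e : ι → L),
    (∀ A : Finset ι, ∃ x : A → U, pp (R := R) U x = pp (R := R) L (fun i : A => e i)) →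
    ∃ (M : Md R) (c : ι → M), Countable M ∧ Mods (Th R U) M ∧
      (∀ (κ : Type) [Finite κ] (f : κ → ι), pp (R := R) M (c ∘ f) = pp L (e ∘ f)) ∧
      ∀ (l : ℕ) (b : Fin l → M) (A₀ : Finset ι), ∃ A : Finset ι, A₀ ⊆ A ∧
        ∃ θ : PP R (A ⊕ Fin l),
          (Own R U).Gen (pp (R := R) M (fun i : A => c i)) M (fun i : A => c i) b θ

/-- the facts about full types which are used in this block (block Q) -/
structure QB {R : Type} [Ring R] (U : Md R) : Prop where
  /-- formulas are full -/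
  fuf : ∀ (κ : Type) [Finite κ] (χ : PP R κ), Full (R := R) U {χ}
  /-- subtypes of finite index are full -/
  fui : ∀ (κ : Type) [Finite κ] (S S' : Set (PP R κ)), Full U S → FIn U S S' →
    (∀ x : κ → U, Re S' U x → Re S U x) → Full U S'
  /-- products are full -/
  fup : ∀ (κ ι : Type) [Finite κ] [Finite ι] (S : Set (PP R κ)) (S' : Set (PP R ι)), Full U S →
    Full U S' → Full U (ren Sum.inl '' S ∪ ren Sum.inr '' S')
  /-- retracts (modulo null maps) are full -/
  rff : ∀ (κ ι : Type) [Finite κ] [Finite ι] (S : Set (PP R κ)) (S' : Set (PP R ι)) (N N' : Md R)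
    (g : κ → N) (g' : ι → N'), Full U S → (Own R U).Honest S N g → (Own R U).Honest S' N' g' →
    (Own R U).Retr N' N → Full U S'
  /-- images are full -/
  fut : ∀ (κ ι : Type) [Finite κ] [Finite ι] (S : Set (PP R κ)) (θ : PP R (κ ⊕ ι))
    (S' : Set (PP R ι)), Full U S → (∀ x : κ → U, Re S U x → ∃ y : ι → U, Sat θ U (Sum.elim x y)) →
    (∀ y : ι → U, Re S' U y ↔ ∃ x : κ → U, Re S U x ∧ Sat θ U (Sum.elim x y)) → Full U S'
  /-- full types of finite index in each other have isomorphic honest modules -/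
  qis : ∀ (κ : Type) [Finite κ] (S S' : Set (PP R κ)) (N N' : Md R) (g : κ → N) (g' : κ → N'),
    Full U S → FIn U S S' → (∀ x : κ → U, Re S' U x → Re S U x) → (Own R U).Honest S N g →
    (Own R U).Honest S' N' g' → ∀ ρ : N →ₗ[R] N', (∀ i, ρ (g i) = g' i) →
    ∃ j : N' →ₗ[R] N, (Own R U).Eqv (j ∘ₗ ρ) LinearMap.id ∧ (Own R U).Eqv (ρ ∘ₗ j) LinearMap.id

/-! ### Section 1: chains -/

/-- the generators of the stages `≤ k` -/
abbrev Jk (n : ℕ → ℕ) (k : ℕ) : Type := {p : Si n // p.1 ≤ k}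

instance (n : ℕ → ℕ) (k : ℕ) : Finite (Jk n k) := by
  refine Finite.of_injective (β := (j : Fin (k + 1)) × Fin (n j))
    (fun p => ⟨⟨p.1.1, Nat.lt_succ_of_le p.2⟩, p.1.2⟩) ?_
  rintro ⟨⟨i, x⟩, hi⟩ ⟨⟨j, y⟩, hj⟩ h
  simp only [Sigma.mk.injEq, Fin.mk.injEq] at h
  obtain ⟨rfl, h2⟩ := h
  rw [heq_eq_eq] at h2
  subst h2
  rfl

/-- the inclusion -/
def uJ (n : ℕ → ℕ) (k l : ℕ) (h : k ≤ l) : Jk n k → Jk n l := fun p => ⟨p.1, le_trans p.2 h⟩

/-- the inclusion of the new block -/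
def nJ (n : ℕ → ℕ) (k : ℕ) : Fin (n k) → Jk n k := fun i => ⟨⟨k, i⟩, le_rfl⟩

/-- An honest module is honest for the type of each finite tuple which contains the generators.
`θ(g; ĝ, b)` from `Honest.gen` for the tuple `(ĝ, b)`; replace `g` by `ĝ ∘ f`. -/
def St_HNX : Prop := ∀ (R : Type) [Ring R] (X : Ax R) (ι κ : Type) [Finite ι] [Finite κ]
  (S : Set (PP R ι)) (N : Md R) (g : ι → N) (g' : κ → N) (f : ι → κ), (∀ i, g' (f i) = g i) →
  X.Honest S N g → X.Honest (pp N g') N g'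

/-- 1.1 normal form of a chain. `ĝ 0 := g 0`; `ĝ (k+1) ⟨⟨i, x⟩, h⟩ := if i ≤ k then a k (ĝ k ..)
else g (k+1) ..`. Honest: `St_HNX` with `f = nJ n k`. -/
def St_NFC : Prop := ∀ (R : Type) [Ring R] (X : Ax R) (n : ℕ → ℕ)
  (S : ∀ k, Set (PP R (Fin (n k)))) (N : ℕ → Md R) (g : ∀ k, Fin (n k) → N k)
  (a : ∀ k, N k →ₗ[R] N (k + 1)), (∀ k, X.Honest (S k) (N k) (g k)) →
  ∃ g' : ∀ k, Jk n k → N k, (∀ k i, g' k (nJ n k i) = g k i) ∧
    (∀ k p, a k (g' k p) = g' (k + 1) (uJ n k (k + 1) (Nat.le_succ k) p)) ∧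
    ∀ k, X.Honest (pp (N k) (g' k)) (N k) (g' k)

/-- the limit type of a chain in the variables of stage `k` -/
def Gam {R : Type} [Ring R] (U : Type) [AddCommGroup U] [Module R U] {J : ℕ → Type}
    (u : ∀ k l : ℕ, k ≤ l → J k → J l) (p : ∀ k, Set (PP R (J k))) (k : ℕ) : Set (PP R (J k)) :=
  {ρ | ∃ (l : ℕ) (h : k ≤ l), ∀ x : J l → U, Re (p l) U x → Sat ρ U (x ∘ u k l h)}

/- 1.2 shrinking a chain to a connected one: `shrink` in SHR.lean (helper65). -/

/-! ### Section 2: coding models -/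

/-- 2.1 (REAL, finite parts; helper65). A connected chain of honest modules `(Y k, g k)` for `p k`, an
elementary submodule `M`, maps `c k e : Y k → M`. Each finite part of the family of the elements of `M` and
of the generators of the stages in the coding module has a type which is realised in `U`.

Proof. Let `k` be larger than all stages of the finite part; all its elements are
`inM w + inY σ k (g k i)`; so it is enough to realise the type of `(inM m, inY k (g k))` for a finite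
tuple `m` of `M`. By `St_COS` (MVC) and `sat_prod`: `φ(inM m, inY k (g k))` holds in `Λ.L σ` iff for some `j`
`Sat φ M (m, w_j)` and `Sat φ (Y (k+j)) (0, g (k+j) ∘ u)`, where
`itr t k j (0, g k) = (w_j, g (k+j) ∘ u)`; the second condition says that `zer φ` follows from `p (k+j)` at
`x ∘ u` (`gen0`). True at `j` implies true at `j + 1`. `TB.sat` for the parameters `m`, `A` = the true
formulas, `B` = the false ones: given finite `s ⊆ A`, `t ⊆ B` take `j` such that all `φ ∈ s` are true at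
`j`, and for the `ρ ∈ t` with `zer ρ ∈ Gam` also `zer ρ` follows from `p (k+j)`; then `ρ(m, w_j)` is false in
`M`, so in `U` (pure). For the other `ρ ∈ t` the group of `zer ρ` has infinite index in the group of `Gam`
(`Conn`). By Neumann's lemma some `y` in the group of `Gam` (at stage `k`) has `¬ ρ(m, w_j + y)` for
all these `ρ`. `x := w_j + y`. -/
def St_REA : Prop := ∀ (R : Type) [Ring R] [Countable R] (U : Md R), TB U →
  ∀ (n : ℕ → ℕ) (u : ∀ k l : ℕ, k ≤ l → Fin (n k) → Fin (n l))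
  (p : ∀ k, Set (PP R (Fin (n k)))) (Y : ℕ → Md R) (g : ∀ k, Fin (n k) → Y k)
  (a : ∀ k, Y k →ₗ[R] Y (k + 1)),
  (∀ k (h : k ≤ k) i, u k k h i = i) →
  (∀ k l m (h : k ≤ l) (h' : l ≤ m) i, u l m h' (u k l h i) = u k m (h.trans h') i) →
  (∀ k, (Own R U).Honest (p k) (Y k) (g k)) →
  (∀ k i, a k (g k i) = g (k + 1) (u k (k + 1) (Nat.le_succ k) i)) → (∀ k, Conn U (Gam U u p k)) →
  ∀ (M : Submodule R U) (c : ∀ k, ℕ → (Y k →ₗ[R] M)) (c0 : ∀ k, c k 0 = 0), El U M →
  ∀ (Λ : (⟨⟨M⟩, Y, a, c, c0⟩ : Sys R).Lim) (σ : ℕ → ℕ) (A : Finset (M ⊕ Si n)),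
  ∃ x : A → U, pp (R := R) U x = pp (Λ.L σ) (fun i : A =>
    (Sum.elim (fun m => Λ.inM σ m) (fun q => Λ.inY σ q.1 (g q.1 q.2)) : M ⊕ Si n → Λ.L σ) i)

/-- 2.1 and 3.2, the hypothesis of `St_DCF`. `Y k` honest for `p k` with generators indexed by `Fin (n k)`;
the chain is connected. `M` an elementary submodule, honest for `T`.

Proof. `Λ` from `St_COL`. Fix `σ`. `ι := M ⊕ Si n` (countable), `e : ι → Λ.L σ` is `inM σ` on `M` and
`⟨k, i⟩ ↦ inY σ k (g k i)`. The type of each finite part of `e` is realised in `U`: `St_REA`. `TB.tl` gives a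
model `N σ` and `c : ι → N σ`. `F σ := tp1 (N σ)` of the tuple
`(c q, c (0, ·))`. (a) `FewT.few1`. (b) Let `Sat1 V (N σ) (..)` with witness `t`. There are a finite `A` which
contains the indices of `q` and of stage `0` and `θ` with `Gen (pp ..) (N σ) (c|A) t θ`. In
`Λ.L σ` (a member of the class, `St_MSG`) the tuple `e|A` has the same type; so there is `t'` with
`θ(e|A, t')`, and `Gen` gives `Re V (..)`. (c) the types of finite subfamilies of `e` and `c` are equal. -/
def St_DCH : Prop := ∀ (R : Type) [Ring R] [Countable R] (U : Md R), TB U → FewT R U →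
  ∀ (n : ℕ → ℕ) (u : ∀ k l : ℕ, k ≤ l → Fin (n k) → Fin (n l))
  (p : ∀ k, Set (PP R (Fin (n k)))) (Y : ℕ → Md R) (g : ∀ k, Fin (n k) → Y k)
  (a : ∀ k, Y k →ₗ[R] Y (k + 1)),
  (∀ k (h : k ≤ k) i, u k k h i = i) →
  (∀ k l m (h : k ≤ l) (h' : l ≤ m) i, u l m h' (u k l h i) = u k m (h.trans h') i) →
  (∀ k, (Own R U).Honest (p k) (Y k) (g k)) →
  (∀ k i, a k (g k i) = g (k + 1) (u k (k + 1) (Nat.le_succ k) i)) → (∀ k, Conn U (Gam U u p k)) →
  ∀ (m : ℕ) (T : Set (PP R (Fin m))) (M : Submodule R U) (q : Fin m → M), El U M →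
  (Own R U).Honest T M q →
  ∀ (c : ∀ k, ℕ → (Y k →ₗ[R] M)) (c0 : ∀ k, c k 0 = 0),
    ∃ (Λ : (⟨⟨M⟩, Y, a, c, c0⟩ : Sys R).Lim) (F : (ℕ → ℕ) → Set (L1 R (Fin m ⊕ Fin (n 0)))),
      (range F).Countable ∧
      (∀ σ, F σ ⊆ tp1 (R := R) (Λ.L σ)
        (Sum.elim (fun i => Λ.inM σ (q i)) (fun i => Λ.inY σ 0 (g 0 i)))) ∧
      ∀ (σ : ℕ → ℕ) (k : ℕ) (V : Set (PP R ((Fin m ⊕ Fin (n 0)) ⊕ Fin k))) (t : Fin k → Λ.L σ),
        (∀ i, (∃ w : M, t i = Λ.inM σ w) ∨ ∃ (j : ℕ) (i' : Fin (n j)), t i = Λ.inY σ j (g j i')) →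
        Re V (Λ.L σ) (Sum.elim (Sum.elim (fun i => Λ.inM σ (q i))
          (fun i => Λ.inY σ 0 (g 0 i))) t) →
        (⟨k, V⟩ : L1 R (Fin m ⊕ Fin (n 0))) ∈ F σ

/-! ### Section 3: the descending chain condition -/

/-- (DCC) for full types.

Proof. Normal form `g'` of the chain (`St_NFC`), `p k := pp (N k) (g' k)` (full: `QB.rff`, `N k` is a retract of
itself);
`shrink` (SHR.lean) gives `p' k`; honest modules `(Y k, y k)` for `p' k` (`MVC.St_HEX`), maps `r k : N k → Y k`,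
`g' k ↦ y k` (`St_EX0`), with inverses modulo null maps (`QB.qis`), `b k : Y k → Y (k+1)`,
`y k ↦ y (k+1) ∘ u` (`St_EX0`, the entailments `Ent (p' (k+1)) (ren u φ)`, `φ ∈ p' k`, from `TB.ent`).
The squares commute modulo null maps (`St_NUZ`, generators). `Q`: `z` in `U` with `Re T U z` and
`FIn U T (fib U Fin.elim0 z)` (`TB.gen4`), so `pp U z` has finite index in `T`; `M` from `TB.prb`;
`Q ≃ M` modulo null maps (`QB.qis`). Reindex the `J k` by `Fin (card)` (`St_REI`-like). `St_DCH` and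
`St_DCF` give `j₀` for the chain `Y` and `M`; transfer: for `c : N j → Q` apply it to
`(Q → M) ∘ c ∘ (r j)⁻¹`. -/
def St_DCT : Prop := ∀ (R : Type) [Ring R] [Countable R] (U : Md R), TB U → QB U → FewT R U →
  ∀ (n : ℕ → ℕ) (S : ∀ k, Set (PP R (Fin (n k)))) (N : ℕ → Md R) (g : ∀ k, Fin (n k) → N k)
  (a : ∀ k, N k →ₗ[R] N (k + 1)) (m : ℕ) (T : Set (PP R (Fin m))) (Q : Md R) (q : Fin m → Q),
  (∀ k, Full U (S k)) → (∀ k, (Own R U).Honest (S k) (N k) (g k)) → Full U T →
  (Own R U).Honest T Q q →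
  ∃ j₀, ∀ j ≥ j₀, ∀ c : N j →ₗ[R] Q, ∃ c' : N (j + 1) →ₗ[R] Q,
    (Own R U).Eqv (c ∘ₗ cmp a j) (c' ∘ₗ cmp a (j + 1))

/-- the endomorphism ring modulo null maps of an honest module of a full type (text of `MVC.thm_DCQ`) -/
def St_DQT : Prop := ∀ (R : Type) [Ring R] [Countable R] (U : Md R), TB U → QB U → FewT R U →
  ∀ C : Hon (Own R U), Full U C.S → DCCR (EndQ (Own R U) C.N)

/-! ### Section 4: finite type -/

/-- A sequence of generic realisations: recursion with `TB.gen4` (`z = 0`), parameters = all earlier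
ones, indexed by `{p : Si n // p.1 < k}`. -/
def St_GSQ : Prop := ∀ (R : Type) [Ring R] [Countable R] (U : Md R), TB U →
  ∀ (n : ℕ → ℕ) (S : ∀ k, Set (PP R (Fin (n k)))), ∃ y : Si n → U,
    (∀ k, Re (S k) U (fun i => y ⟨k, i⟩)) ∧
    ∀ k, FIn U (S k) (fib (R := R) U (fun p : {p : Si n // p.1 < k} => y p.1)
      (fun i => y ⟨k, i⟩))

instance finLt (n : ℕ → ℕ) (k : ℕ) : Finite {p : Si n // p.1 < k} :=
  Finite.of_injective (β := Jk n k) (fun p => ⟨p.1, le_of_lt p.2⟩)
    (fun a b h => Subtype.ext (congrArg (fun x : Jk n k => x.1) h))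

/-- the index type of the part `Z` of a sequence -/
abbrev SZ (n : ℕ → ℕ) (Z : Set ℕ) : Type := {p : Si n // p.1 ∈ Z}

instance finMem (n : ℕ → ℕ) (F : Finset ℕ) : Finite (SZ n (F : Set ℕ)) :=
  Finite.of_injective (β := Jk n (F.sup id)) (fun p => ⟨p.1, Finset.le_sup (f := id) p.2⟩)
    (fun a b h => Subtype.ext (congrArg (fun x : Jk n (F.sup id) => x.1) h))

/-- the product of the types `S k`, `k ∈ F` -/
def prodF {R : Type} [Ring R] (n : ℕ → ℕ) (S : ∀ k, Set (PP R (Fin (n k)))) (F : Set ℕ) :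
    Set (PP R (SZ n F)) :=
  {φ | ∃ (k : ℕ) (h : k ∈ F), ∃ ψ ∈ S k, φ = ren (fun i => ⟨⟨k, i⟩, h⟩) ψ}

theorem re_prodF {R : Type} [Ring R] (n : ℕ → ℕ) (S : ∀ k, Set (PP R (Fin (n k)))) (F : Set ℕ)
    {M : Type} [AddCommGroup M] [Module R M] (x : SZ n F → M) :
    Re (prodF n S F) M x ↔ ∀ (k : ℕ) (h : k ∈ F), Re (S k) M (fun i => x ⟨⟨k, i⟩, h⟩) := by
  constructor
  · intro hx k h ψ hψ
    have h1 := hx (ren (fun i => ⟨⟨k, i⟩, h⟩) ψ) ⟨k, h, ψ, hψ, rfl⟩
    rw [sat_ren] at h1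
    exact h1
  · rintro hx φ ⟨k, h, ψ, hψ, rfl⟩
    rw [sat_ren]
    exact hx k h ψ hψ

/-- products of full types are full: induction on `F`, `QB.fup`, and `QB.fut` for the reindexing (the graph
of a bijection of the variables is a formula); for `F = ∅` there are no variables, `QB.fuf`. -/
def St_PFF : Prop := ∀ (R : Type) [Ring R] [Countable R] (U : Md R), TB U → QB U →
  ∀ (n : ℕ → ℕ) (S : ∀ k, Set (PP R (Fin (n k)))) (F : Finset ℕ), (∀ k ∈ F, Full U (S k)) →
  Full U (prodF n S (F : Set ℕ))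

/-- The type of a finite part of a generic sequence has finite index in the product. Induction on `F`
(largest element `k`, `F = F' ∪ {k}`): for a subgroup `G` of `A × B` the index is at most
(index of the projection to `A`) × (index of `{b : (0, b) ∈ G}` in `B`). The projection of `pp U (y|F)` to
`F'` is `pp U (y|F')` (`TB.sat`); `{v : (0, v) ∈ pp U (y|F)}` contains the restriction of `fib` of
`St_GSQ` (put zero for the variables not in `F'`). -/
def St_GFI : Prop := ∀ (R : Type) [Ring R] [Countable R] (U : Md R), TB U →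
  ∀ (n : ℕ → ℕ) (S : ∀ k, Set (PP R (Fin (n k)))) (y : Si n → U),
  (∀ k, Re (S k) U (fun i => y ⟨k, i⟩)) →
  (∀ k, FIn U (S k) (fib (R := R) U (fun p : {p : Si n // p.1 < k} => y p.1)
      (fun i => y ⟨k, i⟩))) →
  ∀ F : Finset ℕ, FIn U (prodF n S (F : Set ℕ)) (pp (R := R) U (fun p : SZ n (F : Set ℕ) => y p.1))

/-- The honest elementary submodule over `y|F` is, modulo null maps, the product of the `N i`, `i ∈ F`.
The product `∀ i : F, N i` is honest for `prodF` (`MVC.St_HPR`/`St_HDS` with reindexing); `prodF` is full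
(`St_PFF`); `QB.qis`. -/
def St_GIS : Prop := ∀ (R : Type) [Ring R] [Countable R] (U : Md R), TB U → QB U →
  ∀ (n : ℕ → ℕ) (S : ∀ k, Set (PP R (Fin (n k)))) (N : ℕ → Md R) (g : ∀ k, Fin (n k) → N k)
  (y : Si n → U), (∀ k, Full U (S k)) → (∀ k, (Own R U).Honest (S k) (N k) (g k)) →
  ∀ F : Finset ℕ, FIn U (prodF n S (F : Set ℕ))
    (pp (R := R) U (fun p : SZ n (F : Set ℕ) => y p.1)) →
  (∀ k, Re (S k) U (fun i => y ⟨k, i⟩)) →
  ∀ (P : Md R) (b : SZ n (F : Set ℕ) → P),
    (Own R U).Honest (pp (R := R) U (fun p : SZ n (F : Set ℕ) => y p.1)) P b →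
    (Own R U).Retr P (∀ i : F, N i) ∧ (Own R U).Retr (∀ i : F, N i) P

/-- `(M, c)` is a model generated by the part `Z` of the sequence `y` of `U` -/
structure GZ {R : Type} [Ring R] (U : Md R) (n : ℕ → ℕ) (y : Si n → U) (Z : Set ℕ) (M : Md R)
    (c : SZ n Z → M) : Prop where
  ctbl : Countable M
  mods : Mods (Th R U) M
  pp_eq : ∀ (κ : Type) [Finite κ] (f : κ → SZ n Z),
    pp (R := R) M (c ∘ f) = pp U (fun i => y (f i).1)
  gen : ∀ (l : ℕ) (b : Fin l → M) (A₀ : Finset (SZ n Z)), ∃ A : Finset (SZ n Z), A₀ ⊆ A ∧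
    ∃ θ : PP R (A ⊕ Fin l),
      (Own R U).Gen (pp (R := R) U (fun i : A => y i.1.1)) M (fun i : A => c i) b θ

/-- The model generated by the part `Z` of a sequence in `U`: `TB.tl` for `ι = SZ n Z`, `L = U`,
`e p = y p.1`. -/
def St_MDZ : Prop := ∀ (R : Type) [Ring R] [Countable R] (U : Md R), TB U →
  ∀ (n : ℕ → ℕ) (y : Si n → U) (Z : Set ℕ), ∃ (M : Md R) (c : SZ n Z → M), GZ U n y Z M c

/-- 4.1, the level-one type of `y k` in a model generated by a part `Z` containing `k`: it is the one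
in the honest module over `y k`. Proof. `⊇`: the map `P → M`, `b ↦ c_k` (`St_EX0`, `Sat1.map`).
`⊆`: `Sat1 V M c_k` with witness `t`; take a finite `A ⊆ SZ n Z` which contains the block `k` and `θ` with
`Gen (pp ..) M (c|A) t θ` (`GZ.gen`). `F :=` the set of the first coordinates of `A`. By `TB.tf6` for the
full type `prodF (F \ {k})` (`St_PFF`) and the subtype `{v : (0_k, v) ∈ pp U (y|F)}` (finite index, since
`pp U (y|F)` has finite index in `prodF F`) there is `v` in `P` with `(y_k, v) - y_F` in `pp U (y|F)`: so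
`(y_k, v)` realises `pp U (y|F)` in `U`, so in `P` (pure), its part `A` realises `pp U (y|A)`, and there is
`t'` in `P` with `θ((y_k, v)|A; t')`; `Gen` for the formulas of `V`. -/
def St_FT1 : Prop := ∀ (R : Type) [Ring R] [Countable R] (U : Md R), TB U → QB U →
  ∀ (n : ℕ → ℕ) (S : ∀ k, Set (PP R (Fin (n k)))) (y : Si n → U), (∀ k, Full U (S k)) →
  (∀ k, Re (S k) U (fun i => y ⟨k, i⟩)) →
  (∀ F : Finset ℕ, FIn U (prodF n S (F : Set ℕ))
    (pp (R := R) U (fun p : SZ n (F : Set ℕ) => y p.1))) →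
  ∀ (Z : Set ℕ) (M : Md R) (c : SZ n Z → M), GZ U n y Z M c →
  ∀ (k : ℕ) (hk : k ∈ Z) (P : Submodule R U) (b : Fin (n k) → P), El U P →
    (∀ i, (b i : U) = y ⟨k, i⟩) →
    (Own R U).Honest (pp (R := R) U (fun i : Fin (n k) => y ⟨k, i⟩)) P b →
    tp1 (R := R) M (fun i => c ⟨⟨k, i⟩, hk⟩) = tp1 P b

/-- 4.1, the other half: if some tuple `x` of `M` has the level-one type of `y k` in the honest module
`P` over `y k`, then `P` is a retract of the honest module `PF` over `y|F` for some finite `F ⊆ Z`.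
Proof. `A`, `θ` with `Gen (pp U (y|A)) M (c|A) x θ` (`GZ.gen`, `A₀ = ∅`); `F :=` the set of the first
coordinates of `A`. In `PF` there is `x'` with `θ(bF|A, x')`. `f : P → PF`, `b ↦ x'` (`St_EX0`; `x'` realises
`pp M x = pp P b`). The level-one formula `∃ v, (pp U (y|F))(v) ∧ θ(v|A, ·)` holds at `x`, so at `b` in `P`:
`v` in `P`. `h : PF → P`, `bF ↦ v`. `h x' - b` satisfies `θ(0, ·)`, which is `≤` all of `pp P b`: `St_NUP`. -/
def St_FT2 : Prop := ∀ (R : Type) [Ring R] [Countable R] (U : Md R), TB U →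
  ∀ (n : ℕ → ℕ) (y : Si n → U) (Z : Set ℕ) (M : Md R) (c : SZ n Z → M), GZ U n y Z M c →
  ∀ (k : ℕ) (P : Md R) (b : Fin (n k) → P),
    (Own R U).Honest (pp (R := R) U (fun i : Fin (n k) => y ⟨k, i⟩)) P b →
    ∀ x : Fin (n k) → M, tp1 (R := R) M x = tp1 P b →
    ∃ F : Finset ℕ, (F : Set ℕ) ⊆ Z ∧ ∀ (PF : Md R) (bF : SZ n (F : Set ℕ) → PF),
      (Own R U).Honest (pp (R := R) U (fun p : SZ n (F : Set ℕ) => y p.1)) PF bF →
      (Own R U).Retr P PF

/-- 4.1 (FT) for full types: in each sequence of full honest modules one of them is a retract, modulo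
null maps, of a finite product of others.

Proof. Suppose not. `y` from `St_GSQ`, finite index from `St_GFI`. For `Z ⊆ ℕ` let `(M Z, c)` be the model
from `St_MDZ`. `k ∈ Z` iff `(n k, tp1 (P k) (b k)) ∈ real1 (M Z)`, `(P k, b k)` the honest elementary
submodule over `y k` (`TB.prb`): `St_FT1`; and `St_FT2`: `P k` is a retract of `PF`, `F ⊆ Z` finite, `PF`
from `TB.prb`, `PF` a retract of `∀ i : F, N i` (`St_GIS`), and `N k` a retract of `P k` (`QB.qis` with
`FIn U (S k) (pp U (y k))`, a consequence of the finite index of the fibre type in `St_GSQ`). So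
`Z ↦ real1 (M Z)` is injective, against `FewT.few2`. -/
def St_FNT : Prop := ∀ (R : Type) [Ring R] [Countable R] (U : Md R), TB U → QB U → FewT R U →
  ∀ Z : ℕ → Hon (Own R U), (∀ k, Full U (Z k).S) →
  ∃ (k : ℕ) (F : Finset ℕ), k ∉ F ∧ (Own R U).Retr (Z k).N (∀ i : F, (Z i).N)

/-- 5.3 (c) of the MVC paper for a class of honest modules (text of `MVC.thm_GEN`; `Pr` is closed under
finite products; retracts of members are members). -/
def St_GNP : Prop := ∀ (R : Type) [Ring R] [Countable R] (X : Ax R) (Pr : Hon X → Prop),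
  (∀ (r : ℕ) (A : Fin r → Hon X), (∀ i, Pr (A i)) →
    ∃ C : Hon X, Pr C ∧ Nonempty (C.N ≃ₗ[R] ∀ i, (A i).N)) →
  (∀ Z : ℕ → Hon X, (∀ k, Pr (Z k)) →
    ∃ (k : ℕ) (F : Finset ℕ), k ∉ F ∧ X.Retr (Z k).N (∀ i : F, (Z i).N)) →
  (∀ C : Hon X, Pr C → ∃ (m : ℕ) (A : Fin m → Hon X) (ρ : ∀ i, C.N →ₗ[R] (A i).N)
    (ι : ∀ i, (A i).N →ₗ[R] C.N), (∀ i, Pr (A i)) ∧ (∀ i, Loc (A i)) ∧
    (∀ i, X.Eqv (ρ i ∘ₗ ι i) LinearMap.id) ∧ X.Eqv (∑ i, ι i ∘ₗ ρ i) LinearMap.id) →
  ∃ Y : Hon X, Pr Y ∧ ∀ C : Hon X, Pr C → ∃ r : ℕ, X.Retr C.N (Fin r → Y.N)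

/-- Finite products of full honest modules have full honest presentations. Induction on `r` as in
`MVC.thm_HPI`: the product of two (`MVC.St_HPR`, type full by `QB.fup`), reindexed by `Fin` (`MVC.St_REI`), full
by `QB.rff` (it is a retract of itself); `r = 0`: the trivial module, all formulas in no variables
(`full_formula`-like, `QB.fuf` and `QB.fui`). -/
def St_HPF : Prop := ∀ (R : Type) [Ring R] [Countable R] (U : Md R), TB U → QB U →
  ∀ (r : ℕ) (A : Fin r → Hon (Own R U)), (∀ i, Full U (A i).S) →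
  ∃ C : Hon (Own R U), Full U C.S ∧ Nonempty (C.N ≃ₗ[R] ∀ i, (A i).N)

/-- The conclusion of the block: the chain condition and one full generator `Y`.
(`St_DQT`; `St_GNP` with `Pr C := Full U C.S`: products `St_HPF`; finite type `St_FNT`; decomposition
`MVC.thm_DEC` with `QB.rff`.) -/
def St_GNT : Prop := ∀ (R : Type) [Ring R] [Countable R] (U : Md R), TB U → QB U → FewT R U →
  (∀ C : Hon (Own R U), Full U C.S → DCCR (EndQ (Own R U) C.N)) ∧
  ∃ Y : Hon (Own R U), Full U Y.S ∧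
    ∀ C : Hon (Own R U), Full U C.S → ∃ r : ℕ, (Own R U).Retr C.N (Fin r → Y.N)

end Pool.Agent.VMF
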