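import Pool.Agent.VMF.REAL
import Pool.Agent.VMF.StC
import Pool.Agent.MVC.COL
import Pool.Agent.MVC.MSG

/-!
# VMF: the coding modules and their replacement by models (2.1, 3.2)
-/

set_option autoImplicit false
set_option linter.unusedSectionVars false
set_option linter.unusedVariables false

namespace Pool.Agent.VMF

open Set Pool.Agent.MVC Pool.Agent.MVC.Ax

section

variable {R : Type} [Ring R] {U : Md R}

theorem own_mem (U : Md R) : (Own R U).In U := fun a ha => ha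

theorem TB.satu (h : TB U) : SATU U := by
  classical
  intro ι _ A B hAB
  obtain ⟨x, h1, h2⟩ := h.sat Empty ι (fun i => i.elim) (ren Sum.inr '' A) (ren Sum.inr '' B) (by
    intro s t hs ht
    obtain ⟨s', hs', rfl⟩ := Finset.subset_set_image_iff.1 hs
    obtain ⟨t', ht', rfl⟩ := Finset.subset_set_image_iff.1 ht
    obtain ⟨x, h1, h2⟩ := hAB s' t' hs' ht'
    refine ⟨x, fun φ hφ => ?_, fun φ hφ => ?_⟩
    · obtain ⟨φ', hφ', rfl⟩ := Finset.mem_image.1 hφ
      rw [sat_ren]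
      exact h1 φ' hφ'
    · obtain ⟨φ', hφ', rfl⟩ := Finset.mem_image.1 hφ
      rw [sat_ren]
      exact h2 φ' hφ')
  refine ⟨x, fun φ hφ => ?_, fun φ hφ hs => ?_⟩
  · have h3 := h1 _ ⟨φ, hφ, rfl⟩
    rwa [sat_ren] at h3
  · refine h2 _ ⟨φ, hφ, rfl⟩ ?_
    rw [sat_ren]
    exact hs

/-- the dictionary for honest modules -/
theorem TB.dic (h : TB U) {ι κ : Type} [Finite ι] [Finite κ] (S : Set (PP R ι)) (N : Type)
    [AddCommGroup N] [Module R N] (g : ι → N) (hN : (Own R U).Honest S N g) (f : κ → ι)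
    (ρ : PP R κ) :
    Sat ρ N (g ∘ f) ↔ ∀ x : ι → U, Re S U x → Sat ρ U (x ∘ f) := by
  constructor
  · intro hs x hx
    rw [← sat_ren] at hs
    rw [← sat_ren]
    exact (hN.gen0 _ hs).sat (own_mem U) hx
  · intro hs
    rw [← sat_ren]
    refine (h.ent ι S (ren f ρ) fun x hx => ?_).sat hN.mem hN.sat
    rw [sat_ren]
    exact hs x hx

end

/-- REA. -/
theorem thm_REA : St_REA := by
  intro R _ _ U hU n u p Y g a hu0 hu hY hag hC M c c0 hM Λ σ A
  let C : Chn U := ⟨n, p, Y, g, a, u, hu0, hu, hag, fun k l h ρ => hU.dic (p l) (Y l) (g l) (hY l) _ ρ⟩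
  exact C.real thm_COS hU.satu hC (M := ⟨M⟩) M.subtype
    (fun ι _ φ x => (hU.pur M hM ι φ x).symm) c c0 Λ σ A (fun i => i.1)

/-- DCH. -/
theorem thm_DCH (hR : St_REA) : St_DCH := by
  classical
  intro R _ _ U hU hF n u p Y g a hu0 hu hY hag hC m T M q hM hq c c0
  let D : Sys R := ⟨⟨M⟩, Y, a, c, c0⟩
  choose L of hL using fun σ => thm_COL R D.G (D.t σ)
  let Λ : D.Lim := ⟨L, of, hL⟩
  have hUc := hU.ctbl
  have hMc : Countable M := inferInstance
  have hL1 : ∀ σ, (Own R U).In (Λ.L σ) :=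
    ((thm_MSG thm_COS) R D Λ).2.2.1 (Own R U) hq.mem fun k => (hY k).mem
  -- the elements
  let x : ∀ σ : ℕ → ℕ, M ⊕ Si n → Λ.L σ := fun σ =>
    Sum.elim (fun m => Λ.inM σ m) (fun p => Λ.inY σ p.1 (g p.1 p.2))
  choose N z hN1 hN2 hN3 hN4 using fun σ => hU.tl (M ⊕ Si n) (Λ.L σ) (x σ)
    (fun A => hR R U hU n u p Y g a hu0 hu hY hag hC M c c0 hM Λ σ A)
  let f0 : Fin m ⊕ Fin (n 0) → M ⊕ Si n :=
    Sum.elim (fun i => Sum.inl (q i)) (fun i => Sum.inr ⟨0, i⟩)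
  have hf0 : ∀ σ, (fun i => x σ (f0 i)) =
      Sum.elim (fun i => Λ.inM σ (q i)) (fun i => Λ.inY σ 0 (g 0 i)) := by
    intro σ
    funext i
    rcases i with i | i <;> rfl
  refine ⟨Λ, fun σ => tp1 (R := R) (N σ) (fun i => z σ (f0 i)), ?_, fun σ => ?_, ?_⟩
  · -- countable
    refine (hF.few1 (Fin m ⊕ Fin (n 0))).mono ?_
    rintro _ ⟨σ, rfl⟩
    exact ⟨N σ, hN1 σ, hN2 σ, _, rfl⟩
  · -- the facts of the model hold in the coding module
    rintro V ⟨t, ht⟩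
    obtain ⟨A, hA, θ, hθ, hθ2⟩ := hN4 σ V.1 t (Finset.univ.image f0)
    have hA' : ∀ i, f0 i ∈ A := fun i => hA (Finset.mem_image_of_mem f0 (Finset.mem_univ i))
    have hpp : pp (R := R) (N σ) (fun i : A => z σ i) =
        pp (R := R) (Λ.L σ) (fun i : A => x σ i) := hN3 σ (A) (fun i => i.1)
    -- solvability
    obtain ⟨θ', hθ'⟩ := (isPP_sat θ).ex
    have h1 : θ' ∈ pp (R := R) (N σ) (fun i : A => z σ i.1) :=
      (hθ' (N σ) _).1 ⟨t, hθ⟩
    rw [hpp] at h1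
    obtain ⟨t', ht'⟩ := (hθ' (Λ.L σ) (fun i : A => x σ i.1)).2 h1
    rw [← hf0 σ]
    refine ⟨t', fun φ hφ => ?_⟩
    have h2 := ht φ hφ
    have h3 : (Sum.elim (fun i => z σ (f0 i)) t : (Fin m ⊕ Fin (n 0)) ⊕ Fin V.1 → N σ) =
        Sum.elim (fun i : A => z σ i.1) t ∘
          Sum.map (fun i => (⟨f0 i, hA' i⟩ : A)) id := by
      funext i
      rcases i with i | i <;> rfl
    rw [h3, ← sat_ren] at h2
    obtain ⟨s, hs1, hs2⟩ := hθ2 _ h2
    have h4 := hs2 (Λ.L σ) (hL1 σ) (fun i : A => x σ i.1) t' (fun φ hφ => by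
      have h5 : φ ∈ pp (R := R) (N σ) (fun i : A => z σ i) := hs1 hφ
      rw [hpp] at h5
      exact h5) ht'
    rw [sat_ren] at h4
    have h5 : (Sum.elim (fun i => x σ (f0 i)) t' : (Fin m ⊕ Fin (n 0)) ⊕ Fin V.1 → Λ.L σ) =
        Sum.elim (fun i : A => x σ i.1) t' ∘
          Sum.map (fun i => (⟨f0 i, hA' i⟩ : A)) id := by
      funext i
      rcases i with i | i <;> rfl
    rw [h5]
    exact h4
  · -- explicit witnesses
    intro σ k V t ht hV
    have h1 : ∀ i, ∃ w : M ⊕ Si n, t i = x σ w := by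
      intro i
      rcases ht i with ⟨u, hu⟩ | ⟨j, i', hi'⟩
      · exact ⟨Sum.inl u, hu⟩
      · exact ⟨Sum.inr ⟨j, i'⟩, hi'⟩
    choose w hw using h1
    refine ⟨fun i => z σ (w i), fun φ hφ => ?_⟩
    have h2 := hV φ hφ
    have h3 := hN3 σ ((Fin m ⊕ Fin (n 0)) ⊕ Fin k) (Sum.elim f0 w)
    have h4 : x σ ∘ Sum.elim f0 w = Sum.elim (Sum.elim (fun i => Λ.inM σ (q i))
        (fun i => Λ.inY σ 0 (g 0 i))) t := by
      rw [← hf0 σ]
      funext i
      rcases i with i | i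
      · rfl
      · exact (hw i).symm
    rw [h4] at h3
    have h5 : φ ∈ pp (R := R) (N σ) (z σ ∘ Sum.elim f0 w) := by
      rw [h3]
      exact h2
    have h6 : z σ ∘ Sum.elim f0 w =
        Sum.elim (fun i => z σ (f0 i)) (fun i => z σ (w i)) := by
      funext i
      rcases i with i | i <;> rfl
    rw [h6] at h5
    exact h5

end Pool.Agent.VMF
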