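import Pool.Agent.VMF.DCH
import Pool.Agent.VMF.DCF
import Pool.Agent.MVC.BPL
import Pool.Agent.MVC.EXT
import Pool.Agent.MVC.HEX
import Pool.Agent.MVC.NULM

/-!
# VMF: the descending chain condition for maps between honest modules of full types (3.3)
-/

set_option autoImplicit false
set_option linter.unusedSectionVars false
set_option linter.unusedVariables false

namespace Pool.Agent.VMF

open Set Pool.Agent.MVC Pool.Agent.MVC.Ax

/-- DCT. -/
theorem thm_DCT (hX : St_HNX) (hNF : St_NFC) (hH : St_DCH) : St_DCT := by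
  classical
  intro R _ _ U hU hQB hF n S N g a m T Q q hS hN hT hq
  -- the normal form, with generators indexed by `Fin`
  obtain ⟨g', -, hg2, hg3⟩ := hNF R (Own R U) n S N g a hN
  choose n' e using fun k => Finite.exists_equiv_fin (Jk n k)
  let e' : ∀ k, Jk n k ≃ Fin (n' k) := fun k => (e k).some
  let G : ∀ k, Fin (n' k) → N k := fun k i => g' k ((e' k).symm i)
  let u : ∀ k l : ℕ, k ≤ l → Fin (n' k) → Fin (n' l) := fun k l h i =>
    e' l (uJ n k l h ((e' k).symm i))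
  have hu0 : ∀ k (h : k ≤ k) i, u k k h i = i := by
    intro k h i
    show e' k (uJ n k k h ((e' k).symm i)) = i
    have h1 : uJ n k k h ((e' k).symm i) = (e' k).symm i := rfl
    rw [h1, Equiv.apply_symm_apply]
  have hu : ∀ k l m (h : k ≤ l) (h' : l ≤ m) i, u l m h' (u k l h i) = u k m (h.trans h') i := by
    intro k l m h h' i
    show e' m (uJ n l m h' ((e' l).symm (e' l (uJ n k l h ((e' k).symm i))))) = _
    rw [Equiv.symm_apply_apply]
    rfl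
  have haG : ∀ k i, a k (G k i) = G (k + 1) (u k (k + 1) (Nat.le_succ k) i) := by
    intro k i
    show a k (g' k ((e' k).symm i)) = g' (k + 1) ((e' (k + 1)).symm (e' (k + 1) _))
    rw [hg2, Equiv.symm_apply_apply]
  have hGh : ∀ k, (Own R U).Honest (pp (R := R) (N k) (G k)) (N k) (G k) := fun k =>
    hX R (Own R U) (Jk n k) (Fin (n' k)) (pp (R := R) (N k) (g' k)) (N k) (g' k) (G k) (e' k)
      (fun i => by
        show g' k ((e' k).symm (e' k i)) = g' k i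
        rw [Equiv.symm_apply_apply]) (hg3 k)
  let p : ∀ k, Set (PP R (Fin (n' k))) := fun k => pp (R := R) (N k) (G k)
  have hpF : ∀ k, Full U (p k) := fun k =>
    hQB.rff (Fin (n k)) (Fin (n' k)) (S k) (p k) (N k) (N k) (g k) (G k) (hS k) (hN k) (hGh k)
      ⟨LinearMap.id, LinearMap.id, Eqv.refl _⟩
  have hmono : ∀ k l (h : k ≤ l) (φ : PP R (Fin (n' k))), Sat φ (N k) (G k) →
      Sat φ (N l) (G l ∘ u k l h) := by
    intro k l h φ hφ
    induction l, h using Nat.le_induction with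
    | base =>
      have h1 : G k ∘ u k k le_rfl = G k := by
        funext i
        show G k (u k k le_rfl i) = G k i
        rw [hu0]
      rw [h1]
      exact hφ
    | succ l hl ih =>
      have h1 := ih.map (a l)
      have h2 : (a l : N l → N (l + 1)) ∘ (G l ∘ u k l hl) =
          G (l + 1) ∘ u k (l + 1) (hl.trans (Nat.le_succ l)) := by
        funext i
        show a l (G l (u k l hl i)) = G (l + 1) (u k (l + 1) _ i)
        rw [haG, hu]
      rw [h2] at h1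
      exact h1
  have hp : ∀ k l (h : k ≤ l), ren (u k l h) '' p k ⊆ p l := by
    rintro k l h _ ⟨φ, hφ, rfl⟩
    show Sat (ren (u k l h) φ) (N l) (G l)
    rw [sat_ren]
    exact hmono k l h φ hφ
  -- the connected chain
  obtain ⟨p', hp1, -, hp3, hp4, hp5⟩ := shrink hU.satu (fun k => Fin (n' k)) u hu0 hu p hp
  choose Y y hY using fun k => thm_HEX R (Own R U) (Fin (n' k)) (p' k)
  choose r hr using fun k => thm_EX0 R (Own R U) (Fin (n' k)) (p k) (N k) (Y k) (G k) (y k)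
    (hGh k) (hY k).mem (fun φ hφ => (hY k).sat φ (hp1 k hφ))
  choose s hs1 hs2 using fun k => hQB.qis (Fin (n' k)) (p k) (p' k) (N k) (Y k) (G k) (y k)
    (hpF k) (hp3 k) (fun x hx φ hφ => hx φ (hp1 k hφ)) (hGh k) (hY k) (r k) (hr k)
  choose b hb using fun k => thm_EX0 R (Own R U) (Fin (n' k)) (p' k) (Y k) (Y (k + 1)) (y k)
    (fun i => y (k + 1) (u k (k + 1) (Nat.le_succ k) i)) (hY k) (hY (k + 1)).mem
    (fun φ hφ => by
      have h1 := (hY (k + 1)).sat _ (hp4 k (k + 1) (Nat.le_succ k) ⟨φ, hφ, rfl⟩)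
      rw [sat_ren] at h1
      exact h1)
  -- the squares commute
  have hsq : ∀ k, (Own R U).Eqv (b k ∘ₗ r k) (r (k + 1) ∘ₗ a k) := by
    intro k
    refine thm_NUZ R (Own R U) (Fin (n' k)) (p k) (N k) (Y (k + 1)) (G k) _ (hGh k) fun i => ?_
    show b k (r k (G k i)) - r (k + 1) (a k (G k i)) = 0
    rw [hr, hb, haG, hr, sub_self]
  have hcmp : ∀ j, (Own R U).Eqv (cmp b j ∘ₗ r 0) (r j ∘ₗ cmp a j) := by
    intro j
    induction j with
    | zero => exact Eqv.refl _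
    | succ j ih =>
      have h1 : (Own R U).Eqv (b j ∘ₗ (cmp b j ∘ₗ r 0)) (b j ∘ₗ (r j ∘ₗ cmp a j)) :=
        Eqv.comp ih (Eqv.refl _)
      have h2 : (Own R U).Eqv ((b j ∘ₗ r j) ∘ₗ cmp a j) ((r (j + 1) ∘ₗ a j) ∘ₗ cmp a j) :=
        Eqv.comp (Eqv.refl _) (hsq j)
      exact Eqv.trans h1 h2
  -- the target
  obtain ⟨z, hz1, hz2⟩ := hU.gen4 Empty (Fin m) (fun i => i.elim) 0 T
  rw [sub_zero] at hz1
  have hz3 : FIn U T (pp (R := R) U z) := by
    refine hz2.of_le ?_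
    intro x hx ψ hψ
    have h1 : zer (ren Sum.inr ψ : PP R (Empty ⊕ Fin m)) ∈
        fib (R := R) U (fun i : Empty => i.elim) z := by
      refine ⟨ren Sum.inr ψ, ?_, rfl⟩
      show Sat (ren Sum.inr ψ) U _
      rw [sat_ren]
      exact hψ
    have h2 := hx _ h1
    rw [sat_zer, sat_ren] at h2
    exact h2
  obtain ⟨M, b', hM, hb', hMh⟩ := hU.prb (Fin m) z
  have hTz : ∀ φ ∈ T, φ ∈ pp (R := R) U z := fun φ hφ => hz1 φ hφ
  obtain ⟨α, hα⟩ := thm_EX0 R (Own R U) (Fin m) T Q ⟨M⟩ q b' hq hMh.mem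
    (fun φ hφ => hMh.sat φ (hTz φ hφ))
  obtain ⟨β, hβ, -⟩ := hQB.qis (Fin m) T (pp (R := R) U z) Q ⟨M⟩ q b' hT hz3
    (fun x hx φ hφ => hx φ (hTz φ hφ)) hq hMh α hα
  -- the chain condition for the connected chain
  obtain ⟨j₀, hj₀⟩ := thm_DCF (thm_MSG thm_COS) (thm_BPL thm_COS (thm_MSG thm_COS)) thm_NUP
    thm_EXT R (Own R U) n' p' Y y b m (pp (R := R) U z) ⟨M⟩ b' hY hMh
    (fun c c0 => hH R U hU hF n' u p' Y y b hu0 hu hY hb hp5 m (pp (R := R) U z) M b' hM hMh c c0)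
  refine ⟨j₀, fun j hj c => ?_⟩
  obtain ⟨c', hc'⟩ := hj₀ j hj (α ∘ₗ c ∘ₗ s j)
  refine ⟨β ∘ₗ c' ∘ₗ r (j + 1), ?_⟩
  have h1 : (Own R U).Eqv (c ∘ₗ cmp a j) ((β ∘ₗ α) ∘ₗ (c ∘ₗ ((s j ∘ₗ r j) ∘ₗ cmp a j))) := by
    have h2 : (Own R U).Eqv (c ∘ₗ cmp a j) ((β ∘ₗ α) ∘ₗ (c ∘ₗ cmp a j)) := by
      have h3 := Eqv.comp (Eqv.refl (X := Own R U) (c ∘ₗ cmp a j)) (Eqv.symm hβ)
      exact h3
    refine Eqv.trans h2 ?_
    refine Eqv.comp ?_ (Eqv.refl _)
    refine Eqv.comp ?_ (Eqv.refl _)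
    have h3 := Eqv.comp (Eqv.refl (X := Own R U) (cmp a j)) (Eqv.symm (hs1 j))
    exact h3
  have h4 : (Own R U).Eqv (β ∘ₗ ((α ∘ₗ c ∘ₗ s j) ∘ₗ (r j ∘ₗ cmp a j)))
      (β ∘ₗ ((α ∘ₗ c ∘ₗ s j) ∘ₗ (cmp b j ∘ₗ r 0))) :=
    Eqv.comp (Eqv.comp (Eqv.symm (hcmp j)) (Eqv.refl _)) (Eqv.refl _)
  have h5 : (Own R U).Eqv (β ∘ₗ (((α ∘ₗ c ∘ₗ s j) ∘ₗ cmp b j) ∘ₗ r 0))
      (β ∘ₗ ((c' ∘ₗ cmp b (j + 1)) ∘ₗ r 0)) :=
    Eqv.comp (Eqv.comp (Eqv.refl _) hc') (Eqv.refl _)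
  have h6 : (Own R U).Eqv (β ∘ₗ (c' ∘ₗ (cmp b (j + 1) ∘ₗ r 0)))
      (β ∘ₗ (c' ∘ₗ (r (j + 1) ∘ₗ cmp a (j + 1)))) :=
    Eqv.comp (Eqv.comp (hcmp (j + 1)) (Eqv.refl _)) (Eqv.refl _)
  exact Eqv.trans h1 (Eqv.trans h4 (Eqv.trans h5 h6))

/-- DQT. -/
theorem thm_DQT (h : St_DCT) : St_DQT := by
  intro R _ _ U hU hQ hF C hC f
  choose a ha using fun i => qm_surjective (X := Own R U) (N := C.N) (f i)
  let w : ℕ → Module.End R C.N := fun j => cmp (G := fun _ => C.N) a j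
  have key : ∀ j, prs f j = qm (Own R U) C.N (w j) := by
    intro j
    induction j with
    | zero => exact (map_one (qm (Own R U) C.N)).symm
    | succ j ih =>
      have h1 : w (j + 1) = a j * w j := rfl
      rw [h1, map_mul, ha, ← ih]
      rfl
  obtain ⟨j₀, hj⟩ := h R U hU hQ hF (fun _ => C.n) (fun _ => C.S) (fun _ => C.N) (fun _ => C.g)
    a C.n C.S C.N C.g (fun _ => hC) (fun _ => C.hon) hC C.hon
  obtain ⟨c', hc'⟩ : ∃ c' : Module.End R C.N, (Own R U).Eqv (w j₀) (c' * w (j₀ + 1)) :=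
    hj j₀ le_rfl LinearMap.id
  refine ⟨j₀, qm (Own R U) C.N c', ?_⟩
  rw [key, key, ← map_mul]
  exact qm_eq.2 hc'

end Pool.Agent.VMF
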