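import Pool.Agent.VMF.StC
import Pool.Agent.MVC.EXT

/-!
# VMF, block C: finite type for full honest modules (St_FNT)

In each sequence of full honest modules one of them is a retract, modulo null maps, of a finite product
of others. Otherwise the models which are generated by the parts of a generic sequence realise pairwise
different sets of level-one types.
-/

set_option autoImplicit false
set_option linter.unusedSectionVars false
set_option linter.unusedVariables false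

namespace Pool.Agent.VMF

open Set Pool.Agent.MVC Pool.Agent.MVC.Ax

/-- retracts of retracts -/
private theorem FNT_trans {R : Type} [Ring R] {X : Ax R} {M N K : Type} [AddCommGroup M] [Module R M]
    [AddCommGroup N] [Module R N] [AddCommGroup K] [Module R K] (h : X.Retr M N)
    (h' : X.Retr N K) : X.Retr M K := by
  obtain ⟨a, b, h1⟩ := h
  obtain ⟨c, d, h2⟩ := h'
  refine ⟨c ∘ₗ a, b ∘ₗ d, ?_⟩
  have h3 : X.Eqv (b ∘ₗ (d ∘ₗ c) ∘ₗ a) (b ∘ₗ LinearMap.id ∘ₗ a) :=
    Eqv.comp (Eqv.comp (Eqv.refl a) h2) (Eqv.refl b)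
  exact Eqv.trans h3 h1

/-- the fibre type is contained in the type -/
private theorem FNT_fib {R : Type} [Ring R] {κ ι : Type} (U : Type) [AddCommGroup U] [Module R U]
    (c : κ → U) (z : ι → U) : grp U (fib (R := R) U c z) ≤ grp U (pp (R := R) U z) := by
  intro x hx φ hφ
  have h1 : ren Sum.inr φ ∈ pp (R := R) U (Sum.elim c z) := by
    show Sat (ren Sum.inr φ) U (Sum.elim c z)
    rw [sat_ren, Sum.elim_comp_inr]
    exact hφ
  have h2 : Sat (zer (ren Sum.inr φ)) U x := hx _ ⟨_, h1, rfl⟩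
  rw [sat_zer, sat_ren, Sum.elim_comp_inr] at h2
  exact h2

/-- the statement for sequences which are not bundled -/
private theorem FNT_core (h1 : St_GSQ) (h2 : St_GFI) (h3 : St_MDZ) (h4 : St_FT1) (h5 : St_FT2)
    (h6 : St_GIS) (R : Type) [Ring R] [Countable R] (U : Md R) (hT : TB U) (hQ : QB U)
    (hF : FewT R U) (n : ℕ → ℕ) (S : ∀ k, Set (PP R (Fin (n k)))) (N : ℕ → Md R)
    (g : ∀ k, Fin (n k) → N k) (hS : ∀ k, Full U (S k))
    (hN : ∀ k, (Own R U).Honest (S k) (N k) (g k)) :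
    ∃ (k : ℕ) (F : Finset ℕ), k ∉ F ∧ (Own R U).Retr (N k) (∀ i : F, N i) := by
  by_contra hno
  obtain ⟨y, hy, hyf⟩ := h1 R U hT n S
  have hFI := h2 R U hT n S y hy hyf
  -- the honest elementary submodules over the tuples
  choose P b hP hb hhon using fun k => hT.prb (Fin (n k)) (fun i => y ⟨k, i⟩)
  have hSy : ∀ k, S k ⊆ pp (R := R) U (fun i : Fin (n k) => y ⟨k, i⟩) := fun k φ hφ => hy k φ hφ
  have hNP : ∀ k, (Own R U).Retr (N k) (P k) := by
    intro k
    obtain ⟨ρ, hρ⟩ := thm_EX0 R (Own R U) (Fin (n k)) (S k) (N k) ⟨P k⟩ (g k) (b k) (hN k)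
      (hhon k).mem (fun φ hφ => (hhon k).sat φ (hSy k hφ))
    obtain ⟨j, hj, -⟩ := hQ.qis (Fin (n k)) (S k) (pp (R := R) U (fun i : Fin (n k) => y ⟨k, i⟩))
      (N k) ⟨P k⟩ (g k) (b k) (hS k) ((hyf k).of_le (FNT_fib U _ _))
      (fun x hx φ hφ => hx φ (hSy k hφ)) (hN k) (hhon k) ρ hρ
    exact ⟨ρ, j, hj⟩
  choose M c hM using fun Z : Set ℕ => h3 R U hT n y Z
  have key : ∀ (Z : Set ℕ) (k : ℕ),
      (⟨n k, tp1 (R := R) (P k) (b k)⟩ : (n : ℕ) × Set (L1 R (Fin n))) ∈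
        real1 (R := R) (M Z) ↔ k ∈ Z := by
    intro Z k
    constructor
    · rintro ⟨x, hx⟩
      obtain ⟨F, hFZ, hPF⟩ := h5 R U hT n y Z (M Z) (c Z) (hM Z) k ⟨P k⟩ (b k) (hhon k) x hx
      by_contra hk
      obtain ⟨Q, q, hQe, hq, hQh⟩ := hT.prb (SZ n (F : Set ℕ)) (fun p => y p.1)
      have h7 := h6 R U hT hQ n S N g y hS hN F (hFI F) hy ⟨Q⟩ q hQh
      exact hno ⟨k, F, fun h => hk (hFZ h), FNT_trans (hNP k) (FNT_trans (hPF ⟨Q⟩ q hQh) h7.1)⟩
    · intro hk
      exact ⟨fun i => c Z ⟨⟨k, i⟩, hk⟩, h4 R U hT hQ n S y hS hy hFI Z (M Z) (c Z) (hM Z) k hk (P k)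
        (b k) (hP k) (hb k) (hhon k)⟩
  -- injection of the sets of numbers
  let φ : Set ℕ → {Θ : Set ((n : ℕ) × Set (L1 R (Fin n))) | ∃ M : Md R, Countable M ∧
      Mods (Th R U) M ∧ real1 M = Θ} := fun Z => ⟨real1 (R := R) (M Z),
    ⟨M Z, (hM Z).ctbl, (hM Z).mods, rfl⟩⟩
  have hφ : Function.Injective φ := by
    intro Z T h
    ext k
    have h8 : real1 (R := R) (M Z) = real1 (R := R) (M T) := congrArg Subtype.val h
    rw [← key Z k, ← key T k, h8]
  have := hF.few2.to_subtype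
  have : Countable (Set ℕ) := hφ.countable
  obtain ⟨f, hf⟩ := exists_surjective_nat (Set ℕ)
  exact Function.cantor_surjective f hf

/-- 4.1 finite type for full honest modules -/
theorem thm_FNT (h1 : St_GSQ) (h2 : St_GFI) (h3 : St_MDZ) (h4 : St_FT1) (h5 : St_FT2)
    (h6 : St_GIS) : St_FNT := by
  intro R _ _ U hT hQ hF Z hZ
  exact FNT_core h1 h2 h3 h4 h5 h6 R U hT hQ hF (fun k => (Z k).n) (fun k => (Z k).S)
    (fun k => (Z k).N) (fun k => (Z k).g) hZ (fun k => (Z k).hon)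

end Pool.Agent.VMF
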