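import Pool.Agent.VMF.StC

/-!
# VMF, GFI: the type of a finite part of a generic sequence has finite index in the product
-/

set_option autoImplicit false
set_option linter.unusedSectionVars false
set_option linter.unusedVariables false

namespace Pool.Agent.VMF

open Set Pool.Agent.MVC Pool.Agent.MVC.Ax

/-- finite index from the projection and the fibre over zero -/
private theorem GFI_relIndex {X A : Type} [AddCommGroup X] [AddCommGroup A] (f : X →+ A)
    (G H : AddSubgroup X) (hGH : G ≤ H) (h1 : (G.map f).relIndex (H.map f) ≠ 0)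
    (h2 : G.relIndex (H ⊓ f.ker) ≠ 0) : G.relIndex H ≠ 0 := by
  set G' : AddSubgroup X := (G.map f).comap f with hG'
  have e1 : G'.relIndex H ≠ 0 := by
    rw [hG', AddSubgroup.relIndex_comap]
    exact h1
  have hGG' : G ≤ G' := by
    rw [hG']
    exact AddSubgroup.le_comap_map f G
  have e2 : G.relIndex (G ⊔ (H ⊓ f.ker)) ≠ 0 := by
    rw [AddSubgroup.relIndex_sup_left]
    exact h2
  have e3 : G' ⊓ H ≤ G ⊔ (H ⊓ f.ker) := by
    rintro x ⟨hx, hxH⟩
    obtain ⟨g, hg, hgx⟩ := hx
    have h3 : x - g ∈ H ⊓ f.ker := by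
      refine ⟨H.sub_mem hxH (hGH hg), ?_⟩
      show f (x - g) = 0
      rw [map_sub, sub_eq_zero]
      exact hgx.symm
    have h4 : x = g + (x - g) := by abel
    rw [h4]
    exact (G ⊔ (H ⊓ f.ker)).add_mem (AddSubgroup.mem_sup_left hg) (AddSubgroup.mem_sup_right h3)
  have e4 : G.relIndex (G' ⊓ H) ≠ 0 := fun h0 =>
    e2 (AddSubgroup.relIndex_eq_zero_of_le_right e3 h0)
  have e5 := AddSubgroup.relIndex_mul_relIndex (H := G) (K := G' ⊓ H) (L := H)
    (le_inf hGG' hGH) inf_le_right
  rw [AddSubgroup.inf_relIndex_right] at e5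
  rw [← e5]
  exact mul_ne_zero e4 e1

/-- the indices of the last block and the others -/
private theorem GFI_split (n : ℕ → ℕ) (k : ℕ) (F : Finset ℕ) (hk : ∀ j ∈ F, j < k) :
    ∃ σ : SZ n ((insert k F : Finset ℕ) : Set ℕ) → SZ n (F : Set ℕ) ⊕ Fin (n k),
      (∀ (q : SZ n (F : Set ℕ)) (h : q.1.1 ∈ ((insert k F : Finset ℕ) : Set ℕ)),
        σ ⟨q.1, h⟩ = Sum.inl q) ∧
      (∀ (i : Fin (n k)) (h : k ∈ ((insert k F : Finset ℕ) : Set ℕ)),
        σ ⟨⟨k, i⟩, h⟩ = Sum.inr i) := by
  have hmem : ∀ p : SZ n ((insert k F : Finset ℕ) : Set ℕ), ¬ p.1.1 = k → p.1.1 ∈ (F : Set ℕ) := by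
    intro p hp
    have h := p.2
    rw [Finset.mem_coe, Finset.mem_insert] at h
    exact h.resolve_left hp
  refine ⟨fun p => if h : p.1.1 = k then Sum.inr (Fin.cast (congrArg n h) p.1.2)
    else Sum.inl ⟨p.1, hmem p h⟩, ?_, ?_⟩
  · intro q h
    have h1 : ¬ q.1.1 = k := ne_of_lt (hk _ q.2)
    show (if h : q.1.1 = k then _ else _) = _
    rw [dif_neg h1]
  · intro i h
    show (if h : k = k then _ else _) = _
    rw [dif_pos rfl]
    rfl

theorem thm_GFI : St_GFI := by
  intro R _ _ U hU n S y hy hI F
  induction F using Finset.induction_on_max with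
  | empty =>
    have h1 : (grp U (pp (R := R) U (fun p : SZ n ((∅ : Finset ℕ) : Set ℕ) => y p.1))).relIndex
        (grp U (prodF n S ((∅ : Finset ℕ) : Set ℕ))) = 1 := by
      rw [AddSubgroup.relIndex_eq_one]
      intro x _
      have h2 : x = 0 := by
        funext p
        exact absurd p.2 (by simp)
      rw [h2]
      exact AddSubgroup.zero_mem _
    unfold FIn
    rw [h1]
    exact one_ne_zero
  | insert k F hk IH =>
    obtain ⟨σ, hσ1, hσ2⟩ := GFI_split n k F hk
    have hkF : k ∈ ((insert k F : Finset ℕ) : Set ℕ) := by simp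
    have hFF : ∀ j ∈ (F : Set ℕ), j ∈ ((insert k F : Finset ℕ) : Set ℕ) := by
      intro j hj
      simp only [Finset.coe_insert, Set.mem_insert_iff]
      exact Or.inr hj
    -- all indices
    have hcase : ∀ p : SZ n ((insert k F : Finset ℕ) : Set ℕ),
        (∃ (q : SZ n (F : Set ℕ)), p = ⟨q.1, hFF _ q.2⟩) ∨ ∃ i : Fin (n k), p = ⟨⟨k, i⟩, hkF⟩ := by
      rintro ⟨⟨j, i⟩, hj⟩
      by_cases h : j = k
      · subst h
        exact Or.inr ⟨i, rfl⟩
      · left
        have h2 : j ∈ (F : Set ℕ) := by
          simp only [Finset.coe_insert, Set.mem_insert_iff] at hj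
          exact hj.resolve_left h
        exact ⟨⟨⟨j, i⟩, h2⟩, rfl⟩
    set YF : SZ n ((insert k F : Finset ℕ) : Set ℕ) → U := fun p => y p.1 with hYF
    have hcomp : Sum.elim (fun p : SZ n (F : Set ℕ) => y p.1) (fun i : Fin (n k) => y ⟨k, i⟩) ∘ σ =
        YF := by
      funext p
      rcases hcase p with ⟨q, rfl⟩ | ⟨i, rfl⟩
      · show Sum.elim _ _ (σ _) = _
        rw [hσ1]
        rfl
      · show Sum.elim _ _ (σ _) = _
        rw [hσ2]
        rfl
    let ι0 : SZ n (F : Set ℕ) → SZ n ((insert k F : Finset ℕ) : Set ℕ) :=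
      fun q => ⟨q.1, hFF _ q.2⟩
    have hle : grp U (pp (R := R) U YF) ≤ grp U (prodF n S ((insert k F : Finset ℕ) : Set ℕ)) := by
      refine grp_anti ?_
      rintro φ ⟨j, hj, ψ, hψ, rfl⟩
      show Sat (ren _ ψ) U YF
      rw [sat_ren]
      exact hy j ψ hψ
    refine GFI_relIndex (rst U ι0) _ _ hle ?_ ?_
    · -- the projection
      have h1 : grp U (pp (R := R) U (fun p : SZ n (F : Set ℕ) => y p.1)) ≤
          (grp U (pp (R := R) U YF)).map (rst U ι0) := by
        intro x hx
        obtain ⟨v, hv, -⟩ := hU.sat (SZ n (F : Set ℕ)) (Fin (n k)) x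
          {φ | Sat φ U (Sum.elim (fun p : SZ n (F : Set ℕ) => y p.1)
            (fun i : Fin (n k) => y ⟨k, i⟩))} ∅ (by
              intro s t hs ht
              obtain ⟨θ, hθ⟩ := (isPP_finset s).ex
              have h2 : Sat θ U (fun p : SZ n (F : Set ℕ) => y p.1) :=
                (hθ U _).1 ⟨fun i : Fin (n k) => y ⟨k, i⟩, fun φ hφ => hs hφ⟩
              obtain ⟨w, hw⟩ := (hθ U x).2 (hx θ h2)
              exact ⟨w, hw, fun ψ hψ => absurd (ht hψ) (by simp)⟩)
        refine ⟨Sum.elim x v ∘ σ, ?_, ?_⟩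
        · intro φ hφ
          have h3 := hv (ren σ φ) (by
            show Sat (ren σ φ) U _
            rw [sat_ren, hcomp]
            exact hφ)
          rw [sat_ren] at h3
          exact h3
        · funext q
          show Sum.elim x v (σ _) = x q
          rw [hσ1]
          rfl
      have h2 : (grp U (prodF n S ((insert k F : Finset ℕ) : Set ℕ))).map (rst U ι0) ≤
          grp U (prodF n S (F : Set ℕ)) := by
        rintro _ ⟨x, hx, rfl⟩
        rw [mem_grp, re_prodF]
        intro j hj
        have h3 := (re_prodF n S _ x).1 hx j (hFF j hj)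
        exact h3
      intro h0
      exact IH (AddSubgroup.relIndex_eq_zero_of_le_left h1 (AddSubgroup.relIndex_eq_zero_of_le_right
        h2 h0))
    · -- the fibre over zero
      let δ : Fin (n k) → SZ n ((insert k F : Finset ℕ) : Set ℕ) := fun i => ⟨⟨k, i⟩, hkF⟩
      let ε : (Fin (n k) → U) →+ (SZ n ((insert k F : Finset ℕ) : Set ℕ) → U) :=
        { toFun := fun v => Sum.elim (0 : SZ n (F : Set ℕ) → U) v ∘ σ
          map_zero' := by
            funext p
            rcases hcase p with ⟨q, rfl⟩ | ⟨i, rfl⟩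
            · show Sum.elim _ _ (σ _) = _
              rw [hσ1]
              rfl
            · show Sum.elim _ _ (σ _) = _
              rw [hσ2]
              rfl
          map_add' := by
            intro v w
            funext p
            rcases hcase p with ⟨q, rfl⟩ | ⟨i, rfl⟩
            · have e1 : ∀ u : Fin (n k) → U, (Sum.elim (0 : SZ n (F : Set ℕ) → U) u ∘ σ)
                  ⟨q.1, hFF _ q.2⟩ = 0 := by
                intro u
                show Sum.elim _ _ (σ _) = _
                rw [hσ1]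
                rfl
              rw [Pi.add_apply, e1, e1, e1, add_zero]
            · have e1 : ∀ u : Fin (n k) → U, (Sum.elim (0 : SZ n (F : Set ℕ) → U) u ∘ σ)
                  ⟨⟨k, i⟩, hkF⟩ = u i := by
                intro u
                show Sum.elim _ _ (σ _) = _
                rw [hσ2]
                rfl
              rw [Pi.add_apply, e1, e1, e1]
              rfl }
      have h1 : grp U (prodF n S ((insert k F : Finset ℕ) : Set ℕ)) ⊓ (rst U ι0).ker ≤
          (grp U (S k)).map ε := by
        rintro x ⟨hx, hx0⟩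
        have hx0' : x ∘ ι0 = 0 := hx0
        refine ⟨x ∘ δ, (re_prodF n S _ x).1 hx k hkF, ?_⟩
        funext p
        rcases hcase p with ⟨q, rfl⟩ | ⟨i, rfl⟩
        · show Sum.elim _ _ (σ _) = _
          rw [hσ1]
          exact (congrFun hx0' q).symm
        · show Sum.elim _ _ (σ _) = _
          rw [hσ2]
          rfl
      have h2 : grp U (fib (R := R) U (fun p : {p : Si n // p.1 < k} => y p.1)
          (fun i => y ⟨k, i⟩)) ≤ (grp U (pp (R := R) U YF)).comap ε := by
        intro v hv φ hφ
        have hv' := (re_zer _ v).1 hv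
        let τ : SZ n (F : Set ℕ) → {p : Si n // p.1 < k} := fun q => ⟨q.1, hk _ q.2⟩
        have h3 := hv' (ren (Sum.map τ id ∘ σ) φ) (by
          show Sat (ren (Sum.map τ id ∘ σ) φ) U _
          rw [sat_ren]
          have h4 : Sum.elim (fun p : {p : Si n // p.1 < k} => y p.1) (fun i => y ⟨k, i⟩) ∘
              (Sum.map τ id ∘ σ) = YF := by
            rw [← hcomp, ← Function.comp_assoc]
            congr 1
            funext q
            rcases q with q | q <;> rfl
          rw [h4]
          exact hφ)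
        rw [sat_ren] at h3
        show Sat φ U (Sum.elim (0 : SZ n (F : Set ℕ) → U) v ∘ σ)
        have h5 : Sum.elim (0 : {p : Si n // p.1 < k} → U) v ∘ (Sum.map τ id ∘ σ) =
            Sum.elim (0 : SZ n (F : Set ℕ) → U) v ∘ σ := by
          rw [← Function.comp_assoc]
          congr 1
          funext q
          rcases q with q | q <;> rfl
        rw [h5] at h3
        exact h3
      intro h0
      refine hI k ?_
      have h6 : (grp U (pp (R := R) U YF)).relIndex ((grp U (S k)).map ε) = 0 :=
        AddSubgroup.relIndex_eq_zero_of_le_right h1 h0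
      rw [← AddSubgroup.relIndex_comap] at h6
      exact AddSubgroup.relIndex_eq_zero_of_le_left h2 h6

end Pool.Agent.VMF
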