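import Pool.Agent.VMF.StC

/-!
# VMF [GSQ]: a sequence of generic realisations (helper58)
-/

set_option autoImplicit false
set_option linter.unusedSectionVars false
set_option linter.unusedVariables false

namespace Pool.Agent.VMF

open Set Pool.Agent.MVC Pool.Agent.MVC.Ax

theorem thm_GSQ : St_GSQ := by
  intro R _ _ U hT n S
  classical
  have key : ∀ (k : ℕ) (c : {p : Si n // p.1 < k} → U), ∃ z : Fin (n k) → U, Re (S k) U z ∧
      FIn U (S k) (fib (R := R) U c z) := by
    intro k c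
    obtain ⟨z, h1, h2⟩ := hT.gen4 {p : Si n // p.1 < k} (Fin (n k)) c 0 (S k)
    rw [sub_zero] at h1
    exact ⟨z, h1, h2⟩
  choose G hG1 hG2 using key
  let F : ∀ k, (∀ m, m < k → Fin (n m) → U) → (Fin (n k) → U) :=
    fun k ih => G k (fun p => ih p.1.1 p.2 p.1.2)
  let b : ∀ k, Fin (n k) → U := Nat.lt_wfRel.wf.fix F
  have hb : ∀ k, b k = G k (fun p => b p.1.1 p.1.2) := fun k =>
    Nat.lt_wfRel.wf.fix_eq F k
  refine ⟨fun p => b p.1 p.2, fun k => ?_, fun k => ?_⟩
  · show Re (S k) U (b k)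
    rw [hb k]
    exact hG1 k _
  · show FIn U (S k) (fib (R := R) U (fun p : {p : Si n // p.1 < k} => b p.1.1 p.1.2) (b k))
    rw [hb k]
    exact hG2 k _

end Pool.Agent.VMF
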