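import Pool.Agent.VMF.StC

/-!
# VMF, module HNX: honest modules are honest for larger tuples (helper30)
-/

set_option autoImplicit false

namespace Pool.Agent.VMF

open Set Pool.Agent.MVC Pool.Agent.MVC.Ax

theorem thm_HNX : St_HNX := by
  classical
  intro R _ X ι κ _ _ S N g g' f hf hN
  have hgf : g' ∘ f = g := funext hf
  refine ⟨hN.mem, hN.ctbl, fun φ hφ => hφ, ?_, ?_⟩
  · intro ψ hψ
    refine ⟨{ψ}, ?_, fun M _ _ hM x hx => hx ψ (Finset.mem_singleton_self ψ)⟩
    intro φ hφ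
    rw [Finset.coe_singleton, mem_singleton_iff] at hφ
    rw [hφ]
    exact hψ
  · intro k b
    obtain ⟨m, ⟨e⟩⟩ := Finite.exists_equiv_fin (κ ⊕ Fin k)
    obtain ⟨θ, hθ, hθ'⟩ := hN.gen m (Sum.elim g' b ∘ e.symm)
    have hel : ∀ {M : Type} (x : κ → M) (y : Fin k → M),
        Sum.elim x y ∘ (Sum.elim (Sum.inl ∘ f) e.symm : ι ⊕ Fin m → κ ⊕ Fin k) =
          Sum.elim (x ∘ f) (Sum.elim x y ∘ e.symm) := by
      intro M x y
      funext i
      cases i <;> rfl
    have her : ∀ {M : Type} (x : ι → M) (z : κ ⊕ Fin k → M),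
        Sum.elim x (z ∘ e.symm) ∘ (Sum.inr ∘ e) = z := by
      intro M x z
      funext i
      show z (e.symm (e i)) = z i
      rw [e.symm_apply_apply]
    refine ⟨ren (Sum.elim (Sum.inl ∘ f) e.symm) θ, ?_, fun ψ hψ => ?_⟩
    · rw [sat_ren, hel, hgf]
      exact hθ
    · have h1 : Sat (ren (Sum.inr ∘ e) ψ : PP R (ι ⊕ Fin m)) N
          (Sum.elim g (Sum.elim g' b ∘ e.symm)) := by
        rw [sat_ren, her]
        exact hψ
      obtain ⟨s, hs, hs'⟩ := hθ' _ h1
      refine ⟨s.image (ren f), ?_, fun M _ _ hM x y hx hy => ?_⟩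
      · intro φ hφ
        rw [Finset.mem_coe, Finset.mem_image] at hφ
        obtain ⟨χ, hχ, rfl⟩ := hφ
        show Sat (ren f χ) N g'
        rw [sat_ren, hgf]
        exact hN.sat χ (hs hχ)
      · rw [sat_ren, hel] at hy
        have h2 := hs' M hM (x ∘ f) (Sum.elim x y ∘ e.symm) (fun φ hφ => by
          have h3 := hx (ren f φ) (Finset.mem_image_of_mem _ hφ)
          rw [sat_ren] at h3
          exact h3) hy
        rw [sat_ren, her] at h2
        exact h2

end Pool.Agent.VMF
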