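import Pool.Agent.VMF.StC
import Pool.Agent.MVC.HPI
import Pool.Agent.MVC.HPR

/-!
# VMF, HPF: finite products of full honest modules have full honest presentations (helper16)
-/

set_option autoImplicit false
set_option linter.unusedSectionVars false
set_option linter.unusedVariables false

namespace Pool.Agent.VMF

open Set Pool.Agent.MVC Pool.Agent.MVC.Ax

/-- the trivial module -/
private theorem HPF_zero {R : Type} [Ring R] (X : Ax R) :
    X.Honest (∅ : Set (PP R (Fin 0))) PUnit.{1} (fun _ => PUnit.unit) := by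
  refine ⟨In.punit, inferInstance, fun φ hφ => absurd hφ (notMem_empty φ), ?_, ?_⟩
  · intro ψ _
    refine ⟨∅, by simp, fun M _ _ _ x _ => ?_⟩
    have : x = 0 := by
      funext i
      exact i.elim0
    rw [this]
    exact Sat.zero _
  · intro k b
    obtain ⟨θ, hθ⟩ := isPP_zero (R := R) (ι := Fin 0 ⊕ Fin k)
    refine ⟨θ, ?_, fun ψ _ => ⟨∅, by simp, fun M _ _ _ x y _ h => ?_⟩⟩
    · rw [← hθ]
      funext i
      rfl
    · rw [← hθ] at h
      rw [h]
      exact Sat.zero _

/-- types without variables are full -/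
private theorem HPF_full0 {R : Type} [Ring R] (U : Md R) (S : Set (PP R (Fin 0))) :
    Full (R := R) U S := by
  intro x _
  have h : x = 0 := by
    funext i
    exact i.elim0
  rw [h]
  exact Re.zero _

/-- a module is a retract of itself -/
private theorem HPF_retr {R : Type} [Ring R] (X : Ax R) (N : Md R) : X.Retr N N :=
  ⟨LinearMap.id, LinearMap.id, Eqv.refl _⟩

theorem thm_HPF : St_HPF := by
  intro R _ _ U hT hQ r
  induction r with
  | zero =>
    intro A _
    refine ⟨⟨0, ∅, ⟨PUnit.{1}⟩, fun _ => PUnit.unit, HPF_zero _⟩, HPF_full0 U _, ⟨?_⟩⟩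
    exact
      { toFun := fun _ i => i.elim0
        map_add' := fun _ _ => by
          funext i
          exact i.elim0
        map_smul' := fun _ _ => by
          funext i
          exact i.elim0
        invFun := fun _ => PUnit.unit
        left_inv := fun _ => rfl
        right_inv := fun _ => by
          funext i
          exact i.elim0 }
  | succ r ih =>
    intro A hA
    obtain ⟨C, hC, ⟨e⟩⟩ := ih (fun i => A i.succ) (fun i => hA i.succ)
    have h1 := thm_HPR R (Own R U) (Fin (A 0).n) (Fin C.n) (A 0).S C.S (A 0).N C.N (A 0).g C.g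
      (A 0).hon C.hon
    have h2 := thm_REI R (Own R U) _ _ finSumFinEquiv _ ⟨(A 0).N × C.N⟩ _ h1
    have h3 := hQ.fup (Fin (A 0).n) (Fin C.n) (A 0).S C.S (hA 0) hC
    have h4 := hQ.rff _ _ _ _ ⟨(A 0).N × C.N⟩ ⟨(A 0).N × C.N⟩ _ _ h3 h1 h2 (HPF_retr _ _)
    refine ⟨⟨(A 0).n + C.n, _, ⟨(A 0).N × C.N⟩, _, h2⟩, h4, ⟨?_⟩⟩
    exact (LinearEquiv.prodCongr (LinearEquiv.refl R (A 0).N) e).trans
      (Fin.consLinearEquiv R (fun i => ((A i).N : Type)))

end Pool.Agent.VMF
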