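import Pool.Agent.VMF.StD
import Pool.Agent.VMF.BRI

/-!
# VMF, AMP: models in `AM U a` are countable members of the class, the embeddings pure (helper16)
-/

set_option autoImplicit false
set_option linter.unusedSectionVars false
set_option linter.unusedVariables false

namespace Pool.Agent.VMF

open Set Pool.Agent.MVC Pool.Agent.MVC.Ax

section

variable {R : Type} [Ring R]

/-- the formula `x = 0` -/
private noncomputable def AMP_z (R : Type) [Ring R] : PP R (Fin 1) := [Finsupp.single (Sum.inl 0) 1]

private theorem AMP_sat (M : Type) [AddCommGroup M] [Module R M] (x : Fin 1 → M) :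
    Sat (AMP_z R) M x ↔ x 0 = 0 := by
  constructor
  · rintro ⟨y, h⟩
    have h1 := h _ (List.mem_singleton.2 rfl)
    rw [Finsupp.linearCombination_single, one_smul] at h1
    exact h1
  · intro h
    refine ⟨fun _ => 0, fun e he => ?_⟩
    rw [List.mem_singleton.1 he, Finsupp.linearCombination_single, one_smul]
    exact h

/-- pure maps are injective -/
theorem AMP_inj {U : Md R} {M : Type} [AddCommGroup M] [Module R M] {e : M →ₗ[R] U}
    (h : Pur U e) : Function.Injective e := by
  rw [← LinearMap.ker_eq_bot, LinearMap.ker_eq_bot']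
  intro m hm
  have h1 : Sat (AMP_z R) U (e ∘ fun _ => m) := (AMP_sat U _).2 hm
  exact (AMP_sat M _).1 (h 1 _ _ h1)

/-- pure maps reflect the formulas with finitely many variables -/
theorem AMP_pur {U : Md R} {M : Type} [AddCommGroup M] [Module R M] {e : M →ₗ[R] U}
    (h : Pur U e) {κ : Type} [Finite κ] (φ : PP R κ) (x : κ → M) :
    Sat φ U (fun i => e (x i)) ↔ Sat φ M x := by
  constructor
  · intro h1
    obtain ⟨n, ⟨f⟩⟩ := Finite.exists_equiv_fin κ
    have h2 : (fun i => x (f.symm i)) ∘ f = x := by
      funext i
      exact congrArg x (f.symm_apply_apply i)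
    have h3 : Sat (ren f φ) U (e ∘ fun i => x (f.symm i)) := by
      rw [sat_ren]
      have h4 : (e ∘ fun i => x (f.symm i)) ∘ f = fun i => e (x i) := by
        funext i
        exact congrArg (fun j => e (x j)) (f.symm_apply_apply i)
      rw [h4]
      exact h1
    have h5 := h n _ _ h3
    rw [sat_ren, h2] at h5
    exact h5
  · intro h1
    exact h1.map e

theorem thm_AMP : St_AMP := by
  intro R _ _ U hU ι a p
  exact ⟨in_own_of_inK p.2.1, inK_ctbl hU p.2.1, AMP_inj p.2.2.1,
    fun κ _ φ x => AMP_pur p.2.2.1 φ x⟩

end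

end Pool.Agent.VMF
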