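import Pool.Agent.VMF.StF
import Pool.Agent.VMF.SHR
import Pool.Agent.VMF.HPP
import Pool.Agent.MVC.GEQ
import Pool.Agent.MVC.FOR

/-!
# VMF: cosets of finite index have points in each model (`St_COS`), `St_SAP`
-/

set_option autoImplicit false
set_option linter.unusedSectionVars false
set_option linter.unusedVariables false

namespace Pool.Agent.VMF

open Set Pool.Agent.MVC Pool.Agent.MVC.Ax

/-- representatives of the cosets -/
theorem COS_reps {G : Type} [AddCommGroup G] {K H : AddSubgroup G} (h : K.relIndex H ≠ 0) :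
    ∃ y : Fin (K.relIndex H) → G, (∀ a, y a ∈ H) ∧ ∀ a b, a ≠ b → y a - y b ∉ K := by
  have h0 : Nat.card (H ⧸ K.addSubgroupOf H) = K.relIndex H := rfl
  have e : (H ⧸ K.addSubgroupOf H) ≃ Fin (Nat.card (H ⧸ K.addSubgroupOf H)) :=
    Nat.equivFinOfCardPos (by rw [h0]; exact h)
  rw [h0] at e
  choose y hy using fun a => QuotientAddGroup.mk_surjective (e.symm a)
  refine ⟨fun a => y a, fun a => (y a).2, fun a b hab hK => hab (e.symm.injective ?_)⟩
  rw [← hy a, ← hy b]
  symm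
  rw [QuotientAddGroup.eq, AddSubgroup.mem_addSubgroupOf]
  show -(y b : G) + (y a : G) ∈ K
  rwa [neg_add_eq_sub]

theorem COS_aux {R : Type} [Ring R] [Countable R] {U : Md R} (hU : MonM R U) {ι κ : Type}
    [Finite ι] [Finite κ] (a : ι → U) (φ : PP R (ι ⊕ κ)) (ψ : PP R κ) (t : κ → U)
    (hφ : Sat φ U (Sum.elim a t)) (hfi : FIn U {zer φ} {ψ}) {M : Type} [AddCommGroup M]
    [Module R M] (hK : InK U M) (e : M →ₗ[R] U) (hE : Emb U e) (ha : ∀ i, ∃ m, e m = a i) :
    ∃ y : κ → M, Sat φ U (Sum.elim a (fun i => e (y i))) ∧ Sat ψ U ((fun i => e (y i)) - t) := by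
  classical
  choose a' ha' using ha
  have haa : e ∘ a' = a := funext ha'
  obtain ⟨n, ⟨w⟩⟩ := Finite.exists_equiv_fin κ
  set m := (grp U ({ψ} : Set (PP R κ))).relIndex (grp U {zer φ}) with hm
  have hsg : ∀ (χ : PP R κ) (x : κ → U), x ∈ grp U ({χ} : Set (PP R κ)) ↔ Sat χ U x := by
    intro χ x
    constructor
    · intro h
      exact h χ rfl
    · rintro h _ rfl
      exact h
  -- `m` inequivalent elements in `U`, then in `M`
  obtain ⟨y, hy1, hy2⟩ := COS_reps hfi
  have hre : ∀ (χ : PP R κ) (N : Type) [AddCommGroup N] [Module R N] (x : Fin n → N),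
      Sat (ren w χ) N x ↔ Sat χ N (x ∘ w) := fun χ N _ _ x => sat_ren _ _ _
  have hasU : HasM (ren w (zer φ)) (ren w ψ) m U := by
    refine ⟨fun i => y i ∘ w.symm, fun i => ?_, fun i j hij h => ?_⟩
    · rw [hre]
      have h1 : (y i ∘ w.symm) ∘ w = y i := by
        funext k
        simp
      rw [h1]
      exact (hsg _ _).1 (hy1 i)
    · rw [hre] at h
      have h1 : ((y i ∘ w.symm) - (y j ∘ w.symm)) ∘ w = y i - y j := by
        funext k
        simp
      rw [h1] at h
      exact hy2 i j hij ((hsg _ _).2 h)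
  obtain ⟨z, hz1, hz2⟩ := (hasM_iff_of_mods thm_FOR (inK_mods hK) _ _ m).2 hasU
  -- a point of the formula in `M`
  obtain ⟨ρ, hρ⟩ := (isPP_sat φ).ex
  have h1 : Sat ρ U (e ∘ a') := by
    rw [haa]
    exact (hρ U a).1 ⟨t, hφ⟩
  have h2 : Sat ρ M a' := (hE.sat ρ a').2 h1
  obtain ⟨y0, hy0⟩ := (hρ M a').2 h2
  have hy0' : Sat φ U (Sum.elim a (e ∘ y0)) := by
    have h3 := hy0.map e
    have h4 : e ∘ Sum.elim a' y0 = Sum.elim a (e ∘ y0) := by
      rw [← haa]
      funext i
      cases i <;> rfl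
    rwa [h4] at h3
  have hzU : ∀ i, Sat (zer φ) U (e ∘ (z i ∘ w)) := fun i => by
    have h3 := hz1 i
    rw [hre] at h3
    exact h3.map e
  have ht0 : Sat (zer φ) U (t - e ∘ y0) := by
    rw [sat_zer]
    have h3 := hφ.sub hy0'
    rw [← elim_sub, sub_self] at h3
    exact h3
  -- pigeonhole
  obtain ⟨b, c, hbc, h5⟩ := relIndex_many hfi
    (Fin.snoc (α := fun _ => κ → U) (fun i : Fin m => e ∘ (z i ∘ w)) (t - e ∘ y0)) (by
      intro b
      refine Fin.lastCases ?_ (fun i => ?_) b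
      · rw [Fin.snoc_last]
        exact (hsg _ _).2 ht0
      · rw [Fin.snoc_castSucc]
        exact (hsg _ _).2 (hzU i))
  have key : ∀ i : Fin m, Sat ψ U ((t - e ∘ y0) - e ∘ (z i ∘ w)) →
      ∃ y : κ → M, Sat φ U (Sum.elim a (fun i => e (y i))) ∧ Sat ψ U ((fun i => e (y i)) - t) := by
    intro i hi
    refine ⟨y0 + z i ∘ w, ?_, ?_⟩
    · have h6 := (sat_zer φ (M := U) (e ∘ (z i ∘ w))).1 (hzU i)
      have h7 := hy0'.add h6
      have h8 : Sum.elim a (e ∘ y0) + Sum.elim (0 : ι → U) (e ∘ (z i ∘ w)) =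
          Sum.elim a (fun k => e ((y0 + z i ∘ w) k)) := by
        funext k
        cases k with
        | inl k => simp
        | inr k => simp
      rwa [h8] at h7
    · have h6 := hi.neg
      have h7 : -((t - e ∘ y0) - e ∘ (z i ∘ w)) = (fun k => e ((y0 + z i ∘ w) k)) - t := by
        funext k
        simp only [Pi.neg_apply, Pi.sub_apply, Pi.add_apply, Function.comp, map_add]
        abel
      rwa [h7] at h6
  have hne : ∀ i j : Fin m, i ≠ j → ¬ Sat ψ U (e ∘ (z i ∘ w) - e ∘ (z j ∘ w)) := by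
    intro i j hij h
    refine hz2 i j hij ?_
    rw [hre]
    refine (hE.sat ψ _).2 ?_
    have h6 : e ∘ ((z i - z j) ∘ w) = e ∘ (z i ∘ w) - e ∘ (z j ∘ w) := by
      funext k
      simp
    rw [h6]
    exact h
  rw [hsg] at h5
  revert h5 hbc
  refine Fin.lastCases ?_ (fun i => ?_) b <;> refine Fin.lastCases ?_ (fun j => ?_) c
  · intro h
    exact absurd rfl h
  · intro _ h
    rw [Fin.snoc_last, Fin.snoc_castSucc] at h
    exact key j h
  · intro _ h
    rw [Fin.snoc_last, Fin.snoc_castSucc] at h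
    refine key i ?_
    have h6 := h.neg
    rwa [neg_sub] at h6
  · intro hij h
    rw [Fin.snoc_castSucc, Fin.snoc_castSucc] at h
    exact absurd h (hne i j fun h7 => hij (by rw [h7]))

theorem thm_COS : St_COS := by
  intro R _ _ U hU ι κ _ _ a p φ ψ t hφ hfi
  exact COS_aux hU a φ ψ t hφ hfi p.2.1 p.1.2 (emb_of_pure hU p.2.1 p.1.2 p.2.2.1) p.2.2.2

/-- the positive form of saturation -/
theorem thm_SAP : St_SAP := by
  intro R _ _ U hU ι κ _ _ a V h
  obtain ⟨c, hc, -⟩ := sat_pp hU a V ∅ (by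
    intro s t hs ht
    obtain ⟨c, hc⟩ := h s hs
    refine ⟨c, hc, fun ψ hψ => ?_⟩
    exact absurd (ht hψ) (Set.notMem_empty ψ))
  exact ⟨c, hc⟩

end Pool.Agent.VMF
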