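import Pool.Agent.VMF.StD
import Pool.Agent.MVC.FOR

/-!
# VMF [ENU]: compactness in the saturated module (helper44)
-/

set_option autoImplicit false
set_option linter.unusedSectionVars false
set_option linter.unusedVariables false

namespace Pool.Agent.VMF

open Set Pool.Agent.MVC Pool.Agent.MVC.Ax FirstOrder

/-- finite conjunctions of formulas -/
private theorem ENU_conj {L : FirstOrder.Language.{0, 0}} {U : Type} [L.Structure U] {α J : Type}
    (F : J → L.Formula α) (s : Finset J) :
    ∃ χ : L.Formula α, ∀ v : α → U, χ.Realize v ↔ ∀ j ∈ s, (F j).Realize v := by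
  classical
  induction s using Finset.induction_on with
  | empty => exact ⟨⊤, fun v => by simp⟩
  | insert j s _ ih =>
    obtain ⟨χ, hχ⟩ := ih
    refine ⟨F j ⊓ χ, fun v => ?_⟩
    rw [FirstOrder.Language.Formula.realize_inf, hχ, Finset.forall_mem_insert]

/-- saturation for finitely many variables -/
private theorem ENU_satn {L : FirstOrder.Language.{0, 0}} {U : Type} [L.Structure U]
    (hU : Pool.Agent.WOM.Mon L U) (n : ℕ) : ∀ (κ : Type) [Finite κ] (a : κ → U) (J : Type)
    (F : J → L.Formula (κ ⊕ Fin n)),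
    (∀ s : Finset J, ∃ x : Fin n → U, ∀ j ∈ s, (F j).Realize (Sum.elim a x)) →
    ∃ x : Fin n → U, ∀ j, (F j).Realize (Sum.elim a x) := by
  classical
  induction n with
  | zero =>
    intro κ _ a J F hF
    refine ⟨fun i => i.elim0, fun j => ?_⟩
    obtain ⟨x, hx⟩ := hF {j}
    have h1 : x = fun i => i.elim0 := Subsingleton.elim _ _
    rw [← h1]
    exact hx j (Finset.mem_singleton_self j)
  | succ n ih =>
    intro κ _ a J F hF
    -- the variables: parameters, the first variable, the other variables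
    let e : κ ⊕ Fin (n + 1) → (κ ⊕ Unit) ⊕ Fin n :=
      Sum.elim (fun i => Sum.inl (Sum.inl i)) (Fin.cases (Sum.inl (Sum.inr ())) Sum.inr)
    have he : ∀ (b : U) (y : Fin n → U),
        Sum.elim (Sum.elim a (fun _ : Unit => b)) y ∘ e = Sum.elim a (Fin.cons b y) := by
      intro b y
      funext i
      rcases i with i | i
      · rfl
      · refine Fin.cases ?_ (fun i => ?_) i
        · rfl
        · rfl
    -- the one variable sets
    let D : Finset J → Set U := fun s =>
      {b | ∃ y : Fin n → U, ∀ j ∈ s, (F j).Realize (Sum.elim a (Fin.cons b y))}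
    have hD : ∀ s, (range a).Definable₁ L (D s) := by
      intro s
      obtain ⟨χ, hχ⟩ := ENU_conj (U := U) F s
      unfold Set.Definable₁
      rw [Set.definable_iff_exists_formula_sum]
      refine ⟨((χ.relabel e).iExs (Fin n)).relabel
        (Sum.map (fun i => (⟨a i, mem_range_self i⟩ : range a)) (fun _ : Unit => (0 : Fin 1))), ?_⟩
      ext v
      show (∃ y : Fin n → U, ∀ j ∈ s, (F j).Realize (Sum.elim a (Fin.cons (v 0) y))) ↔
        FirstOrder.Language.Formula.Realize _ (Sum.elim (fun x : range a => (x : U)) v)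
      rw [FirstOrder.Language.Formula.realize_relabel,
        FirstOrder.Language.Formula.realize_iExs]
      refine exists_congr fun y => ?_
      rw [FirstOrder.Language.Formula.realize_relabel, hχ]
      have h1 : (Sum.elim (fun x : range a => (x : U)) v ∘
          Sum.map (fun i => (⟨a i, mem_range_self i⟩ : range a)) (fun _ : Unit => (0 : Fin 1))) =
          Sum.elim a (fun _ : Unit => v 0) := by
        funext i
        rcases i with i | i
        · rfl
        · rfl
      rw [h1, he]
    obtain ⟨b, hb⟩ := hU.sat (range a) (finite_range a) (range D) (by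
      rintro _ ⟨s, rfl⟩
      exact hD s) (by
      intro G hG hGf
      obtain ⟨s, hs⟩ : ∃ s : Finset (Finset J), G = D '' (s : Set (Finset J)) := by
        lift G to Finset (Set U) using hGf
        rw [← image_univ, Finset.subset_set_image_iff] at hG
        obtain ⟨s', -, h2⟩ := hG
        refine ⟨s', ?_⟩
        rw [← h2, Finset.coe_image]
      obtain ⟨x, hx⟩ := hF (s.biUnion id)
      refine ⟨x 0, ?_⟩
      rw [hs]
      rintro _ ⟨t, ht, rfl⟩
      refine ⟨Fin.tail x, fun j hj => ?_⟩
      rw [Fin.cons_self_tail]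
      exact hx j (Finset.mem_biUnion.2 ⟨t, ht, hj⟩))
    have hb' : ∀ s, b ∈ D s := fun s => hb (D s) (mem_range_self s)
    obtain ⟨y, hy⟩ := ih (κ ⊕ Unit) (Sum.elim a (fun _ => b)) J (fun j => (F j).relabel e) (by
      intro s
      obtain ⟨y, hy⟩ := hb' s
      refine ⟨y, fun j hj => ?_⟩
      rw [FirstOrder.Language.Formula.realize_relabel, he]
      exact hy j hj)
    refine ⟨Fin.cons b y, fun j => ?_⟩
    have h1 := hy j
    rw [FirstOrder.Language.Formula.realize_relabel, he] at h1
    exact h1

/-- compactness for positive primitive formulas and one negation, variables `Fin n` -/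
theorem ENU_fin {R : Type} [Ring R] {U : Md R} (hU : MonM R U) {n : ℕ}
    (S : Set (PP R (Fin n))) (ψ : PP R (Fin n)) (h : ∀ x : Fin n → U, Re S U x → Sat ψ U x) :
    ∃ s : Finset (PP R (Fin n)), ↑s ⊆ S ∧ ∀ x : Fin n → U, (∀ φ ∈ s, Sat φ U x) → Sat ψ U x := by
  classical
  by_contra hcon
  push Not at hcon
  choose fm hfm using thm_FOR R n
  obtain ⟨x, hx⟩ := @ENU_satn (LMod R) U (modStr R U) hU n Empty _ (fun i => i.elim) (Option S)
    (fun j => ((match j with
      | none => ∼(fm ψ)
      | some φ => fm φ.1 : (LMod R).Formula (Fin n))).relabel Sum.inr) (by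
    intro s
    obtain ⟨x, h1, h2⟩ := hcon ((Finset.eraseNone s).map (Function.Embedding.subtype _)) (by
      intro φ hφ
      rw [Finset.mem_coe, Finset.mem_map] at hφ
      obtain ⟨φ', -, rfl⟩ := hφ
      exact φ'.2)
    refine ⟨x, fun j hj => ?_⟩
    rw [@FirstOrder.Language.Formula.realize_relabel (LMod R) U (modStr R U)]
    have h3 : (Sum.elim (fun i : Empty => i.elim) x ∘ Sum.inr : Fin n → U) = x := rfl
    rw [h3]
    rcases j with _ | φ
    · rw [@FirstOrder.Language.Formula.realize_not (LMod R) U (modStr R U), hfm]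
      exact h2
    · show @FirstOrder.Language.Formula.Realize (LMod R) U (modStr R U) (Fin n) (fm φ.1) x
      rw [hfm]
      refine h1 φ.1 (Finset.mem_map.2 ⟨φ, ?_, rfl⟩)
      rw [Finset.mem_eraseNone]
      exact hj)
  have h3 : ∀ j, _ := fun j => (@FirstOrder.Language.Formula.realize_relabel (LMod R) U (modStr R U)
    _ _ _ _ _).1 (hx j)
  have h4 : (Sum.elim (fun i : Empty => i.elim) x ∘ Sum.inr : Fin n → U) = x := rfl
  rw [h4] at h3
  have h5 := h3 none
  refine absurd (h x fun φ hφ => ?_) ?_
  · have h6 := h3 (some ⟨φ, hφ⟩)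
    exact (hfm φ U x).1 h6
  · rw [← hfm]
    exact (@FirstOrder.Language.Formula.realize_not (LMod R) U (modStr R U) _ _ _).1 h5

theorem thm_ENU : St_ENU := by
  classical
  intro R _ _ U hU κ _ S ψ h
  obtain ⟨n, ⟨e⟩⟩ := Finite.exists_equiv_fin κ
  have hre : ∀ (M : Type) [AddCommGroup M] [Module R M] (φ : PP R κ) (x : Fin n → M),
      Sat (ren e φ) M x ↔ Sat φ M (x ∘ e) := fun M _ _ φ x => sat_ren e φ x
  obtain ⟨s, hs, h1⟩ := ENU_fin hU (ren e '' S) (ren e ψ) (by
    intro x hx
    rw [hre]
    rw [re_ren] at hx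
    exact h _ hx)
  rw [Finset.subset_set_image_iff] at hs
  obtain ⟨s', hs', rfl⟩ := hs
  obtain ⟨χ, hχ⟩ := isPP_finset (R := R) (s'.image (ren e))
  refine ⟨s', hs', ?_⟩
  intro M _ _ hM x hx
  have h2 : (⟨n, χ, ren e ψ⟩ : (n : ℕ) × (PP R (Fin n) × PP R (Fin n))) ∈ Own R U := by
    intro z hz
    exact h1 z ((hχ U z).2 hz)
  have h3 := hM _ h2 (x ∘ e.symm) ((hχ M _).1 (by
    intro φ hφ
    rw [Finset.mem_image] at hφ
    obtain ⟨φ', hφ', rfl⟩ := hφ
    rw [hre]
    have h4 : (x ∘ e.symm) ∘ e = x := by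
      funext i
      simp
    rw [h4]
    exact hx φ' hφ'))
  have h5 : Sat (ren e ψ) M (x ∘ e.symm) := h3
  rw [hre] at h5
  have h4 : (x ∘ e.symm) ∘ e = x := by
    funext i
    simp
  rw [h4] at h5
  exact h5

end Pool.Agent.VMF
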