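import Pool.Agent.VMF.StD
import Pool.Agent.VMF.SHR
import Pool.Agent.MVC.FOR

/-!
# VMF [FIC]: saturation for finitely many variables, finite index is seen by a finite part (helper91)

The first two lemmas are the ones of [ENU] (helper44).
-/

set_option autoImplicit false
set_option linter.unusedSectionVars false
set_option linter.unusedVariables false

namespace Pool.Agent.VMF

open Set Pool.Agent.MVC Pool.Agent.MVC.Ax FirstOrder

/-- finite conjunctions of formulas -/
private theorem FIC_conj {L : FirstOrder.Language.{0, 0}} {U : Type} [L.Structure U] {α J : Type}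
    (F : J → L.Formula α) (s : Finset J) :
    ∃ χ : L.Formula α, ∀ v : α → U, χ.Realize v ↔ ∀ j ∈ s, (F j).Realize v := by
  classical
  induction s using Finset.induction_on with
  | empty => exact ⟨⊤, fun v => by simp⟩
  | insert j s _ ih =>
    obtain ⟨χ, hχ⟩ := ih
    refine ⟨F j ⊓ χ, fun v => ?_⟩
    rw [FirstOrder.Language.Formula.realize_inf, hχ, Finset.forall_mem_insert]

/-- saturation for finitely many variables -/
theorem FIC_satn {L : FirstOrder.Language.{0, 0}} {U : Type} [L.Structure U]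
    (hU : Pool.Agent.WOM.Mon L U) (n : ℕ) : ∀ (κ : Type) [Finite κ] (a : κ → U) (J : Type)
    (F : J → L.Formula (κ ⊕ Fin n)),
    (∀ s : Finset J, ∃ x : Fin n → U, ∀ j ∈ s, (F j).Realize (Sum.elim a x)) →
    ∃ x : Fin n → U, ∀ j, (F j).Realize (Sum.elim a x) := by
  classical
  induction n with
  | zero =>
    intro κ _ a J F hF
    refine ⟨fun i => i.elim0, fun j => ?_⟩
    obtain ⟨x, hx⟩ := hF {j}
    have h1 : x = fun i => i.elim0 := Subsingleton.elim _ _
    rw [← h1]
    exact hx j (Finset.mem_singleton_self j)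
  | succ n ih =>
    intro κ _ a J F hF
    -- the variables: parameters, the first variable, the other variables
    let e : κ ⊕ Fin (n + 1) → (κ ⊕ Unit) ⊕ Fin n :=
      Sum.elim (fun i => Sum.inl (Sum.inl i)) (Fin.cases (Sum.inl (Sum.inr ())) Sum.inr)
    have he : ∀ (b : U) (y : Fin n → U),
        Sum.elim (Sum.elim a (fun _ : Unit => b)) y ∘ e = Sum.elim a (Fin.cons b y) := by
      intro b y
      funext i
      rcases i with i | i
      · rfl
      · refine Fin.cases ?_ (fun i => ?_) i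
        · rfl
        · rfl
    -- the one variable sets
    let D : Finset J → Set U := fun s =>
      {b | ∃ y : Fin n → U, ∀ j ∈ s, (F j).Realize (Sum.elim a (Fin.cons b y))}
    have hD : ∀ s, (range a).Definable₁ L (D s) := by
      intro s
      obtain ⟨χ, hχ⟩ := FIC_conj (U := U) F s
      unfold Set.Definable₁
      rw [Set.definable_iff_exists_formula_sum]
      refine ⟨((χ.relabel e).iExs (Fin n)).relabel
        (Sum.map (fun i => (⟨a i, mem_range_self i⟩ : range a)) (fun _ : Unit => (0 : Fin 1))), ?_⟩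
      ext v
      show (∃ y : Fin n → U, ∀ j ∈ s, (F j).Realize (Sum.elim a (Fin.cons (v 0) y))) ↔
        FirstOrder.Language.Formula.Realize _ (Sum.elim (fun x : range a => (x : U)) v)
      rw [FirstOrder.Language.Formula.realize_relabel,
        FirstOrder.Language.Formula.realize_iExs]
      refine exists_congr fun y => ?_
      rw [FirstOrder.Language.Formula.realize_relabel, hχ]
      have h1 : (Sum.elim (fun x : range a => (x : U)) v ∘
          Sum.map (fun i => (⟨a i, mem_range_self i⟩ : range a)) (fun _ : Unit => (0 : Fin 1))) =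
          Sum.elim a (fun _ : Unit => v 0) := by
        funext i
        rcases i with i | i
        · rfl
        · rfl
      rw [h1, he]
    obtain ⟨b, hb⟩ := hU.sat (range a) (finite_range a) (range D) (by
      rintro _ ⟨s, rfl⟩
      exact hD s) (by
      intro G hG hGf
      obtain ⟨s, hs⟩ : ∃ s : Finset (Finset J), G = D '' (s : Set (Finset J)) := by
        lift G to Finset (Set U) using hGf
        rw [← image_univ, Finset.subset_set_image_iff] at hG
        obtain ⟨s', -, h2⟩ := hG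
        refine ⟨s', ?_⟩
        rw [← h2, Finset.coe_image]
      obtain ⟨x, hx⟩ := hF (s.biUnion id)
      refine ⟨x 0, ?_⟩
      rw [hs]
      rintro _ ⟨t, ht, rfl⟩
      refine ⟨Fin.tail x, fun j hj => ?_⟩
      rw [Fin.cons_self_tail]
      exact hx j (Finset.mem_biUnion.2 ⟨t, ht, hj⟩))
    have hb' : ∀ s, b ∈ D s := fun s => hb (D s) (mem_range_self s)
    obtain ⟨y, hy⟩ := ih (κ ⊕ Unit) (Sum.elim a (fun _ => b)) J (fun j => (F j).relabel e) (by
      intro s
      obtain ⟨y, hy⟩ := hb' s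
      refine ⟨y, fun j hj => ?_⟩
      rw [FirstOrder.Language.Formula.realize_relabel, he]
      exact hy j hj)
    refine ⟨Fin.cons b y, fun j => ?_⟩
    have h1 := hy j
    rw [FirstOrder.Language.Formula.realize_relabel, he] at h1
    exact h1

/-- saturation for sets of positive primitive formulas and negations, variables `Fin n` -/
theorem FIC_satFin {R : Type} [Ring R] {U : Md R} (hU : MonM R U) {n : ℕ}
    (A B : Set (PP R (Fin n)))
    (h : ∀ s t : Finset (PP R (Fin n)), ↑s ⊆ A → ↑t ⊆ B → ∃ x : Fin n → U, (∀ φ ∈ s, Sat φ U x) ∧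
      ∀ ψ ∈ t, ¬ Sat ψ U x) :
    ∃ x : Fin n → U, Re A U x ∧ ∀ ψ ∈ B, ¬ Sat ψ U x := by
  classical
  choose fm hfm using thm_FOR R n
  have hem : ∀ (x : Fin n → U), (Sum.elim (fun i : Empty => i.elim) x ∘ Sum.inr : Fin n → U) = x :=
    fun x => rfl
  obtain ⟨x, hx⟩ := @FIC_satn (LMod R) U (modStr R U) hU n Empty _ (fun i => i.elim) (A ⊕ B)
    (fun j => ((Sum.elim (fun φ : A => fm φ.1) (fun ψ : B => ∼(fm ψ.1)) j :
      (LMod R).Formula (Fin n))).relabel Sum.inr) (by
    intro s
    obtain ⟨x, h1, h2⟩ := h (s.toLeft.map (Function.Embedding.subtype _))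
      (s.toRight.map (Function.Embedding.subtype _)) (by
      intro φ hφ
      rw [Finset.mem_coe, Finset.mem_map] at hφ
      obtain ⟨φ', -, rfl⟩ := hφ
      exact φ'.2) (by
      intro φ hφ
      rw [Finset.mem_coe, Finset.mem_map] at hφ
      obtain ⟨φ', -, rfl⟩ := hφ
      exact φ'.2)
    refine ⟨x, fun j hj => ?_⟩
    rw [@FirstOrder.Language.Formula.realize_relabel (LMod R) U (modStr R U), hem]
    rcases j with φ | ψ
    · show @FirstOrder.Language.Formula.Realize (LMod R) U (modStr R U) (Fin n) (fm φ.1) x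
      rw [hfm]
      refine h1 φ.1 (Finset.mem_map.2 ⟨φ, ?_, rfl⟩)
      rw [Finset.mem_toLeft]
      exact hj
    · show @FirstOrder.Language.Formula.Realize (LMod R) U (modStr R U) (Fin n) (∼(fm ψ.1)) x
      rw [@FirstOrder.Language.Formula.realize_not (LMod R) U (modStr R U), hfm]
      refine h2 ψ.1 (Finset.mem_map.2 ⟨ψ, ?_, rfl⟩)
      rw [Finset.mem_toRight]
      exact hj)
  have h3 : ∀ j, _ := fun j => (@FirstOrder.Language.Formula.realize_relabel (LMod R) U (modStr R U)
    _ _ _ _ _).1 (hx j)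
  rw [hem] at h3
  refine ⟨x, fun φ hφ => ?_, fun ψ hψ => ?_⟩
  · have h6 := h3 (Sum.inl ⟨φ, hφ⟩)
    exact (hfm φ U x).1 h6
  · rw [← hfm]
    exact (@FirstOrder.Language.Formula.realize_not (LMod R) U (modStr R U) _ _ _).1
      (h3 (Sum.inr ⟨ψ, hψ⟩))

/-- the monster module is saturated for finite tuples -/
theorem FIC_SATU {R : Type} [Ring R] {U : Md R} (hU : MonM R U) : SATU U := by
  classical
  intro ι _ A B h
  obtain ⟨n, ⟨e⟩⟩ := Finite.exists_equiv_fin ι
  have h4 : ∀ x : ι → U, (x ∘ e.symm) ∘ e = x := by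
    intro x
    funext i
    simp
  obtain ⟨x, hx1, hx2⟩ := FIC_satFin hU (ren e '' A) (ren e '' B) (by
    intro s t hs ht
    rw [Finset.subset_set_image_iff] at hs ht
    obtain ⟨s', hs', rfl⟩ := hs
    obtain ⟨t', ht', rfl⟩ := ht
    obtain ⟨x, h1, h2⟩ := h s' t' hs' ht'
    refine ⟨x ∘ e.symm, fun φ hφ => ?_, fun ψ hψ => ?_⟩
    · rw [Finset.mem_image] at hφ
      obtain ⟨φ', hφ', rfl⟩ := hφ
      rw [sat_ren, h4]
      exact h1 φ' hφ'
    · rw [Finset.mem_image] at hψ
      obtain ⟨ψ', hψ', rfl⟩ := hψ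
      rw [sat_ren, h4]
      exact h2 ψ' hψ')
  refine ⟨x ∘ e, fun φ hφ => ?_, fun ψ hψ => ?_⟩
  · rw [← sat_ren]
    exact hx1 _ ⟨φ, hφ, rfl⟩
  · rw [← sat_ren]
    exact hx2 _ ⟨ψ, hψ, rfl⟩

theorem thm_FIC : St_FIC := by
  classical
  intro R _ _ U hU κ _ S ψ hψ
  have hS : SATU U := FIC_SATU hU
  by_contra hn
  push Not at hn
  set N := (grp U ({ψ} : Set (PP R κ))).relIndex (grp U S) with hN
  have hbig : ∀ s : Finset (PP R κ), ↑s ⊆ S → ∃ y : Fin (N + 1) → κ → U,
      (∀ a, ∀ φ ∈ s, Sat φ U (y a)) ∧ ∀ a b, a ≠ b → ¬ Sat ψ U (y a - y b) := by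
    intro s hs
    have h1 := hn s hs
    unfold FIn at h1
    rw [not_not] at h1
    obtain ⟨y, hy1, hy2⟩ := many_of_relIndex h1 (N + 1)
    refine ⟨y, fun a φ hφ => hy1 a φ hφ, fun a b hab hs => hy2 a b hab ?_⟩
    intro φ hφ
    rw [mem_singleton_iff] at hφ
    subst hφ
    exact hs
  choose d hd using fun p : Fin (N + 1) × Fin (N + 1) => exists_diff (R := R) ψ p.1 p.2
  obtain ⟨x, hx1, hx2⟩ := hS (Fin (N + 1) × κ)
    {φ | ∃ (a : Fin (N + 1)) (ρ : PP R κ), ρ ∈ S ∧ φ = ren (fun i => (a, i)) ρ}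
    {φ | ∃ a b : Fin (N + 1), a ≠ b ∧ φ = d (a, b)} (by
      intro s t hs ht
      have hs' : ∀ φ ∈ s, ∃ (a : Fin (N + 1)) (ρ : PP R κ), ρ ∈ S ∧
        φ = ren (fun i => (a, i)) ρ := fun φ hφ => hs hφ
      choose! A Ψ hΨ1 hΨ2 using hs'
      obtain ⟨y, hy1, hy2⟩ := hbig (s.image Ψ) (by
        intro ρ hρ
        rw [Finset.mem_coe, Finset.mem_image] at hρ
        obtain ⟨φ, hφ, rfl⟩ := hρ
        exact hΨ1 φ hφ)
      refine ⟨fun p => y p.1 p.2, fun φ hφ => ?_, fun ρ hρ => ?_⟩
      · rw [hΨ2 φ hφ, sat_ren]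
        exact hy1 (A φ) (Ψ φ) (Finset.mem_image_of_mem _ hφ)
      · obtain ⟨a, b, hab, rfl⟩ := ht hρ
        rw [hd]
        exact hy2 a b hab)
  obtain ⟨a, b, hab, h1⟩ := relIndex_many hψ (fun a i => x (a, i)) (fun a φ hφ => by
    have h2 := hx1 _ ⟨a, φ, hφ, rfl⟩
    rw [sat_ren] at h2
    exact h2)
  refine hx2 _ ⟨a, b, hab, rfl⟩ ?_
  rw [hd]
  exact h1 ψ rfl

end Pool.Agent.VMF
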