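import Pool.Agent.VMF.StF
import Pool.Agent.VMF.SHR

/-!
# VMF, block Q: finite index subtypes of full types are full (FUI)
-/

set_option autoImplicit false
set_option linter.unusedSectionVars false
set_option linter.unusedVariables false

namespace Pool.Agent.VMF

open Set Pool.Agent.MVC Pool.Agent.MVC.Ax

theorem thm_FUI (hQ : St_FUQ) (hF : St_FIF) : St_FUI := by
  intro R _ _ U hU κ _ S S' hS hfi hle
  rintro x hx ψ ⟨hψ1, hψ2⟩
  have h1 : FIn U S (S' ∪ {ψ}) :=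
    hfi.trans' (hψ1.of_ge (grp_anti subset_union_right))
  obtain ⟨χ, hχ1, hχ2⟩ := hQ R U hU κ S (S' ∪ {ψ}) hS h1
  obtain ⟨c, w, rfl, hc, hwS, hw⟩ := hχ2 x (hle x hx)
  rw [re_union] at hw
  have hcS : Re S' U c := by
    have h2 := hx.sub hw.1
    rwa [add_sub_cancel_right] at h2
  obtain ⟨s, hs1, hs2⟩ := hF R U κ S S' hfi
  obtain ⟨ρ, hρ⟩ := (isPP_sat χ).and (isPP_finset s)
  refine Sat.add (hψ2 ρ (fun y hy => ?_) c ?_ ψ rfl) (hw.2 ψ rfl)
  · obtain ⟨h3, h4⟩ := (hρ U y).mpr hy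
    exact hs2 y (hχ1 y h3) h4
  · exact (hρ U c).mp ⟨hc, fun φ hφ => hcS φ (hs1 hφ)⟩

end Pool.Agent.VMF
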