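import Pool.Agent.VMF.StD
import Pool.Agent.VMF.SHR

/-!
# VMF: finite products of full types are full (`St_FUP`, `St_FU2`)
-/

set_option autoImplicit false
set_option linter.unusedSectionVars false
set_option linter.unusedVariables false

namespace Pool.Agent.VMF

open Set Pool.Agent.MVC Pool.Agent.MVC.Ax

section

variable {R : Type} [Ring R] {ι κ : Type}

/-- extension of tuples by zero along an injective map -/
noncomputable def ezr (U : Type) [AddCommGroup U] (f : κ → ι) : (κ → U) →+ (ι → U) where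
  toFun y := Function.extend f y 0
  map_zero' := by
    funext i
    by_cases h : ∃ k, f k = i
    · simp only [Function.extend, h, dite_true, Pi.zero_apply]
    · rw [Function.extend_apply' _ _ _ h]
  map_add' y z := by
    funext i
    by_cases h : ∃ k, f k = i
    · simp only [Function.extend, h, dite_true, Pi.add_apply]
    · rw [Pi.add_apply, Function.extend_apply' _ _ _ h, Function.extend_apply' _ _ _ h,
        Function.extend_apply' _ _ _ h]
      simp

theorem ezr_apply {U : Type} [AddCommGroup U] {f : κ → ι} (hf : Function.Injective f)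
    (y : κ → U) (k : κ) : ezr U f y (f k) = y k := hf.extend_apply y 0 k

theorem ezr_apply' {U : Type} [AddCommGroup U] {f : κ → ι}
    (y : κ → U) (i : ι) (h : ¬ ∃ k, f k = i) : ezr U f y i = 0 := by
  show Function.extend f y 0 i = 0
  rw [Function.extend_apply' _ _ _ h]
  rfl

/-- the formula stating that the coordinates outside the range of `f` are zero -/
theorem exists_out [Finite ι] (f : κ → ι) : ∃ φ : PP R ι, ∀ (M : Type) [AddCommGroup M]
    [Module R M] (x : ι → M), Sat φ M x ↔ ∀ i, (¬ ∃ k, f k = i) → x i = 0 := by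
  classical
  have : Fintype ι := Fintype.ofFinite ι
  refine ⟨(Finset.univ.filter (fun i : ι => ¬ ∃ k, f k = i)).toList.map
    (fun i => Finsupp.single (Sum.inl i) 1), fun M _ _ x => ?_⟩
  constructor
  · rintro ⟨y, hy⟩ i hi
    have h1 := hy (Finsupp.single (Sum.inl i) 1) (List.mem_map_of_mem (by
      rw [Finset.mem_toList, Finset.mem_filter]
      exact ⟨Finset.mem_univ _, hi⟩))
    simpa using h1
  · intro h
    refine ⟨0, fun e he => ?_⟩
    obtain ⟨i, hi, rfl⟩ := List.mem_map.mp he
    rw [Finset.mem_toList, Finset.mem_filter] at hi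
    have h1 := h i hi.2
    simp [h1]

/-- the formula `ψ` at the tuple extended by zero -/
theorem exists_ezr (f : κ → ι) (hf : Function.Injective f) (ψ : PP R ι) : ∃ φ : PP R κ,
    ∀ (M : Type) [AddCommGroup M] [Module R M] (y : κ → M), Sat φ M y ↔ Sat ψ M (ezr M f y) := by
  classical
  obtain ⟨φ, hφ⟩ := (isPP_sat ψ).subst (ι := κ) (fun i : ι =>
    if h : ∃ k, f k = i then Finsupp.single h.choose (1 : R) else 0)
  refine ⟨φ, fun M _ _ y => (hφ M y).symm.trans (iff_of_eq ?_)⟩
  show Sat ψ M (fun i => Finsupp.linearCombination R y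
    (if h : ∃ k, f k = i then Finsupp.single h.choose (1 : R) else 0)) = _
  congr 1
  funext i
  by_cases h : ∃ k, f k = i
  · obtain ⟨k, rfl⟩ := h
    rw [ezr_apply hf, dif_pos ⟨k, rfl⟩]
    have h1 : (⟨k, rfl⟩ : ∃ k', f k' = f k).choose = k :=
      hf (⟨k, rfl⟩ : ∃ k', f k' = f k).choose_spec
    rw [h1]
    simp
  · rw [ezr_apply' y i h, dif_neg h, map_zero]

/-- a formula of `T¹` holds at the tuples which realise a full type, extended by zero -/
theorem full_ezr [Finite ι] (U : Md R) (f : κ → ι) (hf : Function.Injective f)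
    (S : Set (PP R κ)) (T : Set (PP R ι)) (hS : Full U S)
    (ha : ∀ y : κ → U, Re S U y → Re T U (ezr U f y)) (ψ : PP R ι) (hψ : ψ ∈ one U T)
    (y : κ → U) (hy : Re S U y) : Sat ψ U (ezr U f y) := by
  obtain ⟨φ, hφ⟩ := exists_ezr f hf ψ
  obtain ⟨ω, hω⟩ := exists_out (R := R) f
  refine (hφ U y).mp (hS y hy φ ⟨?_, ?_⟩)
  · have h1 := hψ.1
    unfold FIn at h1 ⊢
    have h2 : grp U ({φ} : Set (PP R κ)) = (grp U ({ψ} : Set (PP R ι))).comap (ezr U f) := by
      ext z
      rw [AddSubgroup.mem_comap, mem_grp, mem_grp]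
      constructor
      · intro h χ hχ
        rw [mem_singleton_iff] at hχ
        subst hχ
        exact (hφ U z).mp (h φ rfl)
      · intro h χ hχ
        rw [mem_singleton_iff] at hχ
        subst hχ
        exact (hφ U z).mpr (h ψ rfl)
    rw [h2, AddSubgroup.relIndex_comap]
    intro h0
    refine h1 (AddSubgroup.relIndex_eq_zero_of_le_right ?_ h0)
    rintro _ ⟨z, hz, rfl⟩
    exact ha z hz
  · intro χ hχ z hz χ' hχ'
    rw [mem_singleton_iff] at hχ'
    subst hχ'
    rw [hφ]
    obtain ⟨δ, hδ⟩ := ((isPP_sat χ).comap f).and (isPP_sat ω)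
    refine hψ.2 δ ?_ (ezr U f z) ?_ ψ rfl
    · intro x hx
      obtain ⟨h1, h2⟩ := (hδ U x).mpr hx
      have h3 : x = ezr U f (x ∘ f) := by
        funext i
        by_cases h : ∃ k, f k = i
        · obtain ⟨k, rfl⟩ := h
          rw [ezr_apply hf]
          rfl
        · rw [ezr_apply' _ i h]
          exact (hω U x).mp h2 i h
      rw [h3]
      exact ha _ (hχ _ h1)
    · refine (hδ U _).mp ⟨?_, (hω U _).mpr fun i hi => ezr_apply' z i hi⟩
      have h4 : ezr U f z ∘ f = z := by
        funext k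
        exact ezr_apply hf z k
      show Sat χ U (ezr U f z ∘ f)
      rw [h4]
      exact hz

end

theorem thm_FUP : St_FUP := by
  classical
  intro R _ _ U hU J _ κ _ S hS x hx ψ hψ
  have : Fintype J := Fintype.ofFinite J
  have h1 : ∀ j, Sat ψ U (ezr U (Sigma.mk j) (fun i => x ⟨j, i⟩)) := by
    intro j
    refine full_ezr U (Sigma.mk j) sigma_mk_injective (S j) (cup S) (hS j) ?_ ψ hψ _
      ((re_cup S x).mp hx j)
    intro y hy
    rw [re_cup]
    intro j'
    by_cases h : j' = j
    · subst h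
      have h2 : (fun i => ezr U (Sigma.mk j') y ⟨j', i⟩) = y := by
        funext i
        exact ezr_apply sigma_mk_injective y i
      rw [h2]
      exact hy
    · have h2 : (fun i => ezr U (Sigma.mk j) y ⟨j', i⟩) = 0 := by
        funext i
        refine ezr_apply' y _ ?_
        rintro ⟨k, hk⟩
        exact h (congrArg Sigma.fst hk).symm
      rw [h2]
      exact Re.zero _
  have h2 : x = ∑ j, ezr U (Sigma.mk j) (fun i => x ⟨j, i⟩) := by
    funext p
    obtain ⟨j, i⟩ := p
    rw [Finset.sum_apply, Finset.sum_eq_single j]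
    · exact (ezr_apply (U := U) (f := (Sigma.mk j : κ j → (j : J) × κ j)) sigma_mk_injective
        (fun i => x ⟨j, i⟩) i).symm
    · intro j' _ hj'
      refine ezr_apply' _ _ ?_
      rintro ⟨k, hk⟩
      exact hj' (congrArg Sigma.fst hk)
    · intro h
      exact absurd (Finset.mem_univ _) h
  rw [h2]
  have h3 : (∑ j, ezr U (Sigma.mk j) (fun i => x ⟨j, i⟩)) ∈ satGroup ψ U :=
    AddSubgroup.sum_mem _ fun j _ => h1 j
  exact h3

theorem thm_FU2 : St_FU2 := by
  intro R _ _ U hU κ₁ κ₂ _ _ S₁ S₂ hS₁ hS₂ x hx ψ hψ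
  have hT : ∀ z : κ₁ ⊕ κ₂ → U, Re (ren Sum.inl '' S₁ ∪ ren Sum.inr '' S₂) U z ↔
      Re S₁ U (z ∘ Sum.inl) ∧ Re S₂ U (z ∘ Sum.inr) := by
    intro z
    constructor
    · intro h
      constructor
      · have h1 : Re (ren Sum.inl '' S₁) U z := h.mono subset_union_left
        rwa [re_ren] at h1
      · have h1 : Re (ren Sum.inr '' S₂) U z := h.mono subset_union_right
        rwa [re_ren] at h1
    · rintro ⟨h1, h2⟩ φ (hφ | hφ)
      · have h3 : Re (ren Sum.inl '' S₁) U z := by
          rw [re_ren]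
          exact h1
        exact h3 φ hφ
      · have h3 : Re (ren Sum.inr '' S₂) U z := by
          rw [re_ren]
          exact h2
        exact h3 φ hφ
  have hx' := (hT x).mp hx
  have h1 : Sat ψ U (ezr U Sum.inl (x ∘ Sum.inl)) := by
    refine full_ezr U Sum.inl Sum.inl_injective S₁ _ hS₁ ?_ ψ hψ _ hx'.1
    intro y hy
    rw [hT]
    constructor
    · have h2 : ezr U (Sum.inl : κ₁ → κ₁ ⊕ κ₂) y ∘ Sum.inl = y := by
        funext i
        exact ezr_apply Sum.inl_injective y i
      rw [h2]
      exact hy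
    · have h2 : ezr U (Sum.inl : κ₁ → κ₁ ⊕ κ₂) y ∘ Sum.inr = 0 := by
        funext i
        refine ezr_apply' y _ ?_
        rintro ⟨k, hk⟩
        exact Sum.inl_ne_inr hk
      rw [h2]
      exact Re.zero _
  have h3 : Sat ψ U (ezr U Sum.inr (x ∘ Sum.inr)) := by
    refine full_ezr U Sum.inr Sum.inr_injective S₂ _ hS₂ ?_ ψ hψ _ hx'.2
    intro y hy
    rw [hT]
    constructor
    · have h2 : ezr U (Sum.inr : κ₂ → κ₁ ⊕ κ₂) y ∘ Sum.inl = 0 := by
        funext i
        refine ezr_apply' y _ ?_
        rintro ⟨k, hk⟩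
        exact Sum.inr_ne_inl hk
      rw [h2]
      exact Re.zero _
    · have h2 : ezr U (Sum.inr : κ₂ → κ₁ ⊕ κ₂) y ∘ Sum.inr = y := by
        funext i
        exact ezr_apply Sum.inr_injective y i
      rw [h2]
      exact hy
  have h4 : x = ezr U Sum.inl (x ∘ Sum.inl) + ezr U Sum.inr (x ∘ Sum.inr) := by
    funext i
    cases i with
    | inl i =>
      rw [Pi.add_apply, ezr_apply Sum.inl_injective, ezr_apply' _ _ (by
        rintro ⟨k, hk⟩
        exact Sum.inr_ne_inl hk), add_zero]
      rfl
    | inr i =>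
      rw [Pi.add_apply, ezr_apply Sum.inr_injective, ezr_apply' _ _ (by
        rintro ⟨k, hk⟩
        exact Sum.inl_ne_inr hk), zero_add]
      rfl
  rw [h4]
  exact h1.add h3

end Pool.Agent.VMF
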