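import Pool.Agent.VMF.StF

/-!
# VMF: [FUS], [FUT], images of full types are full
-/

set_option autoImplicit false
set_option linter.unusedSectionVars false
set_option linter.unusedVariables false

namespace Pool.Agent.VMF

open Set Pool.Agent.MVC Pool.Agent.MVC.Ax

theorem thm_FUS (hK : St_KIL) : St_FUS := by
  intro R _ _ U hU κ l _ _ S T θ χ hS h1 h2 h3 h4 y hy ψ hψ
  obtain ⟨hψ1, hψ2⟩ := hψ
  obtain ⟨u, c, hu, hc, hyc⟩ := h4 y hy
  have h5 : Sat ψ U (y - c) := hK R U hU κ l S θ T ψ hS hψ1 hψ2 h1 h2 u (y - c) hu hyc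
  have h6 : Sat ψ U c := hψ2 χ h3 c hc ψ rfl
  have h7 := Sat.add h5 h6
  rwa [sub_add_cancel] at h7

/-- the formula `x' = u ∧ θ(x', y')` -/
theorem FUT_formula {R : Type} [Ring R] {κ l : Type} [Finite κ] [Finite l] (θ : PP R (κ ⊕ l)) :
    IsPP (R := R) (ι := κ ⊕ (κ ⊕ l)) (fun M _ _ z =>
      (∀ i, z (Sum.inr (Sum.inl i)) = z (Sum.inl i)) ∧ Sat θ M (z ∘ Sum.inr)) := by
  have h1 : IsPP (R := R) (ι := κ ⊕ (κ ⊕ l)) (fun M _ _ z =>
      (fun i : κ => z (Sum.inr (Sum.inl i)) - z (Sum.inl i)) = 0) := by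
    refine ((isPP_zero (R := R) (ι := κ)).subst (ι := κ ⊕ (κ ⊕ l)) (fun i : κ =>
      Finsupp.single (Sum.inr (Sum.inl i)) (1 : R) - Finsupp.single (Sum.inl i) 1)).congr
      (fun M _ _ x => ?_)
    simp [map_sub]
  refine (h1.and ((isPP_sat θ).comap Sum.inr)).congr (fun M _ _ x => ?_)
  refine and_congr_left fun _ => ?_
  constructor
  · intro h i
    exact sub_eq_zero.1 (congrFun h i)
  · intro h
    funext i
    exact sub_eq_zero.2 (h i)

theorem thm_FUT (hS : St_FUS) : St_FUT := by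
  intro R _ _ U hU κ l _ _ S θ hF h1
  obtain ⟨θ', hθ'⟩ := FUT_formula (R := R) θ
  obtain ⟨χ, hχ⟩ := isPP_zero (R := R) (ι := κ ⊕ l)
  have hT : ∀ z : κ ⊕ l → U, Re (ren Sum.inl '' S ∪ {θ}) U z ↔
      Re S U (z ∘ Sum.inl) ∧ Sat θ U z := by
    intro z
    rw [re_union, re_ren]
    refine and_congr_right fun _ => ?_
    constructor
    · intro h
      exact h θ rfl
    · rintro h φ rfl
      exact h
  refine hS R U hU κ (κ ⊕ l) S (ren Sum.inl '' S ∪ {θ}) θ' χ hF ?_ ?_ ?_ ?_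
  · intro u hu
    obtain ⟨y, hy⟩ := h1 u hu
    refine ⟨Sum.elim u y, (hθ' U _).1 ⟨fun i => rfl, ?_⟩⟩
    exact hy
  · intro u z hu hz
    obtain ⟨h2, h3⟩ := (hθ' U _).2 hz
    have h4 : z ∘ Sum.inl = u := funext fun i => h2 i
    rw [hT, h4]
    exact ⟨hu, h3⟩
  · intro z hz
    rw [← hχ] at hz
    rw [hz]
    exact Re.zero _
  · intro z hz
    rw [hT] at hz
    refine ⟨z ∘ Sum.inl, 0, hz.1, Sat.zero χ, (hθ' U _).1 ⟨fun i => ?_, ?_⟩⟩
    · simp
    · rw [sub_zero]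
      exact hz.2

end Pool.Agent.VMF
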