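import Pool.Agent.VMF.StD

/-!
# VMF, module HCG: honest modules for equivalent types (helper30)
-/

set_option autoImplicit false

namespace Pool.Agent.VMF

open Set Pool.Agent.MVC Pool.Agent.MVC.Ax

/-- finitely many members of `S` follow from finitely many members of `S'` -/
private theorem HCG_fin {R : Type} [Ring R] (X : Ax R) {ι : Type} {S S' : Set (PP R ι)}
    (h : ∀ ψ ∈ S, X.Ent S' ψ) (s : Finset (PP R ι)) (hs : (s : Set (PP R ι)) ⊆ S) :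
    ∃ s' : Finset (PP R ι), (s' : Set (PP R ι)) ⊆ S' ∧
      ∀ (M : Type) [AddCommGroup M] [Module R M], X.In M → ∀ x : ι → M,
        (∀ φ ∈ s', Sat φ M x) → ∀ φ ∈ s, Sat φ M x := by
  classical
  choose t ht ht' using h
  refine ⟨s.attach.biUnion fun φ => t φ.1 (hs φ.2), ?_, ?_⟩
  · intro ψ hψ
    rw [Finset.mem_coe, Finset.mem_biUnion] at hψ
    obtain ⟨φ, -, hφ⟩ := hψ
    exact ht φ.1 (hs φ.2) hφ
  · intro M _ _ hM x hx φ hφ
    refine ht' φ (hs hφ) M hM x fun ψ hψ => hx ψ ?_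
    rw [Finset.mem_biUnion]
    exact ⟨⟨φ, hφ⟩, Finset.mem_attach _ _, hψ⟩

theorem thm_HCG : St_HCG := by
  intro R _ _ X ι S S' N g h1 h2 hN
  refine ⟨hN.mem, hN.ctbl, ?_, ?_, ?_⟩
  · intro ψ hψ
    obtain ⟨s, hs, hs'⟩ := h1 ψ hψ
    exact hs' N hN.mem g fun φ hφ => hN.sat φ (hs hφ)
  · intro ψ hψ
    obtain ⟨s, hs, hs'⟩ := hN.gen0 ψ hψ
    obtain ⟨t, ht, ht'⟩ := HCG_fin X h2 s hs
    exact ⟨t, ht, fun M _ _ hM x hx => hs' M hM x (ht' M hM x hx)⟩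
  · intro k b
    obtain ⟨θ, hθ, hθ'⟩ := hN.gen k b
    refine ⟨θ, hθ, fun ψ hψ => ?_⟩
    obtain ⟨s, hs, hs'⟩ := hθ' ψ hψ
    obtain ⟨t, ht, ht'⟩ := HCG_fin X h2 s hs
    exact ⟨t, ht, fun M _ _ hM x y hx hy => hs' M hM x y (ht' M hM x hx) hy⟩

end Pool.Agent.VMF
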