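import Pool.Agent.VMF.StD
import Pool.Agent.VMF.SHR

/-!
# VMF, module QIS: full types of finite index have isomorphic honest modules (0.2)
-/

set_option autoImplicit false
set_option linter.unusedSectionVars false
set_option linter.unusedVariables false

namespace Pool.Agent.VMF

open Set Pool.Agent.MVC Pool.Agent.MVC.Ax

section

variable {R : Type} [Ring R] {ι κ l : Type} {U : Md R}

private theorem re_single' {φ : PP R κ} {x : κ → U} : Re ({φ} : Set (PP R κ)) U x ↔ Sat φ U x :=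
  ⟨fun h => h φ rfl, fun h ψ hψ => by rw [mem_singleton_iff] at hψ; rw [hψ]; exact h⟩

private theorem eq_of_relIndex' {G : Type} [AddCommGroup G] {H K L : AddSubgroup G} (h : H ≤ K)
    (h0 : H.relIndex L ≠ 0) (hle : H.relIndex L ≤ K.relIndex L) : K ⊓ L ≤ H := by
  have h1 := AddSubgroup.relIndex_inf_mul_relIndex (H := H) (K := K) (L := L)
  rw [inf_eq_left.mpr h] at h1
  have h2 : H.relIndex (K ⊓ L) = 1 := by
    have h3 : H.relIndex (K ⊓ L) ≠ 0 := fun h4 => h0 (by rw [← h1, h4, zero_mul])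
    have h4 : K.relIndex L ≠ 0 := fun h4 => h0 (by rw [← h1, h4, mul_zero])
    have h5 : H.relIndex (K ⊓ L) * K.relIndex L ≤ 1 * K.relIndex L := by
      rw [h1, one_mul]
      exact hle
    have h6 := Nat.le_of_mul_le_mul_right h5 (Nat.pos_of_ne_zero h4)
    omega
  exact AddSubgroup.relIndex_eq_one.mp h2

/-- a type of finite index in `S` is given by one formula -/
private theorem fin_formula {S S' : Set (PP R κ)} (h : FIn U S S') : ∃ ψ : PP R κ,
    (∀ x : κ → U, Re S' U x → Sat ψ U x) ∧ ∀ x : κ → U, Re S U x → Sat ψ U x → Re S' U x := by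
  classical
  let A : Set ℕ := {n | ∃ s : Finset (PP R κ), ↑s ⊆ S' ∧ (grp U (s : Set (PP R κ))).relIndex
    (grp U S) = n}
  have hdvd : ∀ s : Finset (PP R κ), ↑s ⊆ S' → (grp U (s : Set (PP R κ))).relIndex (grp U S) ∣
      (grp U S').relIndex (grp U S) := fun s hs => AddSubgroup.relIndex_dvd_of_le_left _ (grp_anti hs)
  have hb : BddAbove A := by
    refine ⟨(grp U S').relIndex (grp U S), ?_⟩
    rintro _ ⟨s, hs, rfl⟩
    exact Nat.le_of_dvd (Nat.pos_of_ne_zero h) (hdvd s hs)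
  have hne : A.Nonempty := ⟨_, ∅, by simp, rfl⟩
  obtain ⟨s, hs, hsA⟩ := Nat.sSup_mem hne hb
  obtain ⟨ψ, hψ⟩ := isPP_finset s
  refine ⟨ψ, fun x hx => (hψ U x).mp fun φ hφ => hx φ (hs hφ), fun x hx hx' φ hφ => ?_⟩
  have ht : (↑(insert φ s) : Set (PP R κ)) ⊆ S' := by
    intro θ hθ
    rw [Finset.mem_coe, Finset.mem_insert] at hθ
    rcases hθ with rfl | hθ
    · exact hφ
    · exact hs hθ
  have h1 : (grp U (↑(insert φ s) : Set (PP R κ))).relIndex (grp U S) ≤ (grp U (s : Set (PP R κ))).relIndex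
      (grp U S) := by
    rw [hsA]
    exact le_csSup hb ⟨_, ht, rfl⟩
  have h2 : (grp U (↑(insert φ s) : Set (PP R κ))).relIndex (grp U S) ≠ 0 := fun h3 => h (by
    have := hdvd _ ht
    rw [h3] at this
    exact Nat.eq_zero_of_zero_dvd this)
  have h3 := eq_of_relIndex' (grp_anti (U := U) (by
    intro θ hθ
    rw [Finset.mem_coe] at hθ ⊢
    exact Finset.mem_insert_of_mem hθ)) h2 h1
  have h4 : x ∈ grp U (s : Set (PP R κ)) ⊓ grp U S := ⟨(hψ U x).mpr hx', hx⟩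
  exact h3 h4 φ (by
    rw [Finset.mem_coe]
    exact Finset.mem_insert_self φ s)

/-- `φ + ψ` -/
private theorem exists_add' [Countable κ] (φ ψ : PP R κ) : ∃ σ : PP R κ,
    ∀ (M : Type) [AddCommGroup M] [Module R M] (x : κ → M),
      Sat σ M x ↔ ∃ c : κ → M, Sat φ M c ∧ Sat ψ M (x - c) := by
  obtain ⟨σ, hσ⟩ := (isPP_sat φ).sum (isPP_sat ψ)
  exact ⟨σ, fun M _ _ x => (hσ M x).symm⟩

/-- `φ ∧ ψ` -/
private theorem exists_and' (φ ψ : PP R κ) : ∃ σ : PP R κ,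
    ∀ (M : Type) [AddCommGroup M] [Module R M] (x : κ → M),
      Sat σ M x ↔ Sat φ M x ∧ Sat ψ M x := by
  obtain ⟨σ, hσ⟩ := (isPP_sat φ).and (isPP_sat ψ)
  exact ⟨σ, fun M _ _ x => (hσ M x).symm⟩

/-- 0.1: if `S` is full and `S ∧ ψ` is of finite index in `S` then `S = χ + (S ∧ ψ)` for a formula `χ`
which is contained in `S`. -/
private theorem full_split [Finite κ] {S : Set (PP R κ)} (hS : Full U S) {ψ : PP R κ}
    (h : FIn U S {ψ}) : ∃ χ : PP R κ, (∀ x : κ → U, Sat χ U x → Re S U x) ∧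
      ∀ x : κ → U, Re S U x → ∃ c : κ → U, Sat χ U c ∧ Sat ψ U (x - c) := by
  choose σ hσ using fun χ : PP R κ => exists_add' χ ψ
  have hψσ : ∀ χ, grp U ({ψ} : Set (PP R κ)) ≤ grp U {σ χ} := by
    intro χ x hx
    rw [mem_grp, re_single'] at hx ⊢
    rw [hσ]
    exact ⟨0, Sat.zero χ, by rw [sub_zero]; exact hx⟩
  have hfi : ∀ χ, FIn U S {σ χ} := fun χ => h.of_le (hψσ χ)
  let A : Set ℕ := {n | ∃ χ : PP R κ, (∀ x : κ → U, Sat χ U x → Re S U x) ∧
    (grp U ({σ χ} : Set (PP R κ))).relIndex (grp U S) = n}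
  have hne : A.Nonempty := by
    obtain ⟨z, hz⟩ := isPP_zero (R := R) (ι := κ)
    exact ⟨_, z, fun x hx => by
      have h1 : x = 0 := (hz U x).mpr hx
      rw [h1]
      exact Re.zero S, rfl⟩
  obtain ⟨χ, hχ, hA⟩ := Nat.sInf_mem hne
  refine ⟨χ, hχ, ?_⟩
  have h1 : σ χ ∈ one U S := by
    refine ⟨hfi χ, fun χ' hχ' x hx => ?_⟩
    rw [re_single']
    obtain ⟨χ'', hχ''⟩ := exists_add' χ χ'
    have h2 : ∀ x : κ → U, Sat χ'' U x → Re S U x := by
      intro x hx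
      obtain ⟨c, hc, hd⟩ := (hχ'' U x).mp hx
      have h3 := Re.add (hχ c hc) (hχ' _ hd)
      rwa [add_sub_cancel] at h3
    have h3 : grp U ({σ χ} : Set (PP R κ)) ≤ grp U {σ χ''} := by
      intro y hy
      rw [mem_grp, re_single', hσ] at hy ⊢
      obtain ⟨c, hc, hd⟩ := hy
      exact ⟨c, (hχ'' U c).mpr ⟨c, hc, by rw [sub_self]; exact Sat.zero χ'⟩, hd⟩
    have h4 := eq_of_relIndex' (L := grp U S) h3 (hfi χ) (by
      rw [hA]
      exact Nat.sInf_le ⟨χ'', h2, rfl⟩)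
    have h5 : x ∈ grp U ({σ χ''} : Set (PP R κ)) ⊓ grp U S := by
      refine ⟨?_, hχ' x hx⟩
      show Re _ U x
      rw [re_single', hσ]
      exact ⟨x, (hχ'' U x).mpr ⟨0, Sat.zero χ, by rw [sub_zero]; exact hx⟩, by
        rw [sub_self]
        exact Sat.zero ψ⟩
    have h6 := h4 h5
    rw [mem_grp, re_single'] at h6
    exact h6
  intro x hx
  exact (hσ χ U x).mp (hS x hx _ h1)

end

/-- 0.2 -/
theorem thm_QIS (hE : St_ENU) (hX : MVC.St_EX0) (hN : MVC.St_NUP) : St_QIS := by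
  intro R _ _ U hU κ _ S S' N N' g g' hS hfi hle hg hg' ρ hρ
  obtain ⟨ψ, hψ1, hψ2⟩ := fin_formula hfi
  obtain ⟨χ, hχ, hsp⟩ := full_split hS (hfi.of_le fun y hy => re_single'.mpr (hψ1 y hy))
  obtain ⟨σ, hσ⟩ := exists_add' χ ψ
  obtain ⟨τ, hτ⟩ := exists_and' χ ψ
  -- the implications in the class
  have e1 : (Own R U).Ent S σ := hE R U hU κ S σ fun x hx => (hσ U x).mpr (hsp x hx)
  have e2 : (Own R U).Ent S' ψ := hE R U hU κ S' ψ hψ1
  have e3 : ∀ φ ∈ S', (Own R U).Ent (S ∪ {ψ}) φ := fun φ hφ =>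
    hE R U hU κ _ φ fun x hx => hψ2 x (re_union.mp hx).1 (re_single'.mp (re_union.mp hx).2) φ hφ
  have e4 : ∀ φ ∈ S, (Own R U).Le χ φ := by
    intro φ hφ M _ _ hM x hx
    have h1 := hE R U hU κ {χ} φ fun x hx => hχ x (re_single'.mp hx) φ hφ
    exact h1.sat hM fun θ hθ => by
      rw [mem_singleton_iff] at hθ
      rw [hθ]
      exact hx
  have e5 : ∀ φ ∈ S', (Own R U).Le τ φ := by
    intro φ hφ M _ _ hM x hx
    have h1 := hE R U hU κ {τ} φ fun x hx => by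
      have h2 := (hτ U x).mp (re_single'.mp hx)
      exact hψ2 x (hχ x h2.1) h2.2 φ hφ
    exact h1.sat hM fun θ hθ => by
      rw [mem_singleton_iff] at hθ
      rw [hθ]
      exact hx
  obtain ⟨c, hc, hd⟩ := (hσ N g).mp (e1.sat hg.mem hg.sat)
  have hcS : Re S N c := fun φ hφ => e4 φ hφ N hg.mem c hc
  have hw : Re S' N (g - c) := by
    intro φ hφ
    refine (e3 φ hφ).sat hg.mem ?_
    rw [re_union]
    refine ⟨hg.sat.sub hcS, fun θ hθ => ?_⟩
    rw [mem_singleton_iff] at hθ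
    rw [hθ]
    exact hd
  obtain ⟨j, hj⟩ := hX R (Own R U) κ S' N' N g' (g - c) hg' hg.mem hw
  refine ⟨j, ?_, ?_⟩
  · refine hN R (Own R U) κ S N N g _ hg ⟨χ, e4, ?_⟩
    have h1 : ⇑(j ∘ₗ ρ - LinearMap.id : N →ₗ[R] N) ∘ g = -c := by
      funext i
      show j (ρ (g i)) - g i = -c i
      rw [hρ, hj]
      show g i - c i - g i = -c i
      abel
    rw [h1]
    exact hc.neg
  · refine hN R (Own R U) κ S' N' N' g' _ hg' ⟨τ, e5, ?_⟩
    have h1 : ⇑(ρ ∘ₗ j - LinearMap.id : N' →ₗ[R] N') ∘ g' = -(ρ ∘ c) := by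
      funext i
      show ρ (j (g' i)) - g' i = -ρ (c i)
      rw [hj]
      show ρ (g i - c i) - g' i = -ρ (c i)
      rw [map_sub, hρ]
      abel
    rw [h1]
    refine Sat.neg ((hτ N' _).mpr ⟨hc.map ρ, ?_⟩)
    have h2 : ρ ∘ c = g' - ρ ∘ (g - c) := by
      funext i
      show ρ (c i) = g' i - ρ (g i - c i)
      rw [map_sub, hρ]
      abel
    have h3 : Sat ψ N' (ρ ∘ (g - c)) := hd.map ρ
    have h4 : Sat ψ N' g' := e2.sat hg'.mem hg'.sat
    have h5 := h4.sub h3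
    rw [← h2] at h5
    exact h5

end Pool.Agent.VMF
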