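import Pool.Agent.VMF.StF
import Pool.Agent.VMF.SHR
import Pool.Agent.VMF.HCG

/-!
# VMF, block Q, module TF6: cosets of finite index in full types have points in the models (helper60)
-/

set_option autoImplicit false

namespace Pool.Agent.VMF

open Set Pool.Agent.MVC Pool.Agent.MVC.Ax

theorem thm_TF6 (hQ : St_FUQ) (hF : St_FIF) (hC : St_COS) : St_TF6 := by
  intro R _ _ U hM ι κ _ _ a p S S' x hfull hfin hx
  obtain ⟨χ, h1, h2⟩ := hQ R U hM κ S S' hfull hfin
  obtain ⟨s, hs, h3⟩ := hF R U κ S S' hfin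
  obtain ⟨ψ, hψ⟩ := isPP_finset (R := R) s
  obtain ⟨c, w, hxc, hc, hw, hw'⟩ := h2 x hx
  -- the formula `χ` in the variables of `κ`
  have hz : Sat (ren Sum.inr χ) U (Sum.elim a c) := by
    rw [sat_ren, Sum.elim_comp_inr]
    exact hc
  have hzer : ∀ y : κ → U, Re ({zer (ren (Sum.inr : κ → ι ⊕ κ) χ)} : Set (PP R κ)) U y →
      Sat χ U y := by
    intro y hy
    have h4 := hy _ (mem_singleton _)
    rw [sat_zer, sat_ren, Sum.elim_comp_inr] at h4
    exact h4
  have hfi : FIn U {zer (ren (Sum.inr : κ → ι ⊕ κ) χ)} {ψ} := by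
    refine (hfin.of_ge (S' := {zer (ren (Sum.inr : κ → ι ⊕ κ) χ)}) ?_).of_le ?_
    · intro y hy
      exact h1 y (hzer y hy)
    · intro y hy φ hφ
      rw [mem_singleton_iff] at hφ
      subst hφ
      exact (hψ U y).1 fun φ hφ => hy φ (hs hφ)
  obtain ⟨y, hy, hy'⟩ := hC R U hM ι κ a p (ren Sum.inr χ) ψ c hz hfi
  rw [sat_ren, Sum.elim_comp_inr] at hy
  refine ⟨y, h1 _ hy, ?_⟩
  have h5 : Re S' U ((fun i => p.1.2 (y i)) - c) := by
    exact h3 _ ((h1 _ hy).sub (h1 _ hc)) ((hψ U _).2 hy')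
  have h6 : (fun i => p.1.2 (y i)) - x = ((fun i => p.1.2 (y i)) - c) - w := by
    rw [hxc]; abel
  rw [h6]
  exact h5.sub hw'

end Pool.Agent.VMF
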