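import Pool.Agent.VMF.FUL
import Pool.Agent.VMF.COS
import Pool.Agent.VMF.FUI
import Pool.Agent.VMF.FUP
import Pool.Agent.VMF.FUS
import Pool.Agent.VMF.QIS
import Pool.Agent.VMF.RFF
import Pool.Agent.VMF.HCG
import Pool.Agent.VMF.TF6
import Pool.Agent.VMF.ENU
import Pool.Agent.VMF.FIC
import Pool.Agent.VMF.AMP
import Pool.Agent.MVC.EXT
import Pool.Agent.MVC.NULM

/-!
# VMF, block Q: all facts on full types, without hypotheses
-/

set_option autoImplicit false

namespace Pool.Agent.VMF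

open Set Pool.Agent.MVC Pool.Agent.MVC.Ax

theorem all_FUQ : St_FUQ := thm_FUQ thm_SAP

theorem all_FUI : St_FUI := thm_FUI all_FUQ thm_FIF

theorem all_FUS : St_FUS := thm_FUS thm_KIL

theorem all_FUT : St_FUT := thm_FUT all_FUS

theorem all_QIS : St_QIS := thm_QIS thm_ENU thm_EX0 thm_NUP

theorem all_RFF : St_RFF := thm_RFF all_FUS thm_EX0 thm_ENU

theorem all_FUP : St_FUP := thm_FUP

theorem all_FU2 : St_FU2 := thm_FU2

theorem all_KIL : St_KIL := thm_KIL

theorem all_COS : St_COS := thm_COS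

theorem all_FIC : St_FIC := thm_FIC

theorem all_HCG : St_HCG := thm_HCG

theorem all_TF6 : St_TF6 := thm_TF6 all_FUQ thm_FIF thm_COS

end Pool.Agent.VMF
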