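import Pool.Agent.VMF.StC
import Pool.Agent.VMF.StF
import Pool.Agent.VMF.FUI
import Pool.Agent.VMF.FUP
import Pool.Agent.VMF.FUS
import Pool.Agent.VMF.RFF
import Pool.Agent.VMF.FUL
import Pool.Agent.VMF.COS
import Pool.Agent.VMF.ENU
import Pool.Agent.MVC.EXT

/-!
# VMF, block C: the structure `QB U` for the saturated module (helper58)
-/

set_option autoImplicit false
set_option linter.unusedSectionVars false
set_option linter.unusedVariables false

namespace Pool.Agent.VMF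

open Set Pool.Agent.MVC Pool.Agent.MVC.Ax

/-- `QB` for the saturated module -/
theorem thm_QBU (hQ : St_QIS) {R : Type} [Ring R] [Countable R] {U : Md R} (hU : MonM R U) :
    QB U where
  fuf := fun κ _ χ => full_formula χ fun x => ⟨fun h φ hφ => by
    rw [mem_singleton_iff.1 hφ]
    exact h, fun h => h χ rfl⟩
  fui := fun κ _ S S' h1 h2 h3 => thm_FUI (thm_FUQ thm_SAP) thm_FIF R U hU κ S S' h1 h2 h3
  fup := fun κ ι _ _ S S' h1 h2 => thm_FU2 R U hU κ ι S S' h1 h2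
  rff := fun κ ι _ _ S S' N N' g g' h1 h2 h3 h4 =>
    thm_RFF (thm_FUS thm_KIL) thm_EX0 thm_ENU R U hU κ ι S S' N N' g g' h1 h2 h3 h4
  fut := by
    intro κ ι _ _ S θ S' hS h1 h2
    obtain ⟨χ, hχ⟩ := isPP_zero (R := R) (ι := ι)
    refine thm_FUS thm_KIL R U hU κ ι S S' θ χ hS h1 (fun u y h3 h4 => (h2 y).2 ⟨u, h3, h4⟩)
      (fun y hy => ?_) fun y hy => ?_
    · have h3 : y = 0 := (hχ U y).2 hy
      rw [h3]
      exact Re.zero S'
    · obtain ⟨u, h3, h4⟩ := (h2 y).1 hy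
      refine ⟨u, 0, h3, (hχ U 0).1 rfl, ?_⟩
      rw [sub_zero]
      exact h4
  qis := fun κ _ S S' N N' g g' h1 h2 h3 h4 h5 ρ hρ =>
    hQ R U hU κ S S' N N' g g' h1 h2 h3 h4 h5 ρ hρ

end Pool.Agent.VMF
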