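import Pool.Agent.VMF.Defs

/-!
# VMF, block D: decorated facts and the least level-one formula (statements, helper8)

Paper: GC_VMF_helper8.md, sections 5 and 6. `X := Own R U`, `U` the countable saturated module.

A FACT about the tuple `a` of `U` is given by a type `V(x, t)`, a formula `ψ(t)` and a tuple `t` of `U`
with `V(a, t)`, such that `q_V ∧ ψ` (`q_V = zer '' V`) is full and of finite index in `q_V`. It stands for
the coset `t + (q_V ∧ ψ)(U)` in `V(a, U)`; it is REALISED in a model `M ⊆ U` (`a` in `M`) if this coset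
contains a tuple of `M`. Its value in `M` is the class `δ(M)` in `e_{q_V ∧ ψ}(M)` of the map
`g ↦ (sh - 1)T`, where `T` in `M^∞` satisfies `V(a, T)` and `ψ(T - t)`.
-/

set_option autoImplicit false
set_option linter.unusedSectionVars false
set_option linter.unusedVariables false

namespace Pool.Agent.VMF

open Set Pool.Agent.MVC Pool.Agent.MVC.Ax

section

variable {R : Type} [Ring R]

/-- pure maps into `U` -/
def Pur (U : Md R) {M : Type} [AddCommGroup M] [Module R M] (e : M →ₗ[R] U) : Prop :=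
  ∀ (n : ℕ) (φ : PP R (Fin n)) (x : Fin n → M), Sat φ U (e ∘ x) → Sat φ M x

/-- the models in `K` with a pure embedding into `U` whose image contains the tuple `a` -/
def AM (U : Md R) {ι : Type} (a : ι → U) : Type 1 :=
  {p : (M : Md R) × (M →ₗ[R] U) // InK U p.1 ∧ Pur U p.2 ∧ ∀ i, ∃ m, p.2 m = a i}

/-- the product of all groups `e_Y(M)`, `a` in `M ⊆ U` -/
abbrev EF (U : Md R) {ι : Type} (a : ι → U) (Y : Md R) : Type 1 :=
  ∀ p : AM U a, (Own R U).ex Y p.1.1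

/-- decorated facts -/
structure Fact (U : Md R) {ι κ : Type} (a : ι → U) (V : Set (PP R (ι ⊕ κ))) (ψ : PP R κ)
    (t : κ → U) : Prop where
  re : Re V U (Sum.elim a t)
  fi : FIn U (zer '' V) {ψ}
  full : Full U (zer '' V ∪ {ψ})

/-- the element `e` of `e_{q_V ∧ ψ}(M)` is the value of the fact `(V, ψ, t)` in the model `p` -/
def IsDelF (U : Md R) {ι κ : Type} (a : ι → U) (V : Set (PP R (ι ⊕ κ))) (ψ : PP R κ) (t : κ → U)
    (N : Md R) (g : κ → N) (p : AM U a) (e : (Own R U).ex N p.1.1) : Prop :=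
  ∃ (s : κ → ℕ → p.1.1) (f : N →ₗ[R] MI p.1.1),
    (∀ φ ∈ V, ∃ m₀, ∀ m ≥ m₀, Sat φ U (Sum.elim a (fun i => p.1.2 (s i m)))) ∧
    (∃ m₀, ∀ m ≥ m₀, Sat ψ U ((fun i => p.1.2 (s i m)) - t)) ∧
    (∀ i, f (g i) = MI.mk p.1.1 (fun m => s i (m + 1)) - MI.mk p.1.1 (s i)) ∧
    e = (Own R U).exMk N p.1.1 f

/-- `d` is the family of the values of the fact `(V, ψ, t)`, pulled back along `v : Y → N` -/
def IsVal (U : Md R) {ι κ : Type} (a : ι → U) (V : Set (PP R (ι ⊕ κ))) (ψ : PP R κ) (t : κ → U)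
    (N : Md R) (g : κ → N) {Y : Md R} (v : Y →ₗ[R] N) (d : EF U a Y) : Prop :=
  ∀ (p : AM U a) (e : (Own R U).ex N p.1.1), IsDelF U a V ψ t N g p e →
    d p = (Own R U).exMap v p.1.1 e

/-- values of facts in `e_Y` -/
def FV (U : Md R) {ι : Type} (a : ι → U) (Y : Md R) : Set (EF U a Y) :=
  {d | ∃ (κ : Type) (_ : Finite κ) (V : Set (PP R (ι ⊕ κ))) (ψ : PP R κ) (t : κ → U) (N : Md R)
    (g : κ → N) (v : Y →ₗ[R] N), Fact U a V ψ t ∧ (Own R U).Honest (zer '' V ∪ {ψ}) N g ∧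
      IsVal U a V ψ t N g v d}

/-- the module of all values of facts -/
def TT (U : Md R) {ι : Type} (a : ι → U) (Y : Md R) :
    Submodule ((Own R U).Q Y)ᵐᵒᵖ (EF U a Y) := Submodule.span _ (FV U a Y)

/-- the values which are realised in the model `p` -/
def TR (U : Md R) {ι : Type} (a : ι → U) (Y : Md R) (p : AM U a) :
    Submodule ((Own R U).Q Y)ᵐᵒᵖ (EF U a Y) where
  carrier := {d | d ∈ TT U a Y ∧ d p = 0}
  add_mem' := by
    rintro d d' ⟨h1, h2⟩ ⟨h3, h4⟩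
    refine ⟨Submodule.add_mem _ h1 h3, ?_⟩
    show d p + d' p = 0
    rw [h2, h4, add_zero]
  zero_mem' := ⟨Submodule.zero_mem _, rfl⟩
  smul_mem' := by
    rintro q d ⟨h1, h2⟩
    refine ⟨Submodule.smul_mem _ q h1, ?_⟩
    show q • d p = 0
    rw [h2, smul_zero]

/-! ### The group of the automorphisms which fix `a` -/

/-- the automorphisms of `U` which fix `a` -/
def Gm (U : Md R) {ι : Type} (a : ι → U) : Subgroup (U ≃ₗ[R] U) where
  carrier := {γ | ∀ i, γ (a i) = a i}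
  mul_mem' := by
    intro γ δ h h' i
    show γ (δ (a i)) = a i
    rw [h' i, h i]
  one_mem' := fun i => rfl
  inv_mem' := by
    intro γ h i
    show γ.symm (a i) = a i
    rw [LinearEquiv.symm_apply_eq, h i]

/-- the action on the models: the embedding is composed with the inverse -/
def AM.act {U : Md R} {ι : Type} {a : ι → U} (γ : Gm U a) (p : AM U a) : AM U a :=
  ⟨⟨p.1.1, (γ.1.symm : U →ₗ[R] U) ∘ₗ p.1.2⟩, p.2.1, by
    intro n φ x h
    refine p.2.2.1 n φ x ?_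
    have h1 := h.map (γ.1 : U →ₗ[R] U)
    have h2 : ((γ.1 : U →ₗ[R] U) ∘ ((γ.1.symm : U →ₗ[R] U) ∘ₗ p.1.2) ∘ x) = p.1.2 ∘ x := by
      funext i
      exact γ.1.apply_symm_apply (p.1.2 (x i))
    rw [h2] at h1
    exact h1, by
    intro i
    obtain ⟨m, hm⟩ := p.2.2.2 i
    refine ⟨m, ?_⟩
    show γ.1.symm (p.1.2 m) = a i
    rw [hm, LinearEquiv.symm_apply_eq, γ.2 i]⟩

/-- the action on the families -/
def actE (U : Md R) {ι : Type} (a : ι → U) (Y : Md R) (γ : Gm U a) :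
    EF U a Y →ₗ[((Own R U).Q Y)ᵐᵒᵖ] EF U a Y where
  toFun := fun d p => d (AM.act γ p)
  map_add' := fun d d' => rfl
  map_smul' := fun q d => rfl

theorem actE_mul (U : Md R) {ι : Type} (a : ι → U) (Y : Md R) (γ δ : Gm U a) (d : EF U a Y) :
    actE U a Y (γ * δ) d = actE U a Y γ (actE U a Y δ d) := rfl

theorem actE_one (U : Md R) {ι : Type} (a : ι → U) (Y : Md R) (d : EF U a Y) :
    actE U a Y 1 d = d := rfl

/-- an orbit class of tuples: all tuples of which a conjugate lies in `D` -/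
def OrbS (U : Md R) {ι : Type} (a : ι → U) (Y : Md R)
    (D : Submodule ((Own R U).Q Y)ᵐᵒᵖ (EF U a Y)) : Set ((h : ℕ) × (Fin h → EF U a Y)) :=
  {p | ∃ γ : Gm U a, ∀ i, actE U a Y γ (p.2 i) ∈ D}

/-- the union of the types `S j` in separate variables -/
def cup {J : Type} {κ : J → Type} (S : ∀ j, Set (PP R (κ j))) : Set (PP R ((j : J) × κ j)) :=
  ⋃ j, ren (Sigma.mk j) '' S j

theorem re_cup {J : Type} {κ : J → Type} (S : ∀ j, Set (PP R (κ j))) {M : Type}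
    [AddCommGroup M] [Module R M] (x : ((j : J) × κ j) → M) :
    Re (cup S) M x ↔ ∀ j, Re (S j) M (fun i => x ⟨j, i⟩) := by
  constructor
  · intro h j
    have h1 : Re (ren (Sigma.mk j) '' S j) M x := h.mono (subset_iUnion_of_subset j (Subset.refl _))
    rw [re_ren] at h1
    exact h1
  · intro h φ hφ
    obtain ⟨j, hj⟩ := mem_iUnion.mp hφ
    have h1 : Re (ren (Sigma.mk j) '' S j) M x := by
      rw [re_ren]
      exact h j
    exact h1 φ hj

end

/-! ### Facts used from the blocks T and Q (to be replaced by the names of StT, StF) -/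

/-- (TF5) cosets of finite index have points in each model -/
def St_COS : Prop := ∀ (R : Type) [Ring R] [Countable R] (U : Md R), MonM R U →
  ∀ (ι κ : Type) [Finite ι] [Finite κ] (a : ι → U) (p : AM U a) (φ : PP R (ι ⊕ κ)) (ψ : PP R κ)
  (t : κ → U), Sat φ U (Sum.elim a t) → FIn U {zer φ} {ψ} →
  ∃ y : κ → p.1.1, Sat φ U (Sum.elim a (fun i => p.1.2 (y i))) ∧
    Sat ψ U ((fun i => p.1.2 (y i)) - t)

/-- the models are countable members of `X`, the embeddings are pure for all finite index types -/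
def St_AMP : Prop := ∀ (R : Type) [Ring R] [Countable R] (U : Md R), MonM R U →
  ∀ (ι : Type) (a : ι → U) (p : AM U a), (Own R U).In p.1.1 ∧ Countable p.1.1 ∧
    Function.Injective p.1.2 ∧ ∀ (κ : Type) [Finite κ] (φ : PP R κ) (x : κ → p.1.1),
      Sat φ U (fun i => p.1.2 (x i)) ↔ Sat φ p.1.1 x

/-- compactness (a): an inclusion of a type in a formula is an entailment in the class -/
def St_ENU : Prop := ∀ (R : Type) [Ring R] [Countable R] (U : Md R), MonM R U →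
  ∀ (κ : Type) [Finite κ] (S : Set (PP R κ)) (ψ : PP R κ), (∀ x : κ → U, Re S U x → Sat ψ U x) →
  (Own R U).Ent S ψ

/-- compactness (b): finite index is seen by a finite part -/
def St_FIC : Prop := ∀ (R : Type) [Ring R] [Countable R] (U : Md R), MonM R U →
  ∀ (κ : Type) [Finite κ] (S : Set (PP R κ)) (ψ : PP R κ), FIn U S {ψ} →
  ∃ s : Finset (PP R κ), ↑s ⊆ S ∧ FIn U ↑s {ψ}

/-- 0.2 (QISO) full types of finite index in each other have isomorphic honest modules -/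
def St_QIS : Prop := ∀ (R : Type) [Ring R] [Countable R] (U : Md R), MonM R U →
  ∀ (κ : Type) [Finite κ] (S S' : Set (PP R κ)) (N N' : Md R) (g : κ → N) (g' : κ → N'),
  Full U S → FIn U S S' → (∀ x : κ → U, Re S' U x → Re S U x) →
  (Own R U).Honest S N g → (Own R U).Honest S' N' g' →
  ∀ ρ : N →ₗ[R] N', (∀ i, ρ (g i) = g' i) →
  ∃ j : N' →ₗ[R] N, (Own R U).Eqv (j ∘ₗ ρ) LinearMap.id ∧ (Own R U).Eqv (ρ ∘ₗ j) LinearMap.id

/-- 0.3 (KILL) -/
def St_KIL : Prop := ∀ (R : Type) [Ring R] [Countable R] (U : Md R), MonM R U →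
  ∀ (κ l : Type) [Finite κ] [Finite l] (S : Set (PP R κ)) (θ : PP R (κ ⊕ l)) (W : Set (PP R l))
  (ψ : PP R l), Full U S → FIn U W {ψ} → PIn U W {ψ} →
  (∀ u : κ → U, Re S U u → ∃ y : l → U, Sat θ U (Sum.elim u y)) →
  (∀ (u : κ → U) (y : l → U), Re S U u → Sat θ U (Sum.elim u y) → Re W U y) →
  ∀ (u : κ → U) (y : l → U), Re S U u → Sat θ U (Sum.elim u y) → Sat ψ U y

/-- 0.1 finite index subtypes of full types are full; fullness depends on the group only -/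
def St_FUI : Prop := ∀ (R : Type) [Ring R] [Countable R] (U : Md R), MonM R U →
  ∀ (κ : Type) [Finite κ] (S S' : Set (PP R κ)), Full U S → FIn U S S' →
  (∀ x : κ → U, Re S' U x → Re S U x) → Full U S'

/-- 0.1 finite products of full types are full -/
def St_FUP : Prop := ∀ (R : Type) [Ring R] [Countable R] (U : Md R), MonM R U →
  ∀ (J : Type) [Finite J] (κ : J → Type) [∀ j, Finite (κ j)] (S : ∀ j, Set (PP R (κ j))),
  (∀ j, Full U (S j)) → Full U (cup S)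

/-- 0.1 products of two full types (from `St_FUP` with `J = Bool` and re-indexing, or with `St_KIL`) -/
def St_FU2 : Prop := ∀ (R : Type) [Ring R] [Countable R] (U : Md R), MonM R U →
  ∀ (κ₁ κ₂ : Type) [Finite κ₁] [Finite κ₂] (S₁ : Set (PP R κ₁)) (S₂ : Set (PP R κ₂)),
  Full U S₁ → Full U S₂ → Full U (ren Sum.inl '' S₁ ∪ ren Sum.inr '' S₂)

/-- 0.1 images of full types and of formulas: `{(x, y) : q(x) ∧ θ(x, y)}` is full -/
def St_FUT : Prop := ∀ (R : Type) [Ring R] [Countable R] (U : Md R), MonM R U →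
  ∀ (κ l : Type) [Finite κ] [Finite l] (S : Set (PP R κ)) (θ : PP R (κ ⊕ l)), Full U S →
  (∀ u : κ → U, Re S U u → ∃ y : l → U, Sat θ U (Sum.elim u y)) →
  Full U (ren Sum.inl '' S ∪ {θ})

/-- honest modules for equivalent types -/
def St_HCG : Prop := ∀ (R : Type) [Ring R] [Countable R] (X : Ax R) (ι : Type) (S S' : Set (PP R ι))
  (N : Md R) (g : ι → N), (∀ ψ ∈ S', X.Ent S ψ) → (∀ ψ ∈ S, X.Ent S' ψ) → X.Honest S N g →
  X.Honest S' N g

/-! ### 5.1 the values -/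

/-- `MVC.St_EXZ` for arbitrary finite index types (same proof) -/
def St_EXG : Prop := ∀ (R : Type) [Ring R] [Countable R] (X : Ax R) (κ : Type) [Finite κ]
  (S : Set (PP R κ)) (N M : Md R) (g : κ → N) (f : N →ₗ[R] MI M), X.Honest S N g →
  X.In M → (X.exMk N M f = 0 ↔ ∃ y : κ → MI M, Re S (MI M) y ∧
    ∀ i, f (g i) = MI.sh M (y i) - y i)

/-- a map from an honest module which sends the generators into `χ(M)`, `χ ≤ S` a formula, represents
zero (`MVC.St_NUP` for arbitrary finite index types, `exMk_eq_zero` with `h = 0`) -/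
def St_EXP : Prop := ∀ (R : Type) [Ring R] [Countable R] (X : Ax R) (κ : Type) [Finite κ]
  (S : Set (PP R κ)) (N M : Md R) (g : κ → N) (f : N →ₗ[R] MI M), X.Honest S N g →
  X.P S (MI M) (fun i => f (g i)) → X.exMk N M f = 0

/-- 5.1 the sequences. Enumerate `V`: `φ_0, φ_1, ..`, `V_n := φ_0 ∧ .. ∧ φ_n`. For `n ≥ n₀` the formula
`zer V_n` has `{zer V_n} ∧ ψ` of finite index (`St_FIC`, monotone); apply `St_COS` to `V_n`. -/
def St_SEQ : Prop := ∀ (R : Type) [Ring R] [Countable R] (U : Md R), MonM R U →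
  ∀ (ι κ : Type) [Finite ι] [Finite κ] (a : ι → U) (V : Set (PP R (ι ⊕ κ))) (ψ : PP R κ)
  (t : κ → U) (p : AM U a), Re V U (Sum.elim a t) → FIn U (zer '' V) {ψ} →
  ∃ s : κ → ℕ → p.1.1,
    (∀ φ ∈ V, ∃ m₀, ∀ m ≥ m₀, Sat φ U (Sum.elim a (fun i => p.1.2 (s i m)))) ∧
    ∃ m₀, ∀ m ≥ m₀, Sat ψ U ((fun i => p.1.2 (s i m)) - t)

/-- 5.1 existence, uniqueness, vanishing of the value (compare `MVC.DEL`). Existence: `St_SEQ`;
`m ↦ s (m+1) - s m` satisfies each `zer φ` (`φ ∈ V`) and `ψ` for large `m`, first in `U`, then in `M`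
(`St_AMP`), so `i ↦ mk (s i (·+1)) - mk (s i)` realises `zer '' V ∪ {ψ}` in `M^∞` (`MVC.St_MIS`); take `f`
from `St_EX0`. Uniqueness: the difference of two sequences `s - s'` realises `zer '' V ∪ {ψ}` in `M^∞`;
`St_EXG`. Zero: if `f(g) = (sh - 1)T = (sh - 1)y`, `y` realises `zer '' V ∪ {ψ}` in `M^∞`, then `T - y` is
constant (`MVC.St_MIK`): the constant tuple satisfies `V(a, ·)` and `ψ(· - t)`. -/
def St_DLX : Prop := ∀ (R : Type) [Ring R] [Countable R] (U : Md R), MonM R U →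
  ∀ (ι κ : Type) [Finite ι] [Finite κ] (a : ι → U) (V : Set (PP R (ι ⊕ κ))) (ψ : PP R κ)
  (t : κ → U) (N : Md R) (g : κ → N) (p : AM U a), Re V U (Sum.elim a t) →
  FIn U (zer '' V) {ψ} → (Own R U).Honest (zer '' V ∪ {ψ}) N g →
  (∃ e, IsDelF U a V ψ t N g p e) ∧
  (∀ e e', IsDelF U a V ψ t N g p e → IsDelF U a V ψ t N g p e' → e = e') ∧
  ∀ e, IsDelF U a V ψ t N g p e → (e = 0 ↔ ∃ y : κ → p.1.1,
    Re V U (Sum.elim a (fun i => p.1.2 (y i))) ∧ Sat ψ U ((fun i => p.1.2 (y i)) - t))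

/-! ### 5.2 restriction, products, action of the automorphisms -/

/-- 5.2 (i) restriction. `ρ` from `St_EX0`. If `s` is a sequence for `(V', ψ', t')`, then `s ∘ f` is one
for `(V, ψ, t' ∘ f)`: `s m - t'` satisfies each `zer φ`, `φ ∈ V'`, for large `m` (both `s m` and `t'`
satisfy `φ(a, ·)`), and `ψ'`, so it satisfies `ren f ψ` for large `m` (the entailment is finite). -/
def St_DRS : Prop := ∀ (R : Type) [Ring R] [Countable R] (U : Md R), MonM R U →
  ∀ (ι κ κ' : Type) [Finite ι] [Finite κ] [Finite κ'] (a : ι → U) (V : Set (PP R (ι ⊕ κ)))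
  (V' : Set (PP R (ι ⊕ κ'))) (ψ : PP R κ) (ψ' : PP R κ') (t' : κ' → U) (N N' : Md R) (g : κ → N)
  (g' : κ' → N') (f : κ → κ'), (Own R U).Honest (zer '' V ∪ {ψ}) N g →
  (Own R U).Honest (zer '' V' ∪ {ψ'}) N' g' → Re V' U (Sum.elim a t') →
  (∀ φ ∈ V, (Own R U).Ent V' (ren (Sum.map id f) φ)) →
  (Own R U).Ent (zer '' V' ∪ {ψ'}) (ren f ψ) →
  ∃ ρ : N →ₗ[R] N', (∀ i, ρ (g i) = g' (f i)) ∧ ∀ (p : AM U a) (e' : (Own R U).ex N' p.1.1),
    IsDelF U a V' ψ' t' N' g' p e' →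
    IsDelF U a V ψ (t' ∘ f) N g p ((Own R U).exMap ρ p.1.1 e')

/-- 5.2 products of two facts. `V := ren .. '' V₁ ∪ ren .. '' V₂`, `ψ := ψ₁ ∧ ψ₂`; `q_V ∧ ψ` is the product
of the two types (full by `St_FU2`, of finite index); the honest module is `N₁ × N₂`
(`MVC.St_HPR`, `St_HCG`); a sequence for `V` consists of a sequence for `V₁` and one for `V₂`, and
`exMap (v₁.prod v₂) e = exMap v₁ e₁ + exMap v₂ e₂` where `e₁`, `e₂` are the values of the components. -/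
def St_PRD : Prop := ∀ (R : Type) [Ring R] [Countable R] (U : Md R), MonM R U →
  ∀ (ι κ₁ κ₂ : Type) [Finite ι] [Finite κ₁] [Finite κ₂] (a : ι → U)
  (V₁ : Set (PP R (ι ⊕ κ₁))) (V₂ : Set (PP R (ι ⊕ κ₂))) (ψ₁ : PP R κ₁) (ψ₂ : PP R κ₂)
  (t₁ : κ₁ → U) (t₂ : κ₂ → U) (N₁ N₂ Y : Md R) (g₁ : κ₁ → N₁) (g₂ : κ₂ → N₂)
  (v₁ : Y →ₗ[R] N₁) (v₂ : Y →ₗ[R] N₂) (d₁ d₂ : EF U a Y), Fact U a V₁ ψ₁ t₁ → Fact U a V₂ ψ₂ t₂ →
  (Own R U).Honest (zer '' V₁ ∪ {ψ₁}) N₁ g₁ → (Own R U).Honest (zer '' V₂ ∪ {ψ₂}) N₂ g₂ →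
  IsVal U a V₁ ψ₁ t₁ N₁ g₁ v₁ d₁ → IsVal U a V₂ ψ₂ t₂ N₂ g₂ v₂ d₂ → d₁ + d₂ ∈ FV U a Y

/-- Every element of `TT` is the value of one fact: closed under sums by `St_PRD`, under scalars by
composition (`exMap_comp`, `smul_mk_ex`), zero: the fact with `κ = Fin 0`, `V = ∅`, `ψ = []`, `v = 0`. -/
def St_TTS : Prop := ∀ (R : Type) [Ring R] [Countable R] (U : Md R), MonM R U →
  ∀ (ι : Type) [Finite ι] (a : ι → U) (Y : Md R), ∀ d ∈ TT U a Y, d ∈ FV U a Y

/-- Automorphisms which fix `a` move facts and their values. (`Sat φ U (γ ∘ x) ↔ Sat φ U x`;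
`IsDelF` for `(t, γ⁻¹ p)` and for `(γ ∘ t, p)` are the same.) Also for all `d ∈ TT`: `actE γ d ∈ TT`. -/
def St_ACF : Prop := ∀ (R : Type) [Ring R] (U : Md R)
  (ι κ : Type) (a : ι → U) (V : Set (PP R (ι ⊕ κ))) (ψ : PP R κ)
  (t : κ → U) (N Y : Md R) (g : κ → N) (v : Y →ₗ[R] N) (d : EF U a Y) (γ : Gm U a),
  (Fact U a V ψ t → Fact U a V ψ (fun i => γ.1 (t i))) ∧
  (IsVal U a V ψ t N g v d → IsVal U a V ψ (fun i => γ.1 (t i)) N g v (actE U a Y γ d)) ∧
  (∀ d ∈ TT U a Y, actE U a Y γ d ∈ TT U a Y)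

/-- The value depends only on the coset `t + (q_V ∧ ψ)(U)`. -/
def St_CSF : Prop := ∀ (R : Type) [Ring R] (U : Md R)
  (ι κ : Type) (a : ι → U) (V : Set (PP R (ι ⊕ κ))) (ψ : PP R κ)
  (t t' : κ → U) (N Y : Md R) (g : κ → N) (v : Y →ₗ[R] N) (d : EF U a Y),
  Re (zer '' V ∪ {ψ}) U (t' - t) → (Fact U a V ψ t → Fact U a V ψ t') ∧
  (IsVal U a V ψ t N g v d → IsVal U a V ψ t' N g v d)

/-- Finite orbits. `d` is a value of `(V, ψ, t)`; for `γ` in `Gm U a` the tuple `γ t - t` lies in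
`grp U (zer '' V)`, and `actE γ d` depends only on its class modulo `grp U {ψ}` (`St_ACF`, `St_CSF`,
uniqueness from the existence part of `St_DLX`); there are finitely many classes (`FIn`). -/
def St_ORF : Prop := ∀ (R : Type) [Ring R] [Countable R] (U : Md R), MonM R U →
  ∀ (ι : Type) [Finite ι] (a : ι → U) (Y : Md R), ∀ d ∈ TT U a Y,
    {d' | ∃ γ : Gm U a, d' = actE U a Y γ d}.Finite

/-! ### 5.3 representation -/

/-- 5.3 (REP) each value of a fact is the value of a fact along an isomorphism.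
`θ` with `Gen (zer '' V ∪ {ψ}) N g (v gz) θ`; `V = {V_0 ≥ V_1 ≥ ..}`, `Z = {ζ_0 ≥ ζ_1 ≥ ..}` (cofinal
sequences), `V_0(0, ·)` with `V_0(0, ·) ∧ ψ` of finite index and `V_0(0, t) ∧ ψ(t) → ∃ y θ(t, y)`,
`V_n(0, t) ∧ ψ(t) ∧ θ(t, y) → ζ_n(y)`. Put `κ' = κ ⊕ λ`, variables `(t₀, y)`,
`V'_n(x, t₀, y) := ∃ t_n, e : V_0(x, t₀) ∧ V_n(x, t_n) ∧ ψ(t_n - t₀) ∧ θ(t_n - t₀, e) ∧ ζ_n(y - e)`,
`ψ'(t₀, y) := ψ(t₀)`, `t' := (t, 0)`. Then `zer '' V' ∪ {ψ'}` is the type
`V_0(0, t₀) ∧ ψ(t₀) ∧ ∃ e (θ(-t₀, e) ∧ Z(y - e))` (`= χ + 0 × Z` with the formula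
`χ = V_0(0, t₀) ∧ ψ(t₀) ∧ θ(-t₀, y)`): full. With `e₀` in `N'`, `θ(-t₀, e₀)`:
`i (gz) := y - e₀`, `j (t₀, y) := (0, gz)`; `ij` and `ji` are the identity modulo null maps (`θ(0, ·) ≤ Z`,
`(t₀, y) - (0, y - e₀)` satisfies `χ`). If `s = (s_m)` is a sequence for `(V, ψ, t)`, then (for large `m₀`)
`(s_{m₀}, e_m)` with `θ(s_m - s_{m₀}, e_m)`, `e_m` in `M`, is a sequence for `(V', ψ', t')`, its difference is
`(0, e_{m+1} - e_m)`; the two maps `N_Z → M^∞` agree modulo `θ(0, ·)` (`St_EXP`). Compare `MVC/REP.lean`. -/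
def St_RPF : Prop := ∀ (R : Type) [Ring R] [Countable R] (U : Md R), MonM R U →
  ∀ (ι κ l : Type) [Finite ι] [Finite κ] [Finite l] (a : ι → U) (V : Set (PP R (ι ⊕ κ)))
  (ψ : PP R κ) (t : κ → U) (N : Md R) (g : κ → N) (Z : Set (PP R l)) (Nz : Md R) (gz : l → Nz)
  (v : Nz →ₗ[R] N), Fact U a V ψ t → (Own R U).Honest (zer '' V ∪ {ψ}) N g → Full U Z →
  (Own R U).Honest Z Nz gz →
  ∃ (κ' : Type) (_ : Finite κ') (V' : Set (PP R (ι ⊕ κ'))) (ψ' : PP R κ') (t' : κ' → U) (N' : Md R)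
    (g' : κ' → N') (i : Nz →ₗ[R] N') (j : N' →ₗ[R] Nz), Fact U a V' ψ' t' ∧
    (Own R U).Honest (zer '' V' ∪ {ψ'}) N' g' ∧ (Own R U).Eqv (j ∘ₗ i) LinearMap.id ∧
    (Own R U).Eqv (i ∘ₗ j) LinearMap.id ∧
    ∀ (p : AM U a) (e : (Own R U).ex N p.1.1) (e' : (Own R U).ex N' p.1.1),
      IsDelF U a V ψ t N g p e → IsDelF U a V' ψ' t' N' g' p e' →
      (Own R U).exMap v p.1.1 e = (Own R U).exMap i p.1.1 e'

/-- 5.2 (iii) each fact may be replaced by one with `PIn U (zer '' V) {ψ₁}` (`ψ₁` defines `q_V^1` in `q_V`,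
Claim A and compactness). `zer '' V ∪ {ψ}` is full and of finite index in `q_V`, so contained in
`q_V^1` (`St_KIL` with `θ : y = u`), of finite index; `ρ : N₁ → N` from `St_DRS` with `f = id` is an
isomorphism by `St_QIS`. -/
def St_PRE : Prop := ∀ (R : Type) [Ring R] [Countable R] (U : Md R), MonM R U → ClaimA U →
  ∀ (ι κ : Type) [Finite ι] [Finite κ] (a : ι → U) (V : Set (PP R (ι ⊕ κ)))
  (ψ : PP R κ) (t : κ → U) (N : Md R) (g : κ → N), Fact U a V ψ t →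
  (Own R U).Honest (zer '' V ∪ {ψ}) N g →
  ∃ (ψ₁ : PP R κ) (N₁ : Md R) (g₁ : κ → N₁) (ρ : N₁ →ₗ[R] N) (j : N →ₗ[R] N₁),
    Fact U a V ψ₁ t ∧ PIn U (zer '' V) {ψ₁} ∧ (Own R U).Honest (zer '' V ∪ {ψ₁}) N₁ g₁ ∧
    (Own R U).Eqv (j ∘ₗ ρ) LinearMap.id ∧ (Own R U).Eqv (ρ ∘ₗ j) LinearMap.id ∧
    ∀ (p : AM U a) (e : (Own R U).ex N p.1.1), IsDelF U a V ψ t N g p e →
      IsDelF U a V ψ₁ t N₁ g₁ p ((Own R U).exMap ρ p.1.1 e)

/-- the facts with `V = pp(a, t)`: for every tuple `t` of `U` there is one (Claim A) -/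
def St_FEX : Prop := ∀ (R : Type) [Ring R] [Countable R] (U : Md R), MonM R U → ClaimA U →
  ∀ (ι κ : Type) [Finite ι] [Finite κ] (a : ι → U) (V : Set (PP R (ι ⊕ κ))) (t : κ → U),
  Re V U (Sum.elim a t) → ∃ ψ : PP R κ, Fact U a V ψ t ∧ PIn U (zer '' V) {ψ}

/-! ### 5.5 exactly -/

/-- 5.5 (one fact over another). `W = pp(a, t)`, `pp(a, t, b)` is generated by `W` and `θ(x, t, y)`,
`(V, ψ, b)` is a fact with `PIn`. By `St_KIL` (type `zer '' W ∪ {ψW}`, formula `θ(0, u, y)`, type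
`zer '' V`; `(0, u, y)` satisfies the type of `(a, t, b)`): `zer '' W ∪ {ψW}` and `θ(0, u, y)` imply
`zer '' V ∪ {ψ}` at `y`. `μ (g) := β` in `NW` with `θ(0, gW, β)`. For a model `p` let `T` be a sequence for
`(W, ψW, t)`; for large `m` choose `B_m` in `M` with `θ(a, T_m, B_m)`. Then `V(a, B)`, and `ψ(B_m - b)` for
large `m` (the implication above is a finite entailment, and `(0, T_m - t, B_m - b)` satisfies `θ`). So `B`
is a sequence for `(V, ψ, b)`. `h : NW → M^∞` the map of `T`; `h(β)` and `(sh - 1)B` both satisfy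
`θ(0, (sh - 1)T, ·)`, and `θ(0, 0, ·)` is a formula contained in `zer '' V ∪ {ψ}`: `St_EXP`. -/
def St_EXA : Prop := ∀ (R : Type) [Ring R] [Countable R] (U : Md R), MonM R U →
  ∀ (ι κ l : Type) [Finite ι] [Finite κ] [Finite l] (a : ι → U) (t : κ → U) (ψW : PP R κ)
  (NW : Md R) (gW : κ → NW) (b : l → U) (θ : PP R ((ι ⊕ κ) ⊕ l)) (V : Set (PP R (ι ⊕ l)))
  (ψ : PP R l) (N : Md R) (g : l → N), Fact U a (pp U (Sum.elim a t)) ψW t →
  (Own R U).Honest (zer '' pp U (Sum.elim a t) ∪ {ψW}) NW gW →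
  (Own R U).Gen (pp U (Sum.elim a t)) U (Sum.elim a t) b θ → Fact U a V ψ b →
  PIn U (zer '' V) {ψ} → (Own R U).Honest (zer '' V ∪ {ψ}) N g →
  ∃ μ : N →ₗ[R] NW, ∀ (p : AM U a) (e : (Own R U).ex N p.1.1) (e' : (Own R U).ex NW p.1.1),
    IsDelF U a V ψ b N g p e → IsDelF U a (pp U (Sum.elim a t)) ψW t NW gW p e' →
    e = (Own R U).exMap μ p.1.1 e'

/-- 5.5 (a generic tuple of facts). The fibre type of the joint type of `t = (t_j)` over `a` has finite
index in the product of the types `zer '' V_j ∪ {ψ_j}`. `ψW` = conjunction of the `ψ_j`; `zer '' W ∪ {ψW}` is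
full (`St_FUP`, `St_FUI`) and of finite index in `zer '' W`. `ρ_j : N_j → NW` from `St_DRS`; their sum
`⊕ N_j = ∏ N_j → NW` is an isomorphism by `St_QIS` (the product is honest for `cup ..`, `MVC.St_HPR` or
`MVC.St_HDS`), with inverse `(μ_j)`: `e = exMap (Σ ρ_j μ_j) e`. -/
def St_EXB : Prop := ∀ (R : Type) [Ring R] [Countable R] (U : Md R), MonM R U →
  ∀ (ι : Type) [Finite ι] (a : ι → U) (m : ℕ) (κ : Fin m → Type) [∀ j, Finite (κ j)]
  (V : ∀ j, Set (PP R (ι ⊕ κ j))) (ψ : ∀ j, PP R (κ j)) (t : ((j : Fin m) × κ j) → U)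
  (N : Fin m → Md R) (g : ∀ j, κ j → N j), (∀ j, Fact U a (V j) (ψ j) (fun i => t ⟨j, i⟩)) →
  (∀ j, (Own R U).Honest (zer '' V j ∪ {ψ j}) (N j) (g j)) →
  FIn U (cup fun j => zer '' V j ∪ {ψ j}) (zer '' pp (R := R) U (Sum.elim a t)) →
  ∃ ψW : PP R ((j : Fin m) × κ j), Fact U a (pp U (Sum.elim a t)) ψW t ∧
    ∀ (NW : Md R) (gW : ((j : Fin m) × κ j) → NW),
      (Own R U).Honest (zer '' pp U (Sum.elim a t) ∪ {ψW}) NW gW →
      ∃ μ : ∀ j, NW →ₗ[R] N j, ∀ (p : AM U a) (e : (Own R U).ex NW p.1.1)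
        (ee : ∀ j, (Own R U).ex (N j) p.1.1),
        IsDelF U a (pp U (Sum.elim a t)) ψW t NW gW p e →
        (∀ j, IsDelF U a (V j) (ψ j) (fun i => t ⟨j, i⟩) (N j) (g j) p (ee j)) →
        e = ∑ j, (Own R U).exMap (μ j) p.1.1 (ee j)

/-- 5.5 (the models `M_D`): from (TL), generics (TF4) and homogeneity. `t''_j` generic over
`(a, t''_{<j})` in the coset `t_j + (zer '' V_j ∪ {ψ_j})(U)`: the fibre type of the first `m` ones over `a`
has finite index in the product (induction on `m`: the type of `(a, t''_{≤ m})` projects onto the type of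
`(a, t''_{<m})`; the `u_{<m}` which have a continuation in `zer '' V_m ∪ {ψ_m}` have finite index; the kernel
has finite index by genericity). (TL) for the coherent sequence of the types `pp(a, t''_{<m})`: a model `M`
with tuples `a*`, `t*_j`, each tuple of `M` generated over `(a*, t*_{<m})` for all large `m`; embed it in `U`
over `a* ↦ a`. `t'_j` := image of `t*_j`. By homogeneity some `γ_m`
in `Gm U a` maps `t''_j` to `t'_j` for `j < m`. -/
def St_MDL : Prop := ∀ (R : Type) [Ring R] [Countable R] (U : Md R), MonM R U → ClaimA U →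
  ∀ (ι : Type) [Finite ι] (a : ι → U) (κ : ℕ → Type) [∀ j, Finite (κ j)]
  (V : ∀ j, Set (PP R (ι ⊕ κ j))) (ψ : ∀ j, PP R (κ j)) (t : ∀ j, κ j → U),
  (∀ j, Fact U a (V j) (ψ j) (t j)) →
  ∃ (p : AM U a) (t' : ∀ j, κ j → U), (∀ j i, ∃ m, p.1.2 m = t' j i) ∧
    (∀ m, ∃ γ : Gm U a, ∀ j < m, Re (zer '' V j ∪ {ψ j}) U
      (fun i => t' j i - γ.1 (t j i))) ∧
    (∀ m, FIn U (cup fun j : Fin m => zer '' V j ∪ {ψ j})
      (zer '' pp (R := R) U (Sum.elim a (fun q : (j : Fin m) × κ j => t' q.1 q.2)))) ∧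
    ∀ (l : Type) [Finite l] (b : l → p.1.1), ∃ (m : ℕ) (θ : PP R ((ι ⊕ (j : Fin m) × κ j) ⊕ l)),
      (Own R U).Gen (pp U (Sum.elim a (fun q : (j : Fin m) × κ j => t' q.1 q.2))) U
        (Sum.elim a (fun q : (j : Fin m) × κ j => t' q.1 q.2)) (fun i => p.1.2 (b i)) θ

/-- 5.5 (EXACTLY). `Z` full, `Y` honest for `Z`, `d_j ∈ TT`. There are a model `p` and `d'_j`, such that
finitely many `d_j` are conjugate to the `d'_j`, and the span of the `d'_j` is the module of the values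
realised in `p`. Proof: `d_j` = value of a fact along an isomorphism `i_j : Y → N_j` (`St_TTS`, `St_RPF`), model from `St_MDL`, `d'_j` = value of `(V_j, ψ_j, t'_j)` along `i_j`
(`= actE γ_m d_j` for `j < m` by `St_ACF`, `St_CSF`). `⊆`: `t'_j` lies in `M` (`St_DLX`, zero). `⊇`: let
`d ∈ TT`, `d p = 0`; `d` = value of a fact `(V, ψ, t)` along an isomorphism (`St_RPF`), so this fact is
realised by `b` in `M` (`St_DLX`), w.l.o.g. `t = e b` (`St_CSF`) and `PIn` (`St_PRE`); `St_EXA` over the generic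
tuple `t'_{<m}` and `St_EXB` give `d = Σ_{j<m} λ_j d'_j`. -/
def St_SPN : Prop := ∀ (R : Type) [Ring R] [Countable R] (U : Md R), MonM R U → ClaimA U →
  ∀ (ι l : Type) [Finite ι] [Finite l] (a : ι → U) (Z : Set (PP R l)) (Y : Md R) (y : l → Y),
  Full U Z → (Own R U).Honest Z Y y → ∀ d : ℕ → EF U a Y, (∀ j, d j ∈ TT U a Y) →
  ∃ (p : AM U a) (d' : ℕ → EF U a Y),
    (∀ m, ∃ γ : Gm U a, ∀ j < m, actE U a Y γ (d j) = d' j) ∧
    Submodule.span ((Own R U).Q Y)ᵐᵒᵖ (range d') = TR U a Y p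

/-! ### 6 the least level-one formula -/

/-- 6.1 the age of a model over `a` determines the orbits of the realised values. Let
`actE γ (d i) ∈ TR p` for all `i < h`; w.l.o.g. `γ = 1` (`St_ACF` for membership in `TT`). `d_i` = value of
`(V_i, ψ_i, t_i)` along an isomorphism (`St_TTS`, `St_RPF`), realised in `p` (`St_DLX`), so w.l.o.g. `t_i` in the
image of `p` (`St_CSF`). The tuple `t = (t_i)` has a companion `t'` in the image of `p'` with
`pp(a, t') = pp(a, t)`, homogeneity: `γ'` in `Gm U a` with `γ' t = t'`. Then `actE γ' d_i` is the value of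
`(V_i, ψ_i, t'_i)` along the same map, so it vanishes at `p'` (`St_DLX`). -/
def St_AGF : Prop := ∀ (R : Type) [Ring R] [Countable R] (U : Md R), MonM R U →
  ∀ (n : ℕ) (l : Type) [Finite l] (a : Fin n → U) (Z : Set (PP R l)) (Y : Md R) (y : l → Y),
  Full U Z → (Own R U).Honest Z Y y → ∀ p p' : AM U a,
  (∀ (k : ℕ) (b : Fin k → p.1.1), ∃ b' : Fin k → p'.1.1,
    pp (R := R) U (Sum.elim a (fun i => p'.1.2 (b' i))) =
      pp (R := R) U (Sum.elim a (fun i => p.1.2 (b i)))) →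
  OrbS U a Y (TR U a Y p) ⊆ OrbS U a Y (TR U a Y p')

/-- the algebra lemma (helper79) -/
def St_ALG : Prop := ∀ (L : Type) [Ring L], DCCR L → ∀ (E : Type 1) [AddCommGroup E]
  [Module Lᵐᵒᵖ E] (G : Type) [Group G] (act : G → E →ₗ[Lᵐᵒᵖ] E), (∀ x, act 1 x = x) →
  (∀ g h x, act (g * h) x = act g (act h x)) → ∀ TT : Submodule Lᵐᵒᵖ E,
  (∀ g, ∀ x ∈ TT, act g x ∈ TT) → (∀ x ∈ TT, {y | ∃ g, y = act g x}.Finite) →
  ∀ C : Set (Submodule Lᵐᵒᵖ E), (∀ D ∈ C, D ≤ TT) →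
  {O : Set ((h : ℕ) × (Fin h → E)) | ∃ D ∈ C, O = {p | ∃ g, ∀ i, act g (p.2 i) ∈ D}}.Countable →
  (∀ m : ℕ → E, (∀ j, m j ∈ TT) → ∃ m' : ℕ → E, (∀ k, ∃ g, ∀ i < k, act g (m i) = m' i) ∧
    Submodule.span Lᵐᵒᵖ (range m') ∈ C) → ∀ D ≤ TT, D.FG

/-- one full type of which all others are retracts, and the chain condition -/
def FTY {R : Type} [Ring R] (U : Md R) (Y : Md R) : Prop :=
  (∃ (l : Type) (_ : Finite l) (Z : Set (PP R l)) (y : l → Y), Full U Z ∧
    (Own R U).Honest Z Y y) ∧ DCCR ((Own R U).Q Y) ∧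
  ∀ (κ : Type) [Finite κ] (S : Set (PP R κ)) (N : Md R) (g : κ → N), Full U S →
    (Own R U).Honest S N g → ∃ r : ℕ, (Own R U).Retr N (Fin r → Y)

/-- the ages of the pairs `(M, a)` -/
def AgeC {R : Type} [Ring R] (U : Md R) : Prop := ∀ n : ℕ,
  {A : Set ((k : ℕ) × Set (PP R (Fin n ⊕ Fin k))) | ∃ (M : Md R) (x : Fin n → M), InK U M ∧
    A = {q | ∃ c : Fin q.1 → M, q.2 = pp M (Sum.elim x c)}}.Countable

/-- 6.2, 6.3: all submodules of `TT` are finitely generated. `St_ALG` with `C` = the modules `TR p`; the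
orbit sets of `TR p` depend only on the age of `(p, a)` (`St_AGF`), countably many by `AgeC`. -/
def St_NTH : Prop := ∀ (R : Type) [Ring R] [Countable R] (U : Md R), MonM R U → ClaimA U →
  AgeC U → ∀ Y : Md R, FTY U Y → ∀ (n : ℕ) (a : Fin n → U), ∀ D ≤ TT U a Y, D.FG

/-- 6.4: every tuple of a model is exact. `M` in `K`; embed it in `U`: w.l.o.g. `M = p`, `a` in `U`.
`TR p` is finitely generated (`St_NTH`), by `d_1 .. d_h` = values of facts realised in `p` along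
isomorphisms (`St_TTS`, `St_RPF`, `St_DLX`, `St_CSF`), `t_i` in `M`; `t = (t_1 .. t_h)`, `W = pp(a, t)`, the
level-one formula is `∃ t W`. Let `a` satisfy `∃ t' V'(x, t')` in `M`, `t'` in `M`; `(pp(a, t'), ψ, t')` a
fact (`St_FEX`) with honest module `N`, a retract of `Y^r` (`β α ~ 1`). The values along the
components of `β : Y^r → N` lie in `TR p`, so they are combinations of the `d_i`. Take the model
`p₁ = Pr(a, t)` (TF3) with its embedding: `t_i` in `p₁`, so all `d_i` vanish at `p₁`, so the value of the fact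
`(pp(a, t'), ψ, t')` is zero at `p₁`: there is `c` in `p₁` with `pp(a, t')` realised by `(a, c)`, so `V'(a, c)`.
By (TF3) `pp(a, t, c)` is generated by `W` and one `θ`: for all `M'` in `X` and `(x, t*)` in `M'` which realise
`W` there is `c*` with `θ(x, t*, c*)`, so `V'(x, c*)`. -/
def St_UMT : Prop := ∀ (R : Type) [Ring R] [Countable R] (U : Md R), MonM R U → ClaimA U →
  AgeC U → (∃ Y : Md R, FTY U Y) → ∀ (M : Md R), InK U M → ∀ (n : ℕ) (a : Fin n → M),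
    ∃ V : L1 R (Fin n), Sat1 V M a ∧ ∀ W : L1 R (Fin n), Sat1 W M a →
      ∀ (M' : Md R), (Own R U).In M' → ∀ x : Fin n → M', Sat1 V M' x → Sat1 W M' x

end Pool.Agent.VMF
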