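import Pool.Agent.VMF.KDefs
import Pool.Agent.MVC.St5
import Pool.Agent.WOM.DEFF
import Pool.Agent.WOM.DEF1
import Pool.Agent.WOM.ULT
import Pool.Agent.WOM.SUBM
import Pool.Agent.WOM.HOMG
import Pool.Agent.WOM.MEAS
import Pool.Agent.WOM.REAL
import Pool.Agent.WOM.INC
import Pool.Agent.WOM.NSM
import Pool.Agent.WOM.EMB
import Pool.Agent.WOM.TRC
import Pool.Agent.WOM.TOP

/-!
# VMF: from the countable saturated module to all theories of modules (helper23)

`KU R U` is the class of the models of the theory of `U`.  `St_CU` is the statement for the countable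
saturated module `U`; `thm_TOPM : St_CU → St_MAINM`.
-/

set_option autoImplicit false
set_option linter.unusedSectionVars false
set_option linter.unusedVariables false

namespace Pool.Agent.VMF

open Set Pool.Agent.MVC FirstOrder
open Pool.Agent.WOM (Mon IsEl CtT PerfT ThS Small)

/-- the class of the models of the theory of `U` -/
def KU (R : Type) [Ring R] (U : Type) [AddCommGroup U] [Module R U] : Kl R :=
  ⟨fun M _ _ => Mods (Th R U) M⟩

/-- the theorem for the countable saturated module `U` -/
def St_CU : Prop := ∀ (R : Type) [Ring R] [Countable R] (U : Type) [AddCommGroup U] [Module R U],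
  @Mon (LMod R) U (modStr R U) → ModTh (Th R U) → ¬ PerfMod (Th R U) → CtblMod (Th R U)

/-- the theorem for all theories of modules -/
def St_MAINM : Prop := ∀ (R : Type) [Ring R] [Countable R] (T : (LMod R).Theory), ModTh T →
  CtblMod T ∨ PerfMod T

/-- there are countably many symbols -/
theorem countable_symb (R : Type) [Countable R] : Countable (LMod R).Symbols := by
  have h1 : ∀ n, Countable ((LMod R).Functions n) := by
    intro n
    show Countable (ModFn R n)
    let F : ModFn R n → Option (Option R) := fun x => match x with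
      | ModFn.zero => none
      | ModFn.smul r => some (some r)
      | ModFn.add => some none
    have hF : Function.Injective F := by
      intro a b h
      cases a with
      | zero =>
        cases b
        rfl
      | smul r =>
        cases b with
        | smul r' =>
          have h1 : some (some r) = some (some r') := h
          rw [Option.some.injEq, Option.some.injEq] at h1
          rw [h1]
      | add =>
        cases b
        rfl
    exact hF.countable
  have h2 : ∀ n, Countable ((LMod R).Relations n) := fun n => by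
    show Countable Empty
    infer_instance
  show Countable ((Σ n, (LMod R).Functions n) ⊕ (Σ n, (LMod R).Relations n))
  infer_instance

theorem perfT_iff {R : Type} (T : (LMod R).Theory) : PerfT (LMod R) T ↔ PerfMod T := by
  constructor
  · rintro ⟨f, h1, h2, -, h4⟩
    refine ⟨f, h1, h2, fun n F a b => ⟨⟨?_⟩, h4 n F a b⟩⟩
    have h5 : {x : ℕ → Bool | @FirstOrder.Language.Structure.funMap (LMod R) ℕ (f x) n F a = b}ᶜ =
        ⋃ c ∈ {c : ℕ | c ≠ b},
          {x : ℕ → Bool | @FirstOrder.Language.Structure.funMap (LMod R) ℕ (f x) n F a = c} := by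
      ext x
      simp
    rw [h5]
    exact isOpen_biUnion fun c _ => h4 n F a c
  · rintro ⟨f, h1, h2, h4⟩
    exact ⟨f, h1, h2, fun n r a => Empty.elim r, fun n F a b => (h4 n F a b).isOpen⟩

theorem ctT_iff {R : Type} (T : (LMod R).Theory) : CtT (LMod R) T ↔ CtblMod T := Iff.rfl

/-- a complete theory is the theory of each of its models -/
theorem thS_eq {R : Type} [Ring R] (S : (LMod R).Structure ℕ) (U : Type) [AddCommGroup U]
    [Module R U] (hU : @FirstOrder.Language.Theory.Model (LMod R) U (modStr R U) (ThS (LMod R) S)) :
    ThS (LMod R) S = Th R U := by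
  let _ := S
  let _ := modStr R U
  ext φ
  constructor
  · intro h
    exact hU.realize_of_mem φ h
  · intro h
    have h' : @FirstOrder.Language.Sentence.Realize (LMod R) U (modStr R U) φ := h
    by_contra hn
    have h2 : (FirstOrder.Language.Formula.not φ) ∈ ThS (LMod R) S := by
      show @FirstOrder.Language.Sentence.Realize (LMod R) ℕ S (FirstOrder.Language.Formula.not φ)
      exact (FirstOrder.Language.Sentence.realize_not (M := ℕ)).2 hn
    have h3 := hU.realize_of_mem _ h2
    exact (FirstOrder.Language.Sentence.realize_not (M := U)).1 h3 h'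

theorem thm_TOPM (h : St_CU) : St_MAINM := by
  intro R _ _ T hT
  have hDEF1 := Pool.Agent.WOM.thm_DEF1 Pool.Agent.WOM.thm_DEFF
  have hREAL := Pool.Agent.WOM.thm_REAL Pool.Agent.WOM.thm_MEAS
  have hL := countable_symb R
  have h1 := Pool.Agent.WOM.thm_INC Pool.Agent.WOM.thm_MEAS hREAL (LMod R) hL T (fun S hS => by
    by_cases hp : PerfT (LMod R) (ThS (LMod R) S)
    · exact Or.inr hp
    left
    have hsm : Small (LMod R) (ThS (LMod R) S) := by
      by_contra h
      exact hp (Pool.Agent.WOM.thm_NSM Pool.Agent.WOM.thm_MEAS hREAL (LMod R) hL _ h)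
    obtain ⟨V, _, _, hV, hsV⟩ := Pool.Agent.WOM.thm_ULT hDEF1 (LMod R) hL S
    obtain ⟨U, I, hc, hi, hU, hsU⟩ := Pool.Agent.WOM.thm_SUBM hDEF1 (LMod R) hL S hsm V hV hsV
    have hM : Mon (LMod R) U := Pool.Agent.WOM.thm_HOMG hDEF1 (LMod R) U hc hi hsU
    have hUT := Pool.Agent.WOM.TOP_mono (LMod R) T S hS U hU
    obtain ⟨g, m, rfl⟩ := hT U I hUT
    have e := thS_eq S U hU
    have hTS : T ⊆ ThS (LMod R) S := fun φ hφ => hS.realize_of_mem φ hφ
    have hMT : ModTh (Th R U) := by
      rw [← e]
      intro M S' hS'
      exact hT M S' (@FirstOrder.Language.Theory.Model.mk (LMod R) M S' T fun φ hφ =>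
        FirstOrder.Language.Theory.Model.realize_of_mem (self := hS') φ (hTS hφ))
    rw [e] at hp ⊢
    exact h R U hM hMT fun hq => hp ((perfT_iff _).2 hq))
  rcases h1 with h1 | h1
  · exact Or.inl h1
  · exact Or.inr ((perfT_iff T).1 h1)

/-- modules which satisfy the theory of `U` have the same theory -/
theorem th_eq {R : Type} [Ring R] {U M : Type} [AddCommGroup U] [Module R U] [AddCommGroup M]
    [Module R M] (h : Mods (Th R U) M) : Th R M = Th R U := by
  let _ := modStr R U
  let _ := modStr R M
  ext φ
  constructor
  · intro h1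
    have h1' : @FirstOrder.Language.Sentence.Realize (LMod R) M (modStr R M) φ := h1
    by_contra hn
    have h2 : (FirstOrder.Language.Formula.not φ) ∈ Th R U := by
      show @FirstOrder.Language.Sentence.Realize (LMod R) U (modStr R U)
        (FirstOrder.Language.Formula.not φ)
      exact (FirstOrder.Language.Sentence.realize_not (M := U)).2 hn
    have h3 := FirstOrder.Language.Theory.Model.realize_of_mem (self := h) _ h2
    exact (FirstOrder.Language.Sentence.realize_not (M := M)).1 h3 h1'
  · intro h1
    exact FirstOrder.Language.Theory.Model.realize_of_mem (self := h) φ h1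

theorem mods_self {R : Type} [Ring R] {U : Type} [AddCommGroup U] [Module R U] :
    Mods (Th R U) U :=
  @FirstOrder.Language.Theory.Model.mk (LMod R) U (modStr R U) _ (fun φ h => h)

/-- the models of the theory of an infinite module are infinite -/
theorem inf_of_mods {R : Type} [Ring R] {U M : Type} [AddCommGroup U] [Module R U] [AddCommGroup M]
    [Module R M] (hi : Infinite U) (h : Mods (Th R U) M) : Infinite M := by
  let _ := modStr R U
  let _ := modStr R M
  have h1 : FirstOrder.Language.ElementarilyEquivalent (LMod R) U M := (th_eq h).symm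
  exact h1.infinite

/-- countable models of the theory of `U` are isomorphic to elementary submodels of `U` -/
theorem exists_el {R : Type} [Ring R] [Countable R] (U : Type) [AddCommGroup U] [Module R U]
    (hM : @Mon (LMod R) U (modStr R U)) (M : Type) [AddCommGroup M] [Module R M] (hc : Countable M)
    (hU : Mods (Th R U) M) : ∃ f : M →ₗ[R] U, Function.Injective f ∧
      @IsEl (LMod R) U (modStr R U) (range f) ∧ ∀ (n : ℕ) (φ : (LMod R).Formula (Fin n)) (a : Fin n → M),
        @FirstOrder.Language.Formula.Realize (LMod R) M (modStr R M) _ φ a ↔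
          @FirstOrder.Language.Formula.Realize (LMod R) U (modStr R U) _ φ (f ∘ a) := by
  have hi : Infinite M := inf_of_mods (@Mon.inf (LMod R) U (modStr R U) hM) hU
  obtain ⟨e⟩ : Nonempty (M ≃ ℕ) := nonempty_equiv_of_countable
  let iM := modStr R M
  let iU := modStr R U
  let S : (LMod R).Structure ℕ := @_root_.Equiv.inducedStructure (LMod R) M ℕ iM e
  let E : @FirstOrder.Language.Equiv (LMod R) M ℕ iM S :=
    @_root_.Equiv.inducedStructureEquiv (LMod R) M ℕ iM e
  have hE : ∀ x, E x = e x := fun x => rfl
  have hUS : @FirstOrder.Language.Theory.Model (LMod R) U iU (ThS (LMod R) S) := by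
    refine ⟨fun φ hφ => ?_⟩
    have h1 : @FirstOrder.Language.Sentence.Realize (LMod R) ℕ S φ := hφ
    have h2 : @FirstOrder.Language.Sentence.Realize (LMod R) M iM φ :=
      (FirstOrder.Language.StrongHomClass.realize_sentence E φ).2 h1
    have h3 : φ ∈ Th R M := h2
    rw [th_eq hU] at h3
    exact h3
  obtain ⟨f, hf, hf2, hf3⟩ := Pool.Agent.WOM.thm_EMB
    (Pool.Agent.WOM.thm_DEF1 Pool.Agent.WOM.thm_DEFF) (LMod R) U hM S hUS
  have hreal : ∀ (n : ℕ) (φ : (LMod R).Formula (Fin n)) (a : Fin n → M),
      @FirstOrder.Language.Formula.Realize (LMod R) M iM _ φ a ↔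
        @FirstOrder.Language.Formula.Realize (LMod R) U iU _ φ ((fun x => f (e x)) ∘ a) := by
    intro n φ a
    have h1 : @FirstOrder.Language.Formula.Realize (LMod R) ℕ S _ φ (E ∘ a) ↔
        @FirstOrder.Language.Formula.Realize (LMod R) M iM _ φ a :=
      FirstOrder.Language.StrongHomClass.realize_formula E φ
    have h2 := hf2 n (E ∘ a)
    have h3 : φ ∈ @Pool.Agent.WOM.tp (LMod R) ℕ S n (E ∘ a) ↔
        φ ∈ @Pool.Agent.WOM.tp (LMod R) U iU n (f ∘ (E ∘ a)) := by rw [h2]
    exact h1.symm.trans h3
  have hadd : ∀ x y : M, f (e (x + y)) = f (e x) + f (e y) := by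
    intro x y
    have h1 := (hreal 3 (FirstOrder.Language.Term.equal (L := LMod R)
      (FirstOrder.Language.Functions.apply₂ (L := LMod R) (ModFn.add : ModFn R 2)
        (FirstOrder.Language.Term.var 0) (FirstOrder.Language.Term.var 1))
      (FirstOrder.Language.Term.var 2)) ![x, y, x + y]).1 (by
        rw [FirstOrder.Language.Formula.realize_equal]
        rfl)
    rw [FirstOrder.Language.Formula.realize_equal] at h1
    exact h1.symm
  have hsmul : ∀ (r : R) (x : M), f (e (r • x)) = r • f (e x) := by
    intro r x
    have h1 := (hreal 2 (FirstOrder.Language.Term.equal (L := LMod R)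
      (FirstOrder.Language.Functions.apply₁ (L := LMod R) (ModFn.smul r : ModFn R 1)
        (FirstOrder.Language.Term.var 0))
      (FirstOrder.Language.Term.var 1)) ![x, r • x]).1 (by
        rw [FirstOrder.Language.Formula.realize_equal]
        rfl)
    rw [FirstOrder.Language.Formula.realize_equal] at h1
    exact h1.symm
  refine ⟨{ toFun := fun x => f (e x), map_add' := hadd, map_smul' := hsmul },
    hf.comp e.injective, ?_, hreal⟩
  have h4 : range (fun x => f (e x)) = range f := by
    rw [show (fun x => f (e x)) = f ∘ e from rfl, range_comp, e.surjective.range_eq, image_univ]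
  show @IsEl (LMod R) U iU (range (fun x => f (e x)))
  rw [h4]
  exact hf3

end Pool.Agent.VMF
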