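import Pool.Agent.VMF.StK
import Pool.Agent.VMF.StD
import Pool.Agent.VMF.Top
import Pool.Agent.VMF.FEW
import Pool.Agent.VMF.BRI
import Pool.Agent.MVC.OWN
import Pool.Agent.MVC.FOR

/-!
# VMF: the assembly (helper31)

The two inputs of the homogeneity theorem for the class of the models of the theory of the countable
saturated module `U`, and the glue between the class `InK U` (elementary submodules of `U`) and the class
`KU R U` (models of the theory of `U`).
-/

set_option autoImplicit false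
set_option linter.unusedSectionVars false
set_option linter.unusedVariables false

namespace Pool.Agent.VMF

open Set Pool.Agent.MVC Pool.Agent.MVC.Ax

/-- (T1') for the models of the theory of `U` -/
def St_T1U : Prop := ∀ (R : Type) [Ring R] [Countable R] (U : Md R), MonM R U → FewT R U →
  T1F (KU R U)

/-- (UML) for the models of the theory of `U` -/
def St_UMLU : Prop := ∀ (R : Type) [Ring R] [Countable R] (U : Md R), MonM R U → FewT R U →
  UMLF (KU R U)

theorem thm_CU (hT : St_T1U) (hU : St_UMLU) : St_CU := by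
  intro R _ _ U _ _ hM hMT hP
  have hi : Infinite U := @Pool.Agent.WOM.Mon.inf (LMod R) U (modStr R U) hM
  have hf := thm_FEW R U hi hMT hP
  exact thm_CT R U hi hMT hf (thm_ISO (hT R ⟨U⟩ hM hf) (hU R ⟨U⟩ hM hf))

/-- the theorem for all theories of modules -/
theorem thm_MAINM (hT : St_T1U) (hU : St_UMLU) : St_MAINM := thm_TOPM (thm_CU hT hU)

/-- few ages (AgeC) -/
theorem ageC_of_few {R : Type} [Ring R] [Countable R] {U : Md R} (hM : MonM R U)
    (hf : FewT R U) : AgeC U := by
  intro n
  refine (hf.few3 (Fin n)).mono ?_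
  rintro A ⟨M, x, hK, rfl⟩
  refine ⟨M, inK_ctbl hM hK, inK_mods hK, x, ?_⟩
  ext q
  exact ⟨fun ⟨c, hc⟩ => ⟨c, hc.symm⟩, fun ⟨c, hc⟩ => ⟨c, hc.symm⟩⟩

/-- Claim A for the saturated module with few types -/
def St_CLA : Prop := ∀ (R : Type) [Ring R] [Countable R] (U : Md R), MonM R U → FewT R U →
  ClaimA U

/-- 4.1, 4.2: one full module -/
def St_FTU : Prop := ∀ (R : Type) [Ring R] [Countable R] (U : Md R), MonM R U → FewT R U →
  ClaimA U → ∃ Y : Md R, FTY U Y

theorem thm_UMLU (hA : St_CLA) (hG : St_FTU) (hU : St_UMT) : St_UMLU := by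
  intro R _ _ U hM hf M _ _ hc hMU n a
  have hA := hA R U hM hf
  have hK : InK U M := (inK_iff hM M).2 ⟨hc, hMU⟩
  obtain ⟨V, h1, h2⟩ := hU R U hM hA (ageC_of_few hM hf) (hG R U hM hf hA) ⟨M⟩ hK n a
  refine ⟨V, h1, fun W hW M' _ _ hc' hM' x hx => h2 W hW ⟨M'⟩ ?_ x hx⟩
  exact in_own_of_inK ((inK_iff hM M').2 ⟨hc', hM'⟩)

end Pool.Agent.VMF
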