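import Pool.Agent.VMF.ABS
import Pool.Agent.VMF.Asm
import Pool.Agent.VMF.StT
import Pool.Agent.VMA.St

/-!
# VMF: Claim A for the saturated module with few types (helper73)
-/

set_option autoImplicit false
set_option linter.unusedSectionVars false
set_option linter.unusedVariables false

namespace Pool.Agent.VMF

open Set Pool.Agent.MVC Pool.Agent.MVC.Ax

/-- (TLI) with a cofinal family `Q` of finite sets -/
def St_TLQ : Prop := ∀ (R : Type) [Ring R] [Countable R] (U : Md R), MonM R U →
  ∀ (ι : Type) [Countable ι] (P : ∀ A : Finset ι, Set (PP R A)) (Q : Finset ι → Prop),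
  (∀ A, ∃ B, A ⊆ B ∧ Q B) →
  (∀ A : Finset ι, ∃ c : A → U, pp (R := R) U c = P A) →
  (∀ (A B : Finset ι) (h : A ⊆ B) (φ : PP R A), φ ∈ P A ↔
    ren (fun i : A => (⟨i.1, h i.2⟩ : B)) φ ∈ P B) →
  ∃ (N : Submodule R U) (c : ι → N), El U N ∧ (∀ A : Finset ι,
    pp (R := R) N (fun i : A => c i) = P A) ∧
    ∀ (l : Type) [Finite l] (b : l → N) (A₀ : Finset ι), ∃ A : Finset ι, A₀ ⊆ A ∧ Q A ∧
      ∃ θ : PP R (A ⊕ l), (Own R U).Gen (P A) N (fun i : A => c i) b θ

section

variable {R : Type} [Ring R]

theorem own_in (U : Type) [AddCommGroup U] [Module R U] : (Own R U).In U := fun a ha x hx => ha x hx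

theorem satU_of (hS : St_SATP) [Countable R] {U : Md R} (hM : MonM R U) : SatU U := by
  classical
  intro ι κ _ _ a φ b h
  obtain ⟨c, hc1, hc2⟩ := hS R U hM ι κ a {ψ | ∃ j, b j ∧ φ j = ψ} {ψ | ∃ j, ¬ b j ∧ φ j = ψ}
    (fun s t hs ht => by
      choose! f hf using fun ψ (hψ : ψ ∈ s) => hs hψ
      choose! g hg using fun ψ (hψ : ψ ∈ t) => ht hψ
      obtain ⟨x, hx⟩ := h ((s.sup f ⊔ t.sup g) + 1)
      refine ⟨x, fun ψ hψ => ?_, fun ψ hψ => ?_⟩
      · have h1 := hx (f ψ) (Nat.lt_succ_of_le ((Finset.le_sup hψ).trans le_sup_left))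
        rw [(hf ψ hψ).2] at h1
        exact h1.2 (hf ψ hψ).1
      · have h1 := hx (g ψ) (Nat.lt_succ_of_le ((Finset.le_sup hψ).trans le_sup_right))
        rw [(hg ψ hψ).2] at h1
        exact fun h2 => (hg ψ hψ).1 (h1.1 h2))
  refine ⟨c, fun j => ⟨fun h1 => ?_, fun h1 => hc1 _ ⟨j, h1, rfl⟩⟩⟩
  by_contra h2
  exact hc2 _ ⟨j, h2, rfl⟩ h1

theorem homU_of (hH : St_HOMP) [Countable R] {U : Md R} (hM : MonM R U) : HomU U := by
  intro ι _ a b h
  exact hH R U hM ι a b h

/-- the realised ages determine the realised types -/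
theorem pp_of_ages {M M' : Type} [AddCommGroup M] [Module R M] [AddCommGroup M'] [Module R M']
    (h : ages R M = ages R M') {ι : Type} [Finite ι] (x : ι → M) :
    ∃ x' : ι → M', pp (R := R) M' x' = pp (R := R) M x := by
  obtain ⟨n, ⟨e⟩⟩ := Finite.exists_equiv_fin ι
  have h1 : (⟨n, age (R := R) M (x ∘ e.symm)⟩ :
      (n : ℕ) × Set ((k : ℕ) × Set (PP R (Fin n ⊕ Fin k)))) ∈ ages R M := ⟨x ∘ e.symm, rfl⟩
  rw [h] at h1
  obtain ⟨y, hy⟩ := h1
  have hy' : age (R := R) M' y = age (R := R) M (x ∘ e.symm) := hy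
  have h2 : pp (R := R) M' y = pp (R := R) M (x ∘ e.symm) := by
    have key : ∀ {M M' : Type} [AddCommGroup M] [Module R M] [AddCommGroup M'] [Module R M']
        {y : Fin n → M'} {z : Fin n → M}, age (R := R) M' y = age (R := R) M z →
        pp (R := R) M' y ⊆ pp (R := R) M z := by
      intro M M' _ _ _ _ y z hyz φ hφ
      have h3 : (⟨0, pp M' (Sum.elim y Fin.elim0)⟩ : (k : ℕ) × Set (PP R (Fin n ⊕ Fin k))) ∈
          age (R := R) M' y := ⟨Fin.elim0, rfl⟩
      rw [hyz] at h3
      obtain ⟨c, hc⟩ := h3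
      have h4 : ren Sum.inl φ ∈ pp (R := R) M' (Sum.elim y Fin.elim0) := by
        show Sat _ _ _
        rw [sat_ren]
        exact hφ
      have hc' : pp (R := R) M (Sum.elim z c) = pp (R := R) M' (Sum.elim y Fin.elim0) := hc
      rw [← hc'] at h4
      have h5 : Sat (ren Sum.inl φ) M (Sum.elim z c) := h4
      rw [sat_ren] at h5
      exact h5
    exact Subset.antisymm (key hy') (key hy'.symm)
  refine ⟨y ∘ e, ?_⟩
  ext φ
  have h6 : ren e φ ∈ pp (R := R) M' y ↔ ren e φ ∈ pp (R := R) M (x ∘ e.symm) := by rw [h2]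
  have h7 : ren e φ ∈ pp (R := R) M' y ↔ φ ∈ pp (R := R) M' (y ∘ e) := sat_ren e φ y
  have h8 : ren e φ ∈ pp (R := R) M (x ∘ e.symm) ↔ φ ∈ pp (R := R) M x := by
    refine (sat_ren e φ (x ∘ e.symm)).trans ?_
    have : (x ∘ e.symm) ∘ e = x := by
      funext i
      simp
    rw [this]
    exact Iff.rfl
  exact h7.symm.trans (h6.trans h8)

/-- CLAIM A -/
theorem thm_CLA (hA : VMA.St_ClaimA) (hS : St_SATP) (hH : St_HOMP) (hT : St_TLQ) : St_CLA := by
  classical
  intro R _ hR U hM hf ι _ S
  have hc : Countable U := mon_ctbl hM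
  let A := absU U hR hc (homU_of hH hM) (satU_of hS hM)
  have hTy : A.IsT (grp U S) := absU_isT.2 ⟨S, rfl⟩
  rcases hA U A ι (grp U S) hTy with h1 | ⟨a, O, hO1, hO2, hO3⟩
  · have h2 := h1.2.2
    have h3 : A.q1 (grp U S) = grp U S ⊓ grp U (one U S) := absU_q1 S
    rw [h3, AddSubgroup.inf_relIndex_left] at h2
    exact h2
  exfalso
  have := Fintype.ofFinite ι
  -- the models
  have hmod : ∀ E : Set ℕ, ∃ N : Submodule R U, El U N ∧
      ∀ k, k ∈ E ↔ ∃ x : ι → N, (fun i => (x i : U)) ∈ O k := by
    intro E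
    let P : ∀ B : Finset (E × ι), Set (PP R B) := fun B =>
      pp (R := R) U (fun i : B => a i.1.1 i.1.2)
    let Q : Finset (E × ι) → Prop := fun B => ∃ F : Finset E, B = F ×ˢ Finset.univ
    obtain ⟨N, c, hN, hcP, hgen⟩ := hT R U hM (E × ι) P Q
      (fun B => ⟨(B.image Prod.fst) ×ˢ Finset.univ, fun p hp => Finset.mem_product.2
        ⟨Finset.mem_image_of_mem _ hp, Finset.mem_univ _⟩, _, rfl⟩)
      (fun B => ⟨_, rfl⟩)
      (fun B B' h φ => by
        show Sat φ U _ ↔ Sat (ren _ φ) U _
        rw [sat_ren]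
        exact Iff.rfl)
    refine ⟨N, hN, fun k => ⟨fun hk => ?_, ?_⟩⟩
    · refine ⟨fun i => c (⟨k, hk⟩, i), hO2 k (a k) _ ?_ (hO1 k)⟩
      -- same type
      let B : Finset (E × ι) := ({⟨k, hk⟩} : Finset E) ×ˢ Finset.univ
      have hB := hcP B
      have h4 : pp (R := R) U (fun i : ι => ((c (⟨k, hk⟩, i) : N) : U)) = pp (R := R) U (a k) := by
        ext φ
        let r : ι → B := fun i => ⟨(⟨k, hk⟩, i), Finset.mem_product.2
          ⟨Finset.mem_singleton_self _, Finset.mem_univ _⟩⟩
        have h5 : ren r φ ∈ pp (R := R) N (fun i : B => c i) ↔ ren r φ ∈ P B := by rw [hB]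
        have h6 : ren r φ ∈ pp (R := R) N (fun i : B => c i) ↔
            Sat φ N (fun i : ι => c (⟨k, hk⟩, i)) := sat_ren r φ _
        have h7 : ren r φ ∈ P B ↔ Sat φ U (a k) := sat_ren r φ _
        exact ((el_sat hN φ _).symm.trans h6.symm).trans (h5.trans h7)
      show A.pp (a k) = A.pp _
      rw [show A.pp (a k) = grp U (pp (R := R) U (a k)) from absU_pp _,
        show A.pp (fun i => ((c (⟨k, hk⟩, i) : N) : U)) = grp U (pp (R := R) U _) from absU_pp _,
        h4]
    · rintro ⟨b, hb⟩
      by_contra hk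
      obtain ⟨B, -, ⟨F, rfl⟩, θ, hθ, hgen'⟩ := hgen ι b ∅
      -- move to `a`
      have hpp : pp (R := R) U (fun i : (F ×ˢ (Finset.univ : Finset ι) : Finset (E × ι)) =>
          ((c i : N) : U)) = pp (R := R) U (fun i => a i.1.1 i.1.2) := by
        rw [← el_pp hN (fun i : (F ×ˢ (Finset.univ : Finset ι) : Finset (E × ι)) => c i)]
        exact hcP _
      obtain ⟨γ, hγ⟩ := hH R U hM _ _ _ hpp
      let α : Type := {e : E // e ∈ F}
      let f : α → ℕ := fun e => (e.1 : ℕ)
      let e : (F ×ˢ (Finset.univ : Finset ι) : Finset (E × ι)) ≃ α × ι :=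
        { toFun := fun p => (⟨p.1.1, (Finset.mem_product.1 p.2).1⟩, p.1.2)
          invFun := fun p => ⟨(p.1.1, p.2), Finset.mem_product.2 ⟨p.1.2, Finset.mem_univ _⟩⟩
          left_inv := fun p => rfl
          right_inv := fun p => rfl }
      let d : ι → U := fun i => γ (b i)
      have hdO : d ∈ O k := by
        refine hO2 k _ _ ?_ hb
        have h8 : A.pp (fun i => γ.toAddEquiv ((b i : N) : U)) = A.pp (fun i => ((b i : N) : U)) :=
          A.pp_act ⟨γ, rfl⟩ _
        exact h8.symm
      refine hO3 α f (fun x y hxy => Subtype.ext (Subtype.ext hxy)) k (fun i hi => hk ?_) d ?_ hdO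
      · rw [← hi]
        exact i.1.2
      · -- isolated
        refine ⟨satGroup (ren (Sum.map e id) θ) U, ⟨_, rfl⟩, ?_⟩
        have hfix : ∀ p, γ ((c (e.symm p).1 : N) : U) = VMA.tup a f p := fun p => hγ (e.symm p)
        -- type of (a, d) = type of (c, b)
        have htr : ∀ ψ : PP R ((α × ι) ⊕ ι), Sat ψ U (Sum.elim (VMA.tup a f) d) ↔
            Sat (ren (Sum.map e.symm id) ψ) N (Sum.elim (fun i => c i) b) := by
          intro ψ
          rw [sat_ren, el_sat hN]
          constructor
          · intro h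
            have h9 := h.map (γ.symm : U →ₗ[R] U)
            refine Eq.mp ?_ h9
            congr 1
            funext i
            rcases i with i | i
            · show γ.symm (VMA.tup a f i) = _
              rw [← hfix i]
              exact γ.symm_apply_apply _
            · exact γ.symm_apply_apply _
          · intro h
            have h9 := h.map (γ : U →ₗ[R] U)
            refine Eq.mp ?_ h9
            congr 1
            funext i
            rcases i with i | i
            · exact hfix i
            · rfl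
        apply le_antisymm
        · refine le_inf ?_ ?_
          · intro z hz
            show VMA.pL z ∈ A.pp (VMA.tup a f)
            rw [← A.pp_pL (VMA.tup a f) d]
            exact ⟨z, hz, rfl⟩
          · refine (A.pp_le_iff (A.isT_of_mem ⟨_, rfl⟩)).2 ?_
            show Sat (ren (Sum.map e id) θ) U _
            rw [htr, sat_ren, sat_ren]
            have h10 : ((Sum.elim (fun i : (F ×ˢ (Finset.univ : Finset ι) : Finset (E × ι)) => c i)
                b ∘ Sum.map e.symm id) ∘ Sum.map e id) =
                Sum.elim (fun i : (F ×ˢ (Finset.univ : Finset ι) : Finset (E × ι)) => c i) b := by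
              funext i
              rcases i with i | i
              · simp
              · rfl
            rw [h10]
            exact hθ
        · rintro z ⟨hz1, hz2⟩
          have hz1' : VMA.pL z ∈ A.pp (VMA.tup a f) := hz1
          have hz2' : Sat (ren (Sum.map e id) θ) U z := hz2
          rw [A.mem_pp_iff]
          rintro _ ⟨ψ, rfl⟩ hψ
          have hψ' : Sat ψ U (Sum.elim (VMA.tup a f) d) := hψ
          rw [htr] at hψ'
          obtain ⟨s, hs, himp⟩ := hgen' _ hψ'
          have h11 := himp U (own_in U) (VMA.pL z ∘ e) (VMA.pR z) (fun φ hφ => by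
            have h12 : φ ∈ P (F ×ˢ Finset.univ) := hs hφ
            have h13 : Sat (ren e φ) U (VMA.tup a f) := by
              rw [sat_ren]
              exact h12
            have h14 : Sat (ren e φ) U (VMA.pL z) :=
              (A.mem_pp_iff.1 hz1') (satGroup (ren e φ) U) ⟨_, rfl⟩ h13
            rw [sat_ren] at h14
            exact h14) (by
            rw [sat_ren] at hz2'
            refine Eq.mp ?_ hz2'
            congr 1
            funext i
            rcases i with i | i <;> rfl)
          rw [sat_ren] at h11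
          show Sat ψ U z
          refine Eq.mp ?_ h11
          congr 1
          funext i
          rcases i with i | i
          · show VMA.pL z (e (e.symm i)) = z (Sum.inl i)
            rw [e.apply_symm_apply]
            rfl
          · rfl
  choose N hN hEk using hmod
  have hinj : Function.Injective fun E : Set ℕ => ages R (N E) := by
    intro E E' h
    have h' : ages R (N E) = ages R (N E') := h
    have key : ∀ E E' : Set ℕ, ages R (N E) = ages R (N E') → E ⊆ E' := by
      intro E E' h k hk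
      obtain ⟨x, hx⟩ := (hEk E k).1 hk
      obtain ⟨x', hx'⟩ := pp_of_ages h x
      refine (hEk E' k).2 ⟨x', hO2 k _ _ ?_ hx⟩
      have h15 : pp (R := R) U (fun i => ((x i : N E) : U)) =
          pp (R := R) U (fun i => ((x' i : N E') : U)) := by
        rw [← el_pp (hN E), ← el_pp (hN E'), hx']
      show A.pp _ = A.pp _
      rw [show A.pp (fun i => ((x i : N E) : U)) = grp U (pp (R := R) U _) from absU_pp _,
        show A.pp (fun i => ((x' i : N E') : U)) = grp U (pp (R := R) U _) from absU_pp _, h15]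
    exact Subset.antisymm (key E E' h') (key E' E h'.symm)
  have hcount : (Set.range fun E : Set ℕ => ages R (N E)).Countable := by
    refine hf.few4.mono ?_
    rintro _ ⟨E, rfl⟩
    exact ⟨⟨N E⟩, inferInstanceAs (Countable (N E)), el_mods (hN E), rfl⟩
  have h16 : Countable (Set ℕ) := by
    have := hcount.to_subtype
    exact Function.Injective.countable
      (f := fun E : Set ℕ => (⟨_, E, rfl⟩ : Set.range fun E : Set ℕ => ages R (N E)))
      fun E E' h => hinj (Subtype.ext_iff.1 h)
  exact (Function.cantor_surjective (fun n : ℕ => (exists_surjective_nat (Set ℕ)).choose n)) 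
    (exists_surjective_nat (Set ℕ)).choose_spec

end

end Pool.Agent.VMF
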