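import Pool.Agent.VMF.StT

/-!
# VMF, block T: isolated tuples are dense (helper47)
-/

set_option autoImplicit false
set_option linter.unusedSectionVars false
set_option linter.unusedVariables false

namespace Pool.Agent.VMF

open Set Pool.Agent.MVC Pool.Agent.MVC.Ax

section

variable {R : Type} [Ring R] {κ ι : Type}

/-- the set given by `θ`, `s` over `b` -/
private def ISD_B (U : Md R) (b : κ → U) (q : PP R (κ ⊕ ι) × Finset (PP R (κ ⊕ ι))) :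
    Set (ι → U) :=
  {c | Sat q.1 U (Sum.elim b c) ∧ ∀ ψ ∈ q.2, ¬ Sat ψ U (Sum.elim b c)}

private theorem ISD_and (φ ψ : PP R (κ ⊕ ι)) : ∃ χ : PP R (κ ⊕ ι),
    ∀ (M : Type) [AddCommGroup M] [Module R M] (x : κ ⊕ ι → M),
      Sat χ M x ↔ Sat φ M x ∧ Sat ψ M x := by
  obtain ⟨χ, h⟩ := (isPP_sat φ).and (isPP_sat ψ)
  exact ⟨χ, fun M _ _ x => (h M x).symm⟩

/-- the step -/
private theorem ISD_step (U : Md R) (b : κ → U) (q : PP R (κ ⊕ ι) × Finset (PP R (κ ⊕ ι)))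
    (hq : (ISD_B U b q).Nonempty) (hn : ∀ c ∈ ISD_B U b q, ¬ Isol (R := R) U b c) (v : ι → U) :
    ∃ q' : PP R (κ ⊕ ι) × Finset (PP R (κ ⊕ ι)), (ISD_B U b q').Nonempty ∧
      (∀ c : ι → U, Sat q'.1 U (Sum.elim b c) → Sat q.1 U (Sum.elim b c)) ∧ q.2 ⊆ q'.2 ∧
      v ∉ ISD_B U b q' := by
  classical
  by_cases hv : v ∈ ISD_B U b q
  · have h1 := hn v hv
    have h2 : ∃ v' ∈ ISD_B U b q, pp (R := R) U (Sum.elim b v') ≠ pp (R := R) U (Sum.elim b v) := by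
      by_contra hcon
      refine h1 ⟨q.1, q.2, hv.1, hv.2, fun c' hc' hc'' => ?_⟩
      by_contra hne
      exact hcon ⟨c', ⟨hc', hc''⟩, hne⟩
    obtain ⟨v', hv', hne⟩ := h2
    have h3 : ∃ χ : PP R (κ ⊕ ι), ¬ (Sat χ U (Sum.elim b v') ↔ Sat χ U (Sum.elim b v)) := by
      by_contra hcon
      refine hne (Set.ext fun χ => ?_)
      by_contra h4
      exact hcon ⟨χ, h4⟩
    obtain ⟨χ, hχ⟩ := h3
    by_cases h5 : Sat χ U (Sum.elim b v')
    · have h6 : ¬ Sat χ U (Sum.elim b v) := fun h => hχ ⟨fun _ => h, fun _ => h5⟩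
      obtain ⟨χ', hχ'⟩ := ISD_and q.1 χ
      refine ⟨(χ', q.2), ⟨v', (hχ' U _).2 ⟨hv'.1, h5⟩, hv'.2⟩,
        fun c hc => ((hχ' U _).1 hc).1, Finset.Subset.refl _, fun h => h6 ((hχ' U _).1 h.1).2⟩
    · have h6 : Sat χ U (Sum.elim b v) := by
        by_contra h
        exact hχ ⟨fun h' => absurd h' h5, fun h' => absurd h' h⟩
      refine ⟨(q.1, insert χ q.2), ⟨v', hv'.1, fun ψ hψ => ?_⟩, fun c hc => hc,
        Finset.subset_insert _ _, fun h => h.2 χ (Finset.mem_insert_self _ _) h6⟩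
      rcases Finset.mem_insert.mp hψ with rfl | hψ
      · exact h5
      · exact hv'.2 ψ hψ
  · exact ⟨q, hq, fun c hc => hc, Finset.Subset.refl _, hv⟩

end

theorem thm_ISD (h : St_SATP) : St_ISD := by
  classical
  intro R _ _ U hU κ ι _ _ b θ s hne
  by_contra hcon
  have hn0 : ∀ c ∈ ISD_B U b (θ, s), ¬ Isol (R := R) U b c := fun c hc hi => hcon ⟨c, hc, hi⟩
  have hctb : Countable U := @Pool.Agent.WOM.Mon.ctb (LMod R) U (modStr R U) hU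
  obtain ⟨v, hv⟩ := exists_surjective_nat (ι → U)
  -- the sequence of boxes
  let Q := {q : PP R (κ ⊕ ι) × Finset (PP R (κ ⊕ ι)) //
    (ISD_B U b q).Nonempty ∧ ISD_B U b q ⊆ ISD_B U b (θ, s)}
  have hstep : ∀ (q : Q) (w : ι → U), ∃ q' : Q,
      (∀ c : ι → U, Sat q'.1.1 U (Sum.elim b c) → Sat q.1.1 U (Sum.elim b c)) ∧
      q.1.2 ⊆ q'.1.2 ∧ w ∉ ISD_B U b q'.1 := by
    intro q w
    obtain ⟨q', h1, h2, h3, h4⟩ := ISD_step U b q.1 q.2.1 (fun c hc => hn0 c (q.2.2 hc)) w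
    exact ⟨⟨q', h1, fun c hc => q.2.2 ⟨h2 c hc.1, fun ψ hψ => hc.2 ψ (h3 hψ)⟩⟩, h2, h3, h4⟩
  choose st h1 h2 h3 using hstep
  let q : ℕ → Q := fun n => Nat.rec ⟨(θ, s), hne, Subset.refl _⟩ (fun n q => st q (v n)) n
  have hq : ∀ n, q (n + 1) = st (q n) (v n) := fun n => rfl
  have h4 : ∀ m n, m ≤ n → (∀ c : ι → U, Sat (q n).1.1 U (Sum.elim b c) →
      Sat (q m).1.1 U (Sum.elim b c)) ∧ (q m).1.2 ⊆ (q n).1.2 := by
    intro m n hmn
    induction n, hmn using Nat.le_induction with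
    | base => exact ⟨fun c hc => hc, Finset.Subset.refl _⟩
    | succ n hmn ih =>
      refine ⟨fun c hc => ih.1 c ?_, ih.2.trans ?_⟩
      · rw [hq n] at hc
        exact h1 (q n) (v n) c hc
      · rw [hq n]
        exact h2 (q n) (v n)
  obtain ⟨c, hc1, hc2⟩ := h R U hU κ ι b (range fun n => (q n).1.1) (⋃ n, ↑(q n).1.2) (by
    intro s' t hs' ht
    -- a common bound
    have e1 : ∃ n, ∀ φ ∈ s', ∀ c : ι → U, Sat (q n).1.1 U (Sum.elim b c) →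
        Sat φ U (Sum.elim b c) := by
      choose! k hk using fun (φ : PP R (κ ⊕ ι)) (hφ : φ ∈ s') => hs' hφ
      refine ⟨s'.sup k, fun φ hφ c hc => ?_⟩
      have e2 := (h4 (k φ) (s'.sup k) (Finset.le_sup hφ)).1 c hc
      have e3 : (q (k φ)).1.1 = φ := hk φ hφ
      rwa [e3] at e2
    have e2 : ∃ n, ∀ ψ ∈ t, ψ ∈ (q n).1.2 := by
      have e3 : ∀ ψ ∈ t, ∃ n, ψ ∈ (q n).1.2 := fun ψ hψ => by
        obtain ⟨n, hn⟩ := mem_iUnion.mp (ht hψ)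
        exact ⟨n, hn⟩
      choose! k hk using e3
      exact ⟨t.sup k, fun ψ hψ => (h4 (k ψ) (t.sup k) (Finset.le_sup hψ)).2 (hk ψ hψ)⟩
    obtain ⟨n, hn⟩ := e1
    obtain ⟨m, hm⟩ := e2
    obtain ⟨c, hc⟩ := (q (max n m)).2.1
    refine ⟨c, fun φ hφ => hn φ hφ c ((h4 n (max n m) (le_max_left _ _)).1 c hc.1),
      fun ψ hψ => hc.2 ψ ((h4 m (max n m) (le_max_right _ _)).2 (hm ψ hψ))⟩)
  obtain ⟨n, rfl⟩ := hv c
  refine h3 (q n) (v n) ⟨?_, fun ψ hψ => ?_⟩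
  · rw [← hq n]
    exact hc1 _ ⟨n + 1, rfl⟩
  · rw [← hq n] at hψ
    exact hc2 ψ (mem_iUnion.mpr ⟨n + 1, hψ⟩)

end Pool.Agent.VMF
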