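import Pool.Agent.VMF.StT

/-!
# VMF: the type of an isolated tuple is generated by one formula (helper23)
-/

set_option autoImplicit false
set_option linter.unusedSectionVars false
set_option linter.unusedVariables false

namespace Pool.Agent.VMF

open Set Pool.Agent.MVC Pool.Agent.MVC.Ax
open scoped Pointwise

section

variable {R : Type} [Ring R] {ι κ : Type}

/-- the group of all `x` with `φ(0, x)` -/
private def fg (U : Type) [AddCommGroup U] [Module R U] (φ : PP R (κ ⊕ ι)) :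
    AddSubgroup (ι → U) where
  carrier := {x | Sat φ U (Sum.elim 0 x)}
  add_mem' := by
    intro x y hx hy
    have h1 := Sat.add hx hy
    rw [← elim_add, add_zero] at h1
    exact h1
  zero_mem' := by
    have h1 : (Sum.elim 0 0 : κ ⊕ ι → U) = 0 := by
      funext i
      rcases i with i | i <;> rfl
    show Sat φ U (Sum.elim 0 0)
    rw [h1]
    exact Sat.zero φ
  neg_mem' := by
    intro x hx
    have h1 := Sat.neg hx
    rw [← elim_neg, neg_zero] at h1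
    exact h1

private theorem mem_fg {U : Type} [AddCommGroup U] [Module R U] {φ : PP R (κ ⊕ ι)} {x : ι → U} :
    x ∈ fg U φ ↔ Sat φ U (Sum.elim 0 x) := Iff.rfl

private theorem sat_sub' {U : Type} [AddCommGroup U] [Module R U] {φ : PP R (κ ⊕ ι)} {b : κ → U}
    {x y : ι → U} (hx : Sat φ U (Sum.elim b x)) : Sat φ U (Sum.elim b y) ↔ y - x ∈ fg U φ := by
  rw [mem_fg]
  constructor
  · intro hy
    have h1 := Sat.sub hy hx
    rw [← elim_sub, sub_self] at h1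
    exact h1
  · intro h
    have h1 := Sat.add hx h
    rw [← elim_add, add_zero, add_sub_cancel] at h1
    exact h1

end

/-- Neumann's lemma: a subgroup of finite index in all groups which contain the complement of finitely
many cosets -/
theorem neu {A κ : Type} [AddCommGroup A] (G : AddSubgroup A) (s : Finset κ)
    (H : κ → AddSubgroup A) (C : κ → Set A)
    (hC : ∀ i ∈ s, ∀ x ∈ C i, ∀ y, y ∈ C i ↔ y - x ∈ H i) (h0 : ∀ i ∈ s, (0 : A) ∉ C i) :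
    ∃ Δ : AddSubgroup A, Δ ≤ G ∧ Δ.relIndex G ≠ 0 ∧ ∀ K : AddSubgroup A,
      (∀ x ∈ G, (∀ i ∈ s, x ∉ C i) → x ∈ K) → Δ ≤ K := by
  classical
  let s₁ : Finset κ := s.filter fun i => (H i).relIndex G ≠ 0
  let Δ : AddSubgroup A := G ⊓ ⨅ i : s₁, H i
  have hΔG : Δ ≤ G := inf_le_left
  have hΔH : ∀ i ∈ s₁, Δ ≤ H i := fun i hi => inf_le_right.trans (iInf_le (fun i : s₁ => H i) ⟨i, hi⟩)
  have hΔ : Δ.relIndex G ≠ 0 := by
    have h1 : (⨅ i : s₁, H i).relIndex G ≠ 0 :=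
      AddSubgroup.relIndex_iInf_ne_zero fun i => (Finset.mem_filter.1 i.2).2
    rw [AddSubgroup.inf_relIndex_left]
    exact h1
  refine ⟨Δ, hΔG, hΔ, fun K hK => ?_⟩
  let s₂ : Finset κ := s.filter fun i => ∃ x ∈ Δ, x ∈ C i
  have hg : ∀ i, ∃ g : Δ, (∃ x ∈ Δ, x ∈ C i) → (g : A) ∈ C i := by
    intro i
    by_cases h : ∃ x ∈ Δ, x ∈ C i
    · obtain ⟨x, hx, hx'⟩ := h
      exact ⟨⟨x, hx⟩, fun _ => hx'⟩
    · exact ⟨0, fun h' => absurd h' h⟩
  choose g hg using hg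
  let s' : Finset (Option κ) := insert none (s₂.image some)
  let H' : Option κ → AddSubgroup Δ := fun o => o.elim (K.addSubgroupOf Δ)
    fun i => (H i).addSubgroupOf Δ
  let g' : Option κ → Δ := fun o => o.elim 0 g
  have hcov : ⋃ i ∈ s', g' i +ᵥ (H' i : Set Δ) = Set.univ := by
    rw [Set.eq_univ_iff_forall]
    intro x
    by_cases h : ∃ i ∈ s, (x : A) ∈ C i
    · obtain ⟨i, hi, hx⟩ := h
      have hi2 : i ∈ s₂ := Finset.mem_filter.2 ⟨hi, x, x.2, hx⟩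
      refine Set.mem_biUnion (x := some i) ?_ ?_
      · exact Finset.mem_coe.2 (Finset.mem_insert_of_mem (Finset.mem_image_of_mem some hi2))
      · rw [Set.mem_vadd_set_iff_neg_vadd_mem]
        have h1 := (hC i hi _ (hg i ⟨x, x.2, hx⟩) x).1 hx
        show -(g i) + x ∈ (H i).addSubgroupOf Δ
        rw [AddSubgroup.mem_addSubgroupOf]
        show -(g i : A) + x ∈ H i
        rw [neg_add_eq_sub]
        exact h1
    · have h1 : (x : A) ∈ K := hK x (hΔG x.2) fun i hi hx => h ⟨i, hi, hx⟩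
      refine Set.mem_biUnion (x := none) ?_ ?_
      · exact Finset.mem_coe.2 (Finset.mem_insert_self _ _)
      · rw [Set.mem_vadd_set_iff_neg_vadd_mem]
        show -(0 : Δ) + x ∈ K.addSubgroupOf Δ
        rw [neg_zero, zero_add, AddSubgroup.mem_addSubgroupOf]
        exact h1
  have hcov1 := AddSubgroup.leftCoset_cover_filter_FiniteIndex (s := s') (H := H') (g := g') hcov
  intro x hx
  have hx1 : (⟨x, hx⟩ : Δ) ∈ ⋃ k ∈ s'.filter (fun i => (H' i).FiniteIndex),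
      g' k +ᵥ (H' k : Set Δ) := by
    have h1 : ⋃ k ∈ s'.filter (fun i => (H' i).FiniteIndex),
      g' k +ᵥ (H' k : Set Δ) = Set.univ := hcov1
    rw [h1]
    trivial
  obtain ⟨o, ho, hxo⟩ := Set.mem_iUnion₂.1 hx1
  obtain ⟨ho1, ho2⟩ := Finset.mem_filter.1 ho
  rcases Finset.mem_insert.1 ho1 with rfl | ho1
  · rw [Set.mem_vadd_set_iff_neg_vadd_mem] at hxo
    have h1 : -(0 : Δ) + ⟨x, hx⟩ ∈ K.addSubgroupOf Δ := hxo
    rw [neg_zero, zero_add, AddSubgroup.mem_addSubgroupOf] at h1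
    exact h1
  · exfalso
    obtain ⟨i, hi, rfl⟩ := Finset.mem_image.1 ho1
    obtain ⟨his, z, hz, hzC⟩ := Finset.mem_filter.1 hi
    have h1 : (H i).relIndex Δ ≠ 0 := ho2.index_ne_zero
    have h2 : (H i).relIndex G ≠ 0 := AddSubgroup.relIndex_ne_zero_trans h1 hΔ
    have h3 : i ∈ s₁ := Finset.mem_filter.2 ⟨his, h2⟩
    refine h0 i his ((hC i his z hzC 0).2 ?_)
    rw [zero_sub]
    exact (H i).neg_mem (hΔH i h3 hz)

/-- the smallest group -/
theorem exists_min {A : Type} [AddCommGroup A] (G Δ : AddSubgroup A) (F : Set (AddSubgroup A))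
    (hne : F.Nonempty) (hF : ∀ H ∈ F, ∀ H' ∈ F, ∃ H'' ∈ F, H'' ≤ H ∧ H'' ≤ H')
    (hG : ∀ H ∈ F, H ≤ G) (hΔ : ∀ H ∈ F, Δ ≤ H) (h : Δ.relIndex G ≠ 0) :
    ∃ H ∈ F, ∀ H' ∈ F, H ≤ H' := by
  classical
  have hne' : (Δ.relIndex '' F).Nonempty := hne.image _
  obtain ⟨H, hH, hHm⟩ := Nat.sInf_mem hne'
  refine ⟨H, hH, fun H' hH' => ?_⟩
  obtain ⟨K, hK, h1, h2⟩ := hF H hH H' hH'
  have h3 : Δ.relIndex K * K.relIndex H = Δ.relIndex H :=
    AddSubgroup.relIndex_mul_relIndex Δ K H (hΔ K hK) h1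
  have h4 : Δ.relIndex H ≠ 0 := fun h5 => h (AddSubgroup.relIndex_eq_zero_of_le_right (hG H hH) h5)
  have h5 : Δ.relIndex H ≤ Δ.relIndex K := by
    rw [hHm]
    exact Nat.sInf_le ⟨K, hK, rfl⟩
  have h6 : K.relIndex H = 1 := by
    have h7 : K.relIndex H ≠ 0 := fun h8 => h4 (by rw [← h3, h8, mul_zero])
    have h8 : Δ.relIndex K ≠ 0 := fun h9 => h4 (by rw [← h3, h9, zero_mul])
    by_contra h9
    have h10 : 2 ≤ K.relIndex H := by omega
    have h11 : Δ.relIndex K * 2 ≤ Δ.relIndex K * K.relIndex H := Nat.mul_le_mul_left _ h10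
    rw [h3] at h11
    omega
  rw [AddSubgroup.relIndex_eq_one] at h6
  exact h6.trans h2

theorem thm_ISG (hDIC : St_DIC) : St_ISG := by
  intro R _ _ U hU κ ι _ _ b c hc
  classical
  obtain ⟨θ, s, h1, h2, h3⟩ := hc
  obtain ⟨Δ, hΔ1, hΔ2, hΔ3⟩ := neu (fg (R := R) U θ) s (fun ψ => fg U ψ)
    (fun ψ => {x | Sat ψ U (Sum.elim b (c + x))}) (by
      intro ψ _ x hx y
      show Sat ψ U (Sum.elim b (c + y)) ↔ y - x ∈ fg U ψ
      rw [sat_sub' hx, add_sub_add_left_eq_sub])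
    (by
      intro ψ hψ h
      have h4 : Sat ψ U (Sum.elim b (c + 0)) := h
      rw [add_zero] at h4
      exact h2 ψ hψ h4)
  have hΔ : ∀ ψ : PP R (κ ⊕ ι), Sat ψ U (Sum.elim b c) → Δ ≤ fg U ψ := by
    intro ψ hψ
    refine hΔ3 _ fun x hx hx' => ?_
    have h4 : pp (R := R) U (Sum.elim b (c + x)) = pp U (Sum.elim b c) := by
      refine h3 _ ?_ fun ψ' hψ' h => hx' ψ' hψ' h
      rw [sat_sub' h1, add_sub_cancel_left]
      exact hx
    have h5 : ψ ∈ pp (R := R) U (Sum.elim b (c + x)) := by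
      rw [h4]
      exact hψ
    have h6 : Sat ψ U (Sum.elim b (c + x)) := h5
    rw [sat_sub' hψ, add_sub_cancel_left] at h6
    exact h6
  -- conjunctions
  have hand : ∀ φ ψ : PP R (κ ⊕ ι), ∃ χ : PP R (κ ⊕ ι), ∀ (M : Type) [AddCommGroup M] [Module R M]
      (x : κ ⊕ ι → M), (Sat φ M x ∧ Sat ψ M x) ↔ Sat χ M x := fun φ ψ =>
    (isPP_sat φ).and (isPP_sat ψ)
  obtain ⟨H₀, ⟨ψ₀, ⟨hψ₀, hψ₀G⟩, rfl⟩, hmin⟩ := exists_min (fg (R := R) U θ) Δ
    ((fun ψ => fg (R := R) U ψ) '' {ψ | Sat ψ U (Sum.elim b c) ∧ fg U ψ ≤ fg (R := R) U θ})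
    ⟨_, θ, ⟨h1, le_refl _⟩, rfl⟩ (by
      rintro _ ⟨φ, ⟨hφ, hφ'⟩, rfl⟩ _ ⟨ψ, ⟨hψ, hψ'⟩, rfl⟩
      obtain ⟨χ, hχ⟩ := hand φ ψ
      have h4 : ∀ x ∈ fg (R := R) U χ, x ∈ fg U φ ∧ x ∈ fg U ψ := fun x hx => (hχ U _).2 hx
      exact ⟨_, ⟨χ, ⟨(hχ U _).1 ⟨hφ, hψ⟩, fun x hx => hφ' (h4 x hx).1⟩, rfl⟩,
        fun x hx => (h4 x hx).1, fun x hx => (h4 x hx).2⟩)
    (by
      rintro _ ⟨φ, ⟨hφ, hφ'⟩, rfl⟩
      exact hφ')
    (by
      rintro _ ⟨φ, ⟨hφ, hφ'⟩, rfl⟩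
      exact hΔ φ hφ)
    hΔ2
  -- the formula `ψ₀` generates
  refine ⟨ψ₀, hψ₀, fun ψ hψ => ?_⟩
  have hle : fg (R := R) U ψ₀ ≤ fg U ψ := by
    obtain ⟨χ, hχ⟩ := hand θ ψ
    have h4 := hmin (fg U χ) ⟨χ, ⟨(hχ U _).1 ⟨h1, hψ⟩, fun x hx => ((hχ U _).2 hx).1⟩, rfl⟩
    exact fun x hx => ((hχ U _).2 (h4 hx)).2
  obtain ⟨χ, hχ⟩ := hand ψ₀ ψ
  have _ : Countable ι := Finite.to_countable
  obtain ⟨ρ, hρ⟩ := (isPP_sat χ).ex
  refine ⟨{ρ}, ?_, ?_⟩
  · rw [Finset.coe_singleton, singleton_subset_iff]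
    exact (hρ U _).1 ⟨c, (hχ U _).1 ⟨hψ₀, hψ⟩⟩
  · intro M _ _ hM x y hx hy
    refine (hDIC R U (κ ⊕ ι)).2 {ren Sum.inl ρ, ψ₀} ψ ?_ M hM (Sum.elim x y) ?_
    · intro z hz
      have hz1 := hz (ren Sum.inl ρ) (by simp)
      have hz2 := hz ψ₀ (by simp)
      rw [sat_ren] at hz1
      obtain ⟨y', hy'⟩ := (hρ U _).2 hz1
      obtain ⟨hy1, hy2⟩ := (hχ U _).2 hy'
      have hz3 : z = Sum.elim (z ∘ Sum.inl) (z ∘ Sum.inr) := by
        funext i
        rcases i with i | i <;> rfl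
      rw [hz3] at hz2 ⊢
      rw [sat_sub' hy2]
      exact hle ((sat_sub' hy1).1 hz2)
    · intro φ hφ
      rcases Finset.mem_insert.1 hφ with rfl | hφ
      · rw [sat_ren]
        have h4 : (Sum.elim x y : κ ⊕ ι → M) ∘ Sum.inl = x := by
          funext i
          rfl
        rw [h4]
        exact hx ρ (Finset.mem_singleton_self ρ)
      · rw [Finset.mem_singleton.1 hφ]
        exact hy

end Pool.Agent.VMF
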