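import Pool.Agent.VMF.HPP
import Pool.Agent.VMF.StT

/-!
# VMF: saturation, homogeneity, Tarski-Vaught in the form of StT (helper23)
-/

set_option autoImplicit false
set_option linter.unusedSectionVars false
set_option linter.unusedVariables false

namespace Pool.Agent.VMF

open Set Pool.Agent.MVC

theorem thm_SATP : St_SATP := fun R _ _ U hU κ ι _ _ b P N h => sat_pp hU b P N h

theorem thm_HOMP : St_HOMP := fun R _ _ U hU ι _ a b h => thm_HPP hU h

theorem thm_TVP : St_TVP := by
  intro R _ _ U hU M h
  refine el_of_tv hU M fun n a φ t y h1 h2 => ?_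
  obtain ⟨z, hz, h3, h4⟩ := h n (fun i => (a i : U)) φ t (fun i => (a i).2) ⟨fun _ => y, h1, h2⟩
  have h5 : z = fun _ => z 0 := by
    funext i
    have hi : i = 0 := Subsingleton.elim _ _
    rw [hi]
  rw [h5] at h3 h4
  exact ⟨z 0, hz, h3, h4⟩

end Pool.Agent.VMF
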