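import Pool.Agent.VMF.TLI
import Pool.Agent.VMF.SHT
import Pool.Agent.VMF.ISD
import Pool.Agent.VMF.ISG
import Pool.Agent.VMF.DIC
import Pool.Agent.VMF.CLA

/-!
# VMF, block T: all statements of StT.lean without hypotheses
-/

set_option autoImplicit false
set_option linter.unusedSectionVars false
set_option linter.unusedVariables false

namespace Pool.Agent.VMF

open Set Pool.Agent.MVC Pool.Agent.MVC.Ax

theorem isd_T : St_ISD := thm_ISD thm_SATP

theorem isg_T : St_ISG := thm_ISG thm_DIC

theorem tly_T : St_TLY := thm_TLY thm_HOMP thm_TVP isd_T isg_T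

theorem tlx_T : St_TLX := thm_TLX tly_T

theorem tli_T : St_TLI := thm_TLI tlx_T

theorem prm_T : St_PRM := thm_PRM tly_T

/-- the form of CLA.lean -/
theorem thm_TLQ (h : St_TLX) : St_TLQ := by
  intro R _ _ U hU ι _ P Q hQ hP hc
  exact tlq h R U hU ι P Q hQ hP hc

theorem tlq_T : St_TLQ := thm_TLQ tlx_T

end Pool.Agent.VMF
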