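import Pool.Agent.VMF.SHR
import Pool.Agent.MVC.St

/-!
# VMF: finite pieces of the coding modules over a connected chain are realised in `U` (2.1)
-/

set_option autoImplicit false
set_option linter.unusedSectionVars false
set_option linter.unusedVariables false

namespace Pool.Agent.VMF

open Set Pool.Agent.MVC Pool.Agent.MVC.Ax
open scoped Pointwise

section

variable {R : Type} [Ring R]

/-- finitely many cosets of subgroups of infinite index do not cover a group -/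
theorem cos_avoid {G : Type} [AddCommGroup G] {α : Type} (s : Finset α) (H : α → AddSubgroup G)
    (g : α → G) (h : ∀ i ∈ s, ¬ (H i).FiniteIndex) : ∃ y : G, ∀ i ∈ s, y - g i ∉ H i := by
  classical
  by_contra hn
  push Not at hn
  have h1 : ⋃ i ∈ s, g i +ᵥ (H i : Set G) = Set.univ := by
    rw [eq_univ_iff_forall]
    intro y
    obtain ⟨i, hi, hy⟩ := hn y
    refine mem_iUnion₂.2 ⟨i, hi, ?_⟩
    exact ⟨y - g i, hy, by simp⟩
  obtain ⟨k, hk, hf⟩ := AddSubgroup.exists_finiteIndex_of_leftCoset_cover h1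
  exact h k hk hf

/-- linear substitutions -/
theorem pp_subst {ι κ : Type} {M N : Type} [AddCommGroup M] [Module R M] [AddCommGroup N]
    [Module R N] {x : κ → M} {y : κ → N} (h : pp (R := R) M x = pp N y) (f : ι → (κ →₀ R)) :
    pp (R := R) M (fun i => Finsupp.linearCombination R x (f i)) =
      pp N (fun i => Finsupp.linearCombination R y (f i)) := by
  ext φ
  obtain ⟨φ', hφ⟩ := (isPP_sat φ).subst f
  have h1 : Sat φ' M x ↔ Sat φ' N y := by
    constructor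
    · intro h2
      have h3 : φ' ∈ pp (R := R) N y := h ▸ h2
      exact h3
    · intro h2
      have h3 : φ' ∈ pp (R := R) M x := h.symm ▸ h2
      exact h3
  exact (hφ M x).trans (h1.trans (hφ N y).symm)

variable {U : Md R}

/-- the limit of a chain of types -/
def GamR (U : Md R) {n : ℕ → ℕ} (p : ∀ k, Set (PP R (Fin (n k))))
    (u : ∀ k l, k ≤ l → Fin (n k) → Fin (n l)) (k : ℕ) : Set (PP R (Fin (n k))) :=
  {ρ | ∃ (l : ℕ) (h : k ≤ l), ∀ x : Fin (n l) → U, Re (p l) U x → Sat ρ U (x ∘ u k l h)}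

/-- the hypotheses of 2.1: a chain of types with modules and generators -/
structure Chn (U : Md R) where
  n : ℕ → ℕ
  p : ∀ k, Set (PP R (Fin (n k)))
  N : ℕ → Md R
  g : ∀ k, Fin (n k) → N k
  a : ∀ k, N k →ₗ[R] N (k + 1)
  u : ∀ k l, k ≤ l → Fin (n k) → Fin (n l)
  hu0 : ∀ k (h : k ≤ k) (i : Fin (n k)), u k k h i = i
  hu : ∀ k l m (h : k ≤ l) (h' : l ≤ m) (i : Fin (n k)), u l m h' (u k l h i) = u k m (h.trans h') i
  hag : ∀ k (i : Fin (n k)), a k (g k i) = g (k + 1) (u k (k + 1) (Nat.le_succ k) i)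
  hd : ∀ k l (h : k ≤ l) (ρ : PP R (Fin (n k))), Sat ρ (N l) (g l ∘ u k l h) ↔
    ∀ x : Fin (n l) → U, Re (p l) U x → Sat ρ U (x ∘ u k l h)

variable (C : Chn U)

theorem Chn.mono {k l l' : ℕ} (h : k ≤ l) (h' : l ≤ l') (ρ : PP R (Fin (C.n k)))
    (hs : Sat ρ (C.N l) (C.g l ∘ C.u k l h)) : Sat ρ (C.N l') (C.g l' ∘ C.u k l' (h.trans h')) := by
  induction l', h' using Nat.le_induction with
  | base => exact hs
  | succ m hm ih =>
    have h1 := ih.map (C.a m)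
    have h2 : (C.a m : C.N m → C.N (m + 1)) ∘ (C.g m ∘ C.u k m (h.trans hm)) =
        C.g (m + 1) ∘ C.u k (m + 1) ((h.trans hm).trans (Nat.le_succ m)) := by
      funext i
      show C.a m (C.g m (C.u k m _ i)) = C.g (m + 1) (C.u k (m + 1) _ i)
      rw [C.hag, C.hu]
    rw [h2] at h1
    exact h1

theorem Chn.mem_gam {k : ℕ} (ρ : PP R (Fin (C.n k))) : ρ ∈ GamR U C.p C.u k ↔
    ∃ (l : ℕ) (h : k ≤ l), Sat ρ (C.N l) (C.g l ∘ C.u k l h) := by
  constructor
  · rintro ⟨l, h, hl⟩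
    exact ⟨l, h, (C.hd k l h ρ).2 hl⟩
  · rintro ⟨l, h, hl⟩
    exact ⟨l, h, (C.hd k l h ρ).1 hl⟩

/-- finitely many formulas are decided at one stage -/
theorem Chn.stage {k : ℕ} (t : Finset (PP R (Fin (C.n k)))) : ∃ l₀, k ≤ l₀ ∧
    ∀ l (h : k ≤ l), l₀ ≤ l → ∀ ρ ∈ t, ρ ∈ GamR U C.p C.u k →
      Sat ρ (C.N l) (C.g l ∘ C.u k l h) := by
  classical
  induction t using Finset.induction_on with
  | empty => exact ⟨k, le_rfl, fun _ _ _ ρ hρ => absurd hρ (Finset.notMem_empty ρ)⟩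
  | insert ρ t hρ ih =>
    obtain ⟨l₀, hk, h0⟩ := ih
    by_cases hG : ρ ∈ GamR U C.p C.u k
    · obtain ⟨l₁, h1, hs⟩ := (C.mem_gam ρ).1 hG
      refine ⟨max l₀ l₁, hk.trans (le_max_left _ _), fun l h hl ρ' hρ' hG' => ?_⟩
      rcases Finset.mem_insert.1 hρ' with rfl | hρ''
      · exact C.mono h1 ((le_max_right _ _).trans hl) _ hs
      · exact h0 l h ((le_max_left _ _).trans hl) ρ' hρ'' hG'
    · refine ⟨l₀, hk, fun l h hl ρ' hρ' hG' => ?_⟩
      rcases Finset.mem_insert.1 hρ' with rfl | hρ''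
      · exact absurd hG' hG
      · exact h0 l h hl ρ' hρ'' hG'

/-- the limit is closed -/
theorem Chn.closed (hS : SATU U) {k : ℕ} (ρ : PP R (Fin (C.n k)))
    (h : ∀ x : Fin (C.n k) → U, Re (GamR U C.p C.u k) U x → Sat ρ U x) : ρ ∈ GamR U C.p C.u k := by
  classical
  by_contra hn
  obtain ⟨x, hx1, hx2⟩ := hS (Fin (C.n k)) (GamR U C.p C.u k) {ρ} (by
    intro s t hs ht
    obtain ⟨l, hk, hl⟩ := C.stage s
    have h1 : ¬ ∀ x : Fin (C.n l) → U, Re (C.p l) U x → Sat ρ U (x ∘ C.u k l hk) :=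
      fun h2 => hn ⟨l, hk, h2⟩
    push Not at h1
    obtain ⟨x, hx, hxρ⟩ := h1
    refine ⟨x ∘ C.u k l hk, fun φ hφ => ?_, fun ψ hψ => ?_⟩
    · exact (C.hd k l hk φ).1 (hl l hk le_rfl φ hφ (hs hφ)) x hx
    · have h2 : ψ = ρ := ht hψ
      rw [h2]
      exact hxρ)
  exact hx2 ρ rfl (h x hx1)

/-- finitely many formulas: a tuple in the limit which avoids given cosets -/
theorem Chn.avoid (hS : SATU U) {k : ℕ} (hC : Conn U (GamR U C.p C.u k)) {κ : Type}
    (t : Finset (PP R (κ ⊕ Fin (C.n k)))) (m : κ → U) (w : Fin (C.n k) → U) :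
    ∃ y : Fin (C.n k) → U, Re (GamR U C.p C.u k) U y ∧
      ∀ ψ ∈ t, zer ψ ∉ GamR U C.p C.u k → ¬ Sat ψ U (Sum.elim m (w + y)) := by
  classical
  have h1 : ∀ ψ : PP R (κ ⊕ Fin (C.n k)), zer ψ ∉ GamR U C.p C.u k →
      ¬ FIn U (GamR U C.p C.u k) {zer ψ} := fun ψ hψ hf => hψ (C.closed hS _ (hC _ hf))
  let g : PP R (κ ⊕ Fin (C.n k)) → (Fin (C.n k) → U) := fun ψ =>
    if h : ∃ z, Re (GamR U C.p C.u k) U z ∧ Sat ψ U (Sum.elim m (w + z)) then h.choose else 0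
  have hg : ∀ ψ y, Re (GamR U C.p C.u k) U y → Sat ψ U (Sum.elim m (w + y)) →
      Re (GamR U C.p C.u k) U (g ψ) ∧ Sat (zer ψ) U (y - g ψ) := by
    intro ψ y hy hs
    have h : ∃ z, Re (GamR U C.p C.u k) U z ∧ Sat ψ U (Sum.elim m (w + z)) := ⟨y, hy, hs⟩
    have h2 : g ψ = h.choose := dif_pos h
    rw [h2]
    refine ⟨h.choose_spec.1, ?_⟩
    rw [sat_zer]
    have h3 := hs.sub h.choose_spec.2
    have h4 : (Sum.elim m (w + y) - Sum.elim m (w + h.choose) : κ ⊕ Fin (C.n k) → U) =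
        Sum.elim (0 : κ → U) (y - h.choose) := by
      funext i
      cases i <;> simp
    rwa [h4] at h3
  obtain ⟨y, hy⟩ := cos_avoid (G := grp U (GamR U C.p C.u k))
    (t.filter fun ψ => zer ψ ∉ GamR U C.p C.u k)
    (fun ψ => (grp U ({zer ψ} : Set (PP R (Fin (C.n k))))).addSubgroupOf
      (grp U (GamR U C.p C.u k)))
    (fun ψ => if h : g ψ ∈ grp U (GamR U C.p C.u k) then ⟨g ψ, h⟩ else 0) (by
      intro ψ hψ hf
      exact h1 ψ (Finset.mem_filter.1 hψ).2 hf.index_ne_zero)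
  refine ⟨y, y.2, fun ψ hψ hz hs => hy ψ (Finset.mem_filter.2 ⟨hψ, hz⟩) ?_⟩
  obtain ⟨h2, h3⟩ := hg ψ y y.2 hs
  have h4 : g ψ ∈ grp U (GamR U C.p C.u k) := h2
  rw [dif_pos h4, AddSubgroup.mem_addSubgroupOf]
  intro φ hφ
  rw [mem_singleton_iff] at hφ
  subst hφ
  exact h3

/-- The main step: `m` in `M`, and the generators of the stage `k` -/
theorem Chn.real_core (hS : SATU U) {k : ℕ} (hC : Conn U (GamR U C.p C.u k)) {κ : Type} [Finite κ]
    {M : Md R} (e : M →ₗ[R] U)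
    (he : ∀ (ι : Type) [Finite ι] (φ : PP R ι) (x : ι → M), Sat φ U (e ∘ x) ↔ Sat φ M x)
    (m : κ → M) (w : ℕ → Fin (C.n k) → M) (P : Set (PP R (κ ⊕ Fin (C.n k))))
    (hP : ∀ φ : PP R (κ ⊕ Fin (C.n k)), φ ∈ P ↔ ∃ j, Sat φ M (Sum.elim m (w j)) ∧
      Sat (zer φ) (C.N (k + j)) (C.g (k + j) ∘ C.u k (k + j) (Nat.le_add_right k j)))
    (hP' : ∀ φ : PP R (κ ⊕ Fin (C.n k)), ∀ j j', j ≤ j' → Sat φ M (Sum.elim m (w j)) →
      Sat (zer φ) (C.N (k + j)) (C.g (k + j) ∘ C.u k (k + j) (Nat.le_add_right k j)) →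
      Sat φ M (Sum.elim m (w j')) ∧
      Sat (zer φ) (C.N (k + j')) (C.g (k + j') ∘ C.u k (k + j') (Nat.le_add_right k j'))) :
    ∃ x : κ ⊕ Fin (C.n k) → U, pp (R := R) U x = P := by
  classical
  obtain ⟨x, hx1, hx2⟩ := hS (κ ⊕ Fin (C.n k)) P Pᶜ (by
    intro s t hs ht
    have h1 : ∃ j₀, ∀ j, j₀ ≤ j → ∀ φ ∈ s, Sat φ M (Sum.elim m (w j)) ∧
        Sat (zer φ) (C.N (k + j)) (C.g (k + j) ∘ C.u k (k + j) (Nat.le_add_right k j)) := by
      choose! j₀ hj₀ using fun φ (hφ : φ ∈ s) => (hP φ).1 (hs hφ)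
      exact ⟨s.sup j₀, fun j hj φ hφ => hP' φ (j₀ φ) j ((Finset.le_sup hφ).trans hj)
        (hj₀ φ hφ).1 (hj₀ φ hφ).2⟩
    obtain ⟨j₁, hj₁⟩ := h1
    obtain ⟨l₂, hk, hl₂⟩ := C.stage (t.image zer)
    obtain ⟨j, hj1, hj2⟩ : ∃ j, j₁ ≤ j ∧ l₂ ≤ k + j :=
      ⟨max j₁ l₂, le_max_left _ _, (le_max_right _ _).trans (Nat.le_add_left _ _)⟩
    obtain ⟨y, hy1, hy2⟩ := C.avoid hS hC t (e ∘ m) (e ∘ w j)
    have hsp : (Sum.elim (e ∘ m) (e ∘ w j) : κ ⊕ Fin (C.n k) → U) = e ∘ Sum.elim m (w j) := by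
      funext i
      cases i <;> rfl
    refine ⟨Sum.elim (e ∘ m) (e ∘ w j + y), fun φ hφ => ?_, fun ψ hψ hsat => ?_⟩
    · obtain ⟨h2, h3⟩ := hj₁ j hj1 φ hφ
      have h4 : Sat φ U (Sum.elim (e ∘ m) (e ∘ w j)) := by
        rw [hsp, he]
        exact h2
      have h5 : Sat φ U (Sum.elim 0 y) := by
        rw [← sat_zer]
        exact hy1 _ ((C.mem_gam _).2 ⟨k + j, Nat.le_add_right k j, h3⟩)
      have h6 := h4.add h5
      have h7 : (Sum.elim (e ∘ m) (e ∘ w j) + Sum.elim (0 : κ → U) y : κ ⊕ Fin (C.n k) → U) =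
          Sum.elim (e ∘ m) (e ∘ w j + y) := by
        funext i
        cases i <;> simp
      rwa [h7] at h6
    · by_cases hz : zer ψ ∈ GamR U C.p C.u k
      · have h2 : Sat (zer ψ) (C.N (k + j))
            (C.g (k + j) ∘ C.u k (k + j) (Nat.le_add_right k j)) :=
          hl₂ (k + j) (Nat.le_add_right k j) hj2 _ (Finset.mem_image_of_mem _ hψ) hz
        have h3 : Sat ψ U (Sum.elim 0 y) := by
          rw [← sat_zer]
          exact hy1 _ hz
        have h4 := hsat.sub h3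
        have h5 : (Sum.elim (e ∘ m) (e ∘ w j + y) - Sum.elim (0 : κ → U) y :
            κ ⊕ Fin (C.n k) → U) = Sum.elim (e ∘ m) (e ∘ w j) := by
          funext i
          cases i <;> simp
        rw [h5, hsp, he] at h4
        exact ht hψ ((hP ψ).2 ⟨j, h4, h2⟩)
      · exact hy2 ψ hψ hz hsat)
  refine ⟨x, ?_⟩
  ext φ
  constructor
  · intro h
    by_contra hn
    exact hx2 φ hn h
  · intro h
    exact hx1 φ h

end

section

variable {R : Type} [Ring R] {D : Sys R}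

/-- the pair `(u, v)` as an element of the stage `k` -/
def stg (D : Sys R) (k : ℕ) (u : D.M) (v : D.Y k) : D.G k := ((u, v) : D.M × D.Y k)

theorem stg_t (σ : ℕ → ℕ) (k : ℕ) (u : D.M) (v : D.Y k) :
    D.t σ k (stg D k u v) = stg D (k + 1) (u + D.c k (σ k) v) (D.a k v) := rfl

theorem stg_inM (Λ : D.Lim) (σ : ℕ → ℕ) (u : D.M) :
    ∀ k : ℕ, Λ.of σ k (stg D k u 0) = Λ.inM σ u
  | 0 => rfl
  | k + 1 => by
    rw [← stg_inM Λ σ u k, ← (Λ.isColim σ).comp k, stg_t, map_zero, map_zero, add_zero]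

theorem stg_add (k : ℕ) (u : D.M) (v : D.Y k) : stg D k u v = stg D k u 0 + stg D k 0 v := by
  show ((u, v) : D.M × D.Y k) = (u + 0, 0 + v)
  rw [add_zero, zero_add]

theorem inY_eq (Λ : D.Lim) (σ : ℕ → ℕ) (k : ℕ) (v : D.Y k) :
    Λ.inY σ k v = Λ.of σ k (stg D k 0 v) := rfl

theorem inY_step (Λ : D.Lim) (σ : ℕ → ℕ) (k : ℕ) (v : D.Y k) :
    Λ.inY σ k v = Λ.inM σ (D.c k (σ k) v) + Λ.inY σ (k + 1) (D.a k v) := by
  rw [← stg_inM Λ σ (D.c k (σ k) v) (k + 1), inY_eq, inY_eq, ← map_add, ← stg_add,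
    ← (Λ.isColim σ).comp k, stg_t, zero_add]

theorem itr_inl (σ : ℕ → ℕ) (k : ℕ) (u : D.M) : ∀ j : ℕ,
    itr (D.t σ) k j (stg D k u 0) = stg D (k + j) u 0
  | 0 => rfl
  | j + 1 => by
    show D.t σ (k + j) (itr (D.t σ) k j (stg D k u 0)) = _
    rw [itr_inl σ k u j, stg_t, map_zero, map_zero, add_zero]
    rfl

theorem itr_snd (σ : ℕ → ℕ) (k : ℕ) (u : D.M) (v : D.Y k) : ∀ j : ℕ,
    (itr (D.t σ) k j (stg D k u v)).2 = itr D.a k j v
  | 0 => rfl
  | j + 1 => by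
    show (D.t σ (k + j) (itr (D.t σ) k j (stg D k u v))).2 = D.a (k + j) (itr D.a k j v)
    rw [← itr_snd σ k u v j]
    rfl

end

section

variable {R : Type} [Ring R] {U : Md R} (C : Chn U)

theorem Chn.itr_g (k : ℕ) (i : Fin (C.n k)) : ∀ j : ℕ,
    itr C.a k j (C.g k i) = C.g (k + j) (C.u k (k + j) (Nat.le_add_right k j) i)
  | 0 => by
    show C.g k i = C.g k (C.u k k le_rfl i)
    rw [C.hu0]
  | j + 1 => by
    show C.a (k + j) (itr C.a k j (C.g k i)) = C.g (k + j + 1) (C.u k (k + j + 1) _ i)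
    rw [Chn.itr_g k i j, C.hag, C.hu]

/-- 2.1: finite pieces of the coding modules over a connected chain are realised in `U` -/
theorem Chn.real (hcos : St_COS) (hS : SATU U) (hC : ∀ k, Conn U (GamR U C.p C.u k))
    {M : Md R} (e : M →ₗ[R] U)
    (he : ∀ (ι : Type) [Finite ι] (φ : PP R ι) (x : ι → M), Sat φ U (e ∘ x) ↔ Sat φ M x)
    (c : ∀ k, ℕ → (C.N k →ₗ[R] M)) (c0 : ∀ k, c k 0 = 0)
    (Λ : (⟨M, C.N, C.a, c, c0⟩ : Sys R).Lim) (σ : ℕ → ℕ) (A : Type) [Finite A]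
    (f : A → M ⊕ (k : ℕ) × Fin (C.n k)) :
    ∃ x : A → U, pp (R := R) U x = pp (R := R) (Λ.L σ) (fun i =>
      Sum.elim (fun m => Λ.inM σ m) (fun p => Λ.inY σ p.1 (C.g p.1 p.2)) (f i)) := by
  classical
  let D : Sys R := ⟨M, C.N, C.a, c, c0⟩
  have := Fintype.ofFinite A
  -- the stage
  obtain ⟨k, hk⟩ : ∃ k : ℕ, ∀ i p, f i = Sum.inr p → p.1 ≤ k := by
    refine ⟨Finset.univ.sup fun i => Sum.elim (fun _ => 0) (fun p => p.1) (f i), ?_⟩
    intro i p hp
    have h1 := Finset.le_sup (f := fun i => Sum.elim (fun _ => 0) (fun p => p.1) (f i))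
      (Finset.mem_univ i)
    simp only [hp, Sum.elim_inr] at h1
    exact h1
  -- all elements in terms of the stage `k`
  have hst : ∀ j (h : j ≤ k) (i : Fin (C.n j)), ∃ w : M, Λ.inY σ j (C.g j i) =
      Λ.inM σ w + Λ.inY σ k (C.g k (C.u j k h i)) := by
    clear hk
    intro j h i
    induction k, h using Nat.le_induction with
    | base =>
      refine ⟨0, ?_⟩
      rw [C.hu0, map_zero, zero_add]
    | succ k hjk ih =>
      obtain ⟨w, hw⟩ := ih
      refine ⟨w + c k (σ k) (C.g k (C.u j k hjk i)), ?_⟩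
      rw [hw, inY_step Λ σ k]
      show _ + (Λ.inM σ (c k (σ k) (C.g k (C.u j k hjk i))) +
        Λ.inY σ (k + 1) (C.a k (C.g k (C.u j k hjk i)))) = _
      rw [C.hag, C.hu, map_add, add_assoc]
  -- the substitution
  have hsub : ∀ i : A, ∃ (m : M) (s : Option (Fin (C.n k))),
      Sum.elim (fun m => Λ.inM σ m) (fun p => Λ.inY σ p.1 (C.g p.1 p.2)) (f i) =
        Λ.inM σ m + Option.elim s 0 (fun i' => Λ.inY σ k (C.g k i')) := by
    intro i
    rcases hfi : f i with m | ⟨j, i'⟩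
    · exact ⟨m, none, by simp⟩
    · obtain ⟨w, hw⟩ := hst j (hk i ⟨j, i'⟩ hfi) i'
      exact ⟨w, some (C.u j k (hk i ⟨j, i'⟩ hfi) i'), by simpa using hw⟩
  choose m s hms using hsub
  -- satisfaction at the stages
  let z : A ⊕ Fin (C.n k) → D.G k := Sum.elim (fun i => stg D k (m i) 0)
    (fun i => stg D k 0 (C.g k i))
  have hz1 : (fun i => Λ.of σ k (z i)) =
      Sum.elim (fun i => Λ.inM σ (m i)) (fun i => Λ.inY σ k (C.g k i)) := by
    funext i
    rcases i with i | i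
    · exact stg_inM Λ σ (m i) k
    · rfl
  have hz2 : ∀ (φ : PP R (A ⊕ Fin (C.n k))) (j : ℕ),
      Sat φ (D.G (k + j)) (fun i => itr (D.t σ) k j (z i)) ↔
        Sat φ M (Sum.elim m (fun i => (itr (D.t σ) k j (stg D k 0 (C.g k i))).1)) ∧
        Sat (zer φ) (C.N (k + j)) (C.g (k + j) ∘ C.u k (k + j) (Nat.le_add_right k j)) := by
    intro φ j
    have h1 : Sat φ (D.G (k + j)) (fun i => itr (D.t σ) k j (z i)) ↔
        Sat φ M (fun i => (itr (D.t σ) k j (z i)).1) ∧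
        Sat φ (C.N (k + j)) (fun i => (itr (D.t σ) k j (z i)).2) :=
      sat_prod (M := M) (N := C.N (k + j)) (φ := φ)
        (x := fun i => (itr (D.t σ) k j (z i) : D.M × D.Y (k + j)))
    have h2 : (fun i => (itr (D.t σ) k j (z i)).1) =
        Sum.elim m (fun i => (itr (D.t σ) k j (stg D k 0 (C.g k i))).1) := by
      funext i
      rcases i with i | i
      · show (itr (D.t σ) k j (stg D k (m i) 0)).1 = m i
        rw [itr_inl]
        rfl
      · rfl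
    have h3 : (fun i => (itr (D.t σ) k j (z i)).2) =
        Sum.elim (0 : A → C.N (k + j))
          (C.g (k + j) ∘ C.u k (k + j) (Nat.le_add_right k j)) := by
      funext i
      rcases i with i | i
      · show (itr (D.t σ) k j (stg D k (m i) 0)).2 = 0
        rw [itr_inl]
        rfl
      · show (itr (D.t σ) k j (stg D k 0 (C.g k i))).2 = _
        rw [itr_snd]
        exact C.itr_g k i j
    rw [h1, h2, h3, sat_zer]
  -- the main step
  obtain ⟨x, hx⟩ := C.real_core hS (hC k) e he m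
    (fun j i => (itr (D.t σ) k j (stg D k 0 (C.g k i))).1)
    (pp (R := R) (Λ.L σ) (Sum.elim (fun i => Λ.inM σ (m i)) (fun i => Λ.inY σ k (C.g k i))))
    (by
      intro φ
      rw [← hz1]
      refine ((hcos R D.G (D.t σ) (Λ.L σ) (Λ.of σ) (Λ.isColim σ)).1
        (A ⊕ Fin (C.n k)) φ k z).trans ?_
      exact exists_congr fun j => hz2 φ j)
    (by
      intro φ j j' hj h1 h2
      rw [← hz2]
      induction j', hj using Nat.le_induction with
      | base => exact (hz2 φ j).2 ⟨h1, h2⟩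
      | succ j' hj' ih => exact ih.map (D.t σ (k + j')))
  refine ⟨fun i => Finsupp.linearCombination R x (Finsupp.single (Sum.inl i) 1 +
    Option.elim (s i) 0 (fun i' => Finsupp.single (Sum.inr i') 1)), ?_⟩
  have h1 := pp_subst hx (fun i : A => (Finsupp.single (Sum.inl i) 1 +
    Option.elim (s i) 0 (fun i' => Finsupp.single (Sum.inr i') 1) :
      (A ⊕ Fin (C.n k)) →₀ R))
  rw [h1]
  congr 1
  funext i
  rw [hms i]
  cases s i with
  | none => simp
  | some i' => simp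

end

end Pool.Agent.VMF
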