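import Pool.Agent.VMF.StW
import Pool.Agent.VMF.SATN
import Pool.Agent.VMF.REAL

/-!
# VMF, WG4: generic elements of a coset of a type over a finite tuple

Suppose that for no `z` in the coset `z₀ + S` the fibre type of `z` over `c` has finite index in `S`.
Enumerate all tuples; choose step by step formulas `ψ_n`, satisfied by `(c, v n)`, and cosets
`w_n + (S ∧ Q_n)`, `Q_n` of finite index, which avoid those `ψ_i(c, .)` whose group has finite index in
`S`. Neumann's lemma and saturation give an element of `z₀ + S` which satisfies no `ψ_n(c, .)`.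
-/

set_option autoImplicit false
set_option linter.unusedSectionVars false
set_option linter.unusedVariables false

namespace Pool.Agent.VMF

open Set Pool.Agent.MVC Pool.Agent.MVC.Ax

section

variable {R : Type} [Ring R] {ι κ : Type} {U : Md R}

/-- the solutions of a formula form a coset -/
private theorem sat_sub_iff (ψ : PP R (κ ⊕ ι)) (c : κ → U) (x w : ι → U)
    (hw : Sat ψ U (Sum.elim c w)) :
    Sat ψ U (Sum.elim c x) ↔ Sat (zer ψ) U (x - w) := by
  rw [sat_zer]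
  constructor
  · intro hx
    have h1 := hx.sub hw
    rw [← elim_sub, sub_self] at h1
    exact h1
  · intro hx
    have h1 := hw.add hx
    rw [← elim_add, add_zero, add_sub_cancel] at h1
    exact h1

/-- the states of the construction -/
private structure St4 (U : Md R) (c : κ → U) (S : Set (PP R ι)) (z₀ : ι → U) where
  t : Finset (PP R (κ ⊕ ι))
  w : ι → U
  Q : Finset (PP R ι)
  hw : Re S U (w - z₀)
  hQ : FIn U S ↑Q
  ht : ∀ ψ ∈ t, ¬ FIn U S {zer ψ} ∨ ∀ x : ι → U, Re S U (x - w) → (∀ φ ∈ Q, Sat φ U (x - w)) →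
    ¬ Sat ψ U (Sum.elim c x)

private theorem fin_and {S : Set (PP R ι)} {T T' : Set (PP R ι)} (h : FIn U S T)
    (h' : FIn U S T') : FIn U S (T ∪ T') := by
  refine h.trans' (FIn.of_ge h' ?_)
  rw [grp_union]
  exact inf_le_left

private theorem step4 [DecidableEq (PP R (κ ⊕ ι))] [DecidableEq (PP R ι)] {c : κ → U}
    {S : Set (PP R ι)} {z₀ : ι → U}
    (hcon : ∀ z : ι → U, Re S U (z - z₀) → ¬ FIn U S (fib (R := R) U c z))
    (s : St4 U c S z₀) (v : ι → U) :
    ∃ s' : St4 U c S z₀, s.t ⊆ s'.t ∧ (Re S U (v - z₀) → ∃ ψ ∈ s'.t, Sat ψ U (Sum.elim c v)) := by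
  by_cases hv : Re S U (v - z₀)
  swap
  · exact ⟨s, Finset.Subset.refl _, fun h => absurd h hv⟩
  by_cases hA : ∃ ψ : PP R (κ ⊕ ι), Sat ψ U (Sum.elim c v) ∧ ¬ FIn U S {zer ψ}
  · obtain ⟨ψ, h1, h2⟩ := hA
    refine ⟨⟨insert ψ s.t, s.w, s.Q, s.hw, s.hQ, ?_⟩, Finset.subset_insert _ _,
      fun _ => ⟨ψ, Finset.mem_insert_self _ _, h1⟩⟩
    intro ψ' hψ'
    rcases Finset.mem_insert.1 hψ' with rfl | h
    · exact Or.inl h2
    · exact s.ht ψ' h
  · push Not at hA
    have hB : ∃ ψ : PP R (κ ⊕ ι), Sat ψ U (Sum.elim c v) ∧ ∃ x : ι → U, Re S U x ∧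
        (∀ φ ∈ s.Q, Sat φ U x) ∧ ¬ Sat (zer ψ) U x := by
      by_contra h
      push Not at h
      refine hcon v hv ?_
      refine FIn.of_le (s.hQ.union) ?_
      intro x hx
      rw [grp_union] at hx
      rintro _ ⟨ψ, hψ, rfl⟩
      exact h ψ hψ x hx.1 (fun φ hφ => hx.2 φ hφ)
    obtain ⟨ψ, h1, x, hx1, hx2, hx3⟩ := hB
    have hw' : ∃ w' : ι → U, Re S U (w' - s.w) ∧ (∀ φ ∈ s.Q, Sat φ U (w' - s.w)) ∧
        ¬ Sat ψ U (Sum.elim c w') := by
      by_cases h : Sat ψ U (Sum.elim c s.w)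
      · refine ⟨s.w + x, ?_, ?_, ?_⟩
        · rw [add_sub_cancel_left]
          exact hx1
        · rw [add_sub_cancel_left]
          exact hx2
        · rw [sat_sub_iff ψ c _ _ h, add_sub_cancel_left]
          exact hx3
      · refine ⟨s.w, ?_, ?_, h⟩
        · rw [sub_self]
          exact Re.zero S
        · rw [sub_self]
          exact fun φ _ => Sat.zero φ
    obtain ⟨w', hw1, hw2, hw3⟩ := hw'
    refine ⟨⟨insert ψ s.t, w', insert (zer ψ) s.Q, ?_, ?_, ?_⟩, Finset.subset_insert _ _,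
      fun _ => ⟨ψ, Finset.mem_insert_self _ _, h1⟩⟩
    · have h2 := hw1.add s.hw
      rwa [sub_add_sub_cancel] at h2
    · rw [Finset.coe_insert, insert_eq]
      exact fin_and (hA ψ h1) s.hQ
    · intro ψ' hψ'
      rcases Finset.mem_insert.1 hψ' with rfl | h
      · right
        intro y hy hy' hsat
        have h2 := hy' (zer ψ') (Finset.mem_insert_self _ _)
        have h3 := (sat_sub_iff ψ' c w' y hsat).2 (by
          have h4 := h2.neg
          rwa [neg_sub] at h4)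
        exact hw3 h3
      · rcases s.ht ψ' h with h2 | h2
        · exact Or.inl h2
        · right
          intro y hy hy'
          refine h2 y ?_ ?_
          · have h3 := hy.add hw1
            rwa [sub_add_sub_cancel] at h3
          · intro φ hφ
            have h3 := (hy' φ (Finset.mem_insert_of_mem hφ)).add (hw2 φ hφ)
            rwa [sub_add_sub_cancel] at h3

/-- a state is satisfiable -/
private theorem sat4 {c : κ → U} {S : Set (PP R ι)} {z₀ : ι → U} (s : St4 U c S z₀) :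
    ∃ x : ι → U, Re S U (x - z₀) ∧ ∀ ψ ∈ s.t, ¬ Sat ψ U (Sum.elim c x) := by
  classical
  -- the formulas of infinite index
  let G : AddSubgroup (ι → U) := grp U S ⊓ grp U (s.Q : Set (PP R ι))
  have hG : G.relIndex (grp U S) ≠ 0 := by
    have h1 := s.hQ.union
    unfold FIn at h1
    rwa [grp_union] at h1
  let t₁ : Finset (PP R (κ ⊕ ι)) := s.t.filter fun ψ => ¬ FIn U S {zer ψ}
  have hg : ∀ ψ : PP R (κ ⊕ ι), ∃ g : G, (∃ x : G, Sat ψ U (Sum.elim c (s.w + (x : ι → U)))) →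
      Sat ψ U (Sum.elim c (s.w + (g : ι → U))) := by
    intro ψ
    by_cases h : ∃ x : G, Sat ψ U (Sum.elim c (s.w + (x : ι → U)))
    · obtain ⟨x, hx⟩ := h
      exact ⟨x, fun _ => hx⟩
    · exact ⟨0, fun h' => absurd h' h⟩
  choose g hg using hg
  obtain ⟨y, hy⟩ := cos_avoid (G := G) t₁ (fun ψ => (grp U {zer ψ}).addSubgroupOf G) g (by
    intro ψ hψ hf
    have h1 := (Finset.mem_filter.1 hψ).2
    refine h1 ?_
    have h2 : (grp U {zer ψ}).relIndex G ≠ 0 := hf.index_ne_zero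
    have h3 : FIn U (S ∪ ↑s.Q) {zer ψ} := by
      unfold FIn
      rw [grp_union]
      exact h2
    refine FIn.of_le (s.hQ.trans' h3) ?_
    rw [grp_union]
    exact inf_le_right)
  have hyS : Re S U (y : ι → U) := y.2.1
  have hyQ : ∀ φ ∈ s.Q, Sat φ U (y : ι → U) := fun φ hφ => y.2.2 φ hφ
  refine ⟨s.w + (y : ι → U), ?_, ?_⟩
  · have h1 := hyS.add s.hw
    have h2 : (y : ι → U) + (s.w - z₀) = s.w + (y : ι → U) - z₀ := by abel
    rwa [h2] at h1
  · intro ψ hψ hsat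
    by_cases h : FIn U S {zer ψ}
    · rcases s.ht ψ hψ with h1 | h1
      · exact h1 h
      · refine h1 (s.w + (y : ι → U)) ?_ ?_ hsat
        · rw [add_sub_cancel_left]
          exact hyS
        · rw [add_sub_cancel_left]
          exact hyQ
    · have h1 : ψ ∈ t₁ := Finset.mem_filter.2 ⟨hψ, h⟩
      refine hy ψ h1 ?_
      rw [AddSubgroup.mem_addSubgroupOf]
      have h2 := (sat_sub_iff ψ c _ _ (hg ψ ⟨y, hsat⟩)).1 hsat
      rw [add_sub_add_left_eq_sub] at h2
      rintro _ rfl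
      exact h2

end

theorem thm_WG4 : St_WG4 := by
  classical
  intro R _ _ U hU κ ι _ _ c S z₀
  have _ := mon_ctbl hU
  by_contra hcon
  have hcon : ∀ z : ι → U, Re S U (z - z₀) → ¬ FIn U S (fib (R := R) U c z) :=
    fun z h1 h2 => hcon ⟨z, h1, h2⟩
  obtain ⟨v, hv⟩ := exists_surjective_nat (ι → U)
  have hstart : Nonempty (St4 U c S z₀) := by
    refine ⟨⟨∅, z₀, ∅, ?_, ?_, ?_⟩⟩
    · rw [sub_self]
      exact Re.zero S
    · unfold FIn
      have h1 : grp U ((∅ : Finset (PP R ι)) : Set (PP R ι)) = ⊤ := by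
        ext x
        simp [mem_grp, Re]
      rw [h1, AddSubgroup.relIndex_top_left]
      exact one_ne_zero
    · intro ψ hψ
      exact absurd hψ (Finset.notMem_empty ψ)
  choose nx hnx1 hnx2 using fun (s : St4 U c S z₀) (v : ι → U) => step4 hcon s v
  obtain ⟨s₀⟩ := hstart
  let f : ℕ → St4 U c S z₀ := fun n => Nat.rec s₀ (fun k s => nx s (v k)) n
  have hf : ∀ n, f (n + 1) = nx (f n) (v n) := fun n => rfl
  have hmono : ∀ i j, i ≤ j → (f i).t ⊆ (f j).t := by
    intro i j hij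
    induction hij with
    | refl => exact Finset.Subset.refl _
    | @step m _ ih =>
      refine ih.trans ?_
      rw [hf]
      exact hnx1 _ _
  let P : Set (PP R ((κ ⊕ ι) ⊕ ι)) := {ρ | ∀ x : ι → U, Re S U (x - z₀) →
    Sat ρ U (Sum.elim (Sum.elim c z₀) x)}
  let N : Set (PP R ((κ ⊕ ι) ⊕ ι)) := {ρ | ∃ n, ∃ ψ ∈ (f n).t,
    ρ = ren (Sum.elim (fun k => Sum.inl (Sum.inl k)) Sum.inr) ψ}
  have hren : ∀ (ψ : PP R (κ ⊕ ι)) (x : ι → U),
      Sat (ren (Sum.elim (fun k => Sum.inl (Sum.inl k)) Sum.inr : κ ⊕ ι → (κ ⊕ ι) ⊕ ι) ψ) U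
        (Sum.elim (Sum.elim c z₀) x) ↔ Sat ψ U (Sum.elim c x) := by
    intro ψ x
    rw [sat_ren]
    have h1 : Sum.elim (Sum.elim c z₀) x ∘
        (Sum.elim (fun k => Sum.inl (Sum.inl k)) Sum.inr : κ ⊕ ι → (κ ⊕ ι) ⊕ ι) =
        Sum.elim c x := by
      funext i
      cases i <;> rfl
    rw [h1]
  obtain ⟨x, hx1, hx2⟩ := sat_pp hU (Sum.elim c z₀) P N (by
    intro s t hs ht
    have h1 : ∃ n, ∀ ρ ∈ t, ∃ ψ ∈ (f n).t,
        ρ = ren (Sum.elim (fun k => Sum.inl (Sum.inl k)) Sum.inr) ψ := by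
      have h2 : ∀ ρ : PP R ((κ ⊕ ι) ⊕ ι), ∃ n, ρ ∈ t → ∃ ψ ∈ (f n).t,
          ρ = ren (Sum.elim (fun k => Sum.inl (Sum.inl k)) Sum.inr) ψ := by
        intro ρ
        by_cases h : ρ ∈ t
        · obtain ⟨n, hn⟩ := ht h
          exact ⟨n, fun _ => hn⟩
        · exact ⟨0, fun h' => absurd h' h⟩
      choose m hm using h2
      refine ⟨t.sup m, fun ρ hρ => ?_⟩
      obtain ⟨ψ, hψ, h3⟩ := hm ρ hρ
      exact ⟨ψ, hmono _ _ (Finset.le_sup hρ) hψ, h3⟩
    obtain ⟨n, hn⟩ := h1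
    obtain ⟨x, hx, hx'⟩ := sat4 (f n)
    refine ⟨x, fun φ hφ => hs hφ x hx, fun φ hφ h2 => ?_⟩
    obtain ⟨ψ, hψ, rfl⟩ := hn φ hφ
    exact hx' ψ hψ ((hren ψ x).1 h2))
  have hxS : Re S U (x - z₀) := by
    intro φ hφ
    -- the formula `φ(x - z₀)`
    obtain ⟨ρ, hρ⟩ := (isPP_sat φ).subst (fun i : ι =>
      (Finsupp.single (Sum.inr i : (κ ⊕ ι) ⊕ ι) (1 : R) - Finsupp.single (Sum.inl (Sum.inr i)) 1))
    have h1 : ∀ y : ι → U, Sat ρ U (Sum.elim (Sum.elim c z₀) y) ↔ Sat φ U (y - z₀) := by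
      intro y
      rw [← hρ]
      have h2 : (fun i : ι => (Finsupp.linearCombination R (Sum.elim (Sum.elim c z₀) y))
          (Finsupp.single (Sum.inr i : (κ ⊕ ι) ⊕ ι) (1 : R) -
            Finsupp.single (Sum.inl (Sum.inr i)) 1)) = y - z₀ := by
        funext i
        rw [map_sub, Finsupp.linearCombination_single, Finsupp.linearCombination_single]
        simp
      show Sat φ U (fun i : ι => (Finsupp.linearCombination R (Sum.elim (Sum.elim c z₀) y))
          (Finsupp.single (Sum.inr i : (κ ⊕ ι) ⊕ ι) (1 : R) -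
            Finsupp.single (Sum.inl (Sum.inr i)) 1)) ↔ _
      rw [h2]
    exact (h1 x).1 (hx1 ρ fun y hy => (h1 y).2 (hy φ hφ))
  obtain ⟨n, rfl⟩ := hv x
  obtain ⟨ψ, hψ, h1⟩ := hnx2 (f n) (v n) hxS
  rw [← hf] at hψ
  exact hx2 _ ⟨n + 1, ψ, hψ, rfl⟩ ((hren ψ _).2 h1)

end Pool.Agent.VMF
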