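import Pool.Agent.VMF.TBU
import Pool.Agent.VMF.QBU
import Pool.Agent.VMF.TLA
import Pool.Agent.VMF.WG4
import Pool.Agent.VMF.AllQ

/-!
# VMF, block C: `TB U` and `QB U` without hypotheses (helper58)
-/

set_option autoImplicit false
set_option linter.unusedSectionVars false
set_option linter.unusedVariables false

namespace Pool.Agent.VMF

open Set Pool.Agent.MVC Pool.Agent.MVC.Ax

theorem tb_U (R : Type) [Ring R] [Countable R] (U : Md R) (hU : MonM R U) : TB U :=
  thm_TBU prm_T thm_WG4 all_TF6 tli_T thm_ENU hU

theorem qb_U (R : Type) [Ring R] [Countable R] (U : Md R) (hU : MonM R U) : QB U :=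
  thm_QBU all_QIS hU

end Pool.Agent.VMF
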