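import Pool.Agent.VMF.GNT
import Pool.Agent.VMF.TBQ
import Pool.Agent.VMF.DCT
import Pool.Agent.VMF.DCH
import Pool.Agent.VMF.HNX
import Pool.Agent.VMF.NFC
import Pool.Agent.VMF.HPF
import Pool.Agent.VMF.FNT
import Pool.Agent.VMF.GSQ
import Pool.Agent.VMF.GFI
import Pool.Agent.VMF.MDZ
import Pool.Agent.VMF.FT1
import Pool.Agent.VMF.FT2
import Pool.Agent.VMF.PFF
import Pool.Agent.VMF.GIS
import Pool.Agent.VMF.GNP

/-!
# VMF, block C without hypotheses (helper58)
-/

set_option autoImplicit false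
set_option linter.unusedSectionVars false
set_option linter.unusedVariables false

namespace Pool.Agent.VMF

open Set Pool.Agent.MVC Pool.Agent.MVC.Ax

theorem all_DCT : St_DCT := thm_DCT thm_HNX (thm_NFC thm_HNX) (thm_DCH thm_REA)

theorem all_GNT : St_GNT :=
  thm_GNT (thm_DQT all_DCT) thm_HPF
    (thm_FNT thm_GSQ thm_GFI thm_MDZ (thm_FT1 thm_PFF) thm_FT2 (thm_GIS thm_PFF)) thm_GNP

end Pool.Agent.VMF
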