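import Pool.Agent.VMF.StW

/-!
# VMF, W2A: case 2a, one model
-/

set_option autoImplicit false
set_option linter.unusedSectionVars false
set_option linter.unusedVariables false

namespace Pool.Agent.VMF

open Set Pool.Agent.MVC Pool.Agent.MVC.Ax

theorem thm_W2A (hGV : St_WGV) (hPR : St_WPR) (hRV : St_WRV) (hRR : St_WRR) (hIM : St_WIM)
    (hPU : St_WPU) : St_W2A := by
  classical
  intro R _ _ U hU hA n V W hC hF
  have hre : ∀ (M : Submodule R U), El U M → ∀ (x : Fin n → M),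
      Re V M x ↔ Re V U (fun i => (x i : U)) :=
    fun M hM x => forall₂_congr fun φ _ => hPU R U hU M hM (Fin n) φ x
  choose M hM x hxV hxW using hC.2.1
  let H : AddSubgroup (Fin n → U) := grp U (one U V)
  let G : AddSubgroup (Fin n → U) := grp U V
  have hfin : Finite (G ⧸ H.addSubgroupOf G) := by
    have h2 : (H.addSubgroupOf G).index ≠ 0 := hA (Fin n) V
    by_contra h3
    rw [not_finite_iff_infinite] at h3
    exact h2 (AddSubgroup.index_eq_zero_iff_infinite.2 h3)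
  have hcl : ∀ a b : G, (QuotientAddGroup.mk a : G ⧸ H.addSubgroupOf G) = QuotientAddGroup.mk b →
      Re (one U V) U ((a : Fin n → U) - (b : Fin n → U)) := by
    intro a b hab
    rw [QuotientAddGroup.eq, AddSubgroup.mem_addSubgroupOf] at hab
    have h1 : Re (one U V) U (-(a : Fin n → U) + (b : Fin n → U)) := hab
    have h2 := h1.neg
    have h3 : -(-(a : Fin n → U) + (b : Fin n → U)) = (a : Fin n → U) - (b : Fin n → U) := by
      abel
    rwa [h3] at h2
  let Φ : Submodule R U → Set (G ⧸ H.addSubgroupOf G) := fun M =>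
    {q | ∃ (y : Fin n → M) (h : Re V U (fun i => (y i : U))),
      (QuotientAddGroup.mk (⟨fun i => (y i : U), h⟩ : G) : G ⧸ H.addSubgroupOf G) = q}
  obtain ⟨Φ', hΦ'⟩ := Finite.exists_infinite_fiber (fun k => Φ (M k))
  obtain ⟨m, ⟨e⟩⟩ := Finite.exists_equiv_fin Φ'
  choose z hz using fun j : Fin m => QuotientAddGroup.mk_surjective (e.symm j).1
  obtain ⟨g, hg1, hg2, hg3⟩ := hGV R U hU hA (Fin n) V m (fun j => (z j : Fin n → U))
    (fun j => (z j).2)
  obtain ⟨N, hN, hb⟩ := hPR R U hU (Fin m × Fin n) (fun p => g p.1 p.2)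
  refine ⟨Fin m × Fin n, inferInstance, fun p => g p.1 p.2, N, hN, hb, ?_⟩
  have hinf : ((fun k => Φ (M k)) ⁻¹' {Φ'}).Infinite := Set.infinite_coe_iff.1 hΦ'
  refine hinf.mono ?_
  intro k hk
  have hk' : Φ (M k) = Φ' := hk
  by_contra hcon
  have hNW : ∀ y : Fin n → N, Re V N y → Sat1 (W k) N y := by
    intro y hy
    by_contra h
    exact hcon ⟨y, hy, h⟩
  obtain ⟨ψ, hψ⟩ := hF k
  -- the classes of the g j are realised in M k
  have h1 : ∀ j, Rz U V (M k) (g j) := by
    intro j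
    have h2 : (e.symm j).1 ∈ Φ (M k) := by
      rw [hk']
      exact (e.symm j).2
    obtain ⟨y, hy, hy'⟩ := h2
    refine ⟨y, ?_⟩
    have h3 := hcl _ _ (hy'.trans (hz j).symm)
    have h4 := h3.sub (hg2 j)
    have h5 : (fun i => (y i : U)) - (z j : Fin n → U) - (g j - (z j : Fin n → U)) =
        (fun i => (y i : U)) - g j := by
      abel
    rw [← h5]
    exact h4
  obtain ⟨b'', hb''⟩ := hRV R U hU hA (Fin n) V m g hg1 hg3 (M k) (hM k) h1
  refine hxW k (hIM R U hU hA n V (W k) ψ N (M k) hN (hM k) hψ ?_ ?_ hNW (x k) (hxV k))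
  · intro y hy
    have hy1 : Re V U (fun i => (y i : U)) := (hre (M k) (hM k) y).1 hy
    have h2 : (QuotientAddGroup.mk (⟨fun i => (y i : U), hy1⟩ : G) : G ⧸ H.addSubgroupOf G) ∈
        Φ' := by
      rw [← hk']
      exact ⟨y, hy1, rfl⟩
    have h3 := hz (e ⟨_, h2⟩)
    rw [Equiv.symm_apply_apply] at h3
    have h4 := (hcl _ _ h3).add (hg2 (e ⟨_, h2⟩))
    refine ⟨fun i => ⟨g (e ⟨_, h2⟩) i, hb.1 (e ⟨_, h2⟩, i)⟩, ?_⟩
    have h5 : (z (e ⟨_, h2⟩) : Fin n → U) - (fun i => (y i : U)) +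
        (g (e ⟨_, h2⟩) - (z (e ⟨_, h2⟩) : Fin n → U)) =
        g (e ⟨_, h2⟩) - (fun i => (y i : U)) := by
      abel
    have h6 : Re (one U V) U (g (e ⟨_, h2⟩) - (fun i => (y i : U))) := by
      rw [← h5]
      exact h4
    exact h6
  · intro c hc
    exact hRR R U hU hA (Fin m × Fin n) (fun p => g p.1 p.2) N (M k) hN (hM k) hb b'' hb''
      (Fin n ⊕ Fin (W k).1) _ c hc

end Pool.Agent.VMF
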