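import Pool.Agent.VMF.StW

/-!
# VMF [W2B]: case 2b (helper56)
-/

set_option autoImplicit false
set_option linter.unusedSectionVars false
set_option linter.unusedVariables false

namespace Pool.Agent.VMF

open Set Pool.Agent.MVC Pool.Agent.MVC.Ax

section

variable {R : Type} [Ring R]

/-- a formula for the first `m` formulas of a sequence -/
private theorem W2B_conj {ι : Type} (ψ : ℕ → PP R ι) (m : ℕ) : ∃ ρ : PP R ι,
    ∀ (M : Type) [AddCommGroup M] [Module R M] (x : ι → M),
      Sat ρ M x ↔ ∀ j, j < m → Sat (ψ j) M x := by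
  classical
  obtain ⟨ρ, hρ⟩ := isPP_finset (R := R) ((Finset.range m).image ψ)
  refine ⟨ρ, fun M _ _ x => ?_⟩
  rw [← hρ M x]
  constructor
  · intro h j hj
    exact h _ (Finset.mem_image_of_mem ψ (Finset.mem_range.2 hj))
  · intro h φ hφ
    obtain ⟨j, hj, rfl⟩ := Finset.mem_image.1 hφ
    exact h j (Finset.mem_range.1 hj)

/-- the conjunction has finite index -/
private theorem W2B_fin (U : Type) [AddCommGroup U] [Module R U] {ι : Type} (V : Set (PP R ι))
    (ψ : ℕ → PP R ι) (h : ∀ j, FIn U V {ψ j}) (m : ℕ) (ρ : PP R ι)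
    (hρ : ∀ x : ι → U, Sat ρ U x ↔ ∀ j, j < m → Sat (ψ j) U x) : FIn U V {ρ} := by
  have h1 : grp U ({ρ} : Set (PP R ι)) = ⨅ j : Fin m, grp U ({ψ j} : Set (PP R ι)) := by
    ext x
    rw [AddSubgroup.mem_iInf]
    constructor
    · intro h2 j φ hφ
      rw [mem_singleton_iff] at hφ
      rw [hφ]
      exact (hρ x).1 (h2 ρ rfl) j j.2
    · intro h2 φ hφ
      rw [mem_singleton_iff] at hφ
      rw [hφ]
      exact (hρ x).2 fun j hj => h2 ⟨j, hj⟩ (ψ j) rfl
  unfold FIn
  rw [h1]
  exact AddSubgroup.relIndex_iInf_ne_zero fun j => h j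

end

theorem thm_W2B (hIN : St_WIN) (hIS : St_WIS) (hPU : St_WPU) : St_W2B := by
  classical
  intro R _ _ U hU κ _ b N hN hAt n V W hC hψ hinf
  let f : ℕ → ℕ := fun j => (hinf.natEmbedding _ j : ℕ)
  have hf : Function.Injective f := fun i j h => (hinf.natEmbedding _).injective (Subtype.ext h)
  have hfx : ∀ j, ∃ x : Fin n → N, Re V N x ∧ ¬ Sat1 (W (f j)) N x := fun j =>
    (hinf.natEmbedding _ j).2
  choose a haV haW using hfx
  choose ψ' hψ' using hψ
  let ψ : ℕ → PP R (Fin n) := fun j => ψ' (f j)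
  have hFi : ∀ j, Fi1 U V (W (f j)) (ψ j) := fun j => hψ' (f j)
  have hWV : ∀ j, ∀ x : Fin n → N, Sat1 (W (f j)) N x → Re V N x := fun j => hC.1 (f j) N hN
  have hre : ∀ x : Fin n → N, Re V N x ↔ Re V U (fun i => (x i : U)) := fun x =>
    forall_congr' fun φ => imp_congr_right fun _ => hPU R U hU N hN (Fin n) φ x
  -- the groups
  let G : ℕ → Set (Fin n → U) := fun j => {x | ∃ w : Fin n → N, Sat1 (W (f j)) N w ∧
    Re V U (x - fun i => (w i : U)) ∧ Sat (ψ j) U (x - fun i => (w i : U))}
  have hG1 : ∀ j (x x' : Fin n → U), x ∈ G j → Re V U (x' - x) → Sat (ψ j) U (x' - x) →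
      x' ∈ G j := by
    rintro j x x' ⟨w, hw, h1, h2⟩ h3 h4
    have e : x' - (fun i => (w i : U)) = (x' - x) + (x - fun i => (w i : U)) := by abel
    refine ⟨w, hw, ?_, ?_⟩
    · rw [e]
      exact h3.add h1
    · rw [e]
      exact h4.add h2
  have hG2 : ∀ j (x x' : Fin n → U), Re V U (x' - x) → Sat (ψ j) U (x' - x) →
      (x' ∈ G j ↔ x ∈ G j) := by
    intro j x x' h3 h4
    refine ⟨fun h => hG1 j x' x h ?_ ?_, fun h => hG1 j x x' h h3 h4⟩
    · rw [← neg_sub]
      exact h3.neg
    · rw [← neg_sub]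
      exact h4.neg
  have hG3 : ∀ j (γ : U ≃ₗ[R] U), (∀ i, γ (b i) = b i) → ∀ x : Fin n → U, x ∈ G j →
      (fun i => γ (x i)) ∈ G j := by
    rintro j γ hγ x ⟨w, hw, h1, h2⟩
    exact hIN R U hU κ b N hN hAt n V (W (f j)) (ψ j) (hWV j) (hFi j) γ hγ x w hw h1 h2
  have hG4 : ∀ j (γ : U ≃ₗ[R] U), (∀ i, γ (b i) = b i) → ∀ x : Fin n → U,
      ((fun i => γ (x i)) ∈ G j ↔ x ∈ G j) := by
    intro j γ hγ x
    refine ⟨fun h => ?_, hG3 j γ hγ x⟩
    have h1 := hG3 j γ.symm (fun i => by rw [LinearEquiv.symm_apply_eq]; exact (hγ i).symm) _ h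
    have h2 : (fun i => γ.symm (γ (x i))) = x := by
      funext i
      exact γ.symm_apply_apply (x i)
    rw [h2] at h1
    exact h1
  have hG5 : ∀ j (x : Fin n → N), ((fun i => (x i : U)) ∈ G j ↔ Sat1 (W (f j)) N x) := by
    intro j x
    constructor
    · rintro ⟨w, hw, h1, h2⟩
      have e : ((fun i => (x i : U)) - fun i => (w i : U)) =
          fun i => (((x - w) i : N) : U) := by
        funext i
        rfl
      rw [e] at h1 h2
      have h3 := (hFi j).2 N hN (x - w) ((hre _).2 h1) ((hPU R U hU N hN (Fin n) (ψ j) _).2 h2)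
      have h4 := h3.add hw
      rw [sub_add_cancel] at h4
      exact h4
    · intro h
      refine ⟨x, h, ?_, ?_⟩
      · rw [sub_self]
        exact Re.zero V
      · rw [sub_self]
        exact Sat.zero _
  choose ρ hρ using W2B_conj (R := R) ψ
  -- the points
  have key : ∀ S : Set ℕ, ∃ x : Fin n → U, ∀ j, (x ∈ G j ↔ j ∈ S) := by
    intro S
    let Z : ℕ → Set (Fin n → U) := fun m => {x | Re V U x ∧ ∀ j, j < m → (x ∈ G j ↔ j ∈ S)}
    obtain ⟨x, hx⟩ := hIS R U hU κ (Fin n) b V ρ Z
      (fun m => W2B_fin U V ψ (fun j => (hFi j).1) m (ρ m) fun x => hρ m U x)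
      (fun m => by
        let c : ℕ → Fin n → N := fun i => if h : ∃ j, f j = i ∧ j ∉ S then a h.choose else 0
        have hc1 : ∀ j ∈ S, c (f j) = 0 := by
          intro j hj
          have h1 : ¬ ∃ j', f j' = f j ∧ j' ∉ S := by
            rintro ⟨j', h2, h3⟩
            exact h3 (hf h2 ▸ hj)
          exact dif_neg h1
        have hc2 : ∀ j ∉ S, c (f j) = a j := by
          intro j hj
          have h1 : ∃ j', f j' = f j ∧ j' ∉ S := ⟨j, rfl, hj⟩
          have h2 : c (f j) = a h1.choose := dif_pos h1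
          rw [h2, hf h1.choose_spec.1]
        have hcV : ∀ i, Re V N (c i) := by
          intro i
          by_cases h : ∃ j, f j = i ∧ j ∉ S
          · have h2 : c i = a h.choose := dif_pos h
            rw [h2]
            exact haV h.choose
          · have h2 : c i = 0 := dif_neg h
            rw [h2]
            exact Re.zero V
        obtain ⟨y, hy1, hy2⟩ := hC.2.2 N hN ((Finset.range m).image f) c hcV
        refine ⟨fun i => (y i : U), (hre y).1 hy1, fun j hj => ?_⟩
        have h3 := hy2 (f j) (Finset.mem_image_of_mem f (Finset.mem_range.2 hj))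
        rw [hG5]
        by_cases hjS : j ∈ S
        · rw [hc1 j hjS, sub_zero] at h3
          exact ⟨fun _ => hjS, fun _ => h3⟩
        · rw [hc2 j hjS] at h3
          refine ⟨fun h5 => ?_, fun h5 => absurd h5 hjS⟩
          exfalso
          have h6 := h5.sub h3
          rw [sub_sub_cancel] at h6
          exact haW j h6)
      (fun m x hx => ⟨hx.1, fun j hj => hx.2 j (by omega)⟩)
      (fun m x hx => hx.1)
      (fun m x hx x' h1 h2 => by
        refine ⟨?_, fun j hj => ?_⟩
        · have h3 := h1.add hx.1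
          rw [sub_add_cancel] at h3
          exact h3
        · rw [hG2 j x x' h1 ((hρ m U _).1 h2 j hj)]
          exact hx.2 j hj)
      (fun m x hx γ hγ => ⟨hx.1.map γ.toLinearMap, fun j hj => by
        rw [hG4 j γ hγ x]
        exact hx.2 j hj⟩)
    exact ⟨x, fun j => (hx (j + 1)).2 j (Nat.lt_succ_self j)⟩
  choose X hX using key
  have hinj : Function.Injective X := by
    intro S S' h
    ext j
    rw [← hX S j, h, hX S' j]
  have : Countable U := @Pool.Agent.WOM.Mon.ctb (LMod R) U (modStr R U) hU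
  have h8 : Countable (Set ℕ) := hinj.countable
  obtain ⟨g, hg⟩ := h8.exists_injective_nat
  exact Function.cantor_injective g hg

end Pool.Agent.VMF
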