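import Pool.Agent.VMF.StW

/-!
# VMF, block W: assembly
-/

set_option autoImplicit false
set_option linter.unusedSectionVars false
set_option linter.unusedVariables false

namespace Pool.Agent.VMF

open Set Pool.Agent.MVC Pool.Agent.MVC.Ax

theorem thm_WAS (hRD : St_WRD) (hSB : St_WSB) (hC0 : St_WC0) (hC1 : St_WC1) (h2A : St_W2A)
    (h2B : St_W2B) : St_WAS := by
  intro R _ _ U hM hA hF
  refine hRD R U hM fun n V W hC => ?_
  obtain ⟨m, hm⟩ := (hC0 R U hM (Fin n) V W hC).bddAbove
  have hC' : Coi U V (fun i => W (i + (m + 1))) :=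
    hSB R U (Fin n) V W (fun i => i + (m + 1)) (fun a b h => Nat.add_right_cancel h) hC
  have hU : ∀ i, ∀ x : Fin n → U, Re V U x → Sat1 (W (i + (m + 1))) U x := by
    intro i x hx
    by_contra hn
    have h1 : i + (m + 1) ≤ m := hm ⟨x, hx, hn⟩
    omega
  by_cases h : {i | ¬ ∃ ψ : PP R (Fin n), Fi1 U V (W (i + (m + 1))) ψ}.Infinite
  · let f := h.natEmbedding
    refine hC1 R U hM hA hF (Fin n) V (fun i => W ((f i).1 + (m + 1)))
      (hSB R U (Fin n) V (fun i => W (i + (m + 1))) (fun i => (f i).1)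
        (fun a b h => f.injective (Subtype.ext h)) hC') (fun i => hU (f i).1) ?_
    intro i ψ hψ
    exact (f i).2 ⟨ψ, hψ⟩
  · have h' : {i | ∃ ψ : PP R (Fin n), Fi1 U V (W (i + (m + 1))) ψ}.Infinite := by
      have h1 : {i | ∃ ψ : PP R (Fin n), Fi1 U V (W (i + (m + 1))) ψ}ᶜ.Finite :=
        Set.not_infinite.1 h
      exact Set.infinite_of_finite_compl h1
    let f := h'.natEmbedding
    have hC2 : Coi U V (fun i => W ((f i).1 + (m + 1))) :=
      hSB R U (Fin n) V (fun i => W (i + (m + 1))) (fun i => (f i).1)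
        (fun a b h => f.injective (Subtype.ext h)) hC'
    obtain ⟨κ, _, b, N, hN, hb, hinf⟩ := h2A R U hM hA n V _ hC2 (fun i => (f i).2)
    exact h2B R U hM κ b N hN hb n V _ hC2 (fun i => (f i).2) hinf

end Pool.Agent.VMF
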