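import Pool.Agent.VMF.StW

/-!
# VMF [WC0]: case 0 (helper71)
-/

set_option autoImplicit false

namespace Pool.Agent.VMF

open Set Pool.Agent.MVC Pool.Agent.MVC.Ax

section

variable {R : Type} [Ring R]

/-- the formula of the level-zero part -/
private theorem WC0_rho [Countable R] (hSA : St_WSA) (U : Md R) (hU : MonM R U) {ι : Type}
    [Finite ι] (W : L1 R ι) (x : ι → U) (hx : ¬ Sat1 W U x) :
    ∃ ρ : PP R ι, ¬ Sat ρ U x ∧ ∀ y : ι → U, Sat1 W U y → Sat ρ U y := by
  classical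
  by_contra hcon
  apply hx
  obtain ⟨z, hz, -⟩ := hSA R U hU ι (Fin W.1) x W.2 ∅ (by
    intro s t hs ht
    have h1 : IsPP (R := R) (ι := ι ⊕ Fin W.1) (fun M _ _ z => ∀ φ ∈ s, Sat φ M z) := isPP_finset s
    obtain ⟨ρ, hρ⟩ := h1.ex
    have h2 : Sat ρ U x := by
      by_contra h3
      refine hcon ⟨ρ, h3, ?_⟩
      rintro y ⟨t, ht⟩
      exact (hρ U y).1 ⟨t, fun φ hφ => ht φ (hs hφ)⟩
    obtain ⟨z, hz⟩ := (hρ U x).2 h2
    refine ⟨z, hz, fun φ hφ => ?_⟩
    exact absurd (ht hφ) (notMem_empty φ))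
  exact ⟨z, hz⟩

private theorem WC0_top (U : Md R) : El U (⊤ : Submodule R U) := by
  intro s _ h
  obtain ⟨x, hx⟩ := h
  exact ⟨x, hx, trivial⟩

end

theorem thm_WC0 (hSA : St_WSA) (hPU : St_WPU) : St_WC0 := by
  classical
  intro R _ _ U hU ι _ V W hC
  by_contra hinf
  rw [Set.not_finite] at hinf
  -- the infinite sequence
  let f : ℕ → ℕ := fun j => (hinf.natEmbedding _ j : ℕ)
  have hf : Function.Injective f := fun i j h => (hinf.natEmbedding _).injective (Subtype.ext h)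
  have hfx : ∀ j, ∃ x : ι → U, Re V U x ∧ ¬ Sat1 (W (f j)) U x := fun j =>
    (hinf.natEmbedding _ j).2
  choose x hxV hxW using hfx
  have hr : ∀ j, ∃ ρ : PP R ι, ¬ Sat ρ U (x j) ∧ ∀ y : ι → U, Sat1 (W (f j)) U y → Sat ρ U y :=
    fun j => WC0_rho hSA U hU (W (f j)) (x j) (hxW j)
  choose ρ hρ1 hρ2 using hr
  -- transfer to the top model
  have htop := WC0_top U
  have hre : ∀ (κ : Type) [Finite κ] (S : Set (PP R κ)) (y : κ → (⊤ : Submodule R U)),
      Re S (⊤ : Submodule R U) y ↔ Re S U (fun i => (y i : U)) := fun κ _ S y =>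
    forall_congr' fun φ => imp_congr_right fun _ => hPU R U hU ⊤ htop κ φ y
  -- finite subsets
  have hfin : ∀ (S : Set ℕ) (A : Finset ℕ), ∃ y : ι → U, Re V U y ∧
      ∀ j ∈ A, (Sat (ρ j) U y ↔ j ∈ S) := by
    intro S A
    let c : ℕ → ι → (⊤ : Submodule R U) := fun i =>
      if h : ∃ j, f j = i ∧ j ∉ S then fun l => ⟨x h.choose l, trivial⟩ else 0
    have hc1 : ∀ j ∈ S, c (f j) = 0 := by
      intro j hj
      have h1 : ¬ ∃ j', f j' = f j ∧ j' ∉ S := by
        rintro ⟨j', h2, h3⟩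
        exact h3 (hf h2 ▸ hj)
      exact dif_neg h1
    have hc2 : ∀ j ∉ S, c (f j) = fun l => ⟨x j l, trivial⟩ := by
      intro j hj
      have h1 : ∃ j', f j' = f j ∧ j' ∉ S := ⟨j, rfl, hj⟩
      have h2 : c (f j) = fun l => ⟨x h1.choose l, trivial⟩ := dif_pos h1
      rw [h2, hf h1.choose_spec.1]
    have hcV : ∀ i, Re V (⊤ : Submodule R U) (c i) := by
      intro i
      by_cases h : ∃ j, f j = i ∧ j ∉ S
      · have h2 : c i = fun l => ⟨x h.choose l, trivial⟩ := dif_pos h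
        rw [h2, hre]
        exact hxV h.choose
      · have h2 : c i = 0 := dif_neg h
        rw [h2]
        exact Re.zero V
    obtain ⟨y, hy1, hy2⟩ := hC.2.2 ⊤ htop (A.image f) c hcV
    have hs1 : ∀ (k : ℕ) (w : ι → (⊤ : Submodule R U)), Sat1 (W k) (⊤ : Submodule R U) w →
        Sat1 (W k) U (fun i => (w i : U)) := by
      rintro k w ⟨t, ht⟩
      refine ⟨fun i => (t i : U), ?_⟩
      have h1 := (hre _ _ _).1 ht
      have h2 : (fun i => ((Sum.elim w t i : (⊤ : Submodule R U)) : U)) =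
          Sum.elim (fun i => (w i : U)) (fun i => (t i : U)) := by
        funext i
        rcases i with i | i <;> rfl
      rw [h2] at h1
      exact h1
    refine ⟨fun i => (y i : U), (hre _ _ _).1 hy1, fun j hj => ?_⟩
    have h3 := hy2 (f j) (Finset.mem_image_of_mem f hj)
    have h4 := hρ2 j _ (hs1 (f j) _ h3)
    by_cases hjS : j ∈ S
    · rw [hc1 j hjS, sub_zero] at h4
      exact ⟨fun _ => hjS, fun _ => h4⟩
    · rw [hc2 j hjS] at h4
      refine ⟨fun h5 => ?_, fun h5 => absurd h5 hjS⟩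
      exfalso
      have h6 := h5.sub h4
      have h7 : ((fun i => (y i : U)) - fun i =>
          (((y - fun l => (⟨x j l, trivial⟩ : (⊤ : Submodule R U))) i : (⊤ : Submodule R U)) : U))
          = x j := by
        funext i
        show (y i : U) - ((y i : U) - x j i) = x j i
        abel
      rw [h7] at h6
      exact hρ1 j h6
  -- saturation
  have hsat : ∀ S : Set ℕ, ∃ y : ι → U, ∀ j, (Sat (ρ j) U y ↔ j ∈ S) := by
    intro S
    obtain ⟨y, hy1, hy2⟩ := hSA R U hU (Fin 0) ι (fun i => i.elim0)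
      {φ | ∃ j ∈ S, φ = ren Sum.inr (ρ j)} {φ | ∃ j ∉ S, φ = ren Sum.inr (ρ j)} (by
      intro s t hs ht
      have hs' : ∀ φ : s, ∃ j ∈ S, φ.1 = ren Sum.inr (ρ j) := fun φ => hs φ.2
      have ht' : ∀ φ : t, ∃ j ∉ S, φ.1 = ren Sum.inr (ρ j) := fun φ => ht φ.2
      choose a ha1 ha2 using hs'
      choose b hb1 hb2 using ht'
      obtain ⟨y, -, hy⟩ := hfin S (Finset.univ.image a ∪ Finset.univ.image b)
      refine ⟨y, fun φ hφ => ?_, fun φ hφ => ?_⟩
      · have h1 := (hy (a ⟨φ, hφ⟩) (Finset.mem_union_left _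
          (Finset.mem_image_of_mem a (Finset.mem_univ _)))).2 (ha1 ⟨φ, hφ⟩)
        have h2 : Sat (ren Sum.inr (ρ (a ⟨φ, hφ⟩))) U
            (Sum.elim (fun i : Fin 0 => (i.elim0 : U)) y) := by
          rw [sat_ren, Sum.elim_comp_inr]
          exact h1
        rw [← ha2 ⟨φ, hφ⟩] at h2
        exact h2
      · have h1 := (hy (b ⟨φ, hφ⟩) (Finset.mem_union_right _
          (Finset.mem_image_of_mem b (Finset.mem_univ _)))).not.2 (hb1 ⟨φ, hφ⟩)
        have h2 : ¬ Sat (ren Sum.inr (ρ (b ⟨φ, hφ⟩))) U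
            (Sum.elim (fun i : Fin 0 => (i.elim0 : U)) y) := by
          rw [sat_ren, Sum.elim_comp_inr]
          exact h1
        rw [← hb2 ⟨φ, hφ⟩] at h2
        exact h2)
    refine ⟨y, fun j => ?_⟩
    by_cases hjS : j ∈ S
    · have h1 := hy1 _ ⟨j, hjS, rfl⟩
      rw [sat_ren, Sum.elim_comp_inr] at h1
      exact ⟨fun _ => hjS, fun _ => h1⟩
    · have h1 := hy2 _ ⟨j, hjS, rfl⟩
      rw [sat_ren, Sum.elim_comp_inr] at h1
      exact ⟨fun h => absurd h h1, fun h => absurd h hjS⟩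
  choose X hX using hsat
  have hinj : Function.Injective X := by
    intro S S' h
    ext j
    rw [← hX S j, h, hX S' j]
  have : Countable U := @Pool.Agent.WOM.Mon.ctb (LMod R) U (modStr R U) hU
  have h8 : Countable (Set ℕ) := hinj.countable
  obtain ⟨g, hg⟩ := h8.exists_injective_nat
  exact Function.cantor_injective g hg

end Pool.Agent.VMF
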