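import Pool.Agent.VMF.StW

/-!
# VMF [WC1]: case 1 (helper44)
-/

set_option autoImplicit false
set_option linter.unusedSectionVars false
set_option linter.unusedVariables false

namespace Pool.Agent.VMF

open Set Pool.Agent.MVC Pool.Agent.MVC.Ax

/-- equal types of all finite parts -/
private theorem WC1_pp {R : Type} [Ring R] {U : Md R} {I : Type} {c d : I → U}
    (h : ∀ F : Finset I, pp (R := R) U (fun i : F => d i) = pp (R := R) U (fun i : F => c i))
    {A : Type} [Finite A] (f : A → I) (φ : PP R A) : Sat φ U (d ∘ f) ↔ Sat φ U (c ∘ f) := by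
  classical
  have _ := Fintype.ofFinite A
  let F : Finset I := Finset.univ.image f
  let f' : A → F := fun a => ⟨f a, Finset.mem_image_of_mem f (Finset.mem_univ a)⟩
  have h1 : ren f' φ ∈ pp (R := R) U (fun i : F => d i) ↔
      ren f' φ ∈ pp (R := R) U (fun i : F => c i) := by rw [h F]
  have h2 : ∀ x : I → U, ren f' φ ∈ pp (R := R) U (fun i : F => x i) ↔ Sat φ U (x ∘ f) := by
    intro x
    exact sat_ren f' φ _
  rw [h2, h2] at h1
  exact h1

theorem thm_WC1 (hGS : St_WGS) (hTL : St_WTL) (hPU : St_WPU) (hIX : St_WIX) (hLB : St_WLB)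
    (hEK : St_WEK) : St_WC1 := by
  classical
  intro R _ _ U hU hA hF ι _ V W hC hVW hFi
  obtain ⟨y, z, hy, hz, hyz⟩ := hGS R U hU ι V W hVW
  let c : ∀ S : Set ℕ, (ι ⊕ ((i : S) × Fin (W i.1).1)) → U := fun S =>
    Sum.elim y (fun p => z p.1.1 p.2)
  choose M hM c' hc' hgen using fun S : Set ℕ => hTL R U hU (ι ⊕ ((i : S) × Fin (W i.1).1)) (c S)
  -- the tuple satisfies `W k` for `k ∈ S`
  have key1 : ∀ (S : Set ℕ) (k : ℕ), k ∈ S → Sat1 (W k) (M S) (fun i => c' S (Sum.inl i)) := by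
    intro S k hk
    refine ⟨fun j => c' S (Sum.inr ⟨⟨k, hk⟩, j⟩), fun φ hφ => ?_⟩
    rw [hPU R U hU (M S) (hM S)]
    let f : ι ⊕ Fin (W k).1 → ι ⊕ ((i : S) × Fin (W i.1).1) :=
      Sum.elim Sum.inl (fun j => Sum.inr ⟨⟨k, hk⟩, j⟩)
    have h1 := (WC1_pp (c := c S) (d := fun i => (c' S i : U)) (hc' S) f φ).2 (by
      have h2 := hz k φ hφ
      have h3 : c S ∘ f = Sum.elim y (z k) := by
        funext i
        rcases i with i | i <;> rfl
      rw [h3]
      exact h2)
    have h4 : (fun i => ((Sum.elim (fun i => c' S (Sum.inl i))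
        (fun j => c' S (Sum.inr ⟨⟨k, hk⟩, j⟩)) i : M S) : U)) =
        (fun i => (c' S i : U)) ∘ f := by
      funext i
      rcases i with i | i <;> rfl
    rw [h4]
    exact h1
  have key2 : ∀ (S : Set ℕ) (k : ℕ), k ∉ S → ¬ Sat1 (W k) (M S) (fun i => c' S (Sum.inl i)) := by
    rintro S k hk ⟨t, ht⟩
    have _ := Fintype.ofFinite ι
    obtain ⟨F, hF0, θ, hθ, hθ'⟩ := hgen S (W k).1 t (Finset.univ.image Sum.inl)
    have hinl : ∀ i : ι, (Sum.inl i : ι ⊕ ((i : S) × Fin (W i.1).1)) ∈ F := fun i =>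
      hF0 (Finset.mem_image_of_mem _ (Finset.mem_univ i))
    let A : Finset ℕ := F.biUnion (fun p => Sum.elim (fun _ => ∅) (fun q => {q.1.1}) p)
    have hAS : ∀ i ∈ A, i ∈ S := by
      intro i hi
      obtain ⟨p, -, hp⟩ := Finset.mem_biUnion.1 hi
      rcases p with p | p
      · exact absurd hp (Finset.notMem_empty i)
      · rw [Sum.elim_inr, Finset.mem_singleton] at hp
        rw [hp]
        exact p.1.2
    have hmA : ∀ q : (i : S) × Fin (W i.1).1, Sum.inr q ∈ F → q.1.1 ∈ A := by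
      intro q hq
      exact Finset.mem_biUnion.2 ⟨Sum.inr q, hq, Finset.mem_singleton_self _⟩
    have hkA : k ∉ A := fun h => hk (hAS k h)
    -- the part of a tuple of the long type
    let e : F → YZ ι W A := fun p => match p with
      | ⟨Sum.inl i, _⟩ => Sum.inl i
      | ⟨Sum.inr q, h⟩ => Sum.inr ⟨⟨q.1.1, hmA q h⟩, q.2⟩
    have he : (fun i : F => c S i) = yzt (R := R) A y z ∘ e := by
      funext p
      obtain ⟨p, hp⟩ := p
      rcases p with p | p <;> rfl
    obtain ⟨χ, hχ⟩ := (isPP_sat (R := R) θ).ex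
    have hIX' := hIX R U hU ι V W hC A k hkA (pp (R := R) U (yzt (R := R) A y z)) (hyz A) (by
      intro M' hM' v hv
      have h1 : Re (pp (R := R) U (fun i : F => (c' S i : U))) U
          ((fun i => (v i : U)) ∘ e) := by
        rw [hc' S F]
        intro φ hφ
        rw [he] at hφ
        have h2 : ren e φ ∈ pp (R := R) U (yzt (R := R) A y z) := (sat_ren e φ _).2 hφ
        exact (sat_ren e φ _).1 (hv _ h2)
      have h2 : Sat χ U ((fun i => (v i : U)) ∘ e) := by
        refine h1 χ ?_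
        exact (hχ U _).1 ⟨fun j => (t j : U), hθ⟩
      have h3 : Sat χ M' (v ∘ e) := (hPU R U hU M' hM' F χ (v ∘ e)).2 h2
      obtain ⟨t', ht'⟩ := (hχ M' _).2 h3
      have h4 := (hPU R U hU M' hM' _ θ _).1 ht'
      have h5 : (fun i => ((Sum.elim (v ∘ e) t' i : M') : U)) =
          Sum.elim ((fun i => (v i : U)) ∘ e) (fun j => (t' j : U)) := by
        funext i
        rcases i with i | i <;> rfl
      rw [h5] at h4
      have h6 := hθ' _ _ h1 h4
      refine ⟨t', fun φ hφ => ?_⟩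
      rw [hPU R U hU M' hM']
      let g : ι ⊕ Fin (W k).1 → F ⊕ Fin (W k).1 := Sum.map (fun i => ⟨Sum.inl i, hinl i⟩) id
      have h7 : ren g φ ∈ pp (R := R) U (Sum.elim (fun i : F => (c' S i : U))
          (fun j => (t j : U))) := by
        refine (sat_ren g φ _).2 ?_
        have h8 := (hPU R U hU (M S) (hM S) _ φ _).1 (ht φ hφ)
        have h9 : (fun i => ((Sum.elim (fun i => c' S (Sum.inl i)) t i : M S) : U)) =
            Sum.elim (fun i : F => (c' S i : U)) (fun j => (t j : U)) ∘ g := by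
          funext i
          rcases i with i | i <;> rfl
        rw [h9] at h8
        exact h8
      have h8 := (sat_ren g φ _).1 (h6 _ h7)
      have h9 : (fun i => ((Sum.elim (v ∘ Sum.inl) t' i : M') : U)) =
          Sum.elim ((fun i => (v i : U)) ∘ e) (fun j => (t' j : U)) ∘ g := by
        funext i
        rcases i with i | i <;> rfl
      rw [h9]
      exact h8)
    obtain ⟨N, hN⟩ := hIX'
    obtain ⟨ψ, hψ⟩ := hLB R U hU hA ι V (W k) N hN
    exact hFi k ψ hψ
  -- too many level-one types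
  have hcount := hF.few1 ι
  have hinj : Function.Injective (fun S : Set ℕ => tp1 (R := R) (M S)
      (fun i => c' S (Sum.inl i))) := by
    intro S T hST
    have h1 : ∀ S' : Set ℕ, ∀ k, W k ∈ tp1 (R := R) (M S') (fun i => c' S' (Sum.inl i)) ↔
        k ∈ S' := fun S' k => ⟨fun h => by
      by_contra hk
      exact key2 S' k hk h, fun h => key1 S' k h⟩
    ext k
    rw [← h1 S, ← h1 T]
    have h2 : tp1 (R := R) (M S) (fun i => c' S (Sum.inl i)) =
        tp1 (R := R) (M T) (fun i => c' T (Sum.inl i)) := hST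
    rw [h2]
  have hmem : ∀ S : Set ℕ, tp1 (R := R) (M S) (fun i => c' S (Sum.inl i)) ∈
      {τ : Set (L1 R ι) | ∃ M : Md R, Countable M ∧ Mods (Th R U) M ∧
        ∃ x : ι → M, tp1 M x = τ} := by
    intro S
    obtain ⟨h1, h2⟩ := (hEK R U hU).1 (M S) (hM S)
    exact ⟨⟨M S⟩, h1, h2, _, rfl⟩
  have _ := hcount.to_subtype
  obtain ⟨g, hg⟩ := exists_injective_nat {τ : Set (L1 R ι) | ∃ M : Md R, Countable M ∧
    Mods (Th R U) M ∧ ∃ x : ι → M, tp1 M x = τ}
  refine Function.cantor_injective (fun S : Set ℕ => g ⟨_, hmem S⟩) ?_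
  intro S T hST
  exact hinj (congrArg Subtype.val (hg hST))

end Pool.Agent.VMF
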