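import Pool.Agent.VMF.StW

/-!
# Compactness for types of finite index
-/

set_option autoImplicit false
set_option linter.unusedSectionVars false
set_option linter.unusedVariables false

namespace Pool.Agent.VMF

open Set Pool.Agent.MVC Pool.Agent.MVC.Ax

theorem thm_WFC : St_WFC := by
  intro R _ U ι S S' hF
  classical
  let G : AddSubgroup (ι → U) := grp U S
  let H : AddSubgroup G := (grp U S').addSubgroupOf G
  have hidx : H.index ≠ 0 := hF
  have hfi : H.FiniteIndex := ⟨hidx⟩
  have hfin : Finite (G ⧸ H) := AddSubgroup.finite_quotient_of_finiteIndex (H := H)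
  -- a formula for each coset
  have key : ∀ q : G ⧸ H, ∃ φ : PP R ι, q ≠ 0 → φ ∈ S' ∧ ¬ Sat φ U ((Quotient.out q : G) : ι → U) := by
    intro q
    by_cases hq : q = 0
    · exact ⟨[], fun h => absurd hq h⟩
    · have h1 : ¬ Re S' U ((Quotient.out q : G) : ι → U) := by
        intro h2
        apply hq
        have h3 : (Quotient.out q : G) ∈ H := h2
        have h4 : ((Quotient.out q : G) : G ⧸ H) = q := Quotient.out_eq' q
        rw [← h4]
        exact (QuotientAddGroup.eq_zero_iff _).mpr h3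
      unfold Re at h1
      push Not at h1
      obtain ⟨φ, hφ, hn⟩ := h1
      exact ⟨φ, fun _ => ⟨hφ, hn⟩⟩
  choose φ hφ using key
  have : Fintype (G ⧸ H) := Fintype.ofFinite _
  let s : Finset (PP R ι) := (Finset.univ.filter (fun q : G ⧸ H => q ≠ 0)).image φ
  obtain ⟨ψ, hψ⟩ := isPP_finset (R := R) s
  have hS'ψ : ∀ x : ι → U, Re S' U x → Sat ψ U x := by
    intro x hx
    rw [← hψ]
    intro χ hχ
    obtain ⟨q, hq, rfl⟩ := Finset.mem_image.mp hχ
    exact hx _ (hφ q (Finset.mem_filter.mp hq).2).1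
  refine ⟨ψ, ?_, hS'ψ, ?_⟩
  · have hle : grp U S' ≤ grp U {ψ} := by
      intro x hx χ hχ
      rw [mem_singleton_iff.mp hχ]
      exact hS'ψ x hx
    intro h0
    have hd : (grp U {ψ}).relIndex (grp U S) ∣ (grp U S').relIndex (grp U S) :=
      AddSubgroup.relIndex_dvd_of_le_left _ hle
    rw [h0] at hd
    exact hF (Nat.eq_zero_of_zero_dvd hd)
  · intro x hx hxψ
    by_contra hne
    let x' : G := ⟨x, hx⟩
    have hq : (x' : G ⧸ H) ≠ 0 := by
      intro h0
      exact hne ((QuotientAddGroup.eq_zero_iff _).mp h0)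
    obtain ⟨h1, h2⟩ := hφ (x' : G ⧸ H) hq
    apply h2
    have h3 : Sat (φ (x' : G ⧸ H)) U x := by
      rw [← hψ] at hxψ
      exact hxψ _ (Finset.mem_image.mpr ⟨_, Finset.mem_filter.mpr ⟨Finset.mem_univ _, hq⟩, rfl⟩)
    have h4 : ((Quotient.out (x' : G ⧸ H) : G) : G ⧸ H) = (x' : G ⧸ H) := Quotient.out_eq' _
    have h5 : -(Quotient.out (x' : G ⧸ H) : G) + x' ∈ H := QuotientAddGroup.eq.mp h4
    have h6 : Re S' U (-((Quotient.out (x' : G ⧸ H) : G) : ι → U) + x) := h5
    have h7 := h6 _ h1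
    have h8 := h3.sub h7
    have h9 : x - (-((Quotient.out (x' : G ⧸ H) : G) : ι → U) + x) =
        ((Quotient.out (x' : G ⧸ H) : G) : ι → U) := by abel
    rwa [h9] at h8

end Pool.Agent.VMF
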