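import Pool.Agent.VMF.StW

/-!
# VMF, block W: the generic sequence of case 1 (helper33)

`y` is generic in `V`, and `z i` is generic over `(y, z 0, .., z (i - 1))` in the fibre of `W i`.
-/

set_option autoImplicit false
set_option linter.unusedSectionVars false
set_option linter.unusedVariables false

namespace Pool.Agent.VMF

open Set Pool.Agent.MVC Pool.Agent.MVC.Ax

private theorem WGS_re {R : Type} [Ring R] {U : Type} [AddCommGroup U] [Module R U]
    {κ κ' : Type} (e : κ → κ') (e' : κ' → κ) (h : ∀ i, e (e' i) = i) (g x : κ' → U) :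
    Re (pp (R := R) U (g ∘ e)) U (x ∘ e) ↔ Re (pp (R := R) U g) U x := by
  constructor
  · intro h1 φ hφ
    have h2 : ∀ y : κ' → U, (y ∘ e) ∘ e' = y := fun y => funext fun i => congrArg y (h i)
    have h3 : ren e' φ ∈ pp (R := R) U (g ∘ e) := by
      show Sat (ren e' φ) U (g ∘ e)
      rw [sat_ren, h2]
      exact hφ
    have h4 := h1 _ h3
    rw [sat_ren, h2] at h4
    exact h4
  · intro h1 φ hφ
    have h3 : ren e φ ∈ pp (R := R) U g := by
      show Sat (ren e φ) U g
      rw [sat_ren]
      exact hφ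
    have h4 := h1 _ h3
    rw [sat_ren] at h4
    exact h4

/-- the index of `H` in `G`, from the index of the images under `p` and of the kernels, which are
parametrised by `q` -/
private theorem WGS_idx {A B C : Type} [AddCommGroup A] [AddCommGroup B] [AddCommGroup C]
    (p : A →+ B) (q : C →+ A) (H G : AddSubgroup A) (G₁ : AddSubgroup B) (H₁ : AddSubgroup B)
    (V : AddSubgroup C) (hHG : H ≤ G) (h1 : ∀ x ∈ G, p x ∈ G₁) (h2 : H₁.relIndex G₁ ≠ 0)
    (h3 : ∀ y ∈ H₁, ∃ x ∈ H, p x = y) (h4 : (H.comap q).relIndex V ≠ 0)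
    (h5 : ∀ x ∈ G, p x = 0 → ∃ v ∈ V, q v = x) : H.relIndex G ≠ 0 := by
  have h6 : H.relIndex (V.map q) ≠ 0 := by
    rw [← AddSubgroup.relIndex_comap]
    exact h4
  have h7 : H.relIndex (H ⊔ V.map q) ≠ 0 := by
    rw [AddSubgroup.relIndex_sup_left]
    exact h6
  have h8 : (H₁.comap p).relIndex G ≠ 0 := by
    rw [AddSubgroup.relIndex_comap]
    intro h
    refine h2 (AddSubgroup.relIndex_eq_zero_of_le_right ?_ h)
    rintro y ⟨x, hx, rfl⟩
    exact h1 x hx
  have h9 : (H₁.comap p ⊓ G).relIndex G ≠ 0 := by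
    rw [AddSubgroup.inf_relIndex_right]
    exact h8
  have h10 : H.relIndex (H₁.comap p ⊓ G) ≠ 0 := by
    intro h
    refine h7 (AddSubgroup.relIndex_eq_zero_of_le_right ?_ h)
    rintro x ⟨hx, hxG⟩
    obtain ⟨y, hy, hyx⟩ := h3 (p x) hx
    have h11 : p (x - y) = 0 := by rw [map_sub, hyx, sub_self]
    obtain ⟨v, hv, hvx⟩ := h5 (x - y) (G.sub_mem hxG (hHG hy)) h11
    have h12 : x = y + q v := by rw [hvx]; abel
    rw [h12]
    exact AddSubgroup.add_mem_sup hy ⟨v, hv, rfl⟩
  exact AddSubgroup.relIndex_ne_zero_trans h10 h9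

/-- sequences which are constructed by recursion -/
private theorem WGS_seq {α : ℕ → Type} (P : ∀ i, (∀ j, j < i → α j) → α i → Prop)
    (h : ∀ i f, ∃ a, P i f a) : ∃ z : ∀ i, α i, ∀ i, P i (fun j _ => z j) (z i) := by
  choose F hF using h
  let z : ∀ i, α i := WellFounded.fix (r := (· < ·)) Nat.lt_wfRel.wf (fun i f => F i f)
  refine ⟨z, fun i => ?_⟩
  have h1 : z i = F i (fun j _ => z j) := WellFounded.fix_eq _ _ i
  have h2 := hF i (fun j _ => z j)
  rw [← h1] at h2
  exact h2

/-- One step: `t = (c, z)`, the type of `c` has finite index in `S`, the fibre type of `z` over `c`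
has finite index in `T`. -/
private theorem WGS_step (hPJ : St_WPJ) {R : Type} [Ring R] [Countable R] (U : Md R)
    (hU : MonM R U) {κ ι' κ' : Type} [Finite κ] [Finite ι'] (e : κ ⊕ ι' ≃ κ')
    (S : Set (PP R κ)) (T : Set (PP R ι')) (S' : Set (PP R κ')) (t : κ' → U) (c : κ → U)
    (z : ι' → U) (htc : t ∘ e = Sum.elim c z)
    (ha : ∀ x : κ' → U, Re S' U x → Re S U (fun i => x (e (Sum.inl i))))
    (hb : ∀ x : κ' → U, Re S' U x → (fun i => x (e (Sum.inl i))) = 0 →
      Re T U (fun i => x (e (Sum.inr i))))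
    (hc : FIn U S (pp (R := R) U c)) (hd : FIn U T (fib (R := R) U c z)) (he : Re S' U t) :
    FIn U S' (pp (R := R) U t) := by
  have hkey : ∀ x : κ' → U, Re (pp (R := R) U t) U x ↔
      Re (pp (R := R) U (Sum.elim c z)) U (x ∘ e) := by
    intro x
    rw [← htc]
    exact (WGS_re e e.symm e.apply_symm_apply t x).symm
  let p : (κ' → U) →+ (κ → U) :=
    { toFun := fun x i => x (e (Sum.inl i))
      map_zero' := rfl
      map_add' := fun x y => rfl }
  let q : (ι' → U) →+ (κ' → U) :=
    { toFun := fun v s => Sum.elim (0 : κ → U) v (e.symm s)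
      map_zero' := by
        funext s
        show Sum.elim (0 : κ → U) (0 : ι' → U) (e.symm s) = 0
        rcases e.symm s with a | b
        · rfl
        · rfl
      map_add' := by
        intro v w
        funext s
        show Sum.elim (0 : κ → U) (v + w) (e.symm s) =
          Sum.elim (0 : κ → U) v (e.symm s) + Sum.elim (0 : κ → U) w (e.symm s)
        rcases e.symm s with a | b
        · exact (add_zero (0 : U)).symm
        · rfl }
  have hqe : ∀ v : ι' → U, q v ∘ e = Sum.elim (0 : κ → U) v := by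
    intro v
    funext s
    show Sum.elim (0 : κ → U) v (e.symm (e s)) = _
    rw [e.symm_apply_apply]
  refine WGS_idx p q (grp U (pp (R := R) U t)) (grp U S') (grp U S) (grp U (pp (R := R) U c))
    (grp U T) ?_ ha hc ?_ ?_ ?_
  · intro x hx φ hφ
    exact hx φ (he φ hφ)
  · intro x hx
    obtain ⟨v, hv⟩ := hPJ R U hU κ ι' c z x hx
    refine ⟨fun s => Sum.elim x v (e.symm s), ?_, ?_⟩
    · show Re (pp (R := R) U t) U _
      rw [hkey]
      have h1 : (fun s => Sum.elim x v (e.symm s)) ∘ e = Sum.elim x v := by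
        funext s
        show Sum.elim x v (e.symm (e s)) = _
        rw [e.symm_apply_apply]
      rw [h1]
      exact hv
    · funext i
      show Sum.elim x v (e.symm (e (Sum.inl i))) = x i
      rw [e.symm_apply_apply]
      rfl
  · have h8 : AddSubgroup.comap q (grp U (pp (R := R) U t)) = grp U (fib (R := R) U c z) := by
      ext v
      show Re (pp (R := R) U t) U (q v) ↔ Re (fib (R := R) U c z) U v
      rw [hkey]
      unfold fib
      rw [re_zer, hqe]
    rw [h8]
    exact hd
  · intro x hx hpx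
    refine ⟨fun i => x (e (Sum.inr i)), hb x hx hpx, ?_⟩
    funext s
    show Sum.elim (0 : κ → U) (fun i => x (e (Sum.inr i))) (e.symm s) = x s
    rcases hs : e.symm s with a | b
    · have h1 : x (e (Sum.inl a)) = 0 := congrFun hpx a
      rw [← hs, e.apply_symm_apply] at h1
      exact h1.symm
    · show x (e (Sum.inr b)) = x s
      rw [← hs, e.apply_symm_apply]

/-- the first `m` blocks and the block `m` -/
private def WGS_e {R : Type} [Ring R] {ι : Type} (W : ℕ → L1 R ι) (m : ℕ) :
    YZ ι W (Finset.range m) ⊕ Fin (W m).1 → YZ ι W (Finset.range (m + 1)) :=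
  Sum.elim (Sum.elim Sum.inl (fun p => Sum.inr ⟨⟨p.1.1, Finset.mem_range.2
    (Nat.lt_succ_of_lt (Finset.mem_range.1 p.1.2))⟩, p.2⟩))
    (fun j => Sum.inr ⟨⟨m, Finset.mem_range.2 (Nat.lt_succ_self m)⟩, j⟩)

private theorem WGS_bij {R : Type} [Ring R] {ι : Type} (W : ℕ → L1 R ι) (m : ℕ) :
    Function.Bijective (WGS_e (R := R) W m) := by
  constructor
  · rintro ((i | ⟨⟨a, ha⟩, i⟩) | i) ((j | ⟨⟨b, hb⟩, j⟩) | j) h
    · have h1 : i = j := Sum.inl.inj h
      rw [h1]
    · exact absurd h Sum.inl_ne_inr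
    · exact absurd h Sum.inl_ne_inr
    · exact absurd h Sum.inr_ne_inl
    · have h1 := Sum.inr.inj h
      rw [Sigma.mk.injEq, Subtype.mk.injEq] at h1
      obtain ⟨h2, h3⟩ := h1
      have h2' : a = b := h2
      subst h2'
      have h4 : i = j := eq_of_heq h3
      rw [h4]
    · exfalso
      have h1 := Sum.inr.inj h
      rw [Sigma.mk.injEq, Subtype.mk.injEq] at h1
      have h2 : a = m := h1.1
      rw [h2] at ha
      exact absurd (Finset.mem_range.1 ha) (lt_irrefl m)
    · exact absurd h Sum.inr_ne_inl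
    · exfalso
      have h1 := Sum.inr.inj h
      rw [Sigma.mk.injEq, Subtype.mk.injEq] at h1
      have h2 : m = b := h1.1
      rw [← h2] at hb
      exact absurd (Finset.mem_range.1 hb) (lt_irrefl m)
    · have h1 := Sum.inr.inj h
      rw [Sigma.mk.injEq] at h1
      have h4 : i = j := eq_of_heq h1.2
      rw [h4]
  · rintro (i | ⟨⟨a, ha⟩, i⟩)
    · exact ⟨Sum.inl (Sum.inl i), rfl⟩
    · by_cases h : a = m
      · subst h
        exact ⟨Sum.inr i, rfl⟩
      · have h1 : a < m := by
          have h2 := Finset.mem_range.1 ha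
          omega
        exact ⟨Sum.inl (Sum.inr ⟨⟨a, Finset.mem_range.2 h1⟩, i⟩), rfl⟩

theorem thm_WGS (hG4 : St_WG4) (hPJ : St_WPJ) : St_WGS := by
  intro R _ _ U hU ι _ V W hW
  obtain ⟨y, hy1, hy2⟩ := hG4 R U hU Empty ι Empty.elim V 0
  have hyV : Re V U y := by
    rw [sub_zero] at hy1
    exact hy1
  have hz0 : ∀ i, ∃ z₀ : Fin (W i).1 → U, Re (W i).2 U (Sum.elim y z₀) := fun i => hW i y hyV
  obtain ⟨z, hz⟩ := WGS_seq (α := fun i => Fin (W i).1 → U)
    (fun i f a => Re (W i).2 U (Sum.elim y a) ∧ FIn U (zer '' (W i).2)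
      (fib (R := R) U (Sum.elim y (fun p => f p.1.1 (Finset.mem_range.1 p.1.2) p.2) :
        YZ ι W (Finset.range i) → U) a)) (by
      intro i f
      obtain ⟨z₀, hz₀⟩ := hz0 i
      obtain ⟨a, ha1, ha2⟩ := hG4 R U hU (YZ ι W (Finset.range i)) (Fin (W i).1)
        (Sum.elim y (fun p => f p.1.1 (Finset.mem_range.1 p.1.2) p.2)) (zer '' (W i).2) z₀
      refine ⟨a, ?_, ha2⟩
      rw [re_zer] at ha1
      have h1 := ha1.add hz₀
      have h2 : Sum.elim (0 : ι → U) (a - z₀) + Sum.elim y z₀ = Sum.elim y a := by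
        funext s
        rcases s with s | s
        · exact zero_add (y s)
        · exact sub_add_cancel (a s) (z₀ s)
      rw [h2] at h1
      exact h1)
  have hz1 : ∀ i, Re (W i).2 U (Sum.elim y (z i)) := fun i => (hz i).1
  have hz2 : ∀ i, FIn U (zer '' (W i).2)
      (fib (R := R) U (yzt (R := R) (Finset.range i) y z) (z i)) := fun i => (hz i).2
  have hall : ∀ A : Finset ℕ, Re (yz V W A) U (yzt (R := R) A y z) := by
    intro A
    rw [re_yz]
    exact ⟨hyV, fun i => hz1 i.1⟩
  have hrange : ∀ m : ℕ, FIn U (yz V W (Finset.range m))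
      (pp (R := R) U (yzt (R := R) (Finset.range m) y z)) := by
    intro m
    induction m with
    | zero =>
      have hb : Function.Bijective (fun s : Empty ⊕ ι =>
          (Sum.elim (fun a : Empty => a.elim) (fun i => Sum.inl i) s :
            YZ ι W (Finset.range 0))) := by
        constructor
        · rintro (a | i) (b | j) h
          · exact a.elim
          · exact a.elim
          · exact b.elim
          · have h1 : i = j := Sum.inl.inj h
            rw [h1]
        · rintro (i | ⟨⟨a, ha⟩, i⟩)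
          · exact ⟨Sum.inr i, rfl⟩
          · exact absurd (Finset.mem_range.1 ha) (Nat.not_lt_zero a)
      refine WGS_step hPJ U hU (Equiv.ofBijective _ hb) (∅ : Set (PP R Empty)) V _ _
        Empty.elim y ?_ ?_ ?_ ?_ hy2 (hall _)
      · funext s
        rcases s with a | i
        · exact a.elim
        · rfl
      · intro x hx φ hφ
        exact absurd hφ (Set.notMem_empty φ)
      · intro x hx h0
        exact ((re_yz V W _ x).1 hx).1
      · have h1 : grp U (∅ : Set (PP R Empty)) ≤ grp U (pp (R := R) U (Empty.elim : Empty → U)) := by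
          intro x hx
          have h2 : x = 0 := funext fun a => a.elim
          rw [h2]
          exact AddSubgroup.zero_mem _
        show (grp U _).relIndex (grp U _) ≠ 0
        rw [AddSubgroup.relIndex_eq_one.mpr h1]
        exact one_ne_zero
    | succ m ih =>
      refine WGS_step hPJ U hU (Equiv.ofBijective _ (WGS_bij W m)) (yz V W (Finset.range m))
        (zer '' (W m).2) _ _ (yzt (R := R) (Finset.range m) y z) (z m) ?_ ?_ ?_ ih (hz2 m)
        (hall _)
      · funext s
        rcases s with (i | p) | j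
        · rfl
        · rfl
        · rfl
      · intro x hx
        rw [re_yz] at hx ⊢
        exact ⟨hx.1, fun i => hx.2 ⟨i.1, Finset.mem_range.2
          (Nat.lt_succ_of_lt (Finset.mem_range.1 i.2))⟩⟩
      · intro x hx h0
        rw [re_zer]
        have h1 := ((re_yz V W _ x).1 hx).2 ⟨m, Finset.mem_range.2 (Nat.lt_succ_self m)⟩
        have h2 : x ∘ Sum.inl = (0 : ι → U) := by
          funext i
          exact congrFun h0 (Sum.inl i)
        rw [h2] at h1
        exact h1
  refine ⟨y, z, hyV, hz1, ?_⟩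
  intro A
  obtain ⟨m, hm⟩ : ∃ m : ℕ, A ⊆ Finset.range m :=
    ⟨A.sup id + 1, fun i hi => Finset.mem_range.2 (Nat.lt_succ_of_le (Finset.le_sup (f := id) hi))⟩
  let π : (YZ ι W (Finset.range m) → U) →+ (YZ ι W A → U) :=
    { toFun := fun x => Sum.elim (fun i => x (Sum.inl i))
        (fun p => x (Sum.inr ⟨⟨p.1.1, hm p.1.2⟩, p.2⟩))
      map_zero' := by
        funext s
        rcases s with i | p
        · rfl
        · rfl
      map_add' := by
        intro v w
        funext s
        rcases s with i | p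
        · rfl
        · rfl }
  let e : YZ ι W A → YZ ι W (Finset.range m) :=
    Sum.elim Sum.inl (fun p => Sum.inr ⟨⟨p.1.1, hm p.1.2⟩, p.2⟩)
  have hπ : ∀ x, π x = x ∘ e := by
    intro x
    funext s
    rcases s with i | p
    · rfl
    · rfl
  have h1 : ((grp U (pp (R := R) U (yzt (R := R) A y z))).comap π).relIndex
      (grp U (yz V W (Finset.range m))) ≠ 0 := by
    intro h
    refine hrange m (AddSubgroup.relIndex_eq_zero_of_le_left ?_ h)
    intro x hx
    show Re (pp (R := R) U (yzt (R := R) A y z)) U (π x)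
    rw [hπ]
    intro φ hφ
    have h3 : ren e φ ∈ pp (R := R) U (yzt (R := R) (Finset.range m) y z) := by
      show Sat (ren e φ) U _
      rw [sat_ren]
      have h4 : yzt (R := R) (Finset.range m) y z ∘ e = yzt (R := R) A y z := by
        funext s
        rcases s with i | p
        · rfl
        · rfl
      rw [h4]
      exact hφ
    have h4 := hx _ h3
    rw [sat_ren] at h4
    exact h4
  rw [AddSubgroup.relIndex_comap] at h1
  intro h
  refine h1 (AddSubgroup.relIndex_eq_zero_of_le_right ?_ h)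
  intro x hx
  have hx1 := (re_yz V W A x).1 hx
  choose w hw using fun i => hW i (x ∘ Sum.inl) hx1.1
  classical
  refine ⟨Sum.elim (fun i => x (Sum.inl i)) (fun p => if hA : p.1.1 ∈ A then
    x (Sum.inr ⟨⟨p.1.1, hA⟩, p.2⟩) else w p.1.1 p.2), ?_, ?_⟩
  · show Re (yz V W (Finset.range m)) U _
    rw [re_yz]
    refine ⟨hx1.1, fun i => ?_⟩
    by_cases hA : i.1 ∈ A
    · have h5 := hx1.2 ⟨i.1, hA⟩
      have h6 : (fun j : Fin (W i.1).1 => (if hA : i.1 ∈ A then
          x (Sum.inr ⟨⟨i.1, hA⟩, j⟩) else w i.1 j)) =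
          fun j => x (Sum.inr ⟨⟨i.1, hA⟩, j⟩) := by
        funext j
        rw [dif_pos hA]
      show Re (W i.1).2 U (Sum.elim (x ∘ Sum.inl) (fun j : Fin (W i.1).1 => (if hA : i.1 ∈ A then
          x (Sum.inr ⟨⟨i.1, hA⟩, j⟩) else w i.1 j)))
      rw [h6]
      exact h5
    · have h6 : (fun j : Fin (W i.1).1 => (if hA : i.1 ∈ A then
          x (Sum.inr ⟨⟨i.1, hA⟩, j⟩) else w i.1 j)) = w i.1 := by
        funext j
        rw [dif_neg hA]
      show Re (W i.1).2 U (Sum.elim (x ∘ Sum.inl) (fun j : Fin (W i.1).1 => (if hA : i.1 ∈ A then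
          x (Sum.inr ⟨⟨i.1, hA⟩, j⟩) else w i.1 j)))
      rw [h6]
      exact hw i.1
  · funext s
    rcases s with i | p
    · rfl
    · show (if hA : p.1.1 ∈ A then x (Sum.inr ⟨⟨p.1.1, hA⟩, p.2⟩) else w p.1.1 p.2) = x (Sum.inr p)
      rw [dif_pos p.1.2]

end Pool.Agent.VMF
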