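import Pool.Agent.VMF.StW

/-!
# VMF, block W: generic tuples in a type (helper41)
-/

set_option autoImplicit false
set_option linter.unusedSectionVars false
set_option linter.unusedVariables false

namespace Pool.Agent.VMF

open Set Pool.Agent.MVC Pool.Agent.MVC.Ax

private theorem WGV_re {R : Type} [Ring R] {U : Type} [AddCommGroup U] [Module R U]
    {κ κ' : Type} (e : κ → κ') (e' : κ' → κ) (h : ∀ i, e (e' i) = i) (g x : κ' → U) :
    Re (pp (R := R) U (g ∘ e)) U (x ∘ e) ↔ Re (pp (R := R) U g) U x := by
  constructor
  · intro h1 φ hφ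
    have h2 : ∀ y : κ' → U, (y ∘ e) ∘ e' = y := fun y => funext fun i => congrArg y (h i)
    have h3 : ren e' φ ∈ pp (R := R) U (g ∘ e) := by
      show Sat (ren e' φ) U (g ∘ e)
      rw [sat_ren, h2]
      exact hφ
    have h4 := h1 _ h3
    rw [sat_ren, h2] at h4
    exact h4
  · intro h1 φ hφ
    have h3 : ren e φ ∈ pp (R := R) U g := by
      show Sat (ren e φ) U g
      rw [sat_ren]
      exact hφ
    have h4 := h1 _ h3
    rw [sat_ren] at h4
    exact h4

/-- the index of `H` in `G`, from the index of the images under `p` and of the kernels, which are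
parametrised by `q` -/
private theorem WGV_idx {A B C : Type} [AddCommGroup A] [AddCommGroup B] [AddCommGroup C]
    (p : A →+ B) (q : C →+ A) (H G : AddSubgroup A) (G₁ : AddSubgroup B) (H₁ : AddSubgroup B)
    (V : AddSubgroup C) (hHG : H ≤ G) (h1 : ∀ x ∈ G, p x ∈ G₁) (h2 : H₁.relIndex G₁ ≠ 0)
    (h3 : ∀ y ∈ H₁, ∃ x ∈ H, p x = y) (h4 : (H.comap q).relIndex V ≠ 0)
    (h5 : ∀ x ∈ G, p x = 0 → ∃ v ∈ V, q v = x) : H.relIndex G ≠ 0 := by
  have h6 : H.relIndex (V.map q) ≠ 0 := by
    rw [← AddSubgroup.relIndex_comap]
    exact h4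
  have h7 : H.relIndex (H ⊔ V.map q) ≠ 0 := by
    rw [AddSubgroup.relIndex_sup_left]
    exact h6
  have h8 : (H₁.comap p).relIndex G ≠ 0 := by
    rw [AddSubgroup.relIndex_comap]
    intro h
    refine h2 (AddSubgroup.relIndex_eq_zero_of_le_right ?_ h)
    rintro y ⟨x, hx, rfl⟩
    exact h1 x hx
  have h9 : (H₁.comap p ⊓ G).relIndex G ≠ 0 := by
    rw [AddSubgroup.inf_relIndex_right]
    exact h8
  have h10 : H.relIndex (H₁.comap p ⊓ G) ≠ 0 := by
    intro h
    refine h7 (AddSubgroup.relIndex_eq_zero_of_le_right ?_ h)
    rintro x ⟨hx, hxG⟩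
    obtain ⟨y, hy, hyx⟩ := h3 (p x) hx
    have h11 : p (x - y) = 0 := by rw [map_sub, hyx, sub_self]
    obtain ⟨v, hv, hvx⟩ := h5 (x - y) (G.sub_mem hxG (hHG hy)) h11
    have h12 : x = y + q v := by rw [hvx]; abel
    rw [h12]
    exact AddSubgroup.add_mem_sup hy ⟨v, hv, rfl⟩
  exact AddSubgroup.relIndex_ne_zero_trans h10 h9

private theorem WGV_one {R : Type} [Ring R] {U : Type} [AddCommGroup U] [Module R U] {ι : Type}
    (V : Set (PP R ι)) (x : ι → U) (h : Re (one U V) U x) : Re V U x := by
  intro φ hφ
  refine h φ ⟨?_, fun χ hχ x hx => ?_⟩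
  · have h1 : grp U V ≤ grp U {φ} := by
      intro y hy χ hχ
      rw [mem_singleton_iff.mp hχ]
      exact hy φ hφ
    show (grp U {φ}).relIndex (grp U V) ≠ 0
    rw [AddSubgroup.relIndex_eq_one.mpr h1]
    exact one_ne_zero
  · intro ψ hψ
    rw [mem_singleton_iff.mp hψ]
    exact hχ x hx φ hφ

/-- the first blocks -/
private def WGV_e (m : ℕ) (ι : Type) : (Fin m × ι) ⊕ ι → Fin (m + 1) × ι :=
  Sum.elim (fun p => (p.1.castSucc, p.2)) (fun i => (Fin.last m, i))

private theorem WGV_inv (m : ℕ) (ι : Type) : ∃ e' : Fin (m + 1) × ι → (Fin m × ι) ⊕ ι,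
    ∀ i, WGV_e m ι (e' i) = i := by
  refine ⟨fun p => if h : p.1.val < m then Sum.inl (⟨p.1.val, h⟩, p.2) else Sum.inr p.2, ?_⟩
  rintro ⟨j, i⟩
  show WGV_e m ι (if h : j.val < m then Sum.inl (⟨j.val, h⟩, i) else Sum.inr i) = (j, i)
  by_cases h : j.val < m
  · rw [dif_pos h]
    rfl
  · rw [dif_neg h]
    have h1 : j = Fin.last m := by
      apply Fin.ext
      have h2 := j.isLt
      show j.val = m
      omega
    rw [h1]
    rfl

theorem thm_WGV (hG4 : St_WG4) (hPJ : St_WPJ) : St_WGV := by
  intro R _ _ U hU hA ι _ V m
  induction m with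
  | zero =>
    intro z hz
    refine ⟨z, hz, fun j => j.elim0, ?_⟩
    have h1 : grp U (pw V 0) ≤ grp U (pp (R := R) U (fun p : Fin 0 × ι => z p.1 p.2)) := by
      intro x hx
      have h2 : x = 0 := funext fun p => p.1.elim0
      rw [h2]
      exact AddSubgroup.zero_mem _
    show (grp U _).relIndex (grp U _) ≠ 0
    rw [AddSubgroup.relIndex_eq_one.mpr h1]
    exact one_ne_zero
  | succ m ih =>
    intro z hz
    obtain ⟨g, hg1, hg2, hg3⟩ := ih (fun j => z j.castSucc) (fun j => hz j.castSucc)
    obtain ⟨y, hy1, hy2⟩ := hG4 R U hU (Fin m × ι) ι (fun p => g p.1 p.2) (one U V)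
      (z (Fin.last m))
    have hy3 : Re V U y := by
      have h1 := (WGV_one V _ hy1).add (hz (Fin.last m))
      rwa [sub_add_cancel] at h1
    have hy4 : (grp U (fib (R := R) U (fun p : Fin m × ι => g p.1 p.2) y)).relIndex
        (grp U V) ≠ 0 := AddSubgroup.relIndex_ne_zero_trans hy2 (hA ι V)
    have hgV : ∀ j, Re V U ((Fin.snoc g y : Fin (m + 1) → ι → U) j) := by
      intro j
      refine Fin.lastCases ?_ (fun j => ?_) j
      · rw [Fin.snoc_last]
        exact hy3
      · rw [Fin.snoc_castSucc]
        exact hg1 j
    refine ⟨(Fin.snoc g y : Fin (m + 1) → ι → U), hgV, ?_, ?_⟩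
    · intro j
      refine Fin.lastCases ?_ (fun j => ?_) j
      · rw [Fin.snoc_last]
        exact hy1
      · rw [Fin.snoc_castSucc]
        exact hg2 j
    · obtain ⟨e', he'⟩ := WGV_inv m ι
      let t : Fin (m + 1) × ι → U := fun p => (Fin.snoc g y : Fin (m + 1) → ι → U) p.1 p.2
      have hte : t ∘ WGV_e m ι = Sum.elim (fun p : Fin m × ι => g p.1 p.2) y := by
        funext s
        rcases s with p | i
        · show (Fin.snoc g y : Fin (m + 1) → ι → U) (p.1.castSucc) p.2 = g p.1 p.2
          rw [Fin.snoc_castSucc]
        · show (Fin.snoc g y : Fin (m + 1) → ι → U) (Fin.last m) i = y i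
          rw [Fin.snoc_last]
      have hkey : ∀ x : Fin (m + 1) × ι → U, Re (pp (R := R) U t) U x ↔
          Re (pp (R := R) U (Sum.elim (fun p : Fin m × ι => g p.1 p.2) y)) U
            (x ∘ WGV_e m ι) := by
        intro x
        rw [← hte]
        exact (WGV_re (WGV_e m ι) e' he' t x).symm
      let p : (Fin (m + 1) × ι → U) →+ (Fin m × ι → U) :=
        { toFun := fun x s => x (s.1.castSucc, s.2)
          map_zero' := rfl
          map_add' := fun x y => rfl }
      let q : (ι → U) →+ (Fin (m + 1) × ι → U) :=
        { toFun := fun v s => if s.1 = Fin.last m then v s.2 else 0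
          map_zero' := by
            funext s
            show (if s.1 = Fin.last m then (0 : U) else 0) = 0
            exact ite_self 0
          map_add' := by
            intro v w
            funext s
            show (if s.1 = Fin.last m then v s.2 + w s.2 else 0) =
              (if s.1 = Fin.last m then v s.2 else 0) + if s.1 = Fin.last m then w s.2 else 0
            by_cases h : s.1 = Fin.last m
            · rw [if_pos h, if_pos h, if_pos h]
            · rw [if_neg h, if_neg h, if_neg h, add_zero] }
      refine WGV_idx p q _ _ (grp U (pw V m))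
        (grp U (pp (R := R) U (fun p : Fin m × ι => g p.1 p.2))) (grp U V) ?_ ?_ hg3 ?_ ?_ ?_
      · intro x hx
        show Re (pw V (m + 1)) U x
        have h1 : ∀ φ ∈ pw V (m + 1), φ ∈ pp (R := R) U t := by
          intro φ hφ
          have h2 : Re (pw V (m + 1)) U t := (re_pw V (m + 1) t).mpr hgV
          exact h2 φ hφ
        exact fun φ hφ => hx φ (h1 φ hφ)
      · intro x hx
        show Re (pw V m) U _
        rw [re_pw]
        intro j
        exact (re_pw V (m + 1) x).mp hx j.castSucc
      · intro x hx
        obtain ⟨v, hv⟩ := hPJ R U hU (Fin m × ι) ι (fun p => g p.1 p.2) y x hx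
        refine ⟨fun s => Sum.elim x v (e' s), ?_, ?_⟩
        · show Re (pp (R := R) U t) U _
          rw [hkey]
          have h1 : (fun s => Sum.elim x v (e' s)) ∘ WGV_e m ι = Sum.elim x v := by
            have hinj : Function.Injective (WGV_e m ι) := by
              rintro (⟨a, i⟩ | i) (⟨b, j⟩ | j) h
              · have h3 : (a.castSucc, i) = (b.castSucc, j) := h
                rw [Prod.mk.injEq] at h3
                rw [Fin.castSucc_injective m h3.1, h3.2]
              · have h3 : (a.castSucc, i) = (Fin.last m, j) := h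
                rw [Prod.mk.injEq] at h3
                exact absurd h3.1 (Fin.castSucc_lt_last a).ne
              · have h3 : (Fin.last m, i) = (b.castSucc, j) := h
                rw [Prod.mk.injEq] at h3
                exact absurd h3.1.symm (Fin.castSucc_lt_last b).ne
              · have h3 : (Fin.last m, i) = (Fin.last m, j) := h
                rw [Prod.mk.injEq] at h3
                rw [h3.2]
            funext s
            show Sum.elim x v (e' (WGV_e m ι s)) = Sum.elim x v s
            exact congrArg (Sum.elim x v) (hinj (he' (WGV_e m ι s)))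
          rw [h1]
          exact hv
        · funext s
          show Sum.elim x v (e' (s.1.castSucc, s.2)) = x s
          have h4 : e' (s.1.castSucc, s.2) = Sum.inl s := by
            have h5 := he' (s.1.castSucc, s.2)
            rcases h6 : e' (s.1.castSucc, s.2) with a | i
            · rw [h6] at h5
              have h7 : (a.1.castSucc, a.2) = (s.1.castSucc, s.2) := h5
              rw [Prod.mk.injEq] at h7
              exact congrArg Sum.inl (Prod.ext (Fin.castSucc_injective m h7.1) h7.2)
            · rw [h6] at h5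
              have h7 : (Fin.last m, i) = (s.1.castSucc, s.2) := h5
              rw [Prod.mk.injEq] at h7
              exact absurd h7.1.symm (Fin.castSucc_lt_last s.1).ne
          rw [h4]
          rfl
      · intro h
        refine hy4 ?_
        have h8 : AddSubgroup.comap q (grp U (pp (R := R) U t)) =
            grp U (fib (R := R) U (fun p : Fin m × ι => g p.1 p.2) y) := by
          ext v
          show Re (pp (R := R) U t) U (q v) ↔ Re (fib (R := R) U _ y) U v
          rw [hkey]
          unfold fib
          rw [re_zer]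
          have h9 : q v ∘ WGV_e m ι = Sum.elim (0 : Fin m × ι → U) v := by
            funext s
            rcases s with a | i
            · show (if a.1.castSucc = Fin.last m then v a.2 else 0) = 0
              rw [if_neg (Fin.castSucc_lt_last a.1).ne]
            · show (if Fin.last m = Fin.last m then v i else 0) = v i
              rw [if_pos rfl]
          rw [h9]
        rw [← h8]
        exact h
      · intro x hx hpx
        refine ⟨fun i => x (Fin.last m, i), (re_pw V (m + 1) x).mp hx (Fin.last m), ?_⟩
        funext s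
        show (if s.1 = Fin.last m then x (Fin.last m, s.2) else 0) = x s
        by_cases h : s.1 = Fin.last m
        · rw [if_pos h, ← h]
        · rw [if_neg h]
          obtain ⟨j, hj⟩ := Fin.exists_castSucc_eq.mpr h
          have h10 : x (j.castSucc, s.2) = 0 := congrFun hpx (j, s.2)
          rw [hj] at h10
          exact h10.symm

end Pool.Agent.VMF
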