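import Pool.Agent.VMF.StW

/-!
# VMF, module WIM: images modulo `V ∧ ψ`
-/

set_option autoImplicit false
set_option linter.unusedSectionVars false
set_option linter.unusedVariables false

namespace Pool.Agent.VMF

open Set Pool.Agent.MVC Pool.Agent.MVC.Ax

section

variable {R : Type} [Ring R] {ι κ : Type} {U : Md R}

private theorem fin_sub {S S' : Set (PP R ι)} {ψ : PP R ι} (h : FIn U S {ψ})
    (hS : ∀ x : ι → U, Re S' U x → Re S U x) : FIn U S' {ψ} :=
  fun h0 => h (AddSubgroup.relIndex_eq_zero_of_le_right (fun x hx => hS x hx) h0)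

private theorem fin_ren {S : Set (PP R κ)} {S' : Set (PP R ι)} {ψ : PP R κ} (f : κ → ι)
    (h : FIn U S {ψ}) (hS : ∀ x : ι → U, Re S' U x → Re S U (x ∘ f)) : FIn U S' {ren f ψ} := by
  let r : (ι → U) →+ (κ → U) := { toFun := fun x => x ∘ f, map_zero' := rfl, map_add' := fun _ _ => rfl }
  have h1 : (grp U ({ψ} : Set (PP R κ))).comap r ≤ grp U {ren f ψ} := by
    intro x hx φ hφ
    rw [mem_singleton_iff] at hφ
    rw [hφ, sat_ren]
    exact hx ψ rfl
  have h2 : (grp U S').map r ≤ grp U S := by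
    rintro _ ⟨x, hx, rfl⟩
    exact hS x hx
  intro h0
  have h3 := AddSubgroup.relIndex_eq_zero_of_le_left h1 h0
  rw [AddSubgroup.relIndex_comap] at h3
  exact h (AddSubgroup.relIndex_eq_zero_of_le_right h2 h3)

end

/-- [WIM] -/
theorem thm_WIM (hON : St_WON) (hC6 : St_WC6) (hPU : St_WPU) : St_WIM := by
  intro R _ _ U hU hA n V W ψ N M hN hM hF h1 h2 h3 x hx
  obtain ⟨hfi, hFW⟩ := hF
  have pu : ∀ (L : Submodule R U), El U L → ∀ (ι : Type) [Finite ι] (S : Set (PP R ι))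
      (y : ι → L), Re S L y ↔ Re S U (fun i => (y i : U)) := fun L hL ι _ S y =>
    forall_congr' fun φ => imp_congr Iff.rfl (hPU R U hU L hL ι φ y)
  obtain ⟨hfull, hone⟩ := hON R U hU hA (Fin n) V
  have hxU := (pu M hM (Fin n) V x).mp hx
  obtain ⟨x₀, hx₀⟩ := h1 x hx
  have hd : Re (one U V) U ((fun i => (x i : U)) - fun i => (x₀ i : U)) := by
    have h4 := hx₀.neg
    rwa [neg_sub] at h4
  obtain ⟨u, hu1, hu2⟩ := hC6 R U hU N hN (Fin n) (one U V) ψ _ hfull hd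
    (fin_sub hfi fun y hy => hone y hy)
  -- `x₁`
  have e1 : (fun i => ((x₀ + u) i : U)) = (fun i => (x i : U)) -
      ((fun i => (x i : U)) - fun i => (x₀ i : U)) + fun i => (u i : U) := by
    funext i
    show (x₀ i : U) + (u i : U) = (x i : U) - ((x i : U) - (x₀ i : U)) + (u i : U)
    abel
  have hx₁ : Re V U (fun i => ((x₀ + u) i : U)) := by
    rw [e1]
    exact (hxU.sub (hone _ hd)).add (hone _ hu1)
  have e2 : ((fun i => (x i : U)) - fun i => ((x₀ + u) i : U)) =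
      ((fun i => (x i : U)) - fun i => (x₀ i : U)) - fun i => (u i : U) := by
    rw [e1]
    abel
  have hv1 : Re V U ((fun i => (x i : U)) - fun i => ((x₀ + u) i : U)) := by
    rw [e2]
    exact (hone _ hd).sub (hone _ hu1)
  have hp1 : Sat ψ U ((fun i => (x i : U)) - fun i => ((x₀ + u) i : U)) := by
    rw [e2]
    have h4 := hu2.neg
    rwa [neg_sub] at h4
  obtain ⟨z, hz⟩ := h3 (x₀ + u) ((pu N hN (Fin n) V _).mpr hx₁)
  -- the tuple `c₀`
  let c₀ : Fin n ⊕ Fin W.1 → N := Sum.elim (x₀ + u) z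
  have hSW : ∀ w : Fin n ⊕ Fin W.1 → U, Re (ren Sum.inl '' V ∪ W.2) U w ↔
      Re V U (w ∘ Sum.inl) ∧ Re W.2 U w := fun w => by rw [re_union, re_ren]
  have hc : Re (ren Sum.inl '' V ∪ W.2) U (fun i => (c₀ i : U)) :=
    (hSW _).mpr ⟨hx₁, (pu N hN _ W.2 _).mp hz⟩
  obtain ⟨c, hc1⟩ := h2 _ hc
  obtain ⟨hfull', hone'⟩ := hON R U hU hA (Fin n ⊕ Fin W.1) (ren Sum.inl '' V ∪ W.2)
  obtain ⟨v, hv2, hp2⟩ := hC6 R U hU M hM (Fin n ⊕ Fin W.1) (one U (ren Sum.inl '' V ∪ W.2))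
    (ren Sum.inl ψ) _ hfull' hc1 (fin_ren Sum.inl hfi fun y hy => ((hSW y).mp (hone' y hy)).1)
  -- `c₃ = c - v`
  have hw : Re (ren Sum.inl '' V ∪ W.2) U
      (((fun i => (c i : U)) - fun i => (c₀ i : U)) - fun i => (v i : U)) :=
    (hone' _ hc1).sub (hone' _ hv2)
  have e3 : (fun i => ((c - v) i : U)) = (fun i => (c₀ i : U)) +
      (((fun i => (c i : U)) - fun i => (c₀ i : U)) - fun i => (v i : U)) := by
    funext i
    show (c i : U) - (v i : U) = (c₀ i : U) +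
      (((c i : U) - (c₀ i : U)) - (v i : U))
    abel
  have hc3 : Re (ren Sum.inl '' V ∪ W.2) U (fun i => ((c - v) i : U)) := by
    rw [e3]
    exact hc.add hw
  have hx3 : Sat1 W M ((c - v) ∘ Sum.inl) := by
    refine ⟨(c - v) ∘ Sum.inr, ?_⟩
    have h4 : Sum.elim ((c - v) ∘ Sum.inl) ((c - v) ∘ Sum.inr) = c - v := by
      funext i
      cases i <;> rfl
    rw [h4]
    exact (pu M hM _ W.2 _).mpr ((hSW _).mp hc3).2
  have e4 : (fun i => ((x - (c - v) ∘ Sum.inl) i : U)) =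
      ((fun i => (x i : U)) - fun i => ((x₀ + u) i : U)) -
      ((((fun i => (c i : U)) - fun i => (c₀ i : U)) - fun i => (v i : U)) ∘
        Sum.inl) := by
    funext i
    show (x i : U) - ((c (Sum.inl i) : U) - (v (Sum.inl i) : U)) = ((x i : U) - ((x₀ i : U) + (u i : U))) -
      (((c (Sum.inl i) : U) - ((x₀ i : U) + (u i : U))) - (v (Sum.inl i) : U))
    abel
  have hp3 : Sat ψ U ((((fun i => (c i : U)) - fun i => (c₀ i : U)) -
      fun i => (v i : U)) ∘ Sum.inl) := by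
    have h4 := hp2.neg
    rw [neg_sub, sat_ren] at h4
    exact h4
  have h5 : Sat1 W M (x - (c - v) ∘ Sum.inl) := by
    refine hFW M hM _ ((pu M hM _ V _).mpr ?_) ((hPU R U hU M hM _ ψ _).mpr ?_)
    · rw [e4]
      exact hv1.sub ((hSW _).mp hw).1
    · rw [e4]
      exact hp1.sub hp3
  have h6 := h5.add hx3
  rwa [sub_add_cancel] at h6

end Pool.Agent.VMF
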