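import Pool.Agent.VMF.StW

/-!
# VMF, block W: projections of types of tuples
-/

set_option autoImplicit false
set_option linter.unusedSectionVars false
set_option linter.unusedVariables false

namespace Pool.Agent.VMF

open Set Pool.Agent.MVC Pool.Agent.MVC.Ax

theorem thm_WPJ (hSA : St_WSA) : St_WPJ := by
  intro R _ _ U hU κ ι _ _ c d x hx
  obtain ⟨y, hy, -⟩ := hSA R U hU κ ι x (pp (R := R) U (Sum.elim c d)) ∅ (by
    intro s t hs ht
    obtain ⟨χ, hχ⟩ := (isPP_finset (R := R) s).ex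
    have h1 : Sat χ U c := (hχ U c).1 ⟨d, fun φ hφ => hs hφ⟩
    obtain ⟨y, hy⟩ := (hχ U x).2 (hx χ h1)
    exact ⟨y, hy, fun φ hφ => (ht hφ).elim⟩)
  exact ⟨y, hy⟩

end Pool.Agent.VMF
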