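import Pool.Agent.VMF.StW

/-!
# VMF, block W, [WPP]

`(V^1)^m` is contained in `(V^m)^1`.
-/

set_option autoImplicit false
set_option linter.unusedSectionVars false
set_option linter.unusedVariables false

namespace Pool.Agent.VMF

open Set Pool.Agent.MVC Pool.Agent.MVC.Ax

private def WPP_emb (U : Type) [AddCommGroup U] {m : ℕ} {ι : Type} (j : Fin m) :
    (ι → U) →+ (Fin m × ι → U) where
  toFun := fun v p => if p.1 = j then v p.2 else 0
  map_zero' := by
    funext p
    simp
  map_add' := by
    intro v w
    funext p
    simp only [Pi.add_apply]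
    split_ifs
    · rfl
    · rw [add_zero]

theorem thm_WPP : St_WPP := by
  classical
  intro R _ _ U hM ι _ V m x hx ψ hψ
  obtain ⟨h1, h2⟩ := hψ
  have key : ∀ j : Fin m, Sat ψ U (WPP_emb U j fun i => x (j, i)) := by
    intro j
    obtain ⟨ψj, hψj⟩ := (isPP_sat (R := R) ψ).subst (ι := ι)
      (fun p : Fin m × ι => if p.1 = j then Finsupp.single p.2 (1 : R) else 0)
    have hψj' : ∀ v : ι → U, Sat ψj U v ↔ Sat ψ U (WPP_emb U j v) := by
      intro v
      refine (hψj U v).symm.trans ?_
      have e : (fun p : Fin m × ι => Finsupp.linearCombination R v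
          (if p.1 = j then Finsupp.single p.2 (1 : R) else 0)) = WPP_emb U j v := by
        funext p
        show _ = if p.1 = j then v p.2 else 0
        split_ifs
        · rw [Finsupp.linearCombination_single, one_smul]
        · rw [map_zero]
      show Sat ψ U (fun p : Fin m × ι => Finsupp.linearCombination R v
          (if p.1 = j then Finsupp.single p.2 (1 : R) else 0)) ↔ _
      rw [e]
    have hmap : (grp U V).map (WPP_emb U j) ≤ grp U (pw V m) := by
      rintro _ ⟨v, hv, rfl⟩
      rw [mem_grp, re_pw]
      intro k
      show Re V U fun i => if k = j then v i else 0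
      by_cases hk : k = j
      · simp only [if_pos hk]
        exact hv
      · simp only [if_neg hk]
        exact Re.zero V
    have hg : grp U ({ψj} : Set (PP R ι)) = (grp U {ψ}).comap (WPP_emb U j) := by
      ext v
      show Re {ψj} U v ↔ Re {ψ} U (WPP_emb U j v)
      constructor
      · intro h φ hφ
        rw [mem_singleton_iff.mp hφ]
        exact (hψj' v).1 (h ψj rfl)
      · intro h φ hφ
        rw [mem_singleton_iff.mp hφ]
        exact (hψj' v).2 (h ψ rfl)
    have hF : FIn U V {ψj} := by
      unfold FIn
      rw [hg, AddSubgroup.relIndex_comap]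
      exact fun h0 => h1 (AddSubgroup.relIndex_eq_zero_of_le_right hmap h0)
    have hP : PIn U V {ψj} := by
      intro χ hχ v hv φ hφ
      rw [mem_singleton_iff.mp hφ, hψj']
      obtain ⟨χ', hχ'⟩ := ((isPP_sat (R := R) χ).comap (ι := Fin m × ι) (fun i => (j, i))).and
        ((isPP_zero (R := R) (ι := {p : Fin m × ι // p.1 ≠ j})).comap Subtype.val)
      refine h2 χ' ?_ _ ((hχ' U _).1 ⟨?_, ?_⟩) ψ rfl
      · intro y hy
        rw [← hχ' U y] at hy
        rw [re_pw]
        intro k
        by_cases hk : k = j
        · subst hk
          exact hχ _ hy.1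
        · have e : (fun i => y (k, i)) = 0 := by
            funext i
            exact congrFun hy.2 ⟨(k, i), hk⟩
          rw [e]
          exact Re.zero V
      · have e : (WPP_emb U j v ∘ fun i => (j, i)) = v := by
          funext i
          exact if_pos rfl
        rw [e]
        exact hv
      · funext p
        exact if_neg p.2
    exact (hψj' _).1 (hx j ψj ⟨hF, hP⟩)
  have e : x = ∑ j : Fin m, WPP_emb U j fun i => x (j, i) := by
    funext p
    rw [Finset.sum_apply]
    show x p = ∑ j : Fin m, if p.1 = j then x (j, p.2) else 0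
    rw [Finset.sum_ite_eq]
    simp
  have h3 : x ∈ grp U ({ψ} : Set (PP R (Fin m × ι))) := by
    rw [e]
    refine AddSubgroup.sum_mem _ fun j _ => ?_
    intro φ hφ
    rw [mem_singleton_iff.mp hφ]
    exact key j
  exact h3 ψ rfl

end Pool.Agent.VMF
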