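import Pool.Agent.VMF.StW

/-!
# VMF, WRD: reduction of `T1F (KU R U)` to types (helper16)
-/

set_option autoImplicit false
set_option linter.unusedSectionVars false
set_option linter.unusedVariables false

namespace Pool.Agent.VMF

open Set Pool.Agent.MVC Pool.Agent.MVC.Ax

private theorem WRD_ex {R : Type} [Ring R] {ι κ : Type} (V : Set (PP R κ)) (f : ι → κ)
    (W : L1 R ι) : ∃ W' : L1 R κ, ∀ (M : Type) [AddCommGroup M] [Module R M] (x : κ → M),
      Sat1 W' M x ↔ (Re V M x ∧ Sat1 W M (x ∘ f)) := by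
  obtain ⟨W', h⟩ := (isL0_re V).and ((isL0_sat1 W).comap f)
  exact ⟨W', fun M _ _ x => (h M x).symm⟩

theorem thm_WRD (hCR : St_WCR) (hEK : St_WEK) : St_WRD := by
  intro R _ _ U hU hco n D W h1 h2 h3
  obtain ⟨hK1, hK2⟩ := hEK R U hU
  let e : Fin n ⊕ Fin D.1 ≃ Fin (n + D.1) := finSumFinEquiv
  let V : Set (PP R (Fin (n + D.1))) := ren e '' D.2
  have hV : ∀ (M : Type) [AddCommGroup M] [Module R M] (x : Fin (n + D.1) → M),
      Re V M x ↔ Re D.2 M (x ∘ e) := fun M _ _ x => re_ren e D.2 x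
  let f : Fin n → Fin (n + D.1) := fun i => e (Sum.inl i)
  choose W' hW' using fun i : ℕ => WRD_ex V f (W i)
  have hsplit : ∀ (M : Type) (x : Fin (n + D.1) → M), x ∘ e =
      Sum.elim (x ∘ f) (fun j => x (e (Sum.inr j))) := by
    intro M x
    funext i
    cases i <;> rfl
  have hje : ∀ (M : Type) (x : Fin n → M) (t : Fin D.1 → M),
      (Sum.elim x t ∘ e.symm) ∘ e = Sum.elim x t := by
    intro M x t
    funext i
    exact congrArg (Sum.elim x t) (e.symm_apply_apply i)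
  have hjf : ∀ (M : Type) (x : Fin n → M) (t : Fin D.1 → M),
      (Sum.elim x t ∘ e.symm) ∘ f = x := by
    intro M x t
    funext i
    exact congrArg (Sum.elim x t) (e.symm_apply_apply (Sum.inl i))
  refine hco (n + D.1) V W' ⟨?_, ?_, ?_⟩
  · intro i M hM x hx
    exact ((hW' i M x).1 hx).1
  · intro i
    have h4 := h2 i
    unfold Kl.Le1 at h4
    push Not at h4
    obtain ⟨M, _, _, hc, hM, x, hx, hnx⟩ := h4
    obtain ⟨N, hN, ⟨g⟩⟩ := hK2 M hc hM
    obtain ⟨t, ht⟩ := hx.map (g : M →ₗ[R] N)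
    refine ⟨N, hN, Sum.elim ((g : M →ₗ[R] N) ∘ x) t ∘ e.symm, ?_, ?_⟩
    · rw [hV, hje]
      exact ht
    · intro h5
      have h6 := ((hW' i N _).1 h5).2
      rw [hjf] at h6
      have h7 := h6.map (g.symm : N →ₗ[R] M)
      have h8 : (g.symm : N →ₗ[R] M) ∘ ((g : M →ₗ[R] N) ∘ x) = x := by
        funext j
        exact g.symm_apply_apply (x j)
      rw [h8] at h7
      exact hnx h7
  · intro M hM A c hc
    obtain ⟨hMc, hMK⟩ := hK1 M hM
    let G : AddSubgroup (Fin (n + D.1) → M) := grp M V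
    let H : ℕ → AddSubgroup G := fun i => (sat1Group (W' i) M).comap G.subtype
    have h4 : ∀ i (x : G), ∃ w ∈ H i, ∀ l < i, x - w ∈ H l := by
      rintro i ⟨x, hx⟩
      have hxV : Re V M x := hx
      have h5 : Re D.2 M (Sum.elim (x ∘ f) (fun j => x (e (Sum.inr j)))) := by
        rw [← hsplit]
        exact (hV M x).1 hxV
      obtain ⟨w, hw, hwl⟩ := h3 i M hMc hMK (x ∘ f) ⟨_, h5⟩
      obtain ⟨t, ht⟩ := h1 i M hMc hMK w hw
      have hy : Re V M (Sum.elim w t ∘ e.symm) := by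
        rw [hV, hje]
        exact ht
      refine ⟨⟨Sum.elim w t ∘ e.symm, hy⟩, ?_, ?_⟩
      · show Sat1 (W' i) M (Sum.elim w t ∘ e.symm)
        rw [hW']
        refine ⟨hy, ?_⟩
        rw [hjf]
        exact hw
      · intro l hl
        show Sat1 (W' l) M (x - Sum.elim w t ∘ e.symm)
        rw [hW']
        refine ⟨Re.sub hxV hy, ?_⟩
        have h6 : (x - Sum.elim w t ∘ e.symm) ∘ f = x ∘ f - w := by
          have h7 : x ∘ f - (Sum.elim w t ∘ e.symm) ∘ f = x ∘ f - w :=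
            congrArg (fun z => x ∘ f - z) (hjf M w t)
          exact h7
        rw [h6]
        exact hwl l hl
    obtain ⟨x, hx⟩ := hCR G H h4 A (fun i => ⟨c i, hc i⟩)
    exact ⟨x.1, x.2, fun i hi => hx i hi⟩

end Pool.Agent.VMF
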