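import Pool.Agent.VMF.StW

/-!
# VMF, block W, [WRV] (helper80)

Variant of (R): the blocks of a generic tuple are congruent to points of the model.
-/

set_option autoImplicit false

namespace Pool.Agent.VMF

open Set Pool.Agent.MVC Pool.Agent.MVC.Ax

theorem thm_WRV (hON : St_WON) (hC6 : St_WC6) (hFC : St_WFC) (hOP : St_WOP) (hPP : St_WPP) :
    St_WRV := by
  intro R _ _ U hM hA ι _ V m g hg hF M hEl hRz
  choose y hy using hRz
  have hfull := hON R U hM hA (Fin m × ι) (pw V m)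
  have hd : Re (one U (pw V m)) U
      ((fun p : Fin m × ι => (y p.1 p.2 : U)) - fun p => g p.1 p.2) := by
    apply hPP R U hM ι V m
    intro j
    exact hy j
  obtain ⟨ψ, hψ1, -, hψ2⟩ := hFC R U (Fin m × ι) (pw V m)
    (pp (R := R) U (fun p : Fin m × ι => g p.1 p.2)) hF
  have hle : grp U (one U (pw V m)) ≤ grp U (pw V m) := fun x hx => hfull.2 x hx
  have hψ3 : FIn U (one U (pw V m)) {ψ} := fun h0 =>
    hψ1 (AddSubgroup.relIndex_eq_zero_of_le_right hle h0)
  obtain ⟨u, hu1, hu2⟩ := hC6 R U hM M hEl (Fin m × ι) (one U (pw V m)) ψ _ hfull.1 hd hψ3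
  have hsub : ∀ x : Fin m × ι → U,
      Re (pp (R := R) U (fun p : Fin m × ι => g p.1 p.2)) U x → Re (pw V m) U x := by
    intro x hx φ hφ
    refine hx φ ?_
    exact (re_pw V m (fun p : Fin m × ι => g p.1 p.2)).2 hg φ hφ
  refine ⟨fun p => y p.1 p.2 - u p, ?_⟩
  have he : ((fun p : Fin m × ι => ((y p.1 p.2 - u p : M) : U)) - fun p => g p.1 p.2) =
      ((fun p : Fin m × ι => (y p.1 p.2 : U)) - fun p => g p.1 p.2) - fun p => (u p : U) := by
    funext p
    simp only [Pi.sub_apply, Submodule.coe_sub]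
    abel
  rw [he]
  have h1 := Re.sub hd hu1
  have h2 := Sat.neg hu2
  rw [neg_sub] at h2
  exact hOP R U hM (Fin m × ι) (pw V m) _ hF hsub _ (hψ2 _ (hfull.2 _ h1) h2) h1

end Pool.Agent.VMF
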