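import Pool.Agent.VMF.ADW
import Pool.Agent.VMF.AllQ
import Pool.Agent.VMF.TLA
import Pool.Agent.VMF.W2A
import Pool.Agent.VMF.W2B
import Pool.Agent.VMF.WAS
import Pool.Agent.VMF.WC0
import Pool.Agent.VMF.WC1
import Pool.Agent.VMF.WCR
import Pool.Agent.VMF.WFC
import Pool.Agent.VMF.WG4
import Pool.Agent.VMF.WGS
import Pool.Agent.VMF.WGV
import Pool.Agent.VMF.WIM
import Pool.Agent.VMF.WIN
import Pool.Agent.VMF.WIS
import Pool.Agent.VMF.WIX
import Pool.Agent.VMF.WLB
import Pool.Agent.VMF.WOP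
import Pool.Agent.VMF.WPJ
import Pool.Agent.VMF.WPP
import Pool.Agent.VMF.WRD
import Pool.Agent.VMF.WRR
import Pool.Agent.VMF.WRV
import Pool.Agent.VMF.WSB

/-!
# VMF, block W: assembly. `T1F (KU R U)` from Claim A and few types (helper22)
-/

set_option autoImplicit false

namespace Pool.Agent.VMF

theorem thm_WALL : St_WAS := by
  have hPU := thm_WPU
  have hSA := thm_WSA
  have hFC := thm_WFC
  have hON := thm_WON
  have hPJ := thm_WPJ hSA
  have hGV := thm_WGV thm_WG4 hPJ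
  have hGS := thm_WGS thm_WG4 hPJ
  have hPR := thm_WPR prm_T
  have hTL := thm_WTL tli_T
  have hC5 := thm_WC5 all_COS
  have hC6 := thm_WC6 all_TF6
  have hKI := thm_WKI all_KIL
  have hLB := thm_WLB hGV hPR hPU hFC
  have hIX := thm_WIX hPU
  have hC1 := thm_WC1 hGS hTL hPU hIX hLB thm_WEK
  have hOP := thm_WOP hSA hFC
  have hRR := thm_WRR hPU hON hKI
  have hRV := thm_WRV hON hC6 hFC hOP thm_WPP
  have hIM := thm_WIM hON hC6 hPU
  have h2A := thm_W2A hGV hPR hRV hRR hIM hPU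
  have hIN := thm_WIN hC5 hPU
  have hIS := thm_WIS hSA thm_WHO
  have h2B := thm_W2B hIN hIS hPU
  exact thm_WAS (thm_WRD thm_WCR thm_WEK) thm_WSB (thm_WC0 hSA hPU) hC1 h2A h2B

end Pool.Agent.VMF
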