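import Pool.Agent.VMF.ALLM
import Pool.Agent.VMF.AllC
import Pool.Agent.VMF.WALL

/-!
# VMF: Vaught's conjecture for all theories of modules over all countable rings

`all_MAINM : St_MAINM`: for each countable ring `R` and each theory `T` of `R`-modules, the models of `T`
on `ℕ` fall into countably many or perfectly many isomorphism classes.
-/

set_option autoImplicit false
set_option linter.unusedSectionVars false
set_option linter.unusedVariables false

namespace Pool.Agent.VMF

open Set Pool.Agent.MVC Pool.Agent.MVC.Ax

/-- one full module, chain condition -/
theorem all_FTU : St_FTU := thm_FTU all_GNT all_TB all_QB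

/-- no infinite coindependent sequences -/
theorem all_T1U : St_T1U := thm_T1U cla_T thm_WALL

/-- every tuple is exact for a level-one formula -/
theorem all_UMLU : St_UMLU := thm_UMLU cla_T all_FTU all_UMT

/-- the theorem for the countable saturated module -/
theorem all_CU : St_CU := thm_CU all_T1U all_UMLU

/-- **Vaught's conjecture for all theories of modules over all countable rings.** -/
theorem all_MAINM : St_MAINM := thm_MAINM all_T1U all_UMLU

end Pool.Agent.VMF
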