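import Pool.Agent.VMF.StD

/-!
# VMF, block D: one fact over another (5.5) (helper47)
-/

set_option autoImplicit false
set_option linter.unusedSectionVars false
set_option linter.unusedVariables false

namespace Pool.Agent.VMF

open Set Pool.Agent.MVC Pool.Agent.MVC.Ax

section

variable {R : Type} [Ring R] {ι κ l : Type}

/-- the formula `θ(0, u, y)` -/
private noncomputable def EXA_th (θ : PP R ((ι ⊕ κ) ⊕ l)) : PP R (κ ⊕ l) :=
  zer (ren (Equiv.sumAssoc ι κ l) θ)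

private theorem EXA_sat_th (θ : PP R ((ι ⊕ κ) ⊕ l)) (M : Type) [AddCommGroup M] [Module R M]
    (u : κ → M) (y : l → M) :
    Sat (EXA_th θ) M (Sum.elim u y) ↔ Sat θ M (Sum.elim (Sum.elim 0 u) y) := by
  unfold EXA_th
  rw [sat_zer, sat_ren]
  have h : (Sum.elim (0 : ι → M) (Sum.elim u y)) ∘ (Equiv.sumAssoc ι κ l) =
      Sum.elim (Sum.elim (0 : ι → M) u) y := by
    funext i
    rcases i with (i | i) | i <;> rfl
  rw [h]

/-- the formula `∃ y θ(x, y)` -/
private theorem EXA_ex {A : Type} [Finite l] (θ : PP R (A ⊕ l)) : ∃ θE : PP R A,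
    ∀ (M : Type) [AddCommGroup M] [Module R M] (x : A → M), Sat θE M x ↔
      ∃ y : l → M, Sat θ M (Sum.elim x y) := by
  obtain ⟨θE, h⟩ := (isPP_sat θ).ex
  exact ⟨θE, fun M _ _ x => (h M x).symm⟩

/-- finitely many eventual properties -/
private theorem EXA_fin {A : Type} (P : A → ℕ → Prop) (s : Finset A)
    (h : ∀ a ∈ s, ∃ n, ∀ m ≥ n, P a m) : ∃ n, ∀ m ≥ n, ∀ a ∈ s, P a m := by
  classical
  induction s using Finset.induction_on with
  | empty => exact ⟨0, fun m _ a ha => absurd ha (Finset.notMem_empty a)⟩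
  | insert b s hb ih =>
    obtain ⟨n, hn⟩ := ih fun a ha => h a (Finset.mem_insert_of_mem ha)
    obtain ⟨k, hk⟩ := h b (Finset.mem_insert_self b s)
    refine ⟨max n k, fun m hm a ha => ?_⟩
    rcases Finset.mem_insert.mp ha with rfl | ha
    · exact hk m (le_trans (le_max_right n k) hm)
    · exact hn m (le_trans (le_max_left n k) hm) a ha

private theorem EXA_sub3 {M : Type} [AddCommGroup M] {A B C : Type} (x : A → M) (s s' : B → M)
    (t t' : C → M) : Sum.elim (Sum.elim x s) t - Sum.elim (Sum.elim x s') t' =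
      Sum.elim (Sum.elim (0 : A → M) (s - s')) (t - t') := by
  funext i
  rcases i with (i | i) | i
  · exact sub_self _
  · rfl
  · rfl

private theorem EXA_own (U : Md R) : (Own R U).In U := fun a ha x h => ha x h

end

theorem thm_EXA (h1 : St_KIL) (h2 : St_ENU) (h3 : St_AMP) (h4 : St_DLX) (h5 : St_EXP)
    (h6 : MVC.St_EX0) (h7 : MVC.St_MIS) : St_EXA := by
  intro R _ _ U hU ι κ l _ _ _ a t ψW NW gW b θ V ψ N g hFW hNW hG hF hP hN
  set W : Set (PP R (ι ⊕ κ)) := pp U (Sum.elim a t) with hW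
  obtain ⟨θE, hθE⟩ := EXA_ex θ
  have hEW : θE ∈ W := (hθE U _).2 ⟨b, hG.1⟩
  -- the key implication in `U`
  have k1 : ∀ (u : κ → U) (y : l → U), Re (zer '' W ∪ {ψW}) U u →
      Sat (EXA_th θ) U (Sum.elim u y) → Re (zer '' V) U y := by
    intro u y hu hy
    rw [EXA_sat_th] at hy
    rw [re_union, re_zer] at hu
    rw [re_zer]
    intro φ hφ
    have e1 : Sat (ren (Sum.map Sum.inl id) φ : PP R ((ι ⊕ κ) ⊕ l)) U
        (Sum.elim (Sum.elim a t) b) := by
      rw [sat_ren]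
      have e2 : (Sum.elim (Sum.elim a t) b) ∘ (Sum.map Sum.inl id : ι ⊕ l → (ι ⊕ κ) ⊕ l) =
          Sum.elim a b := by
        funext i
        rcases i with i | i <;> rfl
      rw [e2]
      exact hF.re φ hφ
    obtain ⟨s, hs, hs'⟩ := hG.2 _ e1
    have e3 := hs' U (EXA_own U) (Sum.elim 0 u) y (fun χ hχ => hu.1 χ (hs hχ)) hy
    rw [sat_ren] at e3
    have e4 : (Sum.elim (Sum.elim (0 : ι → U) u) y) ∘
        (Sum.map Sum.inl id : ι ⊕ l → (ι ⊕ κ) ⊕ l) = Sum.elim (0 : ι → U) y := by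
      funext i
      rcases i with i | i <;> rfl
    rwa [e4] at e3
  have k2 : ∀ (u : κ → U) (y : l → U), Re (zer '' W ∪ {ψW}) U u →
      Sat (EXA_th θ) U (Sum.elim u y) → Sat ψ U y := by
    refine h1 R U hU κ l (zer '' W ∪ {ψW}) (EXA_th θ) (zer '' V) ψ hFW.full hF.fi hP ?_ k1
    intro u hu
    rw [re_union, re_zer] at hu
    obtain ⟨y, hy⟩ := (hθE U _).1 (hu.1 θE hEW)
    exact ⟨y, (EXA_sat_th θ U u y).2 hy⟩
  -- the entailment in the class
  have k3 : ∀ φ ∈ zer '' V ∪ {ψ}, (Own R U).Ent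
      (ren Sum.inl '' (zer '' W ∪ {ψW}) ∪ {EXA_th θ}) (ren Sum.inr φ) := by
    intro φ hφ
    refine h2 R U hU (κ ⊕ l) _ _ (fun x hx => ?_)
    rw [re_union, re_ren] at hx
    have e1 : x = Sum.elim (x ∘ Sum.inl) (x ∘ Sum.inr) := (Sum.elim_comp_inl_inr x).symm
    have e2 := hx.2 (EXA_th θ) rfl
    rw [e1] at e2
    rw [sat_ren]
    rcases hφ with hφ | hφ
    · exact k1 _ _ hx.1 e2 φ hφ
    · rw [mem_singleton_iff] at hφ
      rw [hφ]
      exact k2 _ _ hx.1 e2
  have k4 : ∀ (M : Type) [AddCommGroup M] [Module R M], (Own R U).In M → ∀ (u : κ → M)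
      (y : l → M), Re (zer '' W ∪ {ψW}) M u → Sat θ M (Sum.elim (Sum.elim 0 u) y) →
      Re (zer '' V ∪ {ψ}) M y := by
    intro M _ _ hM u y hu hy φ hφ
    have e1 := (k3 φ hφ).sat hM (x := Sum.elim u y) (by
      rw [re_union, re_ren]
      refine ⟨hu, ?_⟩
      intro χ hχ
      rw [mem_singleton_iff] at hχ
      rw [hχ]
      exact (EXA_sat_th θ M u y).2 hy)
    rw [sat_ren] at e1
    exact e1
  -- the map
  have hgW : Re W NW (Sum.elim 0 gW) := by
    have := hNW.sat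
    rw [re_union, re_zer] at this
    exact this.1
  obtain ⟨β, hβ⟩ := (hθE NW _).1 (hgW θE hEW)
  obtain ⟨μ, hμ⟩ := h6 R (Own R U) l (zer '' V ∪ {ψ}) N NW g β hN hNW.mem
    (k4 NW hNW.mem gW β hNW.sat hβ)
  refine ⟨μ, ?_⟩
  rintro p e e' he ⟨T, F, hT, hTψ, hF', rfl⟩
  obtain ⟨hpI, hpc, hpi, hpp⟩ := h3 R U hU ι a p
  choose a' ha' using p.2.2.2
  obtain ⟨m₁, hm₁⟩ := hT θE hEW
  -- choice of `B`
  have hB : ∀ m, ∃ B : l → p.1.1, m ≥ m₁ →
      Sat θ p.1.1 (Sum.elim (Sum.elim a' (fun i => T i m)) B) := by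
    intro m
    by_cases hm : m ≥ m₁
    · have e1 := hm₁ m hm
      have e2 : (Sum.elim a (fun i => p.1.2 (T i m))) =
          fun i => p.1.2 (Sum.elim a' (fun i => T i m) i) := by
        funext i
        rcases i with i | i
        · exact (ha' i).symm
        · rfl
      rw [e2, hpp] at e1
      obtain ⟨B, hB⟩ := (hθE _ _).1 e1
      exact ⟨B, fun _ => hB⟩
    · exact ⟨0, fun h => absurd h hm⟩
  choose B' hB' using hB
  have hBU : ∀ m ≥ m₁, Sat θ U (Sum.elim (Sum.elim a (fun i => p.1.2 (T i m)))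
      (fun i => p.1.2 (B' m i))) := by
    intro m hm
    have e1 := (hB' m hm).map p.1.2
    rw [Sum.comp_elim, Sum.comp_elim] at e1
    have e2 : p.1.2 ∘ a' = a := funext ha'
    rw [e2] at e1
    exact e1
  -- `B` is a sequence for `(V, ψ, b)`
  have hB1 : ∀ φ ∈ V, ∃ m₀, ∀ m ≥ m₀,
      Sat φ U (Sum.elim a (fun i => p.1.2 (B' m i))) := by
    intro φ hφ
    have e1 : Sat (ren (Sum.map Sum.inl id) φ : PP R ((ι ⊕ κ) ⊕ l)) U
        (Sum.elim (Sum.elim a t) b) := by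
      rw [sat_ren]
      have e2 : (Sum.elim (Sum.elim a t) b) ∘ (Sum.map Sum.inl id : ι ⊕ l → (ι ⊕ κ) ⊕ l) =
          Sum.elim a b := by
        funext i
        rcases i with i | i <;> rfl
      rw [e2]
      exact hF.re φ hφ
    obtain ⟨s, hs, hs'⟩ := hG.2 _ e1
    obtain ⟨m₂, hm₂⟩ := EXA_fin (fun χ m => Sat χ U (Sum.elim a (fun i => p.1.2 (T i m)))) s
      (fun χ hχ => hT χ (hs hχ))
    refine ⟨max m₁ m₂, fun m hm => ?_⟩
    have e3 := hs' U (EXA_own U) _ _ (hm₂ m (le_trans (le_max_right _ _) hm))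
      (hBU m (le_trans (le_max_left _ _) hm))
    rw [sat_ren] at e3
    have e4 : (Sum.elim (Sum.elim a (fun i => p.1.2 (T i m))) (fun i => p.1.2 (B' m i))) ∘
        (Sum.map Sum.inl id : ι ⊕ l → (ι ⊕ κ) ⊕ l) =
        Sum.elim a (fun i => p.1.2 (B' m i)) := by
      funext i
      rcases i with i | i <;> rfl
    rwa [e4] at e3
  have hB2 : ∃ m₀, ∀ m ≥ m₀, Sat ψ U ((fun i => p.1.2 (B' m i)) - b) := by
    obtain ⟨s, hs, hs'⟩ := k3 ψ (Or.inr rfl)
    obtain ⟨m₂, hm₂⟩ := EXA_fin (fun χ m => m ≥ m₁ → Sat χ U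
      (Sum.elim ((fun i => p.1.2 (T i m)) - t) ((fun i => p.1.2 (B' m i)) - b))) s (by
      intro χ hχ
      rcases hs hχ with ⟨χ', hχ', rfl⟩ | hχ
      · rcases hχ' with ⟨w, hw, rfl⟩ | hχ'
        · obtain ⟨m₀, hm₀⟩ := hT w hw
          refine ⟨m₀, fun m hm _ => ?_⟩
          rw [sat_ren, Sum.elim_comp_inl, sat_zer]
          have e1 := (hm₀ m hm).sub (show Sat w U (Sum.elim a t) from hw)
          rw [← elim_sub, sub_self] at e1
          exact e1
        · rw [mem_singleton_iff] at hχ'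
          rw [hχ']
          obtain ⟨m₀, hm₀⟩ := hTψ
          refine ⟨m₀, fun m hm _ => ?_⟩
          rw [sat_ren, Sum.elim_comp_inl]
          exact hm₀ m hm
      · rw [mem_singleton_iff] at hχ
        rw [hχ]
        refine ⟨0, fun m _ hm => ?_⟩
        rw [EXA_sat_th]
        have e1 := (hBU m hm).sub hG.1
        rw [EXA_sub3] at e1
        exact e1)
    refine ⟨max m₁ m₂, fun m hm => ?_⟩
    have e1 := hs' U (EXA_own U) _ (fun χ hχ => hm₂ m (le_trans (le_max_right _ _) hm) χ hχ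
      (le_trans (le_max_left _ _) hm))
    rw [sat_ren, Sum.elim_comp_inr] at e1
    exact e1
  -- the map of `B`
  have hMI : (Own R U).In (MI p.1.1) := (h7 R p.1.1).2 _ hpI
  have hθd : Sat θ (MI p.1.1) (Sum.elim (Sum.elim 0
      (fun i => MI.mk p.1.1 (fun m => T i (m + 1)) - MI.mk p.1.1 (T i)))
      (fun i => MI.mk p.1.1 (fun m => B' (m + 1) i) - MI.mk p.1.1 (fun m => B' m i))) := by
    have e1 : (Sum.elim (Sum.elim (0 : ι → MI p.1.1)
        (fun i => MI.mk p.1.1 (fun m => T i (m + 1)) - MI.mk p.1.1 (T i)))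
        (fun i => MI.mk p.1.1 (fun m => B' (m + 1) i) - MI.mk p.1.1 (fun m => B' m i))) =
        fun i => MI.mk p.1.1 ((Sum.elim (Sum.elim (fun (_ : ι) (_ : ℕ) => (0 : p.1.1))
          (fun i m => T i (m + 1) - T i m)) (fun i m => B' (m + 1) i - B' m i) :
          (ι ⊕ κ) ⊕ l → ℕ → p.1.1) i) := by
      funext i
      rcases i with (i | i) | i
      · exact (map_zero (MI.mk p.1.1)).symm
      · exact (map_sub (MI.mk p.1.1) _ _).symm
      · exact (map_sub (MI.mk p.1.1) _ _).symm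
    rw [e1, (h7 R p.1.1).1]
    refine ⟨m₁, fun m hm => ?_⟩
    have e2 := (hB' (m + 1) (le_trans hm (Nat.le_succ m))).sub (hB' m hm)
    rw [EXA_sub3] at e2
    have e3 : (fun i => (Sum.elim (Sum.elim (fun (_ : ι) (_ : ℕ) => (0 : p.1.1))
          (fun i m => T i (m + 1) - T i m)) (fun i m => B' (m + 1) i - B' m i) :
          (ι ⊕ κ) ⊕ l → ℕ → p.1.1) i m) = Sum.elim (Sum.elim (0 : ι → p.1.1)
          ((fun i => T i (m + 1)) - (fun i => T i m))) (B' (m + 1) - B' m) := by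
      funext i
      rcases i with (i | i) | i <;> rfl
    rw [e3]
    exact e2
  have hTr : Re (zer '' W ∪ {ψW}) (MI p.1.1)
      (fun i => MI.mk p.1.1 (fun m => T i (m + 1)) - MI.mk p.1.1 (T i)) := by
    have e1 := hNW.sat.map F
    have e2 : F ∘ gW = fun i => MI.mk p.1.1 (fun m => T i (m + 1)) - MI.mk p.1.1 (T i) :=
      funext hF'
    rwa [e2] at e1
  obtain ⟨h', hh'⟩ := h6 R (Own R U) l (zer '' V ∪ {ψ}) N (MI p.1.1) g
    (fun i => MI.mk p.1.1 (fun m => B' (m + 1) i) - MI.mk p.1.1 (fun m => B' m i)) hN hMI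
    (k4 (MI p.1.1) hMI _ _ hTr hθd)
  have hD : IsDelF U a V ψ b N g p ((Own R U).exMk N p.1.1 h') :=
    ⟨fun i m => B' m i, h', hB1, hB2, fun i => hh' i, rfl⟩
  rw [(h4 R U hU ι l a V ψ b N g p hF.re hF.fi hN).2.1 e _ he hD]
  rw [exMap_mk, ← sub_eq_zero, ← map_sub]
  refine h5 R (Own R U) l (zer '' V ∪ {ψ}) N p.1.1 g _ hN ?_
  -- the formula `θ(0, 0, y)`
  refine ⟨zer (EXA_th θ), ?_, ?_⟩
  · intro φ hφ M _ _ hM y hy
    rw [sat_zer, EXA_sat_th] at hy
    exact k4 M hM 0 y (Re.zero _) hy φ hφ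
  · rw [sat_zer, EXA_sat_th]
    have e1 := hβ.map F
    rw [Sum.comp_elim, Sum.comp_elim] at e1
    have e2 : F ∘ gW = fun i => MI.mk p.1.1 (fun m => T i (m + 1)) - MI.mk p.1.1 (T i) :=
      funext hF'
    rw [e2] at e1
    have e3 := hθd.sub e1
    have e4 : Sum.elim (Sum.elim (0 : ι → MI p.1.1)
        (fun i => MI.mk p.1.1 (fun m => T i (m + 1)) - MI.mk p.1.1 (T i)))
        (fun i => MI.mk p.1.1 (fun m => B' (m + 1) i) - MI.mk p.1.1 (fun m => B' m i)) -
        Sum.elim (Sum.elim (F ∘ 0)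
        (fun i => MI.mk p.1.1 (fun m => T i (m + 1)) - MI.mk p.1.1 (T i))) (F ∘ β) =
        Sum.elim (Sum.elim (0 : ι → MI p.1.1) (0 : κ → MI p.1.1))
          (fun i => (h' - F ∘ₗ μ) (g i)) := by
      funext i
      rcases i with (i | i) | i
      · show (0 : MI p.1.1) - F 0 = 0
        rw [map_zero, sub_zero]
      · exact sub_self (MI.mk p.1.1 (fun m => T i (m + 1)) - MI.mk p.1.1 (T i))
      · show _ - F (β i) = h' (g i) - F (μ (g i))
        rw [hh' i, hμ i]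
        rfl
    rw [e4] at e3
    exact e3

end Pool.Agent.VMF
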