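import Pool.Agent.VMF.StD
import Pool.Agent.MVC.NULM

/-!
# VMF: EXP
-/

set_option autoImplicit false

namespace Pool.Agent.VMF

open Pool.Agent.MVC

theorem thm_EXP : St_EXP := by
  intro R _ _ X κ _ S N M g f hN hP
  exact (exMk_eq_zero X N M f).mpr ⟨0, f, thm_NUP R X κ S N (MI M) g f hN hP, by simp⟩

end Pool.Agent.VMF
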