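import Pool.Agent.VMF.StD

/-!
# VMF, module FEX: every tuple has a decorated fact over every type (Claim A), helper88
-/

set_option autoImplicit false
set_option linter.unusedSectionVars false
set_option linter.unusedVariables false

namespace Pool.Agent.VMF

open Set Pool.Agent.MVC Pool.Agent.MVC.Ax

section

variable {R : Type} [Ring R] {κ : Type}

/-- the conjunction of two formulas -/
private theorem FEX_and (U : Type) [AddCommGroup U] [Module R U] (φ ψ : PP R κ) :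
    ∃ χ : PP R κ, grp U {χ} = grp U {φ} ⊓ grp U {ψ} := by
  obtain ⟨χ, hχ⟩ := (isPP_sat φ).and (isPP_sat ψ)
  refine ⟨χ, ?_⟩
  ext x
  rw [AddSubgroup.mem_inf, mem_grp, mem_grp, mem_grp]
  constructor
  · intro h
    have h1 := (hχ U x).mpr (h χ rfl)
    exact ⟨fun θ hθ => (mem_singleton_iff.mp hθ) ▸ h1.1, fun θ hθ => (mem_singleton_iff.mp hθ) ▸ h1.2⟩
  · intro h θ hθ
    rw [mem_singleton_iff.mp hθ]
    exact (hχ U x).mp ⟨h.1 φ rfl, h.2 ψ rfl⟩

/-- the members of `one U S` are closed under conjunction -/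
private theorem FEX_one (U : Type) [AddCommGroup U] [Module R U] (S : Set (PP R κ))
    {φ ψ χ : PP R κ} (hφ : φ ∈ one U S) (hψ : ψ ∈ one U S)
    (h : grp U {χ} = grp U {φ} ⊓ grp U {ψ}) : χ ∈ one U S := by
  refine ⟨?_, ?_⟩
  · show (grp U {χ}).relIndex (grp U S) ≠ 0
    rw [h]
    exact AddSubgroup.relIndex_inf_ne_zero hφ.1 hψ.1
  · intro θ hθ x hx
    have h1 : x ∈ grp U {φ} ⊓ grp U {ψ} := ⟨hφ.2 θ hθ x hx, hψ.2 θ hθ x hx⟩
    rw [← h] at h1
    exact h1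

/-- one formula defines the subtype `one U S` in `S` -/
private theorem FEX_def (U : Type) [AddCommGroup U] [Module R U] (S : Set (PP R κ))
    (hA : FIn U S (one U S)) : ∃ ψ₀ ∈ one U S, ∀ ψ ∈ one U S, grp U {ψ₀} ⊓ grp U S ≤ grp U {ψ} := by
  obtain ⟨A, hAd⟩ : ∃ A : Set ℕ, A = {k | ∃ ψ ∈ one U S, (grp U {ψ}).relIndex (grp U S) = k} :=
    ⟨_, rfl⟩
  have hne : A.Nonempty := by
    obtain ⟨χ, hχ⟩ := isPP_true (R := R) (ι := κ)
    have htop : ∀ x : κ → U, Sat χ U x := fun x => (hχ U x).mp trivial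
    have h1 : grp U {χ} = ⊤ := by
      rw [eq_top_iff]
      intro x _ θ hθ
      rw [mem_singleton_iff.mp hθ]
      exact htop x
    rw [hAd]
    refine ⟨_, χ, ⟨?_, fun θ _ x _ φ hφ => ?_⟩, rfl⟩
    · show (grp U {χ}).relIndex (grp U S) ≠ 0
      rw [h1, AddSubgroup.relIndex_top_left]
      exact one_ne_zero
    · rw [mem_singleton_iff.mp hφ]
      exact htop x
  have hb : BddAbove A := by
    refine ⟨(grp U (one U S)).relIndex (grp U S), ?_⟩
    rw [hAd]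
    rintro k ⟨ψ, hψ, rfl⟩
    refine AddSubgroup.relIndex_le_of_le_left (fun x hx => ?_) hA
    intro φ hφ
    rw [mem_singleton_iff.mp hφ]
    exact hx ψ hψ
  have hm := Nat.sSup_mem hne hb
  obtain ⟨m, hmd⟩ : ∃ m, m = sSup A := ⟨_, rfl⟩
  rw [← hmd] at hm
  have hle : ∀ k ∈ A, k ≤ m := by
    intro k hk
    rw [hmd]
    exact le_csSup hb hk
  rw [hAd] at hm
  obtain ⟨ψ₀, h₀, h₀m⟩ := hm
  refine ⟨ψ₀, h₀, fun ψ hψ => ?_⟩
  obtain ⟨χ, hχ⟩ := FEX_and U ψ ψ₀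
  have hχ1 : χ ∈ one U S := FEX_one U S hψ h₀ hχ
  have h1 : (grp U {χ}).relIndex (grp U S) ≤ m := hle _ (by rw [hAd]; exact ⟨χ, hχ1, rfl⟩)
  have h2 := AddSubgroup.relIndex_inf_mul_relIndex (grp U {ψ}) (grp U {ψ₀}) (grp U S)
  rw [← hχ, h₀m] at h2
  have h3 : (grp U {χ}).relIndex (grp U S) ≠ 0 := hχ1.1
  have h4 : m ≠ 0 := by
    rintro rfl
    rw [mul_zero] at h2
    exact h3 h2.symm
  have h5 : (grp U {ψ}).relIndex (grp U {ψ₀} ⊓ grp U S) ≠ 0 := by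
    intro h
    rw [h, zero_mul] at h2
    exact h3 h2.symm
  have h6 : (grp U {ψ}).relIndex (grp U {ψ₀} ⊓ grp U S) ≤ 1 := by
    by_contra h
    have h7 : 2 * m ≤ (grp U {ψ}).relIndex (grp U {ψ₀} ⊓ grp U S) * m :=
      Nat.mul_le_mul_right m (by omega)
    omega
  exact AddSubgroup.relIndex_eq_one.mp (by omega)

end

/-- the facts with `V = pp(a, t)` -/
theorem thm_FEX : St_FEX := by
  intro R _ _ U _ hA ι κ _ _ a V t hV
  obtain ⟨S, hS⟩ : ∃ S : Set (PP R κ), S = zer '' V := ⟨_, rfl⟩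
  obtain ⟨ψ₀, h₀, hmin⟩ := FEX_def U S (hA κ S)
  have hsub : grp U (S ∪ {ψ₀}) = grp U {ψ₀} ⊓ grp U S := by
    ext x
    rw [AddSubgroup.mem_inf, mem_grp, mem_grp, mem_grp, re_union]
    exact and_comm
  rw [← hS]
  refine ⟨ψ₀, ⟨hV, ?_, ?_⟩, h₀.2⟩
  · rw [← hS]
    exact h₀.1
  · rw [← hS]
    intro x hx ψ hψ
    have hψ1 : ψ ∈ one U S := by
      refine ⟨?_, fun χ hχ y hy => hψ.2 χ (fun z hz => ?_) y hy⟩
      · have h1 : (grp U (S ∪ {ψ₀})).relIndex (grp U S) ≠ 0 := by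
          rw [hsub, AddSubgroup.inf_relIndex_right]
          exact h₀.1
        exact AddSubgroup.relIndex_ne_zero_trans (hψ.1 : (grp U {ψ}).relIndex _ ≠ 0) h1
      · exact re_union.mpr ⟨hχ z hz, h₀.2 χ hχ z hz⟩
    have h2 : x ∈ grp U (S ∪ {ψ₀}) := hx
    rw [hsub] at h2
    exact hmin ψ hψ1 h2 ψ rfl

end Pool.Agent.VMF
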