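import Pool.Agent.VMF.StD
import Pool.Agent.VMF.ALGB

/-!
# VMF 6.2, 6.3: all submodules of `TT` are finitely generated
-/

set_option autoImplicit false
set_option linter.unusedSectionVars false
set_option linter.unusedVariables false

namespace Pool.Agent.VMF

open Set Pool.Agent.MVC Pool.Agent.MVC.Ax

/-- a pure map reflects the pp types over a tuple -/
private theorem NTH_pp {R : Type} [Ring R] {U : Md R} {M : Type} [AddCommGroup M] [Module R M]
    (e : M →ₗ[R] U) (he : Pur U e) {n k : ℕ} (x : Fin n → M) (b : Fin k → M) :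
    pp (R := R) U (Sum.elim (fun i => e (x i)) (fun i => e (b i))) =
      pp (R := R) M (Sum.elim x b) := by
  have h0 : (Sum.elim (fun i => e (x i)) (fun i => e (b i))) = e ∘ Sum.elim x b := by
    funext i
    cases i <;> rfl
  rw [h0]
  ext φ
  constructor
  · intro h
    have h1 : Sat (ren finSumFinEquiv φ) U (e ∘ (Sum.elim x b ∘ finSumFinEquiv.symm)) := by
      rw [sat_ren]
      have h2 : (e ∘ (Sum.elim x b ∘ finSumFinEquiv.symm)) ∘ finSumFinEquiv =
          e ∘ Sum.elim x b := by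
        funext i
        simp
      rw [h2]
      exact h
    have h3 := he _ _ _ h1
    rw [sat_ren] at h3
    have h4 : (Sum.elim x b ∘ finSumFinEquiv.symm) ∘ finSumFinEquiv = Sum.elim x b := by
      funext i
      simp
    rw [h4] at h3
    exact h3
  · intro h
    exact Sat.map h e

theorem thm_NTH (h1 : St_SPN) (h2 : St_AGF) (h3 : St_ORF) (h4 : St_ACF) : St_NTH := by
  intro R _ _ U hU hA hAge Y hY n a
  obtain ⟨⟨l, hl, Z, y, hZ, hZY⟩, hD, -⟩ := hY
  have := hl
  have hTT : ∀ γ : Gm U a, ∀ d ∈ TT U a Y, actE U a Y γ d ∈ TT U a Y := fun γ =>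
    (h4 R U (Fin n) Empty a ∅ [] (fun i => i.elim) Y Y (fun i => i.elim) LinearMap.id 0 γ).2.2
  refine ALGB ((Own R U).Q Y) hD (EF U a Y) (Gm U a) (actE U a Y) (actE_one U a Y)
    (actE_mul U a Y) (TT U a Y) hTT (fun d hd => h3 R U hU (Fin n) a Y d hd)
    (range (TR U a Y)) ?_ ?_ ?_
  · rintro _ ⟨p, rfl⟩ d hd
    exact hd.1
  · -- the orbit sets are determined by the ages
    let age : AM U a → Set ((k : ℕ) × Set (PP R (Fin n ⊕ Fin k))) := fun p =>
      {q | ∃ c : Fin q.1 → p.1.1, q.2 = pp (R := R) U (Sum.elim a (fun i => p.1.2 (c i)))}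
    have hage : (range age).Countable := by
      refine (hAge n).mono ?_
      rintro _ ⟨p, rfl⟩
      choose x hx using p.2.2.2
      refine ⟨p.1.1, x, p.2.1, ?_⟩
      have hx' : a = fun i => p.1.2 (x i) := funext fun i => (hx i).symm
      ext q
      constructor
      · rintro ⟨c, hc⟩
        refine ⟨c, ?_⟩
        rw [hc, ← NTH_pp p.1.2 p.2.2.1 x c, ← hx']
      · rintro ⟨c, hc⟩
        refine ⟨c, ?_⟩
        rw [hc, ← NTH_pp p.1.2 p.2.2.1 x c, ← hx']
    have hsub : ∀ p p' : AM U a, age p = age p' →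
        OrbS U a Y (TR U a Y p) ⊆ OrbS U a Y (TR U a Y p') := by
      intro p p' hpp
      refine h2 R U hU n l a Z Y y hZ hZY p p' ?_
      intro k b
      have h5 : (⟨k, pp (R := R) U (Sum.elim a (fun i => p.1.2 (b i)))⟩ :
          (k : ℕ) × Set (PP R (Fin n ⊕ Fin k))) ∈ age p := ⟨b, rfl⟩
      rw [hpp] at h5
      obtain ⟨c, hc⟩ := h5
      exact ⟨c, hc.symm⟩
    have hfac : ∀ p p' : AM U a, age p = age p' →
        OrbS U a Y (TR U a Y p) = OrbS U a Y (TR U a Y p') := fun p p' h =>
      Subset.antisymm (hsub p p' h) (hsub p' p h.symm)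
    have hcnt : (range fun p : AM U a => OrbS U a Y (TR U a Y p)).Countable := by
      classical
      have h6 : (range fun p : AM U a => OrbS U a Y (TR U a Y p)) ⊆
          (fun A => if h : ∃ p : AM U a, age p = A then OrbS U a Y (TR U a Y h.choose) else ∅) ''
            (range age) := by
        rintro _ ⟨p, rfl⟩
        refine ⟨age p, ⟨p, rfl⟩, ?_⟩
        have h7 : ∃ p' : AM U a, age p' = age p := ⟨p, rfl⟩
        show (if h : ∃ p' : AM U a, age p' = age p then OrbS U a Y (TR U a Y h.choose) else ∅) = _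
        rw [dif_pos h7]
        exact hfac _ _ h7.choose_spec
      exact (hage.image _).mono h6
    refine hcnt.mono ?_
    rintro O ⟨_, ⟨p, rfl⟩, rfl⟩
    exact ⟨p, rfl⟩
  · intro m hm
    obtain ⟨p, d', hd', hsp⟩ := h1 R U hU hA (Fin n) l a Z Y y hZ hZY m hm
    exact ⟨d', hd', p, hsp.symm⟩

end Pool.Agent.VMF
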