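import Pool.Agent.VMF.StD

/-!
# VMF, module PRE: facts whose formula contains all formulas of the type (5.2 (iii))
-/

set_option autoImplicit false
set_option linter.unusedSectionVars false
set_option linter.unusedVariables false

namespace Pool.Agent.VMF

open Set Pool.Agent.MVC Pool.Agent.MVC.Ax

section

variable {R : Type} [Ring R] {κ : Type}

private theorem PRE_le (U : Type) [AddCommGroup U] [Module R U] (S : Set (PP R κ)) (ψ : PP R κ) :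
    grp U (S ∪ {ψ}) ≤ grp U S := fun _ hx => (re_union.mp hx).1

private theorem PRE_right {G : Type} [AddCommGroup G] {H K L : AddSubgroup G} (hKL : K ≤ L)
    (h : H.relIndex L ≠ 0) : H.relIndex K ≠ 0 :=
  fun h0 => h (AddSubgroup.relIndex_eq_zero_of_le_right hKL h0)

private theorem PRE_fi (U : Type) [AddCommGroup U] [Module R U] (S : Set (PP R κ))
    (ψ ψ₁ : PP R κ) (h : FIn U S {ψ}) : FIn U (S ∪ {ψ₁}) (S ∪ {ψ}) := by
  have h1 : grp U (S ∪ {ψ}) = grp U S ⊓ grp U {ψ} := by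
    ext x
    exact re_union
  have h2 : (grp U (S ∪ {ψ})).relIndex (grp U S) ≠ 0 := by
    rw [h1, AddSubgroup.inf_relIndex_left]
    exact h
  exact PRE_right (PRE_le U S ψ₁) h2

/-- the full type `S ∧ ψ` implies `ψ₁` -/
private theorem PRE_imp (U : Type) [AddCommGroup U] [Module R U] (S : Set (PP R κ))
    (ψ ψ₁ : PP R κ) (hfull : Full U (S ∪ {ψ})) (h1 : FIn U S {ψ₁}) (h2 : PIn U S {ψ₁}) :
    ∀ x : κ → U, Re (S ∪ {ψ}) U x → Sat ψ₁ U x := by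
  intro x hx
  refine hfull x hx ψ₁ ⟨PRE_right (PRE_le U S ψ) h1, fun χ hχ => h2 χ fun y hy => ?_⟩
  exact (re_union.mp (hχ y hy)).1

end

/-- 5.2 (iii) -/
theorem thm_PRE (h1 : St_FEX) (h2 : St_DRS) (h3 : St_QIS) (h4 : MVC.St_HEX) (h5 : St_ENU) :
    St_PRE := by
  intro R _ _ U hU hA ι κ _ _ a V ψ t N g hF hN
  obtain ⟨ψ₁, hF₁, hP₁⟩ := h1 R U hU hA ι κ a V t hF.re
  obtain ⟨N₁, g₁, hN₁⟩ := h4 R (Own R U) κ (zer '' V ∪ {ψ₁})
  have himp := PRE_imp U (zer '' V) ψ ψ₁ hF.full hF₁.fi hP₁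
  have hent : (Own R U).Ent (zer '' V ∪ {ψ}) (ren id ψ₁) :=
    h5 R U hU κ _ _ fun x hx => by
      rw [sat_ren]
      exact himp x hx
  obtain ⟨ρ, hρ, hval⟩ := h2 R U hU ι κ κ a V V ψ₁ ψ t N₁ N g₁ g id hN₁ hN hF.re
    (fun φ hφ => ⟨{φ}, by
      intro θ hθ
      rw [Finset.mem_coe, Finset.mem_singleton] at hθ
      rw [hθ]
      exact hφ, fun M _ _ _ x hx => by
      rw [sat_ren, Sum.map_id_id]
      exact hx φ (Finset.mem_singleton_self φ)⟩) hent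
  have hsub : ∀ x : κ → U, Re (zer '' V ∪ {ψ}) U x → Re (zer '' V ∪ {ψ₁}) U x := by
    intro x hx
    rw [re_union]
    refine ⟨(re_union.mp hx).1, fun θ hθ => ?_⟩
    rw [Set.mem_singleton_iff] at hθ
    rw [hθ]
    exact himp x hx
  obtain ⟨j, hj1, hj2⟩ := h3 R U hU κ (zer '' V ∪ {ψ₁}) (zer '' V ∪ {ψ}) N₁ N g₁ g hF₁.full
    (PRE_fi U (zer '' V) ψ ψ₁ hF.fi) hsub hN₁ hN ρ hρ
  exact ⟨ψ₁, N₁, g₁, ρ, j, hF₁, hP₁, hN₁, hj1, hj2, hval⟩

end Pool.Agent.VMF
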