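import Pool.Agent.VMF.StD
import Pool.Agent.MVC.NULM

/-!
# VMF, module RPF: representation of the value of a fact (5.3) (helper77)

The type `V'(x, t₀, y)` consists of the formulas
`∃ t e, V_0(x, t₀) ∧ V_m(x, t) ∧ ψ(t - t₀) ∧ θ(t - t₀, e) ∧ ζ_m(y - e)`; `ψ'(t₀, y) := ψ(t₀)`.
-/

set_option autoImplicit false
set_option linter.unusedSectionVars false
set_option linter.unusedVariables false

namespace Pool.Agent.VMF

open Set Pool.Agent.MVC Pool.Agent.MVC.Ax

private theorem RPF_le {R : Type} [Ring R] {ι : Type} {X : Ax R} {φ : ℕ → PP R ι}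
    (h : ∀ m, X.Le (φ (m + 1)) (φ m)) {a b : ℕ} (hab : a ≤ b) : X.Le (φ b) (φ a) := by
  induction hab with
  | refl => exact Le.refl _
  | step _ ih => exact Le.trans (h _) ih

private theorem RPF_fin {R : Type} [Ring R] {ι κ : Type} {X : Ax R} {V : Set (PP R (ι ⊕ κ))}
    {W : Set (PP R κ)}
    {φ : ℕ → PP R (ι ⊕ κ)} (h : ∀ m, X.Le (φ (m + 1)) (φ m))
    (h' : ∀ ψ, X.Ent V ψ → ∃ m, X.Le (φ m) ψ) (s : Finset (PP R κ)) (hs : ↑s ⊆ zer '' V ∪ W) :
    ∃ m, ∀ (M : Type) [AddCommGroup M] [Module R M], X.In M → ∀ t : κ → M,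
      Sat (φ m) M (Sum.elim 0 t) → Re W M t → ∀ ψ ∈ s, Sat ψ M t := by
  classical
  induction s using Finset.induction_on with
  | empty => exact ⟨0, fun M _ _ _ t _ _ ψ hψ => absurd hψ (Finset.notMem_empty ψ)⟩
  | insert ψ s hψ ih =>
    obtain ⟨m1, h1⟩ := ih (fun χ hχ => hs (Finset.mem_coe.mpr (Finset.mem_insert_of_mem hχ)))
    rcases hs (Finset.mem_coe.mpr (Finset.mem_insert_self ψ s)) with ⟨ρ, hρ, hρ'⟩ | hW
    · obtain ⟨m2, h2⟩ := h' ρ (ent_of_mem hρ)
      refine ⟨max m1 m2, fun M _ _ hM t ht hw χ hχ => ?_⟩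
      rcases Finset.mem_insert.mp hχ with h3 | hχ
      · rw [h3, ← hρ', sat_zer]
        exact h2 M hM _ (RPF_le h (le_max_right m1 m2) M hM _ ht)
      · exact h1 M hM t (RPF_le h (le_max_left m1 m2) M hM _ ht) hw χ hχ
    · refine ⟨m1, fun M _ _ hM t ht hw χ hχ => ?_⟩
      rcases Finset.mem_insert.mp hχ with h3 | hχ
      · rw [h3]
        exact hw ψ hW
      · exact h1 M hM t ht hw χ hχ

/-- the generating formula, for finite index types -/
private theorem RPF_gen {R : Type} [Ring R] {X : Ax R} {κ l : Type} [Finite l]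
    {S : Set (PP R κ)} {N : Md R} {g : κ → N} (hN : X.Honest S N g) (b : l → N) :
    ∃ θ : PP R (κ ⊕ l), X.Gen S N g b θ := by
  obtain ⟨n, ⟨e⟩⟩ := Finite.exists_equiv_fin l
  obtain ⟨θ, h1, h2⟩ := hN.gen n (b ∘ e.symm)
  have k1 : ∀ (M : Type) (x : κ → M) (y : l → M),
      Sum.elim x y ∘ Sum.map id e.symm = Sum.elim x (y ∘ e.symm) := by
    intro M x y
    funext i
    cases i <;> rfl
  have k2 : ∀ (M : Type) (x : κ → M) (y : l → M),
      Sum.elim x (y ∘ e.symm) ∘ Sum.map id e = Sum.elim x y := by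
    intro M x y
    funext i
    cases i with
    | inl i => rfl
    | inr i =>
      show y (e.symm (e i)) = y i
      rw [e.symm_apply_apply]
  refine ⟨ren (Sum.map id e.symm) θ, ?_, ?_⟩
  · rw [sat_ren, k1]
    exact h1
  · intro ψ hψ
    obtain ⟨s, hs, h3⟩ := h2 (ren (Sum.map id e) ψ) (by
      rw [sat_ren, k2]
      exact hψ)
    refine ⟨s, hs, fun M _ _ hM x y hx hy => ?_⟩
    rw [sat_ren, k1] at hy
    have h4 := h3 M hM x (y ∘ e.symm) hx hy
    rw [sat_ren, k2] at h4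
    exact h4

private theorem RPF_chain {R : Type} [Ring R] [Countable R] {X : Ax R} {ι κ l : Type} [Finite ι]
    [Finite κ] [Finite l] {V : Set (PP R (ι ⊕ κ))} {w : PP R κ} {N : Md R} {g : κ → N}
    {Z : Set (PP R l)} (hN : X.Honest (zer '' V ∪ {w}) N g) (b : l → N) (hb : Re Z N b)
    (s₁ : Finset (PP R κ)) (hs₁ : ↑s₁ ⊆ zer '' V) :
    ∃ (θ : PP R (κ ⊕ l)) (A : ℕ → PP R (ι ⊕ κ)) (ζ : ℕ → PP R l),
      Sat θ N (Sum.elim g b) ∧
      (∀ m, X.Ent V (A m)) ∧ (∀ m, X.Le (A (m + 1)) (A m)) ∧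
      (∀ m, X.Ent Z (ζ m)) ∧ (∀ ψ, X.Ent Z ψ → ∃ m, X.Le (ζ m) ψ) ∧
      (∀ (M : Type) [AddCommGroup M] [Module R M], X.In M → ∀ t : κ → M,
        Sat (A 0) M (Sum.elim 0 t) → ∀ φ ∈ s₁, Sat φ M t) ∧
      (∀ (M : Type) [AddCommGroup M] [Module R M], X.In M → ∀ t : κ → M,
        Sat (A 0) M (Sum.elim 0 t) → Sat w M t → ∃ y : l → M, Sat θ M (Sum.elim t y)) ∧
      (∀ m, ∀ (M : Type) [AddCommGroup M] [Module R M], X.In M → ∀ (t : κ → M)
        (y : l → M), Sat (A m) M (Sum.elim 0 t) → Sat w M t → Sat θ M (Sum.elim t y) →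
        Sat (ζ m) M y) := by
  have hRe : ∀ (M : Type) [AddCommGroup M] [Module R M] (t : κ → M), Sat w M t →
      Re {w} M t := by
    intro M _ _ t ht φ hφ
    rw [mem_singleton_iff] at hφ
    rw [hφ]
    exact ht
  obtain ⟨φ, a1, a2, a3⟩ := exists_chain (X := X) V
  obtain ⟨ζ, b1, b2, b3⟩ := exists_chain (X := X) Z
  obtain ⟨θ, h1, h2⟩ := RPF_gen hN b
  obtain ⟨ρ, hρ⟩ := (isPP_sat (R := R) θ).ex
  obtain ⟨s0, hs0, h3⟩ := hN.gen0 ρ ((hρ N g).mp ⟨b, h1⟩)
  obtain ⟨m0, h4⟩ := RPF_fin (X := X) a2 a3 s0 hs0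
  obtain ⟨m1, h5⟩ := RPF_fin (X := X) (W := ∅) a2 a3 s₁ (by
    rw [union_empty]
    exact hs₁)
  have h6 : ∀ m, ∃ p, ∀ (M : Type) [AddCommGroup M] [Module R M], X.In M → ∀ (t : κ → M)
      (y : l → M), Sat (φ p) M (Sum.elim 0 t) → Sat w M t → Sat θ M (Sum.elim t y) →
      Sat (ζ m) M y := by
    intro m
    have h6 : Sat (ren Sum.inr (ζ m)) N (Sum.elim g b) := by
      rw [sat_ren]
      exact Ent.sat (b1 m) hN.mem hb
    obtain ⟨s, hs, h7⟩ := h2 _ h6
    obtain ⟨p, hp⟩ := RPF_fin (X := X) a2 a3 s hs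
    refine ⟨p, fun M _ _ hM t y ht hw hy => ?_⟩
    have h8 := h7 M hM t y (hp M hM t ht (hRe M t hw)) hy
    rw [sat_ren] at h8
    exact h8
  choose p hp using h6
  let q : ℕ → ℕ := fun m => m0 + m1 + m + ∑ i ∈ Finset.range (m + 1), p i
  have q1 : ∀ m, q m ≤ q (m + 1) := by
    intro m
    show m0 + m1 + m + ∑ i ∈ Finset.range (m + 1), p i ≤
      m0 + m1 + (m + 1) + ∑ i ∈ Finset.range (m + 1 + 1), p i
    rw [Finset.sum_range_succ _ (m + 1)]
    omega
  have q2 : ∀ m, p m ≤ q m := by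
    intro m
    show p m ≤ m0 + m1 + m + ∑ i ∈ Finset.range (m + 1), p i
    rw [Finset.sum_range_succ]
    omega
  have q4 : m0 ≤ q 0 := by
    show m0 ≤ m0 + m1 + 0 + ∑ i ∈ Finset.range (0 + 1), p i
    omega
  have q5 : m1 ≤ q 0 := by
    show m1 ≤ m0 + m1 + 0 + ∑ i ∈ Finset.range (0 + 1), p i
    omega
  refine ⟨θ, fun m => φ (q m), ζ, h1, fun m => a1 _, fun m => RPF_le a2 (q1 m),
    b1, b3, fun M _ _ hM t ht => ?_, fun M _ _ hM t ht hw => ?_,
    fun m M _ _ hM t y ht hw hy => ?_⟩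
  · exact h5 M hM t (RPF_le a2 q5 M hM _ ht) (fun φ hφ => absurd hφ (notMem_empty φ))
  · refine (hρ M t).mpr (h3 M hM t (h4 M hM t ?_ (hRe M t hw)))
    exact RPF_le a2 q4 M hM _ ht
  · exact hp m M hM t y (RPF_le a2 (q2 m) M hM _ ht) hw hy

/-- the relation `V'_m(x, t₀, y)` -/
private def RPF_Q {R : Type} [Ring R] {ι κ l : Type} (A0 Am : PP R (ι ⊕ κ)) (w : PP R κ)
    (θ : PP R (κ ⊕ l)) (ζ : PP R l) (M : Type) [AddCommGroup M] [Module R M]
    (x : ι → M) (t0 : κ → M) (y : l → M) : Prop :=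
  Sat A0 M (Sum.elim x t0) ∧ ∃ (t : κ → M) (e : l → M), Sat Am M (Sum.elim x t) ∧
    Sat w M (t - t0) ∧ Sat θ M (Sum.elim (t - t0) e) ∧ Sat ζ M (y - e)

private theorem RPF_exQ {R : Type} [Ring R] {ι κ l : Type} [Finite κ] [Finite l]
    (A0 Am : PP R (ι ⊕ κ)) (w : PP R κ) (θ : PP R (κ ⊕ l)) (ζ : PP R l) :
    ∃ F : PP R (ι ⊕ (κ ⊕ l)), ∀ (M : Type) [AddCommGroup M] [Module R M]
      (x : ι → M) (u : κ ⊕ l → M), Sat F M (Sum.elim x u) ↔
        RPF_Q A0 Am w θ ζ M x (fun i => u (Sum.inl i)) (fun j => u (Sum.inr j)) := by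
  have e1 := (isPP_sat (R := R) A0).comap (Sum.map id Sum.inl : ι ⊕ κ → ι ⊕ (κ ⊕ l))
  have e2 := (isPP_sat (R := R) Am).comap (Sum.elim (fun i => Sum.inl (Sum.inl i))
    (fun i => Sum.inr (Sum.inl i)) : ι ⊕ κ → (ι ⊕ (κ ⊕ l)) ⊕ (κ ⊕ l))
  have e5 := (isPP_sat (R := R) w).subst (fun i : κ =>
    Finsupp.single (Sum.inr (Sum.inl i) : (ι ⊕ (κ ⊕ l)) ⊕ (κ ⊕ l)) (1 : R) -
      Finsupp.single (Sum.inl (Sum.inr (Sum.inl i))) 1)
  have e3 := (isPP_sat (R := R) θ).subst (Sum.elim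
    (fun i => Finsupp.single (Sum.inr (Sum.inl i)) 1 -
      Finsupp.single (Sum.inl (Sum.inr (Sum.inl i))) 1)
    (fun j => Finsupp.single (Sum.inr (Sum.inr j)) 1) :
      κ ⊕ l → (((ι ⊕ (κ ⊕ l)) ⊕ (κ ⊕ l)) →₀ R))
  have e4 := (isPP_sat (R := R) ζ).subst (fun j : l =>
    Finsupp.single (Sum.inl (Sum.inr (Sum.inr j)) :
      (ι ⊕ (κ ⊕ l)) ⊕ (κ ⊕ l)) (1 : R) - Finsupp.single (Sum.inr (Sum.inr j)) 1)
  obtain ⟨F, hF⟩ := e1.and ((e2.and (e5.and (e3.and e4))).ex)
  refine ⟨F, fun M _ _ x u => (hF M _).symm.trans ?_⟩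
  unfold RPF_Q
  refine and_congr (iff_of_eq ?_) ⟨?_, ?_⟩
  · congr 1
    funext i
    cases i <;> rfl
  · rintro ⟨z, h1, h5, h2, h3⟩
    refine ⟨fun i => z (Sum.inl i), fun j => z (Sum.inr j), ?_, ?_, ?_, ?_⟩
    · refine (iff_of_eq ?_).mp h1
      congr 1
      funext i
      cases i <;> rfl
    · refine (iff_of_eq ?_).mp h5
      congr 1
      funext i
      simp
    · refine (iff_of_eq ?_).mp h2
      congr 1
      funext i
      cases i <;> simp
    · refine (iff_of_eq ?_).mp h3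
      congr 1
      funext i
      simp
  · rintro ⟨t, e, h1, h5, h2, h3⟩
    refine ⟨Sum.elim t e, ?_, ?_, ?_, ?_⟩
    · refine (iff_of_eq ?_).mp h1
      congr 1
      funext i
      cases i <;> rfl
    · refine (iff_of_eq ?_).mp h5
      congr 1
      funext i
      simp
    · refine (iff_of_eq ?_).mp h2
      congr 1
      funext i
      cases i <;> simp
    · refine (iff_of_eq ?_).mp h3
      congr 1
      funext i
      simp

/-- the relation `V_0(0, t) ∧ ψ(t) ∧ θ(-t, y)` -/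
private theorem RPF_exchi {R : Type} [Ring R] {ι κ l : Type} (A0 : PP R (ι ⊕ κ)) (w : PP R κ)
    (θ : PP R (κ ⊕ l)) :
    ∃ F : PP R (κ ⊕ l), ∀ (M : Type) [AddCommGroup M] [Module R M]
      (u : κ ⊕ l → M), Sat F M u ↔ (Sat A0 M (Sum.elim 0 (fun i => u (Sum.inl i))) ∧
        Sat w M (fun i => u (Sum.inl i)) ∧
        Sat θ M (Sum.elim (-(fun i => u (Sum.inl i))) (fun j => u (Sum.inr j)))) := by
  have e1 := (isPP_sat (R := R) (zer A0)).comap (Sum.inl : κ → κ ⊕ l)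
  have e2 := (isPP_sat (R := R) w).comap (Sum.inl : κ → κ ⊕ l)
  have e3 := (isPP_sat (R := R) θ).subst (Sum.elim
    (fun i => - Finsupp.single (Sum.inl i) 1)
    (fun j => Finsupp.single (Sum.inr j) 1) : κ ⊕ l → ((κ ⊕ l) →₀ R))
  obtain ⟨F, hF⟩ := e1.and (e2.and e3)
  refine ⟨F, fun M _ _ u => (hF M _).symm.trans ?_⟩
  refine and_congr ?_ (and_congr Iff.rfl (iff_of_eq ?_))
  · rw [sat_zer]
    rfl
  · congr 1
    funext i
    cases i <;> simp

/-- the formula `t = 0 ∧ ρ(y)` -/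
private theorem RPF_exz {R : Type} [Ring R] {κ l : Type} [Finite κ] (ρ : PP R l) :
    ∃ F : PP R (κ ⊕ l), ∀ (M : Type) [AddCommGroup M] [Module R M]
      (u : κ ⊕ l → M), Sat F M u ↔ (u ∘ Sum.inl = 0 ∧ Sat ρ M (u ∘ Sum.inr)) := by
  obtain ⟨F, hF⟩ := ((isPP_zero (R := R) (ι := κ)).comap (Sum.inl : κ → κ ⊕ l)).and
    ((isPP_sat (R := R) ρ).comap (Sum.inr : l → κ ⊕ l))
  exact ⟨F, fun M _ _ u => (hF M u).symm⟩

private theorem RPF_elim0 {M ι κ : Type} [AddCommGroup M] :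
    (Sum.elim (0 : ι → M) (0 : κ → M)) = 0 := by
  funext i
  cases i <;> rfl

/-- solutions up to the formulas `V_m(0, ·) ∧ ψ` give one solution -/
private theorem RPF_core {R : Type} [Ring R] {X : Ax R} {ι κ l : Type} {Z : Set (PP R l)}
    {w : PP R κ} {θ : PP R (κ ⊕ l)} {A : ℕ → PP R (ι ⊕ κ)} {ζ : ℕ → PP R l}
    (a2 : ∀ m, X.Le (A (m + 1)) (A m)) (b3 : ∀ ψ, X.Ent Z ψ → ∃ m, X.Le (ζ m) ψ)
    (c1 : ∀ (M : Type) [AddCommGroup M] [Module R M], X.In M → ∀ t : κ → M,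
      Sat (A 0) M (Sum.elim 0 t) → Sat w M t → ∃ y : l → M, Sat θ M (Sum.elim t y))
    (c2 : ∀ m, ∀ (M : Type) [AddCommGroup M] [Module R M], X.In M → ∀ (t : κ → M)
      (y : l → M), Sat (A m) M (Sum.elim 0 t) → Sat w M t → Sat θ M (Sum.elim t y) →
      Sat (ζ m) M y)
    (M : Type) [AddCommGroup M] [Module R M] (hM : X.In M) (D : κ → M) (Y : l → M)
    (h : ∀ m, ∃ (r : κ → M) (e : l → M), Sat (A m) M (Sum.elim 0 r) ∧ Sat w M r ∧
      Sat θ M (Sum.elim (D + r) e) ∧ Sat (ζ m) M (Y - e)) :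
    ∃ e : l → M, Sat θ M (Sum.elim D e) ∧ Re Z M (Y - e) := by
  have h1 : ∀ m, ∃ e : l → M, Sat θ M (Sum.elim D e) ∧ Sat (ζ m) M (Y - e) := by
    intro m
    obtain ⟨r, e, h2, hw, h3, h4⟩ := h m
    obtain ⟨q, hq⟩ := c1 M hM r (RPF_le a2 (Nat.zero_le m) M hM _ h2) hw
    refine ⟨e - q, ?_, ?_⟩
    · have h5 := h3.sub hq
      rw [← elim_sub, add_sub_cancel_right] at h5
      exact h5
    · have h5 := h4.add (c2 m M hM r q h2 hw hq)
      have h6 : Y - e + q = Y - (e - q) := by abel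
      rw [h6] at h5
      exact h5
  obtain ⟨e0, h2, h3⟩ := h1 0
  refine ⟨e0, h2, fun ψ hψ => ?_⟩
  obtain ⟨m, hm⟩ := b3 ψ (ent_of_mem hψ)
  refine hm M hM _ ?_
  obtain ⟨e, h4, h5⟩ := h1 m
  have h6 := h4.sub h2
  rw [← elim_sub, sub_self] at h6
  have h7 := c2 m M hM 0 (e - e0) (by
    rw [RPF_elim0]
    exact Sat.zero _) (Sat.zero _) h6
  have h8 := h5.add h7
  have h9 : Y - e + (e - e0) = Y - e0 := by abel
  rw [h9] at h8
  exact h8

private theorem RPF_own {R : Type} [Ring R] (U : Md R) : (Own R U).In U := fun a ha => ha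

private theorem RPF_grp1 {R : Type} [Ring R] {κ : Type} {U : Type} [AddCommGroup U] [Module R U]
    (φ : PP R κ) (x : κ → U) : x ∈ grp U {φ} ↔ Sat φ U x := by
  rw [mem_grp]
  constructor
  · intro h
    exact h φ (mem_singleton φ)
  · intro h ψ hψ
    rw [mem_singleton_iff] at hψ
    rw [hψ]
    exact h

/-- the inclusion `y ↦ (0, y)` -/
private def RPF_in (U κ l : Type) [AddCommGroup U] : (l → U) →+ (κ ⊕ l → U) where
  toFun := fun z => Sum.elim 0 z
  map_zero' := RPF_elim0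
  map_add' := fun z z' => by
    rw [← elim_add, add_zero]

/-- the projection `(t, y) ↦ t` -/
private def RPF_pr (U κ l : Type) [AddCommGroup U] : (κ ⊕ l → U) →+ (κ → U) where
  toFun := fun u i => u (Sum.inl i)
  map_zero' := rfl
  map_add' := fun z z' => rfl

theorem thm_RPF (h1 : St_AMP) (h2 : St_FIC) (h3 : MVC.St_HEX) (h4 : MVC.St_EX0)
    (h5 : MVC.St_NUP) (h6 : MVC.St_MIS) : St_RPF := by
  intro R _ _ U hU ι κ l _ _ _ a V ψ t N g Z Nz gz v hfact hN hfull hZ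
  obtain ⟨s₁, hs₁, hs₁'⟩ := h2 R U hU κ (zer '' V) ψ hfact.fi
  obtain ⟨θ, A, ζ, hθ, a1, a2, b1, b3, c0, c1, c2⟩ :=
    RPF_chain hN (v ∘ gz) (hZ.sat.map v) s₁ hs₁
  choose F hF using fun m => RPF_exQ (A 0) (A m) ψ θ (ζ m)
  obtain ⟨χ, hχ⟩ := RPF_exchi (A 0) ψ θ
  have hUU := RPF_own U
  let X : Ax R := Own R U
  let S' : Set (PP R (κ ⊕ l)) := zer '' Set.range F ∪ {ren Sum.inl ψ}
  -- the type `S'`
  have hS' : ∀ (M : Type) [AddCommGroup M] [Module R M] (u : κ ⊕ l → M), Re S' M u ↔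
      (∀ m, RPF_Q (A 0) (A m) ψ θ (ζ m) M 0 (fun i => u (Sum.inl i)) (fun j => u (Sum.inr j))) ∧
        Sat ψ M (fun i => u (Sum.inl i)) := by
    intro M _ _ u
    show Re (zer '' Set.range F ∪ {ren Sum.inl ψ}) M u ↔ _
    rw [re_union]
    refine and_congr ?_ ?_
    · constructor
      · intro h m
        rw [← hF, ← sat_zer]
        exact h _ (mem_image_of_mem _ (mem_range_self m))
      · rintro h _ ⟨_, ⟨m, rfl⟩, rfl⟩
        rw [sat_zer, hF]
        exact h m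
    · constructor
      · intro h
        exact (sat_ren _ _ _).mp (h _ (mem_singleton _))
      · intro h φ hφ
        rw [mem_singleton_iff] at hφ
        rw [hφ, sat_ren]
        exact h
  -- the core lemma for `S'`
  have hcore : ∀ (M : Type) [AddCommGroup M] [Module R M], X.In M → ∀ u : κ ⊕ l → M,
      Re S' M u → ∃ e : l → M, Sat θ M (Sum.elim (-(fun i => u (Sum.inl i))) e) ∧
        Re Z M ((fun j => u (Sum.inr j)) - e) := by
    intro M _ _ hM u hu
    rw [hS'] at hu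
    refine RPF_core a2 b3 c1 c2 M hM _ _ (fun m => ?_)
    obtain ⟨-, t, e, p1, p0, p2, p3⟩ := hu.1 m
    refine ⟨t, e, p1, ?_, ?_, p3⟩
    · have p4 := p0.add hu.2
      rw [sub_add_cancel] at p4
      exact p4
    · rw [neg_add_eq_sub]
      exact p2
  -- `χ` is contained in `S'`
  have hχS : ∀ (M : Type) [AddCommGroup M] [Module R M] (u : κ ⊕ l → M), Sat χ M u →
      Re S' M u := by
    intro M _ _ u hu
    rw [hχ] at hu
    rw [hS']
    refine ⟨fun m => ⟨hu.1, 0, fun j => u (Sum.inr j), ?_, ?_, ?_, ?_⟩, hu.2.1⟩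
    · rw [RPF_elim0]
      exact Sat.zero _
    · rw [zero_sub]
      exact hu.2.1.neg
    · rw [zero_sub]
      exact hu.2.2
    · rw [sub_self]
      exact Sat.zero _
  -- `0 × Z` is contained in `S'`
  have hZS : ∀ (M : Type) [AddCommGroup M] [Module R M], X.In M → ∀ z : l → M, Re Z M z →
      Re S' M (Sum.elim 0 z) := by
    intro M _ _ hM z hz
    rw [hS']
    refine ⟨fun m => ⟨?_, 0, 0, ?_, ?_, ?_, ?_⟩, ?_⟩
    · show Sat (A 0) M (Sum.elim 0 0)
      rw [RPF_elim0]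
      exact Sat.zero _
    · rw [RPF_elim0]
      exact Sat.zero _
    · show Sat ψ M (0 - 0)
      rw [sub_self]
      exact Sat.zero _
    · show Sat θ M (Sum.elim (0 - 0) 0)
      rw [sub_self, RPF_elim0]
      exact Sat.zero _
    · rw [sub_zero]
      exact Ent.sat (b1 m) hM hz
    · show Sat ψ M 0
      exact Sat.zero _
  -- the principal part of `Z`
  have hP : ∀ (M : Type) [AddCommGroup M] [Module R M] (y : l → M),
      Sat θ M (Sum.elim 0 y) → X.P Z M y := by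
    intro M _ _ y hy
    refine ⟨zer θ, fun ψ' hψ' K _ _ hK z hz => ?_, (sat_zer θ y).mpr hy⟩
    obtain ⟨m, hm⟩ := b3 ψ' (ent_of_mem hψ')
    rw [sat_zer] at hz
    exact hm K hK z (c2 m K hK 0 z (by
      rw [RPF_elim0]
      exact Sat.zero _) (Sat.zero _) hz)
  obtain ⟨N', g', hN'⟩ := h3 R X (κ ⊕ l) S'
  -- the element `e₀` of `N'`
  obtain ⟨e0, k2, k3⟩ := hcore N' hN'.mem g' hN'.sat
  obtain ⟨i, hi⟩ := h4 R X l Z Nz N' gz _ hZ hN'.mem k3
  -- the map `j`
  obtain ⟨j, hj⟩ := h4 R X (κ ⊕ l) S' N' Nz g' _ hN' hZ.mem (hZS Nz hZ.mem gz hZ.sat)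
  have hj1 : ∀ c, j (g' (Sum.inl c)) = 0 := fun c => by
    rw [hj]
    rfl
  have hj2 : ∀ c, j (g' (Sum.inr c)) = gz c := fun c => by
    rw [hj]
    rfl
  refine ⟨κ ⊕ l, inferInstance, Set.range F, ren Sum.inl ψ, Sum.elim t 0, N', g', i, j,
    ⟨?_, ?_, ?_⟩, hN', ?_, ?_, ?_⟩
  · -- `V'` is realised
    rintro _ ⟨m, rfl⟩
    rw [hF]
    refine ⟨Ent.sat (a1 0) hUU hfact.re, t, 0, Ent.sat (a1 m) hUU hfact.re, ?_, ?_, ?_⟩
    · show Sat ψ U (t - t)
      rw [sub_self]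
      exact Sat.zero _
    · show Sat θ U (Sum.elim (t - t) 0)
      rw [sub_self, RPF_elim0]
      exact Sat.zero _
    · show Sat (ζ m) U (0 - 0)
      rw [sub_self]
      exact Sat.zero _
  · -- finite index
    show (grp U {ren Sum.inl ψ}).relIndex (grp U (zer '' Set.range F)) ≠ 0
    have q1 : grp U {ren (Sum.inl : κ → κ ⊕ l) ψ} =
        (grp U {ψ}).comap (RPF_pr U κ l) := by
      ext u
      rw [AddSubgroup.mem_comap, RPF_grp1, RPF_grp1, sat_ren]
      rfl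
    rw [q1, AddSubgroup.relIndex_comap]
    intro q2
    refine hs₁' (AddSubgroup.relIndex_eq_zero_of_le_right ?_ q2)
    rintro _ ⟨u, hu, rfl⟩
    rw [mem_grp]
    intro φ hφ
    refine c0 U hUU _ ?_ φ hφ
    have q3 := hu _ (mem_image_of_mem _ (mem_range_self 0))
    rw [sat_zer, hF] at q3
    exact q3.1
  · -- full
    intro u hu
    obtain ⟨e, q1, q2⟩ := hcore U hUU u hu
    rintro ω ⟨hω1, hω2⟩
    have q3 : u = (Sum.elim (fun c => u (Sum.inl c)) e : κ ⊕ l → U) +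
        (Sum.elim (0 : κ → U) ((fun c => u (Sum.inr c)) - e) : κ ⊕ l → U) := by
      rw [← elim_add, add_zero]
      funext c
      cases c with
      | inl c => rfl
      | inr c =>
        show u (Sum.inr c) = e c + (u (Sum.inr c) - e c)
        abel
    rw [q3]
    refine Sat.add ?_ ?_
    · refine hω2 χ (fun x hx => hχS U x hx) _ ?_ ω (mem_singleton ω)
      rw [hχ]
      have q4 := (hS' U u).mp hu
      exact ⟨(q4.1 0).1, q4.2, q1⟩
    · rw [← sat_zer]
      refine hfull _ q2 (zer ω) ⟨?_, ?_⟩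
      · show (grp U {zer ω}).relIndex (grp U Z) ≠ 0
        have q5 : grp U {zer ω} = (grp U {ω}).comap (RPF_in U κ l) := by
          ext z
          rw [AddSubgroup.mem_comap, RPF_grp1, RPF_grp1, sat_zer]
          rfl
        rw [q5, AddSubgroup.relIndex_comap]
        intro q6
        refine hω1 (AddSubgroup.relIndex_eq_zero_of_le_right ?_ q6)
        rintro _ ⟨z, hz, rfl⟩
        exact hZS U hUU z hz
      · intro ρ hρ x hx φ hφ
        rw [mem_singleton_iff] at hφ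
        rw [hφ, sat_zer]
        obtain ⟨F0, hF0⟩ := RPF_exz (κ := κ) ρ
        refine hω2 F0 (fun y hy => ?_) _ ?_ ω (mem_singleton ω)
        · rw [hF0] at hy
          have q7 : y = (Sum.elim (0 : κ → U) (y ∘ Sum.inr) : κ ⊕ l → U) := by
            rw [← hy.1]
            exact (Sum.elim_comp_inl_inr y).symm
          rw [q7]
          exact hZS U hUU _ (hρ _ hy.2)
        · rw [hF0]
          exact ⟨rfl, hx⟩
  · -- `j i = 1`
    refine h5 R X l Z Nz Nz gz _ hZ (hP _ _ ?_)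
    have p1 := (k2.map j).neg
    refine (iff_of_eq ?_).mp p1
    congr 1
    funext c
    cases c with
    | inl c =>
      show -j (-g' (Sum.inl c)) = 0
      rw [map_neg, hj1, neg_zero, neg_zero]
    | inr c =>
      show -j (e0 c) = j (i (gz c)) - gz c
      rw [hi]
      show -j (e0 c) = j (g' (Sum.inr c) - e0 c) - gz c
      rw [map_sub, hj2]
      abel
  · -- `i j = 1`
    refine h5 R X (κ ⊕ l) S' N' N' g' _ hN' ⟨χ, fun φ hφ K _ _ hK u hu => hχS K u hu φ hφ, ?_⟩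
    rw [hχ]
    have p1 : (fun c => (⇑(i ∘ₗ j - (LinearMap.id : N' →ₗ[R] N')) ∘ g') (Sum.inl c)) =
        -(fun c => g' (Sum.inl c)) := by
      funext c
      show i (j (g' (Sum.inl c))) - g' (Sum.inl c) = -g' (Sum.inl c)
      rw [hj1, map_zero, zero_sub]
    have p2 : (fun c => (⇑(i ∘ₗ j - (LinearMap.id : N' →ₗ[R] N')) ∘ g') (Sum.inr c)) =
        -e0 := by
      funext c
      show i (j (g' (Sum.inr c))) - g' (Sum.inr c) = -e0 c
      rw [hj2, hi]
      show (g' (Sum.inr c) - e0 c) - g' (Sum.inr c) = -e0 c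
      abel
    rw [p1, p2]
    have q0 := (hS' N' g').mp hN'.sat
    refine ⟨?_, q0.2.neg, ?_⟩
    · have p3 := (q0.1 0).1.neg
      rw [← elim_neg, neg_zero] at p3
      exact p3
    · have p3 := k2.neg
      rw [← elim_neg] at p3
      exact p3
  · -- the two elements
    rintro p e e' ⟨s, f, p1, p2, hf, rfl⟩ ⟨s', f', p1', p2', hf', rfl⟩
    obtain ⟨hM, -, -, hpure⟩ := h1 R U hU ι a p
    choose α hα using p.2.2.2
    have hMI := (h6 R p.1.1).2 X hM
    have hmis := (h6 R p.1.1).1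
    let M : Md R := p.1.1
    let T : κ → MI M := fun c => MI.mk M (s c)
    let T' : κ ⊕ l → MI M := fun c => MI.mk M (s' c)
    let x : ι → MI M := fun c => MI.cst M (α c)
    -- pulling back the formulas with parameters `a`
    have hpull : ∀ (β : Type) [Finite β] (φ : PP R (ι ⊕ β)) (r : β → ℕ → M),
        (∃ m₀, ∀ m ≥ m₀, Sat φ U (Sum.elim a (fun c => p.1.2 (r c m)))) →
        Sat φ (MI M) (Sum.elim x (fun c => MI.mk M (r c))) := by
      intro β _ φ r hr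
      have q1 : Sum.elim x (fun c => MI.mk M (r c)) =
          fun c => MI.mk M ((Sum.elim (fun c _ => α c) r : ι ⊕ β → ℕ → M) c) := by
        funext c
        cases c <;> rfl
      rw [q1]
      refine (hmis (ι ⊕ β) φ _).mpr ?_
      obtain ⟨m₀, hm₀⟩ := hr
      refine ⟨m₀, fun m hm => (hpure (ι ⊕ β) φ _).mp ?_⟩
      have q2 := hm₀ m hm
      refine (iff_of_eq ?_).mp q2
      congr 1
      funext c
      cases c with
      | inl c => exact (hα c).symm
      | inr c => rfl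
    have hT : Re V (MI M) (Sum.elim x T) := fun φ hφ => hpull κ φ s (p1 φ hφ)
    have hT' : ∀ m, RPF_Q (A 0) (A m) ψ θ (ζ m) (MI M) x
        (fun c => T' (Sum.inl c)) (fun c => T' (Sum.inr c)) := by
      intro m
      rw [← hF]
      exact hpull (κ ⊕ l) (F m) s' (p1' (F m) (mem_range_self m))
    have hTT : Sat ψ (MI M) (T - fun c => T' (Sum.inl c)) := by
      have q1 : (T - fun c => T' (Sum.inl c)) =
          fun c => MI.mk M (s c - s' (Sum.inl c)) := by
        funext c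
        exact (map_sub (MI.mk M) (s c) (s' (Sum.inl c))).symm
      rw [q1]
      refine (hmis κ ψ _).mpr ?_
      obtain ⟨m₀, hm₀⟩ := p2
      obtain ⟨m₁, hm₁⟩ := p2'
      refine ⟨max m₀ m₁, fun m hm => (hpure κ ψ _).mp ?_⟩
      have q2 := hm₀ m (le_trans (le_max_left _ _) hm)
      have q3 := hm₁ m (le_trans (le_max_right _ _) hm)
      rw [sat_ren] at q3
      have q4 := q2.sub q3
      refine (iff_of_eq ?_).mp q4
      congr 1
      funext c
      show (p.1.2 (s c m) - t c) - (p.1.2 (s' (Sum.inl c) m) - t c) =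
        p.1.2 (s c m - s' (Sum.inl c) m)
      rw [map_sub]
      abel
    have hf2 : ∀ c, f (g c) = MI.sh M (T c) - T c := hf
    have hf2' : ∀ c, f' (g' c) = MI.sh M (T' c) - T' c := hf'
    obtain ⟨e1, q2, q3⟩ := RPF_core a2 b3 c1 c2 (MI M) hMI (T - fun c => T' (Sum.inl c))
      (fun c => T' (Sum.inr c)) (fun m => by
        obtain ⟨-, t1, e, r1, r0, r2, r3⟩ := hT' m
        refine ⟨t1 - T, e, ?_, ?_, ?_, r3⟩
        · have r4 := r1.sub (Ent.sat (a1 m) hMI hT)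
          rw [← elim_sub, sub_self] at r4
          exact r4
        · have r4 := r0.sub hTT
          have r5 : (t1 - fun c => T' (Sum.inl c)) - (T - fun c => T' (Sum.inl c)) = t1 - T := by
            abel
          rw [r5] at r4
          exact r4
        · have r5 : (T - fun c => T' (Sum.inl c)) + (t1 - T) =
              t1 - fun c => T' (Sum.inl c) := by abel
          rw [r5]
          exact r2)
    obtain ⟨h, hh⟩ := h4 R X l Z Nz (MI M) gz _ hZ hMI q3.neg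
    have q4 : X.Null (f ∘ₗ v - f' ∘ₗ i - (MI.sh M ∘ₗ h - h)) := by
      refine h5 R X l Z Nz (MI M) gz _ hZ (hP _ _ ?_)
      have r1 := hθ.map f
      have r2 := k2.map f'
      have r3 := (q2.map (MI.sh M)).sub q2
      have r4 := (r1.add r2).sub r3
      refine (iff_of_eq ?_).mp r4
      congr 1
      funext c
      cases c with
      | inl c =>
        show f (g c) + f' (-g' (Sum.inl c)) -
          (MI.sh M (T c - T' (Sum.inl c)) - (T c - T' (Sum.inl c))) = 0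
        rw [map_neg, hf2, hf2', map_sub]
        abel
      | inr c =>
        show f (v (gz c)) + f' (e0 c) - (MI.sh M (e1 c) - e1 c) =
          f (v (gz c)) - f' (i (gz c)) - (MI.sh M (h (gz c)) - h (gz c))
        rw [hi, hh]
        show f (v (gz c)) + f' (e0 c) - (MI.sh M (e1 c) - e1 c) =
          f (v (gz c)) - f' (g' (Sum.inr c) - e0 c) -
            (MI.sh M (-(T' (Sum.inr c) - e1 c)) - -(T' (Sum.inr c) - e1 c))
        rw [map_sub f', hf2', map_neg, map_sub (MI.sh M)]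
        abel
    show X.exMap v M (X.exMk N M f) = X.exMap i M (X.exMk N' M f')
    rw [exMap_mk, exMap_mk, ← sub_eq_zero, ← map_sub, exMk_eq_zero]
    refine ⟨h, _, q4, ?_⟩
    abel

end Pool.Agent.VMF
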