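import Pool.Agent.VMF.StD

/-!
# VMF, TTS: every element of `TT` is the value of one fact (helper38)
-/

set_option autoImplicit false
set_option linter.unusedSectionVars false
set_option linter.unusedVariables false

namespace Pool.Agent.VMF

open Set Pool.Agent.MVC Pool.Agent.MVC.Ax

section

variable {R : Type} [Ring R]

/-- all formulas hold at the zero tuple -/
private theorem TTS_sat0 {κ : Type} (M : Type) [AddCommGroup M] [Module R M] (φ : PP R κ)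
    (x : κ → M) (hx : x = 0) : Sat φ M x := by
  rw [hx]
  exact Re.zero {φ} φ rfl

/-- the zero family is the value of the empty fact -/
private theorem TTS_zero (h2 : MVC.St_HEX) [Countable R] (U : Md R) {ι : Type} (a : ι → U)
    (Y : Md R) : (0 : EF U a Y) ∈ FV U a Y := by
  obtain ⟨N, g, hg⟩ := h2 R (Own R U) (Fin 0) (zer '' (∅ : Set (PP R (ι ⊕ Fin 0))) ∪ {[]})
  refine ⟨Fin 0, inferInstance, ∅, [], Fin.elim0, N, g, 0, ⟨?_, ?_, ?_⟩, hg, ?_⟩
  · intro φ hφ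
    exact absurd hφ (Set.notMem_empty φ)
  · have h1 : grp (R := R) U ({[]} : Set (PP R (Fin 0))) = ⊤ := by
      rw [eq_top_iff]
      intro x _ φ hφ
      exact TTS_sat0 U φ x (Subsingleton.elim _ _)
    unfold FIn
    rw [h1, AddSubgroup.relIndex_top_left]
    exact one_ne_zero
  · intro x _ φ hφ
    exact TTS_sat0 U φ x (Subsingleton.elim _ _)
  · intro p e he
    rw [exMap_zero]
    rfl

/-- scalar multiples of values of facts are values of facts -/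
private theorem TTS_smul (U : Md R) {ι : Type} (a : ι → U) (Y : Md R)
    (q : ((Own R U).Q Y)ᵐᵒᵖ) (d : EF U a Y) (hd : d ∈ FV U a Y) : q • d ∈ FV U a Y := by
  obtain ⟨κ, hκ, V, ψ, t, N, g, v, hF, hN, hv⟩ := hd
  obtain ⟨w, hw⟩ := Ideal.Quotient.mk_surjective (MulOpposite.unop q)
  have hq : q = MulOpposite.op (Ideal.Quotient.mk ((Own R U).nullIdeal Y) w) := by
    rw [hw, MulOpposite.op_unop]
  refine ⟨κ, hκ, V, ψ, t, N, g, v ∘ₗ w, hF, hN, fun p e he => ?_⟩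
  show q • d p = _
  rw [hv p e he, hq, smul_mk_ex, exMap_comp]

end

theorem thm_TTS (h1 : St_PRD) (h2 : MVC.St_HEX) : St_TTS := by
  intro R _ _ U hU ι _ a Y d hd
  refine Submodule.span_induction (p := fun x _ => x ∈ FV U a Y) (fun x hx => hx)
    (TTS_zero h2 U a Y) ?_ (fun q x _ hx => TTS_smul U a Y q x hx) hd
  rintro x y _ _ ⟨κ₁, hκ₁, V₁, ψ₁, t₁, N₁, g₁, v₁, hF₁, hN₁, hv₁⟩
    ⟨κ₂, hκ₂, V₂, ψ₂, t₂, N₂, g₂, v₂, hF₂, hN₂, hv₂⟩
  exact h1 R U hU ι κ₁ κ₂ a V₁ V₂ ψ₁ ψ₂ t₁ t₂ N₁ N₂ Y g₁ g₂ v₁ v₂ x y hF₁ hF₂ hN₁ hN₂ hv₁ hv₂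

end Pool.Agent.VMF
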