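import Pool.Agent.VMF.HCG
import Pool.Agent.VMF.CSF
import Pool.Agent.VMF.ACF
import Pool.Agent.VMF.EXG
import Pool.Agent.VMF.EXP
import Pool.Agent.VMF.ENU
import Pool.Agent.VMF.FIC
import Pool.Agent.VMF.AMP
import Pool.Agent.VMF.DRS
import Pool.Agent.VMF.DLX
import Pool.Agent.VMF.SEQ
import Pool.Agent.VMF.COS
import Pool.Agent.VMF.TTS
import Pool.Agent.VMF.ORF
import Pool.Agent.VMF.RPF
import Pool.Agent.VMF.PRE
import Pool.Agent.VMF.EXA
import Pool.Agent.VMF.EXB
import Pool.Agent.VMF.SPN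
import Pool.Agent.VMF.AGF
import Pool.Agent.VMF.NTH
import Pool.Agent.VMF.FEX
import Pool.Agent.VMF.UMT
import Pool.Agent.VMF.MDL
import Pool.Agent.VMF.AllQ
import Pool.Agent.VMF.PRD
import Pool.Agent.VMF.SHT
import Pool.Agent.VMF.TLA
import Pool.Agent.MVC.HEX
import Pool.Agent.MVC.EXT
import Pool.Agent.MVC.NULM
import Pool.Agent.MVC.MI
import Pool.Agent.MVC.HDS
import Pool.Agent.MVC.HPR

/-!
# VMF, block VMU (sections 5 and 6): assembly (helper8)
-/

set_option autoImplicit false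
set_option linter.unusedSectionVars false
set_option linter.unusedVariables false

namespace Pool.Agent.VMF

open Set Pool.Agent.MVC Pool.Agent.MVC.Ax

/-- every tuple of a model is exact, from the chain condition and one full module -/
theorem thm_UALL (hMDL : St_MDL) : St_UMT := by
  have hCSF : St_CSF := thm_CSF
  have hACF : St_ACF := thm_ACF
  have hPRD : St_PRD := thm_PRD all_FU2 thm_HPR thm_HCG
  have hDLX : St_DLX := thm_DLX (thm_SEQ thm_COS thm_FIC) thm_EXG thm_AMP thm_MIS thm_MIK thm_EX0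
  have hDRS : St_DRS := thm_DRS thm_EX0
  have hTTS : St_TTS := thm_TTS hPRD thm_HEX
  have hORF : St_ORF := thm_ORF hTTS hACF hCSF hDLX
  have hRPF : St_RPF := thm_RPF thm_AMP thm_FIC thm_HEX thm_EX0 thm_NUP thm_MIS
  have hPRE : St_PRE := thm_PRE thm_FEX hDRS all_QIS thm_HEX thm_ENU
  have hEXA : St_EXA := thm_EXA all_KIL thm_ENU thm_AMP hDLX thm_EXP thm_EX0 thm_MIS
  have hEXB : St_EXB := thm_EXB all_FUP all_FUI all_QIS hDRS hDLX thm_HDS
  have hSPN : St_SPN := thm_SPN hTTS hRPF hMDL hDLX hCSF hACF hPRE hEXA hEXB thm_HEX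
  have hAGF : St_AGF := thm_AGF hTTS hRPF hDLX hCSF hACF thm_HOMP
  have hNTH : St_NTH := thm_NTH hSPN hAGF hORF hACF
  exact thm_UMT hTTS hRPF hDLX hCSF hNTH thm_FEX thm_HEX prm_T

/-- block VMU complete -/
theorem all_UMT : St_UMT := thm_UALL thm_MDL

end Pool.Agent.VMF
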