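import Pool.Agent.VMF.TLA
import Pool.Agent.VMA.ALL

/-!
# VMF: Claim A without hypotheses (helper73)
-/

set_option autoImplicit false

namespace Pool.Agent.VMF

/-- CLAIM A for the saturated module with few types -/
theorem cla_T : St_CLA := thm_CLA VMA.all_ClaimA thm_SATP thm_HOMP tlq_T

end Pool.Agent.VMF
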