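import Pool.Agent.VMF.Defs
import Pool.Agent.VMF.StK

/-!
# VMF, block W: no infinite coindependent sequence of level-one groups (statements, helper22)

Paper: GC_VMF_STATE.md, section 3 (Lemma B, cases 0, 1, 2a, 2b, (R)). `U` is the countable saturated
module, models are elementary submodules `M` of `U` (`El U M`), types are sets of positive primitive
formulas, `V^1 = one U V`. Every `def St_X : Prop` is one module `VMF/X.lean`, theorem `thm_X`, in the
namespace `Pool.Agent.VMF`. The statements in the first section (`St_WPU` .. `St_WKI`) are the facts of the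
blocks T and Q in the form used here.
-/

set_option autoImplicit false
set_option linter.unusedSectionVars false
set_option linter.unusedVariables false

namespace Pool.Agent.VMF

open Set Pool.Agent.MVC Pool.Agent.MVC.Ax

section

variable {R : Type} [Ring R] {ι κ : Type}

/-- the type of `(c, b)` is generated by the type of `c` and the formula `θ` -/
def GenBy (U : Type) [AddCommGroup U] [Module R U] (c : κ → U) (b : ι → U) (θ : PP R (κ ⊕ ι)) :
    Prop :=
  Sat θ U (Sum.elim c b) ∧ ∀ (x : κ → U) (y : ι → U), Re (pp (R := R) U c) U x →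
    Sat θ U (Sum.elim x y) → Re (pp (R := R) U (Sum.elim c b)) U (Sum.elim x y)

/-- `N` contains the finite tuple `b`, and the type of each finite tuple of `N` over `b` is
generated by one formula -/
def AtOv (U : Md R) (b : κ → U) (N : Submodule R U) : Prop :=
  (∀ i, b i ∈ N) ∧ ∀ (l : ℕ) (c : Fin l → N), ∃ θ : PP R (κ ⊕ Fin l),
    GenBy U b (fun j => (c j : U)) θ

/-- A coindependent sequence of level-one groups, properly contained in the type `V` on the models. -/
def Coi (U : Md R) (V : Set (PP R ι)) (W : ℕ → L1 R ι) : Prop :=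
  (∀ i, ∀ M : Submodule R U, El U M → ∀ x : ι → M, Sat1 (W i) M x → Re V M x) ∧
  (∀ i, ∃ M : Submodule R U, El U M ∧ ∃ x : ι → M, Re V M x ∧ ¬ Sat1 (W i) M x) ∧
  ∀ M : Submodule R U, El U M → ∀ (A : Finset ℕ) (c : ℕ → ι → M), (∀ i, Re V M (c i)) →
    ∃ x : ι → M, Re V M x ∧ ∀ i ∈ A, Sat1 (W i) M (x - c i)

/-- The class of `t` modulo `q^1` (`q = S`) is realised in `M`. -/
def Rz (U : Md R) (S : Set (PP R ι)) (M : Submodule R U) (t : ι → U) : Prop :=
  ∃ y : ι → M, Re (one U S) U ((fun i => (y i : U)) - t)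

/-- `W` contains `V ∧ ψ`, of finite index in `V`, on the models -/
def Fi1 (U : Md R) (V : Set (PP R ι)) (W : L1 R ι) (ψ : PP R ι) : Prop :=
  FIn U V {ψ} ∧ ∀ M : Submodule R U, El U M → ∀ x : ι → M, Re V M x → Sat ψ M x → Sat1 W M x

/-- the type `V` in `m` separate blocks of variables -/
def pw (V : Set (PP R ι)) (m : ℕ) : Set (PP R (Fin m × ι)) :=
  ⋃ j : Fin m, ren (fun i => (j, i)) '' V

theorem re_pw (V : Set (PP R ι)) (m : ℕ) {M : Type} [AddCommGroup M] [Module R M]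
    (x : Fin m × ι → M) : Re (pw V m) M x ↔ ∀ j, Re V M (fun i => x (j, i)) := by
  constructor
  · intro h j
    have h1 : Re (ren (fun i => (j, i)) '' V) M x :=
      h.mono (subset_iUnion_of_subset j (Subset.refl _))
    rw [re_ren] at h1
    exact h1
  · intro h φ hφ
    obtain ⟨j, hj⟩ := mem_iUnion.mp hφ
    have h1 : Re (ren (fun i => (j, i)) '' V) M x := by
      rw [re_ren]
      exact h j
    exact h1 φ hj

/-- the variables `y` and `z_i`, `i ∈ A` -/
abbrev YZ (ι : Type) (W : ℕ → L1 R ι) (A : Finset ℕ) : Type := ι ⊕ ((i : A) × Fin (W i.1).1)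

/-- the type `V(y) ∧ ⋀_{i ∈ A} V_i(y, z_i)`, where `W i = ∃ z_i V_i(y, z_i)` -/
def yz (V : Set (PP R ι)) (W : ℕ → L1 R ι) (A : Finset ℕ) : Set (PP R (YZ ι W A)) :=
  ren Sum.inl '' V ∪ ⋃ i : A,
    ren (Sum.elim Sum.inl (fun j => Sum.inr ⟨i, j⟩) : ι ⊕ Fin (W i.1).1 → YZ ι W A) '' (W i.1).2

/-- the tuple `(y, z_A)` -/
def yzt {U : Type} {W : ℕ → L1 R ι} (A : Finset ℕ) (y : ι → U) (z : ∀ i, Fin (W i).1 → U) :
    YZ ι W A → U := Sum.elim y (fun p => z p.1.1 p.2)

theorem re_yz (V : Set (PP R ι)) (W : ℕ → L1 R ι) (A : Finset ℕ) {M : Type} [AddCommGroup M]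
    [Module R M] (x : YZ ι W A → M) : Re (yz V W A) M x ↔ Re V M (x ∘ Sum.inl) ∧
      ∀ i : A, Re (W i.1).2 M (Sum.elim (x ∘ Sum.inl) (fun j => x (Sum.inr ⟨i, j⟩))) := by
  have key : ∀ i : A, (x ∘ (Sum.elim Sum.inl (fun j => Sum.inr ⟨i, j⟩) :
      ι ⊕ Fin (W i.1).1 → YZ ι W A)) =
      Sum.elim (x ∘ Sum.inl) (fun j => x (Sum.inr ⟨i, j⟩)) := by
    intro i
    funext j
    cases j <;> rfl
  unfold yz
  rw [re_union, re_ren]
  refine and_congr Iff.rfl ?_
  constructor
  · intro h i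
    rw [← key, ← re_ren]
    exact fun φ hφ => h φ (mem_iUnion.2 ⟨i, hφ⟩)
  · intro h φ hφ
    obtain ⟨i, hi⟩ := mem_iUnion.1 hφ
    have h1 := h i
    rw [← key, ← re_ren] at h1
    exact h1 φ hi

end

/-! ### Facts from the blocks T and Q -/

/-- elementary submodules are pure -/
def St_WPU : Prop := ∀ (R : Type) [Ring R] [Countable R] (U : Md R), MonM R U →
  ∀ M : Submodule R U, El U M → ∀ (ι : Type) [Finite ι] (φ : PP R ι) (x : ι → M),
    Sat φ M x ↔ Sat φ U (fun i => (x i : U))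

/-- the elementary submodules are the countable models of the theory of `U`, up to isomorphism -/
def St_WEK : Prop := ∀ (R : Type) [Ring R] [Countable R] (U : Md R), MonM R U →
  (∀ M : Submodule R U, El U M → Countable M ∧ Mods (Th R U) M) ∧
  ∀ (M : Type) [AddCommGroup M] [Module R M], Countable M → Mods (Th R U) M →
    ∃ N : Submodule R U, El U N ∧ Nonempty (M ≃ₗ[R] N)

/-- homogeneity -/
def St_WHO : Prop := ∀ (R : Type) [Ring R] [Countable R] (U : Md R), MonM R U →
  ∀ (ι : Type) [Finite ι] (a b : ι → U), pp (R := R) U a = pp (R := R) U b →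
    ∃ γ : U ≃ₗ[R] U, ∀ i, γ (a i) = b i

/-- saturation for positive primitive formulas and their negations over a finite tuple -/
def St_WSA : Prop := ∀ (R : Type) [Ring R] [Countable R] (U : Md R), MonM R U →
  ∀ (κ ι : Type) [Finite κ] [Finite ι] (b : κ → U) (P N : Set (PP R (κ ⊕ ι))),
  (∀ s t : Finset (PP R (κ ⊕ ι)), ↑s ⊆ P → ↑t ⊆ N → ∃ x : ι → U,
    (∀ φ ∈ s, Sat φ U (Sum.elim b x)) ∧ ∀ φ ∈ t, ¬ Sat φ U (Sum.elim b x)) →
  ∃ x : ι → U, (∀ φ ∈ P, Sat φ U (Sum.elim b x)) ∧ ∀ φ ∈ N, ¬ Sat φ U (Sum.elim b x)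

/-- (TF4) generic elements of a coset of a type over a finite tuple -/
def St_WG4 : Prop := ∀ (R : Type) [Ring R] [Countable R] (U : Md R), MonM R U →
  ∀ (κ ι : Type) [Finite κ] [Finite ι] (c : κ → U) (S : Set (PP R ι)) (z₀ : ι → U),
  ∃ z : ι → U, Re S U (z - z₀) ∧ FIn U S (fib U c z)

/-- (TF3) prime models -/
def St_WPR : Prop := ∀ (R : Type) [Ring R] [Countable R] (U : Md R), MonM R U →
  ∀ (κ : Type) [Finite κ] (b : κ → U), ∃ N : Submodule R U, El U N ∧ AtOv U b N

/-- (TL) the limits of prime models over a countable family -/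
def St_WTL : Prop := ∀ (R : Type) [Ring R] [Countable R] (U : Md R), MonM R U →
  ∀ (I : Type) [Countable I] (c : I → U), ∃ M : Submodule R U, El U M ∧ ∃ c' : I → M,
    (∀ F : Finset I, pp (R := R) U (fun i : F => (c' i : U)) = pp (R := R) U (fun i : F => c i)) ∧
    ∀ (l : ℕ) (b : Fin l → M) (F₀ : Finset I), ∃ F : Finset I, F₀ ⊆ F ∧
      ∃ θ : PP R (F ⊕ Fin l), GenBy U (fun i : F => (c' i : U)) (fun j => (b j : U)) θ

/-- (TF5) classes of a formula modulo a formula of finite index have points in each model -/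
def St_WC5 : Prop := ∀ (R : Type) [Ring R] [Countable R] (U : Md R), MonM R U →
  ∀ M : Submodule R U, El U M → ∀ (ι : Type) [Finite ι] (χ ψ : PP R ι) (t : ι → U),
  Sat χ U t → FIn U {χ} {ψ} → ∃ y : ι → M, Sat χ U (fun i => (y i : U)) ∧
    Sat ψ U ((fun i => (y i : U)) - t)

/-- (TF6) classes of a full type modulo a formula of finite index have points in each model -/
def St_WC6 : Prop := ∀ (R : Type) [Ring R] [Countable R] (U : Md R), MonM R U →
  ∀ M : Submodule R U, El U M → ∀ (ι : Type) [Finite ι] (S : Set (PP R ι)) (ψ : PP R ι)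
  (t : ι → U), Full U S → Re S U t → FIn U S {ψ} → ∃ y : ι → M, Re S U (fun i => (y i : U)) ∧
    Sat ψ U ((fun i => (y i : U)) - t)

/-- (Claim A, 0.1) `q^1` is a full subtype of finite index -/
def St_WON : Prop := ∀ (R : Type) [Ring R] [Countable R] (U : Md R), MonM R U → ClaimA U →
  ∀ (ι : Type) [Finite ι] (S : Set (PP R ι)), Full U (one U S) ∧
    ∀ x : ι → U, Re (one U S) U x → Re S U x

/-- subtypes of finite index of full types are full -/
def St_WFF : Prop := ∀ (R : Type) [Ring R] [Countable R] (U : Md R), MonM R U →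
  ∀ (ι : Type) [Finite ι] (S S' : Set (PP R ι)), Full U S → FIn U S S' →
  (∀ x : ι → U, Re S' U x → Re S U x) → Full U S'

/-- 0.3 (KILL) -/
def St_WKI : Prop := ∀ (R : Type) [Ring R] [Countable R] (U : Md R), MonM R U →
  ∀ (κ ι : Type) [Finite κ] [Finite ι] (S : Set (PP R κ)) (θ : PP R (κ ⊕ ι)) (W : Set (PP R ι)),
  Full U S → (∀ u : κ → U, Re S U u → ∃ y : ι → U, Sat θ U (Sum.elim u y)) →
  (∀ (u : κ → U) (y : ι → U), Re S U u → Sat θ U (Sum.elim u y) → Re W U y) →
  ∀ (u : κ → U) (y : ι → U), Re S U u → Sat θ U (Sum.elim u y) → Re (one U W) U y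

/-! ### Small tools -/

/-- [WCR] Chinese remainders. Pure algebra. Induction on `n` for `A = range n` (enlarge `A`): given `x'`
with `x' - c i ∈ H i` for `i < n`, write `c n - x' = w + v`, `w ∈ H n`, `v ∈ H l` for `l < n`; take
`x = x' + v`: `x - c n = -w`. -/
def St_WCR : Prop := ∀ (G : Type) [AddCommGroup G] (H : ℕ → AddSubgroup G),
  (∀ i x, ∃ w ∈ H i, ∀ l < i, x - w ∈ H l) → ∀ (A : Finset ℕ) (c : ℕ → G),
    ∃ x, ∀ i ∈ A, x - c i ∈ H i

/-- [WRD] Reduction of `T1F (KU R U)` to a type `V`. Let `D = ∃ t V(x, t)`, `t` of length `k`. Use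
`Fin n ⊕ Fin k ≃ Fin (n + k)` (`ren`, `ren1`); `W'_i := V(x, t) ∧ W_i(x)`, i.e. the length of the bound
tuple of `W_i` and the union of the two sets of formulas (renamed). Members of the class are
elementary submodules (`St_WEK`; `Sat1` is invariant under isomorphisms, `Sat1.map`). (1) clear. (2) from
`¬ Le1 D (W i)`: `M`, `x` with `D(x)`, not `W_i(x)`, `t` the witness. (3) `St_WCR` for `G` = the group of the
`(x, t)` with `V` in `M` (a subgroup of `Fin n ⊕ Fin k → M`), `H i` = the subgroup `W'_i`: given `(x, t)` in `V`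
take `w` with `W_i(w)`, `W_l(x - w)` for `l < i`; `W_i ≤ D` gives `t₁` with `V(w, t₁)`;
`(x, t) = (w, t₁) + (x - w, t - t₁)`. -/
def St_WRD : Prop := ∀ (R : Type) [Ring R] [Countable R] (U : Md R), MonM R U →
  (∀ (n : ℕ) (V : Set (PP R (Fin n))) (W : ℕ → L1 R (Fin n)), ¬ Coi U V W) → T1F (KU R U)

/-- [WSB] Subsequences. For `A`, `c` use `A.image f` and `c' (f i) = c i`. -/
def St_WSB : Prop := ∀ (R : Type) [Ring R] (U : Md R) (ι : Type) (V : Set (PP R ι))
  (W : ℕ → L1 R ι) (f : ℕ → ℕ), Function.Injective f → Coi U V W → Coi U V (fun i => W (f i))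

/-- [WFC] Compactness: a subtype of finite index is given by one formula. Let `r_1, .., r_m` represent
the cosets of `grp U S' ⊓ grp U S` in `grp U S` which are not the trivial one. For each `r_i` some finite
part of `S'` is not satisfied by all elements of `r_i + S'`; precisely, `r_i ∉ grp U S'`, so some
`φ_i ∈ S'` has `¬ Sat φ_i U r_i`. Let `ψ` be the conjunction of the `φ_i` (`IsPP.and`, `isPP_finset`;
`ψ = []` or any `φ ∈ S'` for `m = 0`). If `S(x)`, `ψ(x)` and `x ∈ r_i + S'` then `r_i = x - s`, `φ_i(r_i)`.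
`FIn U S {ψ}`: `grp U S' ⊓ grp U S ≤ grp U {ψ}`. (No saturation is needed.) -/
def St_WFC : Prop := ∀ (R : Type) [Ring R] (U : Md R) (ι : Type) (S S' : Set (PP R ι)),
  FIn U S S' → ∃ ψ : PP R ι, FIn U S {ψ} ∧ (∀ x : ι → U, Re S' U x → Sat ψ U x) ∧
    ∀ x : ι → U, Re S U x → Sat ψ U x → Re S' U x

/-- [WPJ] Projections of types of tuples: `St_WSA` with the tuple `x` as parameter: for finitely many
`φ_j ∈ pp(c, d)` the formula `∃ y ⋀ φ_j(x, y)` is in `pp(c)`. -/
def St_WPJ : Prop := ∀ (R : Type) [Ring R] [Countable R] (U : Md R), MonM R U →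
  ∀ (κ ι : Type) [Finite κ] [Finite ι] (c : κ → U) (d : ι → U) (x : κ → U),
  Re (pp (R := R) U c) U x → ∃ y : ι → U,
    Re (pp (R := R) U (Sum.elim c d)) U (Sum.elim x y)

/-- [WGV] Generic tuples. Induction on `m`: `c` = the tuple `(g 0, .., g (m - 1))`, `g m` from `St_WG4` for `V^1`
and `z m`; `FIn U V (one U V)` (`ClaimA`), so `fib U c (g m)` has finite index in `V`; the projection of
`grp U (pp U (g 0, .., g m))` to the first blocks is `grp U (pp U c)` (`St_WPJ`), of finite index in the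
projection of `grp U (pw V (m + 1))`; the kernels have finite index by the choice of `g m`; the index of a
subgroup `P'` of `P` is at most the product of the indices of the images and of the kernels. -/
def St_WGV : Prop := ∀ (R : Type) [Ring R] [Countable R] (U : Md R), MonM R U → ClaimA U →
  ∀ (ι : Type) [Finite ι] (V : Set (PP R ι)) (m : ℕ) (z : Fin m → ι → U), (∀ j, Re V U (z j)) →
  ∃ g : Fin m → ι → U, (∀ j, Re V U (g j)) ∧ (∀ j, Re (one U V) U (g j - z j)) ∧
    FIn U (pw V m) (pp (R := R) U (fun p : Fin m × ι => g p.1 p.2))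

/-! ### Case 0 -/

/-- [WC0] Case 0. If `x ∈ V(U)` does not satisfy `W k` in `U`, then for some finite part `s` of `(W k).2`
the formula `ρ_k(x) := ∃ z ⋀ s(x, z)` is not satisfied by `x` (`St_WSA` with the parameter `x`), and
`W k ≤ ρ_k`. Suppose that there are infinitely many such `k`: an injective `f : ℕ → ℕ` and `ρ_j`, `x_j`
(`k = f j`). For `S : Set ℕ` and a finite set `A` there is `x` in `V(U)` with `W_(f j)(x)` for `j ∈ A ∩ S` and
`W_(f j)(x - x_j)` for `j ∈ A \ S` (`Coi` for `M = ⊤`, `c (f j) = 0` or `x_j`): `ρ_j(x) ↔ j ∈ S`. By `St_WSA` (no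
parameters) there is `x_S` in `V(U)` with `ρ_j(x_S) ↔ j ∈ S` for all `j`; `S ↦ x_S` is injective, but
`U` is countable (`Mon.ctb`). (`El U ⊤` is trivial.) -/
def St_WC0 : Prop := ∀ (R : Type) [Ring R] [Countable R] (U : Md R), MonM R U →
  ∀ (ι : Type) [Finite ι] (V : Set (PP R ι)) (W : ℕ → L1 R ι), Coi U V W →
  {k | ∃ x : ι → U, Re V U x ∧ ¬ Sat1 (W k) U x}.Finite

/-! ### Lemma B and case 1 -/

/-- [WLB] Lemma B. `g 0, .., g N` from `St_WGV` (`z = 0`), `b (j, i) = g j i`, a model `M` with `AtOv U b M`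
(`St_WPR`). Some `g j - g l` satisfies `W` in `M` (`j ≠ l`), witness `t` in `M`, `θ` for `t` over `b`. Let
`V' := {x ∈ V : x at the place j and 0 elsewhere satisfies pp U b}`: a type (`exists_subst_set`,
MVC/Api3.lean), of finite index in `V` (preimage of a subgroup of finite index of `grp U (pw V (N + 1))`
under `x ↦ (x at place j)`); `ψ` from `St_WFC`. If `M'` is a model, `x ∈ V(M')`, `ψ(x)`, then `x̂ := (x at j)`
satisfies `pp U b` in `U`, so `∃ t' θ(x̂, t')` (this formula is in `pp U b`), `t'` in `M'` (`St_WPU`), and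
`(x̂, t')` satisfies `pp(b, t)`, which contains `(W).2 (y_j - y_l, t)` (`exists_subst_set` again, or `Re` of the
substituted tuple): `W(x)`. -/
def St_WLB : Prop := ∀ (R : Type) [Ring R] [Countable R] (U : Md R), MonM R U → ClaimA U →
  ∀ (ι : Type) [Finite ι] (V : Set (PP R ι)) (W : L1 R ι) (N : ℕ),
  (∀ M : Submodule R U, El U M → ∀ g : Fin (N + 1) → ι → M, (∀ j, Re V M (g j)) →
    ∃ j l, j ≠ l ∧ Sat1 W M (g j - g l)) → ∃ ψ : PP R ι, Fi1 U V W ψ

/-- [WGS] The generic sequence of case 1. `y` generic in `V` (`St_WG4` with `κ = Empty` or `Fin 0`,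
`z₀ = 0`); `z_i` from `St_WG4` over `c = (y, z_0, .., z_(i-1))` for the type `zer '' (W i).2` and a tuple `z₀`
with `(W i).2 (y, z₀)` (exists as `V(U) ≤ W_i(U)`). For `A = range m`: induction on `m`, the projection of
`grp U (yz V W (range (m + 1)))` to the earlier variables is onto (again `V(U) ≤ W_m(U)`), the projection of
the type of the tuple by `St_WPJ`; kernels: choice of `z_m`. For general `A ⊆ range m`: the projection
`grp U (yz V W (range m)) → grp U (yz V W A)` is onto (extend by any witnesses), it maps the type of the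
long tuple onto the type of the short one (`St_WPJ`); indices of images. (A convenient form: construct
the sequence of the tuples by recursion with the type `(y, z_0, .., z_(i-1))` as an element of
`YZ ι W (range i) → U`.) -/
def St_WGS : Prop := ∀ (R : Type) [Ring R] [Countable R] (U : Md R), MonM R U →
  ∀ (ι : Type) [Finite ι] (V : Set (PP R ι)) (W : ℕ → L1 R ι),
  (∀ i, ∀ x : ι → U, Re V U x → Sat1 (W i) U x) →
  ∃ (y : ι → U) (z : ∀ i, Fin (W i).1 → U), Re V U y ∧
    (∀ i, Re (W i).2 U (Sum.elim y (z i))) ∧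
    ∀ A : Finset ℕ, FIn U (yz V W A) (pp (R := R) U (yzt (R := R) A y z))

/-- [WIX] `k ∉ A`, and `W k` contains the projection of a type `P` of finite index in `yz V W A`: then the
indices of `W k(M)` in `V(M)` are bounded. `N` := the index. Given `g 0, .., g N` in `V(M)` choose by `Coi`
(finite set `insert k A`, `c k = g j`, `c l = 0` else) `x_j` in `V(M)` with `W_l(x_j)` for `l ∈ A` and
`W_k(x_j - g_j)`; witnesses give `v_j` in `M` with `yz V W A` and `y`-part `x_j`. Pigeonhole in `U`: `j ≠ l` with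
`v_j - v_l ∈ grp U P` (the cosets of `grp U P` in `grp U (yz V W A)`), so `W_k(x_j - x_l)` in `M`; and
`g_j - g_l = (x_j - x_l) - (x_j - g_j) + (x_l - g_l)`. -/
def St_WIX : Prop := ∀ (R : Type) [Ring R] [Countable R] (U : Md R), MonM R U →
  ∀ (ι : Type) [Finite ι] (V : Set (PP R ι)) (W : ℕ → L1 R ι), Coi U V W →
  ∀ (A : Finset ℕ) (k : ℕ), k ∉ A → ∀ P : Set (PP R (YZ ι W A)), FIn U (yz V W A) P →
  (∀ M : Submodule R U, El U M → ∀ v : YZ ι W A → M, Re P U (fun i => (v i : U)) →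
    Sat1 (W k) M (v ∘ Sum.inl)) →
  ∃ N : ℕ, ∀ M : Submodule R U, El U M → ∀ g : Fin (N + 1) → ι → M, (∀ j, Re V M (g j)) →
    ∃ j l, j ≠ l ∧ Sat1 (W k) M (g j - g l)

/-- [WC1] Case 1. `y`, `z` from `St_WGS`. For `S : Set ℕ` let `I = ι ⊕ (i : S) × Fin (W i).1`, `c = (y, z_i)`, `M_S`,
`c'` from `St_WTL`. Then `W_k(c' ∘ inl)` in `M_S` iff `k ∈ S`: for `k ∈ S` the tuple `z_k` (`(y, z_k)` and
its copy have the same type, `St_WPU`). Let `k ∉ S`, `t` in `M_S` with `(W k).2 (y', t)`; `F ⊇` all `inl i`, `θ` from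
`St_WTL`; `A` := the set of all `i` which occur in `F`, `P := pp U (yzt A y z)`. For a model `M` and `v` in `M` with
`P(v)` the part of `v` with the indices in `F` satisfies `pp(c'|F)` (equal to the type of `c|F`), so there is
`t'` in `M` with `θ(v|F, t')` (`∃ t' θ` is in the type; `St_WPU`) and `(W k).2 (v ∘ inl, t')`. So `St_WIX` and
`St_WLB` contradict the last hypothesis. Hence `S ↦ tp1 M_S (c' ∘ inl)` is injective: contradiction to
`few1` (`St_WEK`), as `Set ℕ` is not countable. -/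
def St_WC1 : Prop := ∀ (R : Type) [Ring R] [Countable R] (U : Md R), MonM R U → ClaimA U →
  FewT R U → ∀ (ι : Type) [Finite ι] (V : Set (PP R ι)) (W : ℕ → L1 R ι), Coi U V W →
  (∀ i, ∀ x : ι → U, Re V U x → Sat1 (W i) U x) → (∀ i, ∀ ψ : PP R ι, ¬ Fi1 U V (W i) ψ) → False

/-! ### Case 2 -/

/-- [WRR] (R). Let `c` in `N` with `S(c)`, `θ` for `c` over `b` (re-index `ι ≃ Fin l`, `ren (Sum.map id e)`). `∃ y θ(b'', y)` holds in `U` (`b''` satisfies
`pp U b`, as `b'' - b` does: `St_WON`), so `y` in `M` (`St_WPU`), and `(b'', y)` satisfies `pp(b, c)`. The difference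
`(b'' - b, y - c)` satisfies `θ`, and `b'' - b` is in `(pp U b)^1`, a full type. `St_WKI` for the full type
`one U (pp U b)`, `θ` and `W = S`: if `u` satisfies `pp U b` and `θ(u, y)` then `(u, y)` satisfies `pp(b, c)`, so
`S(y)`. Hence `y - c` is in `S^1`. -/
def St_WRR : Prop := ∀ (R : Type) [Ring R] [Countable R] (U : Md R), MonM R U → ClaimA U →
  ∀ (κ : Type) [Finite κ] (b : κ → U) (N M : Submodule R U), El U N → El U M → AtOv U b N →
  ∀ b'' : κ → M, Re (one U (pp (R := R) U b)) U ((fun i => (b'' i : U)) - b) →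
  ∀ (ι : Type) [Finite ι] (S : Set (PP R ι)) (c : ι → N), Re S U (fun i => (c i : U)) →
    Rz U S M (fun i => (c i : U))

/-- [WOP] `p` of finite index in `V^m` implies `p^1 ≥ p ∧ (V^1)^m` (equality holds). Let `χ` be a formula
contained in `pw V m`... precisely: `S' ≤ S` of finite index, then `S ∧ S'^1 ≤ ..`: if `ψ ∈ one U S'` then
`x ∈ S'`, `x ∈ one U S` imply `ψ(x)`. Proof: `FIn U S' {ψ}`, `PIn U S' {ψ}`; by `St_WFC` `S'` is `S ∧ ψ'`. Let
`T := {φ : ∀ x, S'(x) → ψ(x) → φ(x)}`-like type `S ∧ ψ' ∧ ψ`, of finite index in `S`. Let `H := grp U (S ∧ ψ' ∧ ψ)` and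
let `H₁` be the subgroup of `grp U S` generated by `H` and all `grp U {χ}`, `χ` a formula contained in `S`
(finite index, so `H₁ = H + grp U {χ₀}` for one `χ₀`, as `χ₁ + χ₂` is a formula). `H₁` is the group of a type
(`St_WSA`), so by `St_WFC` `H₁ = grp U (S ∧ ψ₁)`, `ψ₁ ∈ one U S`. So `x` in `one U S` is in `H₁`: `x = h + u`, `u ∈ χ₀(U)`;
if moreover `x ∈ S'` then `u = x - h ∈ S'`, `u ∈ χ₀ ∧ ψ'`, a formula contained in `S'`, so `ψ(u)` by `PIn`; so
`ψ(x)`. -/
def St_WOP : Prop := ∀ (R : Type) [Ring R] [Countable R] (U : Md R), MonM R U →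
  ∀ (ι : Type) [Finite ι] (S S' : Set (PP R ι)), FIn U S S' →
  (∀ x : ι → U, Re S' U x → Re S U x) →
  ∀ x : ι → U, Re S' U x → Re (one U S) U x → Re (one U S') U x

/-- [WPP] `(V^1)^m` is contained in `(V^m)^1` (`V^m = pw V m`). Let `ψ ∈ one U (pw V m)`. For a place `j` let `ψ_j(x)`
be `ψ(x at j, 0 elsewhere)` (`exists_subst_set` for one formula, or `IsPP.subst`): `FIn U V {ψ_j}` (preimage) and
`PIn U V {ψ_j}` (if the formula `χ` is contained in `V` then `χ(x at j) ∧ (other places are 0)` is a formula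
contained in `pw V m`; `isPP_zero`). So `ψ_j ∈ one U V`, and `x = Σ_j (x_j at j)`. -/
def St_WPP : Prop := ∀ (R : Type) [Ring R] [Countable R] (U : Md R), MonM R U →
  ∀ (ι : Type) [Finite ι] (V : Set (PP R ι)) (m : ℕ) (x : Fin m × ι → U),
  (∀ j, Re (one U V) U (fun i => x (j, i))) → Re (one U (pw V m)) U x

/-- [WRV] Variant of (R): `b = (g_0, .., g_(m-1))` generic in `V` (`pp U b` of finite index in `pw V m`), and for
each `j` some `y_j` in `V(M)` is congruent to `g_j` modulo `V^1`. Then there is `b''` in `M` as in `St_WRR`. Let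
`b' := (y_j)`, `d := b' - b`, all blocks in `V^1`, so `d ∈ (pw V m)^1` (`St_WPP`), a full type (`St_WON`). `ψ` from
`St_WFC` for `pp U b` in `pw V m` (`pw V m (x) ∧ ψ(x) → pp U b (x)`). `FIn U (one U (pw V m)) {ψ}`; `St_WC6`: `u` in `M`
with `one U (pw V m)(u)`, `ψ(u - d)`. `b'' := b' - u`: `b'' - b = d - u` satisfies `ψ`, `one U (pw V m)`, so
`pp U b`, and by `St_WOP` (`S = pw V m`, `S' = pp U b`) it is in `one U (pp U b)`. -/
def St_WRV : Prop := ∀ (R : Type) [Ring R] [Countable R] (U : Md R), MonM R U → ClaimA U →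
  ∀ (ι : Type) [Finite ι] (V : Set (PP R ι)) (m : ℕ) (g : Fin m → ι → U), (∀ j, Re V U (g j)) →
  FIn U (pw V m) (pp (R := R) U (fun p : Fin m × ι => g p.1 p.2)) →
  ∀ M : Submodule R U, El U M → (∀ j, Rz U V M (g j)) →
  ∃ b'' : Fin m × ι → M, Re (one U (pp (R := R) U (fun p : Fin m × ι => g p.1 p.2))) U
    ((fun p => (b'' p : U)) - fun p => g p.1 p.2)

/-- [WIM] Images modulo `V ∧ ψ`. `N`, `M` models, `V ∧ ψ ≤ W` (`Fi1`), each class of `V(M)` modulo `V^1` is realised
in `N`, each class of a tuple `c` in `N` which satisfies the type `S_W := ren inl '' V ∪ (W).2` (in the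
variables `(y, z)`) is realised in `M`. If `V(N) ≤ W(N)` then `V(M) ≤ W(M)`. Proof. `x ∈ V(M)`; `x₀` in `N` with
`x - x₀ ∈ V^1(U)`; `u` in `N` with `V^1(u)`, `ψ(u - (x - x₀))` (`St_WC6`, `V^1` full, `FIn U (one U V) {ψ}`); `x₁ := x₀ + u`
in `V(N)`, `x - x₁` satisfies `V` and `ψ`. So `W(x₁)` in `N`: `c = (x₁, z)`. `c''` in `M` with `c'' - c ∈ S_W^1(U)`; `u'`
in `M` with `S_W^1(u')` and `ψ(y-part of u' - (c'' - c))` (`St_WC6`; the formula `ren inl ψ` has finite index in
`S_W`, so in `S_W^1`). `c₃ := c'' - u'` in `M` satisfies `S_W`; its `y`-part `x₃` satisfies `W` in `M` and `x₃ - x₁`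
satisfies `V ∧ ψ`; so `x - x₃` in `M` satisfies `V ∧ ψ`, so `W`; `x = (x - x₃) + x₃`. (`St_WPU` throughout.) -/
def St_WIM : Prop := ∀ (R : Type) [Ring R] [Countable R] (U : Md R), MonM R U → ClaimA U →
  ∀ (n : ℕ) (V : Set (PP R (Fin n))) (W : L1 R (Fin n)) (ψ : PP R (Fin n)) (N M : Submodule R U),
  El U N → El U M → Fi1 U V W ψ →
  (∀ x : Fin n → M, Re V M x → Rz U V N (fun i => (x i : U))) →
  (∀ c : Fin n ⊕ Fin W.1 → N, Re (ren Sum.inl '' V ∪ W.2) U (fun i => (c i : U)) →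
    Rz U (ren Sum.inl '' V ∪ W.2) M (fun i => (c i : U))) →
  (∀ x : Fin n → N, Re V N x → Sat1 W N x) → ∀ x : Fin n → M, Re V M x → Sat1 W M x

/-- [W2A] One model. For each `k` a model `M_k` with `W_k(M_k) ≠ V(M_k)`. `Φ(M) := {x + V^1(U) : x ∈ V(M)}`, a
subset of the finite set of the cosets of `grp U (one U V)` in `grp U V` (`ClaimA`); for an infinite set `J` of
`k` it is the same set `Φ'`. Let `z_0, .., z_(m-1)` in `V(U)` represent `Φ'`, `g` from `St_WGV`, `N` from `St_WPR` for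
`b = (g_0, .., g_(m-1))`. For `k ∈ J`: by `St_WRV`, `St_WRR` each class of a tuple of `N` in a type `S` is
realised in `M_k`; in particular the classes of `V(N)` are in `Φ'`, and they are all of `Φ'` (`g_j` in `N`). So
`St_WIM` (contrapositive, `S = ren inl '' V ∪ (W k).2` in the variables `Fin n ⊕ Fin (W k).1 ≃ Fin _`) gives
`W_k(N) ≠ V(N)`. -/
def St_W2A : Prop := ∀ (R : Type) [Ring R] [Countable R] (U : Md R), MonM R U → ClaimA U →
  ∀ (n : ℕ) (V : Set (PP R (Fin n))) (W : ℕ → L1 R (Fin n)), Coi U V W →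
  (∀ i, ∃ ψ : PP R (Fin n), Fi1 U V (W i) ψ) →
  ∃ (κ : Type) (_ : Finite κ) (b : κ → U) (N : Submodule R U), El U N ∧ AtOv U b N ∧
    {k | ∃ x : Fin n → N, Re V N x ∧ ¬ Sat1 (W k) N x}.Infinite

/-- [WIN] Invariance. `x ∈ W(N) + (V ∧ ψ)(U)` is invariant under the automorphisms which fix `b`. Let
`w` in `N`, `W(w)`, witness `z`, `c = (w, z)` in `N`, `θ` for `c` over `b`. `(b, γ c)` and `(b, c)` satisfy `θ`, so
`(0, γ c - c)` satisfies `θ`; the formula `χ := zer θ` is contained in `S := ren inl '' V ∪ (W).2` (as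
`(0, y)` with `θ(0, y)` satisfies `pp(b, c)`). `St_WC5`: `u` in `N` with `χ(u)`, `ψ` at the `y`-part of
`u - (γ c - c)` (`FIn U {χ} {ren inl ψ}` because `χ ≤ S ≤ V` and `FIn U V {ψ}`). The `y`-part `u₀` of `u` satisfies `W` in
`N`, `γ w = (w + u₀) + ((γ w - w) - u₀)`, the last summand satisfies `V` and `ψ`. For `x = w + v`, `v ∈ (V ∧ ψ)(U)`:
`γ x = γ w + γ v`, `γ v ∈ (V ∧ ψ)(U)`. -/
def St_WIN : Prop := ∀ (R : Type) [Ring R] [Countable R] (U : Md R), MonM R U →
  ∀ (κ : Type) [Finite κ] (b : κ → U) (N : Submodule R U), El U N → AtOv U b N →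
  ∀ (n : ℕ) (V : Set (PP R (Fin n))) (W : L1 R (Fin n)) (ψ : PP R (Fin n)),
  (∀ x : Fin n → N, Sat1 W N x → Re V N x) → Fi1 U V W ψ →
  ∀ γ : U ≃ₗ[R] U, (∀ i, γ (b i) = b i) → ∀ (x : Fin n → U) (w : Fin n → N), Sat1 W N w →
    Re V U (x - fun i => (w i : U)) → Sat ψ U (x - fun i => (w i : U)) →
    ∃ w' : Fin n → N, Sat1 W N w' ∧ Re V U ((fun i => γ (x i)) - fun i => (w' i : U)) ∧
      Sat ψ U ((fun i => γ (x i)) - fun i => (w' i : U))

/-- [WIS] Saturation for invariant clopen sets. Choose `x j ∈ Z j`. The formulas `PP R (κ ⊕ ι)` are countable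
(`R` is countable): a diagonal subsequence of `x` such that for each `φ` the truth value of `φ(b, x j)` is
eventually constant (or an ultrafilter on `ℕ`: `φ ∈ p` iff `φ(b, x j)` for almost all `j`; choose a
nonprincipal one, `Filter.hyperfilter ℕ`). `St_WSA`: `x` with `φ(b, x) ↔ φ ∈ p` for all `φ`; `x ∈ V(U)`. Claim:
`x ∈ Z m`. Otherwise let `r_1, .., r_s` represent the cosets of `V ∧ ψ m` in `V` (`FIn`). For `P`, `N` finite
parts of the type of `x` over `b` (true, false formulas) there is `j ≥ m` with `x j` satisfying them; `x j` is in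
`Z m`, in one of the cosets. One coset `r + (V ∧ ψ m)` works for all finite parts (finitely many cosets,
directed), and `St_WSA` with the parameters `(b, r)` gives `x'` in `V`, `ψ m (x' - r)`, `pp(b, x') = pp(b, x)`; the
`x j` in this coset show `x' ∈ Z m` (saturated). `St_WHO`: `γ` with `γ b = b`, `γ x' = x`: `x ∈ Z m`. -/
def St_WIS : Prop := ∀ (R : Type) [Ring R] [Countable R] (U : Md R), MonM R U →
  ∀ (κ ι : Type) [Finite κ] [Finite ι] (b : κ → U) (V : Set (PP R ι)) (ψ : ℕ → PP R ι)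
  (Z : ℕ → Set (ι → U)), (∀ m, FIn U V {ψ m}) → (∀ m, (Z m).Nonempty) →
  (∀ m, Z (m + 1) ⊆ Z m) → (∀ m, ∀ x ∈ Z m, Re V U x) →
  (∀ m, ∀ x ∈ Z m, ∀ x' : ι → U, Re V U (x' - x) → Sat (ψ m) U (x' - x) → x' ∈ Z m) →
  (∀ m, ∀ x ∈ Z m, ∀ γ : U ≃ₗ[R] U, (∀ i, γ (b i) = b i) → (fun i => γ (x i)) ∈ Z m) →
  ∃ x : ι → U, ∀ m, x ∈ Z m

/-- [W2B] Case 2b. Let `f : ℕ → ℕ` be injective with `W_(f j)(N) ≠ V(N)`, `a_j ∈ V(N)` not in `W_(f j)(N)`; `ψ_j` for
`W_(f j)`. `G_j := {x ∈ V(U) : ∃ w ∈ W_(f j)(N), x - w ∈ (V ∧ ψ_j)(U)}`: a subgroup, invariant under the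
automorphisms which fix `b` (`St_WIN`), and `G_j ∩ N = W_(f j)(N)` (if `x` in `N` then `x - w` in `N` satisfies `V`
and `ψ_j`, so `W_(f j)` by `Fi1`). For `S : Set ℕ` let `Z_m := {x ∈ V(U) : ∀ j < m, (x ∈ G_j ↔ j ∈ S)}`, not empty by
`Coi` for `N` (`c (f j) = 0` or `a_j`), saturated under `V ∧ ψ_0 ∧ .. ∧ ψ_(m-1)`. `St_WIS`: `x_S` in all `Z_m`;
`S ↦ x_S` is injective, `U` is countable. -/
def St_W2B : Prop := ∀ (R : Type) [Ring R] [Countable R] (U : Md R), MonM R U →
  ∀ (κ : Type) [Finite κ] (b : κ → U) (N : Submodule R U), El U N → AtOv U b N →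
  ∀ (n : ℕ) (V : Set (PP R (Fin n))) (W : ℕ → L1 R (Fin n)), Coi U V W →
  (∀ i, ∃ ψ : PP R (Fin n), Fi1 U V (W i) ψ) →
  {k | ∃ x : Fin n → N, Re V N x ∧ ¬ Sat1 (W k) N x}.Infinite → False

/-- [WAS] Assembly: no coindependent sequence. By `St_WC0` and `St_WSB` w.l.o.g. `V(U) ≤ W_i(U)` for all `i`. If
infinitely many `i` have no `ψ` with `Fi1`, pass to them: `St_WC1`. Otherwise pass to the others: `St_W2A`,
`St_W2B`. Finally `St_WRD`. -/
def St_WAS : Prop := ∀ (R : Type) [Ring R] [Countable R] (U : Md R), MonM R U → ClaimA U →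
  FewT R U → T1F (KU R U)

end Pool.Agent.VMF
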