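import Pool.Agent.VMF.StC
import Pool.Agent.VMF.StT
import Pool.Agent.VMF.StF
import Pool.Agent.VMF.StW
import Pool.Agent.VMF.BRI
import Pool.Agent.VMF.HPP
import Pool.Agent.MVC.OWN
import Pool.Agent.MVC.FOR

/-!
# VMF, block C: the structures `TB U` and `QB U` for the saturated module (helper58)
-/

set_option autoImplicit false
set_option linter.unusedSectionVars false
set_option linter.unusedVariables false

namespace Pool.Agent.VMF

open Set Pool.Agent.MVC Pool.Agent.MVC.Ax

/-- an elementary submodule as an element of `AM` -/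
private def TBU_am {R : Type} [Ring R] {U : Md R} (M : Submodule R U) (hM : El U M) :
    AM U (fun i : Fin 0 => (i.elim0 : U)) :=
  ⟨⟨⟨M⟩, M.subtype⟩, ⟨M, hM, ⟨LinearEquiv.refl R M⟩⟩, fun n φ x h => (el_sat hM φ x).2 h,
    fun i => i.elim0⟩

/-- `TB` for the saturated module -/
theorem thm_TBU (hPRM : St_PRM) (hWG4 : St_WG4) (hTF6 : St_TF6) (hTLI : St_TLI) (hENU : St_ENU)
    {R : Type} [Ring R] [Countable R] {U : Md R} (hU : MonM R U) : TB U where
  ctbl := mon_ctbl hU
  sat := fun κ ι _ _ a A B h => sat_pp hU a A B h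
  hom := fun κ _ a b h => thm_HPP hU h
  ent := fun ι _ S ψ h => hENU R U hU ι S ψ h
  mods := fun M hM => el_mods hM
  mem := fun M _ _ hM => by
    intro a ha x hx
    have h1 : Own R M = Own R U := thm_OWN thm_FOR R U M hM
    have h2 : a ∈ Own R M := by
      rw [h1]
      exact ha
    exact h2 x hx
  pur := fun M hM ι _ φ x => el_sat hM φ x
  prb := fun κ _ b => hPRM R U hU κ b
  gen4 := fun κ ι _ _ c z S => hWG4 R U hU κ ι c S z
  tf6 := by
    intro M hM ι _ S S' hS hf hle y hy
    obtain ⟨v, h1, h2⟩ := hTF6 R U hU (Fin 0) ι _ (TBU_am M hM) S S' y hS hf hy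
    exact ⟨v, (el_re hM S v).2 h1, h2⟩
  tl := by
    intro ι _ L _ _ e hA
    have hctbl : Countable U := mon_ctbl hU
    obtain ⟨N, c, hN, hP, hG⟩ := hTLI R U hU ι (fun A => pp (R := R) L (fun i : A => e i)) hA
      (fun A B h φ => by
        show Sat φ L (fun i : A => e i) ↔ Sat (ren _ φ) L (fun i : B => e i)
        rw [sat_ren]
        exact Iff.rfl)
    refine ⟨⟨N⟩, c, Subtype.countable, el_mods hN, ?_, ?_⟩
    · intro κ _ f
      classical
      cases nonempty_fintype κ
      let A : Finset ι := Finset.univ.image f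
      let f' : κ → A := fun k => ⟨f k, Finset.mem_image_of_mem f (Finset.mem_univ k)⟩
      have h1 := hP A
      ext φ
      have h2 : Sat (ren f' φ) N (fun i : A => c i) ↔ Sat (ren f' φ) L (fun i : A => e i) := by
        constructor
        · intro h
          have h3 : ren f' φ ∈ pp (R := R) N (fun i : A => c i) := h
          rw [h1] at h3
          exact h3
        · intro h
          have h3 : ren f' φ ∈ pp (R := R) L (fun i : A => e i) := h
          rw [← h1] at h3
          exact h3
      rw [sat_ren, sat_ren] at h2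
      exact h2
    · intro l b A₀
      obtain ⟨A, hA₀, θ, hθ⟩ := hG (Fin l) b A₀
      refine ⟨A, hA₀, θ, ?_⟩
      have h1 := hP A
      rw [h1]
      exact hθ

end Pool.Agent.VMF
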