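import Pool.Agent.VMF.FTU
import Pool.Agent.VMF.TBU
import Pool.Agent.VMF.QBU
import Pool.Agent.VMF.CLB
import Pool.Agent.VMF.AllQ
import Pool.Agent.VMF.AllU
import Pool.Agent.VMF.TLA
import Pool.Agent.VMF.WG4

/-!
# VMF: the final assembly (helper31)
-/

set_option autoImplicit false
set_option linter.unusedSectionVars false
set_option linter.unusedVariables false

namespace Pool.Agent.VMF

open Set Pool.Agent.MVC Pool.Agent.MVC.Ax

theorem thm_T1U (hA : St_CLA) (hW : St_WAS) : St_T1U := fun R _ _ U hM hf =>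
  hW R U hM (hA R U hM hf) hf

theorem all_TB (R : Type) [Ring R] [Countable R] (U : Md R) (hU : MonM R U) : TB U :=
  thm_TBU prm_T thm_WG4 all_TF6 tli_T thm_ENU hU

theorem all_QB (R : Type) [Ring R] [Countable R] (U : Md R) (hU : MonM R U) : QB U :=
  thm_QBU all_QIS hU

/-- The final assembly: the block C (`St_GNT`), the block W (`St_WAS`). -/
theorem asm_MAINM (h2 : St_GNT) (h4 : St_WAS) : St_MAINM :=
  thm_MAINM (thm_T1U cla_T h4) (thm_UMLU cla_T (thm_FTU h2 all_TB all_QB) all_UMT)

end Pool.Agent.VMF
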