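import Pool.Agent.MVC.St2
import Pool.Agent.MVC.H31_St2
import Pool.Agent.MVC.St5
import Pool.Agent.WOM.Defs

/-!
# Vaught's conjecture for all theories of modules: the saturated module, types in it

Everything takes place in one countable saturated module `U`. Types are sets of positive primitive
formulas with finitely many variables; `grp U S` is the group of the realisations of `S` in `U`.
The class `K` consists of the modules which are isomorphic to elementary submodules of `U`, the definable
class is `Own R U`.
-/

set_option autoImplicit false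
set_option linter.unusedSectionVars false
set_option linter.unusedVariables false

namespace Pool.Agent.VMF

open Set Pool.Agent.MVC Pool.Agent.MVC.Ax

/-- `U` is an infinite countable saturated homogeneous module. -/
def MonM (R : Type) [Ring R] (U : Md R) : Prop := @Pool.Agent.WOM.Mon (LMod R) U (modStr R U)

section

variable {R : Type} [Ring R]

/-- elementary submodules of `U` -/
def El (U : Md R) (M : Submodule R U) : Prop :=
  @Pool.Agent.WOM.IsEl (LMod R) U (modStr R U) (M : Set U)

/-- the class `K` of the elementary submodules of `U`, up to isomorphism -/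
def InK (U : Md R) (M : Type) [AddCommGroup M] [Module R M] : Prop :=
  ∃ N : Submodule R U, El U N ∧ Nonempty (M ≃ₗ[R] N)

/-- an elementary embedding into `U` -/
def Emb (U : Md R) {M : Type} [AddCommGroup M] [Module R M] (e : M →ₗ[R] U) : Prop :=
  Function.Injective e ∧ El U (LinearMap.range e)

variable {ι κ : Type}

/-- the group of the realisations of `S` -/
def grp (U : Type) [AddCommGroup U] [Module R U] (S : Set (PP R ι)) : AddSubgroup (ι → U) where
  carrier := {x | Re S U x}
  add_mem' := fun h h' => Re.add h h'
  zero_mem' := Re.zero S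
  neg_mem' := fun h => Re.neg h

theorem mem_grp {U : Type} [AddCommGroup U] [Module R U] {S : Set (PP R ι)} {x : ι → U} :
    x ∈ grp U S ↔ Re S U x := Iff.rfl

/-- `S ∧ S'` has finite index in `S` -/
def FIn (U : Type) [AddCommGroup U] [Module R U] (S S' : Set (PP R ι)) : Prop :=
  (grp U S').relIndex (grp U S) ≠ 0

/-- every formula contained in `S` is contained in `S'` -/
def PIn (U : Type) [AddCommGroup U] [Module R U] (S S' : Set (PP R ι)) : Prop :=
  ∀ χ : PP R ι, (∀ x : ι → U, Sat χ U x → Re S U x) → ∀ x : ι → U, Sat χ U x → Re S' U x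

/-- `q^1`: the intersection of the subtypes of finite index which contain all formulas in `q` -/
def one (U : Type) [AddCommGroup U] [Module R U] (S : Set (PP R ι)) : Set (PP R ι) :=
  {ψ | FIn U S {ψ} ∧ PIn U S {ψ}}

/-- `S` is full: `q = q^1` -/
def Full (U : Type) [AddCommGroup U] [Module R U] (S : Set (PP R ι)) : Prop :=
  ∀ x : ι → U, Re S U x → Re (one U S) U x

/-- `S` is connected: no proper subtypes of finite index -/
def Conn (U : Type) [AddCommGroup U] [Module R U] (S : Set (PP R ι)) : Prop :=
  ∀ ψ : PP R ι, FIn U S {ψ} → ∀ x : ι → U, Re S U x → Sat ψ U x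

/-- Claim A: `q^1` has finite index in `q` -/
def ClaimA (U : Md R) : Prop := ∀ (ι : Type) [Finite ι] (S : Set (PP R ι)), FIn U S (one U S)

/-- the fibre type of `z` over `c`: the group of all `x` such that `(0, x)` satisfies the type of
`(c, z)` -/
def fib (U : Type) [AddCommGroup U] [Module R U] (c : κ → U) (z : ι → U) : Set (PP R ι) :=
  zer '' pp (R := R) U (Sum.elim c z)

/-- `c` is isolated over `b`: all tuples in a set which is defined over `b` by positive primitive
formulas and their negations have the same type over `b` -/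
def Isol (U : Type) [AddCommGroup U] [Module R U] (b : κ → U) (c : ι → U) : Prop :=
  ∃ (θ : PP R (κ ⊕ ι)) (s : Finset (PP R (κ ⊕ ι))), Sat θ U (Sum.elim b c) ∧
    (∀ ψ ∈ s, ¬ Sat ψ U (Sum.elim b c)) ∧ ∀ c' : ι → U, Sat θ U (Sum.elim b c') →
      (∀ ψ ∈ s, ¬ Sat ψ U (Sum.elim b c')) →
      pp (R := R) U (Sum.elim b c') = pp (R := R) U (Sum.elim b c)

/-! ### Sequences of tuples -/

/-- index type of the first `m` tuples of a sequence of tuples of lengths `k 0, k 1, ..` -/
abbrev Sg (k : ℕ → ℕ) (m : ℕ) : Type := (j : Fin m) × Fin (k j)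

/-- the inclusion of the first `m` blocks -/
def inc (k : ℕ → ℕ) {m n : ℕ} (h : m ≤ n) : Sg k m → Sg k n :=
  fun p => ⟨Fin.castLE h p.1, p.2⟩

/-- index type of all blocks -/
abbrev Si (k : ℕ → ℕ) : Type := (j : ℕ) × Fin (k j)

/-- the first `m` blocks of an infinite sequence -/
def seg (k : ℕ → ℕ) (m : ℕ) : Sg k m → Si k := fun p => ⟨p.1, p.2⟩

instance (k : ℕ → ℕ) (m : ℕ) : Finite (Sg k m) := inferInstance

end

end Pool.Agent.VMF
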