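import Pool.Agent.VMF.StC
import Pool.Agent.VMF.Asm
import Pool.Agent.MVC.HPI
import Pool.Agent.MVC.St2

/-!
# VMF, block C: one full type (the form of the assembly; helper58)
-/

set_option autoImplicit false
set_option linter.unusedSectionVars false
set_option linter.unusedVariables false

namespace Pool.Agent.VMF

open Set Pool.Agent.MVC Pool.Agent.MVC.Ax

private theorem FTU_prs {R : Type} [Ring R] (X : Ax R) (N : Md R) (a : ℕ → (N →ₗ[R] N))
    (f : ℕ → X.Q N) (h : ∀ k, f k = Ideal.Quotient.mk (X.nullIdeal N) (a k)) (j : ℕ) :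
    prs f j = Ideal.Quotient.mk (X.nullIdeal N) (cmp (G := fun _ => N) a j) := by
  induction j with
  | zero => rfl
  | succ j ih =>
    show f j * prs f j = _
    rw [ih, h j, ← map_mul]
    rfl

private theorem FTU_qm {R : Type} [Ring R] (X : Ax R) (N : Md R) (a : ℕ → (N →ₗ[R] N)) (j : ℕ) :
    prs (fun k => qm X N (a k)) j = qm X N (cmp (G := fun _ => N) a j) := by
  induction j with
  | zero => exact (map_one (qm X N)).symm
  | succ j ih =>
    show qm X N (a j) * prs (fun k => qm X N (a k)) j = _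
    rw [ih, ← map_mul]
    rfl

/-- the two forms of the endomorphism ring modulo null maps -/
theorem dccr_q {R : Type} [Ring R] (X : Ax R) (N : Md R) (h : DCCR (EndQ X N)) :
    DCCR (X.Q N) := by
  intro f
  choose a ha using fun k => Ideal.Quotient.mk_surjective (f k)
  obtain ⟨j, c, hc⟩ := h fun k => qm X N (a k)
  obtain ⟨c', rfl⟩ := qm_surjective (X := X) (N := N) c
  refine ⟨j, Ideal.Quotient.mk (X.nullIdeal N) c', ?_⟩
  rw [FTU_prs X N a f (fun k => (ha k).symm) j, FTU_prs X N a f (fun k => (ha k).symm) (j + 1),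
    ← map_mul]
  refine Ideal.Quotient.eq.2 ?_
  rw [FTU_qm, FTU_qm, ← map_mul] at hc
  exact qm_eq.1 hc

/-- from block C to the assembly -/
theorem thm_FTU (hG : St_GNT)
    (hT : ∀ (R : Type) [Ring R] [Countable R] (U : Md R), MonM R U → TB U)
    (hQ : ∀ (R : Type) [Ring R] [Countable R] (U : Md R), MonM R U → QB U) : St_FTU := by
  intro R _ _ U hU hF _
  obtain ⟨h1, Y, hY, h2⟩ := hG R U (hT R U hU) (hQ R U hU) hF
  refine ⟨Y.N, ⟨Fin Y.n, inferInstance, Y.S, Y.g, hY, Y.hon⟩, dccr_q _ _ (h1 Y hY), ?_⟩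
  intro κ _ S N g hS hN
  obtain ⟨n, ⟨e⟩⟩ := Finite.exists_equiv_fin κ
  have hN' := thm_REI R (Own R U) κ (Fin n) e S N g hN
  have hS' : Full U (ren e '' S) := (hQ R U hU).rff κ (Fin n) S (ren e '' S) N N g (g ∘ e.symm)
    hS hN hN' ⟨LinearMap.id, LinearMap.id, Eqv.refl _⟩
  exact h2 ⟨n, ren e '' S, N, g ∘ e.symm, hN'⟩ hS'

end Pool.Agent.VMF
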