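import Pool.Agent.VMF.ABS
import Pool.Agent.VMF.HPP
import Pool.Agent.VMF.SATN
import Pool.Agent.VMF.StT
import Pool.Agent.VMA.St

/-!
# VMF: generic elements of cosets of types (TF4), the instance `absM` (helper73)
-/

set_option autoImplicit false
set_option linter.unusedSectionVars false
set_option linter.unusedVariables false

namespace Pool.Agent.VMF

open Set Pool.Agent.MVC Pool.Agent.MVC.Ax

theorem vma_tf4 (hO : VMA.St_OPN) {M : Type} [AddCommGroup M] (S : VMA.Abs M) {ι κ : Type}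
    [Finite ι] [Finite κ] {q : AddSubgroup (κ → M)} (hq : S.IsT q) (c : ι → M) (z0 : κ → M) :
    ∃ z, z - z0 ∈ q ∧ (VMA.fib (S.pp (Sum.elim c z))).relIndex q ≠ 0 := by
  obtain ⟨x, hx, hi⟩ := hO M S (ι ⊕ κ) κ q q (Sum.elim c z0) 0 hq q.zero_mem
    (VMA.Abs.FI.refl S hq)
  refine ⟨z0 + x, ?_, fun h0 => hi (AddSubgroup.relIndex_eq_zero_of_le_left ?_ h0)⟩
  · rw [add_sub_cancel_left]
    rwa [sub_zero] at hx
  · let h : ((ι ⊕ κ) ⊕ κ → M) →+ (ι ⊕ κ → M) := VMA.pL + VMA.iR.comp VMA.pR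
    have hz : VMA.IsZ h := VMA.isZ_pL.add (VMA.isZ_iR.comp VMA.isZ_pR)
    have h1 : ∀ (w : ι ⊕ κ → M) (v : κ → M), h (Sum.elim w v) = w + Sum.elim (0 : ι → M) v :=
      fun w v => rfl
    have h2 : h (Sum.elim (Sum.elim c z0) x) = Sum.elim c (z0 + x) := by
      rw [h1, ← VMA.elim_add, add_zero]
    intro v hv
    have h3 : Sum.elim (0 : ι ⊕ κ → M) v ∈ S.pp (Sum.elim (Sum.elim c z0) x) := hv
    show Sum.elim (0 : ι → M) v ∈ S.pp (Sum.elim c (z0 + x))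
    rw [← h2, S.pp_map hz]
    exact ⟨_, h3, by rw [h1, zero_add]⟩

section

variable {R : Type} [Ring R] [Countable R]

theorem satp_M : St_SATP := by
  intro R _ _ U hU κ ι _ _ b P N h
  exact sat_pp hU b P N fun s t hs ht => h s t hs ht

theorem homp_M : St_HOMP := by
  intro R _ _ U hU ι _ a b h
  exact thm_HPP hU h

theorem homU_M {U : Md R} (hM : MonM R U) : HomU U := fun ι _ a b h => thm_HPP hM h

theorem satU_M {U : Md R} (hM : MonM R U) : SatU U := by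
  classical
  intro ι κ _ _ a φ b h
  obtain ⟨c, hc1, hc2⟩ := sat_pp hM a {ψ | ∃ j, b j ∧ φ j = ψ} {ψ | ∃ j, ¬ b j ∧ φ j = ψ}
    (fun s t hs ht => by
      choose! f hf using fun ψ (hψ : ψ ∈ s) => hs hψ
      choose! g hg using fun ψ (hψ : ψ ∈ t) => ht hψ
      obtain ⟨x, hx⟩ := h ((s.sup f ⊔ t.sup g) + 1)
      refine ⟨x, fun ψ hψ => ?_, fun ψ hψ => ?_⟩
      · have h1 := hx (f ψ) (Nat.lt_succ_of_le ((Finset.le_sup hψ).trans le_sup_left))
        rw [(hf ψ hψ).2] at h1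
        exact h1.2 (hf ψ hψ).1
      · have h1 := hx (g ψ) (Nat.lt_succ_of_le ((Finset.le_sup hψ).trans le_sup_right))
        rw [(hg ψ hψ).2] at h1
        exact fun h2 => (hg ψ hψ).1 (h1.1 h2))
  refine ⟨c, fun j => ⟨fun h1 => ?_, fun h1 => hc1 _ ⟨j, h1, rfl⟩⟩⟩
  by_contra h2
  exact hc2 _ ⟨j, h2, rfl⟩ h1

/-- the saturated module as a saturated abelian structure, unconditionally -/
def absM (U : Md R) (hM : MonM R U) : VMA.Abs U :=
  absU U inferInstance (mon_ctbl hM) (homU_M hM) (satU_M hM)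

theorem absM_fib {U : Md R} (hM : MonM R U) {κ ι : Type} [Finite κ] [Finite ι] (c : κ → U)
    (z : ι → U) : grp U (fib (R := R) U c z) = VMA.fib ((absM U hM).pp (Sum.elim c z)) := by
  ext x
  rw [VMA.mem_fib, show (absM U hM).pp (Sum.elim c z) = grp U (pp (R := R) U (Sum.elim c z)) from
    absU_pp _, mem_grp, mem_grp]
  constructor
  · intro h φ hφ
    exact (sat_zer φ x).1 (h _ ⟨φ, hφ, rfl⟩)
  · rintro h _ ⟨φ, hφ, rfl⟩
    exact (sat_zer φ x).2 (h φ hφ)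

/-- (TF4) -/
theorem gen4_M (hO : VMA.St_OPN) {U : Md R} (hM : MonM R U) {κ ι : Type} [Finite κ] [Finite ι]
    (c : κ → U) (S : Set (PP R ι)) (z₀ : ι → U) :
    ∃ z : ι → U, Re S U (z - z₀) ∧ FIn U S (fib (R := R) U c z) := by
  obtain ⟨z, h1, h2⟩ := vma_tf4 hO (absM U hM) (absU_isT.2 ⟨S, rfl⟩) c z₀
  refine ⟨z, h1, ?_⟩
  show (grp U (fib (R := R) U c z)).relIndex (grp U S) ≠ 0
  rw [absM_fib hM]
  exact h2

end

end Pool.Agent.VMF
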