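import Pool.Agent.MVC.Api1

/-!
# Classes of modules, level-one formulas relative to a class

VMF: the notions of `MVC` (`Ax.In`, `Ax.Le1`, `Ax.Exact`) for an arbitrary class of modules.
-/

set_option autoImplicit false
set_option linter.unusedSectionVars false
set_option linter.unusedVariables false

namespace Pool.Agent.VMF

open Set Pool.Agent.MVC

/-- a class of modules -/
structure Kl (R : Type) [Ring R] : Type 1 where
  In : ∀ (M : Type) [AddCommGroup M] [Module R M], Prop

section

variable {R : Type} [Ring R] {ι κ : Type}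

/-- implication between level-one formulas in the countable members of the class -/
def Kl.Le1 (X : Kl R) (V W : L1 R ι) : Prop :=
  ∀ (M : Type) [AddCommGroup M] [Module R M], Countable M → X.In M → ∀ x : ι → M,
    Sat1 V M x → Sat1 W M x

/-- `x` is exact for `V`: `V` is the least level-one formula which `x` satisfies -/
def Kl.Exact (X : Kl R) (V : L1 R ι) (M : Type) [AddCommGroup M] [Module R M] (x : ι → M) : Prop :=
  Sat1 V M x ∧ ∀ W : L1 R ι, Sat1 W M x → X.Le1 V W

theorem Kl.Le1.refl {X : Kl R} (V : L1 R ι) : X.Le1 V V := fun M _ _ _ _ x h => h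

theorem Kl.Le1.trans {X : Kl R} {U V W : L1 R ι} (h : X.Le1 U V) (h' : X.Le1 V W) : X.Le1 U W :=
  fun M _ _ hc hM x hx => h' M hc hM x (h M hc hM x hx)

/-- a family of relations given by a level-one formula in the countable members of the class -/
def Kl.IsL1 (X : Kl R) (F : ∀ (M : Type) [AddCommGroup M] [Module R M], (ι → M) → Prop) : Prop :=
  ∃ V : L1 R ι, ∀ (M : Type) [AddCommGroup M] [Module R M], Countable M → X.In M →
    ∀ x : ι → M, F M x ↔ Sat1 V M x

/-- families which are level one in all countable modules -/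
theorem kl_isL1 {X : Kl R} {F : ∀ (M : Type) [AddCommGroup M] [Module R M], (ι → M) → Prop}
    (h : (∅ : Ax R).IsL1 F) : X.IsL1 F := by
  obtain ⟨V, hV⟩ := h
  exact ⟨V, fun M _ _ hc _ x => hV M hc (fun a ha => absurd ha (Set.notMem_empty a)) x⟩

theorem kl_isL0 {X : Kl R} {F : ∀ (M : Type) [AddCommGroup M] [Module R M], (ι → M) → Prop}
    (h : IsL0 F) : X.IsL1 F := by
  obtain ⟨V, hV⟩ := h
  exact ⟨V, fun M _ _ _ _ x => hV M x⟩

/-- the class of the modules of `Ax` -/
def ofAx (X : Ax R) : Kl R := ⟨fun M _ _ => X.In M⟩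

theorem ofAx_le1 (X : Ax R) (V W : L1 R ι) : (ofAx X).Le1 V W ↔ X.Le1 V W := Iff.rfl

end

end Pool.Agent.VMF
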