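import Pool.Agent.VMF.HCG
import Pool.Agent.MVC.HPI

/-!
# VMF: renaming of the variables of decorated facts along an equivalence (helper97)

For `e : κ ≃ κ'` the fact `(V, ψ, t)` in the variables `κ` becomes
`(ren (Sum.map id e) '' V, ren e ψ, t ∘ e.symm)` in the variables `κ'`.
-/

set_option autoImplicit false
set_option linter.unusedSectionVars false
set_option linter.unusedVariables false

namespace Pool.Agent.VMF

open Set Pool.Agent.MVC Pool.Agent.MVC.Ax

section

variable {R : Type} [Ring R] {ι κ κ' : Type}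

theorem comp_symm_comp (e : κ ≃ κ') {M : Type} (x : κ → M) : (x ∘ e.symm) ∘ e = x := by
  funext i
  simp

theorem comp_comp_symm (e : κ ≃ κ') {M : Type} (x : κ' → M) : (x ∘ e) ∘ e.symm = x := by
  funext i
  simp

/-- satisfaction of a renamed set of formulas with parameters -/
theorem sat_ren_map (e : κ ≃ κ') {M : Type} [AddCommGroup M] [Module R M] (φ : PP R (ι ⊕ κ))
    (a : ι → M) (y : κ' → M) :
    Sat (ren (Sum.map id e) φ) M (Sum.elim a y) ↔ Sat φ M (Sum.elim a (y ∘ e)) := by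
  rw [sat_ren]
  have h : Sum.elim a y ∘ Sum.map id e = Sum.elim a (y ∘ e) := by
    funext i
    cases i <;> rfl
  rw [h]

theorem re_ren_map (e : κ ≃ κ') {M : Type} [AddCommGroup M] [Module R M] (V : Set (PP R (ι ⊕ κ)))
    (a : ι → M) (y : κ' → M) :
    Re (ren (Sum.map id e) '' V) M (Sum.elim a y) ↔ Re V M (Sum.elim a (y ∘ e)) := by
  rw [re_ren]
  have h : Sum.elim a y ∘ Sum.map id e = Sum.elim a (y ∘ e) := by
    funext i
    cases i <;> rfl
  rw [h]

theorem re_zer_ren (e : κ ≃ κ') {M : Type} [AddCommGroup M] [Module R M] (V : Set (PP R (ι ⊕ κ)))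
    (y : κ' → M) : Re (zer '' (ren (Sum.map id e) '' V)) M y ↔ Re (zer '' V) M (y ∘ e) := by
  rw [re_zer, re_zer, re_ren_map]

theorem re_zer_ren_union (e : κ ≃ κ') {M : Type} [AddCommGroup M] [Module R M]
    (V : Set (PP R (ι ⊕ κ))) (ψ : PP R κ) (y : κ' → M) :
    Re (zer '' (ren (Sum.map id e) '' V) ∪ {ren e ψ}) M y ↔ Re (zer '' V ∪ {ψ}) M (y ∘ e) := by
  rw [re_union, re_union, re_zer_ren]
  have h : Re {ren e ψ} M y ↔ Re {ψ} M (y ∘ e) := by
    constructor
    · intro h φ hφ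
      obtain rfl := mem_singleton_iff.mp hφ
      exact (sat_ren e _ y).mp (h _ (mem_singleton _))
    · intro h φ hφ
      obtain rfl := mem_singleton_iff.mp hφ
      exact (sat_ren e _ y).mpr (h _ (mem_singleton _))
  rw [h]

/-- reindexing as an isomorphism of groups -/
def rx (U : Type) [AddCommGroup U] (e : κ ≃ κ') : (κ' → U) ≃+ (κ → U) where
  toFun y := y ∘ e
  invFun x := x ∘ e.symm
  left_inv y := comp_comp_symm e y
  right_inv x := comp_symm_comp e x
  map_add' _ _ := rfl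

theorem fin_rx {U : Type} [AddCommGroup U] [Module R U] (e : κ ≃ κ') {S T : Set (PP R κ)}
    {S' T' : Set (PP R κ')} (hS : ∀ y : κ' → U, Re S' U y ↔ Re S U (y ∘ e))
    (hT : ∀ y : κ' → U, Re T' U y ↔ Re T U (y ∘ e)) : FIn U S' T' ↔ FIn U S T := by
  unfold FIn
  have h1 : grp U T' = (grp U T).comap (rx U e).toAddMonoidHom := by
    ext y
    exact hT y
  have h2 : (grp U S').map (rx U e).toAddMonoidHom = grp U S := by
    ext x
    constructor
    · rintro ⟨y, hy, rfl⟩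
      exact (hS y).mp hy
    · intro hx
      refine ⟨x ∘ e.symm, (hS _).mpr ?_, comp_symm_comp e x⟩
      rw [comp_symm_comp]
      exact hx
  rw [h1, AddSubgroup.relIndex_comap, h2]

theorem pin_rx {U : Type} [AddCommGroup U] [Module R U] (e : κ ≃ κ') {S T : Set (PP R κ)}
    {S' T' : Set (PP R κ')} (hS : ∀ y : κ' → U, Re S' U y ↔ Re S U (y ∘ e))
    (hT : ∀ y : κ' → U, Re T' U y ↔ Re T U (y ∘ e)) (h : PIn U S T) : PIn U S' T' := by
  intro χ hχ y hy
  rw [hT]
  refine h (ren e.symm χ) ?_ (y ∘ e) ?_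
  · intro x hx
    rw [sat_ren] at hx
    have h1 := (hS _).mp (hχ _ hx)
    rwa [comp_symm_comp] at h1
  · rw [sat_ren, comp_comp_symm]
    exact hy

theorem full_rx {U : Type} [AddCommGroup U] [Module R U] (e : κ ≃ κ') {S : Set (PP R κ)}
    {S' : Set (PP R κ')} (hS : ∀ y : κ' → U, Re S' U y ↔ Re S U (y ∘ e)) (h : Full U S) :
    Full U S' := by
  intro y hy ψ hψ
  have h1 : ∀ x : κ → U, Re S U x ↔ Re S' U (x ∘ e.symm) := by
    intro x
    rw [hS, comp_symm_comp]
  have h2 : ∀ x : κ → U, Re {ren e.symm ψ} U x ↔ Re {ψ} U (x ∘ e.symm) := by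
    intro x
    constructor
    · intro h φ hφ
      obtain rfl := mem_singleton_iff.mp hφ
      exact (sat_ren e.symm _ x).mp (h _ (mem_singleton _))
    · intro h φ hφ
      obtain rfl := mem_singleton_iff.mp hφ
      exact (sat_ren e.symm _ x).mpr (h _ (mem_singleton _))
  have h3 : ren e.symm ψ ∈ one U S :=
    ⟨(fin_rx e.symm h1 h2).mpr hψ.1, pin_rx e.symm h1 h2 hψ.2⟩
  have h4 := h (y ∘ e) ((hS y).mp hy) _ h3
  rwa [sat_ren, comp_comp_symm] at h4

/-- the renamed fact -/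
theorem Fact.rx {U : Md R} {a : ι → U} {V : Set (PP R (ι ⊕ κ))} {ψ : PP R κ} {t : κ → U}
    (h : Fact U a V ψ t) (e : κ ≃ κ') :
    Fact U a (ren (Sum.map id e) '' V) (ren e ψ) (t ∘ e.symm) := by
  refine ⟨?_, ?_, ?_⟩
  · rw [re_ren_map, comp_symm_comp]
    exact h.re
  · refine (fin_rx e (fun y => re_zer_ren e V y) (fun y => ?_)).mpr h.fi
    constructor
    · intro h φ hφ
      obtain rfl := mem_singleton_iff.mp hφ
      exact (sat_ren e _ y).mp (h _ (mem_singleton _))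
    · intro h φ hφ
      obtain rfl := mem_singleton_iff.mp hφ
      exact (sat_ren e _ y).mpr (h _ (mem_singleton _))
  · exact full_rx e (fun y => re_zer_ren_union e V ψ y) h.full

theorem pin_fact_rx {U : Md R} {V : Set (PP R (ι ⊕ κ))} {ψ : PP R κ} (e : κ ≃ κ')
    (h : PIn U (zer '' V) {ψ}) : PIn U (zer '' (ren (Sum.map id e) '' V)) {ren e ψ} := by
  refine pin_rx e (fun y => re_zer_ren e V y) (fun y => ?_) h
  constructor
  · intro h φ hφ
    obtain rfl := mem_singleton_iff.mp hφ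
    exact (sat_ren e _ y).mp (h _ (mem_singleton _))
  · intro h φ hφ
    obtain rfl := mem_singleton_iff.mp hφ
    exact (sat_ren e _ y).mpr (h _ (mem_singleton _))

/-- entailment between sets which are satisfied by the same tuples -/
theorem ent_of_ren {X : Ax R} {S : Set (PP R κ)} {T : Set (PP R κ')} (e : κ ≃ κ')
    {ψ : PP R κ'} (h : X.Ent S (ren e.symm ψ)) (hT : ∀ φ ∈ S, X.Ent T (ren e φ)) : X.Ent T ψ := by
  classical
  obtain ⟨s, hs, hs'⟩ := h
  obtain ⟨s', h1, h2⟩ := ent_finset (s.image (ren e)) fun φ hφ => by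
    obtain ⟨φ', hφ', rfl⟩ := Finset.mem_image.mp hφ
    exact hT φ' (hs hφ')
  refine ⟨s', h1, fun M _ _ hM y hy => ?_⟩
  have h3 := hs' M hM (y ∘ e) fun φ hφ =>
    (sat_ren e φ y).mp (h2 M hM y hy _ (Finset.mem_image_of_mem _ hφ))
  rwa [sat_ren, comp_comp_symm] at h3

/-- the honest module of the renamed fact -/
theorem honest_fact_rx [Countable R] {X : Ax R} {V : Set (PP R (ι ⊕ κ))} {ψ : PP R κ} {N : Md R} {g : κ → N}
    (e : κ ≃ κ') (h : X.Honest (zer '' V ∪ {ψ}) N g) :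
    X.Honest (zer '' (ren (Sum.map id e) '' V) ∪ {ren e ψ}) N (g ∘ e.symm) := by
  have h0 := thm_REI R X κ κ' e _ N g h
  have key : ∀ φ ∈ V, ∀ (M : Type) [AddCommGroup M] [Module R M] (y : κ' → M),
      Sat (zer (ren (Sum.map id e) φ)) M y ↔ Sat (ren e (zer φ)) M y := by
    intro φ _ M _ _ y
    rw [sat_zer, sat_ren_map, sat_ren, sat_zer]
  refine thm_HCG R X κ' _ _ N _ ?_ ?_ h0
  · rintro _ (⟨_, ⟨φ, hφ, rfl⟩, rfl⟩ | hφ)
    · refine ⟨{ren e (zer φ)}, ?_, fun M _ _ _ y hy => ?_⟩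
      · rw [Finset.coe_singleton, singleton_subset_iff]
        exact mem_image_of_mem _ (Or.inl (mem_image_of_mem _ hφ))
      · exact (key φ hφ M y).mpr (hy _ (Finset.mem_singleton_self _))
    · obtain rfl := mem_singleton_iff.mp hφ
      exact ent_of_mem (mem_image_of_mem _ (Or.inr (mem_singleton _)))
  · rintro _ ⟨_, (⟨φ, hφ, rfl⟩ | hφ), rfl⟩
    · refine ⟨{zer (ren (Sum.map id e) φ)}, ?_, fun M _ _ _ y hy => ?_⟩
      · rw [Finset.coe_singleton, singleton_subset_iff]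
        exact Or.inl (mem_image_of_mem _ (mem_image_of_mem _ hφ))
      · exact (key φ hφ M y).mp (hy _ (Finset.mem_singleton_self _))
    · obtain rfl := mem_singleton_iff.mp hφ
      exact ent_of_mem (Or.inr (mem_singleton _))

/-- the values of the renamed fact -/
theorem isDelF_rx {U : Md R} {a : ι → U} {V : Set (PP R (ι ⊕ κ))} {ψ : PP R κ} {t : κ → U}
    {N : Md R} {g : κ → N} {p : AM U a} {x : (Own R U).ex N p.1.1} (e : κ ≃ κ') :
    IsDelF U a (ren (Sum.map id e) '' V) (ren e ψ) (t ∘ e.symm) N (g ∘ e.symm) p x ↔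
      IsDelF U a V ψ t N g p x := by
  constructor
  · rintro ⟨s, f, h1, ⟨m₀, h2⟩, h3, h4⟩
    refine ⟨s ∘ e, f, ?_, ⟨m₀, ?_⟩, ?_, h4⟩
    · intro φ hφ
      obtain ⟨m₁, h⟩ := h1 _ (mem_image_of_mem _ hφ)
      exact ⟨m₁, fun m hm => (sat_ren_map e φ a _).mp (h m hm)⟩
    · intro m hm
      have h := (sat_ren e ψ _).mp (h2 m hm)
      have h5 : ((fun i => p.1.2 (s i m)) - t ∘ e.symm) ∘ e =
          (fun i => p.1.2 ((s ∘ e) i m)) - t := by
        funext i
        show p.1.2 (s (e i) m) - t (e.symm (e i)) = p.1.2 (s (e i) m) - t i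
        rw [e.symm_apply_apply]
      rwa [h5] at h
    · intro i
      have h := h3 (e i)
      have h5 : (g ∘ e.symm) (e i) = g i := by
        show g (e.symm (e i)) = g i
        rw [e.symm_apply_apply]
      rwa [h5] at h
  · rintro ⟨s, f, h1, ⟨m₀, h2⟩, h3, h4⟩
    refine ⟨s ∘ e.symm, f, ?_, ⟨m₀, ?_⟩, ?_, h4⟩
    · rintro _ ⟨φ, hφ, rfl⟩
      obtain ⟨m₁, h⟩ := h1 φ hφ
      refine ⟨m₁, fun m hm => (sat_ren_map e φ a _).mpr ?_⟩
      have h5 : (fun i => p.1.2 ((s ∘ e.symm) i m)) ∘ e = fun i => p.1.2 (s i m) := by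
        funext i
        show p.1.2 (s (e.symm (e i)) m) = p.1.2 (s i m)
        rw [e.symm_apply_apply]
      rw [h5]
      exact h m hm
    · intro m hm
      refine (sat_ren e ψ _).mpr ?_
      have h5 : ((fun i => p.1.2 ((s ∘ e.symm) i m)) - t ∘ e.symm) ∘ e =
          (fun i => p.1.2 (s i m)) - t := by
        funext i
        show p.1.2 (s (e.symm (e i)) m) - t (e.symm (e i)) = p.1.2 (s i m) - t i
        rw [e.symm_apply_apply]
      rw [h5]
      exact h2 m hm
    · intro i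
      exact h3 (e.symm i)

theorem isVal_rx {U : Md R} {a : ι → U} {V : Set (PP R (ι ⊕ κ))} {ψ : PP R κ} {t : κ → U}
    {N Y : Md R} {g : κ → N} {v : Y →ₗ[R] N} {d : EF U a Y} (e : κ ≃ κ') :
    IsVal U a (ren (Sum.map id e) '' V) (ren e ψ) (t ∘ e.symm) N (g ∘ e.symm) v d ↔
      IsVal U a V ψ t N g v d := by
  constructor
  · intro h p x hx
    exact h p x ((isDelF_rx e).mpr hx)
  · intro h p x hx
    exact h p x ((isDelF_rx e).mp hx)

/-- **Reindexing.** Every fact in finitely many variables may be renamed to a fact in the variables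
`Fin k`, with the same honest module (with renamed generators) and the same values. -/
theorem exists_fin_fact [Countable R] {U : Md R} {a : ι → U} [Finite κ] {V : Set (PP R (ι ⊕ κ))} {ψ : PP R κ}
    {t : κ → U} {N : Md R} {g : κ → N} (h : Fact U a V ψ t)
    (hN : (Own R U).Honest (zer '' V ∪ {ψ}) N g) :
    ∃ (k : ℕ) (e : κ ≃ Fin k) (V' : Set (PP R (ι ⊕ Fin k))) (ψ' : PP R (Fin k)),
      V' = ren (Sum.map id e) '' V ∧ ψ' = ren e ψ ∧
      Fact U a V' ψ' (t ∘ e.symm) ∧ (Own R U).Honest (zer '' V' ∪ {ψ'}) N (g ∘ e.symm) ∧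
      (PIn U (zer '' V) {ψ} → PIn U (zer '' V') {ψ'}) ∧
      (∀ (p : AM U a) (x : (Own R U).ex N p.1.1),
        IsDelF U a V' ψ' (t ∘ e.symm) N (g ∘ e.symm) p x ↔ IsDelF U a V ψ t N g p x) ∧
      ∀ (Y : Md R) (v : Y →ₗ[R] N) (d : EF U a Y),
        IsVal U a V' ψ' (t ∘ e.symm) N (g ∘ e.symm) v d ↔ IsVal U a V ψ t N g v d := by
  obtain ⟨k, ⟨e⟩⟩ := Finite.exists_equiv_fin κ
  exact ⟨k, e, _, _, rfl, rfl, h.rx e, honest_fact_rx e hN, pin_fact_rx e,
    fun p x => isDelF_rx e, fun Y v d => isVal_rx e⟩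

end

end Pool.Agent.VMF
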