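import Pool.Agent.VMF.Asm
import Pool.Agent.VMF.H31_EN2

/-!
# VMF: the classification of the countable models if there are not perfectly many (helper21)

Tuples `a` of `M` and `b` of `N` are similar if the same complete types over them are realised. If each
tuple of `M` is similar to a tuple of `N` and conversely, then similar tuples are exchanged by
isomorphisms of `M` onto `N`.
-/

set_option autoImplicit false
set_option linter.unusedSectionVars false
set_option linter.unusedVariables false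

namespace Pool.Agent.VMF

open Set Pool.Agent.MVC Kl FirstOrder
open Pool.Agent.WOM (Mon IsEl CtT PerfT ThS Small)

section

variable {R : Type} [Ring R] (K : Kl R)

/-- tuples which are exact for the same formula are conjugate -/
def ISOT : Prop :=
  ∀ (M N : Type) [AddCommGroup M] [Module R M] [AddCommGroup N] [Module R N],
    Countable M → Countable N → K.In M → K.In N →
    (∀ (n : ℕ) (D : L1 R (Fin n)), (∃ x : Fin n → M, K.Exact D M x) ↔
      ∃ x : Fin n → N, K.Exact D N x) →
    ∀ (n : ℕ) (a : Fin n → M) (b : Fin n → N) (D : L1 R (Fin n)), K.Exact D M a → K.Exact D N b →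
      ∃ g : M ≃ₗ[R] N, ∀ i, g (a i) = b i

variable {K}

theorem thm_ISOT (h1 : T1F K) (h2 : UMLF K) : ISOT K := by
  intro M N _ _ _ _ hMc hNc hM hN hex n a b D ha hb
  have hT1 : H31.T1' K := h1.t1
  have hU : H31.UML K := h2.uml
  have hHol : H31.HolP K := H31.thm_HOL hT1 H31.thm_HLW
  have hGDM : H31.StGDM K := H31.thm_GDM
  have hCnt : H31.CntP K := H31.thm_CNT hT1 H31.thm_GLD hGDM H31.thm_DEP (H31.thm_SUP K)
    (H31.thm_BND K) (H31.thm_ADJ K) H31.thm_TRF
  have hEx : H31.ExP K := H31.thm_EX hT1 hHol hCnt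
  exact H31.thm_EN2 hU (H31.thm_H hEx) M hMc hM N hNc hN hex n a b D ha hb

end

/-- the complete types over `a` which are realised in `M` are those over `b` realised in `N` -/
def Sim {L : FirstOrder.Language.{0, 0}} {M N : Type} (S : L.Structure M) (S' : L.Structure N)
    {n : ℕ} (a : Fin n → M) (b : Fin n → N) : Prop :=
  (∀ (k : ℕ) (x : Fin k → M), ∃ y : Fin k → N, ∀ φ : L.Formula (Fin (n + k)),
    @FirstOrder.Language.Formula.Realize L M S _ φ (Fin.append a x) ↔
      @FirstOrder.Language.Formula.Realize L N S' _ φ (Fin.append b y)) ∧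
  (∀ (k : ℕ) (y : Fin k → N), ∃ x : Fin k → M, ∀ φ : L.Formula (Fin (n + k)),
    @FirstOrder.Language.Formula.Realize L M S _ φ (Fin.append a x) ↔
      @FirstOrder.Language.Formula.Realize L N S' _ φ (Fin.append b y))

/-- The countably infinite models of `T` are classified by the types over their tuples. -/
def Clas {R : Type} (T : (LMod R).Theory) : Prop :=
  ∀ (M N : Type) (S : (LMod R).Structure M) (S' : (LMod R).Structure N),
    Countable M → Infinite M → Countable N → Infinite N →
    @FirstOrder.Language.Theory.Model (LMod R) M S T →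
    @FirstOrder.Language.Theory.Model (LMod R) N S' T →
    (∀ (n : ℕ) (a : Fin n → M), ∃ b : Fin n → N, Sim S S' a b) →
    (∀ (n : ℕ) (b : Fin n → N), ∃ a : Fin n → M, Sim S S' a b) →
    ∀ (n : ℕ) (a : Fin n → M) (b : Fin n → N), Sim S S' a b →
      ∃ g : @FirstOrder.Language.Equiv (LMod R) M N S S',
        ∀ i, @FirstOrder.Language.Equiv.toEquiv (LMod R) M N S S' g (a i) = b i

section

variable {R : Type} [Ring R]

theorem sim_sat {M N : Type} [AddCommGroup M] [Module R M] [AddCommGroup N] [Module R N]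
    {n k : ℕ} {a : Fin n → M} {x : Fin k → M} {b : Fin n → N} {y : Fin k → N}
    (h : ∀ φ : (LMod R).Formula (Fin (n + k)),
      @FirstOrder.Language.Formula.Realize (LMod R) M (modStr R M) _ φ (Fin.append a x) ↔
        @FirstOrder.Language.Formula.Realize (LMod R) N (modStr R N) _ φ (Fin.append b y))
    (φ : PP R (Fin n ⊕ Fin k)) : Sat φ M (Sum.elim a x) ↔ Sat φ N (Sum.elim b y) := by
  obtain ⟨ψ, hψ⟩ := thm_FOR R (n + k) (ren finSumFinEquiv φ)
  have h1 : ∀ {P : Type} (u : Fin n → P) (v : Fin k → P),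
      Fin.append u v ∘ finSumFinEquiv = Sum.elim u v := by
    intro P u v
    funext i
    cases i with
    | inl i => simp
    | inr i => simp
  have h2 := h ψ
  rw [hψ M, hψ N, sat_ren, sat_ren, h1, h1] at h2
  exact h2

theorem sim_tp1 {M N : Type} [AddCommGroup M] [Module R M] [AddCommGroup N] [Module R N]
    {n : ℕ} {a : Fin n → M} {b : Fin n → N}
    (h : Sim (modStr R M) (modStr R N) a b) (V : L1 R (Fin n)) : Sat1 V M a ↔ Sat1 V N b := by
  constructor
  · rintro ⟨t, ht⟩
    obtain ⟨y, hy⟩ := h.1 _ t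
    exact ⟨y, fun φ hφ => (sim_sat hy φ).mp (ht φ hφ)⟩
  · rintro ⟨t, ht⟩
    obtain ⟨x, hx⟩ := h.2 _ t
    exact ⟨x, fun φ hφ => (sim_sat hx φ).mpr (ht φ hφ)⟩

theorem sim_exact {K : Kl R} {M N : Type} [AddCommGroup M] [Module R M] [AddCommGroup N]
    [Module R N] {n : ℕ} {a : Fin n → M} {b : Fin n → N}
    (h : Sim (modStr R M) (modStr R N) a b) (D : L1 R (Fin n)) :
    K.Exact D M a ↔ K.Exact D N b :=
  ⟨fun h1 => ⟨(sim_tp1 h D).mp h1.1, fun W hW => h1.2 W ((sim_tp1 h W).mpr hW)⟩,
    fun h1 => ⟨(sim_tp1 h D).mpr h1.1, fun W hW => h1.2 W ((sim_tp1 h W).mp hW)⟩⟩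

end

/-- models of a theory without perfectly many models are models of the theory of a countable saturated
module -/
theorem exU {R : Type} [Ring R] [Countable R] (T : (LMod R).Theory) (hT : ModTh T)
    (hP : ¬ PerfMod T) (M : Type) [AddCommGroup M] [Module R M] (hc : Countable M)
    (hi : Infinite M) (hM : Mods T M) : ∃ U : Md R, MonM R U ∧ Mods (Th R U) M ∧
      ModTh (Th R U) ∧ ¬ PerfMod (Th R U) := by
  have hDEF1 := Pool.Agent.WOM.thm_DEF1 Pool.Agent.WOM.thm_DEFF
  have hREAL := Pool.Agent.WOM.thm_REAL Pool.Agent.WOM.thm_MEAS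
  have hL := countable_symb R
  obtain ⟨e⟩ : Nonempty (M ≃ ℕ) := nonempty_equiv_of_countable
  let iM := modStr R M
  let S : (LMod R).Structure ℕ := @_root_.Equiv.inducedStructure (LMod R) M ℕ iM e
  let E : @FirstOrder.Language.Equiv (LMod R) M ℕ iM S :=
    @_root_.Equiv.inducedStructureEquiv (LMod R) M ℕ iM e
  have hE : ∀ φ : (LMod R).Sentence, @FirstOrder.Language.Sentence.Realize (LMod R) M iM φ ↔
      @FirstOrder.Language.Sentence.Realize (LMod R) ℕ S φ := fun φ =>
    FirstOrder.Language.StrongHomClass.realize_sentence E φ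
  have hS : @FirstOrder.Language.Theory.Model (LMod R) ℕ S T :=
    @FirstOrder.Language.Theory.Model.mk (LMod R) ℕ S T fun φ hφ =>
      (hE φ).1 (FirstOrder.Language.Theory.Model.realize_of_mem (self := hM) φ hφ)
  have hTS : T ⊆ ThS (LMod R) S := fun φ hφ => hS.realize_of_mem φ hφ
  have hp : ¬ PerfT (LMod R) (ThS (LMod R) S) := by
    rintro ⟨f, h1, h2⟩
    refine hP ((perfT_iff T).1 ⟨f, fun x => ?_, h2⟩)
    exact @FirstOrder.Language.Theory.Model.mk (LMod R) ℕ (f x) T fun φ hφ =>
      FirstOrder.Language.Theory.Model.realize_of_mem (self := h1 x) φ (hTS hφ)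
  have hsm : Small (LMod R) (ThS (LMod R) S) := by
    by_contra h
    exact hp (Pool.Agent.WOM.thm_NSM Pool.Agent.WOM.thm_MEAS hREAL (LMod R) hL _ h)
  obtain ⟨V, _, _, hV, hsV⟩ := Pool.Agent.WOM.thm_ULT hDEF1 (LMod R) hL S
  obtain ⟨U, I, hcU, hiU, hU, hsU⟩ := Pool.Agent.WOM.thm_SUBM hDEF1 (LMod R) hL S hsm V hV hsV
  have hMo : Mon (LMod R) U := Pool.Agent.WOM.thm_HOMG hDEF1 (LMod R) U hcU hiU hsU
  have hUT := Pool.Agent.WOM.TOP_mono (LMod R) T S hS U hU
  obtain ⟨g, m, rfl⟩ := hT U I hUT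
  have e1 := thS_eq S U hU
  refine ⟨⟨U⟩, hMo, ?_, ?_, ?_⟩
  · refine @FirstOrder.Language.Theory.Model.mk (LMod R) M (modStr R M) _ fun φ hφ => ?_
    have h1 : φ ∈ ThS (LMod R) S := by
      rw [e1]
      exact hφ
    exact (hE φ).2 h1
  · show ModTh (Th R U)
    rw [← e1]
    intro M' S' hS'
    exact hT M' S' (@FirstOrder.Language.Theory.Model.mk (LMod R) M' S' T fun φ hφ =>
      FirstOrder.Language.Theory.Model.realize_of_mem (self := hS') φ (hTS hφ))
  · show ¬ PerfMod (Th R U)
    rw [← e1]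
    exact fun h => hp ((perfT_iff _).2 h)

/-- similar empty tuples: the same theory -/
theorem sim_th {R : Type} [Ring R] {M N : Type} [AddCommGroup M] [Module R M] [AddCommGroup N]
    [Module R N] {a : Fin 0 → M} {b : Fin 0 → N} (h : Sim (modStr R M) (modStr R N) a b) :
    Th R M = Th R N := by
  obtain ⟨y, hy⟩ := h.1 0 (fun i => i.elim0)
  ext φ
  let f : Empty → Fin (0 + 0) := fun z => nomatch z
  have h1 := hy (FirstOrder.Language.Formula.relabel f φ)
  rw [@FirstOrder.Language.Formula.realize_relabel (LMod R) M (modStr R M),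
    @FirstOrder.Language.Formula.realize_relabel (LMod R) N (modStr R N)] at h1
  have h2 : ∀ v : Empty → M, @FirstOrder.Language.Formula.Realize (LMod R) M (modStr R M) _ φ v ↔
      φ ∈ Th R M := by
    intro v
    have hv : v = default := Subsingleton.elim _ _
    rw [hv]
    exact Iff.rfl
  have h3 : ∀ v : Empty → N, @FirstOrder.Language.Formula.Realize (LMod R) N (modStr R N) _ φ v ↔
      φ ∈ Th R N := by
    intro v
    have hv : v = default := Subsingleton.elim _ _
    rw [hv]
    exact Iff.rfl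
  rw [h2, h3] at h1
  exact h1

/-- The classification. -/
theorem thm_SIM (hT1 : St_T1U) (hUM : St_UMLU) (R : Type) [Ring R] [Countable R]
    (T : (LMod R).Theory) (hT : ModTh T) (hP : ¬ PerfMod T) : Clas T := by
  intro M N S S' hMc hMi hNc hNi hM hN h1 h2 n a b hab
  obtain ⟨gM, mM, rfl⟩ := hT M S hM
  obtain ⟨gN, mN, rfl⟩ := hT N S' hN
  obtain ⟨U, hU, hMU, hMT, hUP⟩ := exU T hT hP M hMc hMi hM
  obtain ⟨b0, hb0⟩ := h1 0 (fun i => i.elim0)
  have hNU : Mods (Th R U) N := by
    rw [← th_eq hMU, sim_th hb0]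
    exact mods_self
  have hf : FewT R U := thm_FEW R U (mon_inf hU) hMT hUP
  have hiso : ISOT (KU R U) := thm_ISOT (hT1 R U hU hf) (hUM R U hU hf)
  have hex : ∀ (n : ℕ) (D : L1 R (Fin n)), (∃ x : Fin n → M, (KU R U).Exact D M x) ↔
      ∃ x : Fin n → N, (KU R U).Exact D N x := by
    intro n D
    constructor
    · rintro ⟨x, hx⟩
      obtain ⟨y, hy⟩ := h1 n x
      exact ⟨y, (sim_exact hy D).mp hx⟩
    · rintro ⟨y, hy⟩
      obtain ⟨x, hx⟩ := h2 n y
      exact ⟨x, (sim_exact hx D).mpr hy⟩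
  obtain ⟨D, hD⟩ := hUM R U hU hf M hMc hMU n a
  obtain ⟨g, hg⟩ := hiso M N hMc hNc hMU hNU hex n a b D hD ((sim_exact hab D).mp hD)
  refine ⟨@FirstOrder.Language.Equiv.mk (LMod R) M N (modStr R M) (modStr R N) g.toEquiv (by
    intro n f x
    cases f with
    | zero => exact map_zero g
    | smul r => exact map_smul g r (x 0)
    | add => exact map_add g (x 0) (x 1)) (by
    intro n r x
    exact nomatch r), hg⟩

end Pool.Agent.VMF
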