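import Pool.Agent.VMF.StD

/-!
# VMF, 5.5: the models whose realised values are spanned by conjugates of given values (`St_SPN`)
-/

set_option autoImplicit false
set_option linter.unusedSectionVars false
set_option linter.unusedVariables false

namespace Pool.Agent.VMF

open Set Pool.Agent.MVC Pool.Agent.MVC.Ax

section

variable {R : Type} [Ring R]

/-- pulling back along an isomorphism modulo null maps is injective -/
private theorem SPN_inv (X : Ax R) {N N' : Md R} {v : N →ₗ[R] N'} {w : N' →ₗ[R] N}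
    (h : X.Eqv (v ∘ₗ w) LinearMap.id) (M : Md R) (e : X.ex N' M) :
    X.exMap w M (X.exMap v M e) = e := by
  rw [exMap_comp, exMap_eqv X h M, exMap_id]

/-- each element of `TT` is the value of a fact along an isomorphism -/
private theorem SPN_iso (h1 : St_TTS) (h2 : St_RPF) (h4 : St_DLX) [Countable R] {U : Md R}
    (hM : MonM R U) {ι l : Type} [Finite ι] [Finite l] {a : ι → U} {Z : Set (PP R l)} {Y : Md R}
    {y : l → Y} (hZ : Full U Z) (hY : (Own R U).Honest Z Y y) (d : EF U a Y)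
    (hd : d ∈ TT U a Y) :
    ∃ (κ : Type) (_ : Finite κ) (V : Set (PP R (ι ⊕ κ))) (ψ : PP R κ) (t : κ → U) (N : Md R)
      (g : κ → N) (i : Y →ₗ[R] N) (j : N →ₗ[R] Y), Fact U a V ψ t ∧
      (Own R U).Honest (zer '' V ∪ {ψ}) N g ∧ (Own R U).Eqv (j ∘ₗ i) LinearMap.id ∧
      (Own R U).Eqv (i ∘ₗ j) LinearMap.id ∧ IsVal U a V ψ t N g i d := by
  obtain ⟨κ, hκ, V, ψ, t, N, g, v, hF, hH, hv⟩ := h1 R U hM ι a Y d hd
  obtain ⟨κ', hκ', V', ψ', t', N', g', i, j, hF', hH', hji, hij, hval⟩ :=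
    h2 R U hM ι κ l a V ψ t N g Z Y y v hF hH hZ hY
  refine ⟨κ', hκ', V', ψ', t', N', g', i, j, hF', hH', hji, hij, ?_⟩
  intro p e' he'
  obtain ⟨e, he⟩ := (h4 R U hM ι κ a V ψ t N g p hF.re hF.fi hH).1
  rw [hv p e he]
  exact hval p e e' he he'

/-- the difference of two realisations of `V` over `a` -/
private theorem SPN_dif {U : Md R} {ι κ : Type} {a : ι → U} {V : Set (PP R (ι ⊕ κ))} {ψ : PP R κ}
    {t b : κ → U} (ht : Re V U (Sum.elim a t)) (hb : Re V U (Sum.elim a b))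
    (hψ : Sat ψ U (b - t)) : Re (zer '' V ∪ {ψ}) U (b - t) := by
  rw [re_union]
  constructor
  · rw [re_zer]
    have h1 : (Sum.elim (0 : ι → U) (b - t)) = Sum.elim a b - Sum.elim a t := by
      rw [← elim_sub, sub_self]
    rw [h1]
    exact hb.sub ht
  · intro φ hφ
    rw [Set.mem_singleton_iff.mp hφ]
    exact hψ

end

theorem thm_SPN (h1 : St_TTS) (h2 : St_RPF) (h3 : St_MDL) (h4 : St_DLX) (h5 : St_CSF)
    (h6 : St_ACF) (h7 : St_PRE) (h8 : St_EXA) (h9 : St_EXB) (h10 : MVC.St_HEX) : St_SPN := by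
  intro R _ _ U hM hA ι l _ _ a Z Y y hZ hY d hd
  choose κ hκ V ψ t N g i j hF hH hji hij hv using
    fun n => SPN_iso h1 h2 h4 hM hZ hY (d n) (hd n)
  obtain ⟨p, t', himg, hγ, hfin, hgen⟩ := h3 R U hM hA ι a κ V ψ t hF
  -- the facts at the new tuples
  have hF' : ∀ n, Fact U a (V n) (ψ n) (t' n) := by
    intro n
    obtain ⟨γ, hγn⟩ := hγ (n + 1)
    have h := (h6 R U ι (κ n) a (V n) (ψ n) (t n) (N n) Y (g n) (i n) (d n) γ).1 (hF n)
    exact (h5 R U ι (κ n) a (V n) (ψ n) (fun k => γ.1 (t n k)) (t' n) (N n) Y (g n) (i n) (d n)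
      (hγn n (Nat.lt_succ_self n))).1 h
  have hEx : ∀ n (q : AM U a), ∃ e, IsDelF U a (V n) (ψ n) (t' n) (N n) (g n) q e :=
    fun n q => (h4 R U hM ι (κ n) a (V n) (ψ n) (t' n) (N n) (g n) q (hF' n).re (hF' n).fi
      (hH n)).1
  choose E hE using hEx
  have hEu : ∀ n (q : AM U a) e, IsDelF U a (V n) (ψ n) (t' n) (N n) (g n) q e → e = E n q :=
    fun n q e he => (h4 R U hM ι (κ n) a (V n) (ψ n) (t' n) (N n) (g n) q (hF' n).re (hF' n).fi
      (hH n)).2.1 e (E n q) he (hE n q)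
  let d' : ℕ → EF U a Y := fun n q => (Own R U).exMap (i n) q.1.1 (E n q)
  have hd' : ∀ n, IsVal U a (V n) (ψ n) (t' n) (N n) (g n) (i n) (d' n) := by
    intro n q e he
    rw [hEu n q e he]
  have hdT : ∀ n, d' n ∈ TT U a Y := fun n => Submodule.subset_span
    ⟨κ n, hκ n, V n, ψ n, t' n, N n, g n, i n, hF' n, hH n, hd' n⟩
  refine ⟨p, d', ?_, ?_⟩
  · intro m
    obtain ⟨γ, hγm⟩ := hγ m
    refine ⟨γ, fun n hn => ?_⟩
    have h := (h6 R U ι (κ n) a (V n) (ψ n) (t n) (N n) Y (g n) (i n) (d n) γ).2.1 (hv n)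
    have h' := (h5 R U ι (κ n) a (V n) (ψ n) (fun k => γ.1 (t n k)) (t' n) (N n) Y (g n) (i n)
      (actE U a Y γ (d n)) (hγm n hn)).2 h
    funext q
    exact h' q (E n q) (hE n q)
  · apply le_antisymm
    · rw [Submodule.span_le]
      rintro _ ⟨n, rfl⟩
      refine ⟨hdT n, ?_⟩
      have hz : E n p = 0 := by
        refine ((h4 R U hM ι (κ n) a (V n) (ψ n) (t' n) (N n) (g n) p (hF' n).re (hF' n).fi
          (hH n)).2.2 (E n p) (hE n p)).2 ?_
        choose c hc using himg n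
        have hc' : (fun k => p.1.2 (c k)) = t' n := funext hc
        refine ⟨c, ?_, ?_⟩
        · rw [hc']
          exact (hF' n).re
        · rw [hc', sub_self]
          exact Sat.zero _
      show (Own R U).exMap (i n) p.1.1 (E n p) = 0
      rw [hz, map_zero]
    · rintro x ⟨hxT, hxp⟩
      obtain ⟨κx, hκx, Vx, ψx, tx, Nx, gx, ix, jx, hFx, hHx, hjix, hijx, hvx⟩ :=
        SPN_iso h1 h2 h4 hM hZ hY x hxT
      obtain ⟨⟨e, he⟩, -, hz⟩ := h4 R U hM ι κx a Vx ψx tx Nx gx p hFx.re hFx.fi hHx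
      have he0 : e = 0 := by
        have h := SPN_inv (Own R U) hijx p.1.1 e
        rw [← hvx p e he, hxp, map_zero] at h
        exact h.symm
      obtain ⟨b, hb1, hb2⟩ := (hz e he).1 he0
      -- replace the tuple by `b`
      have hdif := SPN_dif hFx.re hb1 hb2
      have hcs := h5 R U ι κx a Vx ψx tx (fun k => p.1.2 (b k)) Nx Y gx ix x hdif
      have hFb := hcs.1 hFx
      have hvb := hcs.2 hvx
      obtain ⟨ψ₁, N₁, g₁, ρ, j₁, hF₁, hP₁, hH₁, hjρ, hρj, hval₁⟩ :=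
        h7 R U hM hA ι κx a Vx ψx (fun k => p.1.2 (b k)) Nx gx hFb hHx
      obtain ⟨m, θ, hG⟩ := hgen κx b
      obtain ⟨ψW, hFW, hW⟩ := h9 R U hM ι a m (fun n => κ n) (fun n => V n) (fun n => ψ n)
        (fun q => t' q.1 q.2) (fun n => N n) (fun n => g n) (fun n => hF' n) (fun n => hH n)
        (hfin m)
      obtain ⟨NW, gW, hHW⟩ := h10 R (Own R U) ((n : Fin m) × κ n)
        (zer '' pp (R := R) U (Sum.elim a (fun q : (n : Fin m) × κ n => t' q.1 q.2)) ∪ {ψW})
      obtain ⟨μ, hμ⟩ := hW NW gW hHW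
      obtain ⟨ν, hν⟩ := h8 R U hM ι ((n : Fin m) × κ n) κx a
        (fun q : (n : Fin m) × κ n => t' q.1 q.2) ψW NW gW (fun k => p.1.2 (b k)) θ Vx ψ₁ N₁ g₁
        hFW hHW hG hF₁ hP₁ hH₁
      let w : Fin m → Module.End R Y := fun n => j n ∘ₗ (μ n ∘ₗ (ν ∘ₗ (j₁ ∘ₗ ix)))
      have key : x = ∑ n : Fin m,
          MulOpposite.op (Ideal.Quotient.mk ((Own R U).nullIdeal Y) (w n)) • d' n := by
        funext q
        obtain ⟨⟨eq, heq⟩, -, -⟩ := h4 R U hM ι κx a Vx ψx (fun k => p.1.2 (b k)) Nx gx q hFb.re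
          hFb.fi hHx
        obtain ⟨⟨eW, heW⟩, -, -⟩ := h4 R U hM ι ((n : Fin m) × κ n) a
          (pp U (Sum.elim a (fun q : (n : Fin m) × κ n => t' q.1 q.2))) ψW
          (fun q : (n : Fin m) × κ n => t' q.1 q.2) NW gW q hFW.re hFW.fi hHW
        have e1 := hval₁ q eq heq
        have e2 := hν q _ eW e1 heW
        have e3 := hμ q eW (fun n => E n q) heW (fun n => hE n q)
        have e4 : eq = (Own R U).exMap j₁ q.1.1 ((Own R U).exMap ρ q.1.1 eq) :=
          (SPN_inv (Own R U) hρj q.1.1 eq).symm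
        rw [hvb q eq heq, e4, e2, e3, map_sum, map_sum, map_sum]
        rw [Finset.sum_apply]
        refine Finset.sum_congr rfl fun n _ => ?_
        show _ = MulOpposite.op (Ideal.Quotient.mk ((Own R U).nullIdeal Y) (w n)) • d' n q
        rw [smul_mk_ex]
        have e5 : E n q = (Own R U).exMap (j n) q.1.1 (d' n q) :=
          (SPN_inv (Own R U) (hij n) q.1.1 (E n q)).symm
        rw [exMap_comp, exMap_comp, exMap_comp]
        conv_lhs => rw [e5]
        rw [exMap_comp]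
      rw [key]
      exact Submodule.sum_mem _ fun n _ => Submodule.smul_mem _ _
        (Submodule.subset_span ⟨n, rfl⟩)

end Pool.Agent.VMF
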