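import Pool.Agent.VMF.StT
import Pool.Agent.VMF.BRI

/-!
# VMF, block T: coherent families of types are realised in models with generated tuples
-/

set_option autoImplicit false
set_option linter.unusedSectionVars false
set_option linter.unusedVariables false

namespace Pool.Agent.VMF

open Set Pool.Agent.MVC Pool.Agent.MVC.Ax

section

variable {R : Type} [Ring R]

/-- sequences with invariants -/
theorem TLI_seq {S : Type} (I : ℕ → S → Prop) (E : ℕ → S → S → Prop) (s0 : S) (h0 : I 0 s0)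
    (h : ∀ k s, I k s → ∃ s', I (k + 1) s' ∧ E k s s') :
    ∃ f : ℕ → S, f 0 = s0 ∧ (∀ k, I k (f k)) ∧ ∀ k, E k (f k) (f (k + 1)) := by
  choose g hg using h
  let F : ∀ k, {s // I k s} := fun k =>
    Nat.rec (motive := fun k => {s // I k s}) ⟨s0, h0⟩ (fun k s => ⟨g k s.1 s.2, (hg k s.1 s.2).1⟩) k
  exact ⟨fun k => (F k).1, rfl, fun k => (F k).2, fun k => (hg k (F k).1 (F k).2).2⟩

/-- automorphisms preserve positive primitive formulas -/
theorem sat_aut {U : Md R} (γ : U ≃ₗ[R] U) {ι : Type} (φ : PP R ι) (x : ι → U) :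
    Sat φ U (fun i => γ (x i)) ↔ Sat φ U x := by
  constructor
  · intro h
    have h1 := h.map (γ.symm : U →ₗ[R] U)
    have h2 : (γ.symm : U →ₗ[R] U) ∘ (fun i => γ (x i)) = x := by
      funext i
      exact γ.symm_apply_apply (x i)
    rwa [h2] at h1
  · intro h
    exact h.map (γ : U →ₗ[R] U)

theorem pp_aut {U : Md R} (γ : U ≃ₗ[R] U) {ι : Type} (x : ι → U) :
    pp (R := R) U (fun i => γ (x i)) = pp U x := by
  ext φ
  exact sat_aut γ φ x

theorem elim_aut {U : Md R} (γ : U ≃ₗ[R] U) {κ ι : Type} (b : κ → U) (c : ι → U) :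
    Sum.elim (fun i => γ (b i)) (fun i => γ (c i)) = fun i => γ (Sum.elim b c i) := by
  funext i
  cases i <;> rfl

theorem Isol.aut {U : Md R} (γ : U ≃ₗ[R] U) {κ ι : Type} {b : κ → U} {c : ι → U}
    (h : Isol (R := R) U b c) : Isol (R := R) U (fun i => γ (b i)) (fun i => γ (c i)) := by
  obtain ⟨θ, s, h1, h2, h3⟩ := h
  refine ⟨θ, s, ?_, ?_, ?_⟩
  · rw [elim_aut, sat_aut]
    exact h1
  · intro ψ hψ
    rw [elim_aut, sat_aut]
    exact h2 ψ hψ
  · intro c' h4 h5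
    have h6 : c' = fun i => γ (γ.symm (c' i)) := by
      funext i
      exact (γ.apply_symm_apply (c' i)).symm
    rw [h6] at h4 h5 ⊢
    rw [elim_aut, sat_aut] at h4
    have h7 := h3 (fun i => γ.symm (c' i)) h4 fun ψ hψ h => h5 ψ hψ (by
      rw [elim_aut, sat_aut]
      exact h)
    rw [elim_aut, pp_aut, elim_aut, pp_aut]
    exact h7

theorem pp_ren {U : Type} [AddCommGroup U] [Module R U] {ι κ : Type} {x y : ι → U}
    (h : pp (R := R) U x = pp U y) (f : κ → ι) : pp (R := R) U (x ∘ f) = pp U (y ∘ f) := by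
  ext φ
  have h1 : ren f φ ∈ pp (R := R) U x ↔ ren f φ ∈ pp (R := R) U y := by rw [h]
  have h2 : ren f φ ∈ pp (R := R) U x ↔ φ ∈ pp (R := R) U (x ∘ f) := sat_ren f φ x
  have h3 : ren f φ ∈ pp (R := R) U y ↔ φ ∈ pp (R := R) U (y ∘ f) := sat_ren f φ y
  rw [← h2, ← h3]
  exact h1

theorem Isol.reindex {U : Md R} {κ ι ι' : Type} {b : κ → U} {c : ι → U} (e : ι' ≃ ι)
    (h : Isol (R := R) U b c) : Isol (R := R) U b (c ∘ e) := by
  obtain ⟨θ, s, h1, h2, h3⟩ := h
  classical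
  have h0 : ∀ c' : ι' → U, Sum.elim b c' ∘ Sum.map id e.symm = Sum.elim b (c' ∘ e.symm) := by
    intro c'
    funext i
    cases i <;> rfl
  have h4 : (c ∘ e) ∘ e.symm = c := by
    funext i
    simp
  refine ⟨ren (Sum.map id e.symm) θ, s.image (ren (Sum.map id e.symm)), ?_, ?_, ?_⟩
  · rw [sat_ren, h0, h4]
    exact h1
  · intro ψ hψ
    obtain ⟨ψ', hψ', rfl⟩ := Finset.mem_image.mp hψ
    rw [sat_ren, h0, h4]
    exact h2 ψ' hψ'
  · intro c' h5 h6
    rw [sat_ren, h0] at h5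
    have h7 := h3 (c' ∘ e.symm) h5 fun ψ hψ h => h6 _ (Finset.mem_image_of_mem _ hψ) (by
      rw [sat_ren, h0]
      exact h)
    have h8 := pp_ren h7 (Sum.map id e)
    have h9 : Sum.elim b (c' ∘ e.symm) ∘ Sum.map id e = Sum.elim b c' := by
      funext i
      cases i <;> simp
    have h10 : Sum.elim b c ∘ Sum.map id e = Sum.elim b (c ∘ e) := by
      funext i
      cases i <;> rfl
    rw [h9, h10] at h8
    exact h8

/-- generation passes to parts of the tuple -/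
theorem gen_sub {X : Ax R} {κ ι l : Type} [Countable ι] [Finite l] {S : Set (PP R κ)} {N : Type}
    [AddCommGroup N] [Module R N] {g : κ → N} {b : ι → N} {θ : PP R (κ ⊕ ι)}
    (h : X.Gen S N g b θ) (f : l → ι) : ∃ θ' : PP R (κ ⊕ l), X.Gen S N g (b ∘ f) θ' := by
  have hp : IsPP (R := R) (ι := κ ⊕ l) (fun M _ _ z => ∃ y : ι → M,
      Sat θ M (Sum.elim (z ∘ Sum.inl) y) ∧ z ∘ Sum.inr = y ∘ f) := by
    have h1 : IsPP (R := R) (ι := (κ ⊕ l) ⊕ ι) (fun M _ _ z =>
        Sat θ M (z ∘ Sum.elim (Sum.inl ∘ Sum.inl) Sum.inr)) := (isPP_sat θ).comap _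
    have h2 : IsPP (R := R) (ι := (κ ⊕ l) ⊕ ι) (fun M _ _ z =>
        (fun i : l => z (Sum.inl (Sum.inr i)) - z (Sum.inr (f i))) = 0) := by
      refine (isPP_zero.subst (fun i : l => Finsupp.single (Sum.inl (Sum.inr i)) (1 : R) -
        Finsupp.single (Sum.inr (f i)) 1)).congr (fun M _ _ x => ?_)
      simp [map_sub]
    refine (h1.and h2).ex.congr fun M _ _ z => exists_congr fun y => and_congr (iff_of_eq ?_) ?_
    · congr 1
      funext i
      cases i <;> rfl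
    · constructor
      · intro h3
        funext i
        have h4 := congrFun h3 i
        exact sub_eq_zero.mp h4
      · intro h3
        funext i
        have h4 := congrFun h3 i
        exact sub_eq_zero.mpr h4
  obtain ⟨θ', hθ'⟩ := hp
  refine ⟨θ', (hθ' N _).mp ⟨b, h.1, rfl⟩, fun ψ hψ => ?_⟩
  obtain ⟨s, hs, h1⟩ := h.2 (ren (Sum.map id f) ψ) (by
    rw [sat_ren]
    have h2 : Sum.elim g b ∘ Sum.map id f = Sum.elim g (b ∘ f) := by
      funext i
      cases i <;> rfl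
    rw [h2]
    exact hψ)
  refine ⟨s, hs, fun M _ _ hM x z hx hz => ?_⟩
  obtain ⟨y, hy, hzy⟩ := (hθ' M _).mpr hz
  have h3 := h1 M hM x y hx hy
  rw [sat_ren] at h3
  have h4 : Sum.elim x y ∘ Sum.map id f = Sum.elim x z := by
    funext i
    cases i with
    | inl i => rfl
    | inr i => exact (congrFun hzy i).symm
  rwa [h4] at h3

end

section

variable {R : Type} [Ring R] [Countable R] {U : Md R} {ι : Type}

/-- the restriction of a state -/
private def TInv (P : ∀ A : Finset ι, Set (PP R A)) (n : ℕ) (s : Finset ι × (ι → U) × (ℕ → U)) :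
    Prop :=
  pp (R := R) U (fun i : s.1 => s.2.1 i) = P s.1 ∧
    Isol (R := R) U (fun i : s.1 => s.2.1 i) (fun j : Fin n => s.2.2 j)

/-- enlarging the base -/
private theorem step1 (hHOM : St_HOMP) (hISD : St_ISD) (hU : MonM R U)
    (P : ∀ A : Finset ι, Set (PP R A))
    (hP : ∀ A : Finset ι, ∃ c : A → U, pp (R := R) U c = P A)
    (hc : ∀ (A B : Finset ι) (h : A ⊆ B) (φ : PP R A), φ ∈ P A ↔
      ren (fun i : A => (⟨i.1, h i.2⟩ : B)) φ ∈ P B)
    (n : ℕ) (s : Finset ι × (ι → U) × (ℕ → U)) (hs : TInv P n s) (A' : Finset ι) (hA : s.1 ⊆ A') :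
    ∃ x' : ι → U, (∀ i ∈ s.1, x' i = s.2.1 i) ∧ TInv P n (A', x', s.2.2) := by
  classical
  obtain ⟨A, x, y⟩ := s
  obtain ⟨hx, hy⟩ := hs
  dsimp only at hx hy hA ⊢
  obtain ⟨z, hz⟩ := hP A'
  have h1 : pp (R := R) U (fun i : A => z ⟨i.1, hA i.2⟩) = pp U (fun i : A => x i) := by
    rw [hx]
    ext φ
    rw [hc A A' hA φ, ← hz]
    exact (sat_ren _ φ z).symm
  obtain ⟨γ, hγ⟩ := hHOM R U hU A _ _ h1
  let z1 : A' → U := fun i => γ (z i)
  have hz1 : ∀ i : A, z1 ⟨i.1, hA i.2⟩ = x i := hγ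
  obtain ⟨θ, t, h2, h3, h4⟩ := hy
  let f : A ⊕ Fin n → A' ⊕ Fin n := Sum.map (fun i => ⟨i.1, hA i.2⟩) id
  have hf : ∀ c : Fin n → U, Sum.elim z1 c ∘ f = Sum.elim (fun i : A => x i) c := by
    intro c
    funext i
    rcases i with i | i
    · exact hz1 i
    · rfl
  obtain ⟨v, ⟨h5, h6⟩, h7⟩ := hISD R U hU A' (Fin n) z1 (ren f θ) (t.image (ren f))
    ⟨fun j => y j, by
      rw [sat_ren, hf]
      exact h2, by
      intro ψ hψ
      obtain ⟨ψ', hψ', rfl⟩ := Finset.mem_image.mp hψ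
      rw [sat_ren, hf]
      exact h3 ψ' hψ'⟩
  have h8 : pp (R := R) U (Sum.elim (fun i : A => x i) v) =
      pp U (Sum.elim (fun i : A => x i) (fun j : Fin n => y j)) := by
    refine h4 v ?_ ?_
    · rw [sat_ren, hf] at h5
      exact h5
    · intro ψ hψ h
      refine h6 _ (Finset.mem_image_of_mem _ hψ) ?_
      rw [sat_ren, hf]
      exact h
  obtain ⟨δ, hδ⟩ := hHOM R U hU (A ⊕ Fin n) _ _ h8
  let x' : ι → U := fun i => if h : i ∈ A' then δ (z1 ⟨i, h⟩) else 0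
  have hx' : (fun i : A' => x' i) = fun i => δ (z1 i) := by
    funext i
    simp only [x', dif_pos i.2]
  refine ⟨x', fun i hi => ?_, ?_, ?_⟩
  · have h9 : x' i = δ (z1 ⟨i, hA hi⟩) := by simp only [x', dif_pos (hA hi)]
    rw [h9, hz1 ⟨i, hi⟩]
    exact hδ (Sum.inl ⟨i, hi⟩)
  · dsimp only
    rw [hx', pp_aut]
    show pp (R := R) U (fun i => γ (z i)) = P A'
    rw [pp_aut]
    exact hz
  · dsimp only
    rw [hx']
    have h10 : (fun j : Fin n => y j) = fun j => δ (v j) := by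
      funext j
      exact (hδ (Sum.inr j)).symm
    rw [h10]
    exact h7.aut δ

/-- adding an element -/
private theorem step2 (hHOM : St_HOMP) (hISD : St_ISD) (hU : MonM R U)
    (P : ∀ A : Finset ι, Set (PP R A)) (n : ℕ) (A : Finset ι) (x : ι → U) (y : ℕ → U)
    (hs : TInv P n (A, x, y)) (φ : PP R ((A ⊕ Fin n) ⊕ Fin 1))
    (s : Finset (PP R ((A ⊕ Fin n) ⊕ Fin 1)))
    (hw : ∃ w : Fin 1 → U, Sat φ U (Sum.elim (Sum.elim (fun i : A => x i) (fun j : Fin n => y j)) w) ∧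
      ∀ ψ ∈ s, ¬ Sat ψ U (Sum.elim (Sum.elim (fun i : A => x i) (fun j : Fin n => y j)) w)) :
    ∃ w : U, TInv P (n + 1) (A, x, fun j => if j < n then y j else w) ∧
      Sat φ U (Sum.elim (Sum.elim (fun i : A => x i) (fun j : Fin n => y j)) fun _ => w) ∧
      ∀ ψ ∈ s, ¬ Sat ψ U (Sum.elim (Sum.elim (fun i : A => x i) (fun j : Fin n => y j)) fun _ => w) := by
  classical
  obtain ⟨hx, θ, t, h2, h3, h4⟩ := hs
  dsimp only at hx h2 h3 h4
  obtain ⟨w0, hw1, hw2⟩ := hw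
  let f : A ⊕ Fin n → A ⊕ (Fin n ⊕ Fin 1) := Sum.map id Sum.inl
  let g : (A ⊕ Fin n) ⊕ Fin 1 → A ⊕ (Fin n ⊕ Fin 1) :=
    Sum.elim (Sum.elim Sum.inl (fun j => Sum.inr (Sum.inl j))) (fun j => Sum.inr (Sum.inr j))
  have hf : ∀ (b : A → U) (c : Fin n → U) (w : Fin 1 → U),
      Sum.elim b (Sum.elim c w) ∘ f = Sum.elim b c := by
    intro b c w
    funext i
    rcases i with i | i <;> rfl
  have hg : ∀ (b : A → U) (c : Fin n → U) (w : Fin 1 → U),
      Sum.elim b (Sum.elim c w) ∘ g = Sum.elim (Sum.elim b c) w := by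
    intro b c w
    funext i
    rcases i with (i | i) | i <;> rfl
  obtain ⟨θ2, hθ2⟩ := ((isPP_sat θ).comap f).and ((isPP_sat φ).comap g)
  obtain ⟨v, ⟨h5, h6⟩, h7⟩ := hISD R U hU A (Fin n ⊕ Fin 1) (fun i : A => x i) θ2
    (t.image (ren f) ∪ s.image (ren g)) ⟨Sum.elim (fun j => y j) w0, by
      rw [← hθ2]
      refine ⟨?_, ?_⟩
      · rw [hf]
        exact h2
      · rw [hg]
        exact hw1, by
      intro ψ hψ
      rcases Finset.mem_union.mp hψ with hψ | hψ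
      · obtain ⟨ψ', hψ', rfl⟩ := Finset.mem_image.mp hψ
        rw [sat_ren, hf]
        exact h3 ψ' hψ'
      · obtain ⟨ψ', hψ', rfl⟩ := Finset.mem_image.mp hψ
        rw [sat_ren, hg]
        exact hw2 ψ' hψ'⟩
  have hv : v = Sum.elim (v ∘ Sum.inl) (v ∘ Sum.inr) := by
    funext i
    cases i <;> rfl
  rw [← hθ2] at h5
  obtain ⟨h51, h52⟩ := h5
  rw [hv, hf] at h51
  rw [hv, hg] at h52
  have h8 : pp (R := R) U (Sum.elim (fun i : A => x i) (v ∘ Sum.inl)) =
      pp U (Sum.elim (fun i : A => x i) (fun j : Fin n => y j)) := by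
    refine h4 _ h51 ?_
    intro ψ hψ h
    refine h6 (ren f ψ) (Finset.mem_union_left _ (Finset.mem_image_of_mem _ hψ)) ?_
    rw [sat_ren, hv, hf]
    exact h
  obtain ⟨δ, hδ⟩ := hHOM R U hU (A ⊕ Fin n) _ _ h8
  let w : U := δ (v (Sum.inr 0))
  have hb : (fun i : A => x i) = fun i : A => δ (x i) := by
    funext i
    exact (hδ (Sum.inl i)).symm
  have hc : (fun j : Fin n => y j) = fun j => δ (v (Sum.inl j)) := by
    funext j
    exact (hδ (Sum.inr j)).symm
  have hw : (fun _ : Fin 1 => w) = fun j => δ (v (Sum.inr j)) := by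
    funext j
    have : j = 0 := Subsingleton.elim _ _
    rw [this]
  have hsat : ∀ χ : PP R ((A ⊕ Fin n) ⊕ Fin 1),
      Sat χ U (Sum.elim (Sum.elim (fun i : A => x i) (fun j : Fin n => y j)) fun _ => w) ↔
      Sat χ U (Sum.elim (Sum.elim (fun i : A => x i) (v ∘ Sum.inl)) (v ∘ Sum.inr)) := by
    intro χ
    have h9 : Sum.elim (Sum.elim (fun i : A => x i) (fun j : Fin n => y j)) (fun _ : Fin 1 => w) =
        fun i => δ (Sum.elim (Sum.elim (fun i : A => x i) (v ∘ Sum.inl)) (v ∘ Sum.inr) i) := by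
      funext i
      rcases i with (i | i) | i
      · exact (hδ (Sum.inl i)).symm
      · exact (hδ (Sum.inr i)).symm
      · exact congrFun hw i
    rw [h9, sat_aut]
  refine ⟨w, ⟨hx, ?_⟩, (hsat φ).mpr h52, fun ψ hψ h => ?_⟩
  · dsimp only
    have h10 := (h7.aut δ).reindex (finSumFinEquiv (m := n) (n := 1)).symm
    rw [← hb] at h10
    have h11 : (fun j : Fin (n + 1) => if (j : ℕ) < n then y j else w) =
        (fun i => δ (v i)) ∘ (finSumFinEquiv (m := n) (n := 1)).symm := by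
      funext j
      refine Fin.addCases (fun j => ?_) (fun j => ?_) j
      · simp only [Function.comp_apply, finSumFinEquiv_symm_apply_castAdd, Fin.val_castAdd,
          j.2, if_true]
        exact congrFun hc j
      · have : j = 0 := Subsingleton.elim _ _
        subst this
        simp only [Function.comp_apply, finSumFinEquiv_symm_apply_natAdd]
        rw [if_neg (by simp)]
    rw [h11]
    exact h10
  · refine h6 (ren g ψ) (Finset.mem_union_right _ (Finset.mem_image_of_mem _ hψ)) ?_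
    rw [sat_ren, hv, hg]
    exact (hsat ψ).mp h

/-- tasks: a set in one variable with parameters from the two sequences -/
private abbrev Tk (R : Type) [Ring R] (ι : Type) : Type :=
  (n : ℕ) × ((Fin n → ι ⊕ ℕ) × (PP R (Fin n ⊕ Fin 1) × Finset (PP R (Fin n ⊕ Fin 1))))

/-- `w` is in the set of the task -/
private def Sol {U : Md R} (t : Tk R ι) (x : ι → U) (y : ℕ → U) (w : U) : Prop :=
  Sat t.2.2.1 U (Sum.elim (Sum.elim x y ∘ t.2.1) fun _ => w) ∧
    ∀ ψ ∈ t.2.2.2, ¬ Sat ψ U (Sum.elim (Sum.elim x y ∘ t.2.1) fun _ => w)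

/-- the parameters of the task are available -/
private def Av (t : Tk R ι) (A : Finset ι) (n : ℕ) : Prop :=
  ∀ i, (∃ j ∈ A, t.2.1 i = Sum.inl j) ∨ ∃ j < n, t.2.1 i = Sum.inr j

/-- one step of the construction -/
private theorem step3 (hHOM : St_HOMP) (hISD : St_ISD) (hU : MonM R U)
    (P : ∀ A : Finset ι, Set (PP R A))
    (hP : ∀ A : Finset ι, ∃ c : A → U, pp (R := R) U c = P A)
    (hc : ∀ (A B : Finset ι) (h : A ⊆ B) (φ : PP R A), φ ∈ P A ↔
      ren (fun i : A => (⟨i.1, h i.2⟩ : B)) φ ∈ P B)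
    (n : ℕ) (A A' : Finset ι) (hA : A ⊆ A') (x : ι → U) (y : ℕ → U) (hs : TInv P n (A, x, y))
    (t : Tk R ι) : ∃ (x' : ι → U) (y' : ℕ → U), TInv P (n + 1) (A', x', y') ∧
      (∀ i ∈ A, x' i = x i) ∧ (∀ j < n, y' j = y j) ∧
      (Av t A' n → (∃ w, Sol t x' y' w) → Sol t x' y' (y' n)) := by
  classical
  obtain ⟨x', hx', h1⟩ := step1 hHOM hISD hU P hP hc n (A, x, y) hs A' hA
  dsimp only at hx' h1
  by_cases h2 : Av t A' n ∧ ∃ w, Sol t x' y w
  · obtain ⟨h3, w0, hw0⟩ := h2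
    have h4 : ∀ i, ∃ z : A' ⊕ Fin n, t.2.1 i =
        Sum.elim (fun i : A' => Sum.inl i.1) (fun j : Fin n => Sum.inr j.1) z := by
      intro i
      rcases h3 i with ⟨j, hj, h⟩ | ⟨j, hj, h⟩
      · exact ⟨Sum.inl ⟨j, hj⟩, h⟩
      · exact ⟨Sum.inr ⟨j, hj⟩, h⟩
    choose r hr using h4
    let f : Fin t.1 ⊕ Fin 1 → (A' ⊕ Fin n) ⊕ Fin 1 := Sum.map r id
    have hf : ∀ (y' : ℕ → U), (∀ j < n, y' j = y j) → ∀ w : Fin 1 → U,
        Sum.elim (Sum.elim (fun i : A' => x' i) (fun j : Fin n => y j)) w ∘ f =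
        Sum.elim (Sum.elim x' y' ∘ t.2.1) w := by
      intro y' hy' w
      funext i
      rcases i with i | i
      · simp only [f, Function.comp_apply, Sum.map_inl, Sum.elim_inl]
        rw [hr i]
        rcases r i with z | z
        · rfl
        · exact (hy' z z.2).symm
      · rfl
    obtain ⟨w, hw1, hw2, hw3⟩ := step2 hHOM hISD hU P n A' x' y h1 (ren f t.2.2.1)
      (t.2.2.2.image (ren f)) ⟨fun _ => w0, by
        rw [sat_ren, hf y (fun _ _ => rfl)]
        exact hw0.1, by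
        intro ψ hψ
        obtain ⟨ψ', hψ', rfl⟩ := Finset.mem_image.mp hψ
        rw [sat_ren, hf y (fun _ _ => rfl)]
        exact hw0.2 ψ' hψ'⟩
    refine ⟨x', fun j => if j < n then y j else w, hw1, hx', fun j hj => by simp [hj],
      fun _ _ => ?_⟩
    have hy' : ∀ j < n, (fun j => if j < n then y j else w) j = y j := fun j hj => by simp [hj]
    refine ⟨?_, fun ψ hψ h => ?_⟩
    · rw [sat_ren, hf _ hy'] at hw2
      simpa using hw2
    · refine hw3 _ (Finset.mem_image_of_mem _ hψ) ?_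
      rw [sat_ren, hf _ hy']
      simpa using h
  · obtain ⟨φ, hφ⟩ := isPP_true (R := R) (ι := (A' ⊕ Fin n) ⊕ Fin 1)
    obtain ⟨w, hw1, -, -⟩ := step2 hHOM hISD hU P n A' x' y h1 φ ∅
      ⟨0, (hφ U _).mp trivial, by simp⟩
    refine ⟨x', fun j => if j < n then y j else w, hw1, hx', fun j hj => by simp [hj],
      fun h3 h4 => ?_⟩
    refine (h2 ⟨h3, ?_⟩).elim
    obtain ⟨w', hw'⟩ := h4
    refine ⟨w', ?_⟩
    have h5 : Sum.elim x' (fun j => if j < n then y j else w) ∘ t.2.1 =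
        Sum.elim x' y ∘ t.2.1 := by
      funext i
      simp only [Function.comp_apply]
      rcases h3 i with ⟨j, hj, h⟩ | ⟨j, hj, h⟩
      · rw [h]
        rfl
      · rw [h]
        simp [hj]
    unfold Sol at hw' ⊢
    rwa [h5] at hw'

/-- the construction -/
theorem tlx (hHOM : St_HOMP) (hTV : St_TVP) (hISD : St_ISD) (hISG : St_ISG) (hU : MonM R U)
    [Countable ι] (P : ∀ A : Finset ι, Set (PP R A)) (A : ℕ → Finset ι) (hA : Monotone A)
    (hex : ∀ i, ∃ k, i ∈ A k)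
    (hP : ∀ A : Finset ι, ∃ c : A → U, pp (R := R) U c = P A)
    (hc : ∀ (A B : Finset ι) (h : A ⊆ B) (φ : PP R A), φ ∈ P A ↔
      ren (fun i : A => (⟨i.1, h i.2⟩ : B)) φ ∈ P B) (x0 : ι → U)
    (hx0 : pp (R := R) U (fun i : A 0 => x0 i) = P (A 0)) :
    ∃ (N : Submodule R U) (c : ι → N), (∀ i ∈ A 0, (c i : U) = x0 i) ∧ El U N ∧
      (∀ B : Finset ι, pp (R := R) N (fun i : B => c i) = P B) ∧
      ∀ (l : Type) [Finite l] (b : l → N), ∃ k0, ∀ k, k0 ≤ k → ∃ θ : PP R (A k ⊕ l),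
        (Own R U).Gen (P (A k)) N (fun i : A k => c i) b θ := by
  classical
  have hne : Nonempty (Tk R ι) := ⟨⟨0, fun i => i.elim0, [], ∅⟩⟩
  obtain ⟨g, hg⟩ := exists_surjective_nat (Tk R ι)
  have h0 : TInv P 0 (A 0, x0, fun _ => (0 : U)) := by
    refine ⟨hx0, ?_⟩
    obtain ⟨φ, hφ⟩ := isPP_true (R := R) (ι := A 0 ⊕ Fin 0)
    refine ⟨φ, ∅, (hφ U _).mp trivial, by simp, fun c' _ _ => ?_⟩
    congr 2
    exact Subsingleton.elim _ _
  obtain ⟨F, hF0, hF1, hF2⟩ := TLI_seq (S := (ι → U) × (ℕ → U)) (fun k s => TInv P k (A k, s.1, s.2))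
    (fun k s s' => (∀ i ∈ A k, s'.1 i = s.1 i) ∧ (∀ j < k, s'.2 j = s.2 j) ∧
      (Av (g (Nat.unpair k).1) (A (k + 1)) k → (∃ w, Sol (g (Nat.unpair k).1) s'.1 s'.2 w) →
        Sol (g (Nat.unpair k).1) s'.1 s'.2 (s'.2 k)))
    (x0, fun _ => (0 : U)) h0 (fun k s hs => by
      obtain ⟨x', y', h1, h2, h3, h4⟩ := step3 hHOM hISD hU P hP hc k (A k) (A (k + 1))
        (hA (Nat.le_succ k)) s.1 s.2 hs (g (Nat.unpair k).1)
      exact ⟨(x', y'), h1, h2, h3, h4⟩)
  have hx : ∀ k k', k ≤ k' → ∀ i ∈ A k, (F k').1 i = (F k).1 i := by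
    intro k k' h
    induction h with
    | refl => exact fun i _ => rfl
    | @step m hm ih =>
      intro i hi
      rw [← ih i hi]
      exact (hF2 m).1 i (hA hm hi)
  have hy : ∀ k k', k ≤ k' → ∀ j < k, (F k').2 j = (F k).2 j := by
    intro k k' h
    induction h with
    | refl => exact fun i _ => rfl
    | @step m hm ih =>
      intro i hi
      rw [← ih i hi]
      exact (hF2 m).2.1 i (lt_of_lt_of_le hi hm)
  choose κ hκ using hex
  let x : ι → U := fun i => (F (κ i)).1 i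
  let y : ℕ → U := fun j => (F (j + 1)).2 j
  have hx' : ∀ k, ∀ i ∈ A k, (F k).1 i = x i := by
    intro k i hi
    show _ = (F (κ i)).1 i
    rw [← hx k (max k (κ i)) (le_max_left _ _) i hi, hx (κ i) (max k (κ i)) (le_max_right _ _) i
      (hκ i)]
  have hy' : ∀ k, ∀ j < k, (F k).2 j = y j := fun k j hj => hy (j + 1) k hj j (Nat.lt_succ_self j)
  have hI : ∀ k, TInv P k (A k, x, y) := by
    intro k
    have h1 := hF1 k
    have h2 : (fun i : A k => (F k).1 i) = fun i : A k => x i := funext fun i => hx' k i i.2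
    have h3 : (fun j : Fin k => (F k).2 j) = fun j : Fin k => y j := funext fun j => hy' k j j.2
    unfold TInv at h1 ⊢
    dsimp only at h1 ⊢
    rwa [h2, h3] at h1
  have hex2 : ∀ B : Finset ι, ∃ k, B ⊆ A k := by
    intro B
    refine ⟨B.sup κ, fun i hi => hA (Finset.le_sup hi) (hκ i)⟩
  have hT : ∀ t : Tk R ι, (∃ w, Sol t x y w) → ∃ j, Sol t x y (y j) := by
    intro t hw
    obtain ⟨m, hm⟩ := hg t
    have h1 : ∃ k0, ∀ k, k0 ≤ k → Av t (A (k + 1)) k := by
      have h2 : ∀ i, ∃ k0, ∀ k, k0 ≤ k → (∃ j ∈ A (k + 1), t.2.1 i = Sum.inl j) ∨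
          ∃ j < k, t.2.1 i = Sum.inr j := by
        intro i
        rcases h : t.2.1 i with j | j
        · exact ⟨κ j, fun k hk => Or.inl ⟨j, hA (hk.trans (Nat.le_succ k)) (hκ j), rfl⟩⟩
        · exact ⟨j + 1, fun k hk => Or.inr ⟨j, hk, rfl⟩⟩
      choose K hK using h2
      exact ⟨Finset.univ.sup K, fun k hk i => hK i k ((Finset.le_sup (Finset.mem_univ i)).trans hk)⟩
    obtain ⟨k0, hk0⟩ := h1
    let k : ℕ := Nat.pair m k0
    have hk : k0 ≤ k := Nat.right_le_pair m k0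
    have h3 : g (Nat.unpair k).1 = t := by
      show g (Nat.unpair (Nat.pair m k0)).1 = t
      rw [Nat.unpair_pair]
      exact hm
    have h4 := (hF2 k).2.2
    rw [h3] at h4
    have h5 : Sum.elim (F (k + 1)).1 (F (k + 1)).2 ∘ t.2.1 = Sum.elim x y ∘ t.2.1 := by
      funext i
      simp only [Function.comp_apply]
      rcases hk0 k hk i with ⟨j, hj, h⟩ | ⟨j, hj, h⟩
      · rw [h]
        exact hx' (k + 1) j hj
      · rw [h]
        exact hy' (k + 1) j (hj.trans (Nat.lt_succ_self k))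
    have h6 : ∀ w, Sol t (F (k + 1)).1 (F (k + 1)).2 w ↔ Sol t x y w := by
      intro w
      unfold Sol
      rw [h5]
    refine ⟨k, ?_⟩
    have h7 := h4 (hk0 k hk) (by
      obtain ⟨w, hw⟩ := hw
      exact ⟨w, (h6 w).mpr hw⟩)
    rw [h6, hy' (k + 1) k (Nat.lt_succ_self k)] at h7
    exact h7
  have hlin : ∀ (n : ℕ) (a : Fin n → ι ⊕ ℕ) (e : Fin n →₀ R),
      Finsupp.linearCombination R (Sum.elim x y ∘ a) e ∈ range y := by
    intro n a e
    obtain ⟨φ, hφ⟩ := isPP_lin (R := R) (ι := Fin n ⊕ Fin 1)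
      (e.mapDomain Sum.inl - Finsupp.single (Sum.inr 0) 1)
    have h1 : ∀ w : U, Sat φ U (Sum.elim (Sum.elim x y ∘ a) fun _ => w) ↔
        Finsupp.linearCombination R (Sum.elim x y ∘ a) e = w := by
      intro w
      rw [← hφ U]
      beta_reduce
      rw [map_sub, Finsupp.linearCombination_mapDomain, Finsupp.linearCombination_single,
        one_smul, Sum.elim_comp_inl, Sum.elim_inr, sub_eq_zero]
    obtain ⟨j, hj⟩ := hT ⟨n, a, φ, ∅⟩ ⟨_, (h1 _).mpr rfl, by simp⟩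
    exact ⟨j, ((h1 _).mp hj.1).symm⟩
  let N : Submodule R U :=
    { carrier := range y
      add_mem' := by
        rintro _ _ ⟨i, rfl⟩ ⟨j, rfl⟩
        have h1 := hlin 2 ![Sum.inr i, Sum.inr j] (Finsupp.single 0 1 + Finsupp.single 1 1)
        simpa [map_add] using h1
      zero_mem' := by
        have h1 := hlin 0 (fun i => i.elim0) 0
        simpa using h1
      smul_mem' := by
        rintro r _ ⟨i, rfl⟩
        have h1 := hlin 1 (fun _ => Sum.inr i) (Finsupp.single 0 r)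
        simpa using h1 }
  have hxN : ∀ i, x i ∈ N := by
    intro i
    have h1 := hlin 1 (fun _ => Sum.inl i) (Finsupp.single 0 1)
    have h2 : x i ∈ range y := by simpa using h1
    exact h2
  have hEl : El U N := by
    refine hTV R U hU N fun n a φ s ha h1 => ?_
    have ha' : ∀ i, ∃ j, y j = a i := ha
    choose r hr using ha'
    have h2 : Sum.elim x y ∘ (fun i => Sum.inr (r i)) = a := by
      funext i
      exact hr i
    obtain ⟨w, hw1, hw2⟩ := h1
    have h3 : w = fun _ => w 0 := by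
      funext i
      have : i = 0 := Subsingleton.elim _ _
      rw [this]
    obtain ⟨j, hj⟩ := hT ⟨n, fun i => Sum.inr (r i), φ, s⟩ ⟨w 0, by
      unfold Sol
      dsimp only
      rw [h2, ← h3]
      exact ⟨hw1, hw2⟩⟩
    unfold Sol at hj
    dsimp only at hj
    rw [h2] at hj
    exact ⟨fun _ => y j, ⟨j, rfl⟩, hj⟩
  refine ⟨N, fun i => ⟨x i, hxN i⟩, ?_, hEl, ?_, ?_⟩
  · intro i hi
    show x i = x0 i
    rw [← hx' 0 i hi, hF0]
  · intro B
    obtain ⟨k, hk⟩ := hex2 B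
    rw [el_pp hEl]
    ext φ
    rw [hc B (A k) hk φ, ← (hI k).1]
    exact (sat_ren (fun i : B => (⟨i.1, hk i.2⟩ : A k)) φ (fun i : A k => x i)).symm
  · intro l _ b
    have hb : ∀ i, ∃ j, y j = (b i : U) := fun i => (b i).2
    choose r hr using hb
    cases nonempty_fintype l
    refine ⟨Finset.univ.sup r + 1, fun k hk => ?_⟩
    have hr' : ∀ i, r i < k := fun i =>
      lt_of_lt_of_le (Nat.lt_succ_of_le (Finset.le_sup (Finset.mem_univ i))) hk
    obtain ⟨θ, hθ⟩ := hISG R U hU (A k) (Fin k) _ _ (hI k).2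
    have h1 : pp (R := R) U (fun i : A k => x i) = P (A k) := (hI k).1
    obtain ⟨θ', hθ'⟩ := gen_sub hθ (fun i => (⟨r i, hr' i⟩ : Fin k))
    have h2 : (fun j : Fin k => y j) ∘ (fun i => (⟨r i, hr' i⟩ : Fin k)) = fun i => (b i : U) :=
      funext hr
    rw [h1, h2] at hθ'
    have h3 : Sum.elim (fun i : A k => x i) (fun i => (b i : U)) = fun z => ((Sum.elim
        (fun i : A k => (⟨x i, hxN i⟩ : N)) b z : N) : U) := by
      funext z
      cases z <;> rfl
    obtain ⟨h4, h5⟩ := hθ'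
    rw [h3] at h4 h5
    refine ⟨θ', (el_sat hEl _ _).mpr h4, fun ψ hψ => h5 ψ ((el_sat hEl _ _).mp hψ)⟩

end

/-- (TLX) coherent families of types along a given exhaustion -/
def St_TLX : Prop := ∀ (R : Type) [Ring R] [Countable R] (U : Md R), MonM R U →
  ∀ (ι : Type) [Countable ι] (P : ∀ A : Finset ι, Set (PP R A)) (A : ℕ → Finset ι), Monotone A →
  (∀ i, ∃ k, i ∈ A k) →
  (∀ A : Finset ι, ∃ c : A → U, pp (R := R) U c = P A) →
  (∀ (A B : Finset ι) (h : A ⊆ B) (φ : PP R A), φ ∈ P A ↔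
    ren (fun i : A => (⟨i.1, h i.2⟩ : B)) φ ∈ P B) →
  ∃ (N : Submodule R U) (c : ι → N), El U N ∧
    (∀ B : Finset ι, pp (R := R) N (fun i : B => c i) = P B) ∧
    ∀ (l : Type) [Finite l] (b : l → N), ∃ k0, ∀ k, k0 ≤ k → ∃ θ : PP R (A k ⊕ l),
      (Own R U).Gen (P (A k)) N (fun i : A k => c i) b θ

/-- (TLX) with prescribed values on the first set of the exhaustion -/
def St_TLY : Prop := ∀ (R : Type) [Ring R] [Countable R] (U : Md R), MonM R U →
  ∀ (ι : Type) [Countable ι] (P : ∀ A : Finset ι, Set (PP R A)) (A : ℕ → Finset ι), Monotone A →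
  (∀ i, ∃ k, i ∈ A k) →
  (∀ A : Finset ι, ∃ c : A → U, pp (R := R) U c = P A) →
  (∀ (A B : Finset ι) (h : A ⊆ B) (φ : PP R A), φ ∈ P A ↔
    ren (fun i : A => (⟨i.1, h i.2⟩ : B)) φ ∈ P B) →
  ∀ x0 : ι → U, pp (R := R) U (fun i : A 0 => x0 i) = P (A 0) →
  ∃ (N : Submodule R U) (c : ι → N), (∀ i ∈ A 0, (c i : U) = x0 i) ∧ El U N ∧
    (∀ B : Finset ι, pp (R := R) N (fun i : B => c i) = P B) ∧
    ∀ (l : Type) [Finite l] (b : l → N), ∃ k0, ∀ k, k0 ≤ k → ∃ θ : PP R (A k ⊕ l),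
      (Own R U).Gen (P (A k)) N (fun i : A k => c i) b θ

theorem thm_TLY (h1 : St_HOMP) (h2 : St_TVP) (h3 : St_ISD) (h4 : St_ISG) : St_TLY := by
  intro R _ _ U hU ι _ P A hA hex hP hc x0 hx0
  exact tlx h1 h2 h3 h4 hU P A hA hex hP hc x0 hx0

theorem thm_TLX (h : St_TLY) : St_TLX := by
  classical
  intro R _ _ U hU ι _ P A hA hex hP hc
  obtain ⟨z, hz⟩ := hP (A 0)
  let x0 : ι → U := fun i => if h : i ∈ A 0 then z ⟨i, h⟩ else 0
  have hx0 : (fun i : A 0 => x0 i) = z := by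
    funext i
    simp only [x0, dif_pos i.2]
  obtain ⟨N, c, -, h1⟩ := h R U hU ι P A hA hex hP hc x0 (by rw [hx0]; exact hz)
  exact ⟨N, c, h1⟩

/-- exhaustions inside a cofinal family of finite sets -/
theorem exists_exh {ι : Type} [Countable ι] (Q : Finset ι → Prop) (hQ : ∀ A, ∃ B, A ⊆ B ∧ Q B) :
    ∃ A : ℕ → Finset ι, Monotone A ∧ (∀ i, ∃ k, i ∈ A k) ∧ ∀ k, Q (A k) := by
  classical
  choose q hq1 hq2 using hQ
  obtain ⟨e, he⟩ := exists_surjective_nat (Option ι)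
  let A : ℕ → Finset ι := fun k =>
    Nat.rec (motive := fun _ => Finset ι) (q ∅) (fun k B => q (B ∪ (e k).toFinset)) k
  have hA : ∀ k, A (k + 1) = q (A k ∪ (e k).toFinset) := fun k => rfl
  refine ⟨A, monotone_nat_of_le_succ fun k => ?_, fun i => ?_, fun k => ?_⟩
  · rw [hA]
    exact (Finset.subset_union_left).trans (hq1 _)
  · obtain ⟨k, hk⟩ := he (some i)
    refine ⟨k + 1, ?_⟩
    rw [hA]
    refine hq1 _ (Finset.mem_union_right _ ?_)
    rw [hk]
    simp
  · cases k with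
    | zero => exact hq2 _
    | succ k => exact hq2 _

/-- (TLI) with a cofinal family of finite sets -/
theorem tlq (h : St_TLX) (R : Type) [Ring R] [Countable R] (U : Md R) (hU : MonM R U)
    (ι : Type) [Countable ι] (P : ∀ A : Finset ι, Set (PP R A)) (Q : Finset ι → Prop)
    (hQ : ∀ A, ∃ B, A ⊆ B ∧ Q B) (hP : ∀ A : Finset ι, ∃ c : A → U, pp (R := R) U c = P A)
    (hc : ∀ (A B : Finset ι) (h : A ⊆ B) (φ : PP R A), φ ∈ P A ↔
      ren (fun i : A => (⟨i.1, h i.2⟩ : B)) φ ∈ P B) :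
    ∃ (N : Submodule R U) (c : ι → N), El U N ∧ (∀ A : Finset ι,
      pp (R := R) N (fun i : A => c i) = P A) ∧
      ∀ (l : Type) [Finite l] (b : l → N) (A₀ : Finset ι), ∃ A : Finset ι, A₀ ⊆ A ∧ Q A ∧
        ∃ θ : PP R (A ⊕ l), (Own R U).Gen (P A) N (fun i : A => c i) b θ := by
  classical
  obtain ⟨A, hA, hex, hQA⟩ := exists_exh Q hQ
  obtain ⟨N, c, h1, h2, h3⟩ := h R U hU ι P A hA hex hP hc
  refine ⟨N, c, h1, h2, fun l _ b A₀ => ?_⟩
  obtain ⟨k0, hk0⟩ := h3 l b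
  choose κ hκ using hex
  refine ⟨A (max k0 (A₀.sup κ)), fun i hi => ?_, hQA _, hk0 _ (le_max_left _ _)⟩
  exact hA ((Finset.le_sup hi).trans (le_max_right _ _)) (hκ i)

theorem thm_TLI (h : St_TLX) : St_TLI := by
  intro R _ _ U hU ι _ P hP hc
  obtain ⟨N, c, h1, h2, h3⟩ := tlq h R U hU ι P (fun _ => True) (fun A => ⟨A, subset_rfl, trivial⟩)
    hP hc
  refine ⟨N, c, h1, h2, fun l _ b A₀ => ?_⟩
  obtain ⟨A, hA, -, h4⟩ := h3 l b A₀
  exact ⟨A, hA, h4⟩

theorem thm_PRM (h : St_TLY) : St_PRM := by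
  classical
  intro R _ _ U hU κ _ b
  cases nonempty_fintype κ
  obtain ⟨N, c, h1, h2, h3, h4⟩ := h R U hU κ (fun A => pp (R := R) U (fun i : A => b i))
    (fun _ => Finset.univ) (fun _ _ _ => subset_rfl) (fun i => ⟨0, Finset.mem_univ i⟩)
    (fun A => ⟨_, rfl⟩)
    (fun A B hAB φ => (sat_ren (fun i : A => (⟨i.1, hAB i.2⟩ : B)) φ (fun i : B => b i)).symm)
    b rfl
  have hcb : (fun i => (c i : U)) = b := funext fun i => h1 i (Finset.mem_univ i)
  have hb : pp (R := R) N c = pp U b := by rw [el_pp h2, hcb]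
  refine ⟨N, c, h2, congrFun hcb, in_own_of_inK ⟨N, h2, ⟨LinearEquiv.refl R N⟩⟩, ?_, ?_, ?_, ?_⟩
  · have := mon_ctbl hU
    infer_instance
  · intro φ hφ
    rw [← hb] at hφ
    exact hφ
  · intro ψ hψ
    refine ⟨{ψ}, ?_, fun M _ _ _ x hx => hx ψ (Finset.mem_singleton_self ψ)⟩
    rw [Finset.coe_singleton, singleton_subset_iff, ← hb]
    exact hψ
  · intro k d
    obtain ⟨k0, hk0⟩ := h4 (Fin k) d
    obtain ⟨θ, hθ1, hθ2⟩ := hk0 k0 le_rfl
    let e : {i // i ∈ (Finset.univ : Finset κ)} → κ := Subtype.val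
    let e' : κ → {i // i ∈ (Finset.univ : Finset κ)} := fun i => ⟨i, Finset.mem_univ i⟩
    have h5 : ∀ (M : Type) (x : κ → M) (y : Fin k → M),
        Sum.elim x y ∘ Sum.map e id = Sum.elim (x ∘ e) y := by
      intro M x y
      funext i
      cases i <;> rfl
    have h6 : ∀ (M : Type) (x : κ → M) (y : Fin k → M),
        Sum.elim (x ∘ e) y ∘ Sum.map e' id = Sum.elim x y := by
      intro M x y
      funext i
      cases i <;> rfl
    refine ⟨ren (Sum.map e id) θ, ?_, fun ψ hψ => ?_⟩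
    · rw [sat_ren, h5]
      exact hθ1
    · obtain ⟨s, hs, h7⟩ := hθ2 (ren (Sum.map e' id) ψ) (by
        rw [sat_ren]
        rw [← h6] at hψ
        exact hψ)
      refine ⟨s.image (ren e), ?_, fun M _ _ hM x y hx hy => ?_⟩
      · intro φ hφ
        obtain ⟨φ', hφ', rfl⟩ := Finset.mem_image.mp (Finset.mem_coe.mp hφ)
        exact (sat_ren e φ' b).mpr (hs (Finset.mem_coe.mpr hφ'))
      · rw [sat_ren, h5] at hy
        have h8 := h7 M hM (x ∘ e) y (fun φ hφ => by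
          have h9 := hx (ren e φ) (Finset.mem_image_of_mem _ hφ)
          rw [sat_ren] at h9
          exact h9) hy
        rw [sat_ren, h6] at h8
        exact h8

end Pool.Agent.VMF
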