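import Pool.Agent.VMF.Top
import Pool.Agent.MVC.KMS
import Pool.Agent.MVC.KPF
import Pool.Agent.MVC.KME
import Pool.Agent.MVC.KIN

/-!
# VMF: invariants of tuples in countable models take countably many values (helper23)

`Msr T P`: the property `P` of tuples in modules is invariant under isomorphisms and measurable on the
space of the models of `T` on `ℕ`.  Closure: `Msr.sat1`, `Msr.not`, `Msr.and`, `Msr.iInter`, `Msr.iUnion`,
`Msr.ex`.  The tool: `few_values`.
-/

set_option autoImplicit false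
set_option linter.unusedSectionVars false
set_option linter.unusedVariables false

namespace Pool.Agent.VMF

open Set Pool.Agent.MVC FirstOrder Pool.Agent.Helper6.Str Pool.Agent.Helper5.DU

section

variable {R : Type} [Ring R] [Countable R] {T : (LMod R).Theory} {n : ℕ}

/-- properties of `n`-tuples in modules -/
abbrev Prp (R : Type) [Ring R] (n : ℕ) : Type 1 :=
  ∀ (M : Type) [AddCommGroup M] [Module R M], (Fin n → M) → Prop

/-- invariance under isomorphisms -/
def Inv (P : Prp R n) : Prop :=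
  ∀ (M N : Type) [AddCommGroup M] [Module R M] [AddCommGroup N] [Module R N] (e : M ≃ₗ[R] N)
    (x : Fin n → M), P M x → P N (fun i => e (x i))

theorem Inv.iff {P : Prp R n} (hP : Inv P) {M N : Type} [AddCommGroup M] [Module R M]
    [AddCommGroup N] [Module R N] (e : M ≃ₗ[R] N) (y : Fin n → M) :
    P N (fun i => e (y i)) ↔ P M y := by
  constructor
  · intro h
    have h' := hP N M e.symm _ h
    have h3 : (fun i => e.symm (e (y i))) = y := by
      funext i
      exact e.symm_apply_apply (y i)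
    rw [h3] at h'
    exact h'
  · intro h
    exact hP M N e _ h

/-- invariant, and measurable on the models of `T` -/
structure Msr (T : (LMod R).Theory) (P : Prp R n) : Prop where
  inv : Inv P
  meas : ∀ v : Fin n → ℕ, MeasurableSet {c : Code (LR R) | toStr c ∈ Kof T ∧ AtM (toStr c) P v}

theorem atM_iff {P : Prp R n} (hP : Inv P)
    (g : AddCommGroup ℕ) (m : @Module R ℕ _ g.toAddCommMonoid) (v : Fin n → ℕ) :
    AtM (grph (@modStr R _ ℕ g m)) P v ↔ @P ℕ g m v := by
  constructor
  · rintro ⟨g', m', h, hp⟩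
    exact (thm_KIN R n P hP).2.1 g' g m' m h.symm v hp
  · intro h
    exact ⟨g, m, rfl, h⟩

theorem kof_iff (hT : ∀ S : (LMod R).Structure ℕ,
      @FirstOrder.Language.Theory.Model (LMod R) ℕ S T → IsMod S)
    (S : (LR R).Structure ℕ) : S ∈ Kof T ↔
      ∃ (g : AddCommGroup ℕ) (m : @Module R ℕ _ g.toAddCommMonoid),
        @Mods R _ T ℕ g m ∧ S = grph (@modStr R _ ℕ g m) := by
  constructor
  · rintro ⟨S₀, h1, rfl⟩
    obtain ⟨g, m, rfl⟩ := hT S₀ h1
    exact ⟨g, m, h1, rfl⟩
  · rintro ⟨g, m, h1, rfl⟩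
    exact ⟨_, h1, rfl⟩

/-- the general form of the closure properties -/
theorem meas_iff (hT : ∀ S : (LMod R).Structure ℕ,
      @FirstOrder.Language.Theory.Model (LMod R) ℕ S T → IsMod S) {P : Prp R n} (hP : Inv P)
    (v : Fin n → ℕ) {A : Set (Code (LR R))} (hA : MeasurableSet A)
    (h : ∀ (c : Code (LR R)) (g : AddCommGroup ℕ) (m : @Module R ℕ _ g.toAddCommMonoid),
      toStr c = grph (@modStr R _ ℕ g m) → toStr c ∈ Kof T → (c ∈ A ↔ @P ℕ g m v)) :
    MeasurableSet {c : Code (LR R) | toStr c ∈ Kof T ∧ AtM (toStr c) P v} := by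
  have h1 : {c : Code (LR R) | toStr c ∈ Kof T ∧ AtM (toStr c) P v} =
      {c : Code (LR R) | toStr c ∈ Kof T} ∩ A := by
    ext c
    constructor
    · rintro ⟨hc, h2⟩
      obtain ⟨g, m, -, hS⟩ := (kof_iff hT _).1 hc
      refine ⟨hc, (h c g m hS hc).2 ?_⟩
      rw [hS, atM_iff hP] at h2
      exact h2
    · rintro ⟨hc, h2⟩
      obtain ⟨g, m, -, hS⟩ := (kof_iff hT _).1 hc
      refine ⟨hc, ?_⟩
      rw [hS, atM_iff hP]
      exact (h c g m hS hc).1 h2
  rw [h1]
  exact (thm_KMS R T).inter hA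

theorem Msr.mem_iff {P : Prp R n} (hP : Msr T P) {c : Code (LR R)} {g : AddCommGroup ℕ}
    {m : @Module R ℕ _ g.toAddCommMonoid} (hc : toStr c = grph (@modStr R _ ℕ g m))
    (hK : toStr c ∈ Kof T) (v : Fin n → ℕ) :
    c ∈ {c : Code (LR R) | toStr c ∈ Kof T ∧ AtM (toStr c) P v} ↔ @P ℕ g m v := by
  have h1 : AtM (toStr c) P v ↔ @P ℕ g m v := by
    rw [hc, atM_iff hP.inv]
  exact ⟨fun h => h1.1 h.2, fun h => ⟨hK, h1.2 h⟩⟩

theorem Msr.sat1 (hT : ∀ S : (LMod R).Structure ℕ,
      @FirstOrder.Language.Theory.Model (LMod R) ℕ S T → IsMod S) (V : L1 R (Fin n)) :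
    Msr T (fun (M : Type) [AddCommGroup M] [Module R M] (x : Fin n → M) => Sat1 V M x) :=
  ⟨fun M N _ _ _ _ e x h => h.map (e : M →ₗ[R] N), fun v => thm_KME thm_KMS R T hT n V v⟩

theorem Msr.congr {P Q : Prp R n} (hP : Msr T P)
    (h : ∀ (M : Type) [AddCommGroup M] [Module R M] (x : Fin n → M), P M x ↔ Q M x) :
    Msr T Q := by
  have h1 : P = Q := by
    funext M _ _ x
    exact propext (h M x)
  rwa [h1] at hP

theorem Msr.not (hT : ∀ S : (LMod R).Structure ℕ,
      @FirstOrder.Language.Theory.Model (LMod R) ℕ S T → IsMod S) {P : Prp R n} (hP : Msr T P) :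
    Msr T (fun (M : Type) [AddCommGroup M] [Module R M] (x : Fin n → M) => ¬ P M x) := by
  have hI : Inv (fun (M : Type) [AddCommGroup M] [Module R M] (x : Fin n → M) => ¬ P M x) := by
    intro M N _ _ _ _ e x h h'
    exact h ((hP.inv.iff e x).1 h')
  refine ⟨hI, fun v => meas_iff hT hI v (hP.meas v).compl ?_⟩
  intro c g m hc hK
  rw [mem_compl_iff, hP.mem_iff hc hK]

theorem Msr.iInter (hT : ∀ S : (LMod R).Structure ℕ,
      @FirstOrder.Language.Theory.Model (LMod R) ℕ S T → IsMod S) {J : Type} [Countable J]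
    {P : J → Prp R n} (hP : ∀ j, Msr T (P j)) :
    Msr T (fun (M : Type) [AddCommGroup M] [Module R M] (x : Fin n → M) => ∀ j, P j M x) := by
  have hI : Inv (fun (M : Type) [AddCommGroup M] [Module R M] (x : Fin n → M) =>
      ∀ j, P j M x) := fun M N _ _ _ _ e x h j => (hP j).inv M N e x (h j)
  refine ⟨hI, fun v => meas_iff hT hI v (MeasurableSet.iInter fun j => (hP j).meas v) ?_⟩
  intro c g m hc hK
  rw [mem_iInter]
  exact forall_congr' fun j => (hP j).mem_iff hc hK v

theorem Msr.iUnion (hT : ∀ S : (LMod R).Structure ℕ,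
      @FirstOrder.Language.Theory.Model (LMod R) ℕ S T → IsMod S) {J : Type} [Countable J]
    {P : J → Prp R n} (hP : ∀ j, Msr T (P j)) :
    Msr T (fun (M : Type) [AddCommGroup M] [Module R M] (x : Fin n → M) => ∃ j, P j M x) := by
  have hI : Inv (fun (M : Type) [AddCommGroup M] [Module R M] (x : Fin n → M) =>
      ∃ j, P j M x) := fun M N _ _ _ _ e x h => h.imp fun j h => (hP j).inv M N e x h
  refine ⟨hI, fun v => meas_iff hT hI v (MeasurableSet.iUnion fun j => (hP j).meas v) ?_⟩
  intro c g m hc hK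
  rw [mem_iUnion]
  exact exists_congr fun j => (hP j).mem_iff hc hK v

theorem Msr.and (hT : ∀ S : (LMod R).Structure ℕ,
      @FirstOrder.Language.Theory.Model (LMod R) ℕ S T → IsMod S) {P Q : Prp R n} (hP : Msr T P)
    (hQ : Msr T Q) :
    Msr T (fun (M : Type) [AddCommGroup M] [Module R M] (x : Fin n → M) => P M x ∧ Q M x) := by
  have hI : Inv (fun (M : Type) [AddCommGroup M] [Module R M] (x : Fin n → M) =>
      P M x ∧ Q M x) := fun M N _ _ _ _ e x h => ⟨hP.inv M N e x h.1, hQ.inv M N e x h.2⟩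
  refine ⟨hI, fun v => meas_iff hT hI v ((hP.meas v).inter (hQ.meas v)) ?_⟩
  intro c g m hc hK
  rw [mem_inter_iff, hP.mem_iff hc hK, hQ.mem_iff hc hK]

/-- constant properties -/
theorem Msr.const (hT : ∀ S : (LMod R).Structure ℕ,
      @FirstOrder.Language.Theory.Model (LMod R) ℕ S T → IsMod S) (p : Prop) :
    Msr T (n := n) (fun (M : Type) [AddCommGroup M] [Module R M] (x : Fin n → M) => p) := by
  have hI : Inv (R := R) (n := n) (fun (M : Type) [AddCommGroup M] [Module R M]
      (x : Fin n → M) => p) := fun M N _ _ _ _ e x h => h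
  refine ⟨hI, fun v => meas_iff hT hI v (A := {c | p}) (MeasurableSet.const p) ?_⟩
  intro c g m hc hK
  exact Iff.rfl

/-- existence of further elements -/
theorem Msr.ex (hT : ∀ S : (LMod R).Structure ℕ,
      @FirstOrder.Language.Theory.Model (LMod R) ℕ S T → IsMod S) {k : ℕ} {P : Prp R (n + k)}
    (hP : Msr T P) :
    Msr T (fun (M : Type) [AddCommGroup M] [Module R M] (x : Fin n → M) =>
      ∃ y : Fin k → M, P M (Fin.append x y)) := by
  have hI : Inv (fun (M : Type) [AddCommGroup M] [Module R M] (x : Fin n → M) =>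
      ∃ y : Fin k → M, P M (Fin.append x y)) := by
    rintro M N _ _ _ _ e x ⟨y, hy⟩
    refine ⟨fun i => e (y i), ?_⟩
    have h1 := hP.inv M N e _ hy
    have h2 : (fun i => e (Fin.append x y i)) = Fin.append (fun i => e (x i)) (fun i => e (y i)) := by
      funext i
      refine Fin.addCases (fun i => ?_) (fun i => ?_) i <;> simp
    rwa [h2] at h1
  refine ⟨hI, fun v => meas_iff hT hI v
    (MeasurableSet.iUnion fun w : Fin k → ℕ => hP.meas (Fin.append v w)) ?_⟩
  intro c g m hc hK
  rw [mem_iUnion]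
  exact exists_congr fun w => hP.mem_iff hc hK (Fin.append v w)

/-- renaming -/
theorem Msr.comap (hT : ∀ S : (LMod R).Structure ℕ,
      @FirstOrder.Language.Theory.Model (LMod R) ℕ S T → IsMod S) {k : ℕ} {P : Prp R k}
    (hP : Msr T P) (f : Fin k → Fin n) :
    Msr T (fun (M : Type) [AddCommGroup M] [Module R M] (x : Fin n → M) => P M (x ∘ f)) := by
  have hI : Inv (fun (M : Type) [AddCommGroup M] [Module R M] (x : Fin n → M) =>
      P M (x ∘ f)) := fun M N _ _ _ _ e x h => hP.inv M N e _ h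
  refine ⟨hI, fun v => meas_iff hT hI v (hP.meas (v ∘ f)) ?_⟩
  intro c g m hc hK
  exact hP.mem_iff hc hK (v ∘ f)

private theorem ctblRel (R : Type) [Countable R] (n : ℕ) : Countable ((LR R).Relations n) := by
  change Countable (ModRel R n)
  refine Function.Injective.countable (f := fun r : ModRel R n =>
    (match n, r with
      | _, ModRel.zero => Sum.inl true
      | _, ModRel.smul r => Sum.inr r
      | _, ModRel.add => Sum.inl false : Bool ⊕ R)) ?_
  intro r s h
  cases r <;> cases s <;> simp_all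

theorem lequiv {M N : Type} [AddCommGroup M] [Module R M]
    [AddCommGroup N] [Module R N] (e : M ≃ₗ[R] N) :
    Nonempty (@FirstOrder.Language.Equiv (LMod R) M N (modStr R M) (modStr R N)) :=
  ⟨@FirstOrder.Language.Equiv.mk (LMod R) M N (modStr R M) (modStr R N) e.toEquiv (by
    intro n f x
    cases f with
    | zero => exact map_zero e
    | smul r => exact map_smul e r (x 0)
    | add => exact map_add e (x 0) (x 1)) (by
    intro n r x
    exact nomatch r)⟩

theorem mods_equiv (T : (LMod R).Theory) {M N : Type}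
    [AddCommGroup M] [Module R M] [AddCommGroup N] [Module R N] (e : M ≃ₗ[R] N)
    (h : Mods T M) : Mods T N := by
  let i1 : (LMod R).Structure M := modStr R M
  let i2 : (LMod R).Structure N := modStr R N
  obtain ⟨E⟩ := lequiv e
  have h1 := FirstOrder.Language.StrongHomClass.elementarilyEquivalent (L := LMod R) E
  have h2 : M ⊨ T := h
  exact h1.theory_model

/-- **The tool.**  A countable family of measurable properties takes countably many values. -/
theorem few_values (hT : ∀ S : (LMod R).Structure ℕ,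
      @FirstOrder.Language.Theory.Model (LMod R) ℕ S T → IsMod S) (hnp : ¬ PerfMod T)
    {J : Type} [Countable J] (P : J → Prp R n) (hP : ∀ j, Msr T (P j)) :
    {Z : J → Prop | ∃ M : Md R, Countable M ∧ Infinite M ∧ Mods T M ∧ ∃ y : Fin n → M,
      Z = fun j => P j M y}.Countable := by
  have hRel : ∀ n, Countable ((LR R).Relations n) := ctblRel R
  have hPK : ¬ PerfK (Kof T) := fun h => hnp (thm_KPF R T h)
  let Q : J → Prp R n := fun j M _ _ x => Mods T M ∧ P j M x
  have hQ : ∀ j, Inv (Q j) := fun j M N _ _ _ _ e x h =>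
    ⟨mods_equiv T e h.1, (hP j).inv M N e x h.2⟩
  have hQA : ∀ j (S : (LR R).Structure ℕ) v, AtM S (Q j) v ↔ S ∈ Kof T ∧ AtM S (P j) v := by
    intro j S v
    constructor
    · rintro ⟨g, m, rfl, h, h'⟩
      exact ⟨(kof_iff hT _).mpr ⟨g, m, h, rfl⟩, ⟨g, m, rfl, h'⟩⟩
    · rintro ⟨hS, h'⟩
      obtain ⟨g, m, hm, rfl⟩ := (kof_iff hT S).mp hS
      rw [atM_iff (hP j).inv] at h'
      exact ⟨g, m, rfl, hm, h'⟩
  obtain ⟨ρ, hρ⟩ := ctbl_of_props (L := LR R) (K := Kof T) (thm_KMS R T) hPK (n := n)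
    (fun j S v => AtM S (Q j) v) (by
      intro j v
      have : {c : Code (LR R) | AtM (toStr c) (Q j) v} =
          {c : Code (LR R) | toStr c ∈ Kof T ∧ AtM (toStr c) (P j) v} := by
        ext c
        exact hQA j (toStr c) v
      rw [this]
      exact (hP j).meas v) (by
      intro j S S' e v he h
      exact (thm_KIN R n (Q j) (hQ j)).1 S S' e v he h)
  refine (countable_range fun k : ℕ => fun j => AtM (ρ k).1 (Q j) (ρ k).2).mono ?_
  rintro Z ⟨N, hNc, hNi, hN, y, rfl⟩
  obtain ⟨g, m, e, hK⟩ := (thm_KIN R 0 (fun _ _ _ _ => True)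
    (fun _ _ _ _ _ _ _ _ _ => trivial)).2.2 N T hN
  obtain ⟨k, -, hk⟩ := hρ _ hK (fun i => e (y i))
  refine ⟨k, ?_⟩
  funext j
  refine propext ((hk j).symm.trans ?_)
  rw [hQA j, atM_iff (hP j).inv]
  have h5 := @Inv.iff R _ _ n (P j) (hP j).inv N ℕ _ _ g m e y
  exact ⟨fun h => h5.mp h.2, fun h => ⟨hK, h5.mpr h⟩⟩

end

end Pool.Agent.VMF
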