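import Pool.Agent.VMF.StW

/-!
# VMF, block W: [WOP], `q^1` of a subtype of finite index
-/

set_option autoImplicit false
set_option linter.unusedSectionVars false
set_option linter.unusedVariables false

namespace Pool.Agent.VMF

open Set Pool.Agent.MVC Pool.Agent.MVC.Ax

private theorem wop_between {G : Type} [AddCommGroup G] {c d : AddSubgroup G}
    (h : c.relIndex d ≠ 0) : {s : AddSubgroup G | c ≤ s ∧ s ≤ d}.Finite := by
  have hfin : (c.addSubgroupOf d).FiniteIndex := ⟨h⟩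
  have : Finite (d ⧸ c.addSubgroupOf d) := AddSubgroup.finite_quotient_of_finiteIndex
  let F : AddSubgroup G → Set (d ⧸ c.addSubgroupOf d) := fun s =>
    (QuotientAddGroup.mk) '' {x : d | (x : G) ∈ s}
  refine Set.Finite.of_finite_image (f := F) (Set.toFinite _) ?_
  rintro s ⟨hs, hs'⟩ t ⟨ht, ht'⟩ hst
  have key : ∀ s t : AddSubgroup G, c ≤ s → s ≤ d → c ≤ t → t ≤ d → F s = F t → s ≤ t := by
    intro s t hs hs' ht ht' hst x hx
    have h1 : (QuotientAddGroup.mk (⟨x, hs' hx⟩ : d) : d ⧸ c.addSubgroupOf d) ∈ F s :=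
      ⟨_, hx, rfl⟩
    rw [hst] at h1
    obtain ⟨y, hy, hxy⟩ := h1
    rw [QuotientAddGroup.eq] at hxy
    have h2 : -(y : G) + x ∈ c := hxy
    have h3 : x = y + (-(y : G) + x) := by abel
    rw [h3]
    exact t.add_mem hy (ht h2)
  exact le_antisymm (key s t hs hs' ht ht' hst) (key t s ht ht' hs hs' hst.symm)

private theorem wop_single {R : Type} [Ring R] {ι : Type} {U : Type} [AddCommGroup U] [Module R U]
    {ψ : PP R ι} {x : ι → U} : x ∈ grp U {ψ} ↔ Sat ψ U x :=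
  ⟨fun h => h ψ rfl, fun h φ hφ => by
    rw [Set.mem_singleton_iff] at hφ
    rw [hφ]
    exact h⟩

theorem thm_WOP (hSA : St_WSA) (hFC : St_WFC) : St_WOP := by
  intro R _ _ U hU ι _ S S' hfi hS'S x hx' hx1 ψ hψ
  obtain ⟨hψf, hψp⟩ := hψ
  obtain ⟨ψ', hψ'f, hψ'1, hψ'2⟩ := hFC R U ι S S' hfi
  let T : Set (PP R ι) := S ∪ {ψ', ψ}
  have hT1 : ∀ y : ι → U, Re T U y → Re S' U y := by
    intro y hy
    exact hψ'2 y (fun φ hφ => hy φ (Or.inl hφ)) (hy ψ' (Or.inr (Or.inl rfl)))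
  have hT2 : ∀ y : ι → U, Re T U y → Sat ψ U y := fun y hy => hy ψ (Or.inr (Or.inr rfl))
  have hT3 : ∀ y : ι → U, Re S' U y → Sat ψ U y → Re T U y := by
    intro y hy hy' φ hφ
    rcases hφ with hφ | hφ | hφ
    · exact hS'S y hy φ hφ
    · rw [hφ]; exact hψ'1 y hy
    · rw [hφ]; exact hy'
  have hTS : grp U T ≤ grp U S := fun y hy φ hφ => hy φ (Or.inl hφ)
  have hH : (grp U T).relIndex (grp U S) ≠ 0 := by
    have h1 : (grp U {ψ}).relIndex (grp U S) ≠ 0 :=
      AddSubgroup.relIndex_ne_zero_trans hψf hfi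
    have h2 : (grp U S' ⊓ grp U {ψ}).relIndex (grp U S) ≠ 0 :=
      AddSubgroup.relIndex_inf_ne_zero hfi h1
    refine fun h0 => h2 (AddSubgroup.relIndex_eq_zero_of_le_left ?_ h0)
    rintro y ⟨hy, hy'⟩
    exact hT3 y hy (wop_single.1 hy')
  -- the largest sum
  let Q : Set (AddSubgroup (ι → U)) :=
    {s | ∃ χ : PP R ι, (∀ y : ι → U, Sat χ U y → Re S U y) ∧ s = grp U T ⊔ grp U {χ}}
  have hQle : ∀ χ : PP R ι, (∀ y : ι → U, Sat χ U y → Re S U y) → grp U {χ} ≤ grp U S :=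
    fun χ hχ y hy => hχ y (wop_single.1 hy)
  have hQfin : Q.Finite := by
    refine (wop_between hH).subset ?_
    rintro _ ⟨χ, hχ, rfl⟩
    exact ⟨le_sup_left, sup_le hTS (hQle χ hχ)⟩
  have hQne : Q.Nonempty := by
    obtain ⟨χ, hχ⟩ := isPP_zero (R := R) (ι := ι)
    refine ⟨_, χ, fun y hy => ?_, rfl⟩
    rw [← hχ U y] at hy
    rw [hy]
    exact Re.zero S
  obtain ⟨m, hm, hmax⟩ := hQfin.exists_maximal hQne
  obtain ⟨χ₀, hχ₀, rfl⟩ := hm
  have hall : ∀ χ : PP R ι, (∀ y : ι → U, Sat χ U y → Re S U y) →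
      grp U {χ} ≤ grp U T ⊔ grp U {χ₀} := by
    intro χ hχ
    obtain ⟨χ₁, hχ₁⟩ := (isPP_sat (R := R) χ₀).sum (isPP_sat χ)
    have h1 : ∀ y : ι → U, Sat χ₁ U y → Re S U y := by
      intro y hy
      rw [← hχ₁ U y] at hy
      obtain ⟨z, hz, hz'⟩ := hy
      have h2 : y = z + (y - z) := by abel
      rw [h2]
      exact Re.add (hχ₀ z hz) (hχ _ hz')
    have h2 : grp U {χ₀} ≤ grp U {χ₁} := by
      intro y hy
      rw [wop_single] at hy ⊢
      rw [← hχ₁ U y]
      exact ⟨y, hy, by rw [sub_self]; exact Sat.zero χ⟩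
    have h3 : grp U {χ} ≤ grp U {χ₁} := by
      intro y hy
      rw [wop_single] at hy ⊢
      rw [← hχ₁ U y]
      exact ⟨0, Sat.zero χ₀, by rw [sub_zero]; exact hy⟩
    have h4 : grp U T ⊔ grp U {χ₁} ≤ grp U T ⊔ grp U {χ₀} :=
      hmax ⟨χ₁, h1, rfl⟩ (sup_le_sup_left h2 _)
    exact h3.trans (le_sup_right.trans h4)
  -- `x` is in the sum
  have hx2 : x ∈ grp U T ⊔ grp U {χ₀} := by
    obtain ⟨δ, hδ⟩ : IsPP (R := R) (ι := ι ⊕ ι)
        (fun M _ _ z => Sat χ₀ M (fun i => z (Sum.inl i) - z (Sum.inr i))) := by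
      refine ((isPP_sat (R := R) χ₀).subst (fun i : ι => Finsupp.single (Sum.inl i) (1 : R) -
        Finsupp.single (Sum.inr i) 1)).congr (fun M _ _ x => ?_)
      simp [map_sub]
    have hδ' : ∀ z : ι ⊕ ι → U, Sat χ₀ U (fun i => z (Sum.inl i) - z (Sum.inr i)) ↔ Sat δ U z :=
      fun z => hδ U z
    by_contra hx2
    by_cases hs : ∀ s t : Finset (PP R (ι ⊕ ι)), ↑s ⊆ (ren Sum.inr '' T ∪ {δ}) →
        ↑t ⊆ (∅ : Set (PP R (ι ⊕ ι))) → ∃ y : ι → U,
        (∀ φ ∈ s, Sat φ U (Sum.elim x y)) ∧ ∀ φ ∈ t, ¬ Sat φ U (Sum.elim x y)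
    · obtain ⟨y, hy, -⟩ := hSA R U hU ι ι x _ _ hs
      have h1 : Re T U y := by
        intro φ hφ
        have h2 := hy _ (Or.inl (mem_image_of_mem _ hφ))
        rw [sat_ren] at h2
        exact h2
      have h2 : Sat χ₀ U (x - y) := by
        have h3 := hy _ (Or.inr rfl)
        rw [← hδ U] at h3
        exact h3
      apply hx2
      have h3 : x = y + (x - y) := by abel
      rw [h3]
      exact AddSubgroup.add_mem_sup h1 (wop_single.2 h2)
    · push Not at hs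
      obtain ⟨s, t, hs1, ht1, hs2⟩ := hs
      obtain ⟨ψ₁, hψ₁⟩ := (isPP_finset (R := R) (ι := ι ⊕ ι) s).ex
      have h1 : grp U T ⊔ grp U {χ₀} ≤ grp U {ψ₁} := by
        refine sup_le (fun u hu => ?_) fun u hu => ?_
        · rw [wop_single, ← hψ₁ U u]
          refine ⟨u, fun φ hφ => ?_⟩
          rcases hs1 hφ with ⟨φ', hφ', rfl⟩ | h
          · rw [sat_ren]
            exact hu φ' hφ'
          · rw [Set.mem_singleton_iff] at h
            rw [h]
            refine (hδ' _).1 ?_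
            have h2 : (fun i => (Sum.elim u u : ι ⊕ ι → U) (Sum.inl i) -
                (Sum.elim u u : ι ⊕ ι → U) (Sum.inr i)) = 0 := by
              funext i
              simp
            rw [h2]
            exact Sat.zero χ₀
        · rw [wop_single] at hu
          rw [wop_single, ← hψ₁ U u]
          refine ⟨0, fun φ hφ => ?_⟩
          rcases hs1 hφ with ⟨φ', hφ', rfl⟩ | h
          · rw [sat_ren]
            exact Sat.zero φ'
          · rw [Set.mem_singleton_iff] at h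
            rw [h]
            refine (hδ' _).1 ?_
            have h2 : (fun i => (Sum.elim u 0 : ι ⊕ ι → U) (Sum.inl i) -
                (Sum.elim u 0 : ι ⊕ ι → U) (Sum.inr i)) = u := by
              funext i
              simp
            rw [h2]
            exact hu
      have h2 : ψ₁ ∈ one U S := by
        refine ⟨fun h0 => hH (AddSubgroup.relIndex_eq_zero_of_le_left
          (le_sup_left.trans h1) h0), fun χ hχ y hy => ?_⟩
        exact h1 (hall χ hχ (wop_single.2 hy))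
      have h3 := hx1 ψ₁ h2
      rw [← hψ₁ U x] at h3
      obtain ⟨y, hy⟩ := h3
      obtain ⟨φ, hφ, -⟩ := hs2 y hy
      exact ht1 hφ
  -- the end
  obtain ⟨h, hh, u, hu, rfl⟩ := AddSubgroup.mem_sup.1 hx2
  rw [wop_single] at hu
  have hu' : Re S' U u := by
    have h1 := Re.sub hx' (hT1 h hh)
    rw [add_sub_cancel_left] at h1
    exact h1
  obtain ⟨χ₂, hχ₂⟩ := (isPP_sat (R := R) χ₀).and (isPP_sat ψ')
  have h1 : Sat ψ U u := by
    refine hψp χ₂ (fun y hy => ?_) u ?_ ψ rfl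
    · rw [← hχ₂ U y] at hy
      exact hψ'2 y (hχ₀ y hy.1) hy.2
    · rw [← hχ₂ U u]
      exact ⟨hu, hψ'1 u hu'⟩
  exact (hT2 h hh).add h1

end Pool.Agent.VMF
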